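import Pool.Agent.GAM.Defs

/-!
# GAM: basic formulas for `H`, `E`, `χ` and the translates `F_x`
-/

set_option autoImplicit false
set_option linter.unusedSectionVars false

namespace GAM

open scoped ComplexConjugate

variable {ι : Type} [Fintype ι]

/-! ## The forms -/

lemma H_add_left (z z' w : ι → ℂ) : H (z + z') w = H z w + H z' w := by
  unfold H; rw [← Finset.sum_add_distrib]
  exact Finset.sum_congr rfl fun a _ => by rw [Pi.add_apply]; ring

lemma H_add_right (z w w' : ι → ℂ) : H z (w + w') = H z w + H z w' := by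
  unfold H; rw [← Finset.sum_add_distrib]
  exact Finset.sum_congr rfl fun a _ => by rw [Pi.add_apply, map_add]; ring

lemma H_smul_left (c : ℂ) (z w : ι → ℂ) : H (c • z) w = c * H z w := by
  unfold H; rw [Finset.mul_sum]
  exact Finset.sum_congr rfl fun a _ => by rw [Pi.smul_apply, smul_eq_mul]; ring

lemma H_smul_right (c : ℂ) (z w : ι → ℂ) : H z (c • w) = conj c * H z w := by
  unfold H; rw [Finset.mul_sum]
  exact Finset.sum_congr rfl fun a _ => by rw [Pi.smul_apply, smul_eq_mul, map_mul]; ring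

lemma H_neg_left (z w : ι → ℂ) : H (-z) w = - H z w := by
  have h := H_smul_left (-1) z w
  rwa [neg_one_smul, neg_one_mul] at h

lemma H_neg_right (z w : ι → ℂ) : H z (-w) = - H z w := by
  have h := H_smul_right (-1) z w
  rwa [neg_one_smul, map_neg, map_one, neg_one_mul] at h

lemma H_sub_left (z z' w : ι → ℂ) : H (z - z') w = H z w - H z' w := by
  rw [sub_eq_add_neg, H_add_left, H_neg_left, sub_eq_add_neg]

lemma H_sub_right (z w w' : ι → ℂ) : H z (w - w') = H z w - H z w' := by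
  rw [sub_eq_add_neg, H_add_right, H_neg_right, sub_eq_add_neg]

lemma H_zero_left (w : ι → ℂ) : H 0 w = 0 := by
  unfold H; exact Finset.sum_eq_zero fun a _ => by rw [Pi.zero_apply, zero_mul]

lemma H_zero_right (z : ι → ℂ) : H z 0 = 0 := by
  unfold H; exact Finset.sum_eq_zero fun a _ => by rw [Pi.zero_apply, map_zero, mul_zero]

lemma H_conj (z w : ι → ℂ) : conj (H z w) = H w z := by
  unfold H; rw [map_sum]
  exact Finset.sum_congr rfl fun a _ => by rw [map_mul, Complex.conj_conj, mul_comm]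

lemma H_self (z : ι → ℂ) : H z z = ((∑ a, ‖z a‖ ^ 2 : ℝ) : ℂ) := by
  unfold H
  push_cast
  exact Finset.sum_congr rfl fun a _ => by rw [Complex.mul_conj']

lemma H_self_re (z : ι → ℂ) : (H z z).re = ∑ a, ‖z a‖ ^ 2 := by
  rw [H_self, Complex.ofReal_re]

lemma H_self_nonneg (z : ι → ℂ) : 0 ≤ (H z z).re := by
  rw [H_self_re]; positivity

lemma H_self_im (z : ι → ℂ) : (H z z).im = 0 := by
  rw [H_self, Complex.ofReal_im]

lemma H_self_eq_zero {z : ι → ℂ} (h : (H z z).re = 0) : z = 0 := by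
  rw [H_self_re, Finset.sum_eq_zero_iff_of_nonneg fun _ _ => by positivity] at h
  funext a
  have := h a (Finset.mem_univ a)
  simpa using this

lemma H_rsmul_left (c : ℝ) (z w : ι → ℂ) : H (c • z) w = c * H z w := by
  have h : c • z = (c : ℂ) • z := by funext a; simp
  rw [h, H_smul_left]

lemma H_rsmul_right (c : ℝ) (z w : ι → ℂ) : H z (c • w) = c * H z w := by
  have h : c • w = (c : ℂ) • w := by funext a; simp
  rw [h, H_smul_right, Complex.conj_ofReal]

lemma H_zsmul_left (n : ℤ) (z w : ι → ℂ) : H (n • z) w = n * H z w := by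
  have h : n • z = (n : ℂ) • z := by funext a; simp
  rw [h, H_smul_left]

lemma H_zsmul_right (n : ℤ) (z w : ι → ℂ) : H z (n • w) = n * H z w := by
  have h : n • w = (n : ℂ) • w := by funext a; simp
  rw [h, H_smul_right, map_intCast]

lemma E_add_left (z z' w : ι → ℂ) : E (z + z') w = E z w + E z' w := by
  unfold E; rw [H_add_left, Complex.add_im]

lemma E_add_right (z w w' : ι → ℂ) : E z (w + w') = E z w + E z w' := by
  unfold E; rw [H_add_right, Complex.add_im]

lemma E_neg_left (z w : ι → ℂ) : E (-z) w = - E z w := by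
  unfold E; rw [H_neg_left, Complex.neg_im]

lemma E_neg_right (z w : ι → ℂ) : E z (-w) = - E z w := by
  unfold E; rw [H_neg_right, Complex.neg_im]

lemma E_sub_left (z z' w : ι → ℂ) : E (z - z') w = E z w - E z' w := by
  unfold E; rw [H_sub_left, Complex.sub_im]

lemma E_sub_right (z w w' : ι → ℂ) : E z (w - w') = E z w - E z w' := by
  unfold E; rw [H_sub_right, Complex.sub_im]

lemma E_zero_left (w : ι → ℂ) : E 0 w = 0 := by unfold E; rw [H_zero_left, Complex.zero_im]

lemma E_zero_right (z : ι → ℂ) : E z 0 = 0 := by unfold E; rw [H_zero_right, Complex.zero_im]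

lemma E_rsmul_left (c : ℝ) (z w : ι → ℂ) : E (c • z) w = c * E z w := by
  unfold E; rw [H_rsmul_left]; simp

lemma E_rsmul_right (c : ℝ) (z w : ι → ℂ) : E z (c • w) = c * E z w := by
  unfold E; rw [H_rsmul_right]; simp

lemma E_zsmul_left (n : ℤ) (z w : ι → ℂ) : E (n • z) w = n * E z w := by
  unfold E; rw [H_zsmul_left]; simp

lemma E_zsmul_right (n : ℤ) (z w : ι → ℂ) : E z (n • w) = n * E z w := by
  unfold E; rw [H_zsmul_right]; simp

lemma E_symm (z w : ι → ℂ) : E z w = - E w z := by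
  unfold E; rw [← H_conj w z, Complex.conj_im]

lemma E_self (z : ι → ℂ) : E z z = 0 := H_self_im z

lemma H_sub_H (z w : ι → ℂ) : H z w - H w z = 2 * Complex.I * E z w := by
  rw [← H_conj z w]
  apply Complex.ext
  · simp
  · simp [E]; ring

lemma H_add_H (z w : ι → ℂ) : H z w + H w z = 2 * ((H z w).re : ℂ) := by
  rw [← H_conj z w]
  apply Complex.ext
  · simp; ring
  · simp

/-- `z ↦ H(z, w)` as a linear map -/
noncomputable def Hl (w : ι → ℂ) : (ι → ℂ) →ₗ[ℂ] ℂ where
  toFun z := H z w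
  map_add' z z' := H_add_left z z' w
  map_smul' c z := H_smul_left c z w

/-- `z ↦ H(z, w)` as a continuous linear map -/
noncomputable def Hc (w : ι → ℂ) : (ι → ℂ) →L[ℂ] ℂ := LinearMap.toContinuousLinearMap (Hl w)

lemma Hc_apply (w z : ι → ℂ) : Hc w z = H z w := rfl

/-! ## Exponentials of integers -/

lemma exp_two_pi_int {x : ℝ} (h : ∃ n : ℤ, x = n) :
    Complex.exp (2 * Real.pi * Complex.I * x) = 1 := by
  obtain ⟨n, rfl⟩ := h
  rw [Complex.exp_eq_one_iff]
  exact ⟨n, by push_cast; ring⟩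

lemma exp_pi_int_sq {x : ℝ} (h : ∃ n : ℤ, x = n) :
    Complex.exp (Real.pi * Complex.I * x) * Complex.exp (Real.pi * Complex.I * x) = 1 := by
  rw [← Complex.exp_add, ← exp_two_pi_int h]
  congr 1; ring

lemma norm_exp_pi (x : ℝ) : ‖Complex.exp (Real.pi * Complex.I * x)‖ = 1 := by
  have h : (Real.pi : ℂ) * Complex.I * x = ((Real.pi * x : ℝ) : ℂ) * Complex.I := by
    push_cast; ring
  rw [h, Complex.norm_exp_ofReal_mul_I]

/-! ## Semicharacters -/

section chi

variable {L : Submodule ℤ (ι → ℂ)} {χ : (ι → ℂ) → ℂ}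

lemma PLat.lat (h : PLat L χ) : IsLat L := h.basis

lemma PLat.chi_zero (h : PLat L χ) : χ 0 = 1 := by
  have h1 := h.add 0 L.zero_mem 0 L.zero_mem
  rw [add_zero, E_zero_left, Complex.ofReal_zero, mul_zero, Complex.exp_zero, mul_one] at h1
  rcases h.pm 0 L.zero_mem with h2 | h2
  · exact h2
  · rw [h2] at h1; norm_num at h1

lemma PLat.chi_sq (h : PLat L χ) {l : ι → ℂ} (hl : l ∈ L) : χ l * χ l = 1 := by
  rcases h.pm l hl with h2 | h2 <;> rw [h2] <;> norm_num

lemma PLat.chi_norm (h : PLat L χ) {l : ι → ℂ} (hl : l ∈ L) : ‖χ l‖ = 1 := by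
  rcases h.pm l hl with h2 | h2 <;> rw [h2] <;> norm_num

lemma PLat.chi_ne (h : PLat L χ) {l : ι → ℂ} (hl : l ∈ L) : χ l ≠ 0 := by
  rcases h.pm l hl with h2 | h2 <;> rw [h2] <;> norm_num

lemma PLat.chi_neg (h : PLat L χ) {l : ι → ℂ} (hl : l ∈ L) : χ (-l) = χ l := by
  have h1 := h.add l hl (-l) (L.neg_mem hl)
  rw [add_neg_cancel, E_neg_right, E_self, neg_zero, Complex.ofReal_zero, mul_zero,
    Complex.exp_zero, mul_one, h.chi_zero] at h1
  have h2 := h.chi_sq hl
  have h3 : χ l * (χ l * χ (-l)) = χ l := by rw [← h1, mul_one]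
  rwa [← mul_assoc, h2, one_mul] at h3

lemma PLat.chi_two (h : PLat L χ) {l : ι → ℂ} (hl : l ∈ L) : χ (l + l) = 1 := by
  rw [h.add l hl l hl, E_self, Complex.ofReal_zero, mul_zero, Complex.exp_zero, mul_one,
    h.chi_sq hl]

/-- translation by elements of `2 L` does not change `χ` -/
lemma PLat.chi_add_two (h : PLat L χ) {l m : ι → ℂ} (hl : l ∈ L) (hm : m ∈ L) :
    χ (l + (m + m)) = χ l := by
  rw [h.add l hl _ (L.add_mem hm hm), h.chi_two hm, mul_one, E_add_right]
  obtain ⟨n, hn⟩ := h.int l hl m hm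
  have h1 : Complex.exp (Real.pi * Complex.I * ((E l m + E l m : ℝ) : ℂ)) = 1 := by
    rw [← exp_two_pi_int (h.int l hl m hm)]
    congr 1; push_cast; ring
  rw [h1, mul_one]

lemma PLat.E_int (h : PLat L χ) {l m : ι → ℂ} (hl : l ∈ L) (hm : m ∈ L) :
    ∃ n : ℤ, E l m = n := h.int l hl m hm

end chi

/-! ## Translates -/

section F

variable (θ : (ι → ℂ) → ℂ)

lemma F_zero (v : ι → ℂ) : F θ 0 v = θ v := by
  unfold F
  rw [zero_add, H_zero_right, H_zero_right, mul_zero, mul_zero, neg_zero, sub_zero,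
    Complex.exp_zero, mul_one]

lemma F_apply_zero (x : ι → ℂ) : F θ x 0 = θ x * Complex.exp (-(Real.pi / 2 * H x x)) := by
  unfold F
  rw [add_zero, H_zero_left, mul_zero, neg_zero, zero_sub]

/-- formula (1.1) -/
lemma F_add (x w v : ι → ℂ) : F θ (x + w) v = F θ x (v + w) *
    Complex.exp (-(Real.pi * H v w) - Real.pi / 2 * H w w + Real.pi * Complex.I * E w x) := by
  unfold F
  rw [mul_assoc, ← Complex.exp_add]
  have h1 : x + w + v = x + (v + w) := by abel
  rw [h1]
  congr 2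
  have h2 := H_sub_H w x
  simp only [H_add_left, H_add_right]
  linear_combination ((Real.pi : ℂ) / 2) * h2

lemma F_ne_iff (x v : ι → ℂ) : F θ x v ≠ 0 ↔ θ (x + v) ≠ 0 := by
  unfold F
  rw [mul_ne_zero_iff]
  exact ⟨fun h => h.1, fun h => ⟨h, Complex.exp_ne_zero _⟩⟩

lemma F_eq_zero_iff (x v : ι → ℂ) : F θ x v = 0 ↔ θ (x + v) = 0 := by
  have := F_ne_iff θ x v
  tauto

lemma norm_exp_re (z : ℂ) : ‖Complex.exp z‖ = Real.exp z.re := Complex.norm_exp z

/-- formula (1.4) -/
lemma F_norm (x v : ι → ℂ) :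
    ‖F θ x v‖ * Real.exp (-(Real.pi / 2 * (H v v).re)) = ‖F θ (x + v) 0‖ := by
  have h := F_add θ x v 0
  rw [zero_add, H_zero_left, mul_zero, neg_zero, zero_sub] at h
  rw [h, norm_mul, Complex.norm_exp]
  congr 2
  rw [H_self v]
  simp

variable {L : Submodule ℤ (ι → ℂ)} {χ : (ι → ℂ) → ℂ} {θ}

/-- formula (1.3) -/
lemma F_quasi (hT : IsTh L χ θ) {l : ι → ℂ} (hl : l ∈ L) (x v : ι → ℂ) :
    F θ x (v + l) = χ l * Complex.exp (2 * Real.pi * Complex.I * E x l) *
      Complex.exp (Real.pi * H v l + Real.pi / 2 * H l l) * F θ x v := by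
  unfold F
  have h1 : x + (v + l) = x + v + l := by abel
  rw [h1, hT.quasi l hl]
  have h2 := H_sub_H x l
  have h3 : Complex.exp (Real.pi * H (x + v) l + Real.pi / 2 * H l l) *
      Complex.exp (-(Real.pi * H (v + l) x) - Real.pi / 2 * H x x) =
      Complex.exp (2 * Real.pi * Complex.I * E x l) *
      Complex.exp (Real.pi * H v l + Real.pi / 2 * H l l) *
      Complex.exp (-(Real.pi * H v x) - Real.pi / 2 * H x x) := by
    rw [← Complex.exp_add, ← Complex.exp_add, ← Complex.exp_add]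
    congr 1
    simp only [H_add_left]
    linear_combination (Real.pi : ℂ) * h2
  linear_combination (χ l * θ (x + v)) * h3

/-- formula (1.2) -/
lemma F_add_lat (hT : IsTh L χ θ) {l : ι → ℂ} (hl : l ∈ L) (x v : ι → ℂ) :
    F θ (x + l) v = χ l * Complex.exp (Real.pi * Complex.I * E x l) * F θ x v := by
  rw [F_add, F_quasi hT hl]
  have h3 : Complex.exp (2 * Real.pi * Complex.I * E x l) *
      Complex.exp (Real.pi * H v l + Real.pi / 2 * H l l) *
      Complex.exp (-(Real.pi * H v l) - Real.pi / 2 * H l l + Real.pi * Complex.I * E l x) =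
      Complex.exp (Real.pi * Complex.I * E x l) := by
    rw [← Complex.exp_add, ← Complex.exp_add]
    congr 1
    rw [E_symm l x]
    push_cast
    ring
  linear_combination (χ l * F θ x v) * h3

lemma F_zero_iff_lat (hT : IsTh L χ θ) (hP : PLat L χ) {l : ι → ℂ} (hl : l ∈ L) (x v : ι → ℂ) :
    F θ (x + l) v = 0 ↔ F θ x v = 0 := by
  rw [F_add_lat hT hl, mul_eq_zero, mul_eq_zero]
  have h1 := hP.chi_ne hl
  have h2 := Complex.exp_ne_zero (Real.pi * Complex.I * E x l)
  tauto

/-- `|ψ|` is periodic -/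
lemma F_norm_lat (hT : IsTh L χ θ) (hP : PLat L χ) {l : ι → ℂ} (hl : l ∈ L) (x v : ι → ℂ) :
    ‖F θ (x + l) v‖ = ‖F θ x v‖ := by
  rw [F_add_lat hT hl, norm_mul, norm_mul, hP.chi_norm hl, norm_exp_pi, one_mul, one_mul]

lemma IsTh.neg (hT : IsTh L χ θ) (hP : PLat L χ) : IsTh L χ (fun v => θ (-v)) where
  ent := hT.ent.comp differentiable_id.neg
  quasi l hl v := by
    show θ (-(v + l)) = _
    have h := hT.quasi (-l) (L.neg_mem hl) (-v)
    rw [neg_add, h, hP.chi_neg hl, H_neg_left, H_neg_right, H_neg_left, H_neg_right, neg_neg,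
      neg_neg]

/-- formula (1.5) -/
lemma F_neg {s : ℂ} (hs : ∀ v, θ (-v) = s * θ v) (x v : ι → ℂ) :
    F θ x (-v) = s * F θ (-x) v := by
  unfold F
  have h : x + -v = -(-x + v) := by abel
  rw [h, hs, H_neg_left, H_neg_right, H_neg_left, H_neg_right, neg_neg, mul_assoc]

lemma F_differentiable (hT : IsTh L χ θ) (x : ι → ℂ) : Differentiable ℂ (F θ x) := by
  unfold F H
  refine (hT.ent.comp (differentiable_const x |>.add differentiable_id)).mul ?_
  refine Differentiable.cexp ?_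
  refine Differentiable.sub (Differentiable.neg (Differentiable.const_mul ?_ _))
    (differentiable_const _)
  exact Differentiable.fun_sum fun a _ => (differentiable_apply a).mul_const _

lemma F_continuous (hT : IsTh L χ θ) : Continuous fun p : (ι → ℂ) × (ι → ℂ) => F θ p.1 p.2 := by
  unfold F H
  have := hT.ent.continuous
  fun_prop

/-- the derivative of `F_{x + w}` -/
lemma dd_F_add (hT : IsTh L χ θ) (t x w v : ι → ℂ) : dd t (F θ (x + w)) v =
    (dd t (F θ x) (v + w) - Real.pi * H t w * F θ x (v + w)) *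
    Complex.exp (-(Real.pi * H v w) - Real.pi / 2 * H w w + Real.pi * Complex.I * E w x) := by
  have h0 : F θ (x + w) = fun v => F θ x (v + w) *
      Complex.exp (-(Real.pi * H v w) - Real.pi / 2 * H w w + Real.pi * Complex.I * E w x) := by
    funext v; exact F_add θ x w v
  have h1 : HasFDerivAt (fun v => F θ x (v + w)) (fderiv ℂ (F θ x) (v + w)) v := by
    have h := (F_differentiable hT x (v + w)).hasFDerivAt
    have h' := h.comp v ((hasFDerivAt_id (𝕜 := ℂ) v).add_const w)
    exact h'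
  have h2 : HasFDerivAt (fun v => H v w) (Hc w) v := (Hc w).hasFDerivAt
  have h3 : HasFDerivAt (fun v => -(Real.pi * H v w) - Real.pi / 2 * H w w +
      Real.pi * Complex.I * E w x) (-((Real.pi : ℂ) • Hc w)) v :=
    ((h2.const_mul (Real.pi : ℂ)).neg.sub_const (Real.pi / 2 * H w w)).add_const
      (Real.pi * Complex.I * E w x)
  have h4 := (h1.mul h3.cexp).fderiv
  have h6 : F θ (x + w) = (fun v => F θ x (v + w)) * fun x_1 =>
      Complex.exp (-(Real.pi * H x_1 w) - Real.pi / 2 * H w w + Real.pi * Complex.I * E w x) := h0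
  unfold dd
  rw [h6, h4]
  simp only [ContinuousLinearMap.add_apply, ContinuousLinearMap.smul_apply, smul_eq_mul,
    ContinuousLinearMap.neg_apply]
  rw [Hc_apply]
  ring

end F

/-! ## Points of odd order -/

section odd

variable {L : Submodule ℤ (ι → ℂ)}

lemma OddTor.of_mem {x : ι → ℂ} (hx : x ∈ L) : OddTor L x := ⟨1, odd_one, by simpa using hx⟩

lemma OddTor.zero : OddTor L (0 : ι → ℂ) := OddTor.of_mem L.zero_mem

lemma OddTor.neg {x : ι → ℂ} (hx : OddTor L x) : OddTor L (-x) := by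
  obtain ⟨n, hn, h⟩ := hx
  exact ⟨n, hn, by rw [smul_neg]; exact L.neg_mem h⟩

lemma oddTor_mul {x : ι → ℂ} {n : ℕ} (h : (n : ℤ) • x ∈ L) (m : ℕ) : ((n * m : ℕ) : ℤ) • x ∈ L := by
  have : ((n * m : ℕ) : ℤ) • x = (m : ℤ) • ((n : ℤ) • x) := by
    rw [smul_smul]; congr 1; push_cast; ring
  rw [this]
  exact L.smul_mem _ h

lemma oddTor_mul' {x : ι → ℂ} {n : ℕ} (h : (n : ℤ) • x ∈ L) (m : ℕ) : ((m * n : ℕ) : ℤ) • x ∈ L := by
  rw [mul_comm]; exact oddTor_mul h m

lemma OddTor.add {x y : ι → ℂ} (hx : OddTor L x) (hy : OddTor L y) : OddTor L (x + y) := by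
  obtain ⟨n, hn, h⟩ := hx
  obtain ⟨m, hm, h'⟩ := hy
  exact ⟨n * m, hn.mul hm, by rw [smul_add]; exact L.add_mem (oddTor_mul h m) (oddTor_mul' h' n)⟩

lemma OddTor.sub {x y : ι → ℂ} (hx : OddTor L x) (hy : OddTor L y) : OddTor L (x - y) := by
  rw [sub_eq_add_neg]; exact hx.add hy.neg

/-- finitely many points of odd order have a common odd order -/
lemma exists_common_order {κ : Type} [Fintype κ] (c : κ → ι → ℂ) (h : ∀ i, OddTor L (c i)) :
    ∃ n : ℕ, Odd n ∧ ∀ i, (n : ℤ) • c i ∈ L := by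
  classical
  choose n hn hc using h
  refine ⟨∏ i, n i, Finset.prod_induction _ Odd (fun a b => Odd.mul) odd_one fun i _ => hn i,
    fun i => ?_⟩
  rw [← Finset.prod_erase_mul _ _ (Finset.mem_univ i)]
  exact oddTor_mul' (hc i) _

end odd

end GAM
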