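import Pool.Agent.GAM.StA
import Pool.Agent.GAM.Bas

/-!
# GAM [ThEx]: existence of theta functions

`K(x, w) = ∑_l χ(l) exp (-π/2 H(l,l) - π H(x,l) + π H(x+l,w))` is a theta function of `x`; it is not
zero for some `w` because the zeroth Fourier coefficient of `K(x,x) exp(-π H(x,x))` is `1`.
-/

set_option autoImplicit false

namespace GAM

open scoped ComplexConjugate

section gauss

private lemma ThEx_exp_le {A B s : ℝ} :
    Real.exp (-(Real.pi / 2 * s ^ 2) + A * s + B) ≤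
      Real.exp ((A + 1) ^ 2 / 2 + B) * Real.exp (-s) := by
  rw [← Real.exp_add, Real.exp_le_exp]
  have h1 : 1 / 2 ≤ Real.pi / 2 := by
    have := Real.pi_gt_three; linarith
  have h2 : 1 / 2 * s ^ 2 ≤ Real.pi / 2 * s ^ 2 := mul_le_mul_of_nonneg_right h1 (sq_nonneg s)
  nlinarith [sq_nonneg (s - (A + 1))]

private lemma ThEx_pow_exp (N : ℕ) {s : ℝ} (hs : 0 ≤ s) :
    s ^ N * Real.exp (-s) ≤ N.factorial := by
  have h := Real.pow_div_factorial_le_exp (x := s) hs N
  rw [div_le_iff₀ (by positivity)] at h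
  rw [Real.exp_neg, ← div_eq_mul_inv, div_le_iff₀ (Real.exp_pos s)]
  linarith

private lemma ThEx_gauss (A B C D : ℝ) (hC : 0 ≤ C) (hD : 0 ≤ D) (N : ℕ) :
    ∃ M : ℝ, ∀ s : ℝ, 0 ≤ s →
      s ^ N * (Real.exp (-(Real.pi / 2 * s ^ 2) + A * s + B) * (C * s + D)) ≤ M := by
  refine ⟨Real.exp ((A + 1) ^ 2 / 2 + B) * (C * (N + 1).factorial + D * N.factorial), ?_⟩
  intro s hs
  have h1 := ThEx_exp_le (A := A) (B := B) (s := s)
  have h2 := ThEx_pow_exp N hs
  have h3 := ThEx_pow_exp (N + 1) hs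
  have hE : 0 ≤ Real.exp ((A + 1) ^ 2 / 2 + B) := Real.exp_nonneg _
  calc s ^ N * (Real.exp (-(Real.pi / 2 * s ^ 2) + A * s + B) * (C * s + D))
      ≤ s ^ N * (Real.exp ((A + 1) ^ 2 / 2 + B) * Real.exp (-s) * (C * s + D)) := by
        refine mul_le_mul_of_nonneg_left ?_ (by positivity)
        exact mul_le_mul_of_nonneg_right h1 (by positivity)
    _ = Real.exp ((A + 1) ^ 2 / 2 + B) * (C * (s ^ (N + 1) * Real.exp (-s)) +
          D * (s ^ N * Real.exp (-s))) := by ring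
    _ ≤ _ := by
        refine mul_le_mul_of_nonneg_left ?_ hE
        exact add_le_add (mul_le_mul_of_nonneg_left h3 hC) (mul_le_mul_of_nonneg_left h2 hD)

end gauss

section sum

variable {ι : Type} [Fintype ι]

private lemma ThEx_summable {L : Submodule ℤ (ι → ℂ)}
    (hL : ∃ b : Module.Basis (ι ⊕ ι) ℝ (ι → ℂ), L = Submodule.span ℤ (Set.range b))
    (A B C D : ℝ) (hC : 0 ≤ C) (hD : 0 ≤ D) :
    Summable fun l : L => Real.exp (-(Real.pi / 2 * ‖(l : ι → ℂ)‖ ^ 2) + A * ‖(l : ι → ℂ)‖ + B) *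
      (C * ‖(l : ι → ℂ)‖ + D) := by
  obtain ⟨b, rfl⟩ := hL
  set N : ℕ := Module.finrank ℤ (Submodule.span ℤ (Set.range b)) + 1 with hN
  obtain ⟨M, hM⟩ := ThEx_gauss A B C D hC hD N
  have h1 := (ZLattice.summable_norm_pow_inv (Submodule.span ℤ (Set.range b)) N
    (Nat.lt_succ_self _)).mul_left M
  refine Summable.of_norm_bounded_eventually h1 ?_
  rw [Filter.eventually_cofinite]
  refine Set.Finite.subset (Set.finite_singleton (0 : Submodule.span ℤ (Set.range b))) ?_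
  intro l hl
  by_contra h0
  apply hl
  have h2 : (0 : ℝ) < ‖(l : ι → ℂ)‖ := by
    rw [norm_pos_iff]
    intro h3
    exact h0 (Subtype.ext h3)
  rw [Real.norm_of_nonneg (by positivity)]
  have h3 := hM _ h2.le
  have h4 : M * ‖l‖⁻¹ ^ N = M / ‖(l : ι → ℂ)‖ ^ N := by
    rw [inv_pow, div_eq_mul_inv]; rfl
  rw [h4, le_div_iff₀ (by positivity)]
  linarith

private lemma ThEx_H_norm (z w : ι → ℂ) : ‖H z w‖ ≤ Fintype.card ι * ‖z‖ * ‖w‖ := by
  unfold H
  refine (norm_sum_le _ _).trans ?_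
  calc ∑ a, ‖z a * conj (w a)‖ ≤ ∑ _a : ι, ‖z‖ * ‖w‖ := by
        refine Finset.sum_le_sum fun a _ => ?_
        rw [norm_mul, RCLike.norm_conj]
        exact mul_le_mul (norm_le_pi_norm z a) (norm_le_pi_norm w a) (norm_nonneg _)
          (norm_nonneg _)
    _ = _ := by
        rw [Finset.sum_const, Finset.card_univ, nsmul_eq_mul]; ring

private lemma ThEx_H_self (l : ι → ℂ) : ‖l‖ ^ 2 ≤ (H l l).re := by
  rw [H_self_re]
  have h1 : ‖l‖ ≤ Real.sqrt (∑ a, ‖l a‖ ^ 2) := by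
    rw [pi_norm_le_iff_of_nonneg (Real.sqrt_nonneg _)]
    intro a
    refine Real.le_sqrt_of_sq_le ?_
    exact Finset.single_le_sum (f := fun a => ‖l a‖ ^ 2) (fun _ _ => by positivity)
      (Finset.mem_univ a)
  calc ‖l‖ ^ 2 ≤ Real.sqrt (∑ a, ‖l a‖ ^ 2) ^ 2 := pow_le_pow_left₀ (norm_nonneg _) h1 2
    _ = _ := Real.sq_sqrt (by positivity)

/-- the terms of the series -/
private noncomputable def ThEx_tm (χ : (ι → ℂ) → ℂ) (w l x : ι → ℂ) : ℂ :=
  χ l * Complex.exp (-(Real.pi / 2 * H l l) - Real.pi * H x l + Real.pi * H (x + l) w)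

private lemma ThEx_tm_norm {L : Submodule ℤ (ι → ℂ)} {χ : (ι → ℂ) → ℂ} (hP : PLat L χ)
    (w : ι → ℂ) {R : ℝ} {l x : ι → ℂ} (hl : l ∈ L) (hx : ‖x‖ ≤ R) :
    ‖ThEx_tm χ w l x‖ ≤ Real.exp (-(Real.pi / 2 * ‖l‖ ^ 2) +
      (Real.pi * Fintype.card ι * (R + ‖w‖)) * ‖l‖ + Real.pi * Fintype.card ι * R * ‖w‖) := by
  unfold ThEx_tm
  rw [norm_mul, hP.chi_norm hl, one_mul, Complex.norm_exp, Real.exp_le_exp]
  have h1 : (-(Real.pi / 2 * H l l) - Real.pi * H x l + Real.pi * H (x + l) w : ℂ).re =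
      -(Real.pi / 2 * (H l l).re) - Real.pi * (H x l).re + Real.pi * (H (x + l) w).re := by
    have e1 : (-(Real.pi / 2 * H l l) - Real.pi * H x l + Real.pi * H (x + l) w : ℂ) =
        -(((Real.pi / 2 : ℝ) : ℂ) * H l l) - (Real.pi : ℂ) * H x l +
          (Real.pi : ℂ) * H (x + l) w := by
      push_cast; ring
    rw [e1, Complex.add_re, Complex.sub_re, Complex.neg_re, Complex.re_ofReal_mul,
      Complex.re_ofReal_mul, Complex.re_ofReal_mul]
  rw [h1, H_add_left, Complex.add_re]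
  have h2 := ThEx_H_self l
  have h3 : -(H x l).re ≤ Fintype.card ι * R * ‖l‖ := by
    refine (neg_le_abs _).trans ((Complex.abs_re_le_norm _).trans ((ThEx_H_norm x l).trans ?_))
    gcongr
  have h4 : (H x w).re ≤ Fintype.card ι * R * ‖w‖ := by
    refine (Complex.re_le_norm _).trans ((ThEx_H_norm x w).trans ?_)
    gcongr
  have h5 : (H l w).re ≤ Fintype.card ι * ‖l‖ * ‖w‖ :=
    (Complex.re_le_norm _).trans (ThEx_H_norm l w)
  have hpi := Real.pi_pos
  have e2 : Real.pi / 2 * ‖l‖ ^ 2 ≤ Real.pi / 2 * (H l l).re :=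
    mul_le_mul_of_nonneg_left h2 (by positivity)
  have e3 := mul_le_mul_of_nonneg_left h3 hpi.le
  have e4 := mul_le_mul_of_nonneg_left h4 hpi.le
  have e5 := mul_le_mul_of_nonneg_left h5 hpi.le
  nlinarith

private lemma ThEx_tm_deriv (χ : (ι → ℂ) → ℂ) (w l x : ι → ℂ) :
    HasFDerivAt (ThEx_tm χ w l)
      (ThEx_tm χ w l x • ((-(Real.pi : ℂ)) • Hc l + (Real.pi : ℂ) • Hc w)) x := by
  have h1 : HasFDerivAt (fun x => -(Real.pi / 2 * H l l) - Real.pi * H x l +
      Real.pi * H (x + l) w) ((-(Real.pi : ℂ)) • Hc l + (Real.pi : ℂ) • Hc w) x := by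
    have h2 : (fun x => -(Real.pi / 2 * H l l) - Real.pi * H x l + Real.pi * H (x + l) w) =
        fun x => ((-(Real.pi : ℂ)) • Hc l + (Real.pi : ℂ) • Hc w) x +
          (-(Real.pi / 2 * H l l) + Real.pi * H l w) := by
      funext x
      rw [H_add_left]
      simp only [add_apply, smul_apply, Hc_apply, smul_eq_mul]
      ring
    rw [h2]
    exact (ContinuousLinearMap.hasFDerivAt _).add_const _
  have h3 := (h1.cexp).const_mul (χ l)
  have h4 : ThEx_tm χ w l x • ((-(Real.pi : ℂ)) • Hc l + (Real.pi : ℂ) • Hc w) =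
      χ l • (Complex.exp (-(Real.pi / 2 * H l l) - Real.pi * H x l + Real.pi * H (x + l) w) •
        ((-(Real.pi : ℂ)) • Hc l + (Real.pi : ℂ) • Hc w)) := by
    rw [smul_smul]; rfl
  rw [h4]
  exact h3

private lemma ThEx_Hc_norm (w : ι → ℂ) : ‖Hc w‖ ≤ Fintype.card ι * ‖w‖ := by
  refine ContinuousLinearMap.opNorm_le_bound _ (by positivity) fun z => ?_
  rw [Hc_apply]
  refine (ThEx_H_norm z w).trans (le_of_eq (by ring))

private noncomputable def ThEx_K (L : Submodule ℤ (ι → ℂ)) (χ : (ι → ℂ) → ℂ) (w x : ι → ℂ) : ℂ :=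
  ∑' l : L, ThEx_tm χ w l x

private lemma ThEx_sum_tm {L : Submodule ℤ (ι → ℂ)} {χ : (ι → ℂ) → ℂ} (hP : PLat L χ)
    (w x : ι → ℂ) : Summable fun l : L => ‖ThEx_tm χ w l x‖ := by
  have h1 := ThEx_summable hP.basis (Real.pi * Fintype.card ι * (‖x‖ + ‖w‖))
    (Real.pi * Fintype.card ι * ‖x‖ * ‖w‖) 0 1 le_rfl zero_le_one
  refine Summable.of_nonneg_of_le (fun l => norm_nonneg _) (fun l => ?_) h1
  refine (ThEx_tm_norm hP w l.2 (le_refl ‖x‖)).trans (le_of_eq ?_)
  ring_nf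

private lemma ThEx_ent {L : Submodule ℤ (ι → ℂ)} {χ : (ι → ℂ) → ℂ} (hP : PLat L χ)
    (w : ι → ℂ) : Differentiable ℂ (ThEx_K L χ w) := by
  intro x₀
  set R : ℝ := ‖x₀‖ + 1 with hR
  have h1 := ThEx_summable hP.basis (Real.pi * Fintype.card ι * (R + ‖w‖))
    (Real.pi * Fintype.card ι * R * ‖w‖) (Real.pi * Fintype.card ι)
    (Real.pi * Fintype.card ι * ‖w‖) (by positivity) (by positivity)
  have hx₀ : x₀ ∈ Metric.ball (0 : ι → ℂ) R := by
    rw [Metric.mem_ball, dist_zero_right]; linarith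
  have h2 := hasFDerivAt_tsum_of_isPreconnected (𝕜 := ℂ)
    (f := fun (l : L) x => ThEx_tm χ w l x)
    (f' := fun (l : L) x => ThEx_tm χ w l x • ((-(Real.pi : ℂ)) • Hc (l : ι → ℂ) +
      (Real.pi : ℂ) • Hc w)) h1 Metric.isOpen_ball
    (convex_ball (0 : ι → ℂ) R).isPreconnected
    (fun l x _ => ThEx_tm_deriv χ w l x)
    (fun l x hx => ?_) hx₀ ((ThEx_sum_tm hP w x₀).of_norm) hx₀
  · exact h2.differentiableAt
  · rw [Metric.mem_ball, dist_zero_right] at hx
    rw [norm_smul]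
    have h3 := ThEx_tm_norm hP w l.2 hx.le
    have h4 : ‖(-(Real.pi : ℂ)) • Hc (l : ι → ℂ) + (Real.pi : ℂ) • Hc w‖ ≤
        Real.pi * Fintype.card ι * ‖(l : ι → ℂ)‖ + Real.pi * Fintype.card ι * ‖w‖ := by
      refine (norm_add_le _ _).trans (add_le_add ?_ ?_)
      · rw [norm_smul, norm_neg, Complex.norm_real, Real.norm_of_nonneg Real.pi_pos.le, mul_assoc]
        exact mul_le_mul_of_nonneg_left (ThEx_Hc_norm _) Real.pi_pos.le
      · rw [norm_smul, Complex.norm_real, Real.norm_of_nonneg Real.pi_pos.le, mul_assoc]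
        exact mul_le_mul_of_nonneg_left (ThEx_Hc_norm _) Real.pi_pos.le
    exact mul_le_mul h3 h4 (norm_nonneg _) (Real.exp_nonneg _)

private lemma ThEx_quasi {L : Submodule ℤ (ι → ℂ)} {χ : (ι → ℂ) → ℂ} (hP : PLat L χ)
    (w : ι → ℂ) {m : ι → ℂ} (hm : m ∈ L) (v : ι → ℂ) :
    ThEx_K L χ w (v + m) = χ m * Complex.exp (Real.pi * H v m + Real.pi / 2 * H m m) *
      ThEx_K L χ w v := by
  unfold ThEx_K
  rw [← (Equiv.subRight (⟨m, hm⟩ : L)).tsum_eq, ← tsum_mul_left]
  refine tsum_congr fun l => ?_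
  obtain ⟨l, hl⟩ := l
  have e0 : (((Equiv.subRight (⟨m, hm⟩ : L)) ⟨l, hl⟩ : L) : ι → ℂ) = l + (-m) := by
    simp [sub_eq_add_neg]
  rw [e0]
  unfold ThEx_tm
  rw [hP.add l hl (-m) (L.neg_mem hm), hP.chi_neg hm]
  have e1 : H (l : ι → ℂ) m = H m l + 2 * Complex.I * E (l : ι → ℂ) m := by
    rw [← H_sub_H]; ring
  have e2 : (v + m + ((l : ι → ℂ) + -m)) = v + l := by abel
  rw [e2]
  have e3 : χ l * χ m * Complex.exp (Real.pi * Complex.I * E (l : ι → ℂ) (-m)) *
      Complex.exp (-(Real.pi / 2 * H ((l : ι → ℂ) + -m) ((l : ι → ℂ) + -m)) -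
        Real.pi * H (v + m) ((l : ι → ℂ) + -m) + Real.pi * H (v + l) w) =
      χ m * χ l * (Complex.exp (Real.pi * Complex.I * E (l : ι → ℂ) (-m)) *
      Complex.exp (-(Real.pi / 2 * H ((l : ι → ℂ) + -m) ((l : ι → ℂ) + -m)) -
        Real.pi * H (v + m) ((l : ι → ℂ) + -m) + Real.pi * H (v + l) w)) := by ring
  have e4 : χ m * Complex.exp (Real.pi * H v m + Real.pi / 2 * H m m) *
      (χ l * Complex.exp (-(Real.pi / 2 * H (l : ι → ℂ) l) - Real.pi * H v l +
        Real.pi * H (v + l) w)) = χ m * χ l * (Complex.exp (Real.pi * H v m +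
        Real.pi / 2 * H m m) * Complex.exp (-(Real.pi / 2 * H (l : ι → ℂ) l) -
          Real.pi * H v l + Real.pi * H (v + l) w)) := by ring
  rw [e3, e4, ← Complex.exp_add, ← Complex.exp_add]
  congr 2
  simp only [H_add_left, H_add_right, H_neg_left, H_neg_right, E_neg_right]
  rw [e1]
  push_cast
  ring

end sum

section fourier

variable {κ Λ : Type} [Fintype κ]

private lemma ThEx_mFourier (n : κ → ℤ) (x : κ → ℝ) :
    UnitAddTorus.mFourier n (fun i => (x i : UnitAddCircle)) =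
      Complex.exp (2 * Real.pi * Complex.I * ((∑ i, n i * x i : ℝ) : ℂ)) := by
  simp only [UnitAddTorus.mFourier, ContinuousMap.coe_mk, fourier_coe_apply]
  rw [← Complex.exp_sum]
  congr 1
  push_cast
  rw [Finset.mul_sum]
  refine Finset.sum_congr rfl fun i _ => ?_
  ring

private lemma ThEx_orth {X K : Type} [TopologicalSpace X] [CompactSpace X] [MeasurableSpace X]
    [BorelSpace X] [SecondCountableTopologyEither X ℂ] [DecidableEq K]
    {μ : MeasureTheory.Measure X} {_ : MeasureTheory.IsFiniteMeasure μ} {e : K → C(X, ℂ)}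
    (ho : Orthonormal ℂ fun k => ContinuousMap.toLp (E := ℂ) 2 μ ℂ (e k)) (a : Λ → ℂ)
    (n : Λ → K) (k : K) (h : HasSum (fun l => a l • e (n l)) 0) :
    ∑' l, (if n l = k then a l else 0) = 0 := by
  have h2 := (ContinuousMap.toLp (E := ℂ) 2 μ ℂ).hasSum h
  let T : MeasureTheory.Lp ℂ 2 μ →L[ℂ] ℂ := innerSL ℂ (ContinuousMap.toLp (E := ℂ) 2 μ ℂ (e k))
  have h3 := T.hasSum h2
  rw [map_zero, map_zero] at h3
  have h4 : ∀ l, T (ContinuousMap.toLp (E := ℂ) 2 μ ℂ (a l • e (n l))) =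
      if n l = k then a l else 0 := by
    intro l
    rw [map_smul, map_smul, smul_eq_mul]
    have h5 : T (ContinuousMap.toLp (E := ℂ) 2 μ ℂ (e (n l))) = if k = n l then 1 else 0 :=
      (orthonormal_iff_ite.1 ho) k (n l)
    rw [h5]
    by_cases h7 : n l = k
    · rw [if_pos h7, if_pos h7.symm, mul_one]
    · rw [if_neg h7, if_neg (fun h => h7 h.symm), mul_zero]
  rw [← tsum_congr h4]
  exact h3.tsum_eq

private lemma ThEx_coef (a : Λ → ℂ) (n : Λ → κ → ℤ) (hs : Summable fun l => ‖a l‖)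
    (h : ∀ t : κ → ℝ, ∑' l, a l *
      Complex.exp (2 * Real.pi * Complex.I * ((∑ i, n l i * t i : ℝ) : ℂ)) = 0) :
    ∑' l, (if n l = 0 then a l else 0) = 0 := by
  classical
  have hs' : Summable fun l => a l • UnitAddTorus.mFourier (n l) := by
    refine Summable.of_norm ?_
    refine hs.congr fun l => ?_
    rw [norm_smul, UnitAddTorus.mFourier_norm, mul_one]
  have h0 : ∑' l, a l • UnitAddTorus.mFourier (n l) = 0 := by
    ext z
    have hz : ∃ t : κ → ℝ, (fun i => (t i : UnitAddCircle)) = z := by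
      have h1 : ∀ i, ∃ t : ℝ, (t : UnitAddCircle) = z i := fun i =>
        QuotientAddGroup.mk_surjective (z i)
      choose t ht using h1
      exact ⟨t, funext ht⟩
    obtain ⟨t, rfl⟩ := hz
    have h2 := hs'.hasSum.mapL (ContinuousMap.evalCLM ℂ (fun i => (t i : UnitAddCircle)))
    have h3 := h2.tsum_eq
    have h4 : ∀ l, (ContinuousMap.evalCLM ℂ (fun i => (t i : UnitAddCircle)))
        (a l • UnitAddTorus.mFourier (n l)) = a l *
      Complex.exp (2 * Real.pi * Complex.I * ((∑ i, n l i * t i : ℝ) : ℂ)) := by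
      intro l
      rw [map_smul, smul_eq_mul]
      congr 1
      exact ThEx_mFourier (n l) t
    rw [tsum_congr h4, h t] at h3
    exact h3.symm
  have h1 : HasSum (fun l => a l • UnitAddTorus.mFourier (n l)) 0 := h0 ▸ hs'.hasSum
  exact ThEx_orth (UnitAddTorus.orthonormal_mFourier (d := κ)) a n 0 h1

end fourier

section main

variable {ι : Type} [Fintype ι]

private lemma ThEx_E_sum (b : Module.Basis (ι ⊕ ι) ℝ (ι → ℂ)) (l : ι → ℂ) (t : ι ⊕ ι → ℝ) :
    E l (∑ i, t i • b i) = ∑ i, t i * E l (b i) := by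
  have h : ∀ s : Finset (ι ⊕ ι), E l (∑ i ∈ s, t i • b i) = ∑ i ∈ s, t i * E l (b i) := by
    classical
    intro s
    induction s using Finset.induction_on with
    | empty => simp [E_zero_right]
    | insert a s ha ih =>
      rw [Finset.sum_insert ha, Finset.sum_insert ha, E_add_right, E_rsmul_right, ih]
  exact h Finset.univ

theorem thm_ThEx : St_ThEx := by
  intro ι _ L χ hP
  by_contra hcon
  have hz : ∀ w x : ι → ℂ, ThEx_K L χ w x = 0 := by
    intro w x
    by_contra hne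
    exact hcon ⟨ThEx_K L χ w, ⟨ThEx_ent hP w, fun l hl v => ThEx_quasi hP w hl v⟩, x, hne⟩
  obtain ⟨b, hb⟩ := hP.basis
  have hbL : ∀ i, b i ∈ L := fun i => by
    rw [hb]; exact Submodule.subset_span ⟨i, rfl⟩
  have hn : ∀ l : L, ∀ i, ∃ n : ℤ, E (l : ι → ℂ) (b i) = n := fun l i =>
    hP.int l l.2 (b i) (hbL i)
  choose n hn using hn
  have key := ThEx_coef (κ := ι ⊕ ι) (Λ := L)
    (fun l => χ l * Complex.exp (-(Real.pi / 2 * H (l : ι → ℂ) l))) n
    (by
      refine (ThEx_sum_tm hP 0 0).congr fun l => ?_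
      unfold ThEx_tm
      rw [zero_add, H_zero_left, H_zero_right, mul_zero, sub_zero, add_zero])
    (by
      intro t
      set x : ι → ℂ := ∑ i, t i • b i with hx
      have h1 := hz x x
      unfold ThEx_K at h1
      have h2 : ∀ l : L, ThEx_tm χ x l x = Complex.exp (Real.pi * H x x) *
          (χ l * Complex.exp (-(Real.pi / 2 * H (l : ι → ℂ) l)) *
          Complex.exp (2 * Real.pi * Complex.I * ((∑ i, n l i * t i : ℝ) : ℂ))) := by
        intro l
        have h3 : (∑ i, n l i * t i : ℝ) = E (l : ι → ℂ) x := by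
          rw [hx, ThEx_E_sum]
          refine Finset.sum_congr rfl fun i _ => ?_
          rw [hn l i]; ring
        rw [h3]
        unfold ThEx_tm
        have e1 : H (l : ι → ℂ) x = H x l + 2 * Complex.I * E (l : ι → ℂ) x := by
          rw [← H_sub_H]; ring
        have e4 : Complex.exp (Real.pi * H x x) *
          (χ l * Complex.exp (-(Real.pi / 2 * H (l : ι → ℂ) l)) *
            Complex.exp (2 * Real.pi * Complex.I * (E (l : ι → ℂ) x : ℂ))) =
            χ l * (Complex.exp (Real.pi * H x x) * Complex.exp (-(Real.pi / 2 * H (l : ι → ℂ) l)) *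
              Complex.exp (2 * Real.pi * Complex.I * (E (l : ι → ℂ) x : ℂ))) := by ring
        rw [e4, ← Complex.exp_add, ← Complex.exp_add]
        congr 2
        rw [H_add_left, e1]
        ring
      rw [tsum_congr h2, tsum_mul_left] at h1
      exact (mul_eq_zero.1 h1).resolve_left (Complex.exp_ne_zero _))
  have h5 : ∀ l : L, n l = 0 → l = 0 := by
    intro l hl
    have h6 : ∀ v, E (l : ι → ℂ) v = 0 := by
      intro v
      rw [← b.sum_repr v, ThEx_E_sum]
      refine Finset.sum_eq_zero fun i _ => ?_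
      rw [hn l i, hl]; simp
    have h7 : (H (l : ι → ℂ) l).re = 0 := by
      have h8 := h6 (Complex.I • (l : ι → ℂ))
      unfold E at h8
      rw [H_smul_right] at h8
      simpa using h8
    exact Subtype.ext (H_self_eq_zero h7)
  rw [tsum_eq_single (0 : L)] at key
  · have h6 : n 0 = 0 := by
      funext i
      have h7 := hn 0 i
      have h8 : E ((0 : L) : ι → ℂ) (b i) = 0 := E_zero_left _
      rw [h8] at h7
      exact_mod_cast h7.symm
    rw [if_pos h6] at key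
    have h9 : ((0 : L) : ι → ℂ) = 0 := rfl
    rw [h9, hP.chi_zero, H_zero_left] at key
    simp at key
  · intro l hl
    rw [if_neg (fun h => hl (h5 l h))]

end main

end GAM
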