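import Pool.Agent.GAM.StC
import Pool.Agent.Helper7.Periods

/-!
# GAM [AVFac]: factor of automorphy of the theta functions of an abelian variety
-/

set_option autoImplicit false

namespace GAM

open scoped ComplexConjugate
open Pool.Agent.GPC

lemma AVFac_bil_left {g : ℕ} (q : Matrix (Fin g) (Fin g) ℂ) (z z' w : Fin g → ℂ) :
    bilForm q (z + z') w = bilForm q z w + bilForm q z' w := by
  simp only [bilForm, Pi.add_apply, ← Finset.sum_add_distrib]
  exact Finset.sum_congr rfl fun a _ => Finset.sum_congr rfl fun b _ => by ring

theorem thm_AVFac : St_AVFac := by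
  intro X c d
  have hadd : ∀ v l : Fin X.g → ℂ, ∑ a, c a * (v + l) a = ∑ a, c a * v a + ∑ a, c a * l a := by
    intro v l
    rw [← Finset.sum_add_distrib]
    exact Finset.sum_congr rfl fun a _ => by rw [Pi.add_apply]; ring
  have hconj : Continuous (starRingEnd ℂ) := Complex.continuous_conj
  refine ⟨fun l z => X.χ l * Complex.exp (Real.pi * hermForm X.H z l +
    Real.pi / 2 * hermForm X.H l l + bilForm X.q z l + 1 / 2 * bilForm X.q l l) *
    Complex.exp (-∑ a, c a * l a),
    fun z => Real.pi / 2 * (hermForm X.H z z).re + 1 / 2 * (bilForm X.q z z).re -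
      (∑ a, c a * z a).re, ⟨?_, ?_, ?_⟩, ?_⟩
  · unfold hermForm bilForm
    refine Continuous.sub (Continuous.add (continuous_const.mul (Complex.continuous_re.comp ?_))
      (continuous_const.mul (Complex.continuous_re.comp ?_))) (Complex.continuous_re.comp ?_)
    · exact continuous_finsetSum _ fun a _ => continuous_finsetSum _ fun b _ =>
        ((continuous_apply a).mul continuous_const).mul (hconj.comp (continuous_apply b))
    · exact continuous_finsetSum _ fun a _ => continuous_finsetSum _ fun b _ =>
        ((continuous_apply a).mul continuous_const).mul (continuous_apply b)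
    · exact continuous_finsetSum _ fun a _ => continuous_const.mul (continuous_apply a)
  · intro l _
    have h1 : Differentiable ℂ fun z : Fin X.g → ℂ => hermForm X.H z l := by
      unfold hermForm
      exact Differentiable.fun_sum fun a _ => Differentiable.fun_sum fun b _ =>
        ((differentiable_apply a).mul_const _).mul_const _
    have h2 : Differentiable ℂ fun z : Fin X.g → ℂ => bilForm X.q z l := by
      unfold bilForm
      exact Differentiable.fun_sum fun a _ => Differentiable.fun_sum fun b _ =>
        ((differentiable_apply a).mul_const _).mul_const _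
    exact ((((((h1.const_mul _).add_const _).add h2).add_const _).cexp).const_mul _).mul_const _
  · intro l hl v
    rw [norm_mul, norm_mul, X.appellHumbert.norm l hl, one_mul, Complex.norm_exp,
      Complex.norm_exp, ← Real.exp_add]
    congr 1
    rw [hadd, Pool.Agent.Helper7.hermForm_add_left, Pool.Agent.Helper7.hermForm_add_right,
      Pool.Agent.Helper7.hermForm_add_right, AVFac_bil_left,
      Pool.Agent.Helper7.bilForm_add_right, Pool.Agent.Helper7.bilForm_add_right,
      Pool.Agent.Helper7.bilForm_symm X.q X.q_symm v l]
    have h1 : (hermForm X.H l v).re = (hermForm X.H v l).re := by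
      rw [Pool.Agent.Helper7.hermForm_symm X.H X.appellHumbert.herm v l, Complex.conj_re]
    have h2 : ∀ x : ℂ, ((Real.pi : ℂ) * x).re = Real.pi * x.re := fun x => by
      rw [Complex.re_ofReal_mul]
    have h3 : ∀ x : ℂ, ((Real.pi : ℂ) / 2 * x).re = Real.pi / 2 * x.re := fun x => by
      have : (Real.pi : ℂ) / 2 * x = ((Real.pi / 2 : ℝ) : ℂ) * x := by push_cast; ring
      rw [this, Complex.re_ofReal_mul]
    have h4 : ∀ x : ℂ, ((1 : ℂ) / 2 * x).re = 1 / 2 * x.re := fun x => by
      have : (1 : ℂ) / 2 * x = ((1 / 2 : ℝ) : ℂ) * x := by push_cast; ring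
      rw [this, Complex.re_ofReal_mul]
    simp only [Complex.add_re, Complex.neg_re, h1, h2, h3, h4]
    ring
  · intro j l hl v
    show Complex.exp (-∑ a, c a * (v + l) a) * X.θ j (v + l) / d = _
    rw [(X.theta j).quasi l hl v, hadd, neg_add, Complex.exp_add]
    ring

end GAM
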