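import Pool.Agent.GAM.StC

/-!
# GAM [AVJac]
-/

set_option autoImplicit false

namespace GAM

open Pool.Agent.GPC (AbVar)

/-- A matrix with trivial kernel has an invertible square submatrix. -/
lemma AVJac_minor {S R : Type} [Fintype S] [DecidableEq S] [Fintype R] (M : Matrix R S ℂ)
    (h : ∀ y, M.mulVec y = 0 → y = 0) :
    ∃ j : S → R, (Matrix.of fun s t : S => M (j s) t).det ≠ 0 := by
  have hspan : Submodule.span ℂ (Set.range M) = ⊤ := by
    by_contra hne
    obtain ⟨f, hf, hle⟩ := Submodule.exists_le_ker_of_lt_top _ (lt_top_iff_ne_top.2 hne)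
    apply hf
    have hfs : ∀ w : S → ℂ, f w = ∑ s, w s * f (Pi.single s 1) := by
      intro w
      conv_lhs => rw [pi_eq_sum_univ' w]
      rw [map_sum]
      refine Finset.sum_congr rfl fun s _ => ?_
      rw [map_smul, smul_eq_mul]
    have hy := h (fun s => f (Pi.single s 1)) (by
      funext k
      have h1 : f (M k) = 0 := hle (Submodule.subset_span ⟨k, rfl⟩)
      rw [hfs] at h1
      exact h1)
    ext s
    simpa using congrFun hy s
  obtain ⟨κ, a, ha, hsp, hli⟩ := exists_linearIndependent' ℂ (fun k => M k)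
  have hsp' : ⊤ ≤ Submodule.span ℂ (Set.range ((fun k => M k) ∘ a)) := by
    rw [hsp]
    exact hspan.ge
  let b := Module.Basis.mk hli hsp'
  let e : S ≃ κ := (Pi.basisFun ℂ S).indexEquiv b
  refine ⟨fun s => a (e s), ?_⟩
  have hli2 : LinearIndependent ℂ (((fun k => M k) ∘ a) ∘ e) := hli.comp _ e.injective
  have h3 : IsUnit (Matrix.of fun s t : S => M (a (e s)) t) :=
    Matrix.linearIndependent_rows_iff_isUnit.1 hli2
  exact ((Matrix.isUnit_iff_isUnit_det _).1 h3).ne_zero

lemma AVJac_fderiv {ι : Type} [Fintype ι] [DecidableEq ι] (h : (ι → ℂ) → ℂ) (v w : ι → ℂ) :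
    fderiv ℂ h v w = ∑ a, w a * fderiv ℂ h v (Pi.single a 1) := by
  conv_lhs => rw [pi_eq_sum_univ' w]
  rw [map_sum]
  refine Finset.sum_congr rfl fun a _ => ?_
  rw [map_smul, smul_eq_mul]

theorem thm_AVJac : St_AVJac := by
  intro X S _ _ T c d n v₀ hd hT hB
  set B : (S → ℂ) → ℂ := fun v => ∑ j, (n j : ℂ) * X.θ j (T.mulVec v) with hBdef
  have hθd : ∀ k, Differentiable ℂ (X.θ k) := fun k z =>
    ((X.theta k).entire z (Set.mem_univ _)).differentiableAt
  set TL : (S → ℂ) →L[ℂ] (Fin X.g → ℂ) := LinearMap.toContinuousLinearMap (Matrix.mulVecLin T)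
    with hTL
  set Θ : Fin (X.N + 1) → (S → ℂ) → ℂ := fun k v => X.θ k (TL v) with hΘ
  have hΘh : ∀ k v, HasFDerivAt (Θ k) ((fderiv ℂ (X.θ k) (TL v)).comp TL) v := fun k v =>
    (hθd k (TL v)).hasFDerivAt.comp v TL.hasFDerivAt
  have hΘf : ∀ k v y, fderiv ℂ (Θ k) v y =
      ∑ a, T.mulVec y a * Pool.Agent.GPC.pd a (X.θ k) (T.mulVec v) := by
    intro k v y
    rw [(hΘh k v).fderiv, ContinuousLinearMap.comp_apply, AVJac_fderiv]
    rfl
  have hBh : DifferentiableAt ℂ B v₀ := by
    have : Differentiable ℂ (fun v => ∑ j, (n j : ℂ) * Θ j v) :=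
      Differentiable.fun_sum fun k _ => (differentiable_const _).mul
        fun v => (hΘh k v).differentiableAt
    exact this v₀
  have hB0 : B v₀ ≠ 0 := hB
  have hker : ∀ y, (Matrix.of fun (k : Fin (X.N + 1)) (s : S) =>
      pd s (fun v => Θ k v / B v) v₀).mulVec y = 0 → y = 0 := by
    intro y hy
    have h1 : ∀ k, fderiv ℂ (Θ k) v₀ y * B v₀ = Θ k v₀ * fderiv ℂ B v₀ y := by
      intro k
      have h2 := congrFun hy k
      have h3 : fderiv ℂ (fun v => Θ k v / B v) v₀ y = 0 := by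
        rw [AVJac_fderiv, ← Pi.zero_apply (M := fun _ => ℂ) k, ← h2]
        unfold Matrix.mulVec dotProduct
        refine Finset.sum_congr rfl fun s _ => ?_
        rw [mul_comm]
        rfl
      have h4 := (hΘh k v₀).differentiableAt.hasFDerivAt.mul
        ((hasDerivAt_inv hB0).comp_hasFDerivAt v₀ hBh.hasFDerivAt)
      have h5 : (fun v => Θ k v / B v) = Θ k * (fun y => y⁻¹) ∘ B := by
        funext v
        exact div_eq_mul_inv _ _
      rw [h5, h4.fderiv] at h3
      simp only [_root_.smul_apply, _root_.add_apply, smul_eq_mul, Function.comp_apply] at h3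
      field_simp at h3
      linear_combination h3
    have h2 : T.mulVec y = 0 := by
      refine X.embedding.immersive (T.mulVec v₀) (T.mulVec y) fun i j => ?_
      rw [← hΘf, ← hΘf]
      have e1 := h1 i
      have e2 := h1 j
      have e3 : (Θ i v₀ * fderiv ℂ (Θ j) v₀ y - Θ j v₀ * fderiv ℂ (Θ i) v₀ y) * B v₀ = 0 := by
        linear_combination Θ i v₀ * e2 - Θ j v₀ * e1
      have e4 := (mul_eq_zero.1 e3).resolve_right hB0
      exact sub_eq_zero.1 e4
    exact hT y h2
  obtain ⟨j, hj⟩ := AVJac_minor _ hker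
  refine ⟨j, ?_⟩
  have e : ∀ k : Fin (X.N + 1), (fun v : S → ℂ => (Complex.exp (-∑ a, c a * T.mulVec v a) *
      X.θ k (T.mulVec v) / d) / ∑ j, (n j : ℂ) * (Complex.exp (-∑ a, c a * T.mulVec v a) *
      X.θ j (T.mulVec v) / d)) = fun v => Θ k v / B v := by
    intro k
    funext v
    have e1 : ∑ j, (n j : ℂ) * (Complex.exp (-∑ a, c a * T.mulVec v a) *
        X.θ j (T.mulVec v) / d) = Complex.exp (-∑ a, c a * T.mulVec v a) / d * B v := by
      rw [hBdef, Finset.mul_sum]
      refine Finset.sum_congr rfl fun j _ => ?_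
      ring
    have e2 : Complex.exp (-∑ a, c a * T.mulVec v a) * X.θ k (T.mulVec v) / d =
        Complex.exp (-∑ a, c a * T.mulVec v a) / d * X.θ k (T.mulVec v) := by ring
    rw [e1, e2, mul_div_mul_left _ _ (div_ne_zero (Complex.exp_ne_zero _) hd)]
    rfl
  unfold jac
  simp only [e]
  exact hj

end GAM
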