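import Pool.Agent.GAM.StC

/-!
# GAM: a linear combination of theta functions without zeros in a finite set
-/

set_option autoImplicit false

namespace GAM

open Polynomial in
theorem AVNz_aux {N : ℕ} {Z : Type} (P : Finset Z) (θ : Fin (N + 1) → Z → ℂ)
    (h : ∀ z, ∃ i, θ i z ≠ 0) : ∃ n : Fin (N + 1) → ℕ, ∀ z ∈ P, ∑ j, (n j : ℂ) * θ j z ≠ 0 := by
  classical
  let p : Z → ℂ[X] := fun z => ∑ j : Fin (N + 1), C (θ j z) * X ^ (j : ℕ)
  have hp : ∀ z, p z ≠ 0 := by
    intro z hz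
    obtain ⟨i, hi⟩ := h z
    have h1 : (p z).coeff (i : ℕ) = θ i z := by
      simp only [p, finsetSum_coeff, coeff_C_mul, coeff_X_pow]
      rw [Finset.sum_eq_single i]
      · simp
      · intro b _ hb
        have : (i : ℕ) ≠ (b : ℕ) := fun h => hb (Fin.ext h.symm)
        simp [this]
      · intro hb
        exact absurd (Finset.mem_univ i) hb
    rw [hz, coeff_zero] at h1
    exact hi h1.symm
  have hQ : (∏ z ∈ P, p z) ≠ 0 := Finset.prod_ne_zero_iff.2 fun z _ => hp z
  obtain ⟨x, hx⟩ : ∃ x : ℕ, (∏ z ∈ P, p z).eval (x : ℂ) ≠ 0 := by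
    by_contra hcon
    push Not at hcon
    apply hQ
    refine eq_zero_of_infinite_isRoot _ (Set.Infinite.mono (s := Set.range fun n : ℕ => (n : ℂ)) ?_
      (Set.infinite_range_of_injective Nat.cast_injective))
    rintro _ ⟨n, rfl⟩
    exact hcon n
  rw [eval_prod, Finset.prod_ne_zero_iff] at hx
  refine ⟨fun j => x ^ (j : ℕ), fun z hz => ?_⟩
  have h2 := hx z hz
  simp only [p, eval_finsetSum, eval_mul, eval_C, eval_pow, eval_X] at h2
  have h3 : ∑ j : Fin (N + 1), ((x ^ (j : ℕ) : ℕ) : ℂ) * θ j z =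
      ∑ j : Fin (N + 1), θ j z * (x : ℂ) ^ (j : ℕ) := by
    refine Finset.sum_congr rfl fun j _ => ?_
    push_cast
    ring
  rw [h3]
  exact h2

theorem thm_AVNz : St_AVNz := by
  intro X P
  exact AVNz_aux P X.θ X.embedding.base_free

end GAM
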