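import Pool.Agent.GAM.StA
import Pool.Agent.Helper7.Deriv

/-!
# GAM [Der]: numbers killed by all derivations are algebraic, and conversely
-/

set_option autoImplicit false

namespace GAM

theorem thm_Der : St_Der := by
  intro x
  exact ⟨fun h δ => Pool.Agent.Helper7.derivation_eq_zero δ x h,
    fun h => Pool.Agent.Helper7.isAlgebraic_of_derivation x h⟩

end GAM
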