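import Pool.Agent.GAM.StG
import Pool.Agent.GAM.Hol
import Pool.Agent.GAM.Der

/-!
# GAM: the abelian variety of a principal lattice with exponents
-/

set_option autoImplicit false
set_option linter.unusedSectionVars false

namespace GAM

open scoped ComplexConjugate
open Pool.Agent.GPC (AbVar hermForm bilForm IsLattice IsAppellHumbert IsTheta IsProjEmbedding
  IsAlgebraicModel)

section AbV

variable {ι : Type} [Fintype ι] [DecidableEq ι] {g : ℕ} (e : Fin g ≃ ι)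

/-- change of the index set, inverse direction -/
noncomputable def AbV_re : (Fin g → ℂ) ≃L[ℂ] (ι → ℂ) :=
  (LinearEquiv.funCongrLeft ℂ ℂ e.symm).toContinuousLinearEquiv

lemma AbV_re_apply (z : Fin g → ℂ) (a : ι) : AbV_re e z a = z (e.symm a) := rfl

lemma AbV_re_single (j : Fin g) : AbV_re e (Pi.single j 1) = Pi.single (e j) 1 := by
  funext a
  rw [AbV_re_apply]
  by_cases h : a = e j
  · subst h
    rw [Equiv.symm_apply_apply, Pi.single_eq_same, Pi.single_eq_same]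
  · rw [Pi.single_eq_of_ne h, Pi.single_eq_of_ne]
    intro h'
    apply h
    rw [← h', Equiv.apply_symm_apply]

lemma AbV_pd (j : Fin g) (f : (ι → ℂ) → ℂ) :
    Pool.Agent.GPC.pd j (fun z => f (AbV_re e z)) = fun z => pd (e j) f (AbV_re e z) := by
  funext z
  unfold Pool.Agent.GPC.pd pd
  have h : fderiv ℂ (fun z => f (AbV_re e z)) z =
      (fderiv ℂ f (AbV_re e z)).comp (AbV_re e : (Fin g → ℂ) →L[ℂ] (ι → ℂ)) :=
    (AbV_re e).comp_right_fderiv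
  rw [h]
  show fderiv ℂ f (AbV_re e z) (AbV_re e (Pi.single j 1)) = _
  rw [AbV_re_single]

variable (μ : ι → ℂ)

/-- division of the coordinates by `μ` -/
noncomputable def AbV_R (z : Fin g → ℂ) : ι → ℂ := fun a => (μ a)⁻¹ * z (e.symm a)

lemma AbV_R_add (z w : Fin g → ℂ) : AbV_R e μ (z + w) = AbV_R e μ z + AbV_R e μ w := by
  funext a; simp [AbV_R, mul_add]

lemma AbV_R_sub (z w : Fin g → ℂ) : AbV_R e μ (z - w) = AbV_R e μ z - AbV_R e μ w := by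
  funext a; simp [AbV_R, mul_sub]

lemma AbV_R_eq_zero (hμ : ∀ a, μ a ≠ 0) {z : Fin g → ℂ} (h : AbV_R e μ z = 0) : z = 0 := by
  funext j
  have h1 := congrFun h (e j)
  simp only [AbV_R, Equiv.symm_apply_apply, Pi.zero_apply, mul_eq_zero, inv_eq_zero] at h1
  exact h1.resolve_left (hμ _)

/-- the Hermitian matrix -/
noncomputable def AbV_H : Matrix (Fin g) (Fin g) ℂ :=
  Matrix.diagonal fun j => ((‖μ (e j)‖ ^ 2 : ℝ) : ℂ)⁻¹

lemma AbV_herm (_hμ : ∀ a, μ a ≠ 0) (z w : Fin g → ℂ) :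
    hermForm (AbV_H e μ) z w = H (AbV_R e μ z) (AbV_R e μ w) := by
  unfold hermForm H AbV_R AbV_H
  rw [← e.sum_comp (fun a => (μ a)⁻¹ * z (e.symm a) * conj ((μ a)⁻¹ * w (e.symm a)))]
  refine Finset.sum_congr rfl fun j _ => ?_
  rw [Finset.sum_eq_single j]
  · rw [Matrix.diagonal_apply_eq, Equiv.symm_apply_apply, map_mul, map_inv₀]
    have h1 : ((‖μ (e j)‖ ^ 2 : ℝ) : ℂ) = μ (e j) * conj (μ (e j)) := by
      rw [Complex.mul_conj']; push_cast; rfl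
    rw [h1, mul_inv]
    ring
  · intro b _ hb
    rw [Matrix.diagonal_apply_ne' _ hb]
    ring
  · intro h; exact absurd (Finset.mem_univ _) h

/-- the multiplication by `μ N` as linear equivalence -/
noncomputable def AbV_T (hμ : ∀ a, μ a ≠ 0) (N : ℕ) (hN : N ≠ 0) :
    (ι → ℂ) ≃ₗ[ℂ] (Fin g → ℂ) where
  toFun l j := μ (e j) * ((N : ℂ) * l (e j))
  invFun z a := (N : ℂ)⁻¹ * ((μ a)⁻¹ * z (e.symm a))
  map_add' l m := by funext j; simp only [Pi.add_apply]; ring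
  map_smul' c l := by
    funext j; simp only [Pi.smul_apply, smul_eq_mul, RingHom.id_apply]; ring
  left_inv l := by
    funext a
    have h1 := hμ a
    have h2 : (N : ℂ) ≠ 0 := Nat.cast_ne_zero.mpr hN
    simp only [Equiv.apply_symm_apply]
    field_simp
  right_inv z := by
    funext j
    have h1 := hμ (e j)
    have h2 : (N : ℂ) ≠ 0 := Nat.cast_ne_zero.mpr hN
    simp only [Equiv.symm_apply_apply]
    field_simp

lemma AbV_T_apply (hμ : ∀ a, μ a ≠ 0) (N : ℕ) (hN : N ≠ 0) (l : ι → ℂ) (j : Fin g) :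
    AbV_T e μ hμ N hN l j = μ (e j) * ((N : ℂ) * l (e j)) := rfl

/-- the lattice -/
noncomputable def AbV_L (L : Submodule ℤ (ι → ℂ)) (hμ : ∀ a, μ a ≠ 0) (N : ℕ) (hN : N ≠ 0) :
    Submodule ℤ (Fin g → ℂ) := L.map ((AbV_T e μ hμ N hN).toLinearMap.restrictScalars ℤ)

lemma AbV_mem (L : Submodule ℤ (ι → ℂ)) (hμ : ∀ a, μ a ≠ 0) (N : ℕ) (hN : N ≠ 0)
    (z : Fin g → ℂ) : z ∈ AbV_L e μ L hμ N hN ↔
      ∃ l ∈ L, ∀ j, z j = μ (e j) * ((N : ℂ) * l (e j)) := by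
  unfold AbV_L
  rw [Submodule.mem_map]
  constructor
  · rintro ⟨l, hl, rfl⟩
    exact ⟨l, hl, fun j => rfl⟩
  · rintro ⟨l, hl, h⟩
    exact ⟨l, hl, funext fun j => (h j).symm⟩

lemma AbV_R_mem {L : Submodule ℤ (ι → ℂ)} (hμ : ∀ a, μ a ≠ 0) {N : ℕ} (hN : N ≠ 0)
    {z : Fin g → ℂ} (hz : z ∈ AbV_L e μ L hμ N hN) : ∃ l ∈ L, AbV_R e μ z = (N : ℤ) • l := by
  obtain ⟨l, hl, h⟩ := (AbV_mem e μ L hμ N hN z).mp hz
  refine ⟨l, hl, funext fun a => ?_⟩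
  have h1 := hμ a
  unfold AbV_R
  rw [h (e.symm a), Equiv.apply_symm_apply]
  simp only [Pi.smul_apply, zsmul_eq_mul, Int.cast_natCast]
  field_simp

lemma AbV_mem_of_R {L : Submodule ℤ (ι → ℂ)} (hμ : ∀ a, μ a ≠ 0) {N : ℕ} (hN : N ≠ 0)
    {z : Fin g → ℂ} {l : ι → ℂ} (hl : l ∈ L) (h : AbV_R e μ z = (N : ℤ) • l) :
    z ∈ AbV_L e μ L hμ N hN := by
  rw [AbV_mem]
  refine ⟨l, hl, fun j => ?_⟩
  have h1 := congrFun h (e j)
  simp only [AbV_R, Equiv.symm_apply_apply, Pi.smul_apply, zsmul_eq_mul, Int.cast_natCast] at h1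
  have h2 := hμ (e j)
  rw [← h1]
  field_simp

lemma AbV_lattice {L : Submodule ℤ (ι → ℂ)} (hL : IsLat L) (hμ : ∀ a, μ a ≠ 0) {N : ℕ}
    (hN : N ≠ 0) : IsLattice (AbV_L e μ L hμ N hN) := by
  obtain ⟨b, hb⟩ := hL
  have h1 : AbV_L e μ L hμ N hN = Submodule.span ℤ
      (Set.range (b.map ((AbV_T e μ hμ N hN).restrictScalars ℝ))) := by
    unfold AbV_L
    rw [hb, Submodule.map_span, ← Set.range_comp]
    congr 2
  rw [h1]
  exact ⟨inferInstance, Submodule.eq_top_iff'.mpr fun x => by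
    have h := ZSpan.span_top (b.map ((AbV_T e μ hμ N hN).restrictScalars ℝ))
    rw [h]; exact Submodule.mem_top⟩

/-- the character -/
noncomputable def AbV_chi (χ : (ι → ℂ) → ℂ) (z : Fin g → ℂ) : ℂ := χ (AbV_R e μ z)

lemma AbV_ah {L : Submodule ℤ (ι → ℂ)} {χ : (ι → ℂ) → ℂ} (hP : PLat L χ) (hμ : ∀ a, μ a ≠ 0)
    {N : ℕ} (hN : N ≠ 0) : IsAppellHumbert (AbV_L e μ L hμ N hN) (AbV_H e μ)
      (AbV_chi e μ χ) where
  herm := by
    unfold AbV_H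
    rw [Matrix.IsHermitian, Matrix.diagonal_conjTranspose]
    congr 1
    funext j
    rw [Pi.star_apply, ← Complex.ofReal_inv]
    exact Complex.conj_ofReal _
  pos z hz := by
    rw [AbV_herm e μ hμ]
    rcases (H_self_nonneg (AbV_R e μ z)).lt_or_eq with h | h
    · exact h
    · exact absurd (AbV_R_eq_zero e μ hμ (H_self_eq_zero h.symm)) hz
  integral l hl m hm := by
    obtain ⟨l', hl', h1⟩ := AbV_R_mem e μ hμ hN hl
    obtain ⟨m', hm', h2⟩ := AbV_R_mem e μ hμ hN hm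
    rw [AbV_herm e μ hμ, h1, h2]
    exact hP.int _ (L.smul_mem _ hl') _ (L.smul_mem _ hm')
  norm l hl := by
    obtain ⟨l', hl', h1⟩ := AbV_R_mem e μ hμ hN hl
    unfold AbV_chi
    rw [h1]
    exact hP.chi_norm (L.smul_mem _ hl')
  add l hl m hm := by
    obtain ⟨l', hl', h1⟩ := AbV_R_mem e μ hμ hN hl
    obtain ⟨m', hm', h2⟩ := AbV_R_mem e μ hμ hN hm
    unfold AbV_chi
    rw [AbV_herm e μ hμ, AbV_R_add, h1, h2]
    exact hP.add _ (L.smul_mem _ hl') _ (L.smul_mem _ hm')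

variable (θ : (ι → ℂ) → ℂ) (y : ι → ℂ)

/-- the theta functions -/
noncomputable def AbV_th (x : ι → ℂ) (z : Fin g → ℂ) : ℂ := Tn θ μ y x (AbV_re e z)

lemma AbV_th_apply (x : ι → ℂ) (z : Fin g → ℂ) :
    AbV_th e μ θ y x z = F θ x (AbV_R e μ z) / F θ y 0 := rfl

lemma AbV_th_ne (hy : F θ y 0 ≠ 0) (x : ι → ℂ) (z : Fin g → ℂ) :
    AbV_th e μ θ y x z ≠ 0 ↔ F θ x (AbV_R e μ z) ≠ 0 := by
  rw [AbV_th_apply, div_ne_zero_iff]
  exact ⟨fun h => h.1, fun h => ⟨h, hy⟩⟩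

lemma AbV_R_diff : Differentiable ℂ (AbV_R e μ : (Fin g → ℂ) → ι → ℂ) := by
  unfold AbV_R
  fun_prop

lemma AbV_bil (z w : Fin g → ℂ) : bilForm (0 : Matrix (Fin g) (Fin g) ℂ) z w = 0 := by
  unfold bilForm
  simp

lemma AbV_theta {L : Submodule ℤ (ι → ℂ)} {χ : (ι → ℂ) → ℂ} (hP : PLat L χ)
    (hT : IsTh L χ θ) (hμ : ∀ a, μ a ≠ 0) {N : ℕ} (hN : N ≠ 0) {x : ι → ℂ}
    (hx : (N : ℤ) • x ∈ L) :
    IsTheta (AbV_L e μ L hμ N hN) (AbV_H e μ) (AbV_chi e μ χ) 0 (AbV_th e μ θ y x) where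
  entire := by
    have h1 : Differentiable ℂ (AbV_th e μ θ y x) := by
      have h2 : Differentiable ℂ fun z => F θ x (AbV_R e μ z) :=
        (F_differentiable hT x).comp (AbV_R_diff e μ)
      have h3 : AbV_th e μ θ y x = fun z => F θ x (AbV_R e μ z) * (F θ y 0)⁻¹ := by
        funext z
        rw [AbV_th_apply, div_eq_mul_inv]
      rw [h3]
      exact h2.mul_const _
    exact thm_Hol (Fin g) Set.univ _ isOpen_univ h1.differentiableOn
  quasi l hl z := by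
    obtain ⟨l', hl', h1⟩ := AbV_R_mem e μ hμ hN hl
    rw [AbV_th_apply, AbV_th_apply, AbV_R_add, AbV_bil, AbV_bil, AbV_herm e μ hμ,
      AbV_herm e μ hμ, h1, F_quasi hT (L.smul_mem _ hl')]
    have h2 : E x ((N : ℤ) • l') = E ((N : ℤ) • x) l' := by
      rw [E_zsmul_left, E_zsmul_right]
    rw [h2, exp_two_pi_int (hP.int _ hx _ hl')]
    unfold AbV_chi
    rw [h1, mul_one, mul_zero, add_zero, add_zero]
    ring

/-- functions with equivalent indices are proportional -/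
lemma AbV_unit {L : Submodule ℤ (ι → ℂ)} {χ : (ι → ℂ) → ℂ} {θ : (ι → ℂ) → ℂ} (hP : PLat L χ)
    (hT : IsTh L χ θ) {x x' : ι → ℂ} (h : x - x' ∈ L) :
    ∃ u : ℂ, u ≠ 0 ∧ ∀ v, F θ x v = u * F θ x' v := by
  refine ⟨χ (x - x') * Complex.exp (Real.pi * Complex.I * E x' (x - x')),
    mul_ne_zero (hP.chi_ne h) (Complex.exp_ne_zero _), fun v => ?_⟩
  have h1 := F_add_lat hT h x' v
  rwa [add_sub_cancel] at h1

lemma AbV_unit_dd {L : Submodule ℤ (ι → ℂ)} {χ : (ι → ℂ) → ℂ} {θ : (ι → ℂ) → ℂ} (hP : PLat L χ)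
    (hT : IsTh L χ θ) {x x' : ι → ℂ} (h : x - x' ∈ L) :
    ∃ u : ℂ, u ≠ 0 ∧ (∀ v, F θ x v = u * F θ x' v) ∧ ∀ t v, dd t (F θ x) v = u * dd t (F θ x') v := by
  obtain ⟨u, hu, h1⟩ := AbV_unit hP hT h
  refine ⟨u, hu, h1, fun t v => ?_⟩
  have h2 : F θ x = fun v => u * F θ x' v := funext h1
  unfold dd
  rw [h2, fderiv_const_mul (F_differentiable hT x' v)]
  rfl

lemma AbV_fderiv {L : Submodule ℤ (ι → ℂ)} {χ : (ι → ℂ) → ℂ} (hT : IsTh L χ θ) (x : ι → ℂ)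
    (z v : Fin g → ℂ) : ∑ a, v a * Pool.Agent.GPC.pd a (AbV_th e μ θ y x) z =
      dd (AbV_R e μ v) (F θ x) (AbV_R e μ z) / F θ y 0 := by
  let R : (Fin g → ℂ) →ₗ[ℂ] (ι → ℂ) :=
    { toFun := AbV_R e μ
      map_add' := AbV_R_add e μ
      map_smul' := fun c z => by
        funext a; simp only [AbV_R, Pi.smul_apply, smul_eq_mul, RingHom.id_apply]; ring }
  have h1 : HasFDerivAt (AbV_R e μ) (LinearMap.toContinuousLinearMap R) z :=
    (LinearMap.toContinuousLinearMap R).hasFDerivAt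
  have h2 := (F_differentiable hT x (AbV_R e μ z)).hasFDerivAt.comp z h1
  have h3 : HasFDerivAt (AbV_th e μ θ y x) ((F θ y 0)⁻¹ • ((fderiv ℂ (F θ x) (AbV_R e μ z)).comp
      (LinearMap.toContinuousLinearMap R))) z := by
    have h4 := h2.const_mul (F θ y 0)⁻¹
    have h5 : AbV_th e μ θ y x = fun z => (F θ y 0)⁻¹ * (F θ x ∘ AbV_R e μ) z := by
      funext z
      rw [AbV_th_apply, div_eq_mul_inv, mul_comm]
      rfl
    rw [h5]
    exact h4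
  have h6 : ∀ a, Pool.Agent.GPC.pd a (AbV_th e μ θ y x) z =
      fderiv ℂ (AbV_th e μ θ y x) z (Pi.single a 1) := fun a => rfl
  have h7 : ∑ a, v a * fderiv ℂ (AbV_th e μ θ y x) z (Pi.single a 1) =
      fderiv ℂ (AbV_th e μ θ y x) z v := by
    conv_rhs => rw [pi_eq_sum_univ' v]
    rw [map_sum]
    refine Finset.sum_congr rfl fun a _ => ?_
    rw [map_smul, smul_eq_mul]
  simp only [h6]
  rw [h7, h3.fderiv]
  show (F θ y 0)⁻¹ * (fderiv ℂ (F θ x) (AbV_R e μ z)) (AbV_R e μ v) = _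
  unfold dd
  rw [div_eq_mul_inv, mul_comm]

/-- representatives of a level -/
structure AbV_Rep (L : Submodule ℤ (ι → ℂ)) (N M : ℕ) (X : Fin (M + 1) → ι → ℂ) : Prop where
  mem : ∀ j, (N : ℤ) • X j ∈ L
  ex : ∀ x, (N : ℤ) • x ∈ L → ∃ j, x - X j ∈ L

lemma AbV_emb (hS : St_Sep) (hIA : St_ImA) (hIB : St_ImB) {L : Submodule ℤ (ι → ℂ)}
    {χ : (ι → ℂ) → ℂ} {θ : (ι → ℂ) → ℂ} {y : ι → ℂ} (hP : PLat L χ)
    (hT : IsTh L χ θ) (hne : ∃ v, θ v ≠ 0) (hμ : ∀ a, μ a ≠ 0) {N : ℕ} (hN : N ≠ 0)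
    (hG : GoodN L θ N) {r : ℕ} {c : Fin (r + 1) → ι → ℂ} {κ : Fin (r + 1) → (ι → ℂ) → ℂ}
    (hL : LinN L θ N r c κ) (hy : F θ y 0 ≠ 0) {M : ℕ} {X : Fin (M + 1) → ι → ℂ}
    (hX : AbV_Rep L N M X) :
    IsProjEmbedding (AbV_L e μ L hμ N hN) (fun k => AbV_th e μ θ y (X k)) where
  base_free z := by
    obtain ⟨x, hx, h1⟩ := hG.pt (AbV_R e μ z)
    obtain ⟨j, hj⟩ := hX.ex x hx
    obtain ⟨u, hu, h2⟩ := AbV_unit hP hT hj
    refine ⟨j, (AbV_th_ne e μ θ y hy _ _).mpr fun h => ?_⟩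
    apply (F_ne_iff θ x (AbV_R e μ z)).mpr h1
    rw [h2, h, mul_zero]
  separates z w h := by
    have h1 : ∀ i j, F θ (X i) (AbV_R e μ z) * F θ (X j) (AbV_R e μ w) =
        F θ (X j) (AbV_R e μ z) * F θ (X i) (AbV_R e μ w) := by
      intro i j
      have h2 := h i j
      simp only [AbV_th_apply] at h2
      field_simp at h2
      exact h2
    obtain ⟨m, hm, h3⟩ := hS ι L χ θ N r c κ (AbV_R e μ z) (AbV_R e μ w) hP hT hne hG hL (by
      intro x x' hx hx'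
      obtain ⟨i, hi⟩ := hX.ex x hx
      obtain ⟨j, hj⟩ := hX.ex x' hx'
      obtain ⟨u, -, hu⟩ := AbV_unit hP hT hi
      obtain ⟨u', -, hu'⟩ := AbV_unit hP hT hj
      rw [hu, hu', hu, hu']
      linear_combination (u * u') * h1 i j)
    rw [← AbV_R_sub] at h3
    exact AbV_mem_of_R e μ hμ hN hm h3
  immersive z v h := by
    have h1 : ∀ i j, F θ (X i) (AbV_R e μ z) * dd (AbV_R e μ v) (F θ (X j)) (AbV_R e μ z) =
        F θ (X j) (AbV_R e μ z) * dd (AbV_R e μ v) (F θ (X i)) (AbV_R e μ z) := by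
      intro i j
      have h2 := h i j
      rw [AbV_fderiv e μ θ y hT, AbV_fderiv e μ θ y hT] at h2
      simp only [AbV_th_apply] at h2
      field_simp at h2
      exact h2
    obtain ⟨x₀, hx₀, h3⟩ := hG.pt (AbV_R e μ z)
    obtain ⟨i, hi⟩ := hX.ex x₀ hx₀
    obtain ⟨u, hu0, hu⟩ := AbV_unit hP hT hi
    have h4 : F θ (X i) (AbV_R e μ z) ≠ 0 := fun h => by
      apply (F_ne_iff θ x₀ (AbV_R e μ z)).mpr h3
      rw [hu, h, mul_zero]
    obtain ⟨η, hη, h5⟩ := hIA ι L χ θ N r c κ (AbV_R e μ z) (AbV_R e μ v)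
      (dd (AbV_R e μ v) (F θ (X i)) (AbV_R e μ z) / F θ (X i) (AbV_R e μ z)) hP hT hne hG hL (by
      intro x hx
      obtain ⟨j, hj⟩ := hX.ex x hx
      obtain ⟨u, -, hu, hu'⟩ := AbV_unit_dd hP hT hj
      rw [hu, hu']
      have h6 := h1 i j
      field_simp
      linear_combination u * h6)
    exact AbV_R_eq_zero e μ hμ (hIB ι L χ θ _ η hP hT hne hη h5)

lemma AbV_alg (hQ : St_Quad) {L : Submodule ℤ (ι → ℂ)}
    {χ : (ι → ℂ) → ℂ} {θ : (ι → ℂ) → ℂ} {A : Derivation ℚ ℂ ℂ → ι → ℂ} {μ y : ι → ℂ} (hP : PLat L χ)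
    (hT : IsTh L χ θ) (hne : ∃ v, θ v ≠ 0) (hn : Norm L θ A μ y) {N : ℕ}
    (hG : GoodN L θ N) {r : ℕ} {c : Fin (r + 1) → ι → ℂ} {κ : Fin (r + 1) → (ι → ℂ) → ℂ}
    {κ₁ : ι → Fin (r + 1) → (ι → ℂ) → ℂ} {κ₂ : ι → ι → Fin (r + 1) → ℂ}
    (hL : LinN L θ N r c κ)
    (hW : ∀ a σ ρ v, pd a (F θ (σ + ρ)) v * F θ (σ - ρ) v - F θ (σ + ρ) v * pd a (F θ (σ - ρ)) v =
      ∑ i, κ₁ a i ρ * (F θ (σ + c i) v * F θ (σ - c i) v))
    (hH : ∀ a b σ v, F θ σ v * pd a (pd b (F θ σ)) v - pd a (F θ σ) v * pd b (F θ σ) v =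
      ∑ i, κ₂ a b i * (F θ (σ + c i) v * F θ (σ - c i) v))
    {M : ℕ} {X : Fin (M + 1) → ι → ℂ} (hX : AbV_Rep L N M X) :
    IsAlgebraicModel (fun k => AbV_th e μ θ y (X k)) := by
  obtain ⟨h1, h2⟩ := hQ ι L χ θ A μ y N r c κ κ₁ κ₂ M X hP hT hne hn hG hL hW hH hX.mem hX.ex
  have hp : ∀ (f : (ι → ℂ) → ℂ) (j : Fin g), Pool.Agent.GPC.pd j (fun z => f (AbV_re e z)) =
      fun z => pd (e j) f (AbV_re e z) := fun f j => AbV_pd e j f
  have hth : ∀ k, AbV_th e μ θ y (X k) = fun z => Tn θ μ y (X k) (AbV_re e z) := fun k => rfl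
  refine ⟨fun a i j => ?_, fun a b i => ?_, fun i j hi => ?_⟩
  · obtain ⟨Q, hQ1, hQ2⟩ := h1 (e a) i j
    refine ⟨Q, hQ1, fun z => ?_⟩
    simp only [hth, hp]
    exact hQ2 _
  · obtain ⟨Q, hQ1, hQ2⟩ := h2 (e a) (e b) i
    refine ⟨Q, hQ1, fun z => ?_⟩
    simp only [hth, hp]
    exact hQ2 _
  · have h3 : ∀ k, IsAlgebraic ℚ (AbV_th e μ θ y (X k) 0) := by
      intro k
      rw [thm_Der]
      intro δ
      have hX' : OddTor L (X k) := ⟨N, hG.odd, hX.mem k⟩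
      have h4 := (hn.del δ (X k) hX').del []
      have h5 : AbV_th e μ θ y (X k) 0 = Tn θ μ y (X k) 0 := by
        rw [hth]
        show Tn θ μ y (X k) (AbV_re e 0) = _
        rw [map_zero]
      rw [h5]
      exact h4.symm
    exact (h3 j).mul (h3 i).inv

end AbV

theorem thm_AbV (hAdd : St_Add) (hNe : St_GNex) (hNo : St_Nor) (hR : St_Rep) (hQ : St_Quad)
    (hS : St_Sep) (hIA : St_ImA) (hIB : St_ImB) : St_AbV := by
  intro ι _ _ L χ θ A k hP hT hne hexp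
  obtain ⟨r, c, κ, κ₁, κ₂, -, hc, -, -, hind, hlin, hW, hH⟩ := hAdd ι L χ θ hP hT hne
  obtain ⟨N₀, hN₀⟩ := hNe ι L χ θ hP hT hne
  obtain ⟨μ, y, hn⟩ := hNo ι L χ θ A k hP hT hne hexp
  obtain ⟨n, hn1, hn2⟩ := exists_common_order c hc
  obtain ⟨N, hNdef⟩ : ∃ N, N = n * (2 * N₀ + 1) := ⟨_, rfl⟩
  have hodd : Odd N := by rw [hNdef]; exact hn1.mul (odd_two_mul_add_one _)
  have hN : N ≠ 0 := fun h => by rw [h] at hodd; simp at hodd
  have hge : N₀ ≤ N := by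
    have h1 : 1 ≤ n := hn1.pos
    nlinarith
  have hG := hN₀ N hge hodd
  have hL : LinN L θ N r c κ := ⟨fun i => by rw [hNdef]; exact oddTor_mul (hn2 i) _, hind, hlin⟩
  obtain ⟨M, X, hX1, hX2⟩ := hR ι L N hP.lat hN
  have hX : AbV_Rep L N M X := ⟨hX1, hX2⟩
  let e : Fin (Fintype.card ι) ≃ ι := (Fintype.equivFin ι).symm
  let V : AbVar :=
    { g := Fintype.card ι
      N := M
      Λ := AbV_L e μ L hn.ne N hN
      lattice := AbV_lattice e μ hP.lat hn.ne hN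
      H := AbV_H e μ
      χ := AbV_chi e μ χ
      appellHumbert := AbV_ah e μ hP hn.ne hN
      q := 0
      q_symm := Matrix.isSymm_zero
      θ := fun k => AbV_th e μ θ y (X k)
      theta := fun k => AbV_theta e μ θ y hP hT hn.ne hN (hX1 k)
      embedding := AbV_emb e μ hS hIA hIB hP hT hne hn.ne hN hG hL hn.ney hX
      algebraic := AbV_alg e hQ hP hT hne hn hG hL hW hH hX }
  exact ⟨V, e, μ, N, hn.ne, hn.exp, hN, fun z => AbV_mem e μ L hn.ne N hN z, rfl, rfl⟩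

end GAM
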