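import Pool.Agent.GAM.FCalc

/-!
# GAM [Add]
-/

set_option autoImplicit false

namespace GAM

open scoped ComplexConjugate

open Complex

/-- coefficients with respect to linearly independent functions by finite combinations of values -/
private lemma Add_dual {X : Type} {n : ℕ} {Q : Fin n → X → ℂ} (hQ : LinearIndependent ℂ Q) :
    ∃ N : Fin n → (X →₀ ℂ), ∀ i k, ∑ x ∈ (N i).support, N i x * Q k x =
      if k = i then 1 else 0 := by
  classical
  have htop : Submodule.span ℂ (Set.range fun (x : X) (k : Fin n) => Q k x) = ⊤ := by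
    by_contra hne
    obtain ⟨f, hf0, hf⟩ := Submodule.exists_le_ker_of_lt_top _ (lt_top_iff_ne_top.mpr hne)
    apply hf0
    have h1 : ∀ y : Fin n → ℂ, f y = ∑ k, y k * f (Pi.single k 1) := by
      intro y
      conv_lhs => rw [pi_eq_sum_univ' y, map_sum]
      refine Finset.sum_congr rfl fun k _ => ?_
      rw [map_smul, smul_eq_mul]
    have h2 : ∀ x : X, ∑ k, f (Pi.single k 1) * Q k x = 0 := by
      intro x
      have h3 : (fun k : Fin n => Q k x) ∈ LinearMap.ker f :=
        hf (Submodule.subset_span ⟨x, rfl⟩)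
      rw [LinearMap.mem_ker, h1] at h3
      rw [← h3]
      exact Finset.sum_congr rfl fun k _ => mul_comm _ _
    rw [Fintype.linearIndependent_iff] at hQ
    have h4 := hQ (fun k => f (Pi.single k 1)) (by
      funext x
      simpa [Finset.sum_apply] using h2 x)
    refine LinearMap.ext fun y => ?_
    rw [h1 y]
    simp [h4]
  have h5 : ∀ i : Fin n, ∃ N : X →₀ ℂ, ∀ k, ∑ x ∈ N.support, N x * Q k x =
      if k = i then 1 else 0 := by
    intro i
    have h6 : (Pi.single i 1 : Fin n → ℂ) ∈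
        Submodule.span ℂ (Set.range fun (x : X) (k : Fin n) => Q k x) := by
      rw [htop]; trivial
    rw [Finsupp.mem_span_range_iff_exists_finsupp] at h6
    obtain ⟨N, hN⟩ := h6
    refine ⟨N, fun k => ?_⟩
    have h7 := congrFun hN k
    rw [Finsupp.sum, Finset.sum_apply, Pi.single_apply] at h7
    rw [← h7]
    rfl
  choose N hN using h5
  exact ⟨N, hN⟩

section
variable {ι : Type} [Fintype ι]

/-- the shift of a product -/
private lemma Add_shift (θ : (ι → ℂ) → ℂ) (σ ρ v : ι → ℂ) :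
    F θ (σ + ρ) v * F θ (σ - ρ) v = F θ ρ (v + σ) * F θ (-ρ) (v + σ) *
      exp (-(2 * Real.pi * H v σ) - Real.pi * H σ σ) := by
  rw [show σ + ρ = ρ + σ by abel, show σ - ρ = -ρ + σ by abel, F_shift θ ρ σ v,
    F_shift θ (-ρ) σ v]
  rw [show F θ ρ (v + σ) * exp (-(Real.pi * H v σ) - Real.pi / 2 * H σ σ +
      Real.pi * I * E σ ρ) * (F θ (-ρ) (v + σ) * exp (-(Real.pi * H v σ) -
      Real.pi / 2 * H σ σ + Real.pi * I * E σ (-ρ))) =
      F θ ρ (v + σ) * F θ (-ρ) (v + σ) * (exp (-(Real.pi * H v σ) - Real.pi / 2 * H σ σ +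
      Real.pi * I * E σ ρ) * exp (-(Real.pi * H v σ) -
      Real.pi / 2 * H σ σ + Real.pi * I * E σ (-ρ))) by ring, ← Complex.exp_add]
  congr 2
  rw [E_neg_right]
  push_cast
  ring

/-- both arguments moved -/
private lemma Add_move (θ : (ι → ℂ) → ℂ) (σ ρ v w : ι → ℂ) :
    F θ (σ + ρ) (v + w) * F θ (σ - ρ) (v - w) =
      exp (Real.pi * H w w - 2 * Real.pi * I * E w ρ) *
      (F θ (σ + (ρ + w)) v * F θ (σ - (ρ + w)) v) := by
  rw [sub_eq_add_neg v w, F_shift' θ (σ + ρ) w v, F_shift' θ (σ - ρ) (-w) v]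
  rw [show σ + ρ + w = σ + (ρ + w) by abel, show σ - ρ + -w = σ - (ρ + w) by abel]
  rw [show F θ (σ + (ρ + w)) v * exp (Real.pi * H v w + Real.pi / 2 * H w w -
      Real.pi * I * E w (σ + ρ)) * (F θ (σ - (ρ + w)) v *
      exp (Real.pi * H v (-w) + Real.pi / 2 * H (-w) (-w) - Real.pi * I * E (-w) (σ - ρ))) =
      (exp (Real.pi * H v w + Real.pi / 2 * H w w - Real.pi * I * E w (σ + ρ)) *
      exp (Real.pi * H v (-w) + Real.pi / 2 * H (-w) (-w) - Real.pi * I * E (-w) (σ - ρ))) *
      (F θ (σ + (ρ + w)) v * F θ (σ - (ρ + w)) v) by ring, ← Complex.exp_add]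
  congr 2
  rw [H_neg_right, H_neg_right, H_neg_left, E_neg_left, E_add_right, E_sub_right]
  push_cast
  ring

end

section
variable {ι : Type} [Fintype ι] [DecidableEq ι]

private lemma Add_pd_sub {G : (ι → ℂ) → ℂ} (hG : Differentiable ℂ G) (v w : ι → ℂ) (a : ι) :
    pd a (fun z => G (v - z)) w = - pd a G (v - w) := by
  unfold pd
  have h := (hG (v - w)).hasFDerivAt.comp w ((hasFDerivAt_id w).const_sub v)
  have h2 : fderiv ℂ (fun z => G (v - z)) w =
      (fderiv ℂ G (v - w)).comp (-ContinuousLinearMap.id ℂ (ι → ℂ)) := h.fderiv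
  rw [h2]
  simp

private lemma Add_pd_prod {f g : (ι → ℂ) → ℂ} (hf : Differentiable ℂ f)
    (hg : Differentiable ℂ g) (v w : ι → ℂ) (a : ι) :
    pd a (fun z => f (v + z) * g (v - z)) w =
      pd a f (v + w) * g (v - w) - f (v + w) * pd a g (v - w) := by
  have h1 : Differentiable ℂ fun z => f (v + z) := hf.comp (by fun_prop)
  have h2 : Differentiable ℂ fun z => g (v - z) := hg.comp (by fun_prop)
  rw [pd_mul (h1 w) (h2 w), pd_comp_add_left, Add_pd_sub hg]
  ring

end

theorem thm_Add (h1 : St_Bas) : St_Add := by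
  classical
  intro ι _ _ L χ θ hP hT hne
  obtain ⟨r, c, hc0, hcT, hLI, hsp⟩ := h1 ι L χ θ hP hT hne
  set Q : Fin (r + 1) → (ι → ℂ) → ℂ := fun i v => F θ (c i) v * F θ (-c i) v with hQ
  choose κ hκ using hsp
  obtain ⟨N, hN⟩ := Add_dual hLI
  -- coefficients
  have hcoef : ∀ (a : Fin (r + 1) → ℂ) (i : Fin (r + 1)),
      ∑ x ∈ (N i).support, N i x * ∑ k, a k * Q k x = a i := by
    intro a i
    have e1 : ∑ x ∈ (N i).support, N i x * ∑ k, a k * Q k x =
        ∑ k, a k * ∑ x ∈ (N i).support, N i x * Q k x := by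
      simp only [Finset.mul_sum]
      rw [Finset.sum_comm]
      refine Finset.sum_congr rfl fun k _ => Finset.sum_congr rfl fun x _ => ?_
      ring
    rw [e1]
    simp [hN]
  -- general sigma
  have hQσ : ∀ (σ v : ι → ℂ) (i : Fin (r + 1)), F θ (σ + c i) v * F θ (σ - c i) v =
      Q i (v + σ) * exp (-(2 * Real.pi * H v σ) - Real.pi * H σ σ) := by
    intro σ v i
    rw [Add_shift]
  have hLin : ∀ σ ρ v : ι → ℂ, F θ (σ + ρ) v * F θ (σ - ρ) v =
      ∑ i, κ ρ i * (F θ (σ + c i) v * F θ (σ - c i) v) := by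
    intro σ ρ v
    rw [Add_shift, hκ ρ (v + σ), Finset.sum_mul]
    refine Finset.sum_congr rfl fun i _ => ?_
    rw [hQσ]
    ring
  have hLIσ : ∀ σ : ι → ℂ, LinearIndependent ℂ fun (i : Fin (r + 1)) (v : ι → ℂ) =>
      F θ (σ + c i) v * F θ (σ - c i) v := by
    intro σ
    rw [Fintype.linearIndependent_iff] at hLI ⊢
    intro g hg
    refine hLI g ?_
    funext v
    have h2 := congrFun hg (v - σ)
    simp only [Finset.sum_apply, Pi.smul_apply, smul_eq_mul, Pi.zero_apply, hQσ,
      sub_add_cancel] at h2 ⊢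
    have h3 : (∑ i, g i * Q i v) *
        exp (-(2 * Real.pi * H (v - σ) σ) - Real.pi * H σ σ) = 0 := by
      rw [Finset.sum_mul, ← h2]
      exact Finset.sum_congr rfl fun i _ => by ring
    exact (mul_eq_zero.mp h3).resolve_right (exp_ne_zero _)
  -- the functions lambda
  set lam : Fin (r + 1) → (ι → ℂ) → (ι → ℂ) → ℂ := fun i ρ w =>
    ∑ x ∈ (N i).support, N i x * (F θ ρ (x + w) * F θ (-ρ) (x - w)) with hlam
  have hlam2 : ∀ i ρ w, lam i ρ w =
      exp (Real.pi * H w w - 2 * Real.pi * I * E w ρ) * κ (ρ + w) i := by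
    intro i ρ w
    have e1 : ∀ x : ι → ℂ, F θ ρ (x + w) * F θ (-ρ) (x - w) =
        exp (Real.pi * H w w - 2 * Real.pi * I * E w ρ) * ∑ k, κ (ρ + w) k * Q k x := by
      intro x
      have e2 := Add_move θ 0 ρ x w
      rw [zero_add, zero_sub, zero_add, zero_sub] at e2
      rw [e2, hκ (ρ + w) x]
    simp only [hlam, e1]
    rw [← hcoef (κ (ρ + w)) i, Finset.mul_sum]
    refine Finset.sum_congr rfl fun x _ => ?_
    ring
  have hstar : ∀ σ ρ v w : ι → ℂ, F θ (σ + ρ) (v + w) * F θ (σ - ρ) (v - w) =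
      ∑ i, lam i ρ w * (F θ (σ + c i) v * F θ (σ - c i) v) := by
    intro σ ρ v w
    rw [Add_move, hLin, Finset.mul_sum]
    refine Finset.sum_congr rfl fun i _ => ?_
    rw [hlam2]
    ring
  have hFd : ∀ x, Differentiable ℂ (F θ x) := fun x => F_diff hT.ent x
  have hlamd : ∀ i ρ, Differentiable ℂ (lam i ρ) := by
    intro i ρ
    have : Differentiable ℂ fun w => ∑ x ∈ (N i).support,
        N i x * (F θ ρ (x + w) * F θ (-ρ) (x - w)) := by
      refine Differentiable.fun_sum fun x _ => ?_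
      have d1 : Differentiable ℂ fun w => F θ ρ (x + w) := (hFd ρ).comp (by fun_prop)
      have d2 : Differentiable ℂ fun w => F θ (-ρ) (x - w) := (hFd (-ρ)).comp (by fun_prop)
      exact (d1.mul d2).const_mul _
    exact this
  have hκ0 : ∀ i ρ, κ ρ i = lam i ρ 0 := by
    intro i ρ
    rw [hlam2]
    simp [H_zero_left, E_zero_left]
  refine ⟨r, c, fun i ρ => κ ρ i, fun a i ρ => pd a (lam i ρ) 0,
    fun a b i => 1 / 2 * pd a (pd b (lam i 0)) 0, hc0, hcT, ?_, ?_, hLIσ, hLin, ?_, ?_⟩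
  · -- continuity
    have e1 : (fun ρ => κ ρ 0) = fun ρ => ∑ x ∈ (N 0).support,
        N 0 x * (F θ ρ x * F θ (-ρ) x) := by
      funext ρ
      rw [hκ0]
      simp only [hlam, add_zero, sub_zero]
    show Continuous fun ρ => κ ρ 0
    rw [e1]
    have hH1 : ∀ x : ι → ℂ, Continuous fun ρ : ι → ℂ => H x ρ := by
      intro x
      exact (continuous_H (ι := ι)).comp (continuous_const.prodMk continuous_id)
    have hH2 : Continuous fun ρ : ι → ℂ => H ρ ρ :=
      (continuous_H (ι := ι)).comp (continuous_id.prodMk continuous_id)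
    have hθ := hT.ent.continuous
    have hF : ∀ x : ι → ℂ, Continuous fun ρ : ι → ℂ => F θ ρ x := by
      intro x
      unfold F
      have := hH1 x
      fun_prop
    refine continuous_finsetSum _ fun x _ => ?_
    exact continuous_const.mul ((hF x).mul ((hF x).comp continuous_neg))
  · -- value at 0
    have e1 : ∀ v, ∑ i, (κ 0 i - if i = 0 then 1 else 0) * Q i v = 0 := by
      intro v
      have e2 := hκ 0 v
      simp only [sub_mul, Finset.sum_sub_distrib, ite_mul, one_mul, zero_mul,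
        Finset.sum_ite_eq', Finset.mem_univ, if_true]
      rw [← e2, hQ]
      simp only [hc0]
      ring
    have e3 := hcoef (fun i => κ 0 i - if i = 0 then 1 else 0) 0
    simp only [e1, mul_zero, Finset.sum_const_zero, if_true] at e3
    show κ 0 0 = 1
    exact (sub_eq_zero.mp e3.symm)
  · -- Wronskians
    intro a σ ρ v
    have e1 := Add_pd_prod (hFd (σ + ρ)) (hFd (σ - ρ)) v 0 a
    rw [add_zero, sub_zero] at e1
    rw [← e1]
    have e2 : (fun z => F θ (σ + ρ) (v + z) * F θ (σ - ρ) (v - z)) = fun z =>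
        ∑ i, lam i ρ z * (F θ (σ + c i) v * F θ (σ - c i) v) := by
      funext z
      exact hstar σ ρ v z
    rw [e2, pd_sum _ (fun i _ => ((hlamd i ρ).mul_const _) 0)]
    refine Finset.sum_congr rfl fun i _ => ?_
    rw [pd_mul ((hlamd i ρ) 0) (differentiableAt_const _), pd_const]
    ring
  · -- second derivatives
    intro a b σ v
    have e1 : ∀ z, pd b (fun z => F θ σ (v + z) * F θ σ (v - z)) z =
        pd b (F θ σ) (v + z) * F θ σ (v - z) - F θ σ (v + z) * pd b (F θ σ) (v - z) :=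
      fun z => Add_pd_prod (hFd σ) (hFd σ) v z b
    have hF' := pd_diff (hFd σ) b
    have d1 : Differentiable ℂ fun z => pd b (F θ σ) (v + z) * F θ σ (v - z) :=
      (hF'.comp (by fun_prop)).mul ((hFd σ).comp (by fun_prop))
    have d2 : Differentiable ℂ fun z => F θ σ (v + z) * pd b (F θ σ) (v - z) :=
      ((hFd σ).comp (by fun_prop)).mul (hF'.comp (by fun_prop))
    have e3 : pd a (pd b (fun z => F θ σ (v + z) * F θ σ (v - z))) 0 =
        2 * (F θ σ v * pd a (pd b (F θ σ)) v - pd a (F θ σ) v * pd b (F θ σ) v) := by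
      rw [show pd b (fun z => F θ σ (v + z) * F θ σ (v - z)) = fun z =>
        pd b (F θ σ) (v + z) * F θ σ (v - z) - F θ σ (v + z) * pd b (F θ σ) (v - z) from
        funext e1, pd_sub (d1 0) (d2 0), Add_pd_prod hF' (hFd σ) v 0 a,
        Add_pd_prod (hFd σ) hF' v 0 a, add_zero, sub_zero]
      ring
    have e4 : (fun z => F θ σ (v + z) * F θ σ (v - z)) = fun z =>
        ∑ i, lam i 0 z * (F θ (σ + c i) v * F θ (σ - c i) v) := by
      funext z
      have := hstar σ 0 v z
      rw [add_zero, sub_zero] at this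
      exact this
    have e5 : pd b (fun z => ∑ i, lam i 0 z * (F θ (σ + c i) v * F θ (σ - c i) v)) = fun z =>
        ∑ i, pd b (lam i 0) z * (F θ (σ + c i) v * F θ (σ - c i) v) := by
      funext z
      rw [pd_sum _ (fun i _ => ((hlamd i 0).mul_const _) z)]
      refine Finset.sum_congr rfl fun i _ => ?_
      rw [pd_mul ((hlamd i 0) z) (differentiableAt_const _), pd_const]
      ring
    have e6 : pd a (pd b (fun z => F θ σ (v + z) * F θ σ (v - z))) 0 =
        ∑ i, pd a (pd b (lam i 0)) 0 * (F θ (σ + c i) v * F θ (σ - c i) v) := by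
      rw [e4, e5, pd_sum _ (fun i _ => ((pd_diff (hlamd i 0) b).mul_const _) 0)]
      refine Finset.sum_congr rfl fun i _ => ?_
      rw [pd_mul ((pd_diff (hlamd i 0) b) 0) (differentiableAt_const _), pd_const]
      ring
    rw [e3] at e6
    have e7 : F θ σ v * pd a (pd b (F θ σ)) v - pd a (F θ σ) v * pd b (F θ σ) v =
        1 / 2 * ∑ i, pd a (pd b (lam i 0)) 0 * (F θ (σ + c i) v * F θ (σ - c i) v) := by
      rw [← e6]; ring
    rw [e7, Finset.mul_sum]
    refine Finset.sum_congr rfl fun i _ => ?_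
    ring

end GAM
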