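import Pool.Agent.GAM.StA

/-!
# GAM [Avg]
-/

set_option autoImplicit false

namespace GAM

open scoped ComplexConjugate Pointwise
open MeasureTheory Set

/-- translation invariance of the integral of a periodic function over the unit cube -/
theorem Avg_trans {κ : Type} [Fintype κ] (g : (κ → ℝ) → ℂ)
    (hg : ∀ z ∈ Submodule.span ℤ (Set.range (Pi.basisFun ℝ κ)), ∀ t, g (t + z) = g t)
    (s : κ → ℝ) :
    ∫ t in Set.Icc (0 : κ → ℝ) 1, g (t + s) = ∫ t in Set.Icc (0 : κ → ℝ) 1, g t := by
  classical
  set D : Set (κ → ℝ) := ZSpan.fundamentalDomain (Pi.basisFun ℝ κ) with hD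
  have hDI : D =ᵐ[volume] Set.Icc (0 : κ → ℝ) 1 := by
    rw [hD, ZSpan.fundamentalDomain_pi_basisFun]
    exact Measure.univ_pi_Ico_ae_eq_Icc (f := fun _ : κ => (0 : ℝ)) (g := fun _ => 1)
  have h1 : IsAddFundamentalDomain
      (Submodule.span ℤ (Set.range (Pi.basisFun ℝ κ))).toAddSubgroup D
      (volume : Measure (κ → ℝ)) := ZSpan.isAddFundamentalDomain' (Pi.basisFun ℝ κ) volume
  have h2 : IsAddFundamentalDomain
      (Submodule.span ℤ (Set.range (Pi.basisFun ℝ κ))).toAddSubgroup (s +ᵥ D)
      (volume : Measure (κ → ℝ)) := h1.vadd_of_comm s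
  have hcount : Countable (Submodule.span ℤ (Set.range (Pi.basisFun ℝ κ))).toAddSubgroup :=
    inferInstanceAs (Countable (Submodule.span ℤ (Set.range (Pi.basisFun ℝ κ))))
  have h3 := h1.setIntegral_eq h2 (f := g) (by
    intro z x
    rw [show z +ᵥ x = x + (z : κ → ℝ) from add_comm _ _]
    exact hg z z.2 x)
  rw [← setIntegral_congr_set hDI, ← setIntegral_congr_set hDI, h3]
  have h4 : (fun t : κ → ℝ => t + s) ⁻¹' (s +ᵥ D) = D := by
    ext t
    rw [Set.mem_preimage, Set.mem_vadd_set_iff_neg_vadd_mem]
    rw [show (-s) +ᵥ (t + s) = t by rw [vadd_eq_add]; abel]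
  have h5 := (measurePreserving_add_right (volume : Measure (κ → ℝ)) s).setIntegral_preimage_emb
    (measurableEmbedding_addRight s) g (s +ᵥ D)
  rw [h4] at h5
  exact h5

theorem Avg_eq {ι κ : Type} [Fintype ι] [Fintype κ] (b : Module.Basis κ ℝ (ι → ℂ))
    (f : (ι → ℂ) → ℂ) :
    avg b f = ∫ t in Set.Icc (0 : κ → ℝ) 1, f (b.equivFun.symm t) := by
  unfold avg
  simp only [Module.Basis.equivFun_symm_apply]

/-- translation invariance of the average -/
theorem Avg_shift {ι κ : Type} [Fintype ι] [Fintype κ] (b : Module.Basis κ ℝ (ι → ℂ))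
    (f : (ι → ℂ) → ℂ)
    (hf : ∀ l ∈ Submodule.span ℤ (Set.range b), ∀ x, f (x + l) = f x) (h : ι → ℂ) :
    avg b (fun x => f (x + h)) = avg b f := by
  classical
  rw [Avg_eq, Avg_eq]
  have hX : ∀ z ∈ Submodule.span ℤ (Set.range (Pi.basisFun ℝ κ)),
      b.equivFun.symm z ∈ Submodule.span ℤ (Set.range b) := by
    intro z hz
    induction hz using Submodule.span_induction with
    | mem x hx =>
      obtain ⟨i, rfl⟩ := hx
      have : b.equivFun.symm ((Pi.basisFun ℝ κ) i) = b i := by
        rw [Module.Basis.equivFun_symm_apply]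
        simp [Pi.single_apply]
      rw [this]
      exact Submodule.subset_span (Set.mem_range_self i)
    | zero => rw [map_zero]; exact Submodule.zero_mem _
    | add x y _ _ hx hy => rw [map_add]; exact Submodule.add_mem _ hx hy
    | smul n x _ hx =>
      have : b.equivFun.symm (n • x) = n • b.equivFun.symm x := map_zsmul _ _ _
      rw [this]; exact Submodule.smul_mem _ _ hx
  have h1 := Avg_trans (fun t => f (b.equivFun.symm t)) (fun z hz t => by
    rw [map_add]; exact hf _ (hX z hz) _) (b.equivFun h)
  rw [← h1]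
  simp only [map_add, LinearEquiv.symm_apply_apply]

/-- holomorphic dependence on a parameter -/
theorem Avg_hol {κ : Type} [Fintype κ] (Φ : ℂ → (κ → ℝ) → ℂ) (hc : Continuous (Function.uncurry Φ))
    (hd : ∀ t, Differentiable ℂ (fun s => Φ s t)) :
    Differentiable ℂ (fun s => ∫ t in Set.Icc (0 : κ → ℝ) 1, Φ s t) := by
  intro s0
  have hcomp : IsCompact (Metric.closedBall s0 2 ×ˢ Set.Icc (0 : κ → ℝ) 1) :=
    (isCompact_closedBall s0 2).prod isCompact_Icc
  obtain ⟨M, hM⟩ := hcomp.exists_bound_of_continuousOn hc.continuousOn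
  have hcs : ∀ s, Continuous (Φ s) := fun s => by
    exact hc.comp (by fun_prop : Continuous fun t : κ → ℝ => (s, t))
  have hFin : IsFiniteMeasure ((volume : Measure (κ → ℝ)).restrict (Set.Icc (0 : κ → ℝ) 1)) :=
    ⟨by rw [Measure.restrict_apply_univ]; exact isCompact_Icc.measure_lt_top⟩
  have hmeas : Measurable (fun t : κ → ℝ => deriv (fun s => Φ s t) s0) := by
    have h1 : Continuous (Function.uncurry (fun (t : κ → ℝ) (s : ℂ) => Φ s t)) :=
      hc.comp (by fun_prop : Continuous fun p : (κ → ℝ) × ℂ => (p.2, p.1))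
    have h2 := measurable_deriv_with_param h1
    exact h2.comp (by fun_prop : Measurable fun t : κ → ℝ => (t, s0))
  have h := hasDerivAt_integral_of_dominated_loc_of_deriv_le
    (μ := (volume : Measure (κ → ℝ)).restrict (Set.Icc (0 : κ → ℝ) 1))
    (F := Φ) (F' := fun s t => deriv (fun s => Φ s t) s) (x₀ := s0)
    (bound := fun _ => M) (s := Metric.ball s0 1)
    (Metric.ball_mem_nhds s0 one_pos)
    (Filter.Eventually.of_forall fun s => (hcs s).aestronglyMeasurable)
    ((hcs s0).continuousOn.integrableOn_compact isCompact_Icc)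
    hmeas.aestronglyMeasurable
    (by
      rw [ae_restrict_iff' measurableSet_Icc]
      refine Filter.Eventually.of_forall fun t ht s hs => ?_
      have h3 := Complex.norm_deriv_le_of_forall_mem_sphere_norm_le (c := s) (R := 1) (C := M)
        (f := fun s => Φ s t) one_pos (hd t).diffContOnCl (by
          intro w hw
          refine hM (w, t) ⟨?_, ht⟩
          rw [mem_sphere_iff_norm] at hw
          rw [Metric.mem_ball, dist_eq_norm] at hs
          rw [Metric.mem_closedBall, dist_eq_norm]
          have : w - s0 = (w - s) + (s - s0) := by ring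
          rw [this]
          refine (norm_add_le _ _).trans ?_
          linarith)
      simpa using h3)
    (integrable_const M)
    (by
      rw [ae_restrict_iff' measurableSet_Icc]
      exact Filter.Eventually.of_forall fun t _ s _ => ((hd t) s).hasDerivAt)
  exact h.2.differentiableAt

theorem thm_Avg : St_Avg := by
  classical
  intro ι _ L b Ψ hL hΨ hper a
  have hΨc := hΨ.continuous
  set J : (ι → ℂ) → (ι → ℂ) → ℂ := fun a c => avg b (fun x => Ψ (x + a, star x + c)) with hJ
  -- real translations
  have h1 : ∀ a c h, J (a + h) (c + star h) = J a c := by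
    intro a c h
    have := Avg_shift b (fun x => Ψ (x + a, star x + c)) (by
      intro l hl x
      rw [← hL] at hl
      have h2 := hper l hl (x + a) (star x + c)
      rw [← h2, star_add]
      congr 2 <;> abel) h
    rw [hJ]
    dsimp only at this ⊢
    rw [← this]
    congr 1
    funext x
    rw [star_add]
    congr 2 <;> abel
  -- holomorphic dependence
  have h2 : ∀ a c h, J (a + Complex.I • h) (c + Complex.I • star h) = J a c := by
    intro a c h
    have hX : Continuous (fun t : ι ⊕ ι → ℝ => b.equivFun.symm t) :=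
      LinearMap.continuous_of_finiteDimensional (b.equivFun.symm : (ι ⊕ ι → ℝ) →ₗ[ℝ] (ι → ℂ))
    have hd : Differentiable ℂ (fun s : ℂ => J (a + s • h) (c + s • star h)) := by
      have h3 : (fun s : ℂ => J (a + s • h) (c + s • star h)) = fun s : ℂ =>
          ∫ t in Set.Icc (0 : ι ⊕ ι → ℝ) 1, Ψ (b.equivFun.symm t + (a + s • h),
            star (b.equivFun.symm t) + (c + s • star h)) := by
        funext s
        rw [hJ]
        dsimp only
        rw [Avg_eq]
      rw [h3]
      apply Avg_hol
      · apply hΨc.comp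
        have hX1 : Continuous (fun p : ℂ × (ι ⊕ ι → ℝ) => b.equivFun.symm p.2) :=
          hX.comp continuous_snd
        exact (hX1.add (by fun_prop)).prodMk (hX1.star.add (by fun_prop))
      · intro t
        apply hΨ.comp
        fun_prop
    -- constant on the reals
    have hreal : ∀ r : ℝ, J (a + (r : ℂ) • h) (c + (r : ℂ) • star h) = J a c := by
      intro r
      have h4 : (r : ℂ) • star h = star ((r : ℂ) • h) := by
        rw [star_smul]; simp
      rw [h4]
      exact h1 a c ((r : ℂ) • h)
    have hconst : (fun s : ℂ => J (a + s • h) (c + s • star h)) = fun _ => J a c := by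
      have han : AnalyticOnNhd ℂ (fun s : ℂ => J (a + s • h) (c + s • star h)) Set.univ :=
        fun s _ => hd.analyticAt s
      have han2 : AnalyticOnNhd ℂ (fun _ : ℂ => J a c) Set.univ := fun s _ => analyticAt_const
      refine han.eq_of_frequently_eq han2 (z₀ := 0) ?_
      rw [Filter.frequently_iff]
      intro U hU
      obtain ⟨V, hV, hVU⟩ := mem_nhdsWithin_iff_exists_mem_nhds_inter.1 hU
      obtain ⟨ε, hε, hεV⟩ := Metric.mem_nhds_iff.1 hV
      refine ⟨((ε / 2 : ℝ) : ℂ), hVU ⟨hεV ?_, ?_⟩, hreal _⟩
      · rw [Metric.mem_ball, dist_zero_right, Complex.norm_real, Real.norm_eq_abs,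
          abs_of_pos (by linarith)]
        linarith
      · rw [Set.mem_compl_iff, Set.mem_singleton_iff]
        intro h5
        have h6 : (ε / 2 : ℝ) = 0 := by exact_mod_cast h5
        linarith
    have := congrFun hconst Complex.I
    exact this
  have h3 : ∀ a c h, J a (c + (2 * Complex.I) • star h) = J a c := by
    intro a c h
    have h4 := h1 (a - Complex.I • h) c (Complex.I • h)
    rw [sub_add_cancel] at h4
    have h5 := h2 (a - Complex.I • h) c h
    rw [sub_add_cancel] at h5
    -- J a (c + star (I h)) = J a (c + I star h)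
    have h6 : ∀ c, J a (c + star (Complex.I • h)) = J a (c + Complex.I • star h) := by
      intro c
      have e1 := h1 (a - Complex.I • h) c (Complex.I • h)
      have e2 := h2 (a - Complex.I • h) c h
      rw [sub_add_cancel] at e1 e2
      rw [e1, e2]
    have h7 := h6 (c + Complex.I • star h)
    have h8 : star (Complex.I • h) = -(Complex.I • star h) := by
      rw [star_smul]; simp
    rw [h8] at h7
    have h9 : c + Complex.I • star h + -(Complex.I • star h) = c := by abel
    have h10 : c + Complex.I • star h + Complex.I • star h = c + (2 * Complex.I) • star h := by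
      rw [add_assoc, ← add_smul, two_mul]
    rw [h9, h10] at h7
    exact h7.symm
  have h4 : ∀ a c d, J a (c + d) = J a c := by
    intro a c d
    have h5 := h3 a c (star ((2 * Complex.I)⁻¹ • d))
    rw [star_star, smul_smul, mul_inv_cancel₀ (by simp), one_smul] at h5
    exact h5
  have h5 : J a 0 = J 0 0 := by
    have e1 := h1 0 0 a
    rw [zero_add, zero_add] at e1
    rw [← e1]
    have e2 := h4 a 0 (star a)
    rw [zero_add] at e2
    exact e2.symm
  rw [hJ] at h5
  simpa using h5

end GAM
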