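import Pool.Agent.GAM.StD2

/-!
# GAM [BasK]: a rational basis of `K` gives a real basis of `ℂ^S`
-/

set_option autoImplicit false

namespace GAM

open scoped ComplexConjugate

/-- a rational basis of `K` is linearly independent over `ℂ` under all embeddings -/
theorem BasK_indep (K : Type) [Field K] [NumberField K] (κ : Type) [Fintype κ]
    (b : Module.Basis κ ℚ K) (r : κ → ℂ) (h : ∀ σ : K →+* ℂ, ∑ i, r i * σ (b i) = 0) : r = 0 := by
  classical
  have hcard : Fintype.card κ = Fintype.card (K →ₐ[ℚ] ℂ) := by
    rw [← Fintype.card_congr (RingHom.equivRatAlgHom (R := K) (S := ℂ)),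
      NumberField.Embeddings.card, Module.finrank_eq_card_basis b]
  let e : κ ≃ (K →ₐ[ℚ] ℂ) := Fintype.equivOfCardEq hcard
  have hdet : (Algebra.embeddingsMatrixReindex ℚ ℂ b e).det ≠ 0 := by
    have h1 := Algebra.discr_eq_det_embeddingsMatrixReindex_pow_two ℚ ℂ b e
    intro h0
    rw [h0] at h1
    have h2 : algebraMap ℚ ℂ (Algebra.discr ℚ b) ≠ 0 :=
      (map_ne_zero_iff _ (algebraMap ℚ ℂ).injective).mpr (Algebra.discr_not_zero_of_basis ℚ b)
    exact h2 (by rw [h1]; ring)
  refine Matrix.eq_zero_of_vecMul_eq_zero hdet ?_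
  funext j
  exact h ((e j).toRingHom)

theorem thm_BasK : St_BasK := by
  intro K _ _ c S _ _ φ hc hφ κ _ b
  classical
  have hcard : Fintype.card κ = 2 * Fintype.card S := by
    have h1 := Fintype.card_of_bijective hφ
    rw [Fintype.card_sum, NumberField.Embeddings.card, Module.finrank_eq_card_basis b] at h1
    omega
  have hli : LinearIndependent ℝ (fun (i : κ) (s : S) => φ s (b i)) := by
    rw [Fintype.linearIndependent_iff]
    intro g hg
    have h1 : ∀ s, ∑ i, (g i : ℂ) * φ s (b i) = 0 := by
      intro s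
      have h2 := congrFun hg s
      rw [Finset.sum_apply] at h2
      simpa only [Pi.smul_apply, Complex.real_smul, Pi.zero_apply] using h2
    have h2 : ∀ σ : K →+* ℂ, ∑ i, (g i : ℂ) * σ (b i) = 0 := by
      intro σ
      obtain ⟨t, ht⟩ := hφ.2 σ
      rcases t with s | s
      · rw [Sum.elim_inl] at ht
        rw [← ht]
        exact h1 s
      · rw [Sum.elim_inr] at ht
        rw [← ht]
        have h3 := congrArg (starRingEnd ℂ) (h1 s)
        rw [map_sum, map_zero] at h3
        rw [← h3]
        refine Finset.sum_congr rfl fun i _ => ?_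
        rw [map_mul, Complex.conj_ofReal, hc.cc, RingHom.comp_apply]
    intro i
    have h3 := congrFun (BasK_indep K κ b (fun i => (g i : ℂ)) h2) i
    exact Complex.ofReal_eq_zero.1 h3
  refine ⟨hcard, hli, ?_⟩
  refine hli.span_eq_top_of_card_eq_finrank' ?_
  rw [Module.finrank_pi_fintype, Finset.sum_congr rfl fun i _ => Complex.finrank_real_complex,
    Finset.sum_const, Finset.card_univ, smul_eq_mul, hcard]
  ring

end GAM
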