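import Pool.Agent.GAM.StD2

/-!
# GAM: a `ℚ`-basis of `K × K` gives a real basis of `ℂ^(S × 2)`
-/

set_option autoImplicit false

namespace GAM

theorem BasKK_add {S K : Type} [Field K] (r : S × Fin 2 → ℝ) (φ φ' : S → K →+* ℂ)
    (x y : K × K) : coor r φ φ' (x + y) = coor r φ φ' x + coor r φ φ' y := by
  funext p
  simp only [coor, Prod.fst_add, Prod.snd_add, map_add, Pi.add_apply]
  split_ifs <;> ring

theorem BasKK_sum {S K : Type} [Field K] (r : S × Fin 2 → ℝ) (φ φ' : S → K →+* ℂ)
    {ι : Type} (s : Finset ι) (x : ι → K × K) :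
    coor r φ φ' (∑ i ∈ s, x i) = ∑ i ∈ s, coor r φ φ' (x i) := by
  classical
  induction s using Finset.induction_on with
  | empty =>
    rw [Finset.sum_empty, Finset.sum_empty]
    funext p
    simp [coor]
  | insert a s ha ih => rw [Finset.sum_insert ha, Finset.sum_insert ha, BasKK_add, ih]

theorem BasKK_smul {S K : Type} [Field K] [CharZero K] (r : S × Fin 2 → ℝ) (φ φ' : S → K →+* ℂ)
    (q : ℚ) (x : K × K) : coor r φ φ' (q • x) = (q : ℝ) • coor r φ φ' x := by
  funext p
  simp only [coor, Prod.smul_fst, Prod.smul_snd, Pi.smul_apply, Complex.real_smul, Rat.smul_def,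
    map_mul, map_ratCast]
  push_cast
  split_ifs <;> ring

theorem thm_BasKK (h1 : St_BasK) : St_BasKK := by
  intro K _ _ c S _ _ φ φ' hc hφ hφ' n e r hr
  let b := Module.finBasis ℚ K
  obtain ⟨hcard, -, hsp⟩ := h1 K c S φ hc hφ (Fin (Module.finrank ℚ K)) b
  obtain ⟨-, -, hsp'⟩ := h1 K c S φ' hc hφ' (Fin (Module.finrank ℚ K)) b
  have hn : n = 2 * Fintype.card (S × Fin 2) := by
    have e1 : Module.finrank ℚ (K × K) = n := by
      rw [Module.finrank_eq_card_basis e, Fintype.card_fin]
    rw [Module.finrank_prod] at e1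
    rw [Fintype.card_fin] at hcard
    rw [Fintype.card_prod, Fintype.card_fin]
    omega
  -- the span contains all values of `coor`
  have hmem : ∀ x : K × K, coor r φ φ' x ∈
      Submodule.span ℝ (Set.range fun i : Fin n => coor r φ φ' (e i)) := by
    intro x
    rw [← e.sum_repr x, BasKK_sum]
    refine Submodule.sum_mem _ fun i _ => ?_
    rw [BasKK_smul]
    exact Submodule.smul_mem _ _ (Submodule.subset_span ⟨i, rfl⟩)
  have hrep : ∀ (ψ : S → K →+* ℂ), Submodule.span ℝ (Set.range fun (i : Fin (Module.finrank ℚ K))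
      (s : S) => ψ s (b i)) = ⊤ → ∀ v : S → ℂ, ∃ t : Fin (Module.finrank ℚ K) → ℝ,
      ∀ s, ∑ i, (t i : ℂ) * ψ s (b i) = v s := by
    intro ψ hψ v
    have hv : v ∈ Submodule.span ℝ (Set.range fun (i : Fin (Module.finrank ℚ K)) (s : S) =>
        ψ s (b i)) := by
      rw [hψ]
      trivial
    rw [Submodule.mem_span_range_iff_exists_fun] at hv
    obtain ⟨t, ht⟩ := hv
    refine ⟨t, fun s => ?_⟩
    rw [← ht, Finset.sum_apply]
    refine Finset.sum_congr rfl fun i _ => ?_
    rw [Pi.smul_apply, Complex.real_smul]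
  have htop : ⊤ ≤ Submodule.span ℝ (Set.range fun i : Fin n => coor r φ φ' (e i)) := by
    intro v _
    obtain ⟨t, ht⟩ := hrep φ hsp fun s => v (s, 0) / r (s, 0)
    obtain ⟨t', ht'⟩ := hrep φ' hsp' fun s => v (s, 1) / r (s, 1)
    have hv : v = (∑ i, t i • coor r φ φ' (b i, 0)) + ∑ i, t' i • coor r φ φ' (0, b i) := by
      funext p
      obtain ⟨s, j⟩ := p
      rw [Pi.add_apply, Finset.sum_apply, Finset.sum_apply]
      have hr0 : (r (s, 0) : ℂ) ≠ 0 := by exact_mod_cast (hr (s, 0)).ne'
      have hr1 : (r (s, 1) : ℂ) ≠ 0 := by exact_mod_cast (hr (s, 1)).ne'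
      fin_cases j
      · have e1 : ∀ i, (t i • coor r φ φ' (b i, 0)) (s, (0 : Fin 2)) =
            (r (s, 0) : ℂ) * ((t i : ℂ) * φ s (b i)) := by
          intro i
          simp only [coor, Pi.smul_apply, Complex.real_smul, if_true]
          ring
        have e2 : ∀ i, (t' i • coor r φ φ' (0, b i)) (s, (0 : Fin 2)) = 0 := by
          intro i
          simp [coor]
        have e3 : v (s, 0) = (∑ i, (t i • coor r φ φ' (b i, 0)) (s, (0 : Fin 2))) +
            ∑ i, (t' i • coor r φ φ' (0, b i)) (s, (0 : Fin 2)) := by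
          rw [Finset.sum_congr rfl fun i _ => e1 i, Finset.sum_congr rfl fun i _ => e2 i,
            ← Finset.mul_sum, ht, Finset.sum_const_zero, add_zero, mul_div_cancel₀ _ hr0]
        exact e3
      · have e1 : ∀ i, (t' i • coor r φ φ' (0, b i)) (s, (1 : Fin 2)) =
            (r (s, 1) : ℂ) * ((t' i : ℂ) * φ' s (b i)) := by
          intro i
          simp only [coor, Pi.smul_apply, Complex.real_smul, Fin.one_eq_zero_iff,
            OfNat.ofNat_ne_one, if_false]
          ring
        have e2 : ∀ i, (t i • coor r φ φ' (b i, 0)) (s, (1 : Fin 2)) = 0 := by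
          intro i
          simp [coor]
        have e3 : v (s, 1) = (∑ i, (t i • coor r φ φ' (b i, 0)) (s, (1 : Fin 2))) +
            ∑ i, (t' i • coor r φ φ' (0, b i)) (s, (1 : Fin 2)) := by
          rw [Finset.sum_congr rfl fun i _ => e1 i, Finset.sum_congr rfl fun i _ => e2 i,
            ← Finset.mul_sum, ht', Finset.sum_const_zero, zero_add, mul_div_cancel₀ _ hr1]
        exact e3
    rw [hv]
    refine Submodule.add_mem _ (Submodule.sum_mem _ fun i _ => ?_)
      (Submodule.sum_mem _ fun i _ => ?_)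
    · exact Submodule.smul_mem _ _ (hmem _)
    · exact Submodule.smul_mem _ _ (hmem _)
  refine ⟨hn, ?_, top_le_iff.1 htop⟩
  refine linearIndependent_of_top_le_span_of_card_eq_finrank htop ?_
  rw [Fintype.card_fin, hn, Module.finrank_pi_fintype]
  simp [Complex.finrank_real_complex]
  ring

end GAM
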