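import Pool.Agent.GAM.FCalc

/-!
# GAM [Bas]: the products `F_ρ F_{-ρ}` are spanned by those of finitely many odd torsion points
-/

set_option autoImplicit false
set_option linter.unusedSectionVars false

namespace GAM

open Complex

section

variable {ι : Type} [Fintype ι] {L : Submodule ℤ (ι → ℂ)} {χ θ : (ι → ℂ) → ℂ}

/-- the product `F_ρ F_{-ρ}` -/
private noncomputable def Bas_P (θ : (ι → ℂ) → ℂ) (ρ : ι → ℂ) : (ι → ℂ) → ℂ :=
  fun v => F θ ρ v * F θ (-ρ) v

private lemma Bas_diff (h : IsTh L χ θ) (ρ : ι → ℂ) : Differentiable ℂ (Bas_P θ ρ) :=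
  (F_diff h.ent ρ).mul (F_diff h.ent (-ρ))

private lemma Bas_fac (h : IsTh L χ θ) (ρ : ι → ℂ) :
    HasFac L (fun l v => fac χ 0 l v * fac χ 0 l v) (Bas_P θ ρ) := by
  intro l hl v
  have h1 := ((hasFac_F h ρ).mul (hasFac_F h (-ρ))) l hl v
  have h2 : fac χ ρ l v * fac χ (-ρ) l v = fac χ 0 l v * fac χ 0 l v := by
    have h3 : exp (2 * Real.pi * I * E ρ l) * exp (2 * Real.pi * I * E (-ρ) l) = 1 := by
      rw [← Complex.exp_add, E_neg_left]
      push_cast
      rw [show 2 * (Real.pi : ℂ) * I * E ρ l + 2 * Real.pi * I * -(E ρ l) = 0 by ring,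
        Complex.exp_zero]
    unfold fac
    rw [E_zero_left, Complex.ofReal_zero, mul_zero, Complex.exp_zero]
    linear_combination (χ l * χ l * (exp (Real.pi * H v l + Real.pi / 2 * H l l) *
      exp (Real.pi * H v l + Real.pi / 2 * H l l))) * h3
  show F θ ρ (v + l) * F θ (-ρ) (v + l) = fac χ 0 l v * fac χ 0 l v * (F θ ρ v * F θ (-ρ) v)
  rw [← h2]
  exact h1

private lemma Bas_cont (h : IsTh L χ θ) : Continuous (Bas_P θ) := by
  refine continuous_pi fun v => ?_
  have h1 : Continuous θ := h.ent.continuous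
  have h2 : Continuous fun ρ : ι → ℂ => H v ρ :=
    continuous_H.comp (continuous_const.prodMk continuous_id)
  have h3 : Continuous fun ρ : ι → ℂ => H ρ ρ :=
    continuous_H.comp (continuous_id.prodMk continuous_id)
  have hF : Continuous fun ρ : ι → ℂ => F θ ρ v := by
    unfold F
    exact (h1.comp (continuous_id.add continuous_const)).mul
      (Complex.continuous_exp.comp ((continuous_const.mul h2).neg.sub (continuous_const.mul h3)))
  exact hF.mul (hF.comp continuous_neg)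

private def Bas_Q (L : Submodule ℤ (ι → ℂ)) (θ : (ι → ℂ) → ℂ) (r : ℕ) : Prop :=
  ∃ c : Fin (r + 1) → ι → ℂ, c 0 = 0 ∧ (∀ i, OddTor L (c i)) ∧
    LinearIndependent ℂ fun i => Bas_P θ (c i)

private lemma Bas_Q0 (h : IsTh L χ θ) (h0 : ∃ v, θ v ≠ 0) : Bas_Q L θ 0 := by
  refine ⟨fun _ => 0, rfl, fun _ => OddTor.zero, ?_⟩
  obtain ⟨v, hv⟩ := h0
  have : Subsingleton (Fin (0 + 1)) := inferInstanceAs (Subsingleton (Fin 1))
  refine LinearIndependent.of_subsingleton (0 : Fin (0 + 1)) ?_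
  intro hcon
  have h1 := congrFun hcon v
  have h2 : Bas_P θ 0 v = θ v * θ v := by simp [Bas_P, F_zero]
  have h3 : Bas_P θ 0 v = 0 := h1
  rw [h2] at h3
  exact hv (by simpa using h3)

private lemma Bas_closed {r : ℕ} (f : Fin r → (ι → ℂ) → ℂ) :
    IsClosed ((Submodule.span ℂ (Set.range f) : Submodule ℂ ((ι → ℂ) → ℂ)) : Set ((ι → ℂ) → ℂ)) := by
  have : FiniteDimensional ℂ (Submodule.span ℂ (Set.range f)) :=
    FiniteDimensional.span_of_finite ℂ (Set.finite_range f)
  exact Submodule.closed_of_finiteDimensional _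

end

/-- [Bas] -/
theorem thm_Bas (h1 : St_FinD) (h2 : St_OddD) : St_Bas := by
  intro ι _ L χ θ hP hT h0
  classical
  obtain ⟨n, hn⟩ := h1 ι L (fun l v => fac χ 0 l v * fac χ 0 l v) _ hP.isLat
    ((fac_F hP 0).mul (fac_F hP 0))
  have hQn : ¬ Bas_Q L θ n := by
    rintro ⟨c, -, -, hc⟩
    exact hn _ (fun i => Bas_diff hT (c i)) (fun i => Bas_fac hT (c i)) hc
  obtain ⟨r, hr, hr'⟩ : ∃ r, Bas_Q L θ r ∧ ¬ Bas_Q L θ (r + 1) := by
    by_contra hcon
    push Not at hcon
    have : ∀ k, Bas_Q L θ k := fun k => by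
      induction k with
      | zero => exact Bas_Q0 hT h0
      | succ k ih => exact hcon k ih
    exact hQn (this n)
  obtain ⟨c, hc0, hc1, hc2⟩ := hr
  refine ⟨r, c, hc0, hc1, hc2, fun ρ => ?_⟩
  have key : ∀ ρ, OddTor L ρ →
      Bas_P θ ρ ∈ Submodule.span ℂ (Set.range fun i => Bas_P θ (c i)) := by
    intro ρ hρ
    by_contra hcon
    refine hr' ⟨Fin.snoc (α := fun _ => ι → ℂ) c ρ, ?_, ?_, ?_⟩
    · have : (0 : Fin (r + 1 + 1)) = Fin.castSucc (0 : Fin (r + 1)) := rfl
      rw [this, Fin.snoc_castSucc, hc0]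
    · intro i
      refine Fin.lastCases ?_ (fun j => ?_) i
      · rw [Fin.snoc_last]
        exact hρ
      · rw [Fin.snoc_castSucc]
        exact hc1 j
    · have h3 : (fun i => Bas_P θ (Fin.snoc (α := fun _ => ι → ℂ) c ρ i)) =
          Fin.snoc (α := fun _ => (ι → ℂ) → ℂ) (fun i => Bas_P θ (c i)) (Bas_P θ ρ) := by
        funext i
        refine Fin.lastCases ?_ (fun j => ?_) i
        · rw [Fin.snoc_last, Fin.snoc_last]
        · rw [Fin.snoc_castSucc, Fin.snoc_castSucc]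
      rw [h3]
      exact linearIndependent_finSnoc.mpr ⟨hc2, hcon⟩
  have h4 : Bas_P θ ρ ∈ Submodule.span ℂ (Set.range fun i => Bas_P θ (c i)) := by
    have h5 := (Bas_closed fun i => Bas_P θ (c i)).preimage (Bas_cont hT)
    have h6 := h2 ι L hP.isLat
    have h7 : closure {x | OddTor L x} ⊆ Bas_P θ ⁻¹'
        ((Submodule.span ℂ (Set.range fun i => Bas_P θ (c i)) : Submodule ℂ ((ι → ℂ) → ℂ)) :
          Set ((ι → ℂ) → ℂ)) := closure_minimal (fun x hx => key x hx) h5
    exact h7 (h6 ρ)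
  obtain ⟨κ, hκ⟩ := (Submodule.mem_span_range_iff_exists_fun ℂ).mp h4
  refine ⟨κ, fun v => ?_⟩
  have h8 := congrFun hκ v
  rw [Finset.sum_apply] at h8
  exact h8.symm

end GAM
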