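import Pool.Agent.GAM.StC

/-!
# GAM module Base: CM types containing a given embedding
-/

set_option autoImplicit false

namespace GAM

lemma Base_inv {K : Type} [Field K] {c : K →+* K} (hc : CMF K c) (σ : K →+* ℂ) :
    (σ.comp c).comp c = σ := by
  ext x
  have h1 := hc.cc σ (c x)
  have h2 := hc.cc σ x
  simp only [RingHom.comp_apply]
  rw [← h1, ← h2]
  simp

lemma Base_ne {K : Type} [Field K] {c : K →+* K} (hc : CMF K c) (σ : K →+* ℂ) :
    σ.comp c ≠ σ := by
  intro h
  apply hc.ne
  ext x
  apply σ.injective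
  have := congrArg (fun f : K →+* ℂ => f x) h
  simpa using this

theorem thm_Base : St_Base := by
  classical
  intro K _ _ c hc t
  obtain ⟨e, he⟩ : ∃ e : (K →+* ℂ) → ℕ, Function.Injective e := by
    haveI : Finite (K →+* ℂ) := inferInstance
    obtain ⟨n, ⟨f⟩⟩ := Finite.exists_equiv_fin (K →+* ℂ)
    exact ⟨fun σ => (f σ : ℕ), fun a b h => f.injective (Fin.ext h)⟩
  let key : (K →+* ℂ) → ℕ := fun σ => if σ = t then 0 else e σ + 1
  have hkey : Function.Injective key := by
    intro a b h
    simp only [key] at h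
    by_cases ha : a = t <;> by_cases hb : b = t
    · rw [ha, hb]
    · simp [ha, hb] at h
    · simp [ha, hb] at h
    · simp only [ha, hb, if_false] at h
      exact he (by omega)
  let S := {σ : K →+* ℂ // key σ < key (σ.comp c)}
  have hfin : Finite S := Subtype.finite
  have hne : ∀ σ : K →+* ℂ, key σ ≠ key (σ.comp c) := fun σ h => Base_ne hc σ (hkey h).symm
  have ht : key t < key (t.comp c) := by
    have h0 : key t = 0 := by simp [key]
    have := hne t
    omega
  refine ⟨S, Fintype.ofFinite S, Classical.decEq S, fun s => s.1, ⟨t, ht⟩, ⟨?_, ?_⟩, rfl⟩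
  · rintro (⟨a, ha⟩ | ⟨a, ha⟩) (⟨b, hb⟩ | ⟨b, hb⟩) h
    · simp only [Sum.elim_inl] at h
      subst h; rfl
    · simp only [Sum.elim_inl, Sum.elim_inr] at h
      exfalso
      rw [h, Base_inv hc] at ha
      omega
    · simp only [Sum.elim_inl, Sum.elim_inr] at h
      exfalso
      rw [← h, Base_inv hc] at hb
      omega
    · simp only [Sum.elim_inr] at h
      have h2 : a = b := by
        rw [← Base_inv hc a, h, Base_inv hc b]
      subst h2; rfl
  · intro σ
    rcases lt_or_gt_of_ne (hne σ) with h | h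
    · exact ⟨Sum.inl ⟨σ, h⟩, rfl⟩
    · refine ⟨Sum.inr ⟨σ.comp c, ?_⟩, ?_⟩
      · rw [Base_inv hc]; exact h
      · simp only [Sum.elim_inr]
        exact Base_inv hc σ

end GAM
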