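import Pool.Agent.GAM.QDF

/-!
# GAM: [C1a], [C1b], [C1c], [C1]
-/

set_option autoImplicit false
set_option linter.unusedSectionVars false
set_option linter.unusedVariables false

namespace GAM

open scoped ComplexConjugate Topology
open Filter

theorem thm_C1a (hEx : St_DelEx) (hImm : St_Imm) (hPer : St_Per) (hDel : St_DelR) : St_C1a := by
  intro ι _ _ δ L χ θ hP hT h0
  have hR := hDel ι δ
  obtain ⟨v, hv⟩ := F_nz h0 0
  choose! G hG using hEx ι δ L χ θ hP hT h0
  obtain ⟨n, c, hn, hy, hc, hJ⟩ := hImm ι L χ θ hP hT h0 0 v OddTor.zero hv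
  have hodd : ∀ i, OddTor L (c i) := fun i => ⟨n, hn, hc i⟩
  obtain ⟨ld, hld⟩ := hPer ι δ L (fun i z => F θ (c i) z ^ n) (fun _ z => F θ 0 z ^ n)
    (fun i z => n * F θ (c i) z ^ (n - 1) * G (c i) z) (fun _ z => n * F θ 0 z ^ (n - 1) * G 0 z)
    v hP.lat (fun i => QD_pow hR hP hT h0 (hc i) hy (hG _ (hodd i)) (hG 0 OddTor.zero))
    (fun _ => pow_ne_zero n hv) hJ
  exact ⟨G, ld, hG, hld⟩

section

variable {ι : Type} [Fintype ι] [DecidableEq ι] {δ : Derivation ℚ ℂ ℂ}
  {L : Submodule ℤ (ι → ℂ)} {χ θ : (ι → ℂ) → ℂ}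

theorem pd_congr' {f g : (ι → ℂ) → ℂ} {v : ι → ℂ} (h : ∀ᶠ z in 𝓝 v, f z = g z) (j : ι) :
    pd j f v = pd j g v := by
  unfold pd
  rw [Filter.EventuallyEq.fderiv_eq h]

theorem cont_lin (c : ι → ℂ) (v : ι → ℂ) : ContinuousAt (fun v : ι → ℂ => ∑ j, c j * v j) v :=
  tendsto_finsetSum _ fun j _ => continuousAt_const.mul (continuous_apply j).continuousAt

/-- `δ` of the logarithmic derivative -/
theorem hat_om (hR : DelRules ι δ) {f g : (ι → ℂ) → ℂ} (h : IsDel δ f g) (hf : ∃ v, f v ≠ 0)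
    (j : ι) : Hat δ (fun v => pd j f v / f v) (pd j (fun v => g v / f v)) := by
  refine (Hat.quot (hR.pd j _ _ h) h hf).congr (Eventually.of_forall fun _ => rfl) ?_
  filter_upwards [gen_ne h.ent hf] with v hv
  rw [pd_div' (h.ent' v) (h.ent v) hv, qd]
  congr 1
  ring

theorem om_comm {f : (ι → ℂ) → ℂ} (hf : Differentiable ℂ f) (i j : ι) {v : ι → ℂ}
    (hv : f v ≠ 0) : pd i (fun z => pd j f z / f z) v = pd j (fun z => pd i f z / f z) v := by
  rw [pd_div' (ent_pd hf j v) (hf v) hv, pd_div' (ent_pd hf i v) (hf v) hv,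
    ent_pd_comm (ent_smooth hf 2).contDiffAt i j]
  congr 1
  ring

theorem Mer.pd_add {f g : (ι → ℂ) → ℂ} (hf : Mer f) (hg : Mer g) (j : ι) :
    ∀ᶠ v in gen ι, GAM.pd j (fun z => f z + g z) v = GAM.pd j f v + GAM.pd j g v := by
  filter_upwards [hf.diffAt, hg.diffAt] with v e1 e2
  exact pd_add' e1 e2 j

theorem Mer.pd_sub {f g : (ι → ℂ) → ℂ} (hf : Mer f) (hg : Mer g) (j : ι) :
    ∀ᶠ v in gen ι, GAM.pd j (fun z => f z - g z) v = GAM.pd j f v - GAM.pd j g v := by
  filter_upwards [hf.diffAt, hg.diffAt] with v e1 e2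
  exact pd_sub' e1 e2 j

theorem Mer.pd_lin {κ : Type} [Fintype κ] {f : κ → (ι → ℂ) → ℂ} (hf : ∀ i, Mer (f i))
    (c : κ → ℂ) (j : ι) :
    ∀ᶠ v in gen ι, GAM.pd j (fun z => ∑ i, c i * f i z) v = ∑ i, c i * GAM.pd j (f i) v := by
  filter_upwards [eventually_all.2 fun i => (hf i).diffAt] with v e1
  rw [pd_sum' (f := fun i z => c i * f i z) _ fun i _ => (e1 i).const_mul (c i)]
  exact Finset.sum_congr rfl fun i _ => pd_const_mul' (e1 i) (c i) j

/-- periodicity of the second logarithmic derivatives -/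
theorem om2_fac (hP : PLat L χ) (hT : IsTh L χ θ) (h0 : ∃ v, θ v ≠ 0) (i j : ι) :
    HasFac L (fun l v => fx χ 1 l v * fx χ 1 l v)
      (fun v => pd i (pd j (F θ 0)) v * F θ 0 v - pd j (F θ 0) v * pd i (F θ 0) v) := by
  intro l hl
  have hd := F_differentiable hT 0
  set N : (ι → ℂ) → ℂ := fun v => pd i (pd j (F θ 0)) v * F θ 0 v - pd j (F θ 0) v *
    pd i (F θ 0) v with hN
  have hNd : Differentiable ℂ N :=
    ((ent_pd (ent_pd hd j) i).mul hd).sub ((ent_pd hd j).mul (ent_pd hd i))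
  have hfx : Differentiable ℂ (fx χ 1 l) := (fac_fx hP 1).hol l hl
  have key : (fun v => N (v + l)) = fun v => fx χ 1 l v * fx χ 1 l v * N v := by
    apply eq_of_gen (a := fun v => N (v + l)) (b := fun v => fx χ 1 l v * fx χ 1 l v * N v)
    · exact hNd.continuous.comp (continuous_id.add continuous_const)
    · exact (hfx.continuous.mul hfx.continuous).mul hNd.continuous
    · filter_upwards [gen_nhds (gen_ne hd (F_nz h0 0))] with v hv
      have hv0 : F θ 0 v ≠ 0 := hv.self_of_nhds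
      have hv1 : F θ 0 (v + l) ≠ 0 := F_ne_lat hP hT hl hv0
      have e1 : pd i (fun z => pd j (F θ 0) (z + l) / F θ 0 (z + l)) v =
          pd i (fun z => pd j (F θ 0) z / F θ 0 z) v := by
        have e2 : ∀ᶠ z in 𝓝 v, pd j (F θ 0) (z + l) / F θ 0 (z + l) =
            pd j (F θ 0) z / F θ 0 z + Real.pi * conj (l j) := by
          filter_upwards [hv] with z hz
          exact om_quasi hP hT hl 0 j hz
        have e3 : pd i (fun z => pd j (F θ 0) (z + l) / F θ 0 (z + l)) v =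
            pd i (fun z => pd j (F θ 0) z / F θ 0 z + Real.pi * conj (l j)) v := by
          exact pd_congr' e2 i
        rw [e3, pd_add' (diff_div (ent_pd hd j v) (hd v) hv0) (by fun_prop), pd_const', add_zero]
      have e4 : pd i (fun z => pd j (F θ 0) (z + l) / F θ 0 (z + l)) v =
          pd i (fun z => pd j (F θ 0) z / F θ 0 z) (v + l) :=
        pd_shift' (fun z => pd j (F θ 0) z / F θ 0 z) l v i
      rw [e4, pd_div' (ent_pd hd j _) (hd _) hv1, pd_div' (ent_pd hd j _) (hd _) hv0] at e1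
      have e5 : F θ 0 (v + l) = fx χ 1 l v * F θ 0 v := hasFac_one hP hT l hl v
      have hfne : fx χ 1 l v ≠ 0 := (fac_fx hP 1).ne hl v
      rw [div_eq_div_iff (pow_ne_zero 2 hv1) (pow_ne_zero 2 hv0)] at e1
      have e6 : N (v + l) * F θ 0 v ^ 2 = fx χ 1 l v * fx χ 1 l v * N v * F θ 0 v ^ 2 := by
        simp only [hN]
        rw [e1, e5]
        ring
      exact mul_right_cancel₀ (pow_ne_zero 2 hv0) e6
  intro v
  exact congrFun key v

end

theorem thm_C1b (hDel : St_DelR) : St_C1b := by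
  intro ι _ _ δ L χ θ G ld hP hT h0 hPre l hl
  have hR := hDel ι δ
  have hd := F_differentiable hT (0 : ι → ℂ)
  have hG0 := hPre.del 0 OddTor.zero
  have hnz := F_nz h0 (0 : ι → ℂ)
  have hne := gen_ne hd hnz
  set u : (ι → ℂ) → ℂ := fun v => G 0 v / F θ 0 v with hu
  set om : ι → (ι → ℂ) → ℂ := fun j v => pd j (F θ 0) v / F θ 0 v with hom
  have hmu : Mer u := Mer.quot hG0.ent' hG0.ent hnz
  have hmom : ∀ j, Mer (om j) := fun j => Mer.quot (ent_pd hd j) hd hnz
  set ep : (ι → ℂ) → ℂ := fun v => u (v + l) - u v - ∑ j, ld l j * om j v with hep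
  have hmul : Mer fun v => u (v + l) := hmu.shift l
  have hml : ∀ c : ι → ℂ, Mer fun v => ∑ j, c j * om j v := fun c =>
    Mer.sum _ fun j _ => (Mer.const _).mul (hmom j)
  have hmep : Mer ep := (hmul.sub hmu).sub (hml _)
  -- second derivatives vanish
  have h2 : ∀ a b, ∀ᶠ v in gen ι, pd a (pd b ep) v = 0 := by
    intro a b
    have hQD : QD δ L (fun v => pd a (pd b (F θ 0)) v * F θ 0 v - pd b (F θ 0) v * pd a (F θ 0) v)
        (fun v => F θ 0 v * F θ 0 v)
        (fun v => pd a (pd b (G 0)) v * F θ 0 v + pd a (pd b (F θ 0)) v * G 0 v -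
          (pd b (G 0) v * pd a (F θ 0) v + pd b (F θ 0) v * pd a (G 0) v))
        (fun v => G 0 v * F θ 0 v + F θ 0 v * G 0 v) :=
      { da := IsDel.wr hR (hR.pd b _ _ hG0) hG0 a
        db := hR.mul _ _ _ _ hG0 hG0
        nz := ent_mul_ne hd hd hnz hnz
        fac := by
          refine ⟨fun l v => fx χ 1 l v * fx χ 1 l v, fun v =>
            (((1 : ℕ) : ℝ) * (Real.pi / 2 * (H v v).re)) + (((1 : ℕ) : ℝ) *
              (Real.pi / 2 * (H v v).re)), ?_, om2_fac hP hT h0 a b, ?_⟩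
          · have h := fac_fx hP 1
            refine ⟨h.cont.add h.cont, fun l hl => (h.hol l hl).mul (h.hol l hl), ?_⟩
            intro l hl v
            rw [norm_mul, h.norm l hl v, ← Real.exp_add]
            congr 1; ring
          · intro l hl v
            have := hasFac_one hP hT l hl v
            simp only [this]
            ring }
    have hf : ∀ᶠ v in gen ι, (pd a (pd b (F θ 0)) v * F θ 0 v - pd b (F θ 0) v * pd a (F θ 0) v) /
        (F θ 0 v * F θ 0 v) = pd a (om b) v := by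
      filter_upwards [hne] with v hv
      simp only [hom]
      rw [pd_div' (ent_pd hd b v) (hd v) hv, sq]
    have hu1 : Hat δ (pd a (om b)) (pd a (pd b u)) := (hat_om hR hG0 hnz b).pd hR a
    have hq := Hat.uniq hR (hQD.hat.congr hf (Eventually.of_forall fun _ => rfl)) hu1
    have hper : ∀ᶠ v in gen ι, pd a (pd b u) (v + l) - pd a (pd b u) v =
        ∑ j, ld l j * pd j (pd a (om b)) v := by
      filter_upwards [hq, gen_shift hq l, gen_ne (hd.mul hd) (ent_mul_ne hd hd hnz hnz),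
        eventually_all.2 fun j => gen_pd hf j] with v e1 e2 e3 e4
      have := hPre.per _ _ _ _ hQD l hl v e3
      rw [e1, e2] at this
      rw [this]
      exact Finset.sum_congr rfl fun j _ => by rw [e4 j]
    have hcomm : ∀ j, ∀ᶠ v in gen ι, pd j (pd a (om b)) v = pd a (pd b (om j)) v := by
      intro j
      have h1 : ∀ᶠ v in gen ι, pd j (om b) v = pd b (om j) v := by
        filter_upwards [hne] with v hv
        exact om_comm hd j b hv
      filter_upwards [(hmom b).comm j a, gen_pd h1 a] with v e1 e2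
      rw [e1, e2]
    have hb : ∀ᶠ v in gen ι, pd b ep v = pd b u (v + l) - pd b u v -
        ∑ j, ld l j * pd b (om j) v := by
      filter_upwards [Mer.pd_sub (hmul.sub hmu) (hml (ld l)) b, Mer.pd_sub hmul hmu b,
        Mer.pd_lin hmom (ld l) b] with v e1 e2 e3
      simp only [hep]
      rw [e1, e2, e3, pd_shift']
    have hab : ∀ᶠ v in gen ι, pd a (pd b ep) v = pd a (pd b u) (v + l) - pd a (pd b u) v -
        ∑ j, ld l j * pd a (pd b (om j)) v := by
      have m1 : Mer fun v => pd b u (v + l) := (hmu.pd b).shift l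
      filter_upwards [gen_pd hb a,
        Mer.pd_sub (m1.sub (hmu.pd b)) (Mer.sum Finset.univ
          fun j _ => (Mer.const (ld l j)).mul ((hmom j).pd b)) a,
        Mer.pd_sub m1 (hmu.pd b) a, Mer.pd_lin (fun j => (hmom j).pd b) (ld l) a] with v e0 e1 e2 e3
      rw [e0, e1, e2, e3, pd_shift']
    filter_upwards [hab, hper, eventually_all.2 hcomm] with v e1 e2 e3
    rw [e1, e2, sub_eq_zero]
    exact Finset.sum_congr rfl fun j _ => by rw [e3 j]
  have h3 : ∀ b, ∃ c : ℂ, ∀ᶠ v in gen ι, pd b ep v = c := fun b =>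
    (hmep.pd b).constant fun a => h2 a b
  choose β hβ using h3
  have hmb : Mer fun v : ι → ℂ => ∑ j, β j * v j :=
    Mer.sum _ fun j _ => (Mer.const _).mul (Mer.of_ent (by fun_prop))
  have h4 : ∀ b, ∀ᶠ v in gen ι, pd b (fun v => ep v - ∑ j, β j * v j) v = 0 := by
    intro b
    filter_upwards [Mer.pd_sub hmep hmb b, hβ b,
      Mer.pd_lin (f := fun (j : ι) (v : ι → ℂ) => v j) (fun j => Mer.of_ent (by fun_prop)) β b]
      with v e1 e2 e3
    rw [e1, e2, e3]
    simp [pd_coord']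
  obtain ⟨β₀, hβ₀⟩ := (hmep.sub hmb).constant h4
  refine ⟨β₀, β, fun v hv => ?_⟩
  have h5 : ∀ᶠ v in gen ι, u (v + l) - u v =
      β₀ + ∑ j, β j * v j + ∑ j, ld l j * (pd j (F θ 0) v / F θ 0 v) := by
    filter_upwards [hβ₀] with v e1
    simp only [hep, hom] at e1
    linear_combination e1
  refine eqAt_of_gen (a := fun v => u (v + l) - u v) (b := fun v => β₀ + ∑ j, β j * v j +
    ∑ j, ld l j * (pd j (F θ 0) v / F θ 0 v)) ?_ ?_ h5
  · have h6 : DifferentiableAt ℂ u (v + l) :=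
      diff_div (hG0.ent' _) (hd _) (F_ne_lat hP hT hl hv)
    have h7 : DifferentiableAt ℂ u v := diff_div (hG0.ent' _) (hd _) hv
    exact (ContinuousAt.comp (f := fun z : ι → ℂ => z + l) h6.continuousAt (by fun_prop)).sub
      h7.continuousAt
  · refine (ContinuousAt.add continuousAt_const (cont_lin _ _)).add ?_
    refine tendsto_finsetSum _ fun j _ => continuousAt_const.mul ?_
    exact (diff_div (ent_pd hd j v) (hd v) hv).continuousAt

theorem thm_C1c (hDel : St_DelR) : St_C1c := by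
  intro ι _ _ δ L χ θ G ld hP hT h0 hPre l hl x hx v hv0 hvx
  have hR := hDel ι δ
  obtain ⟨n, hn, hnx⟩ := hx
  have hx' : OddTor L x := ⟨n, hn, hnx⟩
  have hn0 : n ≠ 0 := by rintro rfl; exact absurd hn (by decide)
  have hd0 := F_differentiable hT (0 : ι → ℂ)
  have hdx := F_differentiable hT x
  have hQ := QD_pow hR hP hT h0 (n := n) (x := x) (y := 0) hnx (by simp) (hPre.del x hx')
    (hPre.del 0 OddTor.zero)
  have h1 := hPre.per _ _ _ _ hQ l hl v (pow_ne_zero n hv0)
  have hv0l := F_ne_lat hP hT hl hv0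
  have hvxl := F_ne_lat hP hT hl hvx
  have key : ∀ z, F θ 0 z ≠ 0 → F θ x z ≠ 0 →
      qd (fun v => F θ x v ^ n) (fun v => F θ 0 v ^ n)
        (fun v => n * F θ x v ^ (n - 1) * G x v) (fun v => n * F θ 0 v ^ (n - 1) * G 0 v) z =
      n * (F θ x z ^ n / F θ 0 z ^ n) * (G x z / F θ x z - G 0 z / F θ 0 z) := by
    intro z h2 h3
    obtain ⟨m, rfl⟩ : ∃ m, n = m + 1 := ⟨n - 1, by omega⟩
    simp only [qd, Nat.add_sub_cancel]
    field_simp
    ring
  have hpd : ∀ j, pd j (fun z => F θ x z ^ n / F θ 0 z ^ n) v =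
      n * (F θ x v ^ n / F θ 0 v ^ n) * (pd j (F θ x) v / F θ x v - pd j (F θ 0) v / F θ 0 v) := by
    intro j
    have hpow : ∀ (f : (ι → ℂ) → ℂ), Differentiable ℂ f → pd j (fun z => f z ^ n) v =
        n * f v ^ (n - 1) * pd j f v := by
      intro f hf
      have := ((hf v).hasFDerivAt.pow n).fderiv
      unfold pd
      rw [this]
      simp
    rw [pd_div' (f := fun z => F θ x z ^ n) (g := fun z => F θ 0 z ^ n) ((hdx v).pow n)
      ((hd0 v).pow n) (pow_ne_zero n hv0), hpow _ hdx, hpow _ hd0]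
    obtain ⟨m, rfl⟩ : ∃ m, n = m + 1 := ⟨n - 1, by omega⟩
    simp only [Nat.add_sub_cancel]
    field_simp
    ring
  have hq : F θ x (v + l) ^ n / F θ 0 (v + l) ^ n = F θ x v ^ n / F θ 0 v ^ n := hQ.per hl v
  rw [key v hv0 hvx, key (v + l) hv0l hvxl, hq] at h1
  simp only [hpd] at h1
  have hne : (n : ℂ) * (F θ x v ^ n / F θ 0 v ^ n) ≠ 0 :=
    mul_ne_zero (Nat.cast_ne_zero.2 hn0) (div_ne_zero (pow_ne_zero n hvx) (pow_ne_zero n hv0))
  apply mul_left_cancel₀ hne
  have h2 : ∑ j, ld l j * (n * (F θ x v ^ n / F θ 0 v ^ n) *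
      (pd j (F θ x) v / F θ x v - pd j (F θ 0) v / F θ 0 v)) =
      (n * (F θ x v ^ n / F θ 0 v ^ n)) * (∑ j, ld l j * (pd j (F θ x) v / F θ x v) -
        ∑ j, ld l j * (pd j (F θ 0) v / F θ 0 v)) := by
    rw [← Finset.sum_sub_distrib, Finset.mul_sum]
    exact Finset.sum_congr rfl fun j _ => by ring
  rw [h2] at h1
  linear_combination h1

theorem thm_C1 (hA : St_C1a) (hB : St_C1b) (hC : St_C1c) : St_C1 := by
  intro ι _ _ δ L χ θ hP hT h0
  obtain ⟨G, ld, hPre⟩ := hA ι δ L χ θ hP hT h0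
  choose! β₀ β hβ using hB ι δ L χ θ G ld hP hT h0 hPre
  refine ⟨G, ld, β₀, β, hPre.del, hPre.per, fun l hl x hx v hv => ?_⟩
  have hdx := F_differentiable hT x
  have hd0 := F_differentiable hT (0 : ι → ℂ)
  have h1 : ∀ᶠ v in gen ι, G x (v + l) / F θ x (v + l) - G x v / F θ x v =
      β₀ l + ∑ j, β l j * v j + ∑ j, ld l j * (pd j (F θ x) v / F θ x v) := by
    filter_upwards [gen_ne hdx (F_nz h0 x), gen_ne hd0 (F_nz h0 0)] with v e1 e2
    have h2 := hC ι δ L χ θ G ld hP hT h0 hPre l hl x hx v e2 e1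
    have h3 := hβ l hl v e2
    linear_combination h2 + h3
  refine eqAt_of_gen (a := fun v => G x (v + l) / F θ x (v + l) - G x v / F θ x v)
    (b := fun v => β₀ l + ∑ j, β l j * v j + ∑ j, ld l j * (pd j (F θ x) v / F θ x v)) ?_ ?_ h1
  · have h6 : DifferentiableAt ℂ (fun v => G x v / F θ x v) (v + l) :=
      diff_div ((hPre.del x hx).ent' _) (hdx _) (F_ne_lat hP hT hl hv)
    have h7 : DifferentiableAt ℂ (fun v => G x v / F θ x v) v :=
      diff_div ((hPre.del x hx).ent' _) (hdx _) hv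
    exact (ContinuousAt.comp (f := fun z : ι → ℂ => z + l) h6.continuousAt (by fun_prop)).sub
      h7.continuousAt
  · refine (ContinuousAt.add continuousAt_const (cont_lin _ _)).add ?_
    refine tendsto_finsetSum _ fun j _ => continuousAt_const.mul ?_
    exact (diff_div (ent_pd hdx j v) (hdx v) hv).continuousAt

end GAM
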