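import Pool.Agent.GAM.C1

/-!
# GAM: [Lin], [C2a], [C2b], [C2]
-/

set_option autoImplicit false
set_option linter.unusedSectionVars false
set_option linter.unusedVariables false

namespace GAM

open scoped ComplexConjugate Topology
open Filter

theorem thm_Lin : St_Lin := by
  intro ι _ _ L χ θ hP hT h0 x α β γ h
  have hd := F_differentiable hT x
  obtain ⟨v, hv⟩ := F_nz h0 x
  have h1 : ∀ l ∈ L, ∑ j, β j * l j + ∑ j, (Real.pi * γ j) * conj (l j) = 0 := by
    intro l hl
    have e1 := h v hv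
    have e2 := h (v + l) (F_ne_lat hP hT hl hv)
    simp only [om_quasi hP hT hl x _ hv, Pi.add_apply, mul_add, Finset.sum_add_distrib] at e2
    have e3 : ∑ j, γ j * (Real.pi * conj (l j)) = ∑ j, (Real.pi * γ j) * conj (l j) :=
      Finset.sum_congr rfl fun j _ => by ring
    rw [e3] at e2
    linear_combination e2 - e1
  obtain ⟨hβ, hγ⟩ := lat_zero hP.lat h1
  have hπ : (Real.pi : ℂ) ≠ 0 := by exact_mod_cast Real.pi_ne_zero
  have hγ' : γ = 0 := by
    funext j
    have := congrFun hγ j
    simpa [hπ] using this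
  refine ⟨?_, hβ, hγ'⟩
  have e1 := h v hv
  rw [hβ, hγ'] at e1
  simpa using e1

/-- the relation (3.5) at `l + m`, expanded -/
theorem thm_C2a (hLin : St_Lin) : St_C2a := by
  intro ι _ _ δ L χ θ G ld β₀ β hP hT h0 hPre l hl m hm
  have hd := F_differentiable hT (0 : ι → ℂ)
  have key : ∀ l ∈ L, ∀ m ∈ L, ∀ v, F θ 0 v ≠ 0 →
      G 0 (v + (l + m)) / F θ 0 (v + (l + m)) - G 0 v / F θ 0 v =
      (β₀ l + β₀ m + ∑ j, β l j * m j + Real.pi * ∑ j, ld l j * conj (m j)) +
        ∑ j, (β l j + β m j) * v j + ∑ j, (ld l j + ld m j) * (pd j (F θ 0) v / F θ 0 v) := by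
    intro l hl m hm v hv
    have e1 := hPre.diff m hm 0 OddTor.zero v hv
    have e2 := hPre.diff l hl 0 OddTor.zero (v + m) (F_ne_lat hP hT hm hv)
    have e3 : v + m + l = v + (l + m) := by abel
    rw [e3] at e2
    simp only [om_quasi hP hT hm 0 _ hv, Pi.add_apply, mul_add, Finset.sum_add_distrib] at e2
    simp only [add_mul, Finset.sum_add_distrib]
    have e4 : ∑ j, ld l j * (Real.pi * conj (m j)) = Real.pi * ∑ j, ld l j * conj (m j) := by
      rw [Finset.mul_sum]
      exact Finset.sum_congr rfl fun j _ => by ring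
    rw [e4] at e2
    linear_combination e1 + e2
  have h1 := hLin ι L χ θ hP hT h0 0
    (β₀ (l + m) - (β₀ l + β₀ m + ∑ j, β l j * m j + Real.pi * ∑ j, ld l j * conj (m j)))
    (fun j => β (l + m) j - (β l j + β m j)) (fun j => ld (l + m) j - (ld l j + ld m j))
    (fun v hv => by
      have e1 := hPre.diff (l + m) (L.add_mem hl hm) 0 OddTor.zero v hv
      have e2 := key l hl m hm v hv
      simp only [sub_mul, Finset.sum_sub_distrib]
      linear_combination e2 - e1)
  have h2 := hLin ι L χ θ hP hT h0 0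
    (β₀ (m + l) - (β₀ m + β₀ l + ∑ j, β m j * l j + Real.pi * ∑ j, ld m j * conj (l j)))
    (fun j => β (m + l) j - (β m j + β l j)) (fun j => ld (m + l) j - (ld m j + ld l j))
    (fun v hv => by
      have e1 := hPre.diff (m + l) (L.add_mem hm hl) 0 OddTor.zero v hv
      have e2 := key m hm l hl v hv
      simp only [sub_mul, Finset.sum_sub_distrib]
      linear_combination e2 - e1)
  obtain ⟨a1, a2, a3⟩ := h1
  obtain ⟨b1, b2, b3⟩ := h2
  refine ⟨?_, ?_, ?_, ?_⟩
  · funext j
    exact sub_eq_zero.1 (congrFun a3 j)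
  · funext j
    exact sub_eq_zero.1 (congrFun a2 j)
  · linear_combination a1
  · rw [add_comm m l] at b1
    linear_combination b1 - a1

section

variable {ι : Type} [Fintype ι] [DecidableEq ι] {δ : Derivation ℚ ℂ ℂ}
  {L : Submodule ℤ (ι → ℂ)} {χ θ : (ι → ℂ) → ℂ}

theorem del_diag (hR : DelRules ι δ) {s : ι → ℂ} (hs : ∀ a, IsAlgebraic ℚ (s a))
    {a a' : (ι → ℂ) → ℂ} (h : IsDel δ a a') :
    IsDel δ (fun v => a fun i => s i * v i) (fun v => a' fun i => s i * v i) := by
  have h1 := hR.lin ι (Matrix.diagonal s) a a' (fun i k => by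
    by_cases hik : i = k
    · subst hik; rw [Matrix.diagonal_apply_eq]; exact hs i
    · rw [Matrix.diagonal_apply_ne _ hik]; exact isAlgebraic_zero) h
  have e : ∀ v : ι → ℂ, (Matrix.diagonal s).mulVec v = fun i => s i * v i := by
    intro v; funext i; rw [Matrix.mulVec_diagonal]
  simpa only [e] using h1

theorem IsCM.ne {s : ι → ℂ} (h : IsCM L s) (a : ι) : s a ≠ 0 := by
  intro h0
  apply h.sep' a a
  rw [h0, map_zero]

/-- pulling back by the diagonal multiplication -/
theorem QD.diag (hR : DelRules ι δ) {s : ι → ℂ} (hs : IsCM L s) {a b a' b' : (ι → ℂ) → ℂ}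
    (h : QD δ L a b a' b') :
    QD δ L (fun v => a fun i => s i * v i) (fun v => b fun i => s i * v i)
      (fun v => a' fun i => s i * v i) (fun v => b' fun i => s i * v i) where
  da := del_diag hR hs.alg h.da
  db := del_diag hR hs.alg h.db
  nz := by
    obtain ⟨v, hv⟩ := h.nz
    refine ⟨fun i => (s i)⁻¹ * v i, ?_⟩
    have : (fun i => s i * ((s i)⁻¹ * v i)) = v := by
      funext i; rw [mul_inv_cancel_left₀ (hs.ne i)]
    simpa only [this] using hv
  fac := by
    obtain ⟨e, N, h1, h2, h3⟩ := h.fac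
    have hadd : ∀ v l : ι → ℂ, (fun i => s i * (v + l) i) =
        (fun i => s i * v i) + fun i => s i * l i := by
      intro v l; funext i; simp [mul_add]
    refine ⟨fun l v => e (fun i => s i * l i) (fun i => s i * v i), fun v => N fun i => s i * v i,
      ⟨h1.cont.comp (by fun_prop), fun l hl => (h1.hol _ (hs.lat l hl)).comp (by fun_prop), ?_⟩,
      ?_, ?_⟩
    · intro l hl v
      rw [h1.norm _ (hs.lat l hl), hadd]
    · intro l hl v
      simp only [hadd]
      exact h2 _ (hs.lat l hl) _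
    · intro l hl v
      simp only [hadd]
      exact h3 _ (hs.lat l hl) _

end

theorem thm_C2b (hImm : St_Imm) (hDel : St_DelR) : St_C2b := by
  intro ι _ _ δ L χ θ s G ld hP hT h0 hs hPre l hl
  have hR := hDel ι δ
  obtain ⟨w, hw⟩ := F_nz h0 0
  obtain ⟨n, c, hn, hy, hc, hJ⟩ := hImm ι L χ θ hP hT h0 0 w OddTor.zero hw
  have hodd : ∀ i, OddTor L (c i) := fun i => ⟨n, hn, hc i⟩
  have hQ : ∀ i, QD δ L (fun v => F θ (c i) v ^ n) (fun v => F θ 0 v ^ n)
      (fun v => n * F θ (c i) v ^ (n - 1) * G (c i) v)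
      (fun v => n * F θ 0 v ^ (n - 1) * G 0 v) := fun i =>
    QD_pow hR hP hT h0 (hc i) hy (hPre.del _ (hodd i)) (hPre.del 0 OddTor.zero)
  set f : ι → (ι → ℂ) → ℂ := fun i z => F θ (c i) z ^ n / F θ 0 z ^ n with hf
  set v : ι → ℂ := fun i => (s i)⁻¹ * w i with hv
  have hsv : (fun i => s i * v i) = w := by
    funext i; simp only [hv]; rw [mul_inv_cancel_left₀ (hs.ne i)]
  have hd0 := F_differentiable hT (0 : ι → ℂ)
  have key : ∀ i, ∑ j, (ld (fun a => s a * l a) j - s j * ld l j) * pd j (f i) w = 0 := by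
    intro i
    have h1 := hPre.per _ _ _ _ (hQ i) _ (hs.lat l hl) w (pow_ne_zero n hw)
    have h2 := hPre.per _ _ _ _ ((hQ i).diag hR hs) l hl v (by
      simp only [hsv]; exact pow_ne_zero n hw)
    have h3 : ∀ z : ι → ℂ, qd (fun v => (fun v => F θ (c i) v ^ n) fun i => s i * v i)
        (fun v => (fun v => F θ 0 v ^ n) fun i => s i * v i)
        (fun v => (fun v => n * F θ (c i) v ^ (n - 1) * G (c i) v) fun i => s i * v i)
        (fun v => (fun v => n * F θ 0 v ^ (n - 1) * G 0 v) fun i => s i * v i) z =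
        qd (fun v => F θ (c i) v ^ n) (fun v => F θ 0 v ^ n)
      (fun v => n * F θ (c i) v ^ (n - 1) * G (c i) v)
      (fun v => n * F θ 0 v ^ (n - 1) * G 0 v) (fun i => s i * z i) := fun z => rfl
    have h4 : (fun i => s i * (v + l) i) = w + fun i => s i * l i := by
      rw [← hsv]; funext i; simp [mul_add]
    rw [h3, h3, h4, hsv, h1] at h2
    have h5 : ∀ j, pd j (fun z => (fun v => F θ (c i) v ^ n) (fun i => s i * z i) /
        (fun v => F θ 0 v ^ n) (fun i => s i * z i)) v = s j * pd j (f i) w := by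
      intro j
      have h6 : DifferentiableAt ℂ (f i) (fun a => s a * v a) := by
        rw [hsv]
        exact diff_div ((F_differentiable hT (c i) w).pow n) ((hd0 w).pow n) (pow_ne_zero n hw)
      have h7 := pd_diag' s v j h6
      rw [hsv] at h7
      exact h7
    simp only [h5] at h2
    simp only [sub_mul, Finset.sum_sub_distrib]
    rw [sub_eq_zero]
    rw [h2]
    exact Finset.sum_congr rfl fun j _ => by ring
  have h8 : (fun j => ld (fun a => s a * l a) j - s j * ld l j) = 0 := by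
    apply Matrix.eq_zero_of_mulVec_eq_zero hJ
    funext i
    have := key i
    simp only [Matrix.mulVec, dotProduct, jac, Matrix.of_apply, Pi.zero_apply]
    rw [← this]
    exact Finset.sum_congr rfl fun j _ => mul_comm _ _
  intro j
  exact sub_eq_zero.1 (congrFun h8 j)

theorem thm_C2 (hA : St_C2a) (hB : St_C2b) (hC : St_C2c) : St_C2 := by
  intro ι _ _ δ L χ θ s G ld β₀ β hP hT h0 hs hPre
  have h1 := hA ι δ L χ θ G ld β₀ β hP hT h0 hPre
  have h2 := hB ι δ L χ θ s G ld hP hT h0 hs ⟨hPre.del, hPre.per⟩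
  exact hC ι L s ld β hP.lat hs (fun l hl m hm => ⟨(h1 l hl m hm).1, (h1 l hl m hm).2.1,
    (h1 l hl m hm).2.2.2⟩) h2

end GAM
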