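import Pool.Agent.GAM.StA

/-!
# GAM [C2c]
-/

set_option autoImplicit false

namespace GAM

open scoped ComplexConjugate

/-- an additive map on the lattice extends to a real linear map -/
private theorem C2c_ext {ι : Type} [Fintype ι] [DecidableEq ι] (L : Submodule ℤ (ι → ℂ))
    (b : Module.Basis (ι ⊕ ι) ℝ (ι → ℂ))
    (hb : L = Submodule.span ℤ (Set.range b)) (f : (ι → ℂ) → ι → ℂ)
    (hf : ∀ l ∈ L, ∀ m ∈ L, f (l + m) = f l + f m) :
    ∃ T : (ι → ℂ) →ₗ[ℝ] (ι → ℂ), ∀ l ∈ L, T l = f l := by
  classical
  let g : L →+ (ι → ℂ) := AddMonoidHom.mk' (fun l => f l) (fun l m => hf l l.2 m m.2)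
  have hz : ∀ (n : ℤ) (l : ι → ℂ), l ∈ L → f (n • l) = n • f l := by
    intro n l hl
    exact map_zsmul g n ⟨l, hl⟩
  have h0 : f 0 = 0 := map_zero g
  refine ⟨b.constr ℝ (fun i => f (b i)), fun l hl => ?_⟩
  have hl' : l ∈ Submodule.span ℤ (Set.range b) := by rw [← hb]; exact hl
  induction hl' using Submodule.span_induction with
  | mem x hx => obtain ⟨i, rfl⟩ := hx; exact b.constr_basis ℝ _ i
  | zero => rw [map_zero, h0]
  | add x y hx hy h1 h2 =>
    rw [← hb] at hx hy
    rw [map_add, h1 hx, h2 hy, hf x hx y hy]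
  | smul n x hx h1 =>
    rw [← hb] at hx
    rw [hz n x hx, map_zsmul, h1 hx]

/-- decomposition of a vector on one axis -/
private theorem C2c_single {ι : Type} [Fintype ι] [DecidableEq ι] (i : ι) (z : ℂ) :
    (Pi.single i z : ι → ℂ) = z.re • (Pi.single i (1 : ℂ) : ι → ℂ) +
      z.im • (Pi.single i Complex.I : ι → ℂ) := by
  funext k
  by_cases h : k = i
  · subst h
    rw [Pi.add_apply, Pi.smul_apply, Pi.smul_apply, Pi.single_eq_same, Pi.single_eq_same,
      Pi.single_eq_same, Complex.real_smul, Complex.real_smul, mul_one]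
    exact (Complex.re_add_im z).symm
  · rw [Pi.add_apply, Pi.smul_apply, Pi.smul_apply, Pi.single_eq_of_ne h, Pi.single_eq_of_ne h,
      Pi.single_eq_of_ne h, smul_zero, smul_zero, add_zero]

/-- real linear maps on one axis -/
private theorem C2c_axis {ι : Type} [Fintype ι] [DecidableEq ι] (T : (ι → ℂ) →ₗ[ℝ] (ι → ℂ))
    (i j : ι) (z : ℂ) : T (Pi.single i z) j =
      (z.re : ℂ) * T (Pi.single i 1) j + (z.im : ℂ) * T (Pi.single i Complex.I) j := by
  rw [C2c_single i z, map_add, map_smul, map_smul, Pi.add_apply, Pi.smul_apply, Pi.smul_apply,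
    Complex.real_smul, Complex.real_smul]

/-- extension of a property from a basis -/
private theorem C2c_span {ι : Type} [Fintype ι] (b : Module.Basis (ι ⊕ ι) ℝ (ι → ℂ))
    (p : (ι → ℂ) → Prop) (h1 : ∀ i, p (b i)) (h0 : p 0) (h2 : ∀ x y, p x → p y → p (x + y))
    (h3 : ∀ (r : ℝ) x, p x → p (r • x)) (v : ι → ℂ) : p v := by
  have hv : v ∈ Submodule.span ℝ (Set.range b) := by
    rw [b.span_eq]
    exact Submodule.mem_top
  induction hv using Submodule.span_induction with
  | mem x hx => obtain ⟨i, rfl⟩ := hx; exact h1 i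
  | zero => exact h0
  | add x y _ _ hx hy => exact h2 x y hx hy
  | smul r x _ hx => exact h3 r x hx

/-- a real linear map commuting with a generic diagonal map is diagonal -/
private theorem C2c_diag {ι : Type} [Fintype ι] [DecidableEq ι] (D : (ι → ℂ) →ₗ[ℝ] (ι → ℂ))
    (s : ι → ℂ) (sep : ∀ a b, a ≠ b → s a ≠ s b) (sep' : ∀ a b, conj (s a) ≠ s b)
    (hcom : ∀ v, D (s * v) = s * D v) (v : ι → ℂ) (j : ι) :
    D v j = D (Pi.single j 1) j * v j := by
  have key : ∀ i z, D (Pi.single i z) j =
      if i = j then D (Pi.single j 1) j * z else 0 := by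
    intro i z
    have e1 : s * (Pi.single i (1 : ℂ) : ι → ℂ) = Pi.single i (s i) := by
      funext k
      by_cases h : k = i
      · subst h
        rw [Pi.mul_apply, Pi.single_eq_same, Pi.single_eq_same, mul_one]
      · rw [Pi.mul_apply, Pi.single_eq_of_ne h, Pi.single_eq_of_ne h, mul_zero]
    have e2 : s * (Pi.single i Complex.I : ι → ℂ) = Pi.single i (s i * Complex.I) := by
      funext k
      by_cases h : k = i
      · subst h
        rw [Pi.mul_apply, Pi.single_eq_same, Pi.single_eq_same]
      · rw [Pi.mul_apply, Pi.single_eq_of_ne h, Pi.single_eq_of_ne h, mul_zero]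
    set p : ℂ := D (Pi.single i 1) j with hp
    set q : ℂ := D (Pi.single i Complex.I) j with hq
    have c1 : ((s i).re : ℂ) * p + ((s i).im : ℂ) * q = s j * p := by
      have h := congrFun (hcom (Pi.single i 1)) j
      rw [e1, C2c_axis, Pi.mul_apply] at h
      exact h
    have c2 : -((s i).im : ℂ) * p + ((s i).re : ℂ) * q = s j * q := by
      have h := congrFun (hcom (Pi.single i Complex.I)) j
      rw [e2, C2c_axis, Pi.mul_apply] at h
      have r1 : (s i * Complex.I).re = -(s i).im := by simp
      have r2 : (s i * Complex.I).im = (s i).re := by simp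
      rw [r1, r2] at h
      push_cast at h
      exact h
    have hre : s i = ((s i).re : ℂ) + ((s i).im : ℂ) * Complex.I := (Complex.re_add_im _).symm
    have hco : conj (s i) = ((s i).re : ℂ) - ((s i).im : ℂ) * Complex.I := by
      apply Complex.ext
      · simp
      · simp
    have hII : Complex.I * Complex.I = -1 := Complex.I_mul_I
    have f1 : (conj (s i) - s j) * (p + Complex.I * q) = 0 := by
      rw [hco]
      linear_combination c1 + Complex.I * c2 - ((s i).im : ℂ) * q * hII
    have f2 : (s i - s j) * (p - Complex.I * q) = 0 := by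
      linear_combination (p - Complex.I * q) * hre + c1 - Complex.I * c2 -
        ((s i).im : ℂ) * q * hII
    have g1 : p + Complex.I * q = 0 := by
      rcases mul_eq_zero.1 f1 with h | h
      · exact absurd (sub_eq_zero.1 h) (sep' i j)
      · exact h
    have g2 : q = Complex.I * p := by
      linear_combination -Complex.I * g1 + q * hII
    rw [C2c_axis, ← hp, ← hq]
    by_cases hij : i = j
    · rw [if_pos hij, ← hij]
      rw [g2]
      have hz : z = (z.re : ℂ) + (z.im : ℂ) * Complex.I := (Complex.re_add_im _).symm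
      have hp' : D (Pi.single i 1) i = p := by rw [hp, hij]
      rw [hp']
      linear_combination -p * hz
    · rw [if_neg hij]
      have g3 : p - Complex.I * q = 0 := by
        rcases mul_eq_zero.1 f2 with h | h
        · exact absurd (sub_eq_zero.1 h) (sep i j hij)
        · exact h
      have g4 : p = 0 := by linear_combination (1 / 2 : ℂ) * g1 + (1 / 2 : ℂ) * g3
      rw [g2, g4]
      ring
  have hv : v = ∑ i, Pi.single i (v i) := by
    funext k
    rw [Finset.sum_apply, Finset.sum_eq_single k]
    · rw [Pi.single_eq_same]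
    · intro i _ hi
      rw [Pi.single_eq_of_ne (Ne.symm hi)]
    · intro hk
      exact absurd (Finset.mem_univ k) hk
  have h1 : D v j = ∑ i, D (Pi.single i (v i)) j := by
    conv_lhs => rw [hv]
    rw [map_sum, Finset.sum_apply]
  rw [h1, Finset.sum_congr rfl fun i _ => key i (v i), Finset.sum_ite_eq' Finset.univ j]
  rw [if_pos (Finset.mem_univ j)]

theorem thm_C2c : St_C2c := by
  intro ι _ _ L s ld β hL hs hadd hcm
  obtain ⟨b, hb⟩ := hL
  obtain ⟨D, hD⟩ := C2c_ext L b hb ld (fun l hl m hm => (hadd l hl m hm).1)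
  obtain ⟨B, hB⟩ := C2c_ext L b hb β (fun l hl m hm => (hadd l hl m hm).2.1)
  have hbL : ∀ i, b i ∈ L := fun i => by rw [hb]; exact Submodule.subset_span ⟨i, rfl⟩
  have hcom : ∀ v, D (s * v) = s * D v := by
    have h : D ∘ₗ LinearMap.mulLeft ℝ s = LinearMap.mulLeft ℝ s ∘ₗ D := by
      refine b.ext fun i => ?_
      rw [LinearMap.comp_apply, LinearMap.comp_apply, LinearMap.mulLeft_apply,
        LinearMap.mulLeft_apply, hD _ (hbL i)]
      have h1 : s * b i ∈ L := hs.lat _ (hbL i)
      rw [hD _ h1]
      funext j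
      exact hcm _ (hbL i) j
    intro v
    exact LinearMap.congr_fun h v
  have hdiag : ∀ v j, D v j = D (Pi.single j 1) j * v j :=
    fun v j => C2c_diag D s hs.sep hs.sep' hcom v j
  set A : ι → ℂ := fun j => D (Pi.single j 1) j with hA
  -- the bilinear relation
  have hrelL : ∀ i k, ∑ j, B (b i) j * b k j + Real.pi * ∑ j, D (b i) j * conj (b k j) =
      ∑ j, B (b k) j * b i j + Real.pi * ∑ j, D (b k) j * conj (b i j) := by
    intro i k
    have h := (hadd _ (hbL i) _ (hbL k)).2.2
    rw [← hD _ (hbL i), ← hD _ (hbL k), ← hB _ (hbL i), ← hB _ (hbL k)] at h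
    exact h
  have hrel1 : ∀ v k, ∑ j, B v j * b k j + Real.pi * ∑ j, D v j * conj (b k j) =
      ∑ j, B (b k) j * v j + Real.pi * ∑ j, D (b k) j * conj (v j) := by
    intro v k
    refine C2c_span b (fun v => ∑ j, B v j * b k j + Real.pi * ∑ j, D v j * conj (b k j) =
      ∑ j, B (b k) j * v j + Real.pi * ∑ j, D (b k) j * conj (v j)) (fun i => hrelL i k)
      ?_ ?_ ?_ v
    · simp
    · intro x y hx hy
      simp only [map_add, Pi.add_apply, add_mul, mul_add, Finset.sum_add_distrib] at hx hy ⊢
      linear_combination hx + hy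
    · intro r x hx
      simp only [map_smul, Pi.smul_apply, Complex.real_smul, map_mul, Complex.conj_ofReal]
      have e1 : ∑ j, (r : ℂ) * B x j * b k j = r * ∑ j, B x j * b k j := by
        rw [Finset.mul_sum]; exact Finset.sum_congr rfl fun j _ => by ring
      have e2 : ∑ j, (r : ℂ) * D x j * conj (b k j) = r * ∑ j, D x j * conj (b k j) := by
        rw [Finset.mul_sum]; exact Finset.sum_congr rfl fun j _ => by ring
      have e3 : ∑ j, B (b k) j * ((r : ℂ) * x j) = r * ∑ j, B (b k) j * x j := by
        rw [Finset.mul_sum]; exact Finset.sum_congr rfl fun j _ => by ring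
      have e4 : ∑ j, D (b k) j * ((r : ℂ) * conj (x j)) = r * ∑ j, D (b k) j * conj (x j) := by
        rw [Finset.mul_sum]; exact Finset.sum_congr rfl fun j _ => by ring
      rw [e1, e2, e3, e4]
      linear_combination (r : ℂ) * hx
  have hrel : ∀ v w, ∑ j, B v j * w j + Real.pi * ∑ j, D v j * conj (w j) =
      ∑ j, B w j * v j + Real.pi * ∑ j, D w j * conj (v j) := by
    intro v w
    refine C2c_span b (fun w => ∑ j, B v j * w j + Real.pi * ∑ j, D v j * conj (w j) =
      ∑ j, B w j * v j + Real.pi * ∑ j, D w j * conj (v j)) (fun k => hrel1 v k)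
      ?_ ?_ ?_ w
    · simp
    · intro x y hx hy
      simp only [map_add, Pi.add_apply, add_mul, mul_add, Finset.sum_add_distrib] at hx hy ⊢
      linear_combination hx + hy
    · intro r x hx
      simp only [map_smul, Pi.smul_apply, Complex.real_smul, map_mul, Complex.conj_ofReal]
      have e1 : ∑ j, (r : ℂ) * B x j * v j = r * ∑ j, B x j * v j := by
        rw [Finset.mul_sum]; exact Finset.sum_congr rfl fun j _ => by ring
      have e2 : ∑ j, (r : ℂ) * D x j * conj (v j) = r * ∑ j, D x j * conj (v j) := by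
        rw [Finset.mul_sum]; exact Finset.sum_congr rfl fun j _ => by ring
      have e3 : ∑ j, B v j * ((r : ℂ) * x j) = r * ∑ j, B v j * x j := by
        rw [Finset.mul_sum]; exact Finset.sum_congr rfl fun j _ => by ring
      have e4 : ∑ j, D v j * ((r : ℂ) * conj (x j)) = r * ∑ j, D v j * conj (x j) := by
        rw [Finset.mul_sum]; exact Finset.sum_congr rfl fun j _ => by ring
      rw [e1, e2, e3, e4]
      linear_combination (r : ℂ) * hx
  let C : Matrix ι ι ℂ := fun j i =>
    (B (Pi.single j 1) i - Complex.I * B (Pi.single j Complex.I) i) / 2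
  have hBv : ∀ v j, B v j = ∑ i, C j i * v i + Real.pi * A j * conj (v j) := by
    intro v j
    have sgl : ∀ (u : ι → ℂ) (z : ℂ), ∑ i, u i * (Pi.single j z : ι → ℂ) i = u j * z := by
      intro u z
      rw [Finset.sum_eq_single j]
      · rw [Pi.single_eq_same]
      · intro i _ hi
        rw [Pi.single_eq_of_ne hi, mul_zero]
      · intro hk
        exact absurd (Finset.mem_univ j) hk
    have sglc : ∀ (u : ι → ℂ) (z : ℂ), ∑ i, u i * conj ((Pi.single j z : ι → ℂ) i) =
        u j * conj z := by
      intro u z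
      rw [Finset.sum_eq_single j]
      · rw [Pi.single_eq_same]
      · intro i _ hi
        rw [Pi.single_eq_of_ne hi, map_zero, mul_zero]
      · intro hk
        exact absurd (Finset.mem_univ j) hk
    have hDs : ∀ z : ℂ, ∑ i, D (Pi.single j z) i * conj (v i) = A j * z * conj (v j) := by
      intro z
      rw [Finset.sum_eq_single j]
      · rw [hdiag, Pi.single_eq_same]
      · intro i _ hi
        rw [hdiag, Pi.single_eq_of_ne hi, mul_zero, zero_mul]
      · intro hk
        exact absurd (Finset.mem_univ j) hk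
    have h1 := hrel v (Pi.single j 1)
    have h2 := hrel v (Pi.single j Complex.I)
    rw [sgl, sglc, hDs, hdiag v j] at h1 h2
    rw [map_one] at h1
    rw [Complex.conj_I] at h2
    have e : ∑ i, C j i * v i = (∑ i, B (Pi.single j 1) i * v i -
        Complex.I * ∑ i, B (Pi.single j Complex.I) i * v i) / 2 := by
      rw [Finset.mul_sum, ← Finset.sum_sub_distrib, Finset.sum_div]
      refine Finset.sum_congr rfl fun i _ => ?_
      simp only [C]
      ring
    rw [e]
    have hII : Complex.I * Complex.I = -1 := Complex.I_mul_I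
    simp only [hA] at h1 h2 ⊢
    linear_combination (1 / 2 : ℂ) * h1 - (1 / 2 : ℂ) * Complex.I * h2 +
      (1 / 2 : ℂ) * (B v j - Real.pi * D (Pi.single j 1) j * (starRingEnd ℂ) (v j) -
        Real.pi * D (Pi.single j 1) j * v j) * hII
  refine ⟨A, C, ?_, ?_⟩
  · ext i j
    rw [Matrix.transpose_apply]
    have hII : Complex.I * Complex.I = -1 := Complex.I_mul_I
    have sgl : ∀ (u : ι → ℂ) (z : ℂ), ∑ k, u k * (Pi.single j z : ι → ℂ) k = u j * z := by
      intro u z
      rw [Finset.sum_eq_single j]
      · rw [Pi.single_eq_same]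
      · intro i _ hi
        rw [Pi.single_eq_of_ne hi, mul_zero]
      · intro hk
        exact absurd (Finset.mem_univ j) hk
    have h1 := hBv (Pi.single j 1) i
    have h2 := hBv (Pi.single j Complex.I) i
    rw [sgl] at h1 h2
    have h3 : C j i = (B (Pi.single j 1) i - Complex.I * B (Pi.single j Complex.I) i) / 2 := rfl
    rw [h3, h1, h2]
    by_cases hij : i = j
    · subst hij
      rw [Pi.single_eq_same, Pi.single_eq_same, map_one, Complex.conj_I]
      linear_combination (-(1 / 2 : ℂ) * C i i + (1 / 2 : ℂ) * Real.pi * A i) * hII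
    · rw [Pi.single_eq_of_ne hij, Pi.single_eq_of_ne hij, map_zero]
      linear_combination (-(1 / 2 : ℂ) * C i j) * hII
  · intro l hl
    refine ⟨fun j => ?_, fun j => ?_⟩
    · rw [← hD l hl]
      exact hdiag l j
    · rw [← hB l hl]
      exact hBv l j

end GAM
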