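import Pool.Agent.GAM.C2

/-!
# GAM: [C3]
-/

set_option autoImplicit false
set_option linter.unusedSectionVars false
set_option linter.unusedVariables false

namespace GAM

open scoped ComplexConjugate Topology
open Filter

section

variable {ι : Type} [Fintype ι] [DecidableEq ι] {δ : Derivation ℚ ℂ ℂ}
  {L : Submodule ℤ (ι → ℂ)} {χ θ : (ι → ℂ) → ℂ}

/-- bilinear form of a matrix -/
noncomputable def bil (C : Matrix ι ι ℂ) (v w : ι → ℂ) : ℂ := ∑ i, ∑ j, C i j * v i * w j

theorem bil_add_left (C : Matrix ι ι ℂ) (v v' w : ι → ℂ) :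
    bil C (v + v') w = bil C v w + bil C v' w := by
  simp only [bil, Pi.add_apply, mul_add, add_mul, Finset.sum_add_distrib]

theorem bil_add_right (C : Matrix ι ι ℂ) (v w w' : ι → ℂ) :
    bil C v (w + w') = bil C v w + bil C v w' := by
  simp only [bil, Pi.add_apply, mul_add, Finset.sum_add_distrib]

theorem bil_symm {C : Matrix ι ι ℂ} (hC : C.transpose = C) (v w : ι → ℂ) :
    bil C v w = bil C w v := by
  unfold bil
  rw [Finset.sum_comm]
  refine Finset.sum_congr rfl fun i _ => Finset.sum_congr rfl fun j _ => ?_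
  have : C j i = C i j := by
    conv_rhs => rw [← hC]
    rfl
  rw [this]; ring

theorem bil_neg (C : Matrix ι ι ℂ) (v : ι → ℂ) : bil C (-v) (-v) = bil C v v := by
  simp only [bil, Pi.neg_apply, mul_neg, neg_mul, neg_neg]

theorem bil_diff (C : Matrix ι ι ℂ) : Differentiable ℂ fun v => bil C v v := by
  unfold bil
  exact Differentiable.fun_sum fun i _ => Differentiable.fun_sum fun j _ => by fun_prop

theorem eul_ent {f : (ι → ℂ) → ℂ} (hf : Differentiable ℂ f) (A : ι → ℂ) :
    Differentiable ℂ (eul A f) := by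
  unfold eul
  refine Differentiable.fun_sum fun j _ => ?_
  have := ent_pd hf j
  fun_prop

theorem eul_div (A : ι → ℂ) (f : (ι → ℂ) → ℂ) (v : ι → ℂ) :
    eul A f v / f v = ∑ j, A j * v j * (pd j f v / f v) := by
  unfold eul
  rw [Finset.sum_div]
  exact Finset.sum_congr rfl fun j _ => by ring

theorem lin_diff (p : ι → ℂ) : Differentiable ℂ fun v : ι → ℂ => ∑ j, p j * v j :=
  Differentiable.fun_sum fun j _ => by fun_prop

/-- parity of theta functions -/
theorem th_parity (hUn : St_ThUn) (hP : PLat L χ) (hT : IsTh L χ θ) (h0 : ∃ v, θ v ≠ 0) :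
    ∃ s : ℂ, (s = 1 ∨ s = -1) ∧ ∀ v, θ (-v) = s * θ v := by
  obtain ⟨s, hs⟩ := hUn ι L χ θ _ hP hT (hT.neg hP) h0
  refine ⟨s, ?_, hs⟩
  obtain ⟨v, hv⟩ := h0
  have h1 := hs v
  have h2 := hs (-v)
  simp only [neg_neg] at h1 h2
  rw [h1] at h2
  have h3 : (s * s - 1) * θ v = 0 := by linear_combination -h2
  rcases mul_eq_zero.1 h3 with h4 | h4
  · have h5 : (s - 1) * (s + 1) = 0 := by linear_combination h4
    rcases mul_eq_zero.1 h5 with h6 | h6
    · left; linear_combination h6
    · right; linear_combination h6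
  · exact absurd h4 hv

theorem del_sign {s : ℂ} (hs : s = 1 ∨ s = -1) : δ s = 0 := by
  rcases hs with rfl | rfl <;> simp

theorem del_neg (hR : DelRules ι δ) {a a' : (ι → ℂ) → ℂ} (h : IsDel δ a a') :
    IsDel δ (fun v => a (-v)) (fun v => a' (-v)) := by
  have h1 := del_diag hR (s := fun _ : ι => (-1 : ℂ)) (fun _ => isAlgebraic_one.neg) h
  have e : ∀ v : ι → ℂ, (fun i => (-1 : ℂ) * v i) = -v := by
    intro v; funext i; simp
  simpa only [e] using h1

end

theorem thm_C3 (hLin : St_Lin) (hUx : St_ThUx) (hUn : St_ThUn) (hDel : St_DelR) : St_C3 := by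
  intro ι _ _ δ L χ θ G ld β₀ β A C hP hT h0 hPre hC hAC
  have hR := hDel ι δ
  have hπ : (Real.pi : ℂ) ≠ 0 := by exact_mod_cast Real.pi_ne_zero
  have hd := F_differentiable hT
  set Q : (ι → ℂ) → ℂ := fun v => 1 / 2 * bil C v v with hQ
  -- the normalised logarithmic derivative
  set w : (ι → ℂ) → (ι → ℂ) → ℂ := fun x v =>
    G x v / F θ x v - ∑ j, A j * v j * (pd j (F θ x) v / F θ x v) - Q v with hw
  set γ : (ι → ℂ) → ℂ := fun l => β₀ l - Real.pi * ∑ j, A j * l j * conj (l j) - Q l with hγ
  have step1 : ∀ l ∈ L, ∀ x, OddTor L x → ∀ v, F θ x v ≠ 0 → w x (v + l) = w x v + γ l := by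
    intro l hl x hx v hv
    have e1 := hPre.diff l hl x hx v hv
    obtain ⟨e2, e3⟩ := hAC l hl
    simp only [e2, e3] at e1
    have e4 : Q (v + l) = Q v + bil C v l + Q l := by
      simp only [hQ]
      rw [bil_add_left, bil_add_right, bil_add_right, bil_symm hC l v]
      ring
    have e5 : ∑ j, (∑ i, C j i * l i + Real.pi * A j * conj (l j)) * v j =
        bil C v l + ∑ j, Real.pi * A j * conj (l j) * v j := by
      simp only [add_mul, Finset.sum_add_distrib, bil]
      congr 1
      refine Finset.sum_congr rfl fun j _ => ?_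
      rw [Finset.sum_mul]
      exact Finset.sum_congr rfl fun i _ => by ring
    have e6 : ∑ j, A j * (v + l) j * (pd j (F θ x) (v + l) / F θ x (v + l)) =
        ∑ j, A j * v j * (pd j (F θ x) v / F θ x v) + ∑ j, A j * l j * (pd j (F θ x) v / F θ x v) +
        ∑ j, Real.pi * A j * conj (l j) * v j + Real.pi * ∑ j, A j * l j * conj (l j) := by
      rw [Finset.mul_sum, ← Finset.sum_add_distrib, ← Finset.sum_add_distrib,
        ← Finset.sum_add_distrib]
      refine Finset.sum_congr rfl fun j _ => ?_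
      rw [om_quasi hP hT hl x j hv, Pi.add_apply]
      ring
    simp only [hw, hγ]
    rw [e4, e6]
    rw [e5] at e1
    linear_combination e1
  have step2 : ∀ l ∈ L, ∀ m ∈ L, γ (l + m) = γ l + γ m := by
    intro l hl m hm
    obtain ⟨v, hv⟩ := F_nz h0 (0 : ι → ℂ)
    have e1 := step1 (l + m) (L.add_mem hl hm) 0 OddTor.zero v hv
    have e2 := step1 m hm 0 OddTor.zero v hv
    have e3 := step1 l hl 0 OddTor.zero (v + m) (F_ne_lat hP hT hm hv)
    have e4 : v + m + l = v + (l + m) := by abel
    rw [e4] at e3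
    linear_combination e2 + e3 - e1
  obtain ⟨p, q, hpq⟩ := lat_add hP.lat step2
  -- the entire function of type `F_x`
  set R : (ι → ℂ) → (ι → ℂ) → ℂ := fun x v => G x v - eul A (F θ x) v - Q v * F θ x v -
    (∑ j, p j * v j) * F θ x v - ∑ j, (q j / Real.pi) * pd j (F θ x) v with hRdef
  have hRw : ∀ x v, F θ x v ≠ 0 → R x v = (w x v - ∑ j, p j * v j -
      ∑ j, (q j / Real.pi) * (pd j (F θ x) v / F θ x v)) * F θ x v := by
    intro x v hv
    simp only [hRdef, hw]
    rw [sub_mul, sub_mul, sub_mul, sub_mul, ← eul_div]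
    have e1 : (∑ j, (q j / Real.pi) * (pd j (F θ x) v / F θ x v)) * F θ x v =
        ∑ j, (q j / Real.pi) * pd j (F θ x) v := by
      rw [Finset.sum_mul]
      refine Finset.sum_congr rfl fun j _ => ?_
      field_simp
    rw [e1, div_mul_cancel₀ _ hv, div_mul_cancel₀ _ hv]
  have hRent : ∀ x, OddTor L x → Differentiable ℂ (R x) := by
    intro x hx
    have h1 := (hPre.del x hx).ent'
    have h2 := eul_ent (hd x) A
    have h3 := bil_diff C
    have h4 := lin_diff p
    have h5 : Differentiable ℂ fun v => ∑ j, (q j / Real.pi) * pd j (F θ x) v :=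
      Differentiable.fun_sum fun j _ => (ent_pd (hd x) j).const_mul _
    exact (((h1.sub h2).sub ((h3.const_mul _).mul (hd x))).sub (h4.mul (hd x))).sub h5
  have hRtype : ∀ x, OddTor L x → ∀ l ∈ L, ∀ v, R x (v + l) =
      χ l * Complex.exp (2 * Real.pi * Complex.I * E x l) *
      Complex.exp (Real.pi * H v l + Real.pi / 2 * H l l) * R x v := by
    intro x hx l hl
    have hfx : Differentiable ℂ fun v => χ l * Complex.exp (2 * Real.pi * Complex.I * E x l) *
      Complex.exp (Real.pi * H v l + Real.pi / 2 * H l l) := by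
      have := H_diff l
      fun_prop
    have key := eq_of_gen (a := fun v => R x (v + l))
      (b := fun v => χ l * Complex.exp (2 * Real.pi * Complex.I * E x l) *
      Complex.exp (Real.pi * H v l + Real.pi / 2 * H l l) * R x v)
      ((hRent x hx).continuous.comp (continuous_id.add continuous_const))
      (hfx.continuous.mul (hRent x hx).continuous) (by
        filter_upwards [gen_ne (hd x) (F_nz h0 x)] with v hv
        rw [hRw x v hv, hRw x (v + l) (F_ne_lat hP hT hl hv), step1 l hl x hx v hv,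
          hpq l hl, F_quasi hT hl x v]
        have e1 : ∑ j, (q j / Real.pi) * (pd j (F θ x) (v + l) /
            (χ l * Complex.exp (2 * Real.pi * Complex.I * E x l) *
              Complex.exp (Real.pi * H v l + Real.pi / 2 * H l l) * F θ x v)) =
            ∑ j, (q j / Real.pi) * (pd j (F θ x) v / F θ x v) + ∑ j, q j * conj (l j) := by
          rw [← Finset.sum_add_distrib]
          refine Finset.sum_congr rfl fun j _ => ?_
          rw [← F_quasi hT hl x v, om_quasi hP hT hl x j hv]
          field_simp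
        rw [e1]
        simp only [Pi.add_apply, mul_add, Finset.sum_add_distrib]
        ring)
    exact fun v => congrFun key v
  have hk : ∀ x, OddTor L x → ∃ k : ℂ, ∀ v, R x v = k * F θ x v := fun x hx =>
    hUx ι L χ θ hP hT h0 x (R x) (hRent x hx) (hRtype x hx)
  choose! k hk using hk
  -- parity
  obtain ⟨s, hs1, hs⟩ := th_parity hUn hP hT h0
  have hs0 : s ≠ 0 := by rcases hs1 with rfl | rfl <;> norm_num
  have hF0 : ∀ v, F θ 0 (-v) = s * F θ 0 v := by
    intro v
    have := F_neg (θ := θ) hs 0 v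
    rwa [neg_zero] at this
  have hG0 : ∀ v, G 0 (-v) = s * G 0 v := by
    have h1 := del_neg hR (hPre.del 0 OddTor.zero)
    have h2 := hR.mul _ _ _ _ (hR.const s) (hPre.del 0 OddTor.zero)
    have e1 : (fun v => F θ 0 (-v)) = fun v => s * F θ 0 v := funext hF0
    rw [e1] at h1
    have h3 := hR.uniq _ _ _ h1 h2
    intro v
    have h4 := congrFun h3 v
    simp only [del_sign hs1, zero_mul, zero_add] at h4
    exact h4
  have hpd0 : ∀ j v, pd j (F θ 0) (-v) = -(s * pd j (F θ 0) v) := by
    intro j v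
    have h1 : pd j (fun z => F θ 0 (-z)) v = -pd j (F θ 0) (-v) := pd_neg' _ _ _
    have e1 : (fun v => F θ 0 (-v)) = fun v => s * F θ 0 v := funext hF0
    rw [e1, pd_const_mul' (hd 0 v)] at h1
    linear_combination h1
  have hkw : ∀ v, F θ 0 v ≠ 0 → w 0 v - ∑ j, p j * v j -
      ∑ j, (q j / Real.pi) * (pd j (F θ 0) v / F θ 0 v) = k 0 := by
    intro v hv
    have h1 := hk 0 OddTor.zero v
    rw [hRw 0 v hv] at h1
    exact mul_right_cancel₀ hv h1
  have hpar : ∀ v, F θ 0 v ≠ 0 → (0 : ℂ) + ∑ j, (2 * p j) * v j +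
      ∑ j, (2 * (q j / Real.pi)) * (pd j (F θ 0) v / F θ 0 v) = 0 := by
    intro v hv
    have hv' : F θ 0 (-v) ≠ 0 := by rw [hF0]; exact mul_ne_zero hs0 hv
    have e1 := hkw v hv
    have e2 := hkw (-v) hv'
    have e3 : ∀ j, pd j (F θ 0) (-v) / F θ 0 (-v) = -(pd j (F θ 0) v / F θ 0 v) := by
      intro j
      rw [hpd0, hF0]
      field_simp
    have e4 : w 0 (-v) = w 0 v := by
      simp only [hw, hQ, bil_neg]
      rw [hG0, hF0]
      have e5 : ∑ j, A j * (-v) j * (pd j (F θ 0) (-v) / (s * F θ 0 v)) =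
          ∑ j, A j * v j * (pd j (F θ 0) v / F θ 0 v) := by
        refine Finset.sum_congr rfl fun j _ => ?_
        rw [← hF0, e3 j, Pi.neg_apply]
        ring
      rw [e5]
      congr 2
      field_simp
    rw [e4] at e2
    simp only [e3, Pi.neg_apply] at e2
    have e6 : ∑ j, p j * -v j = -∑ j, p j * v j := by
      rw [← Finset.sum_neg_distrib]; exact Finset.sum_congr rfl fun j _ => by ring
    have e7 : ∑ j, (q j / Real.pi) * -(pd j (F θ 0) v / F θ 0 v) =
        -∑ j, (q j / Real.pi) * (pd j (F θ 0) v / F θ 0 v) := by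
      rw [← Finset.sum_neg_distrib]; exact Finset.sum_congr rfl fun j _ => by ring
    have e8 : ∑ j, (2 * p j) * v j = 2 * ∑ j, p j * v j := by
      rw [Finset.mul_sum]; exact Finset.sum_congr rfl fun j _ => by ring
    have e9 : ∑ j, (2 * (q j / Real.pi)) * (pd j (F θ 0) v / F θ 0 v) =
        2 * ∑ j, (q j / Real.pi) * (pd j (F θ 0) v / F θ 0 v) := by
      rw [Finset.mul_sum]; exact Finset.sum_congr rfl fun j _ => by ring
    rw [e6, e7] at e2
    rw [e8, e9]
    linear_combination e2 - e1
  obtain ⟨-, hp, hq⟩ := hLin ι L χ θ hP hT h0 0 0 (fun j => 2 * p j)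
    (fun j => 2 * (q j / Real.pi)) hpar
  have hp' : ∀ j, p j = 0 := by
    intro j
    have := congrFun hp j
    simpa using this
  have hq' : ∀ j, q j / Real.pi = 0 := by
    intro j
    have := congrFun hq j
    simpa using this
  refine ⟨k, fun x hx v => ?_⟩
  have h1 := hk x hx v
  simp only [hRdef, hp', hq', zero_mul, Finset.sum_const_zero, sub_zero] at h1
  have h2 : ∑ i, ∑ j, C i j * v i * v j = bil C v v := rfl
  rw [h2]
  simp only [hQ] at h1
  linear_combination h1

end GAM
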