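import Pool.Agent.GAM.StD2

/-!
# GAM module ChiB: existence of semicharacters
-/

set_option autoImplicit false

namespace GAM

open Finset in
lemma ChiB_split {n : ℕ} (f : Fin n → Fin n → ℚ) (h0 : ∀ i, f i i = 0) :
    ∑ i, ∑ j, f i j = ∑ i, ∑ j, (if i < j then f i j + f j i else 0) := by
  have h1 : ∀ i j : Fin n, f i j = (if i < j then f i j else 0) + (if j < i then f i j else 0) := by
    intro i j
    rcases lt_trichotomy i j with h | h | h
    · rw [if_pos h, if_neg (not_lt.2 h.le), add_zero]
    · subst h; simp [h0]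
    · rw [if_neg (not_lt.2 h.le), if_pos h, zero_add]
  calc ∑ i, ∑ j, f i j
      = ∑ i, ∑ j, ((if i < j then f i j else 0) + (if j < i then f i j else 0)) :=
        Finset.sum_congr rfl fun i _ => Finset.sum_congr rfl fun j _ => h1 i j
    _ = (∑ i, ∑ j, (if i < j then f i j else 0)) + ∑ i, ∑ j, (if j < i then f i j else 0) := by
        simp only [Finset.sum_add_distrib]
    _ = (∑ i, ∑ j, (if i < j then f i j else 0)) + ∑ i, ∑ j, (if i < j then f j i else 0) := by
        congr 1
        exact Finset.sum_comm
    _ = ∑ i, ∑ j, ((if i < j then f i j else 0) + (if i < j then f j i else 0)) := by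
        simp only [Finset.sum_add_distrib]
    _ = ∑ i, ∑ j, (if i < j then f i j + f j i else 0) := by
        refine Finset.sum_congr rfl fun i _ => Finset.sum_congr rfl fun j _ => ?_
        by_cases h : i < j
        · simp [h]
        · simp [h]

lemma ChiB_exp_int (m : ℤ) : Complex.exp (Real.pi * Complex.I * ((m : ℚ) : ℂ)) = 1 ∨
    Complex.exp (Real.pi * Complex.I * ((m : ℚ) : ℂ)) = -1 := by
  rcases Int.even_or_odd' m with ⟨k, hk | hk⟩
  · left
    rw [Complex.exp_eq_one_iff]
    refine ⟨k, ?_⟩
    rw [hk]; push_cast; ring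
  · right
    have h1 : (Real.pi : ℂ) * Complex.I * ((m : ℚ) : ℂ)
        = Real.pi * Complex.I + k * (2 * Real.pi * Complex.I) := by
      rw [hk]; push_cast; ring
    rw [h1, Complex.exp_add, Complex.exp_pi_mul_I]
    have : Complex.exp (k * (2 * Real.pi * Complex.I)) = 1 := by
      rw [Complex.exp_eq_one_iff]; exact ⟨k, rfl⟩
    rw [this, mul_one]

theorem thm_ChiB : St_ChiB := by
  intro V _ _ B n e hB hE
  choose M hM using hE
  have hanti : ∀ i j, M j i = - M i j := by
    intro i j
    have h1 := hB (e i + e j)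
    have h2 : B (e i) (e j) + B (e j) (e i) = 0 := by
      have h3 := hB (e i)
      have h4 := hB (e j)
      simp only [map_add, LinearMap.add_apply] at h1
      linarith
    rw [hM i j, hM j i] at h2
    have h3 : M i j + M j i = 0 := by exact_mod_cast h2
    linarith
  -- integrality of the coordinates
  have hint : ∀ x ∈ Submodule.span ℤ (Set.range e), ∀ i, ∃ m : ℤ, e.repr x i = m := by
    intro x hx
    induction hx using Submodule.span_induction with
    | mem x hx =>
      obtain ⟨k, rfl⟩ := hx
      intro i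
      rw [e.repr_self, Finsupp.single_apply]
      by_cases h : k = i
      · exact ⟨1, by simp [h]⟩
      · exact ⟨0, by simp [h]⟩
    | zero => intro i; exact ⟨0, by simp⟩
    | add x y _ _ hx hy =>
      intro i
      obtain ⟨a, ha⟩ := hx i
      obtain ⟨b, hb⟩ := hy i
      exact ⟨a + b, by rw [map_add, Finsupp.add_apply, ha, hb]; push_cast; ring⟩
    | smul c x _ hx =>
      intro i
      obtain ⟨a, ha⟩ := hx i
      refine ⟨c * a, ?_⟩
      rw [map_zsmul, Finsupp.smul_apply, ha]
      simp
  -- the form in coordinates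
  have hBxy : ∀ x y : V, B x y = ∑ i, ∑ j, e.repr x i * e.repr y j * (M i j : ℚ) := by
    intro x y
    have h1 : B x y = B (∑ i, e.repr x i • e i) (∑ j, e.repr y j • e j) := by
      rw [e.sum_repr x, e.sum_repr y]
    rw [h1]
    simp only [map_sum, map_smul, LinearMap.sum_apply, LinearMap.smul_apply, smul_eq_mul,
      Finset.mul_sum]
    rw [Finset.sum_comm]
    refine Finset.sum_congr rfl fun i _ => Finset.sum_congr rfl fun j _ => ?_
    rw [hM i j]; ring
  have hM0 : ∀ i, M i i = 0 := by
    intro i
    have := hanti i i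
    omega
  let q : V → ℚ := fun x => ∑ i, ∑ j, (if i < j then e.repr x i * e.repr x j * (M i j : ℚ) else 0)
  have hqint : ∀ x ∈ Submodule.span ℤ (Set.range e), ∃ m : ℤ, q x = m := by
    intro x hx
    choose a ha using hint x hx
    refine ⟨∑ i, ∑ j, (if i < j then a i * a j * M i j else 0), ?_⟩
    simp only [q]
    push_cast
    refine Finset.sum_congr rfl fun i _ => Finset.sum_congr rfl fun j _ => ?_
    by_cases h : i < j
    · simp [h, ha]
    · simp [h]
  have hq : ∀ x y : V, q (x + y) = q x + q y + B x y
      + 2 * ∑ i, ∑ j, (if i < j then e.repr x j * e.repr y i * (M i j : ℚ) else 0) := by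
    intro x y
    rw [hBxy x y, ChiB_split _ (by intro i; rw [hM0 i]; simp)]
    simp only [q]
    rw [Finset.mul_sum]
    simp only [Finset.mul_sum]
    rw [← Finset.sum_add_distrib, ← Finset.sum_add_distrib, ← Finset.sum_add_distrib]
    refine Finset.sum_congr rfl fun i _ => ?_
    rw [← Finset.sum_add_distrib, ← Finset.sum_add_distrib, ← Finset.sum_add_distrib]
    refine Finset.sum_congr rfl fun j _ => ?_
    by_cases h : i < j
    · simp only [h, if_true, map_add, Finsupp.add_apply]
      rw [hanti i j]
      push_cast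
      ring
    · simp [h]
  refine ⟨fun x => Complex.exp (Real.pi * Complex.I * (q x : ℂ)), ?_, ?_⟩
  · intro x hx
    obtain ⟨m, hm⟩ := hqint x hx
    show Complex.exp (Real.pi * Complex.I * (q x : ℂ)) = 1 ∨
      Complex.exp (Real.pi * Complex.I * (q x : ℂ)) = -1
    rw [hm]
    exact ChiB_exp_int m
  · intro x hx y hy
    choose a ha using hint x hx
    choose b hb using hint y hy
    have h2 : (∑ i, ∑ j, (if i < j then e.repr x j * e.repr y i * (M i j : ℚ) else 0))
        = ((∑ i, ∑ j, (if i < j then a j * b i * M i j else 0) : ℤ) : ℚ) := by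
      push_cast
      refine Finset.sum_congr rfl fun i _ => Finset.sum_congr rfl fun j _ => ?_
      by_cases h : i < j
      · simp [h, ha, hb]
      · simp [h]
    have h3 := hq x y
    obtain ⟨S, hS⟩ : ∃ S : ℤ, (∑ i, ∑ j, (if i < j then e.repr x j * e.repr y i * (M i j : ℚ)
      else 0)) = (S : ℚ) := ⟨_, h2⟩
    rw [hS] at h3
    show Complex.exp (Real.pi * Complex.I * (q (x + y) : ℂ))
      = Complex.exp (Real.pi * Complex.I * (q x : ℂ)) *
        Complex.exp (Real.pi * Complex.I * (q y : ℂ)) *
        Complex.exp (Real.pi * Complex.I * (B x y : ℚ))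
    rw [h3]
    rw [← Complex.exp_add, ← Complex.exp_add, Complex.exp_eq_exp_iff_exists_int]
    refine ⟨S, ?_⟩
    push_cast
    ring

end GAM
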