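import Pool.Agent.GAM.StD2

/-!
# GAM: finitely many classes of elements of bounded norm up to units
-/

set_option autoImplicit false

namespace GAM

open scoped ComplexConjugate

section Cls

variable {K : Type} [Field K]

private theorem Cls_smul_fst (m : ℤ) (β : K × K) : (m • β).1 = (m : K) * β.1 := by
  rw [Prod.smul_fst, zsmul_eq_mul]

private theorem Cls_smul_snd (m : ℤ) (β : K × K) : (m • β).2 = (m : K) * β.2 := by
  rw [Prod.smul_snd, zsmul_eq_mul]

private theorem Cls_tw_add (c : K →+* K) (κ : K) (β x y : K × K) :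
    tw c κ β (x + y) = tw c κ β x + tw c κ β y := by
  ext
  · simp only [tw, Prod.fst_add, Prod.snd_add]; ring
  · simp only [tw, Prod.fst_add, Prod.snd_add]; ring

private theorem Cls_tw_smul (c : K →+* K) (κ : K) (β x : K × K) (m : ℤ) :
    tw c κ β (m • x) = m • tw c κ β x := by
  ext
  · simp only [tw, Cls_smul_fst, Cls_smul_snd]; ring
  · simp only [tw, Cls_smul_fst, Cls_smul_snd]; ring

private theorem Cls_add_tw (c : K →+* K) (κ : K) (β β' x : K × K) :
    tw c κ (β + β') x = tw c κ β x + tw c κ β' x := by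
  ext
  · simp only [tw, Prod.fst_add, Prod.snd_add, map_add]; ring
  · simp only [tw, Prod.fst_add, Prod.snd_add, map_add]; ring

private theorem Cls_smul_tw (c : K →+* K) (κ : K) (β x : K × K) (m : ℤ) :
    tw c κ (m • β) x = m • tw c κ β x := by
  ext
  · simp only [tw, Cls_smul_fst, Cls_smul_snd, map_mul, map_intCast]; ring
  · simp only [tw, Cls_smul_fst, Cls_smul_snd, map_mul, map_intCast]; ring

private theorem Cls_one_tw (c : K →+* K) (κ : K) (x : K × K) : tw c κ (1, 0) x = x := by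
  ext
  · simp [tw]
  · simp [tw]

private theorem Cls_inO_smul {c : K →+* K} {κ : K} {Q : Submodule ℤ (K × K)} {β : K × K}
    (h : inO c κ Q β) (m : ℤ) : inO c κ Q (m • β) := by
  intro x hx
  rw [Cls_smul_tw]
  exact Q.smul_mem m (h x hx)

/-- the inverse -/
private noncomputable def Cls_inv (c : K →+* K) (κ : K) (β : K × K) : K × K :=
  ((nrd c κ β)⁻¹ * c β.1, -((nrd c κ β)⁻¹ * β.2))

end Cls

theorem thm_Cls (h1 : St_OrdR) (h2 : St_NrdF) (h3 : St_ModF) : St_Cls := by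
  classical
  intro K _ _ c κ n e R N hc hcκ hdiv hN
  obtain ⟨A1, A2, A3, ⟨N0, hN0, A4⟩, ⟨N2, hN2, A5⟩, A6⟩ := h1 K c κ n e hc hcκ hdiv
  set Q : Submodule ℤ (K × K) := Submodule.span ℤ (Set.range e) with hQ
  -- `c` is an involution
  have hcc : ∀ x : K, c (c x) = x := by
    intro x
    obtain ⟨σ⟩ : Nonempty (K →+* ℂ) := inferInstance
    apply σ.injective
    rw [← hc.cc, ← hc.cc, Complex.conj_conj]
  have hcn : ∀ β : K × K, c (nrd c κ β) = nrd c κ β := by
    intro β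
    simp only [nrd, map_add, map_mul, hcc, hcκ]
    ring
  -- the inverse
  have hinv1 : ∀ β : K × K, nrd c κ β ≠ 0 → tw c κ (Cls_inv c κ β) β = (1, 0) := by
    intro β hβ
    have hn := hcn β
    ext
    · simp only [tw, Cls_inv, map_neg, map_mul, map_inv₀, hn]
      have : (nrd c κ β)⁻¹ * nrd c κ β = 1 := inv_mul_cancel₀ hβ
      rw [← this]
      simp only [nrd]
      ring
    · simp only [tw, Cls_inv, map_mul, map_inv₀, hn, hcc]
      ring
  have hinv2 : ∀ β : K × K, nrd c κ β ≠ 0 → tw c κ β (Cls_inv c κ β) = (1, 0) := by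
    intro β hβ
    ext
    · simp only [tw, Cls_inv]
      have : (nrd c κ β)⁻¹ * nrd c κ β = 1 := inv_mul_cancel₀ hβ
      rw [← this]
      simp only [nrd]
      ring
    · simp only [tw, Cls_inv]
      ring
  have hn1 : nrd c κ ((1, 0) : K × K) = 1 := by simp [nrd]
  -- the finite set of norms
  have hF := h2 K c κ n e R hc hcκ hdiv
  set F : Set K := {x : K | (∀ σ : K →+* ℂ, ‖σ x‖ ≤ R) ∧
    ∃ β, inO c κ Q β ∧ nrd c κ β = x} with hFdef
  choose N3 hN3 hN3' using A3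
  let N4 : ℕ := ∏ x ∈ hF.toFinset, N3 (x⁻¹, 0)
  have hN4 : N4 ≠ 0 := Finset.prod_ne_zero_iff.2 fun x _ => hN3 _
  have hN4' : ∀ x ∈ F, inO c κ Q ((N4 : ℤ) • ((x⁻¹, 0) : K × K)) := by
    intro x hx
    have hdvd : N3 (x⁻¹, 0) ∣ N4 := Finset.dvd_prod_of_mem _ (hF.mem_toFinset.2 hx)
    obtain ⟨m, hm⟩ := hdvd
    have : ((N4 : ℤ) • ((x⁻¹, 0) : K × K)) = (m : ℤ) • ((N3 (x⁻¹, 0) : ℤ) • ((x⁻¹, 0) : K × K)) := by
      rw [smul_smul, hm]
      congr 1
      push_cast
      ring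
    rw [this]
    exact Cls_inO_smul (hN3' _) _
  set m : ℕ := N0 * N2 * N4 with hm
  have hm0 : m ≠ 0 := by
    rw [hm]
    exact mul_ne_zero (mul_ne_zero hN0 hN2) hN4
  -- the elements under consideration
  let P : Set (K × K) := {β | β ≠ 0 ∧ inO c κ Q β ∧ nrd c κ β ∈ F}
  have hPn : ∀ β ∈ P, nrd c κ β ≠ 0 := fun β hβ h => hβ.1 (hdiv β h)
  have hPinv : ∀ β ∈ P, inO c κ Q ((m : ℤ) • Cls_inv c κ β) := by
    intro β hβ
    obtain ⟨i1, i2⟩ := A4 β hβ.2.1
    have h5 : inO c κ Q ((N2 : ℤ) • (((N0 : K) * c β.1, -((N0 : K) * β.2)) : K × K)) := by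
      refine A5 _ ?_ ?_
      · have : c ((N0 : K) * β.1) = (N0 : K) * c β.1 := by rw [map_mul, map_natCast]
        show IsIntegral ℤ ((N0 : K) * c β.1)
        rw [← this]
        exact i1.map (c.toIntAlgHom)
      · exact i2.neg
    have h6 := (A1 _ _ (hN4' _ hβ.2.2) h5).2.2
    have h7 : tw c κ ((N4 : ℤ) • (((nrd c κ β)⁻¹, 0) : K × K))
        ((N2 : ℤ) • (((N0 : K) * c β.1, -((N0 : K) * β.2)) : K × K)) =
        (m : ℤ) • Cls_inv c κ β := by
      have hn := hcn β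
      ext
      · simp only [tw, Cls_inv, Cls_smul_fst, Cls_smul_snd, map_mul, map_intCast, map_inv₀, hn, hm,
          map_zero]
        push_cast
        ring
      · simp only [tw, Cls_inv, Cls_smul_fst, Cls_smul_snd, map_mul, map_intCast, map_inv₀, hn, hm,
          map_zero]
        push_cast
        ring
    rw [h7] at h6
    exact h6
  obtain ⟨N', f, hf⟩ := h3 K c κ n e (m * N) hc hcκ hdiv (mul_ne_zero hm0 hN)
  -- representatives
  let g : K × K → K × Fin N' := fun β => (nrd c κ β, f β)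
  obtain ⟨T0, hT0, hbij⟩ := Set.exists_subset_bijOn P g
  have himg : (g '' P).Finite := by
    refine (hF.prod (Set.finite_univ (α := Fin N'))).subset ?_
    rintro _ ⟨β, hβ, rfl⟩
    exact ⟨hβ.2.2, Set.mem_univ _⟩
  have hT0f : T0.Finite := hbij.finite_iff_finite.2 himg
  refine ⟨hT0f.toFinset, fun β hβ => (hT0 (hT0f.mem_toFinset.1 hβ)).1, ?_⟩
  intro β hβ0 hβO hβR
  have hβP : β ∈ P := ⟨hβ0, hβO, hβR, β, hβO, rfl⟩
  obtain ⟨β', hβ'T, hgg⟩ := hbij.surjOn ⟨β, hβP, rfl⟩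
  have hβ'P : β' ∈ P := hT0 hβ'T
  have hnn : nrd c κ β' = nrd c κ β := (Prod.mk.inj hgg).1
  have hff : f β' = f β := (Prod.mk.inj hgg).2
  obtain ⟨ω, hω, hβω⟩ := hf β β' hβO hβ'P.2.1 hff.symm
  have hnβ := hPn β hβP
  have hnβ' := hPn β' hβ'P
  have assoc : ∀ a b x : K × K, tw c κ a (tw c κ b x) = tw c κ (tw c κ a b) x := fun a b x =>
    (A6 a b x).1
  have nmul : ∀ a b : K × K, nrd c κ (tw c κ a b) = nrd c κ a * nrd c κ b := fun a b =>
    (A6 a b 0).2.1
  refine ⟨β', hT0f.mem_toFinset.2 hβ'T, tw c κ (Cls_inv c κ β') β, ?_, ?_, ?_, ?_⟩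
  · have h5 := congrArg (nrd c κ) (hinv1 β' hnβ')
    rw [nmul, hn1] at h5
    rw [nmul, ← hnn, h5]
  · rw [assoc, hinv2 β' hnβ', Cls_one_tw]
  · -- the lattice is preserved in both directions
    have e1 : tw c κ (Cls_inv c κ β') β =
        (1, 0) + (N : ℤ) • tw c κ ((m : ℤ) • Cls_inv c κ β') ω := by
      conv_lhs => rw [hβω]
      rw [Cls_tw_add, hinv1 β' hnβ', Cls_tw_smul, Cls_smul_tw, smul_smul]
      congr 2
      push_cast
      ring
    have hβ'ω : β' = β + ((m * N : ℕ) : ℤ) • (-ω) := by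
      rw [smul_neg]
      conv_rhs => rw [hβω]
      abel
    have e2 : tw c κ (Cls_inv c κ β) β' =
        (1, 0) + (N : ℤ) • tw c κ ((m : ℤ) • Cls_inv c κ β) (-ω) := by
      conv_lhs => rw [hβ'ω]
      rw [Cls_tw_add, hinv1 β hnβ, Cls_tw_smul, Cls_smul_tw, smul_smul]
      congr 2
      push_cast
      ring
    have hO1 : inO c κ Q (tw c κ (Cls_inv c κ β') β) := by
      rw [e1]
      refine (A1 _ _ A2 (Cls_inO_smul ?_ _)).1
      exact (A1 _ _ (hPinv β' hβ'P) hω).2.2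
    have hO2 : inO c κ Q (tw c κ (Cls_inv c κ β) β') := by
      rw [e2]
      refine (A1 _ _ A2 (Cls_inO_smul ?_ _)).1
      exact (A1 _ _ (hPinv β hβP) (A1 _ _ hω hω).2.1).2.2
    intro x
    refine ⟨fun hx => hO1 x hx, fun hx => ?_⟩
    have h6 := hO2 _ hx
    have h7 : tw c κ (tw c κ (Cls_inv c κ β) β') (tw c κ (tw c κ (Cls_inv c κ β') β) x) = x := by
      rw [assoc, ← assoc (Cls_inv c κ β) β' (tw c κ (Cls_inv c κ β') β),
        assoc β' (Cls_inv c κ β') β, hinv2 β' hnβ', Cls_one_tw, hinv1 β hnβ, Cls_one_tw]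
    rw [h7] at h6
    exact h6
  · intro x hx
    have e1 : tw c κ (Cls_inv c κ β') β =
        (1, 0) + (N : ℤ) • tw c κ ((m : ℤ) • Cls_inv c κ β') ω := by
      conv_lhs => rw [hβω]
      rw [Cls_tw_add, hinv1 β' hnβ', Cls_tw_smul, Cls_smul_tw, smul_smul]
      congr 2
      push_cast
      ring
    refine ⟨tw c κ (tw c κ ((m : ℤ) • Cls_inv c κ β') ω) x,
      (A1 _ _ (hPinv β' hβ'P) hω).2.2 x hx, ?_⟩
    rw [e1, Cls_add_tw, Cls_one_tw, Cls_smul_tw]

end GAM
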