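import Pool.Agent.GAM.StD2

/-!
# GAM: cocompactness of the group of a lattice in `K × K`
-/

set_option autoImplicit false

namespace GAM

open scoped ComplexConjugate

section

variable {S : Type} [DecidableEq S] {v w : S}

theorem CocK_rmul_0 (h : GG v w) (x : S × Fin 2 → ℂ) (s : S) :
    rmul h x (s, 0) = x (s, 0) * h.a s - eps v w s * (conj (x (s, 1)) * h.b s) := by
  simp [rmul]

theorem CocK_rmul_1 (h : GG v w) (x : S × Fin 2 → ℂ) (s : S) :
    rmul h x (s, 1) = x (s, 1) * h.a s + conj (x (s, 0)) * h.b s := by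
  simp [rmul]

theorem CocK_rmul_mul (g h : GG v w) (x : S × Fin 2 → ℂ) :
    rmul h (rmul g x) = rmul (gmul g h) x := by
  ext ⟨s, i⟩
  fin_cases i
  · simp only [Fin.zero_eta, CocK_rmul_0, CocK_rmul_1, gmul, map_add, map_mul,
      Complex.conj_conj]
    ring
  · simp only [Fin.mk_one, CocK_rmul_0, CocK_rmul_1, gmul, map_sub, map_mul,
      Complex.conj_conj, eps_real]
    ring

/-- The hermitian form of a block. -/
theorem CocK_form (h : GG v w) (x : S × Fin 2 → ℂ) (s : S) :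
    rmul h x (s, 0) * conj (rmul h x (s, 0)) +
      eps v w s * (rmul h x (s, 1) * conj (rmul h x (s, 1))) =
    x (s, 0) * conj (x (s, 0)) + eps v w s * (x (s, 1) * conj (x (s, 1))) := by
  have h1 := h.rel s
  have h2 := eps_mul_self v w s
  simp only [CocK_rmul_0, CocK_rmul_1, map_add, map_sub, map_mul, Complex.conj_conj, eps_real]
  linear_combination (x (s, 0) * conj (x (s, 0)) + eps v w s * (x (s, 1) * conj (x (s, 1)))) * h1 +
    (x (s, 1) * conj (x (s, 1)) * h.b s * conj (h.b s)) * (1 - eps v w s * 0) * 0 * h2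

theorem CocK_a (k : GG v w) (x : S × Fin 2 → ℂ) (s : S) :
    conj (x (s, 0)) * rmul k x (s, 0) + eps v w s * (conj (x (s, 1)) * rmul k x (s, 1)) =
    (x (s, 0) * conj (x (s, 0)) + eps v w s * (x (s, 1) * conj (x (s, 1)))) * k.a s := by
  simp only [CocK_rmul_0, CocK_rmul_1]
  ring

theorem CocK_eps_norm (s : S) : ‖eps v w s‖ = 1 := by
  unfold eps
  split_ifs <;> simp

/-- `k.a` is bounded if `x` and `rmul k x` are. -/
theorem CocK_bound (k : GG v w) (x : S × Fin 2 → ℂ) (s : S) (R : ℝ) (hR : ∀ p, ‖rmul k x p‖ ≤ R)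
    (hx : x (s, 0) * conj (x (s, 0)) + eps v w s * (x (s, 1) * conj (x (s, 1))) ≠ 0) :
    ‖k.a s‖ ≤ (‖x (s, 0)‖ + ‖x (s, 1)‖) * R /
      ‖x (s, 0) * conj (x (s, 0)) + eps v w s * (x (s, 1) * conj (x (s, 1)))‖ := by
  rw [le_div_iff₀ (norm_pos_iff.2 hx), mul_comm, ← norm_mul, ← CocK_a]
  refine (norm_add_le _ _).trans ?_
  rw [norm_mul, norm_mul, norm_mul, CocK_eps_norm, Complex.norm_conj, Complex.norm_conj, one_mul,
    add_mul]
  exact add_le_add (mul_le_mul_of_nonneg_left (hR _) (norm_nonneg _))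
    (mul_le_mul_of_nonneg_left (hR _) (norm_nonneg _))

theorem CocK_form_bound (h : GG v w) (x : S × Fin 2 → ℂ) (s : S) (R : ℝ)
    (hR : ∀ p, ‖rmul h x p‖ ≤ R) :
    ‖x (s, 0) * conj (x (s, 0)) + eps v w s * (x (s, 1) * conj (x (s, 1)))‖ ≤ 2 * R ^ 2 := by
  rw [← CocK_form h]
  refine (norm_add_le _ _).trans ?_
  rw [norm_mul, norm_mul, norm_mul, CocK_eps_norm, Complex.norm_conj, Complex.norm_conj, one_mul]
  have h0 := hR (s, 0)
  have h1 := hR (s, 1)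
  have h2 := norm_nonneg (rmul h x (s, 0))
  have h3 := norm_nonneg (rmul h x (s, 1))
  nlinarith

/-- The image of the origin stays in a compact set if `k.a` is bounded. -/
theorem CocK_mob (k : GG v w) (R : ℝ) (hR : 1 ≤ R) (hk : ∀ s, ‖k.a s‖ ≤ R) (i : Fin 2) :
    ‖mob k 0 i‖ ≤ Real.sqrt (1 - 1 / R ^ 2) := by
  rw [mob_zero, norm_div, Complex.norm_conj, Complex.norm_conj]
  refine Real.le_sqrt_of_sq_le ?_
  have h1 := normSq_vw k i
  have h2 := hk (vw v w i)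
  have h3 := norm_nonneg (k.a (vw v w i))
  have h4 : 0 < ‖k.a (vw v w i)‖ ^ 2 := by nlinarith [sq_nonneg ‖k.b (vw v w i)‖]
  have h5 : ‖k.a (vw v w i)‖ ^ 2 ≤ R ^ 2 := pow_le_pow_left₀ h3 h2 2
  have h6 : (‖k.b (vw v w i)‖ / ‖k.a (vw v w i)‖) ^ 2 = 1 - 1 / ‖k.a (vw v w i)‖ ^ 2 := by
    rw [div_pow]
    have h7 : ‖k.b (vw v w i)‖ ^ 2 = ‖k.a (vw v w i)‖ ^ 2 - 1 := by linarith
    rw [h7, sub_div, div_self h4.ne']
  rw [h6]
  have h8 : 1 / R ^ 2 ≤ 1 / ‖k.a (vw v w i)‖ ^ 2 := one_div_le_one_div_of_le h4 h5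
  linarith

end

section

variable {K : Type} [Field K] {S : Type}

theorem CocK_coor_add (r : S × Fin 2 → ℝ) (φ φ' : S → K →+* ℂ) (x y : K × K) :
    coor r φ φ' (x + y) = coor r φ φ' x + coor r φ φ' y := by
  ext ⟨s, i⟩
  fin_cases i <;> simp [coor, mul_add]

theorem CocK_coor_zero (r : S × Fin 2 → ℝ) (φ φ' : S → K →+* ℂ) :
    coor r φ φ' 0 = 0 := by
  ext ⟨s, i⟩
  fin_cases i <;> simp [coor]

/-- `coor` as an additive map. -/
noncomputable def CocK_L (r : S × Fin 2 → ℝ) (φ φ' : S → K →+* ℂ) :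
    (K × K) →+ (S × Fin 2 → ℂ) where
  toFun := coor r φ φ'
  map_zero' := CocK_coor_zero r φ φ'
  map_add' := CocK_coor_add r φ φ'

theorem CocK_coor_zsmul (r : S × Fin 2 → ℝ) (φ φ' : S → K →+* ℂ) (n : ℤ) (x : K × K) :
    coor r φ φ' (n • x) = n • coor r φ φ' x := map_zsmul (CocK_L r φ φ') n x

end

section

variable {K : Type} [Field K] {S : Type} [DecidableEq S]

/-- Weights. -/
noncomputable def CocK_r (φ : S → K →+* ℂ) (κ : K) : S × Fin 2 → ℝ := fun p =>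
  if p.2 = 0 then 1 else Real.sqrt |(φ p.1 κ).re|

omit [DecidableEq S] in
theorem CocK_io_0 (φ : S → K →+* ℂ) (κ : K) (β : K × K) (s : S) :
    coor (CocK_r φ κ) φ φ β (s, 0) = φ s β.1 := by
  simp [coor, CocK_r]

omit [DecidableEq S] in
theorem CocK_io_1 (φ : S → K →+* ℂ) (κ : K) (β : K × K) (s : S) :
    coor (CocK_r φ κ) φ φ β (s, 1) = (Real.sqrt |(φ s κ).re| : ℝ) * φ s β.2 := by
  simp [coor, CocK_r]

theorem CocK_kappa {φ : S → K →+* ℂ} {κ : K} {v w : S} (him : ∀ s, (φ s κ).im = 0)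
    (hneg : ∀ s, (φ s κ).re < 0 ↔ s = v ∨ s = w) (s : S) :
    φ s κ = eps v w s * (((Real.sqrt |(φ s κ).re| : ℝ) : ℂ) * ((Real.sqrt |(φ s κ).re| : ℝ) : ℂ)) := by
  have h1 : φ s κ = ((φ s κ).re : ℂ) := by
    apply Complex.ext
    · simp
    · simp [him s]
  rw [← Complex.ofReal_mul, Real.mul_self_sqrt (abs_nonneg _)]
  by_cases hs : s = v ∨ s = w
  · rw [eps_of_mem hs, abs_of_neg ((hneg s).2 hs)]
    conv_lhs => rw [h1]
    push_cast
    ring
  · rw [eps_of_not_mem hs, abs_of_nonneg (not_lt.1 fun h => hs ((hneg s).1 h)), one_mul]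
    exact h1

/-- The reduced norm in coordinates. -/
theorem CocK_nrd {c : K →+* K} {φ : S → K →+* ℂ} {κ : K} {v w : S} (hK : CMF K c)
    (him : ∀ s, (φ s κ).im = 0)
    (hneg : ∀ s, (φ s κ).re < 0 ↔ s = v ∨ s = w) (β : K × K) (s : S) :
    coor (CocK_r φ κ) φ φ β (s, 0) * conj (coor (CocK_r φ κ) φ φ β (s, 0)) +
      eps v w s * (coor (CocK_r φ κ) φ φ β (s, 1) * conj (coor (CocK_r φ κ) φ φ β (s, 1))) =
    φ s (nrd c κ β) := by
  have h := CocK_kappa him hneg s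
  rw [CocK_io_0, CocK_io_1, nrd]
  simp only [map_add, map_mul, Complex.conj_ofReal, hK.cc]
  linear_combination (-(φ s β.2 * φ s (c β.2))) * h

/-- Left multiplication by `β` in coordinates. -/
theorem CocK_tw {c : K →+* K} {φ : S → K →+* ℂ} {κ : K} {v w : S} (hK : CMF K c)
    (him : ∀ s, (φ s κ).im = 0)
    (hneg : ∀ s, (φ s κ).re < 0 ↔ s = v ∨ s = w) (β ε : K × K) (g : GG v w)
    (ha : ∀ s, g.a s = φ s ε.1)
    (hb : ∀ s, g.b s = (Real.sqrt |(φ s κ).re| : ℝ) * φ s ε.2) :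
    coor (CocK_r φ κ) φ φ (tw c κ β ε) = rmul g (coor (CocK_r φ κ) φ φ β) := by
  ext ⟨s, i⟩
  have h := CocK_kappa him hneg s
  fin_cases i
  · simp only [Fin.zero_eta]
    rw [CocK_rmul_0, CocK_io_0, CocK_io_0, CocK_io_1, ha, hb, tw]
    simp only [map_sub, map_mul, Complex.conj_ofReal]
    rw [hK.cc]
    linear_combination (-(φ s (c β.2) * φ s ε.2)) * h
  · simp only [Fin.mk_one]
    rw [CocK_rmul_1, CocK_io_1, CocK_io_0, CocK_io_1, ha, hb, tw]
    simp only [map_add, map_mul]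
    rw [hK.cc]
    ring

end

theorem CocK_tw_inv {K : Type} [Field K] {c : K →+* K} {κ : K} (hcc : ∀ x, c (c x) = x)
    (ε x : K × K) (h : nrd c κ ε = 1) : tw c κ ε (tw c κ (c ε.1, -ε.2) x) = x := by
  unfold nrd at h
  unfold tw
  refine Prod.ext ?_ ?_
  · simp only [map_neg, hcc]
    linear_combination x.1 * h
  · simp only [map_neg, hcc]
    linear_combination x.2 * h

/-- The real basis attached to a rational basis. -/
theorem CocK_basis {K : Type} [Field K] {S : Type} {n : ℕ}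
    (f : Fin n → K × K) (r : S × Fin 2 → ℝ) (φ : S → K →+* ℂ)
    (b : Fin n → S × Fin 2 → ℂ) (hb : ∀ i, b i = coor r φ φ (f i))
    (x : S × Fin 2 → ℂ) (hx : x ∈ Submodule.span ℤ (Set.range b)) :
    ∃ β ∈ Submodule.span ℤ (Set.range f), coor r φ φ β = x := by
  induction hx using Submodule.span_induction with
  | mem x hx =>
    obtain ⟨i, rfl⟩ := hx
    exact ⟨f i, Submodule.subset_span ⟨i, rfl⟩, (hb i).symm⟩
  | zero => exact ⟨0, Submodule.zero_mem _, CocK_coor_zero _ _ _⟩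
  | add x y _ _ hx hy =>
    obtain ⟨β, hβ, rfl⟩ := hx
    obtain ⟨γ, hγ, rfl⟩ := hy
    exact ⟨β + γ, Submodule.add_mem _ hβ hγ, CocK_coor_add _ _ _ _ _⟩
  | smul a x _ hx =>
    obtain ⟨β, hβ, rfl⟩ := hx
    exact ⟨a • β, Submodule.smul_mem _ _ hβ, CocK_coor_zsmul _ _ _ _ _⟩

theorem thm_CocK (h1 : St_BasKK) (h2 : St_OrdB) (h3 : St_Cls) (h4 : St_Mink) (h5 : St_CorG) :
    St_CocK := by
  classical
  intro K _ _ c S _ _ φ φ' κ u v w n e r L hK hφ huv huw hvw hφ' hcκ him hκ hneg hr hr1 hL N hN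
  have hcc : ∀ x, c (c x) = x := fun x => by
    apply (φ u).injective
    rw [← hK.cc, ← hK.cc, Complex.conj_conj]
  -- division
  have hdiv : ∀ β : K × K, nrd c κ β = 0 → β = 0 := by
    intro β hβ
    have hu : ¬ (u = v ∨ u = w) := fun h => h.elim huv huw
    have h := CocK_nrd hK him hneg β u
    rw [hβ, map_zero, eps_of_not_mem hu, one_mul, Complex.mul_conj, Complex.mul_conj,
      ← Complex.ofReal_add, Complex.ofReal_eq_zero] at h
    have h6 : Complex.normSq (coor (CocK_r φ κ) φ φ β (u, 0)) = 0 := by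
      linarith [Complex.normSq_nonneg (coor (CocK_r φ κ) φ φ β (u, 0)),
        Complex.normSq_nonneg (coor (CocK_r φ κ) φ φ β (u, 1))]
    have h7 : Complex.normSq (coor (CocK_r φ κ) φ φ β (u, 1)) = 0 := by
      linarith [Complex.normSq_nonneg (coor (CocK_r φ κ) φ φ β (u, 0)),
        Complex.normSq_nonneg (coor (CocK_r φ κ) φ φ β (u, 1))]
    rw [Complex.normSq_eq_zero] at h6 h7
    rw [CocK_io_0, map_eq_zero] at h6
    rw [CocK_io_1, mul_eq_zero] at h7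
    have h8 : ((Real.sqrt |(φ u κ).re| : ℝ) : ℂ) ≠ 0 := by
      intro h8
      have h9 := CocK_kappa him hneg u
      rw [h8, mul_zero, mul_zero, map_eq_zero] at h9
      exact hκ h9
    have h9 := h7.resolve_left h8
    rw [map_eq_zero] at h9
    exact Prod.ext h6 h9
  -- the real basis
  obtain ⟨f, hf⟩ := h2 K c κ n e
  have hr0 : ∀ p, 0 < CocK_r φ κ p := by
    rintro ⟨s, i⟩
    unfold CocK_r
    dsimp only
    split_ifs
    · exact one_pos
    · refine Real.sqrt_pos.2 (abs_pos.2 fun h => hκ ?_)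
      have : φ s κ = 0 := Complex.ext h (him s)
      exact (map_eq_zero _).1 this
  obtain ⟨-, hli, hsp⟩ := h1 K c S φ φ hK hφ hφ n f (CocK_r φ κ) hr0
  obtain ⟨R, hR⟩ := h4 S v w n (Module.Basis.mk hli hsp.ge)
  obtain ⟨T, hT0, hT⟩ := h3 K c κ n e (2 * R ^ 2) N hK hcκ hdiv hN
  have hR0 : 0 ≤ R := by
    obtain ⟨x, -, -, hx⟩ := hR (gone v w)
    exact (norm_nonneg _).trans (hx (v, 0))
  -- the uniform bound
  obtain ⟨C, hC⟩ : ∃ C : K × K → S → ℝ, ∀ β s, C β s =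
      (‖coor (CocK_r φ κ) φ φ β (s, 0)‖ + ‖coor (CocK_r φ κ) φ φ β (s, 1)‖) * R /
        ‖φ s (nrd c κ β)‖ := ⟨_, fun _ _ => rfl⟩
  have hC0 : ∀ β s, 0 ≤ C β s := by
    intro β s
    rw [hC]
    positivity
  obtain ⟨R', hR'⟩ : ∃ R' : ℝ, R' = 1 + ∑ β ∈ T, ∑ s, C β s := ⟨_, rfl⟩
  have hR'1 : 1 ≤ R' := by
    rw [hR']
    have : 0 ≤ ∑ β ∈ T, ∑ s, C β s :=
      Finset.sum_nonneg fun β _ => Finset.sum_nonneg fun s _ => hC0 β s
    linarith
  have hCR : ∀ β ∈ T, ∀ s, C β s ≤ R' := by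
    intro β hβ s
    rw [hR']
    have h6 : C β s ≤ ∑ s, C β s :=
      Finset.single_le_sum (f := fun s => C β s) (fun s _ => hC0 β s) (Finset.mem_univ s)
    have h7 : ∑ s, C β s ≤ ∑ β ∈ T, ∑ s, C β s :=
      Finset.single_le_sum (f := fun β => ∑ s, C β s)
        (fun β _ => Finset.sum_nonneg fun s _ => hC0 β s) hβ
    linarith
  refine ⟨Real.sqrt (1 - 1 / R' ^ 2), ?_, ?_⟩
  · rw [Real.sqrt_lt' one_pos]
    have : 0 < 1 / R' ^ 2 := by positivity
    linarith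
  intro z hz
  obtain ⟨h, rfl⟩ := mob_trans (v := v) (w := w) hvw hz
  obtain ⟨x, hx, hx0, hxR⟩ := hR h
  obtain ⟨β, hβ, rfl⟩ := CocK_basis f (CocK_r φ κ) φ _
    (fun i => Module.Basis.mk_apply hli hsp.ge i) x hx
  have hβ0 : β ≠ 0 := by
    rintro rfl
    exact hx0 (CocK_coor_zero _ _ _)
  have hb : ∀ s, ‖φ s (nrd c κ β)‖ ≤ 2 * R ^ 2 := by
    intro s
    rw [← CocK_nrd hK him hneg β s]
    exact CocK_form_bound h _ s R hxR
  have hb' : ∀ σ : K →+* ℂ, ‖σ (nrd c κ β)‖ ≤ 2 * R ^ 2 := by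
    intro σ
    obtain ⟨s, hs⟩ := hφ.2 σ
    rcases s with s | s
    · rw [← hs]
      exact hb s
    · rw [← hs]
      simp only [Sum.elim_inr, RingHom.comp_apply]
      rw [← hK.cc, Complex.norm_conj]
      exact hb s
  obtain ⟨β', hβ'T, ε, hε, hβε, hlat, hcong⟩ := hT β hβ0 (hf β hβ) hb'
  obtain ⟨g, hga, hgb, hg⟩ := h5 K c S φ φ' κ v w r ε hK hvw hφ' hcκ him hneg hκ hr hr1 hε
  refine ⟨g, ?_, ?_, ?_⟩
  · intro y
    constructor
    · intro hy
      obtain ⟨x, hx, rfl⟩ := (hL y).1 hy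
      rw [hg]
      exact (hL _).2 ⟨_, (hlat x).1 hx, rfl⟩
    · intro hy
      obtain ⟨x, hx, hxy⟩ := (hL _).1 hy
      have h6 := CocK_tw_inv hcc ε x hε
      have h7 : coor r φ φ' (tw c κ (c ε.1, -ε.2) x) = y := by
        apply act_inj g
        rw [hg, h6, hxy]
      rw [← h7]
      refine (hL _).2 ⟨_, (hlat _).2 ?_, rfl⟩
      rw [h6]
      exact hx
  · intro l hl
    obtain ⟨x, hx, rfl⟩ := (hL l).1 hl
    obtain ⟨y, hy, hxy⟩ := hcong x hx
    refine ⟨coor r φ φ' y, (hL _).2 ⟨y, hy, rfl⟩, ?_⟩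
    rw [hg, hxy, CocK_coor_add, CocK_coor_zsmul]
  · intro i
    rw [← mob_mul g h zero_mem_D2]
    refine CocK_mob (gmul g h) R' hR'1 (fun s => ?_) i
    have h6 : coor (CocK_r φ κ) φ φ β' (s, 0) * conj (coor (CocK_r φ κ) φ φ β' (s, 0)) +
        eps v w s * (coor (CocK_r φ κ) φ φ β' (s, 1) *
          conj (coor (CocK_r φ κ) φ φ β' (s, 1))) ≠ 0 := by
      rw [CocK_nrd hK him hneg β' s]
      intro h7
      rw [map_eq_zero] at h7
      exact hT0 β' hβ'T (hdiv β' h7)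
    have h7 : ∀ p, ‖rmul (gmul g h) (coor (CocK_r φ κ) φ φ β') p‖ ≤ R := by
      intro p
      rw [← CocK_rmul_mul, ← CocK_tw hK him hneg β' ε g hga hgb, ← hβε]
      exact hxR p
    have h8 := CocK_bound (gmul g h) (coor (CocK_r φ κ) φ φ β') s R h7 h6
    rw [CocK_nrd hK him hneg β' s, ← hC] at h8
    exact h8.trans (hCR β' hβ'T s)

end GAM
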