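import Pool.Agent.GAM.StC

/-!
# GAM [Comp]: compositum of abelian CM fields
-/

set_option autoImplicit false

namespace GAM

open scoped ComplexConjugate

/-- the compositum of finitely many normal extensions in an extension `Ω` -/
theorem Comp_gen (k Ω : Type) [Field k] [Field Ω] [Algebra k Ω] (I : Type) [Finite I]
    (K : I → Type) [∀ i, Field (K i)] [∀ i, Algebra k (K i)] [∀ i, FiniteDimensional k (K i)]
    [∀ i, Normal k (K i)] (ε : ∀ i, K i →ₐ[k] Ω) :
    ∃ L : IntermediateField k Ω, FiniteDimensional k L ∧ Normal k L ∧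
      ∃ f : ∀ i, K i →ₐ[k] L, ∀ σ τ : L →+* L, (∀ a : k, σ (algebraMap k L a) =
        τ (algebraMap k L a)) → (∀ i x, σ (f i x) = τ (f i x)) → σ = τ := by
  classical
  set F : I → IntermediateField k Ω := fun i => (ε i).fieldRange with hF
  have hfd : ∀ i, FiniteDimensional k (F i) := fun i => by
    have e : K i ≃ₐ[k] (F i) := AlgEquiv.ofInjectiveField (ε i)
    exact LinearEquiv.finiteDimensional e.toLinearEquiv
  have hno : ∀ i, Normal k (F i) := fun i => by
    have e : K i ≃ₐ[k] (F i) := AlgEquiv.ofInjectiveField (ε i)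
    exact Normal.of_algEquiv e
  have hle : ∀ i, F i ≤ ⨆ i, F i := fun i => le_iSup F i
  have hmem : ∀ i x, ε i x ∈ ⨆ i, F i := fun i x => hle i ⟨x, rfl⟩
  refine ⟨⨆ i, F i, IntermediateField.finiteDimensional_iSup_of_finite,
    IntermediateField.normal_iSup k Ω F,
    fun i => (IntermediateField.inclusion (hle i)).comp (ε i).rangeRestrict, ?_⟩
  intro σ τ h0 h
  -- the equalizer
  let E' : IntermediateField k (⨆ i, F i : IntermediateField k Ω) :=
    { carrier := {x | σ x = τ x}
      mul_mem' := fun {a b} ha hb => by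
        change σ a = τ a at ha
        change σ b = τ b at hb
        change σ (a * b) = τ (a * b)
        rw [map_mul, map_mul, ha, hb]
      add_mem' := fun {a b} ha hb => by
        change σ a = τ a at ha
        change σ b = τ b at hb
        change σ (a + b) = τ (a + b)
        rw [map_add, map_add, ha, hb]
      algebraMap_mem' := fun q => h0 q
      inv_mem' := fun x hx => by
        change σ x = τ x at hx
        change σ x⁻¹ = τ x⁻¹
        rw [map_inv₀, map_inv₀, hx] }
  have h1 : (⨆ i, F i) ≤ IntermediateField.lift E' := by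
    refine iSup_le fun i z hz => ?_
    obtain ⟨x, hx⟩ := hz
    have h2 : ((IntermediateField.inclusion (hle i)).comp (ε i).rangeRestrict x) ∈ E' := h i x
    have h3 : ((((IntermediateField.inclusion (hle i)).comp (ε i).rangeRestrict x :
      (⨆ i, F i : IntermediateField k Ω))) : Ω) = z := hx
    rw [← h3]
    exact (IntermediateField.mem_lift _).2 h2
  ext x
  have h4 := h1 x.2
  have h5 : x ∈ E' := (IntermediateField.mem_lift x).1 h4
  have h6 : σ x = τ x := h5
  rw [h6]

/-- the compositum in `ℂ` of finitely many normal number fields -/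
theorem Comp_exists (I : Type) [Fintype I] (K : I → Type) [∀ i, Field (K i)]
    [∀ i, NumberField (K i)] (hG : ∀ i, IsGalois ℚ (K i)) :
    ∃ (L : Type) (_ : Field L) (_ : NumberField L) (f : ∀ i, K i →+* L) (_ : L →+* ℂ),
      Normal ℚ L ∧ ∀ σ τ : L →+* L, (∀ i x, σ (f i x) = τ (f i x)) → σ = τ := by
  classical
  have hε : ∀ i, Nonempty (K i →ₐ[ℚ] ℂ) := fun i => ⟨IsAlgClosed.lift⟩
  have hn : ∀ i, Normal ℚ (K i) := fun i => (hG i).to_normal
  obtain ⟨L, hfd, hno, f, hf⟩ := Comp_gen ℚ ℂ I K fun i => (hε i).some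
  have e : (L.algebra' : Algebra ℚ L) = DivisionRing.toRatAlgebra := Subsingleton.elim _ _
  have hNF : NumberField L := by
    refine @NumberField.mk L _ inferInstance ?_
    rw [← e]
    exact hfd
  refine ⟨L, inferInstance, hNF, fun i => (f i : K i →+* L), (L.val : L →+* ℂ), ?_, ?_⟩
  · rw [← e]
    exact hno
  · intro σ τ h
    refine hf σ τ (fun q => ?_) h
    rw [eq_ratCast, map_ratCast, map_ratCast]

theorem thm_Comp : St_Comp := by
  classical
  intro I _ _ K _ _ hG hab hcm
  obtain ⟨L, fL, nL, f, j, hn, hext⟩ := Comp_exists I K hG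
  let alg : ∀ i, Algebra (K i) L := fun i => (f i).toAlgebra
  have hGal : IsGalois ℚ L := ⟨⟩
  have htow : ∀ i, IsScalarTower ℚ (K i) L := fun i => inferInstance
  -- commutativity
  have hcomm : ∀ g g' : L ≃ₐ[ℚ] L, g * g' = g' * g := by
    intro g g'
    have h1 : ((g * g' : L ≃ₐ[ℚ] L) : L →+* L) = ((g' * g : L ≃ₐ[ℚ] L) : L →+* L) := by
      apply hext
      intro i x
      have hni : Normal ℚ (K i) := (hG i).to_normal
      have e1 : ∀ (g : L ≃ₐ[ℚ] L) (y : K i), f i (g.restrictNormal (K i) y) = g (f i y) :=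
        fun g y => AlgEquiv.restrictNormal_commutes g (K i) y
      have e2 := hab i (g.restrictNormal (K i)) (g'.restrictNormal (K i))
      have e3 := congrArg (fun k : K i ≃ₐ[ℚ] K i => f i (k x)) e2
      simp only [AlgEquiv.mul_apply, e1] at e3
      exact e3
    ext x
    exact congrArg (fun k : L →+* L => k x) h1
  -- complex conjugation
  let aL : Algebra L ℂ := j.toAlgebra
  have hj : ∀ x : L, algebraMap L ℂ x = j x := fun x => rfl
  set cj : ℂ ≃ₐ[ℚ] ℂ := Complex.conjAe.restrictScalars ℚ with hcj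
  set c0 : L ≃ₐ[ℚ] L := cj.restrictNormal L with hc0
  have hc : ∀ x : L, j (c0 x) = conj (j x) := fun x =>
    AlgEquiv.restrictNormal_commutes cj L x
  refine ⟨L, fL, nL, alg, (c0 : L →+* L), ⟨?_, ?_⟩, hGal, hcomm⟩
  · intro σ x
    set σ' : L →ₐ[ℚ] ℂ := σ.toRatAlgHom with hσ'
    set g : L ≃ₐ[ℚ] L := σ'.restrictNormal' L with hg
    have hgx : ∀ x : L, j (g x) = σ x := fun x =>
      AlgHom.restrictNormal_commutes σ' L x
    have h2 := congrArg (fun k : L ≃ₐ[ℚ] L => j (k x)) (hcomm c0 g)
    simp only [AlgEquiv.mul_apply] at h2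
    rw [hc, hgx, hgx] at h2
    exact h2
  · intro hid
    obtain ⟨i⟩ := ‹Nonempty I›
    obtain ⟨c, hcc⟩ := hcm i
    apply hcc.ne
    ext x
    have h1 : ∀ y : L, c0 y = y := fun y => congrArg (fun k : L →+* L => k y) hid
    have h2 := hcc.cc (j.comp (f i)) x
    have h3 := hc (f i x)
    rw [h1] at h3
    have h4 : (j.comp (f i)) x = (j.comp (f i)) (c x) := by
      rw [← h2]; exact h3
    exact ((j.comp (f i)).injective h4).symm

end GAM
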