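import Pool.Agent.GAM.StD2

/-!
# GAM: the alternating form in coordinates
-/

set_option autoImplicit false

namespace GAM

open scoped ComplexConjugate

section

variable {K : Type} [Field K] [NumberField K] {c : K →+* K} {S : Type} [Fintype S]
  {φ : S → K →+* ℂ}

theorem CorE_tr (hc : CMF K c) (hφ : CMT K c φ) (t : K) :
    ((Algebra.trace ℚ K t : ℚ) : ℂ) = ∑ s, (φ s t + conj (φ s t)) := by
  let e : S ⊕ S ≃ (K →ₐ[ℚ] ℂ) := (Equiv.ofBijective _ hφ).trans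
    (RingHom.equivRatAlgHom K ℂ)
  have h1 := trace_eq_sum_embeddings (K := ℚ) (L := K) ℂ (x := t)
  have h2 : ∑ σ : K →ₐ[ℚ] ℂ, σ t = ∑ a : S ⊕ S, e a t := (Equiv.sum_comp e fun σ => σ t).symm
  have h3 : (algebraMap ℚ ℂ) (Algebra.trace ℚ K t) = ((Algebra.trace ℚ K t : ℚ) : ℂ) := by
    simp
  rw [← h3, h1, h2, Fintype.sum_sum_type, ← Finset.sum_add_distrib]
  refine Finset.sum_congr rfl fun s _ => ?_
  have h4 : e (Sum.inl s) t = φ s t := rfl
  have h5 : e (Sum.inr s) t = φ s (c t) := rfl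
  rw [h4, h5, ← hc.cc]

theorem CorE_im (hc : CMF K c) {ζ : K} (hζ : c ζ = -ζ) (σ : K →+* ℂ) : (σ ζ).re = 0 := by
  have h1 := hc.cc σ ζ
  rw [hζ, map_neg] at h1
  have h2 := congrArg Complex.re h1
  rw [Complex.conj_re, Complex.neg_re] at h2
  linarith

/-- one block -/
theorem CorE_block (hc : CMF K c) (hφ : CMT K c φ) {ζ : K} (hζ : c ζ = -ζ) {r : S → ℝ}
    (hr : ∀ s, r s ^ 2 = -2 * (φ s ζ).im) (x y : K) :
    ∑ s, ((r s : ℂ) * φ s x * conj ((r s : ℂ) * φ s y)).im =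
      ((Algebra.trace ℚ K (ζ * (x * c y)) : ℚ) : ℝ) := by
  have h1 := congrArg Complex.re (CorE_tr hc hφ (ζ * (x * c y)))
  rw [Complex.re_sum] at h1
  have h2 : (((Algebra.trace ℚ K (ζ * (x * c y)) : ℚ) : ℂ)).re =
      ((Algebra.trace ℚ K (ζ * (x * c y)) : ℚ) : ℝ) := by
    rw [← Complex.ofReal_ratCast, Complex.ofReal_re]
  rw [← h2, h1]
  refine Finset.sum_congr rfl fun s _ => ?_
  have h3 : conj (φ s y) = φ s (c y) := hc.cc (φ s) y
  have h4 := CorE_im hc hζ (φ s)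
  have h5 : (r s : ℂ) * φ s x * conj ((r s : ℂ) * φ s y) =
      ((r s ^ 2 : ℝ) : ℂ) * φ s (x * c y) := by
    rw [map_mul, map_mul, Complex.conj_ofReal, h3]
    push_cast
    ring
  rw [h5, Complex.im_ofReal_mul, hr]
  rw [Complex.add_re, Complex.conj_re, map_mul (φ s) ζ, Complex.mul_re, h4]
  ring

end

theorem thm_CorE : St_CorE := by
  intro K _ _ c S _ _ φ φ' ζ₁ ζ₂ r hc hφ hφ' h1 h2 hr hr' x y
  have a1 := CorE_block hc hφ h1 hr x.1 y.1
  have a2 := CorE_block hc hφ' h2 hr' x.2 y.2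
  rw [map_add, Rat.cast_add, ← a1, ← a2, ← Finset.sum_add_distrib]
  unfold E H
  rw [sum_prod_two, Complex.im_sum]
  refine Finset.sum_congr rfl fun s _ => ?_
  rw [Complex.add_im]
  simp [coor]

end GAM
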