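import Pool.Agent.GAM.StD2

set_option autoImplicit false
set_option linter.unusedSimpArgs false

namespace GAM

open scoped ComplexConjugate

theorem CorG_cc {K : Type} [Field K] [NumberField K] {c : K →+* K} (h : CMF K c) (x : K) :
    c (c x) = x := by
  obtain ⟨σ⟩ : Nonempty (K →+* ℂ) := inferInstance
  apply σ.injective
  rw [← h.cc σ (c x), ← h.cc σ x, Complex.conj_conj]

theorem CorG_coor0 {S : Type} {K : Type} [Field K] (r : S × Fin 2 → ℝ)
    (φ φ' : S → K →+* ℂ) (x : K × K) (s : S) :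
    coor r φ φ' x (s, 0) = (r (s, 0) : ℂ) * φ s x.1 := by
  simp [coor]

theorem CorG_coor1 {S : Type} {K : Type} [Field K] (r : S × Fin 2 → ℝ)
    (φ φ' : S → K →+* ℂ) (x : K × K) (s : S) :
    coor r φ φ' x (s, 1) = (r (s, 1) : ℂ) * φ' s x.2 := by
  simp [coor]

theorem thm_CorG : St_CorG := by
  intro K _ _ c S _ _ φ φ' κ v w r ε hc hvw hφ' hκ him hneg hκ0 hr hr1 hn
  have hcc := CorG_cc hc
  have hconj : ∀ s x, conj (φ s x) = φ s (c x) := fun s x => hc.cc (φ s) x
  -- the value of κ
  have hκr : ∀ s, φ s κ = ((φ s κ).re : ℂ) := fun s => by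
    apply Complex.ext
    · simp
    · simp [him s]
  have hκne : ∀ s, (φ s κ).re ≠ 0 := by
    intro s h
    apply hκ0
    apply (φ s).injective
    rw [hκr s, h, map_zero, Complex.ofReal_zero]
  have hsq : ∀ s, ((Real.sqrt |(φ s κ).re| : ℝ) : ℂ) * ((Real.sqrt |(φ s κ).re| : ℝ) : ℂ) =
      ((|(φ s κ).re| : ℝ) : ℂ) := fun s => by
    rw [← Complex.ofReal_mul, Real.mul_self_sqrt (abs_nonneg _)]
  have hr1' : ∀ s, r (s, 1) = Real.sqrt |(φ s κ).re| * r (s, 0) := by
    intro s
    have h1 : 0 < r (s, 1) := hr _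
    have h2 : 0 ≤ Real.sqrt |(φ s κ).re| * r (s, 0) := by
      have := hr (s, 0)
      positivity
    have h3 : r (s, 1) ^ 2 = (Real.sqrt |(φ s κ).re| * r (s, 0)) ^ 2 := by
      rw [hr1 s, mul_pow, Real.sq_sqrt (abs_nonneg _)]
    exact (pow_left_inj₀ h1.le h2 two_ne_zero).mp h3
  have hmem : ∀ s, (s = v ∨ s = w) → (((|(φ s κ).re| : ℝ) : ℂ)) = - φ s κ := by
    intro s hs
    have h1 := (hneg s).mpr hs
    rw [abs_of_neg h1, Complex.ofReal_neg, ← hκr s]
  have hnmem : ∀ s, ¬ (s = v ∨ s = w) → (((|(φ s κ).re| : ℝ) : ℂ)) = φ s κ := by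
    intro s hs
    have h1 : ¬ (φ s κ).re < 0 := fun h => hs ((hneg s).mp h)
    rw [abs_of_nonneg (not_lt.mp h1), ← hκr s]
  refine ⟨⟨fun s => φ s ε.1, fun s => (Real.sqrt |(φ s κ).re| : ℝ) * φ s ε.2, fun s => ?_⟩,
    fun s => rfl, fun s => rfl, fun x => ?_⟩
  · have h1 : φ s (nrd c κ ε) = 1 := by rw [hn, map_one]
    simp only [nrd, map_add, map_mul] at h1
    simp only [map_mul, Complex.conj_ofReal, hconj]
    have h2 := hsq s
    by_cases hs : s = v ∨ s = w
    · rw [eps_of_mem hs]
      rw [hmem s hs] at h2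
      linear_combination h1 - (φ s ε.2 * φ s (c ε.2)) * h2
    · rw [eps_of_not_mem hs]
      rw [hnmem s hs] at h2
      linear_combination h1 + (φ s ε.2 * φ s (c ε.2)) * h2
  · ext ⟨s, i⟩
    have h2 := hsq s
    by_cases hs : s = v ∨ s = w
    · have hf : φ' s = (φ s).comp c := by
        rw [hφ']
        rcases hs with rfl | rfl
        · simp [flip, hvw]
        · simp [flip, hvw.symm]
      rw [hmem s hs] at h2
      fin_cases i
      · simp only [Fin.zero_eta, act_v0 _ _ hs]
        simp only [CorG_coor0, CorG_coor1, tw, hf,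
          RingHom.comp_apply, hr1', map_mul, map_add, map_sub, Complex.conj_ofReal,
          hconj, hcc, Complex.ofReal_mul]
        linear_combination (φ s (c ε.2) * φ s x.2 * (r (s, 0) : ℂ)) * h2
      · simp only [Fin.mk_one, act_v1 _ _ hs]
        simp only [CorG_coor0, CorG_coor1, tw, hf,
          RingHom.comp_apply, hr1', map_mul, map_add, map_sub, Complex.conj_ofReal,
          hconj, hcc, Complex.ofReal_mul]
        ring
    · have hf : φ' s = φ s := by
        rw [hφ']
        push Not at hs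
        simp [flip, hs.1, hs.2]
      rw [hnmem s hs] at h2
      fin_cases i
      · simp only [Fin.zero_eta, act_u0 _ _ hs]
        simp only [CorG_coor0, CorG_coor1, tw, hf,
          RingHom.comp_apply, hr1', map_mul, map_add, map_sub, Complex.conj_ofReal,
          hconj, hcc, Complex.ofReal_mul]
        linear_combination (-(φ s (c ε.2) * φ s x.2 * (r (s, 0) : ℂ))) * h2
      · simp only [Fin.mk_one, act_u1 _ _ hs]
        simp only [CorG_coor0, CorG_coor1, tw, hf,
          RingHom.comp_apply, hr1', map_mul, map_add, map_sub, Complex.conj_ofReal,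
          hconj, hcc, Complex.ofReal_mul]
        ring

end GAM
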