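import Pool.Agent.GAM.SieR
import Pool.Agent.GAM.Hol

/-!
# GAM [Core]: the exchange theorem, analytic form
-/

set_option autoImplicit false

namespace GAM

open scoped ComplexConjugate

lemma Core_eval {κ : Type} (P : MvPolynomial κ ℂ) (f : κ → (Fin 2 → ℂ) → ℂ)
    (hf : ∀ i, DifferentiableOn ℂ (f i) D2) :
    DifferentiableOn ℂ (fun z => MvPolynomial.eval (fun i => f i z) P) D2 := by
  induction P using MvPolynomial.induction_on with
  | C a => simp only [MvPolynomial.eval_C]; exact differentiableOn_const a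
  | add p q hp hq => simp only [map_add]; exact hp.fun_add hq
  | mul_X p i hp => simp only [map_mul, MvPolynomial.eval_X]; exact hp.fun_mul (hf i)

lemma Core_hom {κ : Type} [Fintype κ] {P : MvPolynomial κ ℂ} {m : ℕ} (hP : P.IsHomogeneous m)
    (c : ℂ) (x y : κ → ℂ) (hxy : ∀ i, x i = c * y i) :
    MvPolynomial.eval x P = c ^ m * MvPolynomial.eval y P := by
  classical
  rw [MvPolynomial.eval_eq', MvPolynomial.eval_eq', Finset.mul_sum]
  refine Finset.sum_congr rfl fun d hd => ?_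
  have h1 : ∑ i, d i = m := by
    have h2 := hP (MvPolynomial.mem_support_iff.1 hd)
    rw [← h2, Finsupp.weight_apply, Finsupp.sum_fintype _ _ (by simp)]
    simp
  simp only [hxy, mul_pow]
  rw [Finset.prod_mul_distrib, Finset.prod_pow_eq_pow_sum, h1]
  ring

lemma Core_mon {κ : Type} [Fintype κ] {P : MvPolynomial κ ℂ} {m : ℕ} (hP : P.IsHomogeneous m)
    (δ : Derivation ℚ ℂ ℂ) (c : ℂ) (x y : κ → ℂ) (hxy : ∀ i, x i = c * y i) :
    (∑ d ∈ P.support, δ (P.coeff d) * MvPolynomial.eval x (MvPolynomial.monomial d 1)) =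
      c ^ m * ∑ d ∈ P.support, δ (P.coeff d) *
        MvPolynomial.eval y (MvPolynomial.monomial d 1) := by
  classical
  rw [Finset.mul_sum]
  refine Finset.sum_congr rfl fun d hd => ?_
  have h1 : ∑ i, d i = m := by
    have h2 := hP (MvPolynomial.mem_support_iff.1 hd)
    rw [← h2, Finsupp.weight_apply, Finsupp.sum_fintype _ _ (by simp)]
    simp
  have h3 : MvPolynomial.eval x (MvPolynomial.monomial d (1 : ℂ)) =
      c ^ m * MvPolynomial.eval y (MvPolynomial.monomial d 1) := by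
    rw [MvPolynomial.eval_monomial, MvPolynomial.eval_monomial, Finsupp.prod_fintype _ _ (by simp),
      Finsupp.prod_fintype _ _ (by simp)]
    simp only [hxy, mul_pow]
    rw [Finset.prod_mul_distrib, Finset.prod_pow_eq_pow_sum, h1]
    ring
  rw [h3]
  ring

lemma Core_hom3 {P : MvPolynomial (Fin 4) ℂ} {m : ℕ} (hP : P.IsHomogeneous m)
    (c : ℂ) (x y : Fin 4 → ℂ) (hxy : ∀ i, x i = c * y i) :
    x 3 * MvPolynomial.eval x (MvPolynomial.pderiv 3 P) =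
      c ^ m * (y 3 * MvPolynomial.eval y (MvPolynomial.pderiv 3 P)) := by
  have h1 : (MvPolynomial.X 3 * MvPolynomial.pderiv 3 P : MvPolynomial (Fin 4) ℂ).IsHomogeneous
      m := by
    rcases Nat.eq_zero_or_pos m with rfl | hm
    · have h2 : P.totalDegree = 0 := Nat.le_zero.1 hP.totalDegree_le
      have h3 := MvPolynomial.totalDegree_eq_zero_iff_eq_C.1 h2
      rw [h3, MvPolynomial.pderiv_C, mul_zero]
      exact MvPolynomial.isHomogeneous_zero _ _ _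
    · have h2 := (MvPolynomial.isHomogeneous_X ℂ (3 : Fin 4)).mul (hP.pderiv (i := 3))
      rwa [Nat.add_sub_cancel' hm] at h2
  have h2 := Core_hom h1 c x y hxy
  rw [map_mul, map_mul, MvPolynomial.eval_X, MvPolynomial.eval_X] at h2
  exact h2

lemma Core_F4 {S : Type} [Fintype S] [DecidableEq S] {v w : S} (u : S) (g : GG v w)
    {θ₀ θ₁ : (S × Fin 2 → ℂ) → ℂ} {z : Fin 2 → ℂ} {j : ℂ}
    (h1 : ∀ x, psi v w θ₀ (mob g z) (act g x) = j * psi v w θ₁ z x)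
    (h2 : ∀ x x', wedge v w u θ₀ (mob g z) (act g x) (act g x') = j ^ 2 * wedge v w u θ₁ z x x')
    (x x' : S × Fin 2 → ℂ) (y : Fin 3 → S × Fin 2 → ℂ) (i : Fin 4) :
    F4 v w u θ₀ x x' y i (mob g z) = j ^ 2 * F4 v w u θ₁ (act (ginv g) x) (act (ginv g) x')
      (fun i => act (ginv g) (y i)) i z := by
  have h3 : ∀ x, psi v w θ₀ (mob g z) x = j * psi v w θ₁ z (act (ginv g) x) := by
    intro x
    rw [← h1, act_ginv]
  unfold F4
  split_ifs
  · rw [h3]; ring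
  · rw [h3, h3 (y 1)]; ring
  · rw [h3, h3 (y 2)]; ring
  · rw [← h2, act_ginv, act_ginv]

theorem thm_Core (h1 : St_Pts) (h2 : St_Rel) (h3 : St_DelF) (h4 : St_DelPD) (h5 : St_Equi)
    (h6 : St_Ell) (h7 : St_GroF) : St_Core := by
  intro S _ _ u v w g δ L₀ L₁ χ₀ θ₀ χ₁ θ₁ A₀ A₁ k₀ k₁ huv huw hvw hL₀ hL₁ hθ₀ hθ₁ hn₀ hn₁ hM hC
    hE₀ hE₁
  obtain ⟨x, x', y, hx, hx', hy, hwedge, hpsi, hdet⟩ := h1 S u v w L₀ χ₀ θ₀ huv huw hvw hL₀ hθ₀ hn₀
  obtain ⟨m, P, hPm, hP, z₁, hz₁, hPz₁⟩ := h2 S u v w L₀ χ₀ θ₀ x x' y huv huw hvw hL₀ hθ₀ hn₀ hC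
    hx hx' hy hpsi hdet
  obtain ⟨B₀, hB₀⟩ := h3 S u v w δ L₀ χ₀ θ₀ A₀ k₀ huv huw hvw hL₀ hθ₀ hE₀
  obtain ⟨B₁, hB₁⟩ := h3 S u v w δ L₁ χ₁ θ₁ A₁ k₁ huv huw hvw hL₁ hθ₁ hE₁
  set f₀ : Fin 4 → (Fin 2 → ℂ) → ℂ := F4 v w u θ₀ x x' y with hf₀
  set f₁ : Fin 4 → (Fin 2 → ℂ) → ℂ := F4 v w u θ₁ (act (ginv g) x) (act (ginv g) x')
    (fun i => act (ginv g) (y i)) with hf₁
  have hj : ∀ z ∈ D2, ∃ j : ℂ, j ≠ 0 ∧ ∀ i, f₀ i (mob g z) = j * f₁ i z := by
    intro z hz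
    obtain ⟨_, j, hj0, hj1, hj2⟩ := h5 S u v w g L₀ L₁ χ₀ θ₀ χ₁ θ₁ huv huw hvw hL₀ hL₁ hθ₀ hθ₁
      hn₀ hn₁ hM z hz
    exact ⟨j ^ 2, pow_ne_zero 2 hj0, fun i => Core_F4 u g hj1 hj2 x x' y i⟩
  have hP1 : ∀ z ∈ D2, MvPolynomial.eval (fun i => f₁ i z) P = 0 := by
    intro z hz
    obtain ⟨j, hj0, hj1⟩ := hj z hz
    have h8 := hP (mob g z) (mob_mem g hz)
    rw [Core_hom hPm j _ (fun i => f₁ i z) hj1] at h8
    exact (mul_eq_zero.1 h8).resolve_left (pow_ne_zero m hj0)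
  have hd₀ := h4 δ f₀ B₀ (2 * k₀) (A₀ (u, 0) + A₀ (u, 1)) m P hPm (hB₀ x x' y hx hx' hy) hP
  have hd₁ := h4 δ f₁ B₁ (2 * k₁) (A₁ (u, 0) + A₁ (u, 1)) m P hPm
    (hB₁ _ _ _ (hx.act hM.inv) (hx'.act hM.inv) (fun i => (hy i).act hM.inv)) hP1
  by_contra hne
  have hR1 : ∀ z ∈ D2, f₁ 3 z * MvPolynomial.eval (fun i => f₁ i z) (MvPolynomial.pderiv 3 P)
      = 0 := by
    intro z hz
    obtain ⟨j, hj0, hj1⟩ := hj z hz
    have h8 := hd₀ (mob g z) (mob_mem g hz)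
    rw [Core_mon hPm δ j _ (fun i => f₁ i z) hj1, Core_hom3 hPm j _ (fun i => f₁ i z) hj1] at h8
    have h9 := hd₁ z hz
    have h10 : j ^ m * ((A₀ (u, 0) + A₀ (u, 1) - (A₁ (u, 0) + A₁ (u, 1))) *
        (f₁ 3 z * MvPolynomial.eval (fun i => f₁ i z) (MvPolynomial.pderiv 3 P))) = 0 := by
      linear_combination h8 - j ^ m * h9
    rcases mul_eq_zero.1 h10 with h11 | h11
    · exact absurd h11 (pow_ne_zero m hj0)
    · exact (mul_eq_zero.1 h11).resolve_left (sub_ne_zero.2 hne)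
  have hR0 : ∀ z ∈ D2, f₀ 3 z * MvPolynomial.eval (fun i => f₀ i z) (MvPolynomial.pderiv 3 P)
      = 0 := by
    intro z hz
    have hz' := mob_mem (ginv g) hz
    obtain ⟨j, hj0, hj1⟩ := hj _ hz'
    rw [mob_mob_ginv g hz] at hj1
    rw [Core_hom3 hPm j _ (fun i => f₁ i (mob (ginv g) z)) hj1, hR1 _ hz', mul_zero]
  have hhol : ∀ i, DifferentiableOn ℂ (f₀ i) D2 := fun i =>
    SieR_F4 h6 h7 hvw hL₀ hθ₀ u x x' y i
  have hGd := Core_eval (MvPolynomial.pderiv 3 P) f₀ hhol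
  have hGa := analyticOnNhd_of_differentiableOn isOpen_D2 hGd
  have h30 : f₀ 3 0 ≠ 0 := by
    have : f₀ 3 0 = wedge v w u θ₀ 0 x x' := by
      rw [hf₀]
      unfold F4
      rw [if_neg (by decide), if_neg (by decide), if_neg (by decide)]
    rw [this]
    exact hwedge
  have hc3 : ContinuousAt (f₀ 3) 0 :=
    ((hhol 3).continuousOn).continuousAt (isOpen_D2.mem_nhds zero_mem_D2)
  have hev : (fun z => MvPolynomial.eval (fun i => f₀ i z) (MvPolynomial.pderiv 3 P)) =ᶠ[nhds 0]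
      0 := by
    filter_upwards [hc3.eventually_ne h30, isOpen_D2.mem_nhds zero_mem_D2] with z hz1 hz2
    exact (mul_eq_zero.1 (hR0 z hz2)).resolve_left hz1
  exact hPz₁ (hGa.eqOn_zero_of_preconnected_of_eventuallyEq_zero isPreconnected_D2 zero_mem_D2 hev
    hz₁)

end GAM
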