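import Pool.Agent.GAM.StC

/-!
# GAM module Cube: a function on the cube with all square relations is affine
-/

set_option autoImplicit false

namespace GAM

theorem thm_Cube : St_Cube := by
  intro S _ _ F hF
  have step : ∀ (J : Finset S) (v : S), v ∉ J → F (insert v J) - F J = F {v} - F ∅ := by
    intro J
    induction J using Finset.induction with
    | empty => intro v _; simp
    | insert w J hw ih =>
      intro v hv
      rw [Finset.mem_insert, not_or] at hv
      have h1 := hF J v w hv.1 hv.2 hw
      have h2 := ih v hv.2
      linear_combination h1 + h2
  refine ⟨fun v => F {v} - F ∅, ?_⟩
  intro J
  induction J using Finset.induction with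
  | empty => simp
  | insert w J hw ih =>
    rw [Finset.sum_insert hw]
    have h1 := step J w hw
    linear_combination h1 + ih

end GAM
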