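import Pool.Agent.GAM.StD
import Pool.Agent.GAM.Hol

/-!
# GAM [DelDR]: rules for derivatives by `δ` on the bidisc
-/

set_option autoImplicit false
set_option linter.unusedSectionVars false

namespace GAM

open scoped ComplexConjugate Topology
open Filter

section gen

variable {ι : Type} [Fintype ι] [DecidableEq ι]

theorem DelDR_pdl_nil (f : (ι → ℂ) → ℂ) : pdl [] f = f := rfl

theorem DelDR_pdl_snoc (l : List ι) (j : ι) (f : (ι → ℂ) → ℂ) :
    pdl (l ++ [j]) f = pdl l (pd j f) := by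
  unfold pdl
  rw [List.foldr_append]
  rfl

theorem DelDR_pdl_cons (l : List ι) (j : ι) (f : (ι → ℂ) → ℂ) :
    pdl (j :: l) f = pd j (pdl l f) := rfl

theorem DelDR_pd_congr {f g : (ι → ℂ) → ℂ} {x : ι → ℂ} (h : f =ᶠ[𝓝 x] g) (j : ι) :
    pd j f =ᶠ[𝓝 x] pd j g := by
  filter_upwards [h.fderiv (𝕜 := ℂ)] with y hy
  unfold pd
  rw [hy]

theorem DelDR_pdl_congr {f g : (ι → ℂ) → ℂ} {x : ι → ℂ} (h : f =ᶠ[𝓝 x] g) (l : List ι) :
    pdl l f =ᶠ[𝓝 x] pdl l g := by
  induction l with
  | nil => exact h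
  | cons j l ih => exact DelDR_pd_congr ih j

theorem DelDR_pd_hol {U : Set (ι → ℂ)} (hU : IsOpen U) {f : (ι → ℂ) → ℂ}
    (hf : DifferentiableOn ℂ f U) (j : ι) : DifferentiableOn ℂ (pd j f) U := by
  have h1 : DifferentiableOn ℂ (fderiv ℂ f) U :=
    (analyticOnNhd_of_differentiableOn hU hf).fderiv.differentiableOn
  exact h1.clm_apply (differentiableOn_const _)

theorem DelDR_pdl_hol {U : Set (ι → ℂ)} (hU : IsOpen U) {f : (ι → ℂ) → ℂ}
    (hf : DifferentiableOn ℂ f U) (l : List ι) : DifferentiableOn ℂ (pdl l f) U := by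
  induction l with
  | nil => exact hf
  | cons j l ih => exact DelDR_pd_hol hU ih j

theorem DelDR_pd_add {U : Set (ι → ℂ)} (hU : IsOpen U) {f g : (ι → ℂ) → ℂ}
    (hf : DifferentiableOn ℂ f U) (hg : DifferentiableOn ℂ g U) {x : ι → ℂ} (hx : x ∈ U)
    (j : ι) : pd j (fun v => f v + g v) x = pd j f x + pd j g x := by
  have h1 := (hf x hx).differentiableAt (hU.mem_nhds hx)
  have h2 := (hg x hx).differentiableAt (hU.mem_nhds hx)
  unfold pd
  rw [fderiv_fun_add h1 h2]
  rfl

theorem DelDR_pd_const_mul {U : Set (ι → ℂ)} (hU : IsOpen U) {f : (ι → ℂ) → ℂ}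
    (hf : DifferentiableOn ℂ f U) {x : ι → ℂ} (hx : x ∈ U)
    (c : ℂ) (j : ι) : pd j (fun v => c * f v) x = c * pd j f x := by
  have h1 := (hf x hx).differentiableAt (hU.mem_nhds hx)
  unfold pd
  rw [fderiv_const_mul h1]
  rfl

theorem DelDR_pd_mul {U : Set (ι → ℂ)} (hU : IsOpen U) {f g : (ι → ℂ) → ℂ}
    (hf : DifferentiableOn ℂ f U) (hg : DifferentiableOn ℂ g U) {x : ι → ℂ} (hx : x ∈ U)
    (j : ι) : pd j (fun v => f v * g v) x = pd j f x * g x + f x * pd j g x := by
  have h1 := (hf x hx).differentiableAt (hU.mem_nhds hx)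
  have h2 := (hg x hx).differentiableAt (hU.mem_nhds hx)
  unfold pd
  rw [fderiv_fun_mul h1 h2]
  simp only [add_apply, smul_apply, smul_eq_mul]
  ring

theorem DelDR_pdl_add {U : Set (ι → ℂ)} (hU : IsOpen U) (l : List ι) :
    ∀ {f g : (ι → ℂ) → ℂ}, DifferentiableOn ℂ f U → DifferentiableOn ℂ g U →
    ∀ x ∈ U, pdl l (fun v => f v + g v) x = pdl l f x + pdl l g x := by
  induction l with
  | nil => intro f g _ _ x _; rfl
  | cons j l ih =>
    intro f g hf hg x hx
    rw [DelDR_pdl_cons, DelDR_pdl_cons, DelDR_pdl_cons]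
    have h1 : pdl l (fun v => f v + g v) =ᶠ[𝓝 x] fun v => pdl l f v + pdl l g v := by
      filter_upwards [hU.mem_nhds hx] with y hy using ih hf hg y hy
    rw [(DelDR_pd_congr h1 j).eq_of_nhds]
    exact DelDR_pd_add hU (DelDR_pdl_hol hU hf l) (DelDR_pdl_hol hU hg l) hx j

theorem DelDR_pdl_const_mul {U : Set (ι → ℂ)} (hU : IsOpen U) (c : ℂ) (l : List ι) :
    ∀ {f : (ι → ℂ) → ℂ}, DifferentiableOn ℂ f U →
    ∀ x ∈ U, pdl l (fun v => c * f v) x = c * pdl l f x := by
  induction l with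
  | nil => intro f _ x _; rfl
  | cons j l ih =>
    intro f hf x hx
    rw [DelDR_pdl_cons, DelDR_pdl_cons]
    have h1 : pdl l (fun v => c * f v) =ᶠ[𝓝 x] fun v => c * pdl l f v := by
      filter_upwards [hU.mem_nhds hx] with y hy using ih hf y hy
    rw [(DelDR_pd_congr h1 j).eq_of_nhds]
    exact DelDR_pd_const_mul hU (DelDR_pdl_hol hU hf l) hx c j

theorem DelDR_pdl_sum {U : Set (ι → ℂ)} (hU : IsOpen U) (l : List ι) {κ : Type}
    (s : Finset κ) {f : κ → (ι → ℂ) → ℂ} (hf : ∀ k, DifferentiableOn ℂ (f k) U) :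
    ∀ x ∈ U, pdl l (fun v => ∑ k ∈ s, f k v) x = ∑ k ∈ s, pdl l (f k) x := by
  classical
  induction s using Finset.induction_on with
  | empty =>
    intro x hx
    simp only [Finset.sum_empty]
    have h1 := DelDR_pdl_const_mul hU 0 l (f := fun _ => (0 : ℂ)) (differentiableOn_const _) x hx
    simp only [zero_mul] at h1
    exact h1
  | insert k s hk ih =>
    intro x hx
    simp only [Finset.sum_insert hk]
    rw [DelDR_pdl_add hU l (hf k) (DifferentiableOn.fun_sum fun i _ => hf i) x hx, ih x hx]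

theorem DelDR_pdl_const (c : ℂ) (l : List ι) (hl : l ≠ []) (x : ι → ℂ) :
    pdl l (fun _ : ι → ℂ => c) x = 0 := by
  obtain ⟨l', j, rfl⟩ : ∃ l' j, l = l' ++ [j] :=
    ⟨l.dropLast, l.getLast hl, (List.dropLast_append_getLast hl).symm⟩
  rw [DelDR_pdl_snoc]
  have h1 : pd j (fun _ : ι → ℂ => c) = fun _ => 0 := by
    funext y
    unfold pd
    simp
  rw [h1]
  have h2 := DelDR_pdl_const_mul isOpen_univ 0 l' (f := fun _ : ι → ℂ => (0 : ℂ))
    (differentiableOn_const _) x (Set.mem_univ x)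
  simp only [zero_mul] at h2
  exact h2

/-- the product rule for Taylor coefficients -/
theorem DelDR_mul {U : Set (ι → ℂ)} (hU : IsOpen U) (h0 : (0 : ι → ℂ) ∈ U)
    (δ : Derivation ℚ ℂ ℂ) (l : List ι) : ∀ {a a' b b' : (ι → ℂ) → ℂ},
    DifferentiableOn ℂ a U → DifferentiableOn ℂ a' U → DifferentiableOn ℂ b U →
    DifferentiableOn ℂ b' U → (∀ l, pdl l a' 0 = δ (pdl l a 0)) →
    (∀ l, pdl l b' 0 = δ (pdl l b 0)) →
    pdl l (fun v => a' v * b v + a v * b' v) 0 = δ (pdl l (fun v => a v * b v) 0) := by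
  induction l using List.reverseRecOn with
  | nil =>
    intro a a' b b' _ _ _ _ ha hb
    have h1 := ha []
    have h2 := hb []
    rw [DelDR_pdl_nil, DelDR_pdl_nil] at h1 h2
    rw [DelDR_pdl_nil, DelDR_pdl_nil]
    simp only [Derivation.leibniz, smul_eq_mul, h1, h2]
    ring
  | append_singleton l j ih =>
    intro a a' b b' hda hda' hdb hdb' ha hb
    rw [DelDR_pdl_snoc, DelDR_pdl_snoc]
    have pa := DelDR_pd_hol hU hda j
    have pa' := DelDR_pd_hol hU hda' j
    have pb := DelDR_pd_hol hU hdb j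
    have pb' := DelDR_pd_hol hU hdb' j
    have e1 : pd j (fun v => a' v * b v + a v * b' v) =ᶠ[𝓝 0] fun v =>
        (pd j a' v * b v + pd j a v * b' v) + (a' v * pd j b v + a v * pd j b' v) := by
      filter_upwards [hU.mem_nhds h0] with y hy
      have h1 := DelDR_pd_add hU (f := fun v => a' v * b v) (g := fun v => a v * b' v)
        (hda'.mul hdb) (hda.mul hdb') hy j
      rw [h1, DelDR_pd_mul hU hda' hdb hy, DelDR_pd_mul hU hda hdb' hy]
      ring
    have e2 : pd j (fun v => a v * b v) =ᶠ[𝓝 0] fun v => pd j a v * b v + a v * pd j b v := by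
      filter_upwards [hU.mem_nhds h0] with y hy
      rw [DelDR_pd_mul hU hda hdb hy]
    have h1 := DelDR_pdl_add hU l (f := fun v => pd j a' v * b v + pd j a v * b' v)
      (g := fun v => a' v * pd j b v + a v * pd j b' v)
      ((pa'.mul hdb).add (pa.mul hdb')) ((hda'.mul pb).add (hda.mul pb')) 0 h0
    have h2 := DelDR_pdl_add hU l (f := fun v => pd j a v * b v)
      (g := fun v => a v * pd j b v) (pa.mul hdb) (hda.mul pb) 0 h0
    rw [(DelDR_pdl_congr e1 l).eq_of_nhds, (DelDR_pdl_congr e2 l).eq_of_nhds, h1, h2, map_add]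
    have i1 := ih pa pa' hdb hdb' (fun l => by
      rw [← DelDR_pdl_snoc, ← DelDR_pdl_snoc, ha]) hb
    have i2 := ih hda hda' pb pb' ha (fun l => by
      rw [← DelDR_pdl_snoc, ← DelDR_pdl_snoc, hb])
    rw [← i1, ← i2]

/-- a holomorphic function near the origin with vanishing Taylor coefficients vanishes to
infinite order along the lines -/
theorem DelDR_line {U : Set (ι → ℂ)} (hU : IsOpen U) (h0 : (0 : ι → ℂ) ∈ U) (y : ι → ℂ)
    (n : ℕ) : ∀ {h : (ι → ℂ) → ℂ}, DifferentiableOn ℂ h U → (∀ l, pdl l h 0 = 0) →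
    iteratedDeriv n (fun t : ℂ => h (t • y)) 0 = 0 := by
  induction n with
  | zero =>
    intro h _ hl
    have h1 : h 0 = 0 := hl []
    simp [h1]
  | succ n ih =>
    intro h hd hl
    rw [iteratedDeriv_succ']
    have h1 : deriv (fun t : ℂ => h (t • y)) =ᶠ[𝓝 0]
        fun t : ℂ => (fun v => ∑ j, y j * pd j h v) (t • y) := by
      have hc : Continuous fun t : ℂ => t • y := by fun_prop
      have h2 : ∀ᶠ t in 𝓝 (0 : ℂ), t • y ∈ U := by
        apply hc.continuousAt.eventually_mem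
        rw [zero_smul]
        exact hU.mem_nhds h0
      filter_upwards [h2] with t ht
      have h3 : HasFDerivAt h (fderiv ℂ h (t • y)) (t • y) :=
        ((hd _ ht).differentiableAt (hU.mem_nhds ht)).hasFDerivAt
      have h4 : HasDerivAt (fun t : ℂ => t • y) y t := by
        have := (hasDerivAt_id t).smul_const y
        simpa using this
      have h5 : HasDerivAt (fun t : ℂ => h (t • y)) (fderiv ℂ h (t • y) y) t :=
        h3.comp_hasDerivAt t h4
      rw [h5.deriv]
      have h6 : y = ∑ j, y j • (Pi.single j (1 : ℂ) : ι → ℂ) := by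
        funext i
        simp [Finset.sum_apply, Pi.single_apply]
      have h7 : fderiv ℂ h (t • y) y =
          fderiv ℂ h (t • y) (∑ j, y j • (Pi.single j (1 : ℂ) : ι → ℂ)) := by
        rw [← h6]
      rw [h7, map_sum]
      simp only [map_smul, smul_eq_mul]
      rfl
    rw [h1.iteratedDeriv_eq]
    refine ih (DifferentiableOn.fun_sum fun j _ =>
      (DelDR_pd_hol hU hd j).const_mul (y j)) fun l => ?_
    rw [DelDR_pdl_sum hU l Finset.univ (fun j => (DelDR_pd_hol hU hd j).const_mul (y j)) 0 h0]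
    refine Finset.sum_eq_zero fun j _ => ?_
    rw [DelDR_pdl_const_mul hU (y j) l (DelDR_pd_hol hU hd j) 0 h0, ← DelDR_pdl_snoc, hl, mul_zero]

/-- a holomorphic function on the unit ball with vanishing Taylor coefficients vanishes -/
theorem DelDR_zero {h : (ι → ℂ) → ℂ} (hd : DifferentiableOn ℂ h (Metric.ball 0 1))
    (hl : ∀ l, pdl l h 0 = 0) {z : ι → ℂ} (hz : z ∈ Metric.ball (0 : ι → ℂ) 1) : h z = 0 := by
  by_cases hz0 : z = 0
  · rw [hz0]
    exact hl []
  have hn : 0 < ‖z‖ := norm_pos_iff.mpr hz0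
  have hn1 : ‖z‖ < 1 := by simpa using hz
  have h1 : DifferentiableOn ℂ (fun t : ℂ => h (t • z)) (Metric.ball 0 (1 / ‖z‖)) := by
    have h2 : Set.MapsTo (fun t : ℂ => t • z) (Metric.ball 0 (1 / ‖z‖))
        (Metric.ball (0 : ι → ℂ) 1) := by
      intro t ht
      rw [mem_ball_zero_iff] at ht ⊢
      rw [norm_smul]
      rwa [lt_div_iff₀ hn] at ht
    exact hd.comp (by fun_prop) h2
  have h3 := Complex.hasSum_taylorSeries_on_ball h1 (z := 1) (by
    rw [mem_ball_zero_iff, norm_one]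
    rwa [lt_div_iff₀ hn, one_mul])
  have h4 : ∀ n, iteratedDeriv n (fun t : ℂ => h (t • z)) 0 = 0 := fun n =>
    DelDR_line Metric.isOpen_ball (Metric.mem_ball_self one_pos) z n hd hl
  simp only [h4, smul_zero, one_smul] at h3
  exact h3.unique hasSum_zero

end gen

/-! ### the bidisc -/

theorem DelDR_D2 : D2 = Metric.ball (0 : Fin 2 → ℂ) 1 := by
  ext z
  rw [mem_ball_zero_iff, pi_norm_lt_iff one_pos]
  rfl

theorem DelDR_open : IsOpen D2 := by
  rw [DelDR_D2]
  exact Metric.isOpen_ball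

theorem DelDR_mem : (0 : Fin 2 → ℂ) ∈ D2 := by
  rw [DelDR_D2]
  exact Metric.mem_ball_self one_pos

section rules

variable {δ : Derivation ℚ ℂ ℂ}

theorem DelDR_rconst (c : ℂ) : IsDelD δ (fun _ => c) (fun _ => δ c) := by
  refine ⟨differentiableOn_const _, differentiableOn_const _, fun l => ?_⟩
  by_cases hl : l = []
  · subst hl
    rfl
  · rw [DelDR_pdl_const _ _ hl, DelDR_pdl_const _ _ hl, map_zero]

theorem DelDR_radd {a a' b b' : (Fin 2 → ℂ) → ℂ} (ha : IsDelD δ a a') (hb : IsDelD δ b b') :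
    IsDelD δ (fun v => a v + b v) (fun v => a' v + b' v) := by
  refine ⟨ha.hol.add hb.hol, ha.hol'.add hb.hol', fun l => ?_⟩
  rw [DelDR_pdl_add DelDR_open l ha.hol' hb.hol' 0 DelDR_mem,
    DelDR_pdl_add DelDR_open l ha.hol hb.hol 0 DelDR_mem, ha.del, hb.del, map_add]

theorem DelDR_rmul {a a' b b' : (Fin 2 → ℂ) → ℂ} (ha : IsDelD δ a a') (hb : IsDelD δ b b') :
    IsDelD δ (fun v => a v * b v) (fun v => a' v * b v + a v * b' v) :=
  ⟨ha.hol.mul hb.hol, (ha.hol'.mul hb.hol).add (ha.hol.mul hb.hol'), fun l =>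
    DelDR_mul DelDR_open DelDR_mem δ l ha.hol ha.hol' hb.hol hb.hol' ha.del hb.del⟩

/-- equality on the bidisc is enough -/
theorem DelDR_congr {a a' b b' : (Fin 2 → ℂ) → ℂ} (ha : IsDelD δ a a')
    (h1 : ∀ z ∈ D2, a z = b z) (h2 : ∀ z ∈ D2, a' z = b' z) : IsDelD δ b b' := by
  refine ⟨ha.hol.congr fun z hz => (h1 z hz).symm, ha.hol'.congr fun z hz => (h2 z hz).symm,
    fun l => ?_⟩
  have e1 : a =ᶠ[𝓝 0] b := by
    filter_upwards [DelDR_open.mem_nhds DelDR_mem] with z hz using h1 z hz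
  have e2 : a' =ᶠ[𝓝 0] b' := by
    filter_upwards [DelDR_open.mem_nhds DelDR_mem] with z hz using h2 z hz
  rw [← (DelDR_pdl_congr e1 l).eq_of_nhds, ← (DelDR_pdl_congr e2 l).eq_of_nhds]
  exact ha.del l

/-- the polynomial with coefficients `δ c`, evaluated -/
noncomputable def DelDR_q {κ : Type} (δ : Derivation ℚ ℂ ℂ) (P : MvPolynomial κ ℂ)
    (x : κ → ℂ) : ℂ :=
  ∑ m ∈ P.support, δ (P.coeff m) * MvPolynomial.eval x (MvPolynomial.monomial m 1)

theorem DelDR_q_add {κ : Type} (δ : Derivation ℚ ℂ ℂ) (P Q : MvPolynomial κ ℂ)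
    (x : κ → ℂ) : DelDR_q δ (P + Q) x = DelDR_q δ P x + DelDR_q δ Q x := by
  classical
  have h1 : ∀ (R : MvPolynomial κ ℂ) (s : Finset (κ →₀ ℕ)), R.support ⊆ s →
      DelDR_q δ R x = ∑ m ∈ s, δ (R.coeff m) *
        MvPolynomial.eval x (MvPolynomial.monomial m 1) := by
    intro R s hs
    unfold DelDR_q
    apply Finset.sum_subset hs
    intro m _ hm
    rw [MvPolynomial.notMem_support_iff.1 hm]
    simp
  rw [h1 (P + Q) (P.support ∪ Q.support) MvPolynomial.support_add,
    h1 P (P.support ∪ Q.support) Finset.subset_union_left,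
    h1 Q (P.support ∪ Q.support) Finset.subset_union_right, ← Finset.sum_add_distrib]
  refine Finset.sum_congr rfl fun m _ => ?_
  rw [MvPolynomial.coeff_add, map_add, add_mul]

theorem DelDR_q_C {κ : Type} (δ : Derivation ℚ ℂ ℂ) (c : ℂ)
    (x : κ → ℂ) : DelDR_q δ (MvPolynomial.C c) x = δ c := by
  classical
  unfold DelDR_q
  by_cases hc : c = 0
  · subst hc; simp
  · have h1 : (MvPolynomial.C c : MvPolynomial κ ℂ).support = {0} := by
      rw [MvPolynomial.C_apply, MvPolynomial.support_monomial, if_neg hc]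
    rw [h1, Finset.sum_singleton]
    simp

theorem DelDR_q_mul_X {κ : Type} (δ : Derivation ℚ ℂ ℂ) (P : MvPolynomial κ ℂ) (i : κ)
    (x : κ → ℂ) : DelDR_q δ (P * MvPolynomial.X i) x = DelDR_q δ P x * x i := by
  classical
  unfold DelDR_q
  rw [MvPolynomial.support_mul_X, Finset.sum_map, Finset.sum_mul]
  refine Finset.sum_congr rfl fun m _ => ?_
  simp only [addRightEmbedding_apply]
  have h1 : MvPolynomial.coeff (m + Finsupp.single i 1) (P * MvPolynomial.X i) =
      MvPolynomial.coeff m P := MvPolynomial.coeff_mul_X m i P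
  have h2 : (MvPolynomial.monomial (m + Finsupp.single i 1) (1 : ℂ)) =
      MvPolynomial.monomial m 1 * MvPolynomial.X i := by
    rw [MvPolynomial.X, MvPolynomial.monomial_mul, mul_one]
  rw [h1, h2, map_mul, MvPolynomial.eval_X, mul_assoc]

theorem DelDR_rpoly {κ : Type} [Fintype κ] [DecidableEq κ] (P : MvPolynomial κ ℂ)
    {f f' : κ → (Fin 2 → ℂ) → ℂ} (hf : ∀ i, IsDelD δ (f i) (f' i)) :
    IsDelD δ (fun z => MvPolynomial.eval (fun i => f i z) P)
      (fun z => DelDR_q δ P (fun i => f i z) +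
        ∑ i, MvPolynomial.eval (fun i => f i z) (MvPolynomial.pderiv i P) * f' i z) := by
  induction P using MvPolynomial.induction_on with
  | C c =>
    refine DelDR_congr (DelDR_rconst c) (fun v _ => by simp) (fun v _ => ?_)
    rw [DelDR_q_C]
    simp
  | add P Q hP hQ =>
    refine DelDR_congr (DelDR_radd hP hQ) (fun v _ => by simp) (fun v _ => ?_)
    simp only [map_add, add_mul, Finset.sum_add_distrib, DelDR_q_add]
    ring
  | mul_X P i hP =>
    refine DelDR_congr (DelDR_rmul hP (hf i)) (fun v _ => by simp) (fun v _ => ?_)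
    simp only [MvPolynomial.pderiv_mul, map_add, map_mul, MvPolynomial.eval_X, add_mul,
      Finset.sum_add_distrib, DelDR_q_mul_X]
    have h1 : ∑ k, MvPolynomial.eval (fun i => f i v) P *
        MvPolynomial.eval (fun i => f i v) (MvPolynomial.pderiv k (MvPolynomial.X i)) * f' k v =
        MvPolynomial.eval (fun i => f i v) P * f' i v := by
      rw [Finset.sum_eq_single i]
      · simp
      · intro k _ hk
        rw [MvPolynomial.pderiv_X_of_ne (Ne.symm hk)]; simp
      · intro h; exact absurd (Finset.mem_univ _) h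
    have h2 : ∑ k, MvPolynomial.eval (fun i => f i v) (MvPolynomial.pderiv k P) * f i v *
        f' k v =
        (∑ k, MvPolynomial.eval (fun i => f i v) (MvPolynomial.pderiv k P) * f' k v) * f i v := by
      rw [Finset.sum_mul]
      exact Finset.sum_congr rfl fun k _ => by ring
    rw [h1, h2]
    ring

theorem DelDR_runiq {a b b' : (Fin 2 → ℂ) → ℂ} (h : IsDelD δ a b) (h' : IsDelD δ a b') :
    ∀ z ∈ D2, b z = b' z := by
  intro z hz
  have h2 : b z + (-1) * b' z = 0 := by
    refine DelDR_zero (h := fun v => b v + (-1) * b' v) ?_ (fun l => ?_)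
      (by rwa [DelDR_D2] at hz)
    · rw [← DelDR_D2]
      exact h.hol'.add (h'.hol'.const_mul _)
    · have h3 := DelDR_pdl_add DelDR_open l (f := b) (g := fun v => (-1) * b' v) h.hol'
        (h'.hol'.const_mul _) 0 DelDR_mem
      have h4 := DelDR_pdl_const_mul DelDR_open (-1) l h'.hol' 0 DelDR_mem
      rw [h3, h4, h.del, h'.del]
      ring
  linear_combination h2

end rules

theorem thm_DelDR : St_DelDR := by
  intro δ
  exact ⟨DelDR_rconst, fun a a' b b' ha hb => DelDR_radd ha hb,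
    fun a a' b b' ha hb => DelDR_rmul ha hb, fun κ _ _ P f f' hf => DelDR_rpoly P hf,
    fun a b b' h h' => DelDR_runiq h h'⟩

end GAM
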