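import Pool.Agent.GAM.FCalc

/-!
# GAM [DelEx] existence of `δ F_x`
-/

set_option autoImplicit false

namespace GAM

open scoped ComplexConjugate

variable {ι : Type} [Fintype ι]

theorem DelEx_common {κ : Type} [Fintype κ] {L : Submodule ℤ (ι → ℂ)} (y : κ → ι → ℂ)
    (h : ∀ k, OddTor L (y k)) : ∃ N : ℕ, Odd N ∧ ∀ k, (N : ℤ) • y k ∈ L := by
  classical
  choose n hn1 hn2 using h
  refine ⟨∏ k, n k, ?_, fun k => ?_⟩
  · exact Finset.prod_induction _ Odd (fun _ _ => Odd.mul) odd_one (fun k _ => hn1 k)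
  · have h1 : (∏ k, n k) = (∏ j ∈ Finset.univ.erase k, n j) * n k :=
      (Finset.prod_erase_mul _ _ (Finset.mem_univ k)).symm
    rw [h1]
    push_cast
    rw [mul_smul]
    exact L.smul_mem _ (hn2 k)

theorem DelEx_rep {L : Submodule ℤ (ι → ℂ)} (hL : IsLat L) {N : ℕ} (hN : 0 < N) :
    ∃ (R : Type) (_ : Fintype R) (pt : R → ι → ℂ), (∀ r, (N : ℤ) • pt r ∈ L) ∧
      ∀ y, (N : ℤ) • y ∈ L → ∃ r, ∃ l ∈ L, y = pt r + l := by
  classical
  obtain ⟨b, hb⟩ := hL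
  have hN' : (N : ℝ) ≠ 0 := by exact_mod_cast hN.ne'
  have hNs : ∀ z : ι → ℂ, (N : ℤ) • z = (N : ℝ) • z := by
    intro z
    ext i
    simp
  have hzs : ∀ (n : ℤ) (z : ι → ℂ), n • z = (n : ℝ) • z := by
    intro n z
    ext i
    simp
  refine ⟨(ι ⊕ ι) → Fin N, inferInstance, fun r => (N : ℝ)⁻¹ • ∑ i, ((r i : ℕ) : ℝ) • b i, ?_, ?_⟩
  · intro r
    rw [hNs, smul_smul, mul_inv_cancel₀ hN', one_smul, hb]
    apply Submodule.sum_mem
    intro i _
    have : ((r i : ℕ) : ℝ) • b i = ((r i : ℕ) : ℤ) • b i := by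
      rw [hzs]; simp
    rw [this]
    exact Submodule.smul_mem _ _ (Submodule.subset_span ⟨i, rfl⟩)
  · intro y hy
    rw [hb, Submodule.mem_span_range_iff_exists_fun] at hy
    obtain ⟨c, hc⟩ := hy
    have hNz : (0 : ℤ) < N := by exact_mod_cast hN
    refine ⟨fun i => ⟨(c i % (N : ℤ)).toNat, ?_⟩, ∑ i, (c i / (N : ℤ)) • b i, ?_, ?_⟩
    · have h1 := Int.emod_nonneg (c i) hNz.ne'
      have h2 := Int.emod_lt_of_pos (c i) hNz
      omega
    · rw [hb]
      exact Submodule.sum_mem _ fun i _ =>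
        Submodule.smul_mem _ _ (Submodule.subset_span ⟨i, rfl⟩)
    · have h3 : y = (N : ℝ)⁻¹ • ∑ i, c i • b i := by
        rw [hc, hNs, smul_smul, inv_mul_cancel₀ hN', one_smul]
      simp only
      rw [h3, Finset.smul_sum, Finset.smul_sum, ← Finset.sum_add_distrib]
      apply Finset.sum_congr rfl
      intro i _
      have h1 := Int.emod_nonneg (c i) hNz.ne'
      have h4 : ((c i % (N : ℤ)).toNat : ℝ) = ((c i % (N : ℤ) : ℤ) : ℝ) := by
        have : ((c i % (N : ℤ)).toNat : ℤ) = c i % (N : ℤ) := Int.toNat_of_nonneg h1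
        exact_mod_cast this
      have h5 : (c i : ℝ) = (N : ℝ) * ((c i / (N : ℤ) : ℤ) : ℝ) + ((c i % (N : ℤ) : ℤ) : ℝ) := by
        exact_mod_cast (Int.mul_ediv_add_emod (c i) N).symm
      rw [h4, hzs, hzs, smul_smul, smul_smul, ← add_smul]
      congr 1
      rw [h5]
      field_simp
      ring

theorem thm_DelEx (h1 : St_Dup) (h2 : St_Quar) (h3 : St_DelR) : St_DelEx := by
  intro ι _ _ δ L χ θ hP hT h0 x hx
  classical
  obtain ⟨r, c, d, M, b, hc, hd, hb, hb0, hdup⟩ := h1 ι L χ θ hP hT h0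
  obtain ⟨N1, hN1, hc1⟩ := DelEx_common c hc
  obtain ⟨N2, hN2, hd1⟩ := DelEx_common d hd
  obtain ⟨N3, hN3, hb1⟩ := hb
  obtain ⟨N4, hN4, hx1⟩ := hx
  set N : ℕ := N1 * (N2 * (N3 * N4)) with hN
  have hNodd : Odd N := hN1.mul (hN2.mul (hN3.mul hN4))
  have hNpos : 0 < N := hNodd.pos
  -- the group of `N`-torsion points
  let A : AddSubgroup (ι → ℂ) := L.toAddSubgroup.comap (zsmulAddGroupHom (N : ℤ))
  have hA : ∀ y, y ∈ A ↔ (N : ℤ) • y ∈ L := fun y => Iff.rfl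
  have hcA : ∀ i, c i ∈ A := by
    intro i
    rw [hA, hN]
    have : ((N1 * (N2 * (N3 * N4)) : ℕ) : ℤ) • c i = ((N2 * (N3 * N4) : ℕ) : ℤ) •
        ((N1 : ℤ) • c i) := by
      rw [smul_smul]; congr 1; push_cast; ring
    rw [this]
    exact L.smul_mem _ (hc1 i)
  have hdA : ∀ i, d i ∈ A := by
    intro i
    rw [hA, hN]
    have : ((N1 * (N2 * (N3 * N4)) : ℕ) : ℤ) • d i = ((N1 * (N3 * N4) : ℕ) : ℤ) •
        ((N2 : ℤ) • d i) := by
      rw [smul_smul]; congr 1; push_cast; ring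
    rw [this]
    exact L.smul_mem _ (hd1 i)
  have hbA : b ∈ A := by
    rw [hA, hN]
    have : ((N1 * (N2 * (N3 * N4)) : ℕ) : ℤ) • b = ((N1 * (N2 * N4) : ℕ) : ℤ) •
        ((N3 : ℤ) • b) := by
      rw [smul_smul]; congr 1; push_cast; ring
    rw [this]
    exact L.smul_mem _ hb1
  have hxA : x ∈ A := by
    rw [hA, hN]
    have : ((N1 * (N2 * (N3 * N4)) : ℕ) : ℤ) • x = ((N1 * (N2 * N3) : ℕ) : ℤ) •
        ((N4 : ℤ) • x) := by
      rw [smul_smul]; congr 1; push_cast; ring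
    rw [this]
    exact L.smul_mem _ hx1
  obtain ⟨R, _, pt, hpt, hrep⟩ := DelEx_rep hP.isLat hNpos
  -- representatives
  have hrc : ∀ y : ι → ℂ, ∃ (s : R) (k : ℂ), y ∈ A → ∀ v, F θ y v = k * F θ (pt s) v := by
    intro y
    by_cases hy : y ∈ A
    · obtain ⟨s, l, hl, rfl⟩ := hrep y ((hA y).1 hy)
      exact ⟨s, χ l * Complex.exp (Real.pi * Complex.I * E (pt s) l), fun _ v => F_lat hT hl _ v⟩
    · obtain ⟨s, _, _, _⟩ := hrep 0 (by simp)
      exact ⟨s, 0, fun h => absurd h hy⟩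
  choose rp cst hcst using hrc
  obtain ⟨k, hk⟩ := hNodd
  -- the points `σ`, `ρ`
  let σ : R → ι → ℂ := fun s => ((k + 1 : ℕ) : ℤ) • (pt s + b)
  let ρ : R → ι → ℂ := fun s => pt s - σ s
  have hptA : ∀ s, pt s ∈ A := fun s => (hA _).2 (hpt s)
  have hσA : ∀ s, σ s ∈ A := fun s => A.zsmul_mem (A.add_mem (hptA s) hbA) _
  have hρA : ∀ s, ρ s ∈ A := fun s => A.sub_mem (hptA s) (hσA s)
  have hsum : ∀ s, σ s + ρ s = pt s := fun s => by simp only [ρ]; abel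
  have hdiff : ∀ s, σ s - ρ s = b + (N : ℤ) • (pt s + b) := by
    intro s
    have e1 : (N : ℤ) • (pt s + b) = ((k + 1 : ℕ) : ℤ) • (pt s + b) +
        ((k + 1 : ℕ) : ℤ) • (pt s + b) - (pt s + b) := by
      rw [hk, ← add_smul, sub_eq_add_neg, ← neg_one_zsmul (pt s + b), ← add_smul]
      congr 1
      push_cast
      ring
    rw [e1]
    simp only [ρ, σ]
    abel
  have hne : ∀ s, F θ (σ s - ρ s) 0 ≠ 0 := by
    intro s
    have hl : (N : ℤ) • (pt s + b) ∈ L := (hA _).1 (A.add_mem (hptA s) hbA)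
    rw [hdiff, F_lat hT hl]
    exact mul_ne_zero (mul_ne_zero (hP.chi_ne hl) (Complex.exp_ne_zero _)) hb0
  -- the polynomials
  let G : R → MvPolynomial R ℂ := fun s => MvPolynomial.C (F θ (σ s - ρ s) 0)⁻¹ *
    ∑ i, ∑ j, MvPolynomial.C (M i j) *
      ((MvPolynomial.C (cst (ρ s + d j)) * MvPolynomial.X (rp (ρ s + d j))) *
        (MvPolynomial.C (cst (ρ s - d j)) * MvPolynomial.X (rp (ρ s - d j))) *
        ((MvPolynomial.C (cst (σ s + c i)) * MvPolynomial.X (rp (σ s + c i))) *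
          (MvPolynomial.C (cst (σ s - c i)) * MvPolynomial.X (rp (σ s - c i)))))
  have hG : ∀ s v, F θ (pt s) ((2 : ℂ) • v) =
      MvPolynomial.eval (fun s' => F θ (pt s') v) (G s) := by
    intro s v
    have h5 := hdup (σ s) (ρ s) v
    rw [hsum] at h5
    simp only [G, map_mul, map_sum, MvPolynomial.eval_C, MvPolynomial.eval_X]
    rw [eq_comm, inv_mul_eq_iff_eq_mul₀ (hne s), mul_comm (F θ (σ s - ρ s) 0), h5]
    apply Finset.sum_congr rfl
    intro i _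
    apply Finset.sum_congr rfl
    intro j _
    rw [hcst _ (A.add_mem (hρA s) (hdA j)) v, hcst _ (A.sub_mem (hρA s) (hdA j)) v,
      hcst _ (A.add_mem (hσA s) (hcA i)) v, hcst _ (A.sub_mem (hσA s) (hcA i)) v]
  have hq := h2 ι R δ (fun s => F θ (pt s)) G (fun s => F_diff hT.ent _) hG
  obtain ⟨b', hb'⟩ := hq (rp x)
  refine ⟨fun v => δ (cst x) * F θ (pt (rp x)) v + cst x * b' v, ?_⟩
  have h6 := (h3 ι δ).mul _ _ _ _ ((h3 ι δ).const (cst x)) hb'
  have h7 : F θ x = fun v => cst x * F θ (pt (rp x)) v := by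
    funext v
    exact hcst x hxA v
  rw [h7]
  exact h6

end GAM
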