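import Pool.Agent.GAM.StD2

/-!
# GAM: the action of `δ` on the four functions
-/

set_option autoImplicit false

namespace GAM

open scoped ComplexConjugate

theorem DelF_pdl_congr {f g : (Fin 2 → ℂ) → ℂ} (h : f =ᶠ[nhds 0] g) (l : List (Fin 2)) :
    pdl l f =ᶠ[nhds 0] pdl l g := by
  induction l with
  | nil => exact h
  | cons a l ih =>
    have h1 := ih.fderiv (𝕜 := ℂ)
    refine h1.mono fun z hz => ?_
    change fderiv ℂ (pdl l f) z (Pi.single a 1) = fderiv ℂ (pdl l g) z (Pi.single a 1)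
    rw [hz]

theorem DelF_ev {f g : (Fin 2 → ℂ) → ℂ} (h : ∀ z ∈ D2, f z = g z) : f =ᶠ[nhds 0] g :=
  Filter.mem_of_superset (isOpen_D2.mem_nhds zero_mem_D2) h

theorem DelF_congr {δ : Derivation ℚ ℂ ℂ} {a b a' b' : (Fin 2 → ℂ) → ℂ} (h : IsDelD δ a b)
    (ha : ∀ z ∈ D2, a' z = a z) (hb : ∀ z ∈ D2, b' z = b z) : IsDelD δ a' b' where
  hol := h.hol.congr ha
  hol' := h.hol'.congr hb
  del l := by
    rw [(DelF_pdl_congr (DelF_ev hb) l).eq_of_nhds, (DelF_pdl_congr (DelF_ev ha) l).eq_of_nhds,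
      h.del l]

theorem DelF_diffAt {f : (Fin 2 → ℂ) → ℂ} (h : DifferentiableOn ℂ f D2) {z : Fin 2 → ℂ}
    (hz : z ∈ D2) : DifferentiableAt ℂ f z :=
  h.differentiableAt (isOpen_D2.mem_nhds hz)

theorem DelF_eul_mul (B : Fin 2 → ℂ) {f g : (Fin 2 → ℂ) → ℂ} {z : Fin 2 → ℂ}
    (hf : DifferentiableAt ℂ f z) (hg : DifferentiableAt ℂ g z) :
    eulD B (fun z => f z * g z) z = eulD B f z * g z + f z * eulD B g z := by
  have h1 : ∀ i, pd i (fun z => f z * g z) z = f z * pd i g z + g z * pd i f z := by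
    intro i
    unfold pd
    rw [fderiv_fun_mul hf hg]
    simp
  unfold eulD
  rw [Finset.sum_mul, Finset.mul_sum, ← Finset.sum_add_distrib]
  refine Finset.sum_congr rfl fun i _ => ?_
  rw [h1]
  ring

theorem DelF_eul_sub (B : Fin 2 → ℂ) {f g : (Fin 2 → ℂ) → ℂ} {z : Fin 2 → ℂ}
    (hf : DifferentiableAt ℂ f z) (hg : DifferentiableAt ℂ g z) :
    eulD B (fun z => f z - g z) z = eulD B f z - eulD B g z := by
  have h1 : ∀ i, pd i (fun z => f z - g z) z = pd i f z - pd i g z := by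
    intro i
    unfold pd
    rw [fderiv_fun_sub hf hg]
    simp
  unfold eulD
  rw [← Finset.sum_sub_distrib]
  refine Finset.sum_congr rfl fun i _ => ?_
  rw [h1]
  ring

theorem DelF_mul {δ : Derivation ℚ ℂ ℂ} (hR : DelDRules δ) {B : Fin 2 → ℂ}
    {f g : (Fin 2 → ℂ) → ℂ} {p q r : ℂ} (hf : IsDelD δ f (fun z => p * f z + eulD B f z))
    (hg : IsDelD δ g (fun z => q * g z + eulD B g z)) (hr : r = p + q) :
    IsDelD δ (fun z => f z * g z)
      (fun z => r * (f z * g z) + eulD B (fun z => f z * g z) z) := by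
  refine DelF_congr (hR.mul _ _ _ _ hf hg) (fun z _ => rfl) fun z hz => ?_
  rw [DelF_eul_mul B (DelF_diffAt hf.hol hz) (DelF_diffAt hg.hol hz), hr]
  ring

theorem DelF_sub {δ : Derivation ℚ ℂ ℂ} (hR : DelDRules δ) {B : Fin 2 → ℂ}
    {f g : (Fin 2 → ℂ) → ℂ} {p : ℂ} (hf : IsDelD δ f (fun z => p * f z + eulD B f z))
    (hg : IsDelD δ g (fun z => p * g z + eulD B g z)) :
    IsDelD δ (fun z => f z - g z)
      (fun z => p * (f z - g z) + eulD B (fun z => f z - g z) z) := by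
  have hc := hR.const (-1)
  have h1 := hR.add _ _ _ _ hf (hR.mul _ _ _ _ hc hg)
  have hd : δ (-1 : ℂ) = 0 := by rw [map_neg, Derivation.map_one_eq_zero, neg_zero]
  refine DelF_congr h1 (fun z _ => by ring) fun z hz => ?_
  rw [DelF_eul_sub B (DelF_diffAt hf.hol hz) (DelF_diffAt hg.hol hz), hd]
  ring

theorem thm_DelF (h1 : St_DelPsi) (h2 : St_DelDR) : St_DelF := by
  intro S _ _ u v w δ L χ θ A k huv huw hvw hP hT hE
  obtain ⟨B, hB⟩ := h1 S u v w δ L χ θ A k huv huw hvw hP hT hE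
  have hR := h2 δ
  refine ⟨B, fun x x' y hx hx' hy i => ?_⟩
  have e0 : F4 v w u θ x x' y 0 = fun z => psi v w θ z (y 0) * psi v w θ z (y 0) := by
    funext z
    simp [F4]
  have e1 : F4 v w u θ x x' y 1 = fun z => psi v w θ z (y 0) * psi v w θ z (y 1) := by
    funext z
    simp [F4]
  have e2 : F4 v w u θ x x' y 2 = fun z => psi v w θ z (y 0) * psi v w θ z (y 2) := by
    funext z
    simp [F4]
  have e3 : F4 v w u θ x x' y 3 = fun z => dpsi v w u 0 θ z x * dpsi v w u 1 θ z x' -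
      dpsi v w u 1 θ z x * dpsi v w u 0 θ z x' := by
    funext z
    simp [F4, wedge]
  have hi : i = 0 ∨ i = 1 ∨ i = 2 ∨ i = 3 := by fin_cases i <;> simp
  rcases hi with rfl | rfl | rfl | rfl
  · have c0 : (2 * k + if (0 : Fin 4) = 3 then A (u, 0) + A (u, 1) else 0) = k + k := by
      rw [if_neg (by decide)]; ring
    rw [e0]
    exact DelF_mul hR (hB _ (hy 0)).1 (hB _ (hy 0)).1 c0
  · have c0 : (2 * k + if (1 : Fin 4) = 3 then A (u, 0) + A (u, 1) else 0) = k + k := by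
      rw [if_neg (by decide)]; ring
    rw [e1]
    exact DelF_mul hR (hB _ (hy 0)).1 (hB _ (hy 1)).1 c0
  · have c0 : (2 * k + if (2 : Fin 4) = 3 then A (u, 0) + A (u, 1) else 0) = k + k := by
      rw [if_neg (by decide)]; ring
    rw [e2]
    exact DelF_mul hR (hB _ (hy 0)).1 (hB _ (hy 2)).1 c0
  · rw [e3, if_pos rfl]
    exact DelF_sub hR
      (DelF_mul hR ((hB _ hx).2 0) ((hB _ hx').2 1) (by ring))
      (DelF_mul hR ((hB _ hx).2 1) ((hB _ hx').2 0) (by ring))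

end GAM
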