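import Pool.Agent.GAM.StD2
import Pool.Agent.GAM.DelDR

/-!
# GAM / DelPD: a derivation applied to the relation
-/

set_option autoImplicit false

namespace GAM

open scoped Topology

/-- the chain rule for polynomials -/
theorem DelPD_chain {κ ι : Type} [Fintype κ] [DecidableEq κ] [Fintype ι]
    (f : κ → (ι → ℂ) → ℂ) (z v : ι → ℂ) (hf : ∀ i, DifferentiableAt ℂ (f i) z)
    (P : MvPolynomial κ ℂ) :
    DifferentiableAt ℂ (fun z => MvPolynomial.eval (fun i => f i z) P) z ∧
      fderiv ℂ (fun z => MvPolynomial.eval (fun i => f i z) P) z v =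
      ∑ i, MvPolynomial.eval (fun i => f i z) (MvPolynomial.pderiv i P) *
        fderiv ℂ (f i) z v := by
  induction P using MvPolynomial.induction_on with
  | C c =>
    have h1 : (fun z : ι → ℂ => MvPolynomial.eval (fun i => f i z) (MvPolynomial.C c)) =
        fun _ => c := by
      funext y
      simp
    rw [h1]
    refine ⟨differentiableAt_const c, ?_⟩
    rw [Finset.sum_eq_zero fun i _ => ?_]
    · rw [fderiv_fun_const]
      rfl
    · simp
  | add P Q hP hQ =>
    have h1 : (fun z : ι → ℂ => MvPolynomial.eval (fun i => f i z) (P + Q)) =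
        fun z => MvPolynomial.eval (fun i => f i z) P + MvPolynomial.eval (fun i => f i z) Q := by
      funext y
      simp
    rw [h1]
    refine ⟨hP.1.add hQ.1, ?_⟩
    rw [fderiv_fun_add hP.1 hQ.1, add_apply, hP.2, hQ.2,
      ← Finset.sum_add_distrib]
    refine Finset.sum_congr rfl fun i _ => ?_
    rw [map_add, map_add, add_mul]
  | mul_X P i hP =>
    have h1 : (fun z : ι → ℂ => MvPolynomial.eval (fun i => f i z) (P * MvPolynomial.X i)) =
        fun z => MvPolynomial.eval (fun i => f i z) P * f i z := by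
      funext y
      simp
    rw [h1]
    refine ⟨hP.1.mul (hf i), ?_⟩
    rw [fderiv_fun_mul hP.1 (hf i), add_apply,
      smul_apply, smul_apply, hP.2, smul_eq_mul,
      smul_eq_mul]
    have h4 : MvPolynomial.eval (fun i => f i z) P * fderiv ℂ (f i) z v =
        ∑ k, (if k = i then MvPolynomial.eval (fun i => f i z) P * fderiv ℂ (f k) z v
          else 0) := by
      rw [Finset.sum_ite_eq' Finset.univ i, if_pos (Finset.mem_univ _)]
    rw [h4, Finset.mul_sum, ← Finset.sum_add_distrib]
    refine Finset.sum_congr rfl fun k _ => ?_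
    rw [MvPolynomial.pderiv_mul, map_add, map_mul, map_mul, MvPolynomial.eval_X,
      MvPolynomial.pderiv_X]
    by_cases hk : k = i
    · subst hk
      rw [if_pos rfl, Pi.single_eq_same, map_one]
      ring
    · rw [if_neg hk, Pi.single_eq_of_ne (Ne.symm hk), map_zero]
      ring

theorem thm_DelPD (h1 : St_DelDR) : St_DelPD := by
  intro δ f B k a m P hP hf h0 z hz
  have hr := h1 δ
  have h2 := hr.poly _ P f _ hf
  have h3 : IsDelD δ (fun _ => (0 : ℂ)) (fun z => ∑ m ∈ P.support, δ (P.coeff m) *
      MvPolynomial.eval (fun i => f i z) (MvPolynomial.monomial m 1) +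
      ∑ i, MvPolynomial.eval (fun i => f i z) (MvPolynomial.pderiv i P) *
        ((k + if i = 3 then a else 0) * f i z + eulD B (f i) z)) :=
    DelDR_congr h2 (fun z hz => h0 z hz) fun z hz => rfl
  have h4 := hr.uniq _ _ _ h3 (hr.const 0) z hz
  have hd : ∀ i, DifferentiableAt ℂ (f i) z := fun i =>
    (hf i).hol.differentiableAt (DelDR_open.mem_nhds hz)
  -- the chain rule
  have h5 : ∀ v, ∑ i, MvPolynomial.eval (fun i => f i z) (MvPolynomial.pderiv i P) *
      fderiv ℂ (f i) z v = 0 := by
    intro v
    rw [← (DelPD_chain f z v hd P).2]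
    have h7 : (fun z => MvPolynomial.eval (fun i => f i z) P) =ᶠ[𝓝 z] fun _ => (0 : ℂ) := by
      filter_upwards [DelDR_open.mem_nhds hz] with y hy using h0 y hy
    rw [h7.fderiv_eq, fderiv_fun_const]
    rfl
  have h8 : ∑ i, MvPolynomial.eval (fun i => f i z) (MvPolynomial.pderiv i P) *
      eulD B (f i) z = 0 := by
    unfold eulD
    simp_rw [Finset.mul_sum]
    rw [Finset.sum_comm]
    refine Finset.sum_eq_zero fun j _ => ?_
    have h9 := congrArg (fun t : ℂ => B j * z j * t) (h5 (Pi.single j 1))
    simp only [mul_zero] at h9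
    rw [Finset.mul_sum] at h9
    rw [← h9]
    refine Finset.sum_congr rfl fun i _ => ?_
    unfold pd
    ring
  -- the Euler identity
  have h10 : ∑ i, MvPolynomial.eval (fun i => f i z) (MvPolynomial.pderiv i P) * f i z = 0 := by
    have h11 := congrArg (MvPolynomial.eval fun i => f i z) hP.sum_X_mul_pderiv
    rw [map_sum, map_nsmul, h0 z hz, smul_zero] at h11
    rw [← h11]
    refine Finset.sum_congr rfl fun i _ => ?_
    rw [map_mul, MvPolynomial.eval_X, mul_comm]
  have h12 : ∑ i, MvPolynomial.eval (fun i => f i z) (MvPolynomial.pderiv i P) *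
      ((k + if i = 3 then a else 0) * f i z + eulD B (f i) z) =
      k * ∑ i, MvPolynomial.eval (fun i => f i z) (MvPolynomial.pderiv i P) * f i z +
      ∑ i, (if i = 3 then a * (f i z * MvPolynomial.eval (fun i => f i z)
        (MvPolynomial.pderiv i P)) else 0) +
      ∑ i, MvPolynomial.eval (fun i => f i z) (MvPolynomial.pderiv i P) * eulD B (f i) z := by
    rw [Finset.mul_sum, ← Finset.sum_add_distrib, ← Finset.sum_add_distrib]
    refine Finset.sum_congr rfl fun i _ => ?_
    split_ifs <;> ring
  rw [h12, h10, h8, Finset.sum_ite_eq' Finset.univ (3 : Fin 4), if_pos (Finset.mem_univ _),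
    map_zero, mul_zero, zero_add, add_zero] at h4
  exact h4

end GAM
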