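import Pool.Agent.GAM.StA
import Pool.Agent.Helper8.SVDir
import Pool.Agent.Helper7.Deriv

/-!
# GAM [DelR]
-/

set_option autoImplicit false

namespace GAM

open scoped ComplexConjugate
open Pool.Agent.Helper8 (dds)

section

variable {ι : Type} [Fintype ι] [DecidableEq ι]

theorem DelR_pdl_eq (l : List ι) (f : (ι → ℂ) → ℂ) :
    pdl l f = dds (l.map fun a => (Pi.single a (1 : ℂ) : ι → ℂ)) f := by
  unfold pdl dds
  rw [List.foldr_map]
  rfl

theorem DelR_append (l₁ l₂ : List ι) (f : (ι → ℂ) → ℂ) :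
    pdl (l₁ ++ l₂) f = pdl l₁ (pdl l₂ f) := by
  unfold pdl; rw [List.foldr_append]

theorem DelR_snoc (l : List ι) (j : ι) (f : (ι → ℂ) → ℂ) :
    pdl (l ++ [j]) f = pdl l (pd j f) := by
  rw [DelR_append]; rfl

/-- entire functions are analytic -/
theorem DelR_an (h1 : St_Hol) {κ : Type} [Fintype κ] {f : (κ → ℂ) → ℂ} (hf : Differentiable ℂ f)
    (z : κ → ℂ) : AnalyticAt ℂ f z :=
  h1 κ Set.univ f isOpen_univ hf.differentiableOn z (Set.mem_univ z)

theorem DelR_pd_an {f : (ι → ℂ) → ℂ} (hf : ∀ z, AnalyticAt ℂ f z) (j : ι) (z : ι → ℂ) :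
    AnalyticAt ℂ (pd j f) z := Pool.Agent.Helper8.analyticAt_dd (hf z) _

theorem DelR_pd_diff {f : (ι → ℂ) → ℂ} (hf : ∀ z, AnalyticAt ℂ f z) (j : ι) :
    Differentiable ℂ (pd j f) := fun z => (DelR_pd_an hf j z).differentiableAt

theorem DelR_pdl_add {f g : (ι → ℂ) → ℂ} (hf : ∀ z, AnalyticAt ℂ f z)
    (hg : ∀ z, AnalyticAt ℂ g z) (l : List ι) (z : ι → ℂ) :
    pdl l (fun v => f v + g v) z = pdl l f z + pdl l g z := by
  rw [DelR_pdl_eq, DelR_pdl_eq, DelR_pdl_eq]
  exact Pool.Agent.Helper8.dds_add _ (hf z) (hg z)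

theorem DelR_pdl_mul {f : (ι → ℂ) → ℂ} (hf : ∀ z, AnalyticAt ℂ f z) (c : ℂ) (l : List ι)
    (z : ι → ℂ) : pdl l (fun v => c * f v) z = c * pdl l f z := by
  rw [DelR_pdl_eq, DelR_pdl_eq]
  exact Pool.Agent.Helper8.dds_const_mul c _ (hf z)

theorem DelR_pdl_sum {α : Type} (s : Finset α) {f : α → (ι → ℂ) → ℂ}
    (hf : ∀ a z, AnalyticAt ℂ (f a) z) (l : List ι) (z : ι → ℂ) :
    pdl l (fun v => ∑ a ∈ s, f a v) z = ∑ a ∈ s, pdl l (f a) z := by
  have h := Pool.Agent.Helper8.dds_sum s f (l.map fun a => (Pi.single a (1 : ℂ) : ι → ℂ))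
    (z := z) (fun a _ => hf a z)
  have h2 : (∑ a ∈ s, f a) = fun v => ∑ a ∈ s, f a v := by
    funext v; rw [Finset.sum_apply]
  rw [h2] at h
  rw [DelR_pdl_eq, h]
  exact Finset.sum_congr rfl fun a _ => by rw [DelR_pdl_eq]

theorem DelR_pd_mul {f g : (ι → ℂ) → ℂ} (hf : ∀ z, AnalyticAt ℂ f z)
    (hg : ∀ z, AnalyticAt ℂ g z) (j : ι) :
    pd j (fun v => f v * g v) = fun v => pd j f v * g v + f v * pd j g v := by
  funext z
  exact Pool.Agent.Helper8.dd_mul (hf z) (hg z) _

theorem DelR_pdl_zero (l : List ι) : pdl l (fun _ : ι → ℂ => (0 : ℂ)) = fun _ => 0 := by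
  rw [DelR_pdl_eq]
  exact Pool.Agent.Helper8.dds_zero _

theorem DelR_pd_const (j : ι) (c : ℂ) : pd j (fun _ : ι → ℂ => c) = fun _ => 0 := by
  funext z
  unfold pd
  simp

theorem DelR_pdl_const (c : ℂ) (l : List ι) :
    pdl l (fun _ : ι → ℂ => c) = fun _ => if l = [] then c else 0 := by
  rcases List.eq_nil_or_concat l with rfl | ⟨l', j, rfl⟩
  · rfl
  · rw [List.concat_eq_append, DelR_snoc, DelR_pd_const, DelR_pdl_zero]
    simp

theorem DelR_const (δ : Derivation ℚ ℂ ℂ) (c : ℂ) :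
    IsDel δ (fun _ : ι → ℂ => c) (fun _ => δ c) := by
  refine ⟨differentiable_const _, differentiable_const _, fun l => ?_⟩
  rw [DelR_pdl_const, DelR_pdl_const]
  by_cases h : l = []
  · simp [h]
  · simp [h]

theorem DelR_pd_coord (j a : ι) :
    pd j (fun v : ι → ℂ => v a) = fun _ => if a = j then 1 else 0 := by
  funext z
  unfold pd
  have h : HasFDerivAt (fun v : ι → ℂ => v a) (ContinuousLinearMap.proj a : (ι → ℂ) →L[ℂ] ℂ) z :=
    (ContinuousLinearMap.proj a : (ι → ℂ) →L[ℂ] ℂ).hasFDerivAt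
  rw [h.fderiv]
  simp only [ContinuousLinearMap.proj_apply, Pi.single_apply]

theorem DelR_coord (δ : Derivation ℚ ℂ ℂ) (a : ι) :
    IsDel δ (fun v : ι → ℂ => v a) (fun _ => 0) := by
  refine ⟨by fun_prop, differentiable_const _, fun l => ?_⟩
  rw [DelR_pdl_zero]
  rcases List.eq_nil_or_concat l with rfl | ⟨l', j, rfl⟩
  · change (0 : ℂ) = δ ((0 : ι → ℂ) a)
    simp
  · rw [List.concat_eq_append, DelR_snoc, DelR_pd_coord, DelR_pdl_const]
    split_ifs <;> simp

theorem DelR_add (h1 : St_Hol) (δ : Derivation ℚ ℂ ℂ) (a a' b b' : (ι → ℂ) → ℂ)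
    (ha : IsDel δ a a') (hb : IsDel δ b b') :
    IsDel δ (fun v => a v + b v) (fun v => a' v + b' v) := by
  refine ⟨ha.ent.add hb.ent, ha.ent'.add hb.ent', fun l => ?_⟩
  rw [DelR_pdl_add (DelR_an h1 ha.ent') (DelR_an h1 hb.ent'),
    DelR_pdl_add (DelR_an h1 ha.ent) (DelR_an h1 hb.ent), ha.del, hb.del, map_add]

theorem DelR_pd (h1 : St_Hol) (δ : Derivation ℚ ℂ ℂ) (j : ι) (a a' : (ι → ℂ) → ℂ)
    (ha : IsDel δ a a') : IsDel δ (pd j a) (pd j a') := by
  refine ⟨DelR_pd_diff (DelR_an h1 ha.ent) j, DelR_pd_diff (DelR_an h1 ha.ent') j, fun l => ?_⟩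
  rw [← DelR_snoc, ← DelR_snoc, ha.del]

theorem DelR_mul_aux (h1 : St_Hol) (δ : Derivation ℚ ℂ ℂ) (n : ℕ) : ∀ (l : List ι),
    l.length = n → ∀ (a a' b b' : (ι → ℂ) → ℂ), IsDel δ a a' → IsDel δ b b' →
    pdl l (fun v => a' v * b v + a v * b' v) 0 = δ (pdl l (fun v => a v * b v) 0) := by
  induction n with
  | zero =>
    intro l hl a a' b b' ha hb
    rw [List.length_eq_zero_iff] at hl
    subst hl
    have h2 := ha.del []
    have h3 := hb.del []
    change a' 0 * b 0 + a 0 * b' 0 = δ (a 0 * b 0)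
    change a' 0 = δ (a 0) at h2
    change b' 0 = δ (b 0) at h3
    rw [Derivation.leibniz, h2, h3, smul_eq_mul, smul_eq_mul]
    ring
  | succ n ih =>
    intro l hl a a' b b' ha hb
    rcases List.eq_nil_or_concat l with rfl | ⟨l', j, rfl⟩
    · simp at hl
    · rw [List.concat_eq_append] at hl ⊢
      have hl' : l'.length = n := by simpa using hl
      have hA := DelR_an h1 ha.ent
      have hA' := DelR_an h1 ha.ent'
      have hB := DelR_an h1 hb.ent
      have hB' := DelR_an h1 hb.ent'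
      have e1 := ih l' hl' (pd j a) (pd j a') b b' (DelR_pd h1 δ j a a' ha) hb
      have e2 := ih l' hl' a a' (pd j b) (pd j b') ha (DelR_pd h1 δ j b b' hb)
      rw [DelR_snoc, DelR_snoc, DelR_pd_mul hA hB]
      have e3 : pd j (fun v => a' v * b v + a v * b' v) =
          fun v => (pd j a' v * b v + pd j a v * b' v) + (a' v * pd j b v + a v * pd j b' v) := by
        funext z
        have e4 := Pool.Agent.Helper8.dd_add (f := fun v => a' v * b v) (g := fun v => a v * b' v)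
          (z := z) ((hA' z).mul (hB z)) ((hA z).mul (hB' z)) (Pi.single j 1)
        have e5 := congrFun (DelR_pd_mul hA' hB j) z
        have e6 := congrFun (DelR_pd_mul hA hB' j) z
        change pd j (fun v => a' v * b v + a v * b' v) z =
          pd j (fun v => a' v * b v) z + pd j (fun v => a v * b' v) z at e4
        rw [e4, e5, e6]
        ring
      rw [e3, DelR_pdl_add (f := fun v => pd j a' v * b v + pd j a v * b' v)
        (g := fun v => a' v * pd j b v + a v * pd j b' v)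
        (fun z => ((DelR_pd_an hA' j z).mul (hB z)).add ((DelR_pd_an hA j z).mul (hB' z)))
        (fun z => ((hA' z).mul (DelR_pd_an hB j z)).add ((hA z).mul (DelR_pd_an hB' j z))),
        DelR_pdl_add (f := fun v => pd j a v * b v) (g := fun v => a v * pd j b v)
        (fun z => (DelR_pd_an hA j z).mul (hB z)) (fun z => (hA z).mul (DelR_pd_an hB j z)),
        e1, e2, map_add]

theorem DelR_mul (h1 : St_Hol) (δ : Derivation ℚ ℂ ℂ) (a a' b b' : (ι → ℂ) → ℂ)
    (ha : IsDel δ a a') (hb : IsDel δ b b') :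
    IsDel δ (fun v => a v * b v) (fun v => a' v * b v + a v * b' v) :=
  ⟨ha.ent.mul hb.ent, (ha.ent'.mul hb.ent).add (ha.ent.mul hb.ent'),
    fun l => DelR_mul_aux h1 δ l.length l rfl a a' b b' ha hb⟩

theorem DelR_pd_lin {κ : Type} [Fintype κ] [DecidableEq κ] (T : Matrix ι κ ℂ)
    {a : (ι → ℂ) → ℂ} (ha : ∀ z, AnalyticAt ℂ a z) (k : κ) :
    pd k (fun v : κ → ℂ => a (T.mulVec v)) =
      fun v => ∑ i, T i k * pd i a (T.mulVec v) := by
  funext z
  have hT : HasFDerivAt (fun v : κ → ℂ => T.mulVec v)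
      (LinearMap.toContinuousLinearMap (Matrix.mulVecLin T)) z :=
    (LinearMap.toContinuousLinearMap (Matrix.mulVecLin T)).hasFDerivAt
  have hc := (ha (T.mulVec z)).differentiableAt.hasFDerivAt.comp z hT
  have h2 : pd k (fun v : κ → ℂ => a (T.mulVec v)) z =
      fderiv ℂ a (T.mulVec z) (T.mulVec (Pi.single k 1)) := by
    unfold pd
    have h3 : (fun v : κ → ℂ => a (T.mulVec v)) = a ∘ fun v : κ → ℂ => T.mulVec v := rfl
    rw [h3, hc.fderiv]
    rfl
  rw [h2]
  have h4 : T.mulVec (Pi.single k 1) = ∑ i, T i k • (Pi.single i (1 : ℂ) : ι → ℂ) := by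
    funext i
    rw [Matrix.mulVec_single_one, Finset.sum_apply]
    simp [Pi.single_apply]
  rw [h4, map_sum]
  refine Finset.sum_congr rfl fun i _ => ?_
  rw [map_smul, smul_eq_mul]
  rfl

theorem DelR_lin_aux (h1 : St_Hol) (δ : Derivation ℚ ℂ ℂ) {κ : Type} [Fintype κ] [DecidableEq κ]
    (T : Matrix ι κ ℂ) (hT : ∀ i k, IsAlgebraic ℚ (T i k)) (n : ℕ) : ∀ (l : List κ),
    l.length = n → ∀ (a a' : (ι → ℂ) → ℂ), IsDel δ a a' →
    pdl l (fun v : κ → ℂ => a' (T.mulVec v)) 0 = δ (pdl l (fun v : κ → ℂ => a (T.mulVec v)) 0) := by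
  have hTl : ∀ z, AnalyticAt ℂ (fun v : κ → ℂ => T.mulVec v) z := fun z =>
    (LinearMap.toContinuousLinearMap (Matrix.mulVecLin T)).analyticAt z
  have hcomp : ∀ f : (ι → ℂ) → ℂ, (∀ z, AnalyticAt ℂ f z) →
      ∀ z, AnalyticAt ℂ (fun v : κ → ℂ => f (T.mulVec v)) z := fun f hf z =>
    (hf (T.mulVec z)).comp (f := fun v : κ → ℂ => T.mulVec v) (hTl z)
  induction n with
  | zero =>
    intro l hl a a' ha
    rw [List.length_eq_zero_iff] at hl
    subst hl
    have h2 := ha.del []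
    change a' 0 = δ (a 0) at h2
    change a' (T.mulVec 0) = δ (a (T.mulVec 0))
    rw [Matrix.mulVec_zero, h2]
  | succ n ih =>
    intro l hl a a' ha
    rcases List.eq_nil_or_concat l with rfl | ⟨l', j, rfl⟩
    · simp at hl
    · rw [List.concat_eq_append] at hl ⊢
      have hl' : l'.length = n := by simpa using hl
      have hA := DelR_an h1 ha.ent
      have hA' := DelR_an h1 ha.ent'
      rw [DelR_snoc, DelR_snoc, DelR_pd_lin T hA, DelR_pd_lin T hA']
      rw [DelR_pdl_sum Finset.univ (f := fun i v => T i j * pd i a' (T.mulVec v))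
        (fun i z => analyticAt_const.mul (hcomp _ (DelR_pd_an hA' i) z)),
        DelR_pdl_sum Finset.univ (f := fun i v => T i j * pd i a (T.mulVec v))
        (fun i z => analyticAt_const.mul (hcomp _ (DelR_pd_an hA i) z)), map_sum]
      refine Finset.sum_congr rfl fun i _ => ?_
      rw [DelR_pdl_mul (hcomp _ (DelR_pd_an hA' i)), DelR_pdl_mul (hcomp _ (DelR_pd_an hA i)),
        Derivation.leibniz, Pool.Agent.Helper7.derivation_eq_zero δ _ (hT i j), smul_zero,
        add_zero, smul_eq_mul, ih l' hl' (pd i a) (pd i a') (DelR_pd h1 δ i a a' ha)]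

theorem DelR_lin (h1 : St_Hol) (δ : Derivation ℚ ℂ ℂ) {κ : Type} [Fintype κ] [DecidableEq κ]
    (T : Matrix ι κ ℂ) (a a' : (ι → ℂ) → ℂ) (hT : ∀ i k, IsAlgebraic ℚ (T i k))
    (ha : IsDel δ a a') :
    IsDel δ (fun v : κ → ℂ => a (T.mulVec v)) (fun v => a' (T.mulVec v)) := by
  have hTl : Differentiable ℂ (fun v : κ → ℂ => T.mulVec v) :=
    (LinearMap.toContinuousLinearMap (Matrix.mulVecLin T)).differentiable
  exact ⟨ha.ent.comp hTl, ha.ent'.comp hTl,
    fun l => DelR_lin_aux h1 δ T hT l.length l rfl a a' ha⟩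

theorem DelR_dds_zero (n : ℕ) : ∀ (l : List (ι → ℂ)), l.length = n → ∀ g : (ι → ℂ) → ℂ,
    (∀ z, AnalyticAt ℂ g z) → (∀ l : List ι, pdl l g 0 = 0) → dds l g 0 = 0 := by
  induction n with
  | zero =>
    intro l hl g _ h
    rw [List.length_eq_zero_iff] at hl
    subst hl
    exact h []
  | succ n ih =>
    intro l hl g hg h
    rcases List.eq_nil_or_concat l with rfl | ⟨l', v, rfl⟩
    · simp at hl
    · rw [List.concat_eq_append] at hl ⊢
      have hl' : l'.length = n := by simpa using hl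
      rw [Pool.Agent.Helper8.dds_append]
      have h2 : dds [v] g = ∑ i ∈ (Finset.univ : Finset ι), (fun z => v i * pd i g z) := by
        have h3 := Pool.Agent.Helper8.dd_sum_smul (Finset.univ : Finset ι) v
          (fun i => (Pi.single i (1 : ℂ) : ι → ℂ)) g
        have h4 : (∑ i, v i • (Pi.single i (1 : ℂ) : ι → ℂ)) = v := by
          funext j
          rw [Finset.sum_apply]
          simp [Pi.single_apply]
        rw [h4] at h3
        exact h3
      rw [h2, Pool.Agent.Helper8.dds_sum _ (fun i z => v i * pd i g z) _ (fun i _ =>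
        analyticAt_const.mul (DelR_pd_an hg i 0))]
      refine Finset.sum_eq_zero fun i _ => ?_
      rw [Pool.Agent.Helper8.dds_const_mul _ _ (DelR_pd_an hg i 0),
        ih l' hl' (pd i g) (DelR_pd_an hg i) (fun m => by rw [← DelR_snoc]; exact h _), mul_zero]

theorem DelR_uniq (h1 : St_Hol) (δ : Derivation ℚ ℂ ℂ) (a b b' : (ι → ℂ) → ℂ)
    (hb : IsDel δ a b) (hb' : IsDel δ a b') : b = b' := by
  funext z
  have hB := DelR_an h1 hb.ent'
  have hB' := DelR_an h1 hb'.ent'
  set g : (ι → ℂ) → ℂ := fun v => b v + (-1) * b' v with hg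
  have hga : ∀ z, AnalyticAt ℂ g z := fun z => (hB z).add (analyticAt_const.mul (hB' z))
  have h2 : ∀ l : List ι, pdl l g 0 = 0 := by
    intro l
    rw [hg, DelR_pdl_add (g := fun v => (-1) * b' v) hB
      (fun z => analyticAt_const.mul (hB' z)), DelR_pdl_mul hB', hb.del, hb'.del]
    ring
  have h3 := Pool.Agent.Helper8.eq_zero_of_van hga
    (fun t l _ => DelR_dds_zero l.length l rfl g hga h2) z
  rw [hg] at h3
  dsimp only at h3
  linear_combination h3

end

theorem thm_DelR (h1 : St_Hol) : St_DelR := by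
  intro ι _ _ δ
  exact
    { const := DelR_const δ
      coord := DelR_coord δ
      add := DelR_add h1 δ
      mul := DelR_mul h1 δ
      pd := DelR_pd h1 δ
      lin := fun κ _ _ T a a' hT ha => DelR_lin h1 δ T a a' hT ha
      uniq := DelR_uniq h1 δ }

end GAM
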