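import Pool.Agent.GAM.StD2
import Pool.Agent.GAM.Bas
import Pool.Agent.GAM.Hol
import Pool.Agent.GAM.DelR

/-!
# GAM: the action of `δ` on the Fock vectors
-/

set_option autoImplicit false

namespace GAM

open scoped ComplexConjugate

/-- additivity of iterated derivatives at one point -/
theorem DelPsi_add {κ : Type} [Fintype κ] [DecidableEq κ] {f g : (κ → ℂ) → ℂ} {z : κ → ℂ}
    (hf : AnalyticAt ℂ f z) (hg : AnalyticAt ℂ g z) (l : List κ) :
    pdl l (fun v => f v + g v) z = pdl l f z + pdl l g z := by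
  rw [DelR_pdl_eq, DelR_pdl_eq, DelR_pdl_eq]
  exact Pool.Agent.Helper8.dds_add _ hf hg

theorem DelPsi_mul {κ : Type} [Fintype κ] [DecidableEq κ] {f : (κ → ℂ) → ℂ} {z : κ → ℂ}
    (hf : AnalyticAt ℂ f z) (c : ℂ) (l : List κ) :
    pdl l (fun v => c * f v) z = c * pdl l f z := by
  rw [DelR_pdl_eq, DelR_pdl_eq]
  exact Pool.Agent.Helper8.dds_const_mul c _ hf

theorem DelPsi_eul_an {κ : Type} [Fintype κ] [DecidableEq κ] {f : (κ → ℂ) → ℂ} {z : κ → ℂ}
    (hf : AnalyticAt ℂ f z) (A : κ → ℂ) : AnalyticAt ℂ (eul A f) z := by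
  have h : eul A f = ∑ a ∈ (Finset.univ : Finset κ), fun v => A a * v a * pd a f v := by
    funext v
    rw [Finset.sum_apply]
    rfl
  rw [h]
  refine Finset.analyticAt_sum _ fun a _ => ?_
  have h1 : AnalyticAt ℂ (fun v : κ → ℂ => v a) z :=
    (ContinuousLinearMap.proj a : (κ → ℂ) →L[ℂ] ℂ).analyticAt z
  exact (analyticAt_const.mul h1).mul (Pool.Agent.Helper8.analyticAt_dd hf _)

/-- derivation of a power of `1 / π` -/
theorem DelPsi_pow (δ : Derivation ℚ ℂ ℂ) (n : ℕ) :
    δ ((1 / Real.pi : ℂ) ^ n) = -(n : ℂ) * (δ (Real.pi : ℂ) / Real.pi) * (1 / Real.pi : ℂ) ^ n := by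
  have hpi : (Real.pi : ℂ) ≠ 0 := by exact_mod_cast Real.pi_ne_zero
  have h1 : δ (1 / Real.pi : ℂ) = -(δ (Real.pi : ℂ) / Real.pi) * (1 / Real.pi : ℂ) := by
    rw [one_div, Derivation.leibniz_inv, smul_eq_mul]
    field_simp
  induction n with
  | zero => simp
  | succ n ih =>
    rw [pow_succ, Derivation.leibniz, ih, h1, smul_eq_mul, smul_eq_mul]
    push_cast
    ring

theorem DelPsi_gen (h1 : St_Ell) (h3 : St_EllW) (h4 : St_EulW) {S : Type} [Fintype S]
    [DecidableEq S] (v w : S) (hvw : v ≠ w) (δ : Derivation ℚ ℂ ℂ) (A : S × Fin 2 → ℂ)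
    (G : (S × Fin 2 → ℂ) → ℂ) (hG : Gro G) (k : ℂ)
    (hk : ∀ l : List (S × Fin 2), δ (pdl l G 0) = (k + (l.map A).sum) * pdl l G 0) :
    IsDelD δ (fun z => ell v w z G) (fun z => k * ell v w z G +
      eulD (fun i => A (vw v w i, 0) + A (vw v w i, 1) - δ (Real.pi : ℂ) / Real.pi)
        (fun z => ell v w z G) z) := by
  set B : Fin 2 → ℂ := fun i => A (vw v w i, 0) + A (vw v w i, 1) - δ (Real.pi : ℂ) / Real.pi
    with hB
  set f : (Fin 2 → ℂ) → ℂ := fun z => ell v w z G with hf
  have hd : DifferentiableOn ℂ f D2 := (h1 S v w G hvw hG).1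
  have han : AnalyticOnNhd ℂ f D2 := thm_Hol (Fin 2) D2 f isOpen_D2 hd
  have heul : eulD B f = eul B f := rfl
  have h0 := han 0 zero_mem_D2
  refine ⟨hd, ?_, fun l => ?_⟩
  · intro z hz
    have h5 := (analyticAt_const (v := k)).mul (han z hz)
    have h6 := DelPsi_eul_an (han z hz) B
    have h7 : AnalyticAt ℂ (fun z => k * f z + eulD B f z) z := by
      rw [heul]; exact h5.add h6
    exact h7.differentiableAt.differentiableWithinAt
  · have h5 : pdl l (fun z => k * f z + eulD B f z) 0 =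
        (k + (l.map B).sum) * pdl l f 0 := by
      rw [heul, DelPsi_add (f := fun z => k * f z) (g := eul B f)
        ((analyticAt_const (v := k)).mul h0) (DelPsi_eul_an h0 B) l, DelPsi_mul h0,
        h4 (Fin 2) B f l h0]
      ring
    rw [h5]
    have h6 : pdl l f 0 = (1 / Real.pi : ℂ) ^ l.length * pdl (dbl v w l) G 0 :=
      h3 S v w G hvw hG l
    rw [h6, Derivation.leibniz, hk, DelPsi_pow, smul_eq_mul, smul_eq_mul]
    have h7 : (l.map B).sum = ((dbl v w l).map A).sum - l.length * (δ (Real.pi : ℂ) / Real.pi) := by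
      induction l with
      | nil => simp [dbl]
      | cons i l ih =>
        have h8 : dbl v w (i :: l) = [(vw v w i, 0), (vw v w i, 1)] ++ dbl v w l := by
          simp [dbl, List.flatMap_cons]
        have ih' : (l.map B).sum =
            ((dbl v w l).map A).sum - l.length * (δ (Real.pi : ℂ) / Real.pi) := by
          apply ih
          · have h9 : pdl l (fun z => k * f z + eulD B f z) 0 =
              (k + (l.map B).sum) * pdl l f 0 := by
              rw [heul, DelPsi_add (f := fun z => k * f z) (g := eul B f)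
                ((analyticAt_const (v := k)).mul h0) (DelPsi_eul_an h0 B) l, DelPsi_mul h0,
                h4 (Fin 2) B f l h0]
              ring
            exact h9
          · exact h3 S v w G hvw hG l
        rw [List.map_cons, List.sum_cons, ih', h8, List.map_append, List.sum_append,
          List.length_cons]
        simp only [hB, List.map_cons, List.map_nil, List.sum_cons, List.sum_nil]
        push_cast
        ring
    rw [h7]
    ring

theorem thm_DelPsi (h1 : St_Ell) (h2 : St_GroF) (h3 : St_EllW) (h4 : St_EulW) :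
    St_DelPsi := by
  intro S _ _ u v w δ L χ θ A k huv huw hvw hP hT hE
  refine ⟨fun i => A (vw v w i, 0) + A (vw v w i, 1) - δ (Real.pi : ℂ) / Real.pi,
    fun x hx => ?_⟩
  have hdel := hE x hx
  have hFd : Differentiable ℂ (F θ x) := F_differentiable hT x
  have hFa : ∀ z, AnalyticAt ℂ (F θ x) z := DelR_an thm_Hol hFd
  have hGro : Gro (F θ x) := (h2 (S × Fin 2)).1 L χ θ hP hT x
  have hkey : ∀ l : List (S × Fin 2), δ (pdl l (F θ x) 0) =
      (k + (l.map A).sum) * pdl l (F θ x) 0 := by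
    intro l
    rw [← hdel.del l, DelPsi_add (f := fun z => k * F θ x z) (g := eul A (F θ x))
      ((analyticAt_const (v := k)).mul (hFa 0)) (DelPsi_eul_an (hFa 0) A) l, DelPsi_mul (hFa 0),
      h4 (S × Fin 2) A (F θ x) l (hFa 0)]
    ring
  refine ⟨DelPsi_gen h1 h3 h4 v w hvw δ A (F θ x) hGro k hkey, fun i => ?_⟩
  refine DelPsi_gen h1 h3 h4 v w hvw δ A (pd (u, i) (F θ x)) ((h2 (S × Fin 2)).2.1 _ hGro _)
    (k + A (u, i)) fun l => ?_
  have h5 : pdl l (pd (u, i) (F θ x)) = pdl (l ++ [(u, i)]) (F θ x) :=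
    (DelR_snoc l (u, i) (F θ x)).symm
  rw [h5, hkey, List.map_append, List.sum_append]
  simp only [List.map_cons, List.map_nil, List.sum_cons, List.sum_nil]
  ring

end GAM
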