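import Pool.Agent.GAM.StD2

/-!
# GAM: density of `K` in `ℂ^S`
-/

set_option autoImplicit false

namespace GAM

theorem thm_DenK (h1 : St_BasK) : St_DenK := by
  intro K _ _ c S _ _ φ hc hφ
  let b := Module.finBasis ℚ K
  obtain ⟨-, -, hsp⟩ := h1 K c S φ hc hφ (Fin (Module.finrank ℚ K)) b
  let g : (Fin (Module.finrank ℚ K) → ℝ) → S → ℂ := fun t => ∑ i, t i • fun s => φ s (b i)
  have hg : Continuous g := by
    refine continuous_finsetSum _ fun i _ => ?_
    exact (continuous_apply i).smul continuous_const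
  have hsurj : Function.Surjective g := by
    intro v
    have hv : v ∈ Submodule.span ℝ (Set.range fun (i : Fin (Module.finrank ℚ K)) (s : S) =>
        φ s (b i)) := by
      rw [hsp]
      trivial
    rw [Submodule.mem_span_range_iff_exists_fun] at hv
    obtain ⟨t, ht⟩ := hv
    exact ⟨t, ht⟩
  have hd : DenseRange (Pi.map fun (_ : Fin (Module.finrank ℚ K)) (q : ℚ) => (q : ℝ)) :=
    DenseRange.piMap fun _ => Rat.denseRange_cast
  have hd2 := hsurj.denseRange.comp hd hg
  refine Dense.mono ?_ hd2
  rintro _ ⟨q, rfl⟩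
  refine ⟨∑ i, q i • b i, ?_⟩
  funext s
  simp only [Function.comp_apply, g, Pi.map_apply, Finset.sum_apply, Pi.smul_apply, map_sum]
  refine Finset.sum_congr rfl fun i _ => ?_
  rw [Rat.smul_def, map_mul, map_ratCast, Complex.real_smul]
  push_cast
  rfl

end GAM
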