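import Pool.Agent.GAM.FCalc

/-!
# GAM [Dup]
-/

set_option autoImplicit false

namespace GAM

open scoped ComplexConjugate

open Complex

/-- evaluation points for linearly independent continuous functions -/
lemma Dup_eval {ι : Type} [Fintype ι] {n : ℕ} (Q : Fin n → (ι → ℂ) → ℂ)
    (hQ : ∀ i, Continuous (Q i)) (hli : LinearIndependent ℂ Q) {D : Set (ι → ℂ)} (hD : Dense D) :
    ∃ d : Fin n → ι → ℂ, (∀ j, d j ∈ D) ∧ ∃ N : Fin n → Fin n → ℂ, ∀ (K y : Fin n → ℂ),
      (∀ j, y j = ∑ i, K i * Q i (d j)) → ∀ i, K i = ∑ j, N i j * y j := by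
  classical
  set e : (ι → ℂ) → (Fin n → ℂ) := fun v i => Q i v with he
  have hspan : Submodule.span ℂ (e '' D) = ⊤ := by
    by_contra hne
    obtain ⟨f, hf0, hf⟩ := Submodule.exists_le_ker_of_lt_top _ (lt_top_iff_ne_top.2 hne)
    have hfx : ∀ x : Fin n → ℂ, f x = ∑ i, f (Pi.single i 1) * x i := by
      intro x
      conv_lhs => rw [pi_eq_sum_univ' x, map_sum]
      refine Finset.sum_congr rfl fun i _ => ?_
      rw [map_smul, smul_eq_mul, mul_comm]
    have h1 : (fun v => ∑ i, f (Pi.single i 1) * Q i v) = fun _ => (0 : ℂ) := by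
      refine Continuous.ext_on hD ?_ continuous_const ?_
      · exact continuous_finsetSum _ fun i _ => continuous_const.mul (hQ i)
      · intro v hv
        have h2 : f (e v) = 0 := LinearMap.mem_ker.1
          (hf (Submodule.subset_span (Set.mem_image_of_mem e hv)))
        rw [hfx] at h2
        exact h2
    have h2 : ∀ i, f (Pi.single i 1) = 0 := by
      have h3 := Fintype.linearIndependent_iff.1 hli (fun i => f (Pi.single i 1)) (by
        funext v
        have := congrFun h1 v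
        simpa using this)
      exact h3
    apply hf0
    refine LinearMap.ext fun x => ?_
    rw [hfx x, LinearMap.zero_apply]
    exact Finset.sum_eq_zero fun i _ => by rw [h2 i, zero_mul]
  obtain ⟨s, hs, hsp, hsl⟩ := exists_linearIndependent ℂ (e '' D)
  have hB : ⊤ ≤ Submodule.span ℂ (Set.range ((↑) : s → (Fin n → ℂ))) := by
    rw [Subtype.range_coe, hsp, hspan]
  let B := Module.Basis.mk hsl hB
  let B' : Module.Basis (Fin n) ℂ (Fin n → ℂ) :=
    B.reindex ((Pi.basisFun ℂ (Fin n)).indexEquiv B).symm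
  have hB' : ∀ j, ∃ v ∈ D, e v = B' j := by
    intro j
    have h1 : B' j = ((Pi.basisFun ℂ (Fin n)).indexEquiv B j : s) := by
      simp only [B', B, Module.Basis.reindex_apply, Equiv.symm_symm, Module.Basis.mk_apply]
    rw [h1]
    exact hs ((Pi.basisFun ℂ (Fin n)).indexEquiv B j).2
  choose d hd1 hd2 using hB'
  refine ⟨d, hd1, fun i j => B'.repr (Pi.single i 1) j, fun K y hy i => ?_⟩
  let φ : (Fin n → ℂ) →ₗ[ℂ] ℂ := ∑ i, K i • LinearMap.proj i
  have hφ : ∀ x, φ x = ∑ i, K i * x i := by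
    intro x
    simp [φ, LinearMap.sum_apply]
  have h1 : K i = φ (Pi.single i 1) := by
    rw [hφ]
    simp [Pi.single_apply]
  rw [h1]
  conv_lhs => rw [← B'.sum_repr (Pi.single i 1), map_sum]
  refine Finset.sum_congr rfl fun j _ => ?_
  rw [map_smul, smul_eq_mul, ← hd2 j, hφ, hy j]

section

variable {ι : Type} [Fintype ι]

/-- products of two translates at `v + w` and `v - w` -/
lemma Dup_prod (θ : (ι → ℂ) → ℂ) (ρ v w : ι → ℂ) :
    F θ ρ (v + w) * F θ (-ρ) (v - w) = F θ (ρ + w) v * F θ (-(ρ + w)) v *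
      exp (Real.pi * H w w - 2 * Real.pi * I * E w ρ) := by
  have h1 := F_shift' θ ρ w v
  have h2 := F_shift' θ (-ρ) (-w) v
  rw [← sub_eq_add_neg] at h2
  rw [h1, h2, show -ρ + -w = -(ρ + w) by abel]
  have h3 : exp (Real.pi * H w w - 2 * Real.pi * I * E w ρ) =
      exp (Real.pi * H v w + Real.pi / 2 * H w w - Real.pi * I * E w ρ) *
      exp (Real.pi * H v (-w) + Real.pi / 2 * H (-w) (-w) - Real.pi * I * E (-w) (-ρ)) := by
    rw [← Complex.exp_add]
    congr 1
    rw [H_neg_right, H_neg_left, H_neg_right, E_neg_left, E_neg_right]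
    push_cast
    ring
  rw [h3]
  ring

/-- values at the evaluation points -/
lemma Dup_val {θ : (ι → ℂ) → ℂ} {ε : ℂ} (hε : ∀ v, θ (-v) = ε * θ v) (ρ d w : ι → ℂ) :
    F θ ρ (d + w) * F θ (-ρ) (d - w) =
      ε * exp (Real.pi * H d d) * (F θ (ρ + d) w * F θ (ρ - d) w) := by
  have h1 := F_shift' θ ρ d w
  have h2 := F_shift' θ (-ρ) d (-w)
  rw [show w + d = d + w by abel] at h1
  rw [show -w + d = d - w by abel] at h2
  have h4 := F_neg hε (-ρ + d) w
  rw [show -(-ρ + d) = ρ - d by abel] at h4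
  rw [h1, h2, h4]
  have h3 : exp (Real.pi * H d d) =
      exp (Real.pi * H w d + Real.pi / 2 * H d d - Real.pi * I * E d ρ) *
      exp (Real.pi * H (-w) d + Real.pi / 2 * H d d - Real.pi * I * E d (-ρ)) := by
    rw [← Complex.exp_add]
    congr 1
    rw [H_neg_left, E_neg_right]
    push_cast
    ring
  rw [h3]
  ring

/-- translation by `σ` -/
lemma Dup_tr (θ : (ι → ℂ) → ℂ) (ρ σ v w : ι → ℂ) :
    F θ ρ (v + σ + w) * F θ (-ρ) (v + σ - w) = F θ (σ + ρ) (v + w) * F θ (σ - ρ) (v - w) *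
      exp (2 * Real.pi * H v σ + Real.pi * H σ σ) := by
  have h1 := F_shift' θ ρ σ (v + w)
  have h2 := F_shift' θ (-ρ) σ (v - w)
  rw [show v + w + σ = v + σ + w by abel, show ρ + σ = σ + ρ by abel] at h1
  rw [show v - w + σ = v + σ - w by abel, show -ρ + σ = σ - ρ by abel] at h2
  rw [h1, h2]
  have h3 : exp (2 * Real.pi * H v σ + Real.pi * H σ σ) =
      exp (Real.pi * H (v + w) σ + Real.pi / 2 * H σ σ - Real.pi * I * E σ ρ) *
      exp (Real.pi * H (v - w) σ + Real.pi / 2 * H σ σ - Real.pi * I * E σ (-ρ)) := by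
    rw [← Complex.exp_add]
    congr 1
    rw [H_add_left, H_sub_left, E_neg_right]
    push_cast
    ring
  rw [h3]
  ring

end

theorem thm_Dup (h1 : St_Bas) (h2 : St_ThUn) (h3 : St_OddD) : St_Dup := by
  intro ι _ L χ θ hL hθ hne
  obtain ⟨r, c, hc0, hc, hli, hspan⟩ := h1 ι L χ θ hL hθ hne
  obtain ⟨ε, hε⟩ := h2 ι L χ θ (fun v => θ (-v)) hL hθ (hθ.neg hL) hne
  have hdense := h3 ι L hL.isLat
  have hcont : ∀ i, Continuous fun v : ι → ℂ => F θ (c i) v * F θ (-c i) v := fun i =>
    (F_diff hθ.ent (c i)).continuous.mul (F_diff hθ.ent (-c i)).continuous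
  obtain ⟨d, hd, N, hN⟩ := Dup_eval _ hcont hli hdense
  obtain ⟨b, hb, hb'⟩ : ∃ b, OddTor L b ∧ θ b ≠ 0 := by
    have hopen : IsOpen {v | θ v ≠ 0} := isOpen_ne.preimage hθ.ent.continuous
    obtain ⟨v, hv1, hv2⟩ := hdense.inter_open_nonempty _ hopen hne
    exact ⟨v, hv2, hv1⟩
  refine ⟨r + 1, c, d, fun i j => N i j * (ε * exp (Real.pi * H (d j) (d j))), b, hc, hd, hb, ?_,
    fun σ ρ v => ?_⟩
  · rw [F_at_zero]
    exact mul_ne_zero hb' (exp_ne_zero _)
  · -- the addition formula for `σ = 0`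
    have hadd : ∀ v w : ι → ℂ, F θ ρ (v + w) * F θ (-ρ) (v - w) =
        ∑ i, (∑ j, N i j * (ε * exp (Real.pi * H (d j) (d j)) *
          (F θ (ρ + d j) w * F θ (ρ - d j) w))) * (F θ (c i) v * F θ (-c i) v) := by
      intro v w
      obtain ⟨κ, hκ⟩ := hspan (ρ + w)
      set K : Fin (r + 1) → ℂ := fun i => κ i * exp (Real.pi * H w w - 2 * Real.pi * I * E w ρ)
        with hK
      have hall : ∀ v, F θ ρ (v + w) * F θ (-ρ) (v - w) =
          ∑ i, K i * (F θ (c i) v * F θ (-c i) v) := by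
        intro v
        rw [Dup_prod, hκ v, Finset.sum_mul]
        refine Finset.sum_congr rfl fun i _ => ?_
        rw [hK]
        ring
      have hKi := hN K (fun j => F θ ρ (d j + w) * F θ (-ρ) (d j - w)) (fun j => hall (d j))
      rw [hall v]
      refine Finset.sum_congr rfl fun i _ => ?_
      rw [hKi i]
      congr 1
      refine Finset.sum_congr rfl fun j _ => ?_
      rw [Dup_val hε]
    have hE : exp (2 * Real.pi * H v σ + Real.pi * H σ σ) ≠ 0 := exp_ne_zero _
    have h4 := hadd (v + σ) v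
    rw [Dup_tr] at h4
    have h5 : ∀ i, F θ (c i) (v + σ) * F θ (-c i) (v + σ) =
        F θ (σ + c i) v * F θ (σ - c i) v * exp (2 * Real.pi * H v σ + Real.pi * H σ σ) := by
      intro i
      have := Dup_tr θ (c i) σ v 0
      simpa using this
    simp only [h5] at h4
    have h6 : v + v = (2 : ℂ) • v := (two_smul ℂ v).symm
    rw [h6, sub_self] at h4
    apply mul_right_cancel₀ hE
    rw [h4, Finset.sum_mul]
    refine Finset.sum_congr rfl fun i _ => ?_
    rw [Finset.sum_mul, Finset.sum_mul]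
    refine Finset.sum_congr rfl fun j _ => ?_
    ring

end GAM
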