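import Pool.Agent.GAM.StD2

/-!
# GAM [Ell]
-/

set_option autoImplicit false

namespace GAM

open scoped ComplexConjugate

theorem thm_Ell (h1 : St_EllH) (h2 : St_EllB) (h3 : St_EllZ) (h4 : St_GroC) : St_Ell := by
  intro S _ _ v w G hvw hG
  obtain ⟨hd, h0, h1'⟩ := h1 S v w G hvw hG
  refine ⟨hd, h3 S v w G hvw hG, fun z hz => ?_, fun z hz => ?_⟩
  · rw [h0 z hz]
    exact (h2 S v w (pd (v, 1) G) hvw ((h4 (S × Fin 2)).1 G hG _) z hz).1
  · rw [h1' z hz]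
    exact (h2 S v w (pd (w, 1) G) hvw ((h4 (S × Fin 2)).1 G hG _) z hz).2

end GAM
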