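import Pool.Agent.GAM.StD2

/-!
# GAM [EllB]: integration by parts (Wirtinger)
-/

set_option autoImplicit false

namespace GAM

open scoped ComplexConjugate
open MeasureTheory

section

variable {S : Type} [DecidableEq S]

/-- `embD` is real linear. -/
private noncomputable def EllB_L [Fintype S] (v w : S) (z : Fin 2 → ℂ) : (ℂ × ℂ) →L[ℝ] (S × Fin 2 → ℂ) :=
  LinearMap.toContinuousLinearMap
    { toFun := embD v w z
      map_add' := by
        intro x y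
        ext p
        unfold embD
        simp only [Pi.add_apply, Prod.fst_add, Prod.snd_add, map_add]
        split_ifs <;> ring
      map_smul' := by
        intro c x
        ext p
        unfold embD
        simp only [Pi.smul_apply, Prod.smul_fst, Prod.smul_snd, RingHom.id_apply,
          Complex.real_smul, map_mul, Complex.conj_ofReal]
        split_ifs <;> ring }

private theorem EllB_L_apply [Fintype S] (v w : S) (z : Fin 2 → ℂ) (ξ : ℂ × ℂ) :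
    EllB_L v w z ξ = embD v w z ξ := rfl

private theorem EllB_emb_cont [Fintype S] (v w : S) (z : Fin 2 → ℂ) : Continuous (embD v w z) :=
  (EllB_L v w z).continuous

private theorem EllB_emb1 (v w : S) (z : Fin 2 → ℂ) (hvw : v ≠ w) (t : ℂ) :
    embD v w z (t, 0) = t • (Pi.single (v, 0) 1 : S × Fin 2 → ℂ) +
      (z 0 * conj t) • (Pi.single (v, 1) 1 : S × Fin 2 → ℂ) := by
  ext ⟨s, i⟩
  unfold embD
  simp only [Pi.add_apply, Pi.smul_apply, smul_eq_mul, Pi.single_apply, Prod.mk.injEq, map_zero,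
    mul_zero]
  by_cases hs : s = v
  · subst hs
    fin_cases i <;> simp
  · by_cases hs' : s = w
    · subst hs'
      simp [hs]
    · simp [hs, hs']

private theorem EllB_emb2 (v w : S) (z : Fin 2 → ℂ) (hvw : v ≠ w) (t : ℂ) :
    embD v w z (0, t) = t • (Pi.single (w, 0) 1 : S × Fin 2 → ℂ) +
      (z 1 * conj t) • (Pi.single (w, 1) 1 : S × Fin 2 → ℂ) := by
  ext ⟨s, i⟩
  unfold embD
  simp only [Pi.add_apply, Pi.smul_apply, smul_eq_mul, Pi.single_apply, Prod.mk.injEq, map_zero,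
    mul_zero]
  by_cases hs : s = v
  · subst hs
    simp [hvw]
  · by_cases hs' : s = w
    · subst hs'
      fin_cases i <;> simp [hs]
    · simp [hs, hs']

private theorem EllB_gw_cont : Continuous gw := by
  unfold gw
  refine Complex.continuous_exp.comp ?_
  refine Continuous.neg (continuous_const.mul ?_)
  exact (continuous_fst.mul (Complex.continuous_conj.comp continuous_fst)).add
    (continuous_snd.mul (Complex.continuous_conj.comp continuous_snd))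

/-- derivative of the Gaussian -/
private theorem EllB_gw_deriv (ξ : ℂ × ℂ) : ∃ D : (ℂ × ℂ) →L[ℝ] ℂ, HasFDerivAt gw D ξ ∧
    ∀ h : ℂ × ℂ, D h = gw ξ * -(Real.pi * (h.1 * conj ξ.1 + ξ.1 * conj h.1 +
      (h.2 * conj ξ.2 + ξ.2 * conj h.2))) := by
  have h1 : HasFDerivAt (fun ξ : ℂ × ℂ => ξ.1) (ContinuousLinearMap.fst ℝ ℂ ℂ) ξ := hasFDerivAt_fst
  have h2 : HasFDerivAt (fun ξ : ℂ × ℂ => ξ.2) (ContinuousLinearMap.snd ℝ ℂ ℂ) ξ := hasFDerivAt_snd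
  have h1c : HasFDerivAt (fun ξ : ℂ × ℂ => conj ξ.1)
      ((Complex.conjCLE : ℂ →L[ℝ] ℂ).comp (ContinuousLinearMap.fst ℝ ℂ ℂ)) ξ :=
    (Complex.conjCLE : ℂ →L[ℝ] ℂ).hasFDerivAt.comp ξ h1
  have h2c : HasFDerivAt (fun ξ : ℂ × ℂ => conj ξ.2)
      ((Complex.conjCLE : ℂ →L[ℝ] ℂ).comp (ContinuousLinearMap.snd ℝ ℂ ℂ)) ξ :=
    (Complex.conjCLE : ℂ →L[ℝ] ℂ).hasFDerivAt.comp ξ h2
  have h3 := (((h1.mul h1c).add (h2.mul h2c)).const_mul (Real.pi : ℂ)).neg.cexp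
  refine ⟨_, h3, fun h => ?_⟩
  unfold gw
  simp only [Pi.neg_apply, Pi.add_apply, Pi.mul_apply, smul_apply,
    neg_apply, add_apply, smul_eq_mul,
    ContinuousLinearMap.comp_apply, ContinuousLinearMap.coe_fst', ContinuousLinearMap.coe_snd',
    ContinuousLinearEquiv.coe_coe, Complex.conjCLE_apply]
  ring

/-- derivative of the integrand -/
private theorem EllB_deriv [Fintype S] (v w : S) (G : (S × Fin 2 → ℂ) → ℂ) (hG : Differentiable ℂ G)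
    (z : Fin 2 → ℂ) (ξ : ℂ × ℂ) : ∃ D : (ℂ × ℂ) →L[ℝ] ℂ,
    HasFDerivAt (fun ξ => G (embD v w z ξ) * gw ξ) D ξ ∧
    ∀ h : ℂ × ℂ, D h = G (embD v w z ξ) * (gw ξ * -(Real.pi * (h.1 * conj ξ.1 + ξ.1 * conj h.1 +
      (h.2 * conj ξ.2 + ξ.2 * conj h.2)))) + gw ξ * fderiv ℂ G (embD v w z ξ) (embD v w z h) := by
  obtain ⟨D, hD1, hD2⟩ := EllB_gw_deriv ξ
  have h1 : HasFDerivAt (fun ξ => G (embD v w z ξ))
      (((fderiv ℂ G (embD v w z ξ)).restrictScalars ℝ).comp (EllB_L v w z)) ξ := by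
    have h2 : HasFDerivAt G ((fderiv ℂ G (embD v w z ξ)).restrictScalars ℝ) (EllB_L v w z ξ) :=
      (hG (embD v w z ξ)).hasFDerivAt.restrictScalars ℝ
    exact h2.comp ξ (EllB_L v w z).hasFDerivAt
  refine ⟨_, h1.mul hD1, fun h => ?_⟩
  rw [add_apply, smul_apply,
    smul_apply, hD2, ContinuousLinearMap.comp_apply, EllB_L_apply,
    ContinuousLinearMap.coe_restrictScalars', smul_eq_mul, smul_eq_mul]

/-- the integral of a derivative is zero -/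
private theorem EllB_int_zero (Φ : ℂ × ℂ → ℂ) (h : ℂ × ℂ) (f : ℂ × ℂ → ℂ)
    (hD : ∀ ξ, ∃ D : (ℂ × ℂ) →L[ℝ] ℂ, HasFDerivAt Φ D ξ ∧ D h = f ξ)
    (hΦ : Integrable Φ) (hf : Integrable f) : ∫ ξ, f ξ = 0 := by
  choose D hD1 hD2 using hD
  have : (volume : Measure (ℂ × ℂ)).IsAddHaarMeasure := by
    rw [Measure.volume_eq_prod]
    infer_instance
  have h1 := integral_bilinear_hasFDerivAt_right_eq_neg_left_of_integrable
    (μ := (volume : Measure (ℂ × ℂ))) (f := fun _ => (1 : ℂ)) (f' := fun _ => 0) (g := Φ) (g' := D)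
    (v := h) (B := ContinuousLinearMap.mul ℝ ℂ) (by simp) (by simpa [hD2] using hf)
    (by simpa using hΦ) (fun ξ _ => hasFDerivAt_const _ _) (fun ξ _ => hD1 ξ)
  simpa [hD2] using h1

private theorem EllB_int4 (f1 f2 f3 f4 : ℂ × ℂ → ℂ) (c1 c2 c3 c4 : ℂ) (h1 : Integrable f1)
    (h2 : Integrable f2) (h3 : Integrable f3) (h4 : Integrable f4) :
    ∫ ξ, ((c1 * f1 ξ + c2 * f2 ξ) + (c3 * f3 ξ + c4 * f4 ξ)) =
      (c1 * ∫ ξ, f1 ξ) + (c2 * ∫ ξ, f2 ξ) + ((c3 * ∫ ξ, f3 ξ) + (c4 * ∫ ξ, f4 ξ)) := by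
  have h12 : Integrable (fun ξ => c1 * f1 ξ + c2 * f2 ξ) := (h1.const_mul c1).add (h2.const_mul c2)
  have h34 : Integrable (fun ξ => c3 * f3 ξ + c4 * f4 ξ) := (h3.const_mul c3).add (h4.const_mul c4)
  rw [integral_add h12 h34, integral_add (h1.const_mul c1) (h2.const_mul c2),
    integral_add (h3.const_mul c3) (h4.const_mul c4), integral_const_mul, integral_const_mul,
    integral_const_mul, integral_const_mul]

private theorem EllB_integrable (hGau : St_Gau) (f : ℂ × ℂ → ℂ) (hf : Continuous f) (C c : ℝ)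
    (hc : 0 < c) (hb : ∀ ξ, ‖f ξ‖ ≤ C * Real.exp (-(c * (‖ξ.1‖ ^ 2 + ‖ξ.2‖ ^ 2)))) :
    Integrable f :=
  ((hGau.1 c hc).const_mul C).mono' hf.aestronglyMeasurable (Filter.Eventually.of_forall hb)

private theorem EllB_integrable1 (hGau : St_Gau) (f m : ℂ × ℂ → ℂ) (hf : Continuous f)
    (hm : Continuous m) (C c : ℝ) (hC : 0 < C)
    (hc : 0 < c) (hb : ∀ ξ, ‖f ξ‖ ≤ C * Real.exp (-(c * (‖ξ.1‖ ^ 2 + ‖ξ.2‖ ^ 2))))
    (hmb : ∀ ξ, ‖m ξ‖ ≤ 1 + ‖ξ.1‖ + ‖ξ.2‖) :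
    Integrable (fun ξ => m ξ * f ξ) := by
  obtain ⟨C', hC', h2⟩ := hGau.2.1 c 0 hc
  refine EllB_integrable hGau _ (hm.mul hf) (C * C') (c / 2) (by positivity) fun ξ => ?_
  rw [norm_mul]
  have h3 := h2 ξ
  rw [zero_mul, zero_sub] at h3
  calc ‖m ξ‖ * ‖f ξ‖ ≤ (1 + ‖ξ.1‖ + ‖ξ.2‖) *
        (C * Real.exp (-(c * (‖ξ.1‖ ^ 2 + ‖ξ.2‖ ^ 2)))) :=
        mul_le_mul (hmb ξ) (hb ξ) (norm_nonneg _) (by positivity)
    _ = C * ((1 + ‖ξ.1‖ + ‖ξ.2‖) * Real.exp (-(c * (‖ξ.1‖ ^ 2 + ‖ξ.2‖ ^ 2)))) := by ring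
    _ ≤ C * (C' * Real.exp (-(c / 2 * (‖ξ.1‖ ^ 2 + ‖ξ.2‖ ^ 2)))) :=
        mul_le_mul_of_nonneg_left h3 hC.le
    _ = C * C' * Real.exp (-(c / 2 * (‖ξ.1‖ ^ 2 + ‖ξ.2‖ ^ 2))) := by ring

end

theorem thm_EllB (h1 : St_Gau) (h2 : St_EllI) (h3 : St_GroC) : St_EllB := by
  intro S _ _ v w G hvw hG z hz
  have hpi : (Real.pi : ℂ) ≠ 0 := Complex.ofReal_ne_zero.2 Real.pi_ne_zero
  obtain ⟨r, hr0, hr1, hzr⟩ : ∃ r : ℝ, 0 ≤ r ∧ r < 1 ∧ ∀ i, ‖z i‖ ≤ r :=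
    ⟨max ‖z 0‖ ‖z 1‖, le_max_of_le_left (norm_nonneg _), max_lt (hz 0) (hz 1), fun i => by
      fin_cases i
      · exact le_max_left _ _
      · exact le_max_right _ _⟩
  -- integrability
  have hI : ∀ G' : (S × Fin 2 → ℂ) → ℂ, Gro G' →
      Integrable (fun ξ => G' (embD v w z ξ) * gw ξ) := by
    intro G' hG'
    obtain ⟨C, c, hC, hc, hb⟩ := h2 S v w G' hvw hG' r hr0 hr1
    exact EllB_integrable h1 _ ((hG'.ent.continuous.comp (EllB_emb_cont v w z)).mul EllB_gw_cont)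
      C c hc fun ξ => hb z hzr ξ
  have hI1 : ∀ m : ℂ × ℂ → ℂ, Continuous m → (∀ ξ, ‖m ξ‖ ≤ 1 + ‖ξ.1‖ + ‖ξ.2‖) →
      Integrable (fun ξ => m ξ * (G (embD v w z ξ) * gw ξ)) := by
    intro m hm hmb
    obtain ⟨C, c, hC, hc, hb⟩ := h2 S v w G hvw hG r hr0 hr1
    exact EllB_integrable1 h1 (fun ξ => G (embD v w z ξ) * gw ξ) m
      ((hG.ent.continuous.comp (EllB_emb_cont v w z)).mul EllB_gw_cont) hm
      C c hC hc (fun ξ => hb z hzr ξ) hmb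
  have hz0 : ∀ h : ℂ × ℂ, Integrable (fun ξ => G (embD v w z ξ) * (gw ξ * -(Real.pi *
      (h.1 * conj ξ.1 + ξ.1 * conj h.1 + (h.2 * conj ξ.2 + ξ.2 * conj h.2)))) +
      gw ξ * fderiv ℂ G (embD v w z ξ) (embD v w z h)) →
      ∫ ξ, (G (embD v w z ξ) * (gw ξ * -(Real.pi *
      (h.1 * conj ξ.1 + ξ.1 * conj h.1 + (h.2 * conj ξ.2 + ξ.2 * conj h.2)))) +
      gw ξ * fderiv ℂ G (embD v w z ξ) (embD v w z h)) = 0 := by
    intro h hint
    refine EllB_int_zero (fun ξ => G (embD v w z ξ) * gw ξ) h _ (fun ξ => ?_) (hI G hG) hint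
    obtain ⟨D, hD1, hD2⟩ := EllB_deriv v w G hG.ent z ξ
    exact ⟨D, hD1, hD2 h⟩
  have hm1 : Continuous fun ξ : ℂ × ℂ => ξ.1 := continuous_fst
  have hm2 : Continuous fun ξ : ℂ × ℂ => ξ.2 := continuous_snd
  have hm1c : Continuous fun ξ : ℂ × ℂ => conj ξ.1 := Complex.continuous_conj.comp continuous_fst
  have hm2c : Continuous fun ξ : ℂ × ℂ => conj ξ.2 := Complex.continuous_conj.comp continuous_snd
  have hb1 : ∀ ξ : ℂ × ℂ, ‖ξ.1‖ ≤ 1 + ‖ξ.1‖ + ‖ξ.2‖ := fun ξ => by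
    linarith [norm_nonneg ξ.1, norm_nonneg ξ.2]
  have hb2 : ∀ ξ : ℂ × ℂ, ‖ξ.2‖ ≤ 1 + ‖ξ.1‖ + ‖ξ.2‖ := fun ξ => by
    linarith [norm_nonneg ξ.1, norm_nonneg ξ.2]
  have hb1c : ∀ ξ : ℂ × ℂ, ‖conj ξ.1‖ ≤ 1 + ‖ξ.1‖ + ‖ξ.2‖ := fun ξ => by
    rw [RCLike.norm_conj]
    exact hb1 ξ
  have hb2c : ∀ ξ : ℂ × ℂ, ‖conj ξ.2‖ ≤ 1 + ‖ξ.1‖ + ‖ξ.2‖ := fun ξ => by
    rw [RCLike.norm_conj]
    exact hb2 ξ
  have hII : Complex.I * Complex.I = -1 := Complex.I_mul_I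
  constructor
  · have hA := hI _ ((h3 (S × Fin 2)).1 G hG (v, 0))
    have hB := hI _ ((h3 (S × Fin 2)).1 G hG (v, 1))
    have hX := hI1 _ hm1 hb1
    have hXc := hI1 _ hm1c hb1c
    have hfd : ∀ (t : ℂ) (ξ : ℂ × ℂ), fderiv ℂ G (embD v w z ξ) (embD v w z (t, 0)) =
        t * pd (v, 0) G (embD v w z ξ) + z 0 * conj t * pd (v, 1) G (embD v w z ξ) := by
      intro t ξ
      rw [EllB_emb1 v w z hvw, map_add, map_smul, map_smul, smul_eq_mul, smul_eq_mul]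
      rfl
    have e : ∀ t : ℂ, (fun ξ => G (embD v w z ξ) * (gw ξ * -(Real.pi *
        (((t, 0) : ℂ × ℂ).1 * conj ξ.1 + ξ.1 * conj ((t, 0) : ℂ × ℂ).1 +
        (((t, 0) : ℂ × ℂ).2 * conj ξ.2 + ξ.2 * conj ((t, 0) : ℂ × ℂ).2)))) +
        gw ξ * fderiv ℂ G (embD v w z ξ) (embD v w z (t, 0))) =
        fun ξ => ((-Real.pi * t) * (conj ξ.1 * (G (embD v w z ξ) * gw ξ)) +
          (-Real.pi * conj t) * (ξ.1 * (G (embD v w z ξ) * gw ξ))) +
          (t * (pd (v, 0) G (embD v w z ξ) * gw ξ) +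
          (z 0 * conj t) * (pd (v, 1) G (embD v w z ξ) * gw ξ)) := by
      intro t
      funext ξ
      rw [hfd]
      simp only [map_zero, mul_zero, zero_mul]
      ring
    have hint : ∀ t : ℂ, Integrable (fun ξ => ((-Real.pi * t) *
          (conj ξ.1 * (G (embD v w z ξ) * gw ξ)) +
          (-Real.pi * conj t) * (ξ.1 * (G (embD v w z ξ) * gw ξ))) +
          (t * (pd (v, 0) G (embD v w z ξ) * gw ξ) +
          (z 0 * conj t) * (pd (v, 1) G (embD v w z ξ) * gw ξ))) := fun t =>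
      ((hXc.const_mul _).add (hX.const_mul _)).add ((hA.const_mul _).add (hB.const_mul _))
    have hval : ∀ t : ℂ, (-Real.pi * t) * (∫ ξ : ℂ × ℂ, conj ξ.1 * (G (embD v w z ξ) * gw ξ)) +
          (-Real.pi * conj t) * (∫ ξ : ℂ × ℂ, ξ.1 * (G (embD v w z ξ) * gw ξ)) +
          (t * (∫ ξ : ℂ × ℂ, pd (v, 0) G (embD v w z ξ) * gw ξ) +
          (z 0 * conj t) * (∫ ξ : ℂ × ℂ, pd (v, 1) G (embD v w z ξ) * gw ξ)) = 0 := by
      intro t
      have h5 := hz0 (t, 0) (by rw [e t]; exact hint t)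
      rw [e t, EllB_int4 _ _ _ _ _ _ _ _ hXc hX hA hB] at h5
      exact h5
    have v1 := hval 1
    have vI := hval Complex.I
    rw [map_one] at v1
    rw [Complex.conj_I] at vI
    have hell : ell v w z (pd (v, 0) G) = ∫ ξ : ℂ × ℂ, pd (v, 0) G (embD v w z ξ) * gw ξ := rfl
    rw [hell]
    set X := ∫ ξ : ℂ × ℂ, conj ξ.1 * (G (embD v w z ξ) * gw ξ)
    set Y := ∫ ξ : ℂ × ℂ, ξ.1 * (G (embD v w z ξ) * gw ξ)
    set A := ∫ ξ : ℂ × ℂ, pd (v, 0) G (embD v w z ξ) * gw ξ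
    set B := ∫ ξ : ℂ × ℂ, pd (v, 1) G (embD v w z ξ) * gw ξ
    have h6 : (Real.pi : ℂ) * X = A := by
      linear_combination (-1 / 2 : ℂ) * v1 + (1 / 2 : ℂ) * Complex.I * vI +
        (1 / 2 : ℂ) * (Real.pi * X - Real.pi * Y - A + z 0 * B) * hII
    rw [← h6]
    field_simp
  · have hA := hI _ ((h3 (S × Fin 2)).1 G hG (w, 0))
    have hB := hI _ ((h3 (S × Fin 2)).1 G hG (w, 1))
    have hX := hI1 _ hm2 hb2
    have hXc := hI1 _ hm2c hb2c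
    have hfd : ∀ (t : ℂ) (ξ : ℂ × ℂ), fderiv ℂ G (embD v w z ξ) (embD v w z (0, t)) =
        t * pd (w, 0) G (embD v w z ξ) + z 1 * conj t * pd (w, 1) G (embD v w z ξ) := by
      intro t ξ
      rw [EllB_emb2 v w z hvw, map_add, map_smul, map_smul, smul_eq_mul, smul_eq_mul]
      rfl
    have e : ∀ t : ℂ, (fun ξ => G (embD v w z ξ) * (gw ξ * -(Real.pi *
        (((0, t) : ℂ × ℂ).1 * conj ξ.1 + ξ.1 * conj ((0, t) : ℂ × ℂ).1 +
        (((0, t) : ℂ × ℂ).2 * conj ξ.2 + ξ.2 * conj ((0, t) : ℂ × ℂ).2)))) +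
        gw ξ * fderiv ℂ G (embD v w z ξ) (embD v w z (0, t))) =
        fun ξ => ((-Real.pi * t) * (conj ξ.2 * (G (embD v w z ξ) * gw ξ)) +
          (-Real.pi * conj t) * (ξ.2 * (G (embD v w z ξ) * gw ξ))) +
          (t * (pd (w, 0) G (embD v w z ξ) * gw ξ) +
          (z 1 * conj t) * (pd (w, 1) G (embD v w z ξ) * gw ξ)) := by
      intro t
      funext ξ
      rw [hfd]
      simp only [map_zero, mul_zero, zero_mul]
      ring
    have hint : ∀ t : ℂ, Integrable (fun ξ => ((-Real.pi * t) *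
          (conj ξ.2 * (G (embD v w z ξ) * gw ξ)) +
          (-Real.pi * conj t) * (ξ.2 * (G (embD v w z ξ) * gw ξ))) +
          (t * (pd (w, 0) G (embD v w z ξ) * gw ξ) +
          (z 1 * conj t) * (pd (w, 1) G (embD v w z ξ) * gw ξ))) := fun t =>
      ((hXc.const_mul _).add (hX.const_mul _)).add ((hA.const_mul _).add (hB.const_mul _))
    have hval : ∀ t : ℂ, (-Real.pi * t) * (∫ ξ : ℂ × ℂ, conj ξ.2 * (G (embD v w z ξ) * gw ξ)) +
          (-Real.pi * conj t) * (∫ ξ : ℂ × ℂ, ξ.2 * (G (embD v w z ξ) * gw ξ)) +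
          (t * (∫ ξ : ℂ × ℂ, pd (w, 0) G (embD v w z ξ) * gw ξ) +
          (z 1 * conj t) * (∫ ξ : ℂ × ℂ, pd (w, 1) G (embD v w z ξ) * gw ξ)) = 0 := by
      intro t
      have h5 := hz0 (0, t) (by rw [e t]; exact hint t)
      rw [e t, EllB_int4 _ _ _ _ _ _ _ _ hXc hX hA hB] at h5
      exact h5
    have v1 := hval 1
    have vI := hval Complex.I
    rw [map_one] at v1
    rw [Complex.conj_I] at vI
    have hell : ell v w z (pd (w, 0) G) = ∫ ξ : ℂ × ℂ, pd (w, 0) G (embD v w z ξ) * gw ξ := rfl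
    rw [hell]
    set X := ∫ ξ : ℂ × ℂ, conj ξ.2 * (G (embD v w z ξ) * gw ξ)
    set Y := ∫ ξ : ℂ × ℂ, ξ.2 * (G (embD v w z ξ) * gw ξ)
    set A := ∫ ξ : ℂ × ℂ, pd (w, 0) G (embD v w z ξ) * gw ξ
    set B := ∫ ξ : ℂ × ℂ, pd (w, 1) G (embD v w z ξ) * gw ξ
    have h6 : (Real.pi : ℂ) * X = A := by
      linear_combination (-1 / 2 : ℂ) * v1 + (1 / 2 : ℂ) * Complex.I * vI +
        (1 / 2 : ℂ) * (Real.pi * X - Real.pi * Y - A + z 1 * B) * hII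
    rw [← h6]
    field_simp

end GAM
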