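import Pool.Agent.GAM.StD2

/-!
# GAM [EllH]: derivatives of the Fock functional under the integral sign
-/

set_option autoImplicit false

namespace GAM

open scoped ComplexConjugate

lemma EllH_emb {S : Type} [DecidableEq S] {v w : S} (h : v ≠ w) (z : Fin 2 → ℂ)
    (ξ : ℂ × ℂ) : embD v w z ξ = embD v w 0 ξ + (z 0 • (conj ξ.1 • Pi.single (v, (1 : Fin 2)) 1) +
      z 1 • (conj ξ.2 • Pi.single (w, (1 : Fin 2)) 1)) := by
  funext p
  obtain ⟨s, i⟩ := p
  simp only [embD, Pi.add_apply, Pi.smul_apply, Pi.single_apply, Prod.mk.injEq, smul_eq_mul,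
    Pi.zero_apply, zero_mul]
  by_cases hv : s = v
  · subst hv
    fin_cases i <;> simp [h]
  · by_cases hw : s = w
    · subst hw
      fin_cases i <;> simp [hv]
    · simp [hv, hw]

lemma EllH_deriv {S : Type} [DecidableEq S] [Fintype S] {v w : S} (h : v ≠ w) (z : Fin 2 → ℂ)
    (ξ : ℂ × ℂ) : HasFDerivAt (𝕜 := ℂ) (fun z => embD v w z ξ)
      ((ContinuousLinearMap.proj (R := ℂ) (φ := fun _ : Fin 2 => ℂ) 0).smulRight
        (conj ξ.1 • (Pi.single (v, (1 : Fin 2)) 1 : S × Fin 2 → ℂ)) +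
      (ContinuousLinearMap.proj (R := ℂ) (φ := fun _ : Fin 2 => ℂ) 1).smulRight
        (conj ξ.2 • (Pi.single (w, (1 : Fin 2)) 1 : S × Fin 2 → ℂ))) z := by
  have h0 : (fun z : Fin 2 → ℂ => embD v w z ξ) = fun z => embD v w 0 ξ +
      ((ContinuousLinearMap.proj (R := ℂ) (φ := fun _ : Fin 2 => ℂ) 0).smulRight
        (conj ξ.1 • (Pi.single (v, (1 : Fin 2)) 1 : S × Fin 2 → ℂ)) +
      (ContinuousLinearMap.proj (R := ℂ) (φ := fun _ : Fin 2 => ℂ) 1).smulRight
        (conj ξ.2 • (Pi.single (w, (1 : Fin 2)) 1 : S × Fin 2 → ℂ))) z := by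
    funext z
    rw [EllH_emb h]
    rfl
  rw [h0]
  exact (ContinuousLinearMap.hasFDerivAt _).const_add _

lemma EllH_cont {S : Type} [DecidableEq S] [Fintype S] (v w : S) :
    Continuous fun p : (Fin 2 → ℂ) × (ℂ × ℂ) => embD v w p.1 p.2 := by
  refine continuous_pi fun q => ?_
  have hc : Continuous (starRingEnd ℂ) := Complex.continuous_conj
  unfold embD
  split_ifs <;> fun_prop

lemma EllH_gw : Continuous gw := by
  have hc : Continuous (starRingEnd ℂ) := Complex.continuous_conj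
  unfold gw
  fun_prop

lemma EllH_pd {S : Type} [DecidableEq S] [Fintype S] {v w : S} (h : v ≠ w)
    {G : (S × Fin 2 → ℂ) → ℂ} (hG : Differentiable ℂ G) (z : Fin 2 → ℂ) (ξ : ℂ × ℂ) (j : Fin 2) :
    pd j (fun z => G (embD v w z ξ) * gw ξ) z =
      (if j = 0 then conj ξ.1 * (pd (v, 1) G (embD v w z ξ) * gw ξ)
        else conj ξ.2 * (pd (w, 1) G (embD v w z ξ) * gw ξ)) := by
  have h1 := (hG (embD v w z ξ)).hasFDerivAt.comp z (EllH_deriv h z ξ)
  have h2 := (h1.mul_const (gw ξ)).fderiv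
  unfold pd
  have h3 : (fun z => G (embD v w z ξ) * gw ξ) = fun y => (G ∘ fun z => embD v w z ξ) y * gw ξ := rfl
  rw [h3, h2]
  fin_cases j
  · simp
    ring
  · simp
    ring

theorem thm_EllH (h1 : St_HolP) (h2 : St_Gau) (h3 : St_EllI) : St_EllH := by
  intro S _ _ v w G hvw hG
  have key := h1 (Fin 2) D2 (fun z ξ => G (embD v w z ξ) * gw ξ) isOpen_D2
    ((hG.ent.continuous.comp (EllH_cont v w)).mul (EllH_gw.comp continuous_snd))
    (fun ξ => (hG.ent.comp fun z => (EllH_deriv hvw z ξ).differentiableAt).mul_const _)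
    (by
      intro z₀ hz₀
      rw [D2_eq_ball, Metric.mem_ball, dist_zero_right] at hz₀
      have hn := norm_nonneg z₀
      obtain ⟨C, c, hC, hc, hb⟩ := h3 S v w G hvw hG ((1 + ‖z₀‖) / 2) (by linarith) (by linarith)
      refine ⟨(1 - ‖z₀‖) / 2, fun ξ => C * Real.exp (-(c * (‖ξ.1‖ ^ 2 + ‖ξ.2‖ ^ 2))),
        by linarith, (h2.1 c hc).const_mul C, ?_⟩
      intro z hz ξ
      refine hb z (fun i => ?_) ξ
      have h4 := norm_le_pi_norm z i
      have h5 : ‖z‖ ≤ ‖z - z₀‖ + ‖z₀‖ := by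
        have := norm_add_le (z - z₀) z₀
        rwa [sub_add_cancel] at this
      linarith)
  refine ⟨key.1, ?_, ?_⟩
  · intro z hz
    have h4 := (key.2 z hz 0).2
    simp only [EllH_pd hvw hG.ent, if_true] at h4
    exact h4
  · intro z hz
    have h4 := (key.2 z hz 1).2
    simp only [EllH_pd hvw hG.ent, if_neg (one_ne_zero : (1 : Fin 2) ≠ 0)] at h4
    exact h4

end GAM
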