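import Pool.Agent.GAM.StD2

/-!
# GAM [EllI]: Gaussian bounds for the integrand of the Fock functional
-/

set_option autoImplicit false

namespace GAM

open scoped ComplexConjugate

lemma EllI_norm {S : Type} [Fintype S] [DecidableEq S] {v w : S} (h : v ≠ w) (z : Fin 2 → ℂ)
    (ξ : ℂ × ℂ) : (H (embD v w z ξ) (embD v w z ξ)).re =
      ‖ξ.1‖ ^ 2 * (1 + ‖z 0‖ ^ 2) + ‖ξ.2‖ ^ 2 * (1 + ‖z 1‖ ^ 2) := by
  rw [H_self_re, Fintype.sum_prod_type]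
  simp only [Fin.sum_univ_two]
  have h1 : ∀ s : S, ‖embD v w z ξ (s, 0)‖ ^ 2 + ‖embD v w z ξ (s, 1)‖ ^ 2 =
      (if s = v then ‖ξ.1‖ ^ 2 * (1 + ‖z 0‖ ^ 2) else 0) +
        (if s = w then ‖ξ.2‖ ^ 2 * (1 + ‖z 1‖ ^ 2) else 0) := by
    intro s
    by_cases hv : s = v
    · subst hv
      simp [embD, h]
      ring
    · by_cases hw : s = w
      · subst hw
        simp [embD, hv]
        ring
      · simp [embD, hv, hw]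
  simp only [h1]
  rw [Finset.sum_add_distrib]
  simp

lemma EllI_gw (ξ : ℂ × ℂ) : ‖gw ξ‖ = Real.exp (-(Real.pi * (‖ξ.1‖ ^ 2 + ‖ξ.2‖ ^ 2))) := by
  unfold gw
  rw [Complex.norm_exp, Complex.mul_conj', Complex.mul_conj']
  congr 1
  have h1 : (-((Real.pi : ℂ) * ((‖ξ.1‖ : ℂ) ^ 2 + (‖ξ.2‖ : ℂ) ^ 2))) =
      ((-(Real.pi * (‖ξ.1‖ ^ 2 + ‖ξ.2‖ ^ 2)) : ℝ) : ℂ) := by
    push_cast
    ring
  rw [h1, Complex.ofReal_re]

theorem thm_EllI : St_EllI := by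
  intro S _ _ v w G hvw hG r hr0 hr1
  have hpi := Real.pi_pos
  have hr2 : r ^ 2 < 1 := by nlinarith
  obtain ⟨C, hC⟩ := hG.bd (Real.pi * (1 - r ^ 2) / (4 * (1 + r ^ 2)))
    (by apply div_pos <;> nlinarith [mul_pos hpi (sub_pos.2 hr2)])
  have hC0 : 0 ≤ C := by
    have := hC 0
    rw [H_zero_left, Complex.zero_re, mul_zero, Real.exp_zero, mul_one] at this
    exact (norm_nonneg _).trans this
  refine ⟨C + 1, Real.pi * (1 - r ^ 2) / 4, by linarith,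
    by apply div_pos (mul_pos hpi (sub_pos.2 hr2)) (by norm_num), ?_⟩
  intro z hz ξ
  rw [norm_mul, EllI_gw]
  have h1 := hC (embD v w z ξ)
  rw [EllI_norm hvw] at h1
  have hz0 : ‖z 0‖ ^ 2 ≤ r ^ 2 := by gcongr; exact hz 0
  have hz1 : ‖z 1‖ ^ 2 ≤ r ^ 2 := by gcongr; exact hz 1
  have h2 : ‖ξ.1‖ ^ 2 * (1 + ‖z 0‖ ^ 2) + ‖ξ.2‖ ^ 2 * (1 + ‖z 1‖ ^ 2) ≤
      (1 + r ^ 2) * (‖ξ.1‖ ^ 2 + ‖ξ.2‖ ^ 2) := by
    nlinarith [mul_nonneg (sq_nonneg ‖ξ.1‖) (sub_nonneg.2 hz0),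
      mul_nonneg (sq_nonneg ‖ξ.2‖) (sub_nonneg.2 hz1)]
  set N : ℝ := ‖ξ.1‖ ^ 2 + ‖ξ.2‖ ^ 2 with hN
  have hr3 : 0 < 1 + r ^ 2 := by positivity
  have hk : 0 ≤ Real.pi / 2 + Real.pi * (1 - r ^ 2) / (4 * (1 + r ^ 2)) := by
    have := mul_pos hpi (sub_pos.2 hr2)
    positivity
  have h3 : ‖G (embD v w z ξ)‖ ≤ (C + 1) * Real.exp ((Real.pi - Real.pi * (1 - r ^ 2) / 4) * N) := by
    refine h1.trans ?_
    have h4 : (Real.pi / 2 + Real.pi * (1 - r ^ 2) / (4 * (1 + r ^ 2))) *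
        (‖ξ.1‖ ^ 2 * (1 + ‖z 0‖ ^ 2) + ‖ξ.2‖ ^ 2 * (1 + ‖z 1‖ ^ 2)) ≤
        (Real.pi - Real.pi * (1 - r ^ 2) / 4) * N := by
      refine (mul_le_mul_of_nonneg_left h2 hk).trans (le_of_eq ?_)
      field_simp
      ring
    gcongr
    linarith
  calc ‖G (embD v w z ξ)‖ * Real.exp (-(Real.pi * N))
      ≤ (C + 1) * Real.exp ((Real.pi - Real.pi * (1 - r ^ 2) / 4) * N) *
        Real.exp (-(Real.pi * N)) := by gcongr
    _ = (C + 1) * Real.exp (-(Real.pi * (1 - r ^ 2) / 4 * N)) := by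
      rw [mul_assoc, ← Real.exp_add]
      congr 2
      ring

end GAM
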