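import Pool.Agent.GAM.Bas

/-!
# GAM: the group acting on `ℂ^(S × 2)` (proved library)
-/

set_option autoImplicit false

namespace GAM

open scoped ComplexConjugate


section grp

variable {S : Type} [DecidableEq S] {v w : S}

theorem eps_real (v w s : S) : conj (eps v w s) = eps v w s := by
  unfold eps
  split_ifs <;> simp

theorem eps_mul_self (v w s : S) : eps v w s * eps v w s = 1 := by
  unfold eps
  split_ifs <;> simp

theorem eps_of_mem {s : S} (h : s = v ∨ s = w) : eps v w s = -1 := by simp [eps, h]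

theorem eps_of_not_mem {s : S} (h : ¬ (s = v ∨ s = w)) : eps v w s = 1 := by simp [eps, h]

/-- The product of the group. -/
noncomputable def gmul (g h : GG v w) : GG v w where
  a s := g.a s * h.a s - eps v w s * (conj (g.b s) * h.b s)
  b s := g.b s * h.a s + conj (g.a s) * h.b s
  rel s := by
    have h1 := g.rel s
    have h2 := h.rel s
    simp only [map_sub, map_mul, map_add, Complex.conj_conj, eps_real]
    linear_combination (h.a s * conj (h.a s) + eps v w s * (h.b s * conj (h.b s))) * h1 + h2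

/-- The inverse. -/
noncomputable def ginv (g : GG v w) : GG v w where
  a s := conj (g.a s)
  b s := - g.b s
  rel s := by
    have h1 := g.rel s
    simp only [map_neg, Complex.conj_conj]
    linear_combination h1

/-- The neutral element. -/
noncomputable def gone (v w : S) : GG v w where
  a _ := 1
  b _ := 0
  rel s := by simp

theorem act_v0 (g : GG v w) (x : S × Fin 2 → ℂ) {s : S} (hs : s = v ∨ s = w) :
    act g x (s, 0) = g.a s * x (s, 0) + conj (g.b s) * conj (x (s, 1)) := by
  simp only [act, if_pos hs, if_true]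

theorem act_v1 (g : GG v w) (x : S × Fin 2 → ℂ) {s : S} (hs : s = v ∨ s = w) :
    act g x (s, 1) = g.a s * x (s, 1) + conj (g.b s) * conj (x (s, 0)) := by
  simp only [act, if_pos hs]
  simp

theorem act_u0 (g : GG v w) (x : S × Fin 2 → ℂ) {s : S} (hs : ¬ (s = v ∨ s = w)) :
    act g x (s, 0) = g.a s * x (s, 0) - conj (g.b s) * x (s, 1) := by
  simp only [act, if_neg hs, if_true]

theorem act_u1 (g : GG v w) (x : S × Fin 2 → ℂ) {s : S} (hs : ¬ (s = v ∨ s = w)) :
    act g x (s, 1) = g.b s * x (s, 0) + conj (g.a s) * x (s, 1) := by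
  simp only [act, if_neg hs]
  simp

theorem act_add (g : GG v w) (x y : S × Fin 2 → ℂ) : act g (x + y) = act g x + act g y := by
  ext ⟨s, i⟩
  by_cases hs : s = v ∨ s = w
  · fin_cases i <;> simp only [Fin.zero_eta, Fin.mk_one, Pi.add_apply, act_v0 g _ hs,
      act_v1 g _ hs, map_add] <;> ring
  · fin_cases i <;> simp only [Fin.zero_eta, Fin.mk_one, Pi.add_apply,
      act_u0 g _ hs, act_u1 g _ hs] <;> ring

theorem act_smul (g : GG v w) (r : ℝ) (x : S × Fin 2 → ℂ) : act g (r • x) = r • act g x := by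
  ext ⟨s, i⟩
  by_cases hs : s = v ∨ s = w
  · fin_cases i <;> simp only [Fin.zero_eta, Fin.mk_one, Pi.smul_apply, act_v0 g _ hs,
      act_v1 g _ hs, Complex.real_smul, map_mul, Complex.conj_ofReal] <;> ring
  · fin_cases i <;> simp only [Fin.zero_eta, Fin.mk_one, Pi.smul_apply,
      act_u0 g _ hs, act_u1 g _ hs, Complex.real_smul] <;> ring

/-- The action as a real linear map. -/
noncomputable def actL (g : GG v w) : (S × Fin 2 → ℂ) →ₗ[ℝ] (S × Fin 2 → ℂ) where
  toFun := act g
  map_add' := act_add g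
  map_smul' r x := act_smul g r x

theorem actL_apply (g : GG v w) (x : S × Fin 2 → ℂ) : actL g x = act g x := rfl

theorem act_zero (g : GG v w) : act g 0 = 0 := (actL g).map_zero

theorem act_neg (g : GG v w) (x : S × Fin 2 → ℂ) : act g (-x) = -act g x := (actL g).map_neg x

theorem act_sub (g : GG v w) (x y : S × Fin 2 → ℂ) : act g (x - y) = act g x - act g y :=
  (actL g).map_sub x y

theorem act_nsmul (g : GG v w) (n : ℕ) (x : S × Fin 2 → ℂ) : act g (n • x) = n • act g x :=
  map_nsmul (actL g) n x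

theorem act_zsmul (g : GG v w) (n : ℤ) (x : S × Fin 2 → ℂ) : act g (n • x) = n • act g x :=
  map_zsmul (actL g) n x

theorem act_sum {κ : Type} (t : Finset κ) (g : GG v w) (x : κ → S × Fin 2 → ℂ) :
    act g (∑ i ∈ t, x i) = ∑ i ∈ t, act g (x i) := map_sum (actL g) x t

theorem act_mul (g h : GG v w) (x : S × Fin 2 → ℂ) : act (gmul g h) x = act g (act h x) := by
  ext ⟨s, i⟩
  by_cases hs : s = v ∨ s = w
  · fin_cases i <;>
    simp only [Fin.zero_eta, Fin.mk_one, act_v0 _ _ hs, act_v1 _ _ hs, gmul, eps_of_mem hs,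
      map_add, map_mul, Complex.conj_conj] <;> ring
  · fin_cases i <;>
    simp only [Fin.zero_eta, Fin.mk_one, act_u0 _ _ hs, act_u1 _ _ hs, gmul, eps_of_not_mem hs,
      map_add, map_mul, map_sub, map_one, Complex.conj_conj] <;> ring

theorem act_one (x : S × Fin 2 → ℂ) : act (gone v w) x = x := by
  ext ⟨s, i⟩
  by_cases hs : s = v ∨ s = w
  · fin_cases i <;> simp only [Fin.zero_eta, Fin.mk_one, act_v0 _ _ hs, act_v1 _ _ hs,
      gone, map_zero] <;> ring
  · fin_cases i <;> simp only [Fin.zero_eta, Fin.mk_one,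
      act_u0 _ _ hs, act_u1 _ _ hs, gone, map_zero, map_one] <;> ring

theorem GG.ext' {g h : GG v w} (ha : ∀ s, g.a s = h.a s) (hb : ∀ s, g.b s = h.b s) : g = h := by
  cases g
  cases h
  simp only [GG.mk.injEq]
  exact ⟨funext ha, funext hb⟩

theorem ginv_mul (g : GG v w) : gmul (ginv g) g = gone v w := by
  refine GG.ext' (fun s => ?_) (fun s => ?_)
  · have h1 := g.rel s
    simp only [gmul, ginv, gone, map_neg]
    linear_combination h1
  · simp only [gmul, ginv, gone, Complex.conj_conj]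
    ring

theorem mul_ginv (g : GG v w) : gmul g (ginv g) = gone v w := by
  refine GG.ext' (fun s => ?_) (fun s => ?_)
  · have h1 := g.rel s
    simp only [gmul, ginv, gone]
    linear_combination h1
  · simp only [gmul, ginv, gone]
    ring

theorem gmul_assoc (g h k : GG v w) : gmul (gmul g h) k = gmul g (gmul h k) := by
  refine GG.ext' (fun s => ?_) (fun s => ?_)
  · simp only [gmul, map_add, map_sub, map_mul, Complex.conj_conj, eps_real]
    ring
  · simp only [gmul, map_add, map_sub, map_mul, Complex.conj_conj, eps_real]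
    ring

theorem ginv_act (g : GG v w) (x : S × Fin 2 → ℂ) : act (ginv g) (act g x) = x := by
  rw [← act_mul, ginv_mul, act_one]

theorem act_ginv (g : GG v w) (x : S × Fin 2 → ℂ) : act g (act (ginv g) x) = x := by
  rw [← act_mul, mul_ginv, act_one]

theorem act_inj (g : GG v w) : Function.Injective (act g) :=
  Function.LeftInverse.injective (ginv_act g)

theorem act_surj (g : GG v w) : Function.Surjective (act g) :=
  Function.RightInverse.surjective (act_ginv g)

/-! ### The action on the bidisc -/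

omit [DecidableEq S] in
theorem vw_mem (v w : S) (i : Fin 2) : vw v w i = v ∨ vw v w i = w := by
  unfold vw
  split_ifs
  · exact Or.inl rfl
  · exact Or.inr rfl

theorem rel_vw (g : GG v w) (i : Fin 2) :
    g.a (vw v w i) * conj (g.a (vw v w i)) - g.b (vw v w i) * conj (g.b (vw v w i)) = 1 := by
  have h := g.rel (vw v w i)
  rw [eps_of_mem (vw_mem v w i)] at h
  linear_combination h

theorem normSq_vw (g : GG v w) (i : Fin 2) :
    ‖g.a (vw v w i)‖ ^ 2 - ‖g.b (vw v w i)‖ ^ 2 = 1 := by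
  have h := rel_vw g i
  rw [Complex.mul_conj, Complex.mul_conj, Complex.normSq_eq_norm_sq,
    Complex.normSq_eq_norm_sq] at h
  exact_mod_cast h

/-- The denominator. -/
noncomputable def den (g : GG v w) (z : Fin 2 → ℂ) (i : Fin 2) : ℂ :=
  g.b (vw v w i) * z i + conj (g.a (vw v w i))

/-- The numerator. -/
noncomputable def num (g : GG v w) (z : Fin 2 → ℂ) (i : Fin 2) : ℂ :=
  g.a (vw v w i) * z i + conj (g.b (vw v w i))

theorem mob_apply (g : GG v w) (z : Fin 2 → ℂ) (i : Fin 2) : mob g z i = num g z i / den g z i :=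
  rfl

theorem den_num (g : GG v w) (z : Fin 2 → ℂ) (i : Fin 2) :
    ‖den g z i‖ ^ 2 - ‖num g z i‖ ^ 2 = 1 - ‖z i‖ ^ 2 := by
  have h := rel_vw g i
  have h2 : den g z i * conj (den g z i) - num g z i * conj (num g z i) =
      1 - z i * conj (z i) := by
    unfold den num
    simp only [map_add, map_mul, Complex.conj_conj]
    linear_combination (1 - z i * conj (z i)) * h
  rw [Complex.mul_conj, Complex.mul_conj, Complex.mul_conj, Complex.normSq_eq_norm_sq,
    Complex.normSq_eq_norm_sq, Complex.normSq_eq_norm_sq] at h2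
  exact_mod_cast h2

theorem den_ne (g : GG v w) {z : Fin 2 → ℂ} (hz : z ∈ D2) (i : Fin 2) : den g z i ≠ 0 := by
  intro h
  have h1 := den_num g z i
  rw [h, norm_zero] at h1
  have h2 := hz i
  have h3 := norm_nonneg (z i)
  nlinarith [sq_nonneg ‖num g z i‖]

theorem mob_mem (g : GG v w) {z : Fin 2 → ℂ} (hz : z ∈ D2) : mob g z ∈ D2 := by
  intro i
  have h0 : 0 < ‖den g z i‖ := norm_pos_iff.mpr (den_ne g hz i)
  rw [mob_apply, norm_div, div_lt_one h0]
  have h1 := den_num g z i
  have h2 := hz i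
  have h3 := norm_nonneg (z i)
  nlinarith [norm_nonneg (num g z i)]

theorem zero_mem_D2 : (0 : Fin 2 → ℂ) ∈ D2 := by
  intro i
  simp

theorem isOpen_D2 : IsOpen D2 := by
  have : D2 = ⋂ i : Fin 2, {z : Fin 2 → ℂ | ‖z i‖ < 1} := by
    ext z
    simp [D2]
  rw [this]
  exact isOpen_iInter_of_finite fun i =>
    isOpen_lt (continuous_norm.comp (continuous_apply i)) continuous_const

theorem D2_eq_ball : D2 = Metric.ball (0 : Fin 2 → ℂ) 1 := by
  ext z
  rw [mem_ball_zero_iff, pi_norm_lt_iff one_pos]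
  rfl

theorem convex_D2 : Convex ℝ D2 := by
  rw [D2_eq_ball]
  exact convex_ball 0 1

theorem isPreconnected_D2 : IsPreconnected D2 := convex_D2.isPreconnected

theorem mob_mul (g h : GG v w) {z : Fin 2 → ℂ} (hz : z ∈ D2) :
    mob (gmul g h) z = mob g (mob h z) := by
  ext i
  have h1 := den_ne h hz i
  have h2 := den_ne g (mob_mem h hz) i
  have h3 := den_ne (gmul g h) hz i
  rw [mob_apply, mob_apply, div_eq_div_iff h3 h2]
  unfold den num
  rw [mob_apply]
  simp only [gmul, eps_of_mem (vw_mem v w i), map_add, map_mul, map_sub, Complex.conj_conj, map_neg,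
    map_one]
  unfold den at h1 ⊢
  unfold num
  field_simp
  ring

theorem mob_one (z : Fin 2 → ℂ) : mob (gone v w) z = z := by
  ext i
  simp [mob, gone]

theorem mob_ginv (g : GG v w) {z : Fin 2 → ℂ} (hz : z ∈ D2) : mob (ginv g) (mob g z) = z := by
  rw [← mob_mul _ _ hz, ginv_mul, mob_one]

theorem mob_mob_ginv (g : GG v w) {z : Fin 2 → ℂ} (hz : z ∈ D2) :
    mob g (mob (ginv g) z) = z := by
  rw [← mob_mul _ _ hz, mul_ginv, mob_one]

theorem mob_zero (g : GG v w) (i : Fin 2) :
    mob g 0 i = conj (g.b (vw v w i)) / conj (g.a (vw v w i)) := by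
  simp [mob]

theorem mob_trans (hvw : v ≠ w) {z : Fin 2 → ℂ} (hz : z ∈ D2) : ∃ g : GG v w, mob g 0 = z := by
  have hp : ∀ i, 0 < 1 - ‖z i‖ ^ 2 := fun i => by
    have := hz i
    have := norm_nonneg (z i)
    nlinarith
  let y : S → ℂ := fun s => if s = v then z 0 else z 1
  let t : S → ℝ := fun s => if s = v ∨ s = w then 1 / Real.sqrt (1 - ‖y s‖ ^ 2) else 1
  let y' : S → ℂ := fun s => if s = v ∨ s = w then y s else 0
  have hy : ∀ s, (s = v ∨ s = w) → 0 < 1 - ‖y s‖ ^ 2 := by
    intro s hs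
    by_cases h : s = v
    · simpa [y, h] using hp 0
    · simpa [y, h] using hp 1
  refine ⟨⟨fun s => t s, fun s => t s * conj (y' s), fun s => ?_⟩, ?_⟩
  · by_cases hs : s = v ∨ s = w
    · rw [eps_of_mem hs]
      have h1 := hy s hs
      have ht : t s ^ 2 * (1 - ‖y s‖ ^ 2) = 1 := by
        simp only [t, if_pos hs]
        rw [div_pow, one_pow, Real.sq_sqrt h1.le]
        field_simp
      have hn : y s * conj (y s) = ((‖y s‖ ^ 2 : ℝ) : ℂ) := by
        rw [Complex.mul_conj, Complex.normSq_eq_norm_sq]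
      have hc : ((t s : ℂ)) ^ 2 * (1 - ((‖y s‖ ^ 2 : ℝ) : ℂ)) = 1 := by exact_mod_cast ht
      simp only [y', if_pos hs, map_mul, Complex.conj_ofReal, Complex.conj_conj]
      linear_combination hc - (t s : ℂ) ^ 2 * hn
    · rw [eps_of_not_mem hs]
      simp [y', t, if_neg hs]
  · ext i
    have h0 : ∀ s, (t s : ℂ) ≠ 0 := by
      intro s
      by_cases hs : s = v ∨ s = w
      · have h1 := hy s hs
        have : 0 < t s := by
          simp only [t, if_pos hs]
          positivity
        exact_mod_cast this.ne'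
      · simp [t, if_neg hs]
    rw [mob_zero]
    simp only [map_mul, Complex.conj_ofReal, Complex.conj_conj]
    rw [mul_div_cancel_left₀ _ (h0 _)]
    fin_cases i
    · simp [y', y, vw]
    · simp [y', y, vw, hvw.symm]

variable [Fintype S]

omit [DecidableEq S] in
theorem sum_prod_two (f : S × Fin 2 → ℂ) : ∑ p, f p = ∑ s, (f (s, 0) + f (s, 1)) := by
  rw [Fintype.sum_prod_type]
  exact Finset.sum_congr rfl fun s _ => by rw [Fin.sum_univ_two]

theorem E_act (g : GG v w) (x y : S × Fin 2 → ℂ) : E (act g x) (act g y) = E x y := by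
  unfold E H
  rw [sum_prod_two, sum_prod_two, Complex.im_sum, Complex.im_sum]
  refine Finset.sum_congr rfl fun s _ => ?_
  have h1 := g.rel s
  by_cases hs : s = v ∨ s = w
  · rw [eps_of_mem hs] at h1
    simp only [act_v0 _ _ hs, act_v1 _ _ hs, map_add, map_mul, Complex.conj_conj]
    have key : (g.a s * x (s, 0) + conj (g.b s) * conj (x (s, 1))) *
          (conj (g.a s) * conj (y (s, 0)) + g.b s * y (s, 1)) +
        (g.a s * x (s, 1) + conj (g.b s) * conj (x (s, 0))) *
          (conj (g.a s) * conj (y (s, 1)) + g.b s * y (s, 0)) =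
        (x (s, 0) * conj (y (s, 0)) + x (s, 1) * conj (y (s, 1))) +
        ((g.b s * conj (g.b s)) * (x (s, 0) * conj (y (s, 0)) + conj (x (s, 0)) * y (s, 0) +
          x (s, 1) * conj (y (s, 1)) + conj (x (s, 1)) * y (s, 1)) +
        (g.a s * g.b s * (x (s, 0) * y (s, 1) + x (s, 1) * y (s, 0)) +
          conj (g.a s) * conj (g.b s) * (conj (x (s, 0)) * conj (y (s, 1)) +
            conj (x (s, 1)) * conj (y (s, 0))))) := by
      linear_combination (x (s, 0) * conj (y (s, 0)) + x (s, 1) * conj (y (s, 1))) * h1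
    rw [key, Complex.add_im]
    suffices h : ((g.b s * conj (g.b s)) * (x (s, 0) * conj (y (s, 0)) + conj (x (s, 0)) * y (s, 0) +
          x (s, 1) * conj (y (s, 1)) + conj (x (s, 1)) * y (s, 1)) +
        (g.a s * g.b s * (x (s, 0) * y (s, 1) + x (s, 1) * y (s, 0)) +
          conj (g.a s) * conj (g.b s) * (conj (x (s, 0)) * conj (y (s, 1)) +
            conj (x (s, 1)) * conj (y (s, 0))))).im = 0 by rw [h, add_zero]
    rw [← Complex.conj_eq_iff_im]
    simp only [map_add, map_mul, Complex.conj_conj]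
    ring
  · rw [eps_of_not_mem hs] at h1
    simp only [act_u0 _ _ hs, act_u1 _ _ hs, map_add, map_sub, map_mul, Complex.conj_conj]
    congr 1
    linear_combination (x (s, 0) * conj (y (s, 0)) + x (s, 1) * conj (y (s, 1))) * h1

/-! ### Lattices -/

/-- The action as a real linear equivalence. -/
noncomputable def actE (g : GG v w) : (S × Fin 2 → ℂ) ≃ₗ[ℝ] (S × Fin 2 → ℂ) :=
  { actL g with
    invFun := act (ginv g)
    left_inv := ginv_act g
    right_inv := act_ginv g }

omit [Fintype S] in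
theorem actE_apply (g : GG v w) (x : S × Fin 2 → ℂ) : actE g x = act g x := rfl

omit [Fintype S] in
theorem actE_symm_apply (g : GG v w) (x : S × Fin 2 → ℂ) : (actE g).symm x = act (ginv g) x := rfl

omit [Fintype S] in
theorem continuous_act (g : GG v w) : Continuous (act g) := by
  refine continuous_pi fun p => ?_
  obtain ⟨s, i⟩ := p
  by_cases hs : s = v ∨ s = w
  · fin_cases i
    · simp only [Fin.zero_eta, act_v0 _ _ hs]
      fun_prop
    · simp only [Fin.mk_one, act_v1 _ _ hs]
      fun_prop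
  · fin_cases i
    · simp only [Fin.zero_eta, act_u0 _ _ hs]
      fun_prop
    · simp only [Fin.mk_one, act_u1 _ _ hs]
      fun_prop

/-- The lattice `g⁻¹ L`. -/
noncomputable def pull (g : GG v w) (L : Submodule ℤ (S × Fin 2 → ℂ)) :
    Submodule ℤ (S × Fin 2 → ℂ) where
  carrier := {x | act g x ∈ L}
  add_mem' {x y} hx hy := by
    change act g (x + y) ∈ L
    rw [act_add]
    exact L.add_mem hx hy
  zero_mem' := by
    change act g 0 ∈ L
    rw [act_zero]
    exact L.zero_mem
  smul_mem' n x hx := by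
    change act g (n • x) ∈ L
    rw [act_zsmul]
    exact L.smul_mem n hx

omit [Fintype S] in
theorem mem_pull (g : GG v w) (L : Submodule ℤ (S × Fin 2 → ℂ)) (x : S × Fin 2 → ℂ) :
    x ∈ pull g L ↔ act g x ∈ L := Iff.rfl

theorem PLat.pull {g : GG v w} {L : Submodule ℤ (S × Fin 2 → ℂ)} {χ : (S × Fin 2 → ℂ) → ℂ}
    (h : PLat L χ) : PLat (pull g L) fun l => χ (act g l) := by
  refine ⟨?_, ?_, ?_, ?_, ?_⟩
  · obtain ⟨b, hb⟩ := h.basis
    refine ⟨b.map (actE g).symm, ?_⟩
    apply le_antisymm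
    · intro x hx
      rw [mem_pull, hb] at hx
      have h1 : x = (actE g).symm (act g x) := by rw [actE_symm_apply, ginv_act]
      rw [h1]
      have h2 : Submodule.span ℤ (Set.range b) ≤
          (Submodule.span ℤ (Set.range (b.map (actE g).symm))).comap
            ((actE g).symm.toLinearMap.restrictScalars ℤ) := by
        rw [Submodule.span_le]
        rintro _ ⟨i, rfl⟩
        refine Submodule.subset_span ⟨i, ?_⟩
        simp
      exact h2 hx
    · rw [Submodule.span_le]
      rintro _ ⟨i, rfl⟩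
      change act g _ ∈ L
      rw [Module.Basis.map_apply, actE_symm_apply, act_ginv, hb]
      exact Submodule.subset_span ⟨i, rfl⟩
  · intro l hl m hm
    obtain ⟨n, hn⟩ := h.int _ hl _ hm
    exact ⟨n, by rw [← hn, E_act]⟩
  · intro x hx
    refine h.self _ fun l hl => ?_
    obtain ⟨n, hn⟩ := hx (act (ginv g) l) (by rw [mem_pull, act_ginv]; exact hl)
    exact ⟨n, by rw [← hn, ← E_act g x, act_ginv]⟩
  · intro l hl
    exact h.pm _ hl
  · intro l hl m hm
    rw [act_add, h.add _ hl _ hm, E_act]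

omit [Fintype S] in
theorem Maps.pull (g : GG v w) (L : Submodule ℤ (S × Fin 2 → ℂ)) (χ : (S × Fin 2 → ℂ) → ℂ) :
    Maps g (pull g L) L (fun l => χ (act g l)) χ :=
  ⟨fun _ => Iff.rfl, fun _ _ => rfl⟩

omit [Fintype S] in
theorem Maps.comp {g h : GG v w} {L₀ L₁ L₂ : Submodule ℤ (S × Fin 2 → ℂ)}
    {χ₀ χ₁ χ₂ : (S × Fin 2 → ℂ) → ℂ} (h1 : Maps g L₁ L₀ χ₁ χ₀) (h2 : Maps h L₂ L₁ χ₂ χ₁) :
    Maps (gmul g h) L₂ L₀ χ₂ χ₀ := by
  refine ⟨fun x => ?_, fun l hl => ?_⟩
  · rw [act_mul, ← h1.lat, ← h2.lat]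
  · rw [act_mul, h1.chi _ ((h2.lat l).mp hl), h2.chi l hl]

omit [Fintype S] in
theorem Maps.inv {g : GG v w} {L₀ L₁ : Submodule ℤ (S × Fin 2 → ℂ)}
    {χ₀ χ₁ : (S × Fin 2 → ℂ) → ℂ} (h1 : Maps g L₁ L₀ χ₁ χ₀) :
    Maps (ginv g) L₀ L₁ χ₀ χ₁ := by
  refine ⟨fun x => ?_, fun l hl => ?_⟩
  · rw [h1.lat, act_ginv]
  · have h3 : act (ginv g) l ∈ L₁ := by rw [h1.lat, act_ginv]; exact hl
    rw [← h1.chi _ h3, act_ginv]

omit [Fintype S] in
theorem OddTor.act {g : GG v w} {L₀ L₁ : Submodule ℤ (S × Fin 2 → ℂ)}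
    {χ₀ χ₁ : (S × Fin 2 → ℂ) → ℂ} (h1 : Maps g L₁ L₀ χ₁ χ₀) {x : S × Fin 2 → ℂ}
    (hx : OddTor L₁ x) : OddTor L₀ (act g x) := by
  obtain ⟨n, hn, h2⟩ := hx
  exact ⟨n, hn, by rw [← act_zsmul]; exact (h1.lat _).mp h2⟩

end grp


end GAM
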