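import Pool.Agent.GAM.StD
import Pool.Agent.GAM.GrpD

/-!
# GAM: frozen sub-statements for section 5 (Fock vectors, exchange theorem, arithmetic)
-/

set_option autoImplicit false

namespace GAM

open scoped ComplexConjugate

/-! ## Integrals over `ℂ × ℂ` -/

/-- The Gaussian weight. -/
noncomputable def gw (ξ : ℂ × ℂ) : ℂ :=
  Complex.exp (-(Real.pi * (ξ.1 * conj ξ.1 + ξ.2 * conj ξ.2)))

/-- [HolP] holomorphic parameter integrals -/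
def St_HolP : Prop := ∀ (ι : Type) [Fintype ι] [DecidableEq ι] (U : Set (ι → ℂ))
  (f : (ι → ℂ) → ℂ × ℂ → ℂ), IsOpen U → Continuous (fun p : (ι → ℂ) × (ℂ × ℂ) => f p.1 p.2) →
  (∀ ξ, Differentiable ℂ fun z => f z ξ) →
  (∀ z₀ ∈ U, ∃ (δ : ℝ) (B : ℂ × ℂ → ℝ), 0 < δ ∧ MeasureTheory.Integrable B ∧
    ∀ z, ‖z - z₀‖ < δ → ∀ ξ, ‖f z ξ‖ ≤ B ξ) →
  DifferentiableOn ℂ (fun z => ∫ ξ, f z ξ) U ∧
  ∀ z ∈ U, ∀ j, MeasureTheory.Integrable (fun ξ => pd j (fun z => f z ξ) z) ∧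
    pd j (fun z => ∫ ξ, f z ξ) z = ∫ ξ, pd j (fun z => f z ξ) z

/-- [Gau] Gaussian integrals -/
def St_Gau : Prop :=
  (∀ c : ℝ, 0 < c → MeasureTheory.Integrable fun ξ : ℂ × ℂ =>
    Real.exp (-(c * (‖ξ.1‖ ^ 2 + ‖ξ.2‖ ^ 2)))) ∧
  (∀ c A : ℝ, 0 < c → ∃ C : ℝ, 0 < C ∧ ∀ ξ : ℂ × ℂ,
    (1 + ‖ξ.1‖ + ‖ξ.2‖) * Real.exp (A * (‖ξ.1‖ + ‖ξ.2‖) - c * (‖ξ.1‖ ^ 2 + ‖ξ.2‖ ^ 2)) ≤
      C * Real.exp (-(c / 2 * (‖ξ.1‖ ^ 2 + ‖ξ.2‖ ^ 2)))) ∧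
  (∀ ξ : ℂ × ℂ, ‖gw ξ‖ = Real.exp (-(Real.pi * (‖ξ.1‖ ^ 2 + ‖ξ.2‖ ^ 2)))) ∧
  (∫ ξ : ℂ × ℂ, gw ξ) = 1

/-- [GroU] uniform growth of the functions `F_x` -/
def St_GroU : Prop := ∀ (ι : Type) [Fintype ι] (L : Submodule ℤ (ι → ℂ)) (χ θ : (ι → ℂ) → ℂ),
  PLat L χ → IsTh L χ θ → ∃ C : ℝ, 0 < C ∧
    ∀ x v, ‖F θ x v‖ ≤ C * Real.exp (Real.pi / 2 * (H v v).re)

/-- [GroC] closure properties of the growth condition -/
def St_GroC : Prop := ∀ (ι : Type) [Fintype ι] [DecidableEq ι],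
  (∀ G : (ι → ℂ) → ℂ, Gro G → ∀ j, Gro (pd j G)) ∧
  (∀ G : (ι → ℂ) → ℂ, Gro G → ∀ j, Gro (fun v => v j * G v)) ∧
  (∀ G : (ι → ℂ) → ℂ, Gro G → ∀ c : ℂ, Gro (fun v => c * G v)) ∧
  (∀ G G' : (ι → ℂ) → ℂ, Gro G → Gro G' → Gro (fun v => G v + G' v))

/-- [EllI] Gaussian bounds for the integrand -/
def St_EllI : Prop := ∀ (S : Type) [Fintype S] [DecidableEq S] (v w : S)
  (G : (S × Fin 2 → ℂ) → ℂ), v ≠ w → Gro G → ∀ r : ℝ, 0 ≤ r → r < 1 → ∃ C c : ℝ, 0 < C ∧ 0 < c ∧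
    ∀ z : Fin 2 → ℂ, (∀ i, ‖z i‖ ≤ r) → ∀ ξ : ℂ × ℂ,
      ‖G (embD v w z ξ) * gw ξ‖ ≤ C * Real.exp (-(c * (‖ξ.1‖ ^ 2 + ‖ξ.2‖ ^ 2)))

/-- [EllH] derivatives of the Fock functional under the integral sign -/
def St_EllH : Prop := ∀ (S : Type) [Fintype S] [DecidableEq S] (v w : S)
  (G : (S × Fin 2 → ℂ) → ℂ), v ≠ w → Gro G →
  DifferentiableOn ℂ (fun z => ell v w z G) D2 ∧
  (∀ z ∈ D2, pd 0 (fun z => ell v w z G) z =
    ∫ ξ : ℂ × ℂ, conj ξ.1 * (pd (v, 1) G (embD v w z ξ) * gw ξ)) ∧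
  (∀ z ∈ D2, pd 1 (fun z => ell v w z G) z =
    ∫ ξ : ℂ × ℂ, conj ξ.2 * (pd (w, 1) G (embD v w z ξ) * gw ξ))

/-- [EllB] integration by parts -/
def St_EllB : Prop := ∀ (S : Type) [Fintype S] [DecidableEq S] (v w : S)
  (G : (S × Fin 2 → ℂ) → ℂ), v ≠ w → Gro G → ∀ z ∈ D2,
  (∫ ξ : ℂ × ℂ, conj ξ.1 * (G (embD v w z ξ) * gw ξ)) =
    1 / Real.pi * ell v w z (pd (v, 0) G) ∧
  (∫ ξ : ℂ × ℂ, conj ξ.2 * (G (embD v w z ξ) * gw ξ)) =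
    1 / Real.pi * ell v w z (pd (w, 0) G)

/-- [EllZ] the mean value property -/
def St_EllZ : Prop := ∀ (S : Type) [Fintype S] [DecidableEq S] (v w : S)
  (G : (S × Fin 2 → ℂ) → ℂ), v ≠ w → Gro G → ell v w 0 G = G 0

/-! ## Fock vectors -/

/-- The point at which `θ` is evaluated in the closed formula for `psi`. -/
noncomputable def clo {S : Type} [DecidableEq S] (v w : S) (g : GG v w) (u : S × Fin 2 → ℂ)
    (y : ℂ × ℂ) : S × Fin 2 → ℂ := fun p =>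
  if p.1 = v then (if p.2 = 0 then y.1 else (u (v, 1) + conj (g.b v) * conj y.1) / conj (g.a v))
  else if p.1 = w then
    (if p.2 = 0 then y.2 else (u (w, 1) + conj (g.b w) * conj y.2) / conj (g.a w))
  else act g u p

/-- The integrand in the closed formula for `psi`. -/
noncomputable def cli {S : Type} [DecidableEq S] (v w : S) (g : GG v w)
    (θ : (S × Fin 2 → ℂ) → ℂ) (u : S × Fin 2 → ℂ) (y : ℂ × ℂ) : ℂ :=
  θ (clo v w g u y) * Complex.exp (Real.pi * (conj y.1 * (u (v, 0) / conj (g.a v)) +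
    conj y.2 * (u (w, 0) / conj (g.a w)))) * gw y

/-- [PsiC] closed formula for `psi` -/
def St_PsiC : Prop := ∀ (S : Type) [Fintype S] [DecidableEq S] (v w : S) (g : GG v w)
  (θ : (S × Fin 2 → ℂ) → ℂ) (u : S × Fin 2 → ℂ), v ≠ w →
  psi v w θ (mob g 0) (act g u) * Complex.exp (Real.pi / 2 * H u u) =
    Complex.exp (-(Real.pi * (g.b v / conj (g.a v) * (u (v, 0) * u (v, 1)) +
      g.b w / conj (g.a w) * (u (w, 0) * u (w, 1))))) * ∫ y : ℂ × ℂ, cli v w g θ u y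

/-- [PsiE] the integral in the closed formula is entire -/
def St_PsiE : Prop := ∀ (S : Type) [Fintype S] [DecidableEq S] (v w : S) (g : GG v w)
  (L : Submodule ℤ (S × Fin 2 → ℂ)) (χ θ : (S × Fin 2 → ℂ) → ℂ), v ≠ w → PLat L χ →
  IsTh L χ θ → Differentiable ℂ fun u => ∫ y : ℂ × ℂ, cli v w g θ u y

/-- [PsiJ] joint continuity of `psi` -/
def St_PsiJ : Prop := ∀ (S : Type) [Fintype S] [DecidableEq S] (v w : S)
  (L : Submodule ℤ (S × Fin 2 → ℂ)) (χ θ : (S × Fin 2 → ℂ) → ℂ), v ≠ w → PLat L χ →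
  IsTh L χ θ → ContinuousOn (fun p : (Fin 2 → ℂ) × (S × Fin 2 → ℂ) => psi v w θ p.1 p.2)
    (D2 ×ˢ Set.univ)

/-- The vector with block `h` at `u`, and `0` elsewhere. -/
def hU {S : Type} [DecidableEq S] (u : S) (h : Fin 2 → ℂ) : S × Fin 2 → ℂ := fun p =>
  if p.1 = u then h p.2 else 0

/-- [DirD] the derivatives of `psi` in the directions of the block `u` -/
def St_DirD : Prop := ∀ (S : Type) [Fintype S] [DecidableEq S] (u v w : S)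
  (L : Submodule ℤ (S × Fin 2 → ℂ)) (χ θ : (S × Fin 2 → ℂ) → ℂ), u ≠ v → u ≠ w → v ≠ w →
  PLat L χ → IsTh L χ θ → ∀ z ∈ D2, ∀ (x : S × Fin 2 → ℂ) (h : Fin 2 → ℂ),
  HasDerivAt (fun t : ℂ => Complex.exp (Real.pi / 2 * H (t • hU u h) (t • hU u h) -
      Real.pi * Complex.I * E (t • hU u h) x) * psi v w θ z (x + t • hU u h))
    (h 0 * dpsi v w u 0 θ z x + h 1 * dpsi v w u 1 θ z x) 0

/-- [EquP] equivariance of `psi` -/
def St_EquP : Prop := ∀ (S : Type) [Fintype S] [DecidableEq S] (v w : S) (g : GG v w)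
  (L₀ L₁ : Submodule ℤ (S × Fin 2 → ℂ)) (χ₀ θ₀ χ₁ θ₁ : (S × Fin 2 → ℂ) → ℂ),
  v ≠ w → PLat L₀ χ₀ → PLat L₁ χ₁ → IsTh L₀ χ₀ θ₀ → IsTh L₁ χ₁ θ₁ → (∃ v, θ₀ v ≠ 0) →
  (∃ v, θ₁ v ≠ 0) → Maps g L₁ L₀ χ₁ χ₀ → ∀ z ∈ D2, ∃ j : ℂ, j ≠ 0 ∧
    ∀ x, psi v w θ₀ (mob g z) (act g x) = j * psi v w θ₁ z x

/-! ## Derivations -/

/-- [EulW] the Euler operator on Taylor coefficients -/
def St_EulW : Prop := ∀ (ι : Type) [Fintype ι] [DecidableEq ι] (A : ι → ℂ)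
  (f : (ι → ℂ) → ℂ) (l : List ι), AnalyticAt ℂ f 0 →
  pdl l (eul A f) 0 = (l.map A).sum * pdl l f 0

/-- The doubled word. -/
def dbl {S : Type} (v w : S) (l : List (Fin 2)) : List (S × Fin 2) :=
  l.flatMap fun i => [(vw v w i, 0), (vw v w i, 1)]

/-- [EllW] Taylor coefficients of the Fock functional -/
def St_EllW : Prop := ∀ (S : Type) [Fintype S] [DecidableEq S] (v w : S)
  (G : (S × Fin 2 → ℂ) → ℂ), v ≠ w → Gro G → ∀ l : List (Fin 2),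
  pdl l (fun z => ell v w z G) 0 = (1 / Real.pi : ℂ) ^ l.length * pdl (dbl v w l) G 0

/-- [DelF] the action of `δ` on the four functions -/
def St_DelF : Prop := ∀ (S : Type) [Fintype S] [DecidableEq S] (u v w : S)
  (δ : Derivation ℚ ℂ ℂ) (L : Submodule ℤ (S × Fin 2 → ℂ)) (χ θ : (S × Fin 2 → ℂ) → ℂ)
  (A : S × Fin 2 → ℂ) (k : ℂ), u ≠ v → u ≠ w → v ≠ w → PLat L χ → IsTh L χ θ →
  HasExp δ L θ A k → ∃ B : Fin 2 → ℂ, ∀ (x x' : S × Fin 2 → ℂ) (y : Fin 3 → S × Fin 2 → ℂ),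
    OddTor L x → OddTor L x' → (∀ i, OddTor L (y i)) → ∀ i : Fin 4,
    IsDelD δ (F4 v w u θ x x' y i) (fun z =>
      (2 * k + if i = 3 then A (u, 0) + A (u, 1) else 0) * F4 v w u θ x x' y i z +
        eulD B (F4 v w u θ x x' y i) z)

/-! ## The algebraic relation -/

/-- [HomI] homogeneous algebraic independence of three functions -/
def St_HomI : Prop := ∀ f : Fin 3 → (Fin 2 → ℂ) → ℂ, (∀ i, AnalyticAt ℂ (f i) 0) →
  (Matrix.of fun i j : Fin 3 => if j = 0 then f i 0 else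
    if j = 1 then pd 0 (f i) 0 else pd 1 (f i) 0).det ≠ 0 →
  ∀ (m : ℕ) (P : MvPolynomial (Fin 3) ℂ), P.IsHomogeneous m →
    (∀ᶠ z in nhds (0 : Fin 2 → ℂ), MvPolynomial.eval (fun i => f i z) P = 0) → P = 0

/-- [MinP] a relation of minimal degree in the last variable -/
def St_MinP : Prop := ∀ (X : Type) (f : Fin 4 → X → ℂ) (D : Set X),
  (∀ (m : ℕ) (P : MvPolynomial (Fin 3) ℂ), P.IsHomogeneous m →
    (∀ z ∈ D, MvPolynomial.eval (fun i : Fin 3 => f i.castSucc z) P = 0) → P = 0) →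
  (∃ (m : ℕ) (P : MvPolynomial (Fin 4) ℂ), P ≠ 0 ∧ P.IsHomogeneous m ∧
    ∀ z ∈ D, MvPolynomial.eval (fun i => f i z) P = 0) →
  ∃ (m : ℕ) (P : MvPolynomial (Fin 4) ℂ), P.IsHomogeneous m ∧
    (∀ z ∈ D, MvPolynomial.eval (fun i => f i z) P = 0) ∧
    ∃ z ∈ D, MvPolynomial.eval (fun i => f i z) (MvPolynomial.pderiv 3 P) ≠ 0

/-- [GamI] invariance of the four functions under the congruence subgroup -/
def St_GamI : Prop := ∀ (S : Type) [Fintype S] [DecidableEq S] (u v w : S) (g : GG v w)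
  (L : Submodule ℤ (S × Fin 2 → ℂ)) (χ θ : (S × Fin 2 → ℂ) → ℂ) (n : ℕ)
  (x x' : S × Fin 2 → ℂ) (y : Fin 3 → S × Fin 2 → ℂ), u ≠ v → u ≠ w → v ≠ w →
  PLat L χ → IsTh L χ θ → (∃ v, θ v ≠ 0) → (n : ℤ) • x ∈ L → (n : ℤ) • x' ∈ L →
  (∀ i, (n : ℤ) • y i ∈ L) → n ≠ 0 → (∀ x, x ∈ L ↔ act g x ∈ L) →
  (∀ l ∈ L, ∃ m ∈ L, act g l = l + ((2 * n ^ 2 : ℕ) : ℤ) • m) →
  ∀ z ∈ D2, ∃ j : ℂ, j ≠ 0 ∧
    (∀ t, psi v w θ (mob g z) (act g t) = j * psi v w θ z t) ∧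
    ∀ i, F4 v w u θ x x' y i (mob g z) = j ^ 2 * F4 v w u θ x x' y i z

/-- [SieR] existence of an algebraic relation -/
def St_SieR : Prop := ∀ (S : Type) [Fintype S] [DecidableEq S] (u v w : S)
  (L : Submodule ℤ (S × Fin 2 → ℂ)) (χ θ : (S × Fin 2 → ℂ) → ℂ)
  (x x' : S × Fin 2 → ℂ) (y : Fin 3 → S × Fin 2 → ℂ), u ≠ v → u ≠ w → v ≠ w →
  PLat L χ → IsTh L χ θ → (∃ v, θ v ≠ 0) → Coc v w L → OddTor L x → OddTor L x' →
  (∀ i, OddTor L (y i)) →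
  ∃ (m : ℕ) (P : MvPolynomial (Fin 4) ℂ), P ≠ 0 ∧ P.IsHomogeneous m ∧
    ∀ z ∈ D2, MvPolynomial.eval (fun i => F4 v w u θ x x' y i z) P = 0

/-- [DelPD] `δ` applied to the relation -/
def St_DelPD : Prop := ∀ (δ : Derivation ℚ ℂ ℂ) (f : Fin 4 → (Fin 2 → ℂ) → ℂ)
  (B : Fin 2 → ℂ) (k a : ℂ) (m : ℕ) (P : MvPolynomial (Fin 4) ℂ), P.IsHomogeneous m →
  (∀ i, IsDelD δ (f i) (fun z => (k + if i = 3 then a else 0) * f i z + eulD B (f i) z)) →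
  (∀ z ∈ D2, MvPolynomial.eval (fun i => f i z) P = 0) →
  ∀ z ∈ D2, (∑ m ∈ P.support, δ (P.coeff m) * MvPolynomial.eval (fun i => f i z)
      (MvPolynomial.monomial m 1)) +
    a * (f 3 z * MvPolynomial.eval (fun i => f i z) (MvPolynomial.pderiv 3 P)) = 0

/-! ## Arithmetic -/

/-- [BasK] a basis of `K` gives a real basis of `ℂ^S` -/
def St_BasK : Prop := ∀ (K : Type) [Field K] [NumberField K] (c : K →+* K) (S : Type)
  [Fintype S] [DecidableEq S] (φ : S → K →+* ℂ), CMF K c → CMT K c φ →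
  ∀ (κ : Type) [Fintype κ] (b : Module.Basis κ ℚ K), Fintype.card κ = 2 * Fintype.card S ∧
    LinearIndependent ℝ (fun (i : κ) (s : S) => φ s (b i)) ∧
    Submodule.span ℝ (Set.range fun (i : κ) (s : S) => φ s (b i)) = ⊤

/-- [BasKK] a basis of `K × K` gives a real basis of `ℂ^(S × 2)` -/
def St_BasKK : Prop := ∀ (K : Type) [Field K] [NumberField K] (c : K →+* K) (S : Type)
  [Fintype S] [DecidableEq S] (φ φ' : S → K →+* ℂ), CMF K c → CMT K c φ → CMT K c φ' →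
  ∀ (n : ℕ) (e : Module.Basis (Fin n) ℚ (K × K)) (r : S × Fin 2 → ℝ), (∀ p, 0 < r p) →
    n = 2 * Fintype.card (S × Fin 2) ∧
    LinearIndependent ℝ (fun i : Fin n => coor r φ φ' (e i)) ∧
    Submodule.span ℝ (Set.range fun i : Fin n => coor r φ φ' (e i)) = ⊤

/-- [DenK] density of `K` in `ℂ^S` -/
def St_DenK : Prop := ∀ (K : Type) [Field K] [NumberField K] (c : K →+* K) (S : Type)
  [Fintype S] [DecidableEq S] (φ : S → K →+* ℂ), CMF K c → CMT K c φ →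
  DenseRange fun (x : K) (s : S) => φ s x

/-- [LatB] `latK` is a lattice -/
def St_LatB : Prop := ∀ (K : Type) [Field K] [NumberField K] (c : K →+* K) (S : Type)
  [Fintype S] [DecidableEq S] (φ : S → K →+* ℂ), CMF K c → CMT K c φ →
  ∀ M : ℕ, M ≠ 0 → IsLat (latK K φ M)

/-- [Symp] unimodular lattices for alternating forms over `ℚ` -/
def St_Symp : Prop := ∀ (V : Type) [AddCommGroup V] [Module ℚ V] [FiniteDimensional ℚ V]
  (B : V →ₗ[ℚ] V →ₗ[ℚ] ℚ), (∀ x, B x x = 0) → (∀ x, (∀ y, B x y = 0) → x = 0) →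
  ∃ (n : ℕ) (e : Module.Basis (Fin n) ℚ V), (∀ i j, ∃ m : ℤ, B (e i) (e j) = m) ∧
    ∀ x, (∀ j, ∃ m : ℤ, B x (e j) = m) → x ∈ Submodule.span ℤ (Set.range e)

/-- [ChiB] existence of semicharacters -/
def St_ChiB : Prop := ∀ (V : Type) [AddCommGroup V] [Module ℚ V] (B : V →ₗ[ℚ] V →ₗ[ℚ] ℚ)
  (n : ℕ) (e : Module.Basis (Fin n) ℚ V), (∀ x, B x x = 0) →
  (∀ i j, ∃ m : ℤ, B (e i) (e j) = m) → ∃ χ : V → ℂ,
    (∀ x ∈ Submodule.span ℤ (Set.range e), χ x = 1 ∨ χ x = -1) ∧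
    ∀ x ∈ Submodule.span ℤ (Set.range e), ∀ y ∈ Submodule.span ℤ (Set.range e),
      χ (x + y) = χ x * χ y * Complex.exp (Real.pi * Complex.I * (B x y : ℚ))

/-- [CorE] the form in coordinates -/
def St_CorE : Prop := ∀ (K : Type) [Field K] [NumberField K] (c : K →+* K) (S : Type)
  [Fintype S] [DecidableEq S] (φ φ' : S → K →+* ℂ) (ζ₁ ζ₂ : K) (r : S × Fin 2 → ℝ),
  CMF K c → CMT K c φ → CMT K c φ' → c ζ₁ = -ζ₁ → c ζ₂ = -ζ₂ →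
  (∀ s, r (s, 0) ^ 2 = -2 * (φ s ζ₁).im) → (∀ s, r (s, 1) ^ 2 = -2 * (φ' s ζ₂).im) →
  ∀ x y : K × K, E (coor r φ φ' x) (coor r φ φ' y) =
    (Algebra.trace ℚ K (ζ₁ * (x.1 * c y.1) + ζ₂ * (x.2 * c y.2)) : ℚ)

/-- [TorP] the principal lattice -/
def St_TorP : Prop := ∀ (K : Type) [Field K] [NumberField K] (c : K →+* K) (S : Type)
  [Fintype S] [DecidableEq S] (φ φ' : S → K →+* ℂ) (ζ₁ ζ₂ : K) (n : ℕ)
  (e : Module.Basis (Fin n) ℚ (K × K)) (χ : K × K → ℂ), CMF K c → CMT K c φ → CMT K c φ' →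
  c ζ₁ = -ζ₁ → c ζ₂ = -ζ₂ →
  (∀ i j, ∃ m : ℤ, Algebra.trace ℚ K (ζ₁ * ((e i).1 * c (e j).1) +
      ζ₂ * ((e i).2 * c (e j).2)) = m) →
  (∀ x : K × K, (∀ j, ∃ m : ℤ, Algebra.trace ℚ K (ζ₁ * (x.1 * c (e j).1) +
      ζ₂ * (x.2 * c (e j).2)) = m) → x ∈ Submodule.span ℤ (Set.range e)) →
  (∀ x ∈ Submodule.span ℤ (Set.range e), χ x = 1 ∨ χ x = -1) →
  (∀ x ∈ Submodule.span ℤ (Set.range e), ∀ y ∈ Submodule.span ℤ (Set.range e),
      χ (x + y) = χ x * χ y * Complex.exp (Real.pi * Complex.I *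
        (Algebra.trace ℚ K (ζ₁ * (x.1 * c y.1) + ζ₂ * (x.2 * c y.2)) : ℚ))) →
  ∀ r : S × Fin 2 → ℝ, (∀ p, 0 < r p) → (∀ s, r (s, 0) ^ 2 = -2 * (φ s ζ₁).im) →
  (∀ s, r (s, 1) ^ 2 = -2 * (φ' s ζ₂).im) →
  ∃ (L : Submodule ℤ (S × Fin 2 → ℂ)) (χ' : (S × Fin 2 → ℂ) → ℂ),
    PLat L χ' ∧ (∀ v, v ∈ L ↔ ∃ x ∈ Submodule.span ℤ (Set.range e), coor r φ φ' x = v) ∧
    (∀ x ∈ Submodule.span ℤ (Set.range e), χ' (coor r φ φ' x) = χ x)

/-- [TorC] complex multiplication -/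
def St_TorC : Prop := ∀ (K : Type) [Field K] [NumberField K] (c : K →+* K) (S : Type)
  [Fintype S] [DecidableEq S] (φ φ' : S → K →+* ℂ) (n : ℕ)
  (e : Module.Basis (Fin n) ℚ (K × K)) (r : S × Fin 2 → ℝ)
  (L : Submodule ℤ (S × Fin 2 → ℂ)), CMF K c → CMT K c φ → CMT K c φ' →
  (∀ v, v ∈ L ↔ ∃ x ∈ Submodule.span ℤ (Set.range e), coor r φ φ' x = v) →
  ∃ s : S × Fin 2 → ℂ, IsCM L s

/-- [RowS] choice of rows of an invertible matrix -/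
def St_RowS : Prop := ∀ (ι S : Type) [Fintype ι] [DecidableEq ι] [Fintype S] [DecidableEq S]
  (M : Matrix ι ι ℂ) (j : S → ι), M.det ≠ 0 → Function.Injective j →
  ∃ i : S → ι, (Matrix.of fun a b : S => M (i a) (j b)).det ≠ 0

/-- [GenY] points of odd order at which finitely many values are not zero -/
def St_GenY : Prop := ∀ (ι : Type) [Fintype ι] (L : Submodule ℤ (ι → ℂ)) (χ θ : (ι → ℂ) → ℂ),
  PLat L χ → IsTh L χ θ → (∃ v, θ v ≠ 0) → ∀ P : Finset (ι → ℂ),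
  ∃ y, OddTor L y ∧ ∀ p ∈ P, F θ y p ≠ 0

/-- [LevM] integers of `K` with a common denominator -/
def St_LevM : Prop := ∀ (K : Type) [Field K] [NumberField K] (n : ℕ)
  (e : Module.Basis (Fin n) ℚ (K × K)), ∃ M : ℕ, M ≠ 0 ∧
  ∀ x : NumberField.RingOfIntegers K,
    ((M : K) * (x : K), (0 : K)) ∈ Submodule.span ℤ (Set.range e) ∧
    ((0 : K), (M : K) * (x : K)) ∈ Submodule.span ℤ (Set.range e)

/-! ## The quaternion algebra `K × K` -/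

/-- The product of the quaternion algebra `K × K`. -/
def tw {K : Type} [Field K] (c : K →+* K) (κ : K) (β x : K × K) : K × K :=
  (β.1 * x.1 - κ * c β.2 * x.2, β.2 * x.1 + c β.1 * x.2)

/-- The reduced norm. -/
def nrd {K : Type} [Field K] (c : K →+* K) (κ : K) (β : K × K) : K :=
  β.1 * c β.1 + κ * (β.2 * c β.2)

/-- [TwB] the product with an element of non-zero norm, and the form -/
def St_TwB : Prop := ∀ (K : Type) [Field K] [NumberField K] (c : K →+* K) (κ ζ : K)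
  (β : K × K), CMF K c → c κ = κ → c ζ = -ζ → nrd c κ β ≠ 0 →
  (∃ T : (K × K) ≃ₗ[ℚ] (K × K), ∀ x, T x = tw c κ β x) ∧
  ∀ x y : K × K, ζ * ((tw c κ β x).1 * c (tw c κ β y).1) +
      κ * ζ * ((tw c κ β x).2 * c (tw c κ β y).2) =
    ζ * nrd c κ β * (x.1 * c y.1) + κ * ζ * nrd c κ β * (x.2 * c y.2)

/-- The order of a lattice. -/
def inO {K : Type} [Field K] (c : K →+* K) (κ : K) (Q : Submodule ℤ (K × K)) (β : K × K) :
    Prop := ∀ x ∈ Q, tw c κ β x ∈ Q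

/-- [OrdR] basic properties of the order -/
def St_OrdR : Prop := ∀ (K : Type) [Field K] [NumberField K] (c : K →+* K) (κ : K) (n : ℕ)
  (e : Module.Basis (Fin n) ℚ (K × K)), CMF K c → c κ = κ →
  (∀ β : K × K, nrd c κ β = 0 → β = 0) →
  (∀ β β' : K × K, inO c κ (Submodule.span ℤ (Set.range e)) β →
    inO c κ (Submodule.span ℤ (Set.range e)) β' →
    inO c κ (Submodule.span ℤ (Set.range e)) (β + β') ∧
    inO c κ (Submodule.span ℤ (Set.range e)) (-β) ∧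
    inO c κ (Submodule.span ℤ (Set.range e)) (tw c κ β β')) ∧
  inO c κ (Submodule.span ℤ (Set.range e)) (1, 0) ∧
  (∀ β : K × K, ∃ N : ℕ, N ≠ 0 ∧ inO c κ (Submodule.span ℤ (Set.range e)) ((N : ℤ) • β)) ∧
  (∃ N : ℕ, N ≠ 0 ∧ ∀ β : K × K, inO c κ (Submodule.span ℤ (Set.range e)) β →
    IsIntegral ℤ ((N : K) * β.1) ∧ IsIntegral ℤ ((N : K) * β.2)) ∧
  (∃ N : ℕ, N ≠ 0 ∧ ∀ β : K × K, IsIntegral ℤ β.1 → IsIntegral ℤ β.2 →
    inO c κ (Submodule.span ℤ (Set.range e)) ((N : ℤ) • β)) ∧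
  (∀ β β' x : K × K, tw c κ β (tw c κ β' x) = tw c κ (tw c κ β β') x ∧
    nrd c κ (tw c κ β β') = nrd c κ β * nrd c κ β' ∧
    tw c κ (c β.1, -β.2) β = (nrd c κ β, 0) ∧ tw c κ β (c β.1, -β.2) = (nrd c κ β, 0))

/-- [OrdB] the order contains a basis -/
def St_OrdB : Prop := ∀ (K : Type) [Field K] [NumberField K] (c : K →+* K) (κ : K) (n : ℕ)
  (e : Module.Basis (Fin n) ℚ (K × K)),
  ∃ f : Module.Basis (Fin n) ℚ (K × K), ∀ β ∈ Submodule.span ℤ (Set.range f),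
    inO c κ (Submodule.span ℤ (Set.range e)) β

/-- [NrdF] finitely many reduced norms -/
def St_NrdF : Prop := ∀ (K : Type) [Field K] [NumberField K] (c : K →+* K) (κ : K) (n : ℕ)
  (e : Module.Basis (Fin n) ℚ (K × K)) (R : ℝ), CMF K c → c κ = κ →
  (∀ β : K × K, nrd c κ β = 0 → β = 0) →
  {x : K | (∀ σ : K →+* ℂ, ‖σ x‖ ≤ R) ∧
    ∃ β, inO c κ (Submodule.span ℤ (Set.range e)) β ∧ nrd c κ β = x}.Finite

/-- [ModF] finitely many classes modulo `m` -/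
def St_ModF : Prop := ∀ (K : Type) [Field K] [NumberField K] (c : K →+* K) (κ : K) (n : ℕ)
  (e : Module.Basis (Fin n) ℚ (K × K)) (m : ℕ), CMF K c → c κ = κ →
  (∀ β : K × K, nrd c κ β = 0 → β = 0) → m ≠ 0 →
  ∃ (N : ℕ) (f : K × K → Fin N), ∀ β β' : K × K,
    inO c κ (Submodule.span ℤ (Set.range e)) β →
    inO c κ (Submodule.span ℤ (Set.range e)) β' → f β = f β' →
    ∃ ω, inO c κ (Submodule.span ℤ (Set.range e)) ω ∧ β = β' + (m : ℤ) • ω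

/-- [Cls] finitely many classes of elements of bounded norm -/
def St_Cls : Prop := ∀ (K : Type) [Field K] [NumberField K] (c : K →+* K) (κ : K) (n : ℕ)
  (e : Module.Basis (Fin n) ℚ (K × K)) (R : ℝ) (N : ℕ), CMF K c → c κ = κ →
  (∀ β : K × K, nrd c κ β = 0 → β = 0) → N ≠ 0 →
  ∃ T : Finset (K × K), (∀ β ∈ T, β ≠ 0) ∧
    ∀ β : K × K, β ≠ 0 → inO c κ (Submodule.span ℤ (Set.range e)) β →
      (∀ σ : K →+* ℂ, ‖σ (nrd c κ β)‖ ≤ R) →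
      ∃ β' ∈ T, ∃ ε : K × K, nrd c κ ε = 1 ∧ β = tw c κ β' ε ∧
        (∀ x, x ∈ Submodule.span ℤ (Set.range e) ↔
          tw c κ ε x ∈ Submodule.span ℤ (Set.range e)) ∧
        ∀ x ∈ Submodule.span ℤ (Set.range e), ∃ y ∈ Submodule.span ℤ (Set.range e),
          tw c κ ε x = x + (N : ℤ) • y

/-- Right multiplication by an element of the group. -/
noncomputable def rmul {S : Type} [DecidableEq S] {v w : S} (h : GG v w)
    (x : S × Fin 2 → ℂ) : S × Fin 2 → ℂ := fun p =>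
  if p.2 = 0 then x (p.1, 0) * h.a p.1 - eps v w p.1 * (conj (x (p.1, 1)) * h.b p.1)
  else x (p.1, 1) * h.a p.1 + conj (x (p.1, 0)) * h.b p.1

/-- [Mink] Minkowski's theorem for the lattices `L h` -/
def St_Mink : Prop := ∀ (S : Type) [Fintype S] [DecidableEq S] (v w : S) (n : ℕ)
  (b : Module.Basis (Fin n) ℝ (S × Fin 2 → ℂ)), ∃ R : ℝ, ∀ h : GG v w,
  ∃ x ∈ Submodule.span ℤ (Set.range b), x ≠ 0 ∧ ∀ p, ‖rmul h x p‖ ≤ R

/-- [CorG] elements of norm one as elements of the group -/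
def St_CorG : Prop := ∀ (K : Type) [Field K] [NumberField K] (c : K →+* K) (S : Type)
  [Fintype S] [DecidableEq S] (φ φ' : S → K →+* ℂ) (κ : K) (v w : S) (r : S × Fin 2 → ℝ)
  (ε : K × K), CMF K c → v ≠ w → φ' = flip c (flip c φ v) w →
  c κ = κ → (∀ s, (φ s κ).im = 0) → (∀ s, (φ s κ).re < 0 ↔ s = v ∨ s = w) → κ ≠ 0 →
  (∀ p, 0 < r p) → (∀ s, r (s, 1) ^ 2 = |(φ s κ).re| * r (s, 0) ^ 2) → nrd c κ ε = 1 →
  ∃ g : GG v w, (∀ s, g.a s = φ s ε.1) ∧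
    (∀ s, g.b s = (Real.sqrt |(φ s κ).re| : ℝ) * φ s ε.2) ∧
    ∀ x, act g (coor r φ φ' x) = coor r φ φ' (tw c κ ε x)

end GAM
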