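import Mathlib
import Pool.Agent.GAM.StD2

/-!
# GAM / EllW: Taylor coefficients of the Fock functional
-/

set_option autoImplicit false

namespace GAM

open scoped ComplexConjugate

private theorem EllW_gro (h2 : St_GroC) {ι : Type} [Fintype ι] [DecidableEq ι]
    {G : (ι → ℂ) → ℂ} (hG : Gro G) (l : List ι) : Gro (pdl l G) := by
  induction l with
  | nil => exact hG
  | cons i l ih => exact (h2 ι).1 (pdl l G) ih i

private theorem EllW_main (h1 : St_Ell) (h2 : St_GroC) {S : Type} [Fintype S] [DecidableEq S]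
    {v w : S} {G : (S × Fin 2 → ℂ) → ℂ} (hvw : v ≠ w) (hG : Gro G) (l : List (Fin 2)) :
    ∀ z ∈ D2, pdl l (fun z => ell v w z G) z =
      (1 / Real.pi : ℂ) ^ l.length * ell v w z (pdl (dbl v w l) G) := by
  induction l with
  | nil =>
    intro z _
    simp [pdl, dbl]
  | cons i l ih =>
    intro z hz
    have hG' : Gro (pdl (dbl v w l) G) := EllW_gro h2 hG _
    obtain ⟨e1, _, e3, e4⟩ := h1 S v w (pdl (dbl v w l) G) hvw hG'
    have hev : pdl l (fun z => ell v w z G) =ᶠ[nhds z]
        fun z => (1 / Real.pi : ℂ) ^ l.length * ell v w z (pdl (dbl v w l) G) := by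
      filter_upwards [isOpen_D2.mem_nhds hz] with y hy
      exact ih y hy
    have hd : DifferentiableAt ℂ (fun z => ell v w z (pdl (dbl v w l) G)) z :=
      (e1 z hz).differentiableAt (isOpen_D2.mem_nhds hz)
    have hpd : pd i (pdl l fun z => ell v w z G) z = (1 / Real.pi : ℂ) ^ l.length *
        pd i (fun z => ell v w z (pdl (dbl v w l) G)) z := by
      unfold pd
      rw [hev.fderiv_eq, fderiv_const_mul hd]
      rfl
    have hcons : pdl (i :: l) (fun z => ell v w z G) = pd i (pdl l fun z => ell v w z G) := rfl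
    have hdbl : pdl (dbl v w (i :: l)) G =
        pd (vw v w i, 0) (pd (vw v w i, 1) (pdl (dbl v w l) G)) := rfl
    rw [hcons, hpd, hdbl, List.length_cons, pow_succ, mul_assoc]
    congr 1
    fin_cases i
    · exact e3 z hz
    · exact e4 z hz

theorem thm_EllW (h1 : St_Ell) (h2 : St_GroC) : St_EllW := by
  intro S _ _ v w G hvw hG l
  rw [EllW_main h1 h2 hvw hG l 0 zero_mem_D2]
  rw [(h1 S v w (pdl (dbl v w l) G) hvw (EllW_gro h2 hG _)).2.1]

end GAM
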