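import Pool.Agent.GAM.StD2

/-!
# GAM [EllZ]: the mean value property
-/

set_option autoImplicit false

open MeasureTheory

namespace GAM

open scoped ComplexConjugate

lemma EllZ_mp (u : ℂ) (hu : ‖u‖ = 1) : MeasurePreserving (fun z : ℂ => u * z) volume volume := by
  have h1 : u ∈ Submonoid.unitSphere ℂ := by
    simpa [Submonoid.unitSphere] using hu
  have h2 := (rotation ⟨u, h1⟩).measurePreserving
  exact h2

lemma EllZ_rot (u : ℂ) (hu : ‖u‖ = 1) (g : ℂ × ℂ → ℂ) :
    ∫ ξ : ℂ × ℂ, g (u * ξ.1, u * ξ.2) = ∫ ξ, g ξ := by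
  have hu0 : u ≠ 0 := by
    intro h
    rw [h, norm_zero] at hu
    exact zero_ne_one hu
  have h2 := (EllZ_mp u hu).prod (EllZ_mp u hu)
  have h3 := ((Homeomorph.mulLeft₀ u hu0).prodCongr (Homeomorph.mulLeft₀ u hu0)).measurableEmbedding
  have h4 := MeasurePreserving.integral_comp (f := fun ξ : ℂ × ℂ => (u * ξ.1, u * ξ.2)) h2 h3 g
  exact h4

lemma EllZ_emb {S : Type} [DecidableEq S] (v w : S) (ζ : ℂ) (ξ : ℂ × ℂ) :
    embD v w 0 (ζ * ξ.1, ζ * ξ.2) = ζ • embD v w 0 ξ := by
  funext p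
  simp only [embD, Pi.smul_apply, smul_eq_mul, Pi.zero_apply, zero_mul]
  split_ifs <;> simp

lemma EllZ_cont {S : Type} [DecidableEq S] [Fintype S] (v w : S) :
    Continuous fun ξ : ℂ × ℂ => embD v w 0 ξ := by
  refine continuous_pi fun q => ?_
  have hc : Continuous (starRingEnd ℂ) := Complex.continuous_conj
  unfold embD
  split_ifs <;> fun_prop

lemma EllZ_gwc : Continuous gw := by
  have hc : Continuous (starRingEnd ℂ) := Complex.continuous_conj
  unfold gw
  fun_prop

lemma EllZ_gw (u : ℂ) (hu : ‖u‖ = 1) (ξ : ℂ × ℂ) : gw (u * ξ.1, u * ξ.2) = gw ξ := by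
  unfold gw
  have h1 : u * conj u = 1 := by rw [Complex.mul_conj', hu]; simp
  congr 2
  simp only [map_mul]
  linear_combination (Real.pi * (ξ.1 * conj ξ.1) + Real.pi * (ξ.2 * conj ξ.2)) * h1

theorem thm_EllZ (h1 : St_Gau) (h2 : St_EllI) : St_EllZ := by
  intro S _ _ v w G hvw hG
  have hpi := Real.pi_pos
  obtain ⟨C, c, hC, hc, hb⟩ := h2 S v w G hvw hG 0 le_rfl zero_lt_one
  set f : ℝ → ℂ × ℂ → ℂ := fun t ξ => G (circleMap 0 1 t • embD v w 0 ξ) * gw ξ with hf
  have hcm : ∀ t : ℝ, ‖circleMap 0 1 t‖ = 1 := fun t => by simp [circleMap]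
  have hbd : ∀ t ξ, ‖f t ξ‖ ≤ C * Real.exp (-(c * (‖ξ.1‖ ^ 2 + ‖ξ.2‖ ^ 2))) := by
    intro t ξ
    have h3 := hb 0 (fun i => by simp) (circleMap 0 1 t * ξ.1, circleMap 0 1 t * ξ.2)
    rw [EllZ_gw _ (hcm t), EllZ_emb] at h3
    simpa only [hf, norm_mul, hcm, one_mul] using h3
  have hcont : Continuous (Function.uncurry f) := by
    have h3 : Continuous fun p : ℝ × (ℂ × ℂ) => circleMap 0 1 p.1 • embD v w 0 p.2 :=
      ((continuous_circleMap 0 1).comp continuous_fst).smul ((EllZ_cont v w).comp continuous_snd)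
    exact (hG.ent.continuous.comp h3).mul (EllZ_gwc.comp continuous_snd)
  have hint : Integrable (Function.uncurry f)
      ((volume.restrict (Set.Ioc 0 (2 * Real.pi))).prod (volume : Measure (ℂ × ℂ))) := by
    refine Integrable.mono' (((h1.1 c hc).const_mul C).comp_snd _) hcont.aestronglyMeasurable ?_
    exact Filter.Eventually.of_forall fun p => hbd p.1 p.2
  have hI : ∀ t, ∫ ξ, f t ξ = ell v w 0 G := by
    intro t
    have h3 := EllZ_rot (circleMap 0 1 t) (hcm t) (fun ξ => G (embD v w 0 ξ) * gw ξ)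
    simp only [EllZ_emb v w, EllZ_gw _ (hcm t)] at h3
    exact h3
  have hmv : ∀ ξ, ∫ t in Set.Ioc 0 (2 * Real.pi), f t ξ = 2 * Real.pi * (G 0 * gw ξ) := by
    intro ξ
    have hd : Differentiable ℂ fun ζ : ℂ => G (ζ • embD v w 0 ξ) * gw ξ :=
      (hG.ent.comp (differentiable_id.smul_const _)).mul_const _
    have h3 := circleAverage_of_differentiable_on_off_countable (f := fun ζ : ℂ =>
      G (ζ • embD v w 0 ξ) * gw ξ) (c := 0) (R := 1) (s := ∅) Set.countable_empty
      hd.continuous.continuousOn (fun z _ => hd z)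
    rw [Real.circleAverage_def, zero_smul, intervalIntegral.integral_of_le (by positivity)] at h3
    have h4 : (2 * Real.pi) ≠ 0 := by positivity
    rw [← h3]
    rw [Complex.real_smul]
    have h5 : (Real.pi : ℂ) ≠ 0 := by exact_mod_cast hpi.ne'
    push_cast
    field_simp
    rfl
  have h3 := integral_integral_swap hint
  simp only [hI, hmv] at h3
  rw [integral_const, integral_const_mul, integral_const_mul, h1.2.2.2, mul_one] at h3
  have h5 : (Real.pi : ℂ) ≠ 0 := by exact_mod_cast hpi.ne'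
  have h6 : (volume.restrict (Set.Ioc (0 : ℝ) (2 * Real.pi))).real Set.univ = 2 * Real.pi := by
    rw [measureReal_def, Measure.restrict_apply_univ, Real.volume_Ioc, sub_zero,
      ENNReal.toReal_ofReal (by positivity)]
  rw [h6, Complex.real_smul] at h3
  push_cast at h3
  have h7 : (2 * (Real.pi : ℂ)) ≠ 0 := by
    simp [h5]
  exact mul_left_cancel₀ h7 h3

end GAM
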