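import Pool.Agent.GAM.StD2

/-!
# GAM: equivariance of the Fock vectors `psi`
-/

set_option autoImplicit false

namespace GAM

open scoped ComplexConjugate

theorem thm_EquP (h1 : St_PsiT) (h2 : St_PsiN) (h3 : St_ThUn) : St_EquP := by
  intro S _ _ v w g L₀ L₁ χ₀ θ₀ χ₁ θ₁ hvw hP₀ hP₁ hT₀ hT₁ hn₀ hn₁ hM z hz
  obtain ⟨h, hh⟩ := mob_trans hvw hz
  have hP' : PLat (pull h L₁) fun l => χ₁ (act h l) := hP₁.pull
  have hM1 : Maps h (pull h L₁) L₁ (fun l => χ₁ (act h l)) χ₁ := Maps.pull h L₁ χ₁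
  have hM0 : Maps (gmul g h) (pull h L₁) L₀ (fun l => χ₁ (act h l)) χ₀ := hM.comp hM1
  have hA := h1 S v w h L₁ (pull h L₁) χ₁ (fun l => χ₁ (act h l)) θ₁ hvw hP₁ hT₁ hM1
  have hB := h1 S v w (gmul g h) L₀ (pull h L₁) χ₀ (fun l => χ₁ (act h l)) θ₀ hvw hP₀ hT₀ hM0
  rw [hh] at hA
  rw [mob_mul g h zero_mem_D2, hh] at hB
  have hAne : ∃ u, psi v w θ₁ z (act h u) * Complex.exp (Real.pi / 2 * H u u) ≠ 0 := by
    obtain ⟨x, hx⟩ := h2 S v w L₁ χ₁ θ₁ hvw hP₁ hT₁ hn₁ z hz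
    obtain ⟨u, rfl⟩ := act_surj h x
    exact ⟨u, mul_ne_zero hx (Complex.exp_ne_zero _)⟩
  obtain ⟨j, hj⟩ := h3 (S × Fin 2) (pull h L₁) (fun l => χ₁ (act h l)) _ _ hP' hA hB hAne
  have key : ∀ x, psi v w θ₀ (mob g z) (act g x) = j * psi v w θ₁ z x := by
    intro x
    obtain ⟨u, rfl⟩ := act_surj h x
    have e := hj u
    simp only [act_mul] at e
    have hne := Complex.exp_ne_zero (Real.pi / 2 * H u u)
    have e' : psi v w θ₀ (mob g z) (act g (act h u)) * Complex.exp (Real.pi / 2 * H u u) =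
        (j * psi v w θ₁ z (act h u)) * Complex.exp (Real.pi / 2 * H u u) := by
      rw [e]; ring
    exact mul_right_cancel₀ hne e'
  refine ⟨j, ?_, key⟩
  rintro rfl
  obtain ⟨x, hx⟩ := h2 S v w L₀ χ₀ θ₀ hvw hP₀ hT₀ hn₀ (mob g z) (mob_mem g hz)
  obtain ⟨u, rfl⟩ := act_surj g x
  rw [key u, zero_mul] at hx
  exact hx rfl

end GAM
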