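import Pool.Agent.GAM.StD2

/-!
# GAM: [Equi] equivariance of the Fock vectors and of the wedges
-/

set_option autoImplicit false

namespace GAM

open scoped ComplexConjugate

section Equi

variable {S : Type} [DecidableEq S]

/-- The image of the block vector. -/
noncomputable def Equi_gh {v w : S} (g : GG v w) (u : S) (h : Fin 2 → ℂ) : Fin 2 → ℂ := fun i =>
  if i = 0 then g.a u * h 0 - conj (g.b u) * h 1 else g.b u * h 0 + conj (g.a u) * h 1

theorem Equi_gh0 {v w : S} (g : GG v w) (u : S) (h : Fin 2 → ℂ) :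
    Equi_gh g u h 0 = g.a u * h 0 - conj (g.b u) * h 1 := by simp [Equi_gh]

theorem Equi_gh1 {v w : S} (g : GG v w) (u : S) (h : Fin 2 → ℂ) :
    Equi_gh g u h 1 = g.b u * h 0 + conj (g.a u) * h 1 := by simp [Equi_gh]

theorem Equi_act {v w : S} (g : GG v w) {u : S} (huv : u ≠ v) (huw : u ≠ w) (h : Fin 2 → ℂ)
    (t : ℂ) : act g (t • hU u h) = t • hU u (Equi_gh g u h) := by
  have hu : ¬ (u = v ∨ u = w) := by
    rintro (h1 | h1)
    · exact huv h1
    · exact huw h1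
  ext ⟨s, i⟩
  by_cases hsu : s = u
  · subst hsu
    fin_cases i
    · simp only [Fin.zero_eta, act_u0 g _ hu, Pi.smul_apply, smul_eq_mul, hU, if_true,
        Equi_gh0]
      ring
    · simp only [Fin.mk_one, act_u1 g _ hu, Pi.smul_apply, smul_eq_mul, hU, if_true,
        Equi_gh1]
      ring
  · by_cases hs : s = v ∨ s = w
    · fin_cases i
      · simp only [Fin.zero_eta, act_v0 g _ hs, Pi.smul_apply, smul_eq_mul, hU, if_neg hsu,
          mul_zero, map_zero, add_zero]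
      · simp only [Fin.mk_one, act_v1 g _ hs, Pi.smul_apply, smul_eq_mul, hU, if_neg hsu,
          mul_zero, map_zero, add_zero]
    · fin_cases i
      · simp only [Fin.zero_eta, act_u0 g _ hs, Pi.smul_apply, smul_eq_mul, hU, if_neg hsu,
          mul_zero, sub_zero]
      · simp only [Fin.mk_one, act_u1 g _ hs, Pi.smul_apply, smul_eq_mul, hU, if_neg hsu,
          mul_zero, add_zero]

theorem Equi_HU [Fintype S] (u : S) (h : Fin 2 → ℂ) :
    H (hU u h) (hU u h) = h 0 * conj (h 0) + h 1 * conj (h 1) := by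
  unfold H
  rw [sum_prod_two, Finset.sum_eq_single u]
  · simp [hU]
  · intro b _ hb
    simp [hU, hb]
  · intro h1
    exact absurd (Finset.mem_univ u) h1

theorem Equi_H [Fintype S] {v w : S} (g : GG v w) {u : S} (huv : u ≠ v) (huw : u ≠ w)
    (h : Fin 2 → ℂ) (t : ℂ) :
    H (t • hU u (Equi_gh g u h)) (t • hU u (Equi_gh g u h)) = H (t • hU u h) (t • hU u h) := by
  have hu : ¬ (u = v ∨ u = w) := by
    rintro (h1 | h1)
    · exact huv h1
    · exact huw h1
  have h1 := g.rel u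
  rw [eps_of_not_mem hu] at h1
  rw [H_smul_left, H_smul_right, H_smul_left, H_smul_right, Equi_HU, Equi_HU, Equi_gh0,
    Equi_gh1]
  simp only [map_add, map_sub, map_mul, Complex.conj_conj]
  linear_combination (t * conj t * (h 0 * conj (h 0) + h 1 * conj (h 1))) * h1

/-- The directional derivatives are equivariant. -/
theorem Equi_dir [Fintype S] (h2 : St_DirD) {u v w : S} (g : GG v w)
    {L₀ L₁ : Submodule ℤ (S × Fin 2 → ℂ)} {χ₀ θ₀ χ₁ θ₁ : (S × Fin 2 → ℂ) → ℂ} (huv : u ≠ v)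
    (huw : u ≠ w) (hvw : v ≠ w) (hL₀ : PLat L₀ χ₀) (hL₁ : PLat L₁ χ₁) (hθ₀ : IsTh L₀ χ₀ θ₀)
    (hθ₁ : IsTh L₁ χ₁ θ₁) {z : Fin 2 → ℂ} (hz : z ∈ D2) {j : ℂ}
    (hj : ∀ x, psi v w θ₀ (mob g z) (act g x) = j * psi v w θ₁ z x) (x : S × Fin 2 → ℂ)
    (h : Fin 2 → ℂ) :
    (g.a u * h 0 - conj (g.b u) * h 1) * dpsi v w u 0 θ₀ (mob g z) (act g x) +
      (g.b u * h 0 + conj (g.a u) * h 1) * dpsi v w u 1 θ₀ (mob g z) (act g x) =
    j * (h 0 * dpsi v w u 0 θ₁ z x + h 1 * dpsi v w u 1 θ₁ z x) := by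
  have hA := h2 S u v w L₀ χ₀ θ₀ huv huw hvw hL₀ hθ₀ (mob g z) (mob_mem g hz) (act g x)
    (Equi_gh g u h)
  have hB := (h2 S u v w L₁ χ₁ θ₁ huv huw hvw hL₁ hθ₁ z hz x h).const_mul j
  have hE : (fun t : ℂ => Complex.exp (Real.pi / 2 *
        H (t • hU u (Equi_gh g u h)) (t • hU u (Equi_gh g u h)) -
      Real.pi * Complex.I * E (t • hU u (Equi_gh g u h)) (act g x)) *
        psi v w θ₀ (mob g z) (act g x + t • hU u (Equi_gh g u h))) =
      fun t : ℂ => j * (Complex.exp (Real.pi / 2 * H (t • hU u h) (t • hU u h) -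
      Real.pi * Complex.I * E (t • hU u h) x) * psi v w θ₁ z (x + t • hU u h)) := by
    funext t
    rw [Equi_H g huv huw, ← Equi_act g huv huw, E_act, ← act_add, hj]
    ring
  rw [hE] at hA
  have hC := hA.unique hB
  rw [Equi_gh0, Equi_gh1] at hC
  exact hC

end Equi

theorem thm_Equi (h1 : St_EquP) (h2 : St_DirD) : St_Equi := by
  intro S _ _ u v w g L₀ L₁ χ₀ θ₀ χ₁ θ₁ huv huw hvw hL₀ hL₁ hθ₀ hθ₁ hn₀ hn₁ hM z hz
  refine ⟨mob_mem g hz, ?_⟩
  obtain ⟨j, hj0, hj⟩ := h1 S v w g L₀ L₁ χ₀ θ₀ χ₁ θ₁ hvw hL₀ hL₁ hθ₀ hθ₁ hn₀ hn₁ hM z hz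
  refine ⟨j, hj0, hj, fun x x' => ?_⟩
  have hu : ¬ (u = v ∨ u = w) := by
    rintro (h3 | h3)
    · exact huv h3
    · exact huw h3
  have hr := g.rel u
  rw [eps_of_not_mem hu, one_mul] at hr
  have hd := Equi_dir h2 g huv huw hvw hL₀ hL₁ hθ₀ hθ₁ hz hj
  have p0 := hd x (fun i => if i = 0 then 1 else 0)
  have p1 := hd x (fun i => if i = 0 then 0 else 1)
  have q0 := hd x' (fun i => if i = 0 then 1 else 0)
  have q1 := hd x' (fun i => if i = 0 then 0 else 1)
  simp only [if_true, one_ne_zero, if_false, mul_zero, mul_one, sub_zero, add_zero, zero_mul,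
    one_mul, zero_sub, zero_add] at p0 p1 q0 q1
  unfold wedge
  generalize dpsi v w u 0 θ₀ (mob g z) (act g x) = P0 at *
  generalize dpsi v w u 1 θ₀ (mob g z) (act g x) = P1 at *
  generalize dpsi v w u 0 θ₀ (mob g z) (act g x') = Q0 at *
  generalize dpsi v w u 1 θ₀ (mob g z) (act g x') = Q1 at *
  generalize dpsi v w u 0 θ₁ z x = R0 at *
  generalize dpsi v w u 1 θ₁ z x = R1 at *
  generalize dpsi v w u 0 θ₁ z x' = T0 at *
  generalize dpsi v w u 1 θ₁ z x' = T1 at *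
  have hdet : (g.a u * P0 + g.b u * P1) * (-conj (g.b u) * Q0 + conj (g.a u) * Q1) -
      (-conj (g.b u) * P0 + conj (g.a u) * P1) * (g.a u * Q0 + g.b u * Q1) =
      (j * R0) * (j * T1) - (j * R1) * (j * T0) := by
    rw [p0, p1, q0, q1]
  linear_combination hdet - (P0 * Q1 - P1 * Q0) * hr

end GAM
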