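import Pool.Agent.GAM.StC
import Pool.Agent.GAM.Hol
import Pool.Agent.GAM.DelR

/-!
# GAM: rescaling of the coordinates and `δ`
-/

set_option autoImplicit false

namespace GAM

open scoped ComplexConjugate

section

variable {ι : Type} [Fintype ι] [DecidableEq ι]

theorem EulP_pd_scale (p : ι → ℂ) (c : ℂ) {h : (ι → ℂ) → ℂ} (hh : ∀ z, AnalyticAt ℂ h z) (a : ι) :
    pd a (fun v => c * h (fun i => p i * v i)) =
      fun v => c * p a * pd a h (fun i => p i * v i) := by
  have e0 : ∀ v : ι → ℂ, (Matrix.diagonal p).mulVec v = fun i => p i * v i := by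
    intro v
    funext i
    rw [Matrix.mulVec_diagonal]
  have h1 := DelR_pd_lin (Matrix.diagonal p) hh a
  simp only [e0] at h1
  have h2 : (fun v : ι → ℂ => ∑ i, Matrix.diagonal p i a * pd i h (fun i => p i * v i)) =
      fun v => p a * pd a h (fun i => p i * v i) := by
    funext v
    rw [Finset.sum_eq_single a]
    · rw [Matrix.diagonal_apply_eq]
    · intro b _ hb
      rw [Matrix.diagonal_apply_ne _ hb, zero_mul]
    · intro hb
      exact absurd (Finset.mem_univ a) hb
  rw [h2] at h1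
  have hT : Differentiable ℂ (fun v : ι → ℂ => fun i => p i * v i) := by
    fun_prop
  funext z
  have hd : DifferentiableAt ℂ (fun v : ι → ℂ => h (fun i => p i * v i)) z :=
    (hh _).differentiableAt.comp z (hT z)
  have h3 : pd a (fun v => c * h (fun i => p i * v i)) z =
      c * pd a (fun v => h (fun i => p i * v i)) z := by
    unfold pd
    rw [fderiv_const_mul hd]
    rfl
  rw [h3, h1]
  ring

theorem EulP_pdl_an {f : (ι → ℂ) → ℂ} (hf : ∀ z, AnalyticAt ℂ f z) (l : List ι) :
    ∀ z, AnalyticAt ℂ (pdl l f) z := by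
  intro z
  rw [DelR_pdl_eq]
  exact Pool.Agent.Helper8.analyticAt_dds (hf z) _

theorem EulP_pdl_scale (p : ι → ℂ) {f : (ι → ℂ) → ℂ} (hf : ∀ z, AnalyticAt ℂ f z) (l : List ι) :
    pdl l (fun v => f (fun i => p i * v i)) =
      fun v => (l.map p).prod * pdl l f (fun i => p i * v i) := by
  induction l with
  | nil =>
    funext v
    simp [pdl]
  | cons a l ih =>
    have e1 : pdl (a :: l) (fun v => f (fun i => p i * v i)) =
        pd a (pdl l (fun v => f (fun i => p i * v i))) := rfl
    have e2 : pdl (a :: l) f = pd a (pdl l f) := rfl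
    rw [e1, e2, ih, EulP_pd_scale p _ (EulP_pdl_an hf l)]
    funext v
    rw [List.map_cons, List.prod_cons]
    ring

theorem EulP_pd_eul (A : ι → ℂ) {f : (ι → ℂ) → ℂ} (hf : ∀ z, AnalyticAt ℂ f z) (j : ι) :
    pd j (eul A f) = fun v => A j * pd j f v + eul A (pd j f) v := by
  funext z
  have h1 : HasFDerivAt (fun v : ι → ℂ => ∑ a, A a * v a * pd a f v)
      (∑ a, ((A a * z a) • fderiv ℂ (pd a f) z +
        pd a f z • (A a • (ContinuousLinearMap.proj a : (ι → ℂ) →L[ℂ] ℂ)))) z := by
    refine HasFDerivAt.fun_sum fun a _ => ?_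
    have h2 : HasFDerivAt (fun v : ι → ℂ => A a * v a)
        (A a • (ContinuousLinearMap.proj a : (ι → ℂ) →L[ℂ] ℂ)) z :=
      ((ContinuousLinearMap.proj a : (ι → ℂ) →L[ℂ] ℂ).hasFDerivAt).const_mul (A a)
    exact h2.mul (DelR_pd_an hf a z).differentiableAt.hasFDerivAt
  have h3 : pd j (eul A f) z = (∑ a, ((A a * z a) • fderiv ℂ (pd a f) z +
        pd a f z • (A a • (ContinuousLinearMap.proj a : (ι → ℂ) →L[ℂ] ℂ)))) (Pi.single j 1) := by
    have : pd j (eul A f) z = fderiv ℂ (fun v : ι → ℂ => ∑ a, A a * v a * pd a f v) z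
        (Pi.single j 1) := rfl
    rw [this, h1.fderiv]
  rw [h3]
  have h4 : ∀ a, fderiv ℂ (pd a f) z (Pi.single j 1) = pd a (pd j f) z := by
    intro a
    exact Pool.Agent.Helper8.dd_comm (hf z) _ _
  simp only [sum_apply, add_apply,
    smul_apply, smul_eq_mul, ContinuousLinearMap.proj_apply, h4,
    Finset.sum_add_distrib]
  have h5 : ∑ a, pd a f z * (A a * (Pi.single j (1 : ℂ) : ι → ℂ) a) = A j * pd j f z := by
    rw [Finset.sum_eq_single j]
    · rw [Pi.single_eq_same]
      ring
    · intro b _ hb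
      rw [Pi.single_eq_of_ne hb]
      ring
    · intro hb
      exact absurd (Finset.mem_univ j) hb
  rw [h5, add_comm]
  rfl

theorem EulP_eul_an (A : ι → ℂ) {f : (ι → ℂ) → ℂ} (hf : ∀ z, AnalyticAt ℂ f z) (z : ι → ℂ) :
    AnalyticAt ℂ (eul A f) z := by
  have : AnalyticAt ℂ (fun v : ι → ℂ => ∑ a, A a * v a * pd a f v) z := by
    refine Finset.analyticAt_fun_sum _ fun a _ => ?_
    exact (analyticAt_const.mul
      ((ContinuousLinearMap.proj a : (ι → ℂ) →L[ℂ] ℂ).analyticAt z)).mul (DelR_pd_an hf a z)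
  exact this

theorem EulP_pdl_eul (A : ι → ℂ) (l : List ι) : ∀ {f : (ι → ℂ) → ℂ},
    (∀ z, AnalyticAt ℂ f z) → pdl l (eul A f) 0 = (l.map A).sum * pdl l f 0 := by
  induction l using List.reverseRecOn with
  | nil =>
    intro f _
    simp [pdl, eul]
  | append_singleton l j ih =>
    intro f hf
    have h1 : ∀ z, AnalyticAt ℂ (fun v => A j * pd j f v) z :=
      fun z => analyticAt_const.mul (DelR_pd_an hf j z)
    rw [DelR_snoc, DelR_snoc, EulP_pd_eul A hf j,
      DelR_pdl_add h1 (EulP_eul_an A (DelR_pd_an hf j)), DelR_pdl_mul (DelR_pd_an hf j),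
      ih (DelR_pd_an hf j), List.map_append, List.sum_append]
    simp only [List.map_cons, List.map_nil, List.sum_cons, List.sum_nil, add_zero]
    ring

omit [Fintype ι] [DecidableEq ι] in
theorem EulP_prod (δ : Derivation ℚ ℂ ℂ) (p : ι → ℂ) (hp : ∀ i, p i ≠ 0) (l : List ι) :
    δ (l.map p).prod = (l.map fun i => δ (p i) / p i).sum * (l.map p).prod := by
  induction l with
  | nil => simp
  | cons a l ih =>
    rw [List.map_cons, List.prod_cons, Derivation.leibniz, ih, List.map_cons, List.sum_cons,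
      smul_eq_mul, smul_eq_mul]
    have := hp a
    field_simp
    ring

end

theorem thm_EulP (hD : St_DelR) : St_EulP := by
  intro ι _ _ δ p f hp hf
  have hA := DelR_an thm_Hol hf.ent
  have hT : Differentiable ℂ (fun v : ι → ℂ => fun i => p i * v i) := by
    fun_prop
  have hg : Differentiable ℂ fun v : ι → ℂ => f (fun i => p i * v i) := hf.ent.comp hT
  have hgA := DelR_an thm_Hol hg
  refine ⟨hg, fun z => (EulP_eul_an _ hgA z).differentiableAt, fun l => ?_⟩
  have e0 : (fun i => p i * (0 : ι → ℂ) i) = (0 : ι → ℂ) := by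
    funext i
    simp
  have e1 : pdl l (fun v => eul (fun i => δ (p i) / p i) (fun v => f (fun i => p i * v i)) v) 0 =
      pdl l (eul (fun i => δ (p i) / p i) (fun v => f (fun i => p i * v i))) 0 := rfl
  have h2 := hf.del l
  rw [DelR_pdl_zero] at h2
  rw [e1, EulP_pdl_eul _ l hgA, EulP_pdl_scale p hA l]
  simp only [e0]
  rw [Derivation.leibniz, ← h2, EulP_prod δ p hp, smul_eq_mul, smul_eq_mul]
  ring

end GAM
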