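import Pool.Agent.GAM.StD2

/-!
# GAM: the Euler operator on Taylor coefficients
-/

set_option autoImplicit false
set_option linter.unusedSectionVars false

open Filter Topology

namespace GAM

variable {ι : Type} [Fintype ι] [DecidableEq ι]

lemma EulW_congr {f g : (ι → ℂ) → ℂ} {z : ι → ℂ} (h : f =ᶠ[𝓝 z] g) (l : List ι) :
    pdl l f =ᶠ[𝓝 z] pdl l g := by
  induction l with
  | nil => exact h
  | cons a l ih =>
    have h1 := ih.fderiv (𝕜 := ℂ)
    filter_upwards [h1] with v hv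
    change fderiv ℂ (pdl l f) v (Pi.single a 1) = fderiv ℂ (pdl l g) v (Pi.single a 1)
    rw [hv]

lemma EulW_pd_congr {f g : (ι → ℂ) → ℂ} {z : ι → ℂ} (h : f =ᶠ[𝓝 z] g) (a : ι) :
    pd a f z = pd a g z := (EulW_congr h [a]).eq_of_nhds

lemma EulW_an {f : (ι → ℂ) → ℂ} {z : ι → ℂ} (h : AnalyticAt ℂ f z) (a : ι) :
    AnalyticAt ℂ (pd a f) z :=
  (ContinuousLinearMap.analyticAt
    (ContinuousLinearMap.apply ℂ ℂ (Pi.single a (1 : ℂ) : ι → ℂ)) _).fun_comp h.fderiv

lemma EulW_pdl_an {f : (ι → ℂ) → ℂ} {z : ι → ℂ} (h : AnalyticAt ℂ f z) (l : List ι) :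
    AnalyticAt ℂ (pdl l f) z := by
  induction l with
  | nil => exact h
  | cons a l ih => exact EulW_an ih a

lemma EulW_snoc (l : List ι) (j : ι) (f : (ι → ℂ) → ℂ) :
    pdl (l ++ [j]) f = pdl l (pd j f) := by
  unfold pdl
  rw [List.foldr_append]
  rfl

lemma EulW_pd_add {f g : (ι → ℂ) → ℂ} {z : ι → ℂ} (hf : AnalyticAt ℂ f z)
    (hg : AnalyticAt ℂ g z) (a : ι) :
    pd a (fun v => f v + g v) z = pd a f z + pd a g z := by
  have := (hf.differentiableAt.hasFDerivAt.add hg.differentiableAt.hasFDerivAt).fderiv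
  unfold pd
  rw [show (fun v => f v + g v) = f + g from rfl, this]
  rfl

lemma EulW_add {f g : (ι → ℂ) → ℂ} {z : ι → ℂ} (hf : AnalyticAt ℂ f z)
    (hg : AnalyticAt ℂ g z) (l : List ι) :
    pdl l (fun v => f v + g v) =ᶠ[𝓝 z] fun v => pdl l f v + pdl l g v := by
  induction l with
  | nil => exact EventuallyEq.rfl
  | cons a l ih =>
    filter_upwards [ih.eventuallyEq_nhds, (EulW_pdl_an hf l).eventually_analyticAt,
      (EulW_pdl_an hg l).eventually_analyticAt] with v h1 h2 h3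
    exact (EulW_pd_congr h1 a).trans (EulW_pd_add h2 h3 a)

lemma EulW_pd_mul {f g : (ι → ℂ) → ℂ} {z : ι → ℂ} (hf : AnalyticAt ℂ f z)
    (hg : AnalyticAt ℂ g z) (a : ι) :
    pd a (fun v => f v * g v) z = f z * pd a g z + pd a f z * g z := by
  have := (hf.differentiableAt.hasFDerivAt.mul hg.differentiableAt.hasFDerivAt).fderiv
  unfold pd
  rw [show (fun v => f v * g v) = f * g from rfl, this]
  simp [mul_comm]

lemma EulW_pd_const (c : ℂ) (z : ι → ℂ) (a : ι) : pd a (fun _ : ι → ℂ => c) z = 0 := by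
  unfold pd
  rw [fderiv_fun_const]
  rfl

lemma EulW_smul {f : (ι → ℂ) → ℂ} {z : ι → ℂ} (hf : AnalyticAt ℂ f z) (c : ℂ) (l : List ι) :
    pdl l (fun v => c * f v) =ᶠ[𝓝 z] fun v => c * pdl l f v := by
  induction l with
  | nil => exact EventuallyEq.rfl
  | cons a l ih =>
    filter_upwards [ih.eventuallyEq_nhds, (EulW_pdl_an hf l).eventually_analyticAt] with v h1 h2
    refine (EulW_pd_congr h1 a).trans ?_
    rw [EulW_pd_mul analyticAt_const h2, EulW_pd_const, zero_mul, add_zero]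
    rfl

lemma EulW_pd_sum {κ : Type} (s : Finset κ) (f : κ → (ι → ℂ) → ℂ) {z : ι → ℂ}
    (hf : ∀ i, AnalyticAt ℂ (f i) z) (a : ι) :
    pd a (fun v => ∑ i ∈ s, f i v) z = ∑ i ∈ s, pd a (f i) z := by
  unfold pd
  have h := (HasFDerivAt.fun_sum (u := s) fun i _ => (hf i).differentiableAt.hasFDerivAt).fderiv
  rw [h]
  simp

lemma EulW_coord_an (i : ι) (z : ι → ℂ) : AnalyticAt ℂ (fun v : ι → ℂ => v i) z :=
  (ContinuousLinearMap.proj (R := ℂ) (φ := fun _ : ι => ℂ) i).analyticAt z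

lemma EulW_pd_coord (i a : ι) (z : ι → ℂ) :
    pd a (fun v : ι → ℂ => v i) z = if i = a then 1 else 0 := by
  unfold pd
  have h := (ContinuousLinearMap.proj (R := ℂ) (φ := fun _ : ι => ℂ) i).fderiv (x := z)
  have h' : fderiv ℂ (fun v : ι → ℂ => v i) z =
      ContinuousLinearMap.proj (R := ℂ) (φ := fun _ : ι => ℂ) i := h
  rw [h', ContinuousLinearMap.proj_apply, Pi.single_apply]

lemma EulW_comm {f : (ι → ℂ) → ℂ} {z : ι → ℂ} (hf : AnalyticAt ℂ f z) (i j : ι) :
    pd i (pd j f) z = pd j (pd i f) z := by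
  have hs : IsSymmSndFDerivAt ℂ f z :=
    (hf.contDiffAt (n := 2)).isSymmSndFDerivAt (by simp)
  have key : ∀ a b : ι, pd a (pd b f) z =
      fderiv ℂ (fderiv ℂ f) z (Pi.single a 1) (Pi.single b 1) := by
    intro a b
    have h1 := (hf.fderiv.differentiableAt.hasFDerivAt.clm_apply
      (hasFDerivAt_const (Pi.single b (1 : ℂ) : ι → ℂ) z)).fderiv
    change fderiv ℂ (fun v => fderiv ℂ f v (Pi.single b 1)) z (Pi.single a 1) = _
    rw [h1]
    simp
  rw [key i j, key j i]
  exact hs _ _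

lemma EulW_eul_an {f : (ι → ℂ) → ℂ} {z : ι → ℂ} (hf : AnalyticAt ℂ f z) (A : ι → ℂ) :
    AnalyticAt ℂ (eul A f) z := by
  unfold eul
  refine Finset.analyticAt_fun_sum _ fun a _ => ?_
  exact (analyticAt_const.mul (EulW_coord_an a z)).mul (EulW_an hf a)

lemma EulW_pd_eul {f : (ι → ℂ) → ℂ} {z : ι → ℂ} (hf : AnalyticAt ℂ f z) (A : ι → ℂ) (j : ι) :
    pd j (eul A f) z = A j * pd j f z + eul A (pd j f) z := by
  have h1 : ∀ a : ι, AnalyticAt ℂ (fun v : ι → ℂ => A a * v a) z := fun a =>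
    analyticAt_const.mul (EulW_coord_an a z)
  have h2 : pd j (eul A f) z = ∑ a, pd j (fun v => A a * v a * pd a f v) z :=
    EulW_pd_sum Finset.univ (fun a v => A a * v a * pd a f v)
      (fun a => (h1 a).mul (EulW_an hf a)) j
  rw [h2]
  have h3 : ∀ a : ι, pd j (fun v => A a * v a * pd a f v) z =
      A a * z a * pd a (pd j f) z + (if a = j then A a * pd a f z else 0) := by
    intro a
    rw [EulW_pd_mul (h1 a) (EulW_an hf a),
      EulW_pd_mul (f := fun _ => A a) analyticAt_const (EulW_coord_an a z), EulW_pd_const,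
      EulW_pd_coord, EulW_comm hf]
    split_ifs <;> ring
  rw [Finset.sum_congr rfl fun a _ => h3 a, Finset.sum_add_distrib, Finset.sum_ite_eq' Finset.univ]
  simp only [Finset.mem_univ, if_true]
  rw [add_comm]
  rfl

theorem thm_EulW : St_EulW := by
  intro ι _ _ A f l hf
  induction l using List.reverseRecOn generalizing f with
  | nil =>
    simp [pdl, eul]
  | append_singleton l j ih =>
    rw [EulW_snoc, EulW_snoc]
    have h1 : pd j (eul A f) =ᶠ[𝓝 0] fun v => A j * pd j f v + eul A (pd j f) v := by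
      filter_upwards [hf.eventually_analyticAt] with v hv
      exact EulW_pd_eul hv A j
    have h2 := EulW_an hf j
    rw [(EulW_congr h1 l).eq_of_nhds,
      (EulW_add (f := fun v => A j * pd j f v) (analyticAt_const.mul h2)
        (EulW_eul_an h2 A) l).eq_of_nhds,
      (EulW_smul h2 (A j) l).eq_of_nhds, ih (pd j f) h2, List.map_append, List.sum_append]
    simp only [List.map_cons, List.map_nil, List.sum_cons, List.sum_nil, add_zero]
    ring

end GAM
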