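import Pool.Agent.GAM.StC

/-!
# GAM [ExpAV]
-/

set_option autoImplicit false

namespace GAM

open Pool.Agent.GPC (AbVar)

lemma ExpAV_dsum {ι : Type} [Fintype ι] [DecidableEq ι] {δ : Derivation ℚ ℂ ℂ}
    (hR : DelRules ι δ) {α : Type} (s : Finset α) (A A' : α → (ι → ℂ) → ℂ)
    (h : ∀ i ∈ s, IsDel δ (A i) (A' i)) :
    IsDel δ (fun v => ∑ i ∈ s, A i v) (fun v => ∑ i ∈ s, A' i v) := by
  classical
  induction s using Finset.induction_on with
  | empty =>
    simp only [Finset.sum_empty]
    have := hR.const 0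
    rwa [map_zero] at this
  | insert a s ha ih =>
    simp only [Finset.sum_insert ha]
    exact hR.add _ _ _ _ (h a (Finset.mem_insert_self _ _))
      (ih fun i hi => h i (Finset.mem_insert_of_mem hi))

theorem thm_ExpAV (hDR : St_DelR) (hE : St_EulP) (h1 : St_AVDel) (h2 : St_AVFac) (h3 : St_AVNz)
    (h4 : St_AVJac) : St_ExpAV := by
  intro X K _ _ S _ _ φ T p M δ hT hTi hp hM hL
  classical
  obtain ⟨i₀, c, hd, hdel⟩ := h1 X
  obtain ⟨e₀, N₀, hfac, hhas⟩ := h2 X c (X.θ i₀ 0)
  refine ⟨M, hM, fun P v₀ => ?_⟩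
  set T' : Matrix (Fin X.g) S ℂ := T * Matrix.diagonal p with hT'
  have hTT : ∀ v : S → ℂ, T'.mulVec v = T.mulVec (fun s => p s * v s) := by
    intro v
    rw [hT', ← Matrix.mulVec_mulVec]
    congr 1
    funext s
    rw [Matrix.mulVec_diagonal]
  have hT'i : ∀ v, T'.mulVec v = 0 → v = 0 := by
    intro v hv
    rw [hTT] at hv
    have := hTi _ hv
    funext s
    have h5 : p s * v s = 0 := congrFun this s
    exact (mul_eq_zero.1 h5).resolve_left (hp s)
  have hlat : ∀ l ∈ latK K φ M, T'.mulVec l ∈ X.Λ := by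
    intro l hl
    unfold latK at hl
    induction hl using Submodule.span_induction with
    | mem x hx =>
      obtain ⟨y, rfl⟩ := hx
      rw [hTT]
      exact hL y
    | zero =>
      rw [Matrix.mulVec_zero]
      exact zero_mem _
    | add x y _ _ hx hy =>
      rw [Matrix.mulVec_add]
      exact add_mem hx hy
    | smul a x _ hx =>
      rw [Matrix.mulVec_smul]
      exact X.Λ.smul_mem a hx
  obtain ⟨n, hn⟩ := h3 X ((insert v₀ P).image fun v => T'.mulVec v)
  have hn' : ∀ v ∈ insert v₀ P, ∑ j, (n j : ℂ) * X.θ j (T'.mulVec v) ≠ 0 := fun v hv =>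
    hn _ (Finset.mem_image_of_mem _ hv)
  obtain ⟨j, hj⟩ := h4 X S T' c (X.θ i₀ 0) n v₀ hd hT'i (hn' v₀ (Finset.mem_insert_self _ _))
  set u : Fin (X.N + 1) → (Fin X.g → ℂ) → ℂ := fun j z =>
    Complex.exp (-∑ a, c a * z a) * X.θ j z / X.θ i₀ 0 with hu
  set b : (S → ℂ) → ℂ := fun v => ∑ j, (n j : ℂ) * u j (T'.mulVec v) with hb
  have hb0 : ∀ v ∈ insert v₀ P, b v ≠ 0 := by
    intro v hv
    have e : b v = Complex.exp (-∑ a, c a * T'.mulVec v a) / X.θ i₀ 0 *
        ∑ j, (n j : ℂ) * X.θ j (T'.mulVec v) := by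
      rw [hb, Finset.mul_sum]
      refine Finset.sum_congr rfl fun j _ => ?_
      simp only [hu]
      ring
    rw [e]
    exact mul_ne_zero (div_ne_zero (Complex.exp_ne_zero _) hd) (hn' v hv)
  have hRg := hDR (Fin X.g) δ
  have hRS := hDR S δ
  have hdu : ∀ j, IsDel δ (fun w : S → ℂ => u j (T.mulVec w)) (fun _ => 0) := fun j =>
    hRg.lin S T (u j) (fun _ => 0) hT (hdel j δ)
  have hda : ∀ j, IsDel δ (fun v : S → ℂ => u j (T'.mulVec v))
      (fun v => eul (fun i => δ (p i) / p i) (fun v => u j (T'.mulVec v)) v) := by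
    intro j
    have := hE S δ p _ hp (hdu j)
    simpa only [hTT] using this
  have hdb0 : IsDel δ (fun w : S → ℂ => ∑ j, (n j : ℂ) * u j (T.mulVec w)) (fun _ => 0) := by
    have := ExpAV_dsum hRS Finset.univ (fun j (w : S → ℂ) => (n j : ℂ) * u j (T.mulVec w))
      (fun j w => δ (n j : ℂ) * u j (T.mulVec w) + (n j : ℂ) * 0)
      fun j _ => hRS.mul _ _ _ _ (hRS.const _) (hdu j)
    simpa using this
  have hdb : IsDel δ b (fun v => eul (fun i => δ (p i) / p i) b v) := by
    have := hE S δ p _ hp hdb0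
    rw [hb]
    simpa only [hTT] using this
  refine ⟨fun s v => u (j s) (T'.mulVec v), fun _ => b, 0, fun i => ?_, fun i q hq => ?_,
    fun i => hb0 _ (Finset.mem_insert_self _ _), hj⟩
  · refine ⟨?_, ?_, ⟨v₀, hb0 _ (Finset.mem_insert_self _ _)⟩,
      fun l v => e₀ (T'.mulVec l) (T'.mulVec v), fun v => N₀ (T'.mulVec v), ⟨?_, ?_, ?_⟩, ?_, ?_⟩
    · simpa only [zero_mul, zero_add] using hda (j i)
    · simpa only [zero_mul, zero_add] using hdb
    · have : Continuous (fun v : S → ℂ => T'.mulVec v) := by fun_prop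
      exact hfac.cont.comp this
    · intro l hl
      have : Differentiable ℂ (fun v : S → ℂ => T'.mulVec v) :=
        (LinearMap.toContinuousLinearMap (Matrix.mulVecLin T')).differentiable
      exact (hfac.hol _ (hlat l hl)).comp this
    · intro l hl v
      have := hfac.norm _ (hlat l hl) (T'.mulVec v)
      rw [← Matrix.mulVec_add] at this
      exact this
    · intro l hl v
      have := hhas (j i) _ (hlat l hl) (T'.mulVec v)
      rw [← Matrix.mulVec_add] at this
      exact this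
    · intro l hl v
      simp only [hb]
      rw [Finset.mul_sum]
      refine Finset.sum_congr rfl fun j _ => ?_
      have := hhas j _ (hlat l hl) (T'.mulVec v)
      rw [← Matrix.mulVec_add] at this
      rw [show u j (T'.mulVec (v + l)) = e₀ (T'.mulVec l) (T'.mulVec v) * u j (T'.mulVec v) from
        this]
      ring
  · exact hb0 q (Finset.mem_insert_of_mem hq)

end GAM
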