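import Pool.Agent.GAM.StD2

/-!
# GAM module ExpC: exponents and automorphisms of the field
-/

set_option autoImplicit false

namespace GAM

lemma ExpC_int {K : Type} [Field K] [NumberField K] (g : K ≃+* K)
    (x : NumberField.RingOfIntegers K) :
    ∃ y : NumberField.RingOfIntegers K, (y : K) = g (x : K) := by
  have h : IsIntegral ℤ (g (x : K)) := by
    have h1 : IsIntegral ℤ (x : K) := x.isIntegral_coe
    exact h1.map (g : K →+* K).toIntAlgHom
  exact ⟨⟨g (x : K), h⟩, rfl⟩

lemma ExpC_lat (K : Type) [Field K] [NumberField K] {S : Type} (φ : S → K →+* ℂ) (g : K ≃+* K)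
    (M : ℕ) : latK K (fun s => (φ s).comp (g : K →+* K)) M = latK K φ M := by
  unfold latK
  refine congrArg (Submodule.span ℤ) ?_
  ext v
  constructor
  · rintro ⟨x, rfl⟩
    obtain ⟨y, hy⟩ := ExpC_int g x
    refine ⟨y, ?_⟩
    funext s
    simp [hy]
  · rintro ⟨x, rfl⟩
    obtain ⟨y, hy⟩ := ExpC_int g.symm x
    refine ⟨y, ?_⟩
    funext s
    simp [hy]

theorem thm_ExpC : St_ExpC := by
  intro K _ _ S _ _ φ δ A g h
  obtain ⟨M, hM, h⟩ := h
  refine ⟨M, hM, ?_⟩
  rw [ExpC_lat]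
  exact h

end GAM
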