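import Pool.Agent.GAM.StD2
import Pool.Agent.GAM.Bas

/-!
# GAM, module ExpE: existence of exponents
-/

set_option autoImplicit false

namespace GAM

open scoped ComplexConjugate

lemma ExpE_alg {K : Type} [Field K] [NumberField K] (σ : K →+* ℂ) (x : K) :
    IsAlgebraic ℚ (σ x) := by
  have h : IsAlgebraic ℚ x := Algebra.IsAlgebraic.isAlgebraic x
  exact h.algHom σ.toRatAlgHom

lemma ExpE_algr {z : ℂ} (hz : IsAlgebraic ℚ z) (hre : z.re = 0) (him : z.im < 0) :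
    IsAlgebraic ℚ ((Real.sqrt (-2 * z.im) : ℝ) : ℂ) := by
  have h1 : ((Real.sqrt (-2 * z.im) : ℝ) : ℂ) ^ 2 = 2 * Complex.I * z := by
    rw [← Complex.ofReal_pow, Real.sq_sqrt (by linarith)]
    apply Complex.ext
    · simp [hre]
    · simp [hre]
  have hI : IsAlgebraic ℚ Complex.I := Complex.isIntegral_rat_I.isAlgebraic
  have h2 : IsAlgebraic ℚ (2 * Complex.I * z) :=
    (((isAlgebraic_algebraMap (2 : ℚ) : IsAlgebraic ℚ ((algebraMap ℚ ℂ) 2)).mul hI).mul hz)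
  rw [← h1] at h2
  exact h2.of_pow two_pos

theorem thm_ExpE (h1 : St_Sgn) (h2 : St_LatK) (h3 : St_TorK) (h4 : St_ThEx) (h5 : St_CM)
    (h6 : St_ExpT) (h7 : St_LevM) : St_ExpE := by
  classical
  intro K _ _ c S _ _ φ δ hC hT
  obtain ⟨ζ, hζ, hs⟩ := (h1 K c S φ hC hT).2.1 fun _ => false
  have hre : ∀ s, (φ s ζ).re = 0 := fun s => (hs s).1
  have him : ∀ s, (φ s ζ).im < 0 := fun s => by simpa using (hs s).2
  have hS : Nonempty S := by
    obtain ⟨σ⟩ : Nonempty (K →+* ℂ) := inferInstance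
    obtain ⟨s, -⟩ := hT.2 σ
    rcases s with s | s
    · exact ⟨s⟩
    · exact ⟨s⟩
  have hζ0 : ζ ≠ 0 := by
    rintro rfl
    obtain ⟨s⟩ := hS
    have := him s
    rw [map_zero] at this
    simp at this
  obtain ⟨n, e, χ, p1, p2, p3, p4⟩ := h2 K c ζ ζ hC hζ hζ hζ0 hζ0
  have hrpos : ∀ p : S × Fin 2, 0 < Real.sqrt (-2 * (φ p.1 ζ).im) := fun p =>
    Real.sqrt_pos.mpr (by linarith [him p.1])
  have hrsq : ∀ s, Real.sqrt (-2 * (φ s ζ).im) ^ 2 = -2 * (φ s ζ).im := fun s =>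
    Real.sq_sqrt (by linarith [him s])
  obtain ⟨L, χ', s, hP, hL, -, hCM⟩ := h3 K c S φ φ ζ ζ n e χ hC hT hT hζ hζ him him p1 p2 p3 p4
    (fun p => Real.sqrt (-2 * (φ p.1 ζ).im)) hrpos (fun s => hrsq s) (fun s => hrsq s)
  obtain ⟨θ, hTh, hne⟩ := h4 (S × Fin 2) L χ' hP
  obtain ⟨A, k, hE⟩ := h5 (S × Fin 2) δ L χ' θ s hP hTh hne hCM
  obtain ⟨M, hM, hMe⟩ := h7 K n e
  refine ⟨fun s => A (s, 0), h6 K c S (S × Fin 2) φ δ L χ' θ A k (fun s => (s, 0))
    (fun s => Real.sqrt (-2 * (φ s ζ).im)) M hC hT hP hTh hne hE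
    (fun a b h => congrArg Prod.fst h) (fun s => hrpos (s, 0))
    (fun s => ExpE_algr (ExpE_alg (φ s) ζ) (hre s) (him s)) hM ?_⟩
  intro x
  rw [hL]
  refine ⟨_, (hMe x).1, ?_⟩
  funext p
  obtain ⟨t, i⟩ := p
  rw [Finset.sum_apply]
  simp only [coor]
  by_cases hi : i = 0
  · subst hi
    rw [Finset.sum_eq_single t]
    · rw [Pi.single_eq_same, if_pos rfl]
    · intro b _ hb
      exact Pi.single_eq_of_ne (fun h => hb (congrArg Prod.fst h).symm) _
    · intro h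
      exact absurd (Finset.mem_univ _) h
  · rw [if_neg hi, map_zero, mul_zero]
    symm
    refine Finset.sum_eq_zero fun b _ => ?_
    exact Pi.single_eq_of_ne (fun h => hi (congrArg Prod.snd h)) _

end GAM
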