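import Pool.Agent.GAM.StC

/-!
# GAM [ExpL]: exponents and extension of the CM field
-/

set_option autoImplicit false

namespace GAM

open scoped ComplexConjugate

section analytic

variable {ι κ : Type} [Fintype ι] [DecidableEq ι] [Fintype κ] [DecidableEq κ]

/-- the chain rule for a linear map -/
theorem ExpL_pd_lin (T : Matrix ι κ ℂ) {a : (ι → ℂ) → ℂ} {z : κ → ℂ}
    (ha : DifferentiableAt ℂ a (T.mulVec z)) (k : κ) :
    pd k (fun v : κ → ℂ => a (T.mulVec v)) z = ∑ i, T i k * pd i a (T.mulVec z) := by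
  have hT : HasFDerivAt (fun v : κ → ℂ => T.mulVec v)
      (LinearMap.toContinuousLinearMap (Matrix.mulVecLin T)) z :=
    (LinearMap.toContinuousLinearMap (Matrix.mulVecLin T)).hasFDerivAt
  have hc := ha.hasFDerivAt.comp z hT
  have h2 : pd k (fun v : κ → ℂ => a (T.mulVec v)) z =
      fderiv ℂ a (T.mulVec z) (T.mulVec (Pi.single k 1)) := by
    unfold pd
    have h3 : (fun v : κ → ℂ => a (T.mulVec v)) = a ∘ fun v : κ → ℂ => T.mulVec v := rfl
    rw [h3, hc.fderiv]
    rfl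
  rw [h2]
  have h4 : T.mulVec (Pi.single k 1) = ∑ i, T i k • (Pi.single i (1 : ℂ) : ι → ℂ) := by
    funext i
    rw [Matrix.mulVec_single_one, Finset.sum_apply]
    simp [Pi.single_apply]
  rw [h4, map_sum]
  refine Finset.sum_congr rfl fun i _ => ?_
  rw [map_smul, smul_eq_mul]
  rfl

/-- `δ f = k f + ∑ A_a v_a ∂_a f` -/
def ExpL_Eu (δ : Derivation ℚ ℂ ℂ) (A : ι → ℂ) (k : ℂ) (f : (ι → ℂ) → ℂ) : Prop :=
  IsDel δ f (fun v => k * f v + eul A f v)

theorem ExpL_Eu_mul (hD : St_DelR) {δ : Derivation ℚ ℂ ℂ} {A : ι → ℂ} {k k' : ℂ}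
    {f g : (ι → ℂ) → ℂ} (hf : ExpL_Eu δ A k f) (hg : ExpL_Eu δ A k' g) :
    ExpL_Eu δ A (k + k') (fun v => f v * g v) := by
  have h := (hD ι δ).mul _ _ _ _ hf hg
  unfold ExpL_Eu
  have e : (fun v => (k + k') * (f v * g v) + eul A (fun v => f v * g v) v) =
      fun v => (k * f v + eul A f v) * g v + f v * (k' * g v + eul A g v) := by
    funext v
    have h1 : eul A (fun v => f v * g v) v = eul A f v * g v + f v * eul A g v := by
      unfold eul
      rw [Finset.sum_mul, Finset.mul_sum, ← Finset.sum_add_distrib]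
      refine Finset.sum_congr rfl fun a _ => ?_
      have h2 : pd a (fun v => f v * g v) v = f v * pd a g v + g v * pd a f v := by
        unfold pd
        rw [fderiv_fun_mul (hf.ent v) (hg.ent v)]
        simp
      rw [h2]
      ring
    rw [h1]
    ring
  rw [e]
  exact h

theorem ExpL_Eu_one (hD : St_DelR) (δ : Derivation ℚ ℂ ℂ) (A : ι → ℂ) :
    ExpL_Eu δ A 0 (fun _ : ι → ℂ => (1 : ℂ)) := by
  have h := (hD ι δ).const 1
  unfold ExpL_Eu
  have e : (fun v : ι → ℂ => (0 : ℂ) * 1 + eul A (fun _ => (1 : ℂ)) v) = fun _ => δ 1 := by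
    funext v
    rw [Derivation.map_one_eq_zero]
    unfold eul pd
    simp
  rw [e]
  exact h

theorem ExpL_Eu_prod (hD : St_DelR) {δ : Derivation ℚ ℂ ℂ} {A : ι → ℂ} {J : Type}
    [DecidableEq J] (s : Finset J) (k : J → ℂ) (f : J → (ι → ℂ) → ℂ)
    (hf : ∀ j, ExpL_Eu δ A (k j) (f j)) :
    ExpL_Eu δ A (∑ j ∈ s, k j) (fun v => ∏ j ∈ s, f j v) := by
  induction s using Finset.induction_on with
  | empty => simpa using ExpL_Eu_one hD δ A
  | insert a s ha ih =>
    rw [Finset.sum_insert ha]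
    have e : (fun v => ∏ j ∈ insert a s, f j v) = fun v => f a v * ∏ j ∈ s, f j v := by
      funext v; rw [Finset.prod_insert ha]
    rw [e]
    exact ExpL_Eu_mul hD (hf a) ih

theorem ExpL_Eu_lin (hD : St_DelR) {δ : Derivation ℚ ℂ ℂ} {A : ι → ℂ} {k : ℂ}
    {f : (ι → ℂ) → ℂ} (r : κ → ι) (T : Matrix ι κ ℂ) (hT : ∀ i j, IsAlgebraic ℚ (T i j))
    (hr : ∀ i j, r j ≠ i → T i j = 0) (hf : ExpL_Eu δ A k f) :
    ExpL_Eu δ (fun j => A (r j)) k (fun v : κ → ℂ => f (T.mulVec v)) := by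
  have h := (hD ι δ).lin κ T _ _ hT hf
  unfold ExpL_Eu
  have e : (fun v : κ → ℂ => k * f (T.mulVec v) +
      eul (fun j => A (r j)) (fun v : κ → ℂ => f (T.mulVec v)) v) =
      fun v => k * f (T.mulVec v) + eul A f (T.mulVec v) := by
    funext v
    have h1 : eul (fun j => A (r j)) (fun v : κ → ℂ => f (T.mulVec v)) v =
        eul A f (T.mulVec v) := by
      unfold eul
      have h2 : ∀ j : κ, A (r j) * v j * pd j (fun v : κ → ℂ => f (T.mulVec v)) v =
          ∑ i, A i * (T i j * v j) * pd i f (T.mulVec v) := by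
        intro j
        rw [ExpL_pd_lin T (hf.ent _), Finset.mul_sum]
        refine Finset.sum_congr rfl fun i _ => ?_
        by_cases hij : r j = i
        · rw [hij]; ring
        · rw [hr i j hij]; ring
      rw [Finset.sum_congr rfl fun j _ => h2 j, Finset.sum_comm]
      refine Finset.sum_congr rfl fun i _ => ?_
      rw [Matrix.mulVec, dotProduct, Finset.mul_sum, Finset.sum_mul]
    rw [h1]
  rw [e]
  exact h

omit [DecidableEq ι] [DecidableEq κ] in
/-- pull-back of factors -/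
theorem ExpL_Fac_lin {Λ : Submodule ℤ (ι → ℂ)} {Λ' : Submodule ℤ (κ → ℂ)}
    {e : (ι → ℂ) → (ι → ℂ) → ℂ} {N : (ι → ℂ) → ℝ} (T : Matrix ι κ ℂ)
    (hT : ∀ l ∈ Λ', T.mulVec l ∈ Λ) (h : Fac Λ e N) :
    Fac Λ' (fun l v => e (T.mulVec l) (T.mulVec v)) (fun v => N (T.mulVec v)) := by
  have hTd : Differentiable ℂ (fun v : κ → ℂ => T.mulVec v) :=
    (LinearMap.toContinuousLinearMap (Matrix.mulVecLin T)).differentiable
  refine ⟨h.cont.comp hTd.continuous, fun l hl => (h.hol _ (hT l hl)).comp hTd, ?_⟩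
  intro l hl v
  rw [h.norm _ (hT l hl), Matrix.mulVec_add]

omit [Fintype ι] [DecidableEq ι] [DecidableEq κ] in
theorem ExpL_HasFac_lin {Λ : Submodule ℤ (ι → ℂ)} {Λ' : Submodule ℤ (κ → ℂ)}
    {e : (ι → ℂ) → (ι → ℂ) → ℂ} {a : (ι → ℂ) → ℂ} (T : Matrix ι κ ℂ)
    (hT : ∀ l ∈ Λ', T.mulVec l ∈ Λ) (h : HasFac Λ e a) :
    HasFac Λ' (fun l v => e (T.mulVec l) (T.mulVec v)) (fun v => a (T.mulVec v)) := by
  intro l hl v
  show a (T.mulVec (v + l)) = _
  rw [Matrix.mulVec_add, h _ (hT l hl)]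

omit [DecidableEq ι] in
theorem ExpL_Fac_mul {Λ : Submodule ℤ (ι → ℂ)} {e e' : (ι → ℂ) → (ι → ℂ) → ℂ}
    {N N' : (ι → ℂ) → ℝ} (h : Fac Λ e N) (h' : Fac Λ e' N') :
    Fac Λ (fun l v => e l v * e' l v) (fun v => N v + N' v) := by
  refine ⟨h.cont.add h'.cont, fun l hl => (h.hol l hl).mul (h'.hol l hl), ?_⟩
  intro l hl v
  rw [norm_mul, h.norm l hl, h'.norm l hl, ← Real.exp_add]
  congr 1
  ring

omit [Fintype ι] [DecidableEq ι] in
theorem ExpL_HasFac_mul {Λ : Submodule ℤ (ι → ℂ)} {e e' : (ι → ℂ) → (ι → ℂ) → ℂ}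
    {a a' : (ι → ℂ) → ℂ} (h : HasFac Λ e a) (h' : HasFac Λ e' a') :
    HasFac Λ (fun l v => e l v * e' l v) (fun v => a v * a' v) := by
  intro l hl v
  show a (v + l) * a' (v + l) = _
  rw [h l hl, h' l hl]
  ring

omit [DecidableEq ι] in
theorem ExpL_Fac_prod {Λ : Submodule ℤ (ι → ℂ)} {J : Type} [DecidableEq J] (s : Finset J)
    {e : J → (ι → ℂ) → (ι → ℂ) → ℂ} {N : J → (ι → ℂ) → ℝ} (h : ∀ j, Fac Λ (e j) (N j)) :
    Fac Λ (fun l v => ∏ j ∈ s, e j l v) (fun v => ∑ j ∈ s, N j v) := by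
  induction s using Finset.induction_on with
  | empty =>
    simp only [Finset.prod_empty, Finset.sum_empty]
    refine ⟨continuous_const, fun l _ => differentiable_const _, fun l _ v => by simp⟩
  | insert a s ha ih =>
    simp only [Finset.prod_insert ha, Finset.sum_insert ha]
    exact ExpL_Fac_mul (h a) ih

omit [Fintype ι] [DecidableEq ι] in
theorem ExpL_HasFac_prod {Λ : Submodule ℤ (ι → ℂ)} {J : Type} [DecidableEq J] (s : Finset J)
    {e : J → (ι → ℂ) → (ι → ℂ) → ℂ} {a : J → (ι → ℂ) → ℂ}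
    (h : ∀ j, HasFac Λ (e j) (a j)) :
    HasFac Λ (fun l v => ∏ j ∈ s, e j l v) (fun v => ∏ j ∈ s, a j v) := by
  intro l hl v
  show ∏ j ∈ s, a j (v + l) = _
  rw [← Finset.prod_mul_distrib]
  exact Finset.prod_congr rfl fun j _ => h j l hl v

end analytic

section fields

variable {K L : Type} [Field K] [NumberField K] [Field L] [NumberField L] [Algebra K L]
  {c : K →+* K} {c' : L →+* L} {S S' : Type} [Fintype S] [DecidableEq S]
  [Fintype S'] [DecidableEq S'] {φ : S → K →+* ℂ} {φ' : S' → L →+* ℂ} {r : S' → S}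

omit [NumberField K] [Fintype S] [DecidableEq S] in
theorem ExpL_inj (h : CMT K c φ) : Function.Injective φ := by
  intro s t hst
  have := h.1 (a₁ := Sum.inl s) (a₂ := Sum.inl t) (by simpa using hst)
  simpa using this

omit [NumberField K] [NumberField L] [Fintype S] [DecidableEq S] [Fintype S'] [DecidableEq S'] in
/-- the embeddings of `L` above `φ_s` -/
theorem ExpL_above (hK : CMF K c) (hL : CMF L c') (hφ : CMT K c φ) (hφ' : CMT L c' φ')
    (hr : ∀ s', (φ' s').comp (algebraMap K L) = φ (r s')) (s : S) (τ : L →+* ℂ)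
    (hτ : τ.comp (algebraMap K L) = φ s) : ∃ s', r s' = s ∧ φ' s' = τ := by
  obtain ⟨x, hx⟩ := hφ'.2 τ
  rcases x with s' | s'
  · have hx' : φ' s' = τ := by simpa using hx
    refine ⟨s', ExpL_inj hφ ?_, hx'⟩
    rw [← hr, hx', hτ]
  · exfalso
    have hx' : (φ' s').comp c' = τ := by simpa using hx
    have h1 : (φ (r s')).comp c = φ s := by
      rw [← hτ, ← hx', ← hr]
      ext x
      have h2 := hL.cc (φ' s') (algebraMap K L x)
      have h3 := hK.cc (φ (r s')) x
      rw [← hr] at h3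
      simp only [RingHom.comp_apply] at h2 h3 ⊢
      rw [← h2, ← h3]
    have h2 := hφ.1 (a₁ := Sum.inr (r s')) (a₂ := Sum.inl s) (by simpa using h1)
    simp at h2

/-- the embeddings above `φ_s` as algebra homomorphisms -/
theorem ExpL_fib (hK : CMF K c) (hL : CMF L c') (hφ : CMT K c φ) (hφ' : CMT L c' φ')
    (hr : ∀ s', (φ' s').comp (algebraMap K L) = φ (r s')) (s : S) :
    Fintype.card {s' // r s' = s} = Module.finrank K L ∧
    ∀ y : L, φ s (Algebra.trace K L y) = ∑ s', if r s' = s then φ' s' y else 0 := by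
  let : Algebra K ℂ := (φ s).toAlgebra
  have : Module.Finite K L := Module.Finite.of_restrictScalars_finite ℚ K L
  have hal : ∀ x : {s' // r s' = s}, ∀ k : K, φ' x.1 (algebraMap K L k) = algebraMap K ℂ k := by
    intro x k
    have h := hr x.1
    rw [x.2] at h
    exact RingHom.congr_fun h k
  let f : {s' // r s' = s} → (L →ₐ[K] ℂ) := fun x => { φ' x.1 with commutes' := hal x }
  have hf : ∀ x y, f x y = φ' x.1 y := fun x y => rfl
  have hinj : Function.Injective f := by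
    intro x y hxy
    refine Subtype.ext (ExpL_inj hφ' ?_)
    ext z
    rw [← hf x, ← hf y, hxy]
  have hsurj : Function.Surjective f := by
    intro τ
    obtain ⟨s', h1, h2⟩ := ExpL_above hK hL hφ hφ' hr s (τ : L →+* ℂ) (by
      ext k
      exact τ.commutes k)
    refine ⟨⟨s', h1⟩, ?_⟩
    ext y
    rw [hf]
    exact RingHom.congr_fun h2 y
  refine ⟨?_, fun y => ?_⟩
  · rw [← AlgHom.card K L ℂ]
    exact Fintype.card_of_bijective ⟨hinj, hsurj⟩
  · have h1 : φ s (Algebra.trace K L y) = ∑ σ : L →ₐ[K] ℂ, σ y :=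
      trace_eq_sum_embeddings ℂ
    have h2 : (∑ s', if r s' = s then φ' s' y else 0) = ∑ x : {s' // r s' = s}, φ' x.1 y := by
      rw [← Finset.sum_filter]
      exact Finset.sum_subtype _ (fun x => by simp) _
    rw [h1, h2, ← Function.Bijective.sum_comp (⟨hinj, hsurj⟩ : Function.Bijective f) fun σ => σ y]
    rfl

/-- an integral basis of `L` over `K` -/
theorem ExpL_basis (K L : Type) [Field K] [NumberField K] [Field L] [NumberField L]
    [Algebra K L] : ∃ w : Fin (Module.finrank K L) → L, (∀ j, IsIntegral ℤ (w j)) ∧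
      Submodule.span K (Set.range w) = ⊤ := by
  have : Module.Finite K L := Module.Finite.of_restrictScalars_finite ℚ K L
  let b := Module.finBasis K L
  have h1 : ∀ j, ∃ y : ℤ, y ≠ 0 ∧ IsIntegral ℤ (y • b j) := fun j => by
    have h2 : IsAlgebraic ℤ (b j) := (IsFractionRing.isAlgebraic_iff ℤ ℚ L).2
      (Algebra.IsAlgebraic.isAlgebraic (b j))
    exact h2.exists_integral_multiple
  choose n hn hi using h1
  refine ⟨fun j => n j • b j, hi, ?_⟩
  rw [eq_top_iff, ← b.span_eq, Submodule.span_le]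
  rintro _ ⟨j, rfl⟩
  have h3 : b j = ((n j : K)⁻¹) • (n j • b j) := by
    rw [← Int.cast_smul_eq_zsmul K (n j) (b j), smul_smul, inv_mul_cancel₀, one_smul]
    exact Int.cast_ne_zero.2 (hn j)
  rw [SetLike.mem_coe, h3]
  exact Submodule.smul_mem _ _ (Submodule.subset_span ⟨j, rfl⟩)

/-- the matrices `V_j` -/
noncomputable def ExpL_T (φ' : S' → L →+* ℂ) (r : S' → S) (w : L) : Matrix S S' ℂ :=
  Matrix.of fun s s' => if r s' = s then φ' s' w else 0

theorem ExpL_T_alg (φ' : S' → L →+* ℂ) (r : S' → S) (w : L) (s : S) (s' : S') :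
    IsAlgebraic ℚ (ExpL_T φ' r w s s') := by
  unfold ExpL_T
  rw [Matrix.of_apply]
  split_ifs
  · have h := Algebra.IsAlgebraic.isAlgebraic (R := ℚ) w
    exact h.algHom (φ' s').toRatAlgHom
  · exact isAlgebraic_zero

theorem ExpL_T_mulVec (φ' : S' → L →+* ℂ) (r : S' → S) (w : L) (y : S' → ℂ) (s : S) :
    (ExpL_T φ' r w).mulVec y s = ∑ s', if r s' = s then φ' s' w * y s' else 0 := by
  unfold ExpL_T
  rw [Matrix.mulVec, dotProduct]
  refine Finset.sum_congr rfl fun s' _ => ?_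
  rw [Matrix.of_apply]
  split_ifs <;> ring

theorem ExpL_T_lat (hK : CMF K c) (hL : CMF L c') (hφ : CMT K c φ) (hφ' : CMT L c' φ')
    (hr : ∀ s', (φ' s').comp (algebraMap K L) = φ (r s')) (w : L) (hw : IsIntegral ℤ w)
    (M : ℕ) (l : S' → ℂ) (hl : l ∈ latK L φ' M) :
    (ExpL_T φ' r w).mulVec l ∈ latK K φ M := by
  have : Module.Finite K L := Module.Finite.of_restrictScalars_finite ℚ K L
  unfold latK at hl
  induction hl using Submodule.span_induction with
  | mem x hx =>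
    obtain ⟨y, rfl⟩ := hx
    have h1 : IsIntegral ℤ (Algebra.trace K L (w * (y : L))) :=
      Algebra.isIntegral_trace (hw.mul y.2)
    refine Submodule.subset_span ⟨⟨_, h1⟩, ?_⟩
    funext s
    rw [ExpL_T_mulVec]
    have h2 := (ExpL_fib hK hL hφ hφ' hr s).2 (w * ((M : L) * (y : L)))
    have h3 : Algebra.trace K L (w * ((M : L) * (y : L))) =
        (M : K) * Algebra.trace K L (w * (y : L)) := by
      have h4 : w * ((M : L) * (y : L)) = (M : K) • (w * (y : L)) := by
        rw [Algebra.smul_def, map_natCast]; ring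
      rw [h4, map_smul, smul_eq_mul]
    rw [h3] at h2
    refine h2.trans ?_
    refine Finset.sum_congr rfl fun s' _ => ?_
    split_ifs
    · rw [map_mul]
    · rfl
  | zero => rw [Matrix.mulVec_zero]; exact Submodule.zero_mem _
  | add x y _ _ hx hy => rw [Matrix.mulVec_add]; exact Submodule.add_mem _ hx hy
  | smul a x _ hx =>
    have h1 : (ExpL_T φ' r w).mulVec (a • x) = a • (ExpL_T φ' r w).mulVec x := by
      rw [← Int.cast_smul_eq_zsmul ℂ, Matrix.mulVec_smul, Int.cast_smul_eq_zsmul]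
    rw [h1]
    exact Submodule.smul_mem _ _ hx

theorem ExpL_T_inj (hφ' : CMT L c' φ')
    (hr : ∀ s', (φ' s').comp (algebraMap K L) = φ (r s')) {J : Type} (w : J → L)
    (hw : Submodule.span K (Set.range w) = ⊤) (y : S' → ℂ)
    (hy : ∀ j, (ExpL_T φ' r (w j)).mulVec y = 0) : y = 0 := by
  have h1 : ∀ (s : S) (x : L), (∑ s', if r s' = s then φ' s' x * y s' else 0) = 0 := by
    intro s x
    have hx : x ∈ Submodule.span K (Set.range w) := by rw [hw]; trivial
    induction hx using Submodule.span_induction with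
    | mem x hx =>
      obtain ⟨j, rfl⟩ := hx
      have h2 := congrFun (hy j) s
      rwa [ExpL_T_mulVec] at h2
    | zero => simp
    | add x z _ _ hx hz =>
      have h3 : (∑ s', if r s' = s then φ' s' (x + z) * y s' else 0) =
          (∑ s', if r s' = s then φ' s' x * y s' else 0) +
            ∑ s', if r s' = s then φ' s' z * y s' else 0 := by
        rw [← Finset.sum_add_distrib]
        refine Finset.sum_congr rfl fun s' _ => ?_
        split_ifs
        · rw [map_add]; ring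
        · ring
      rw [h3, hx, hz, add_zero]
    | smul a x _ hx =>
      have h3 : (∑ s', if r s' = s then φ' s' (a • x) * y s' else 0) =
          φ s a * ∑ s', if r s' = s then φ' s' x * y s' else 0 := by
        rw [Finset.mul_sum]
        refine Finset.sum_congr rfl fun s' _ => ?_
        split_ifs with h
        · have h4 : φ' s' (algebraMap K L a) = φ s a := by
            rw [← h]; exact RingHom.congr_fun (hr s') a
          rw [Algebra.smul_def, map_mul, h4]; ring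
        · ring
      rw [h3, hx, mul_zero]
  have h5 : ∀ x : L, ∑ s', y s' * φ' s' x = 0 := by
    intro x
    have h6 : ∑ s', y s' * φ' s' x =
        ∑ s, ∑ s', if r s' = s then φ' s' x * y s' else 0 := by
      rw [Finset.sum_comm]
      refine Finset.sum_congr rfl fun s' _ => ?_
      rw [Finset.sum_ite_eq Finset.univ (r s')]
      simp [mul_comm]
    rw [h6]
    exact Finset.sum_eq_zero fun s _ => h1 s x
  have h7 : LinearIndependent ℂ fun s' : S' => ((φ' s' : L →* ℂ) : L → ℂ) := by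
    have h8 := linearIndependent_monoidHom L ℂ
    have h9 : Function.Injective fun s' : S' => (φ' s' : L →* ℂ) := by
      intro s t hst
      refine ExpL_inj hφ' ?_
      ext x
      exact DFunLike.congr_fun hst x
    exact h8.comp _ h9
  rw [Fintype.linearIndependent_iff] at h7
  funext s'
  refine h7 y ?_ s'
  funext x
  rw [Finset.sum_apply]
  simpa using h5 x

end fields

theorem ExpL_card {K L : Type} [Field K] [NumberField K] [Field L] [NumberField L] [Algebra K L]
    {c : K →+* K} {c' : L →+* L} {S S' : Type} [Fintype S] [DecidableEq S]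
    [Fintype S'] [DecidableEq S'] {φ : S → K →+* ℂ} {φ' : S' → L →+* ℂ} {r : S' → S}
    (hK : CMF K c) (hL : CMF L c') (hφ : CMT K c φ) (hφ' : CMT L c' φ')
    (hr : ∀ s', (φ' s').comp (algebraMap K L) = φ (r s')) :
    Fintype.card S' = Fintype.card (S × Fin (Module.finrank K L)) := by
  rw [Fintype.card_congr (Equiv.sigmaFiberEquiv r).symm, Fintype.card_sigma,
    Finset.sum_congr rfl fun s _ => (ExpL_fib hK hL hφ hφ' hr s).1, Finset.sum_const,
    Fintype.card_prod, Fintype.card_fin, Finset.card_univ, smul_eq_mul]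

theorem thm_ExpL (hD : St_DelR) : St_ExpL := by
  intro K L _ _ _ _ _ c c' S S' _ _ _ _ φ φ' r δ A hK hL hφ hφ' hr hA
  obtain ⟨M, hM, hA⟩ := hA
  refine ⟨M, hM, fun P' v' => ?_⟩
  obtain ⟨w, hwi, hws⟩ := ExpL_basis K L
  have hex : ∀ j, ∃ (a b : S → (S → ℂ) → ℂ) (k : ℂ),
      (∀ i, QD δ (latK K φ M) (a i) (b i) (fun v => k * a i v + eul A (a i) v)
        (fun v => k * b i v + eul A (b i) v)) ∧
      (∀ i, ∀ p ∈ P', b i ((ExpL_T φ' r (w j)).mulVec p) ≠ 0) ∧
      (∀ i, b i ((ExpL_T φ' r (w j)).mulVec v') ≠ 0) ∧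
      (jac a b ((ExpL_T φ' r (w j)).mulVec v')).det ≠ 0 := by
    intro j
    classical
    obtain ⟨a, b, k, h1, h2, h3, h4⟩ := hA (P'.image fun p => (ExpL_T φ' r (w j)).mulVec p)
      ((ExpL_T φ' r (w j)).mulVec v')
    exact ⟨a, b, k, h1, fun i p hp => h2 i _ (Finset.mem_image_of_mem _ hp), h3, h4⟩
  choose a b k h1 h2 h3 h4 using hex
  have hTl : ∀ j, ∀ l ∈ latK L φ' M, (ExpL_T φ' r (w j)).mulVec l ∈ latK K φ M := fun j l hl =>
    ExpL_T_lat hK hL hφ hφ' hr (w j) (hwi j) M l hl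
  have hTd : ∀ j, Differentiable ℂ (fun v : S' → ℂ => (ExpL_T φ' r (w j)).mulVec v) := fun j =>
    (LinearMap.toContinuousLinearMap (Matrix.mulVecLin (ExpL_T φ' r (w j)))).differentiable
  obtain ⟨s0⟩ : Nonempty S := by
    obtain ⟨x, -⟩ := hφ.2 (Classical.arbitrary (K →+* ℂ))
    rcases x with s | s
    · exact ⟨s⟩
    · exact ⟨s⟩
  have hcard := ExpL_card hK hL hφ hφ' hr
  obtain ⟨e⟩ : Nonempty (S' ≃ S × Fin (Module.finrank K L)) := ⟨Fintype.equivOfCardEq hcard⟩
  obtain ⟨B, hB⟩ : ∃ B : Fin (Module.finrank K L) → (S' → ℂ) → ℂ, B = fun j v =>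
    ∏ j' ∈ Finset.univ.erase j, b j' s0 ((ExpL_T φ' r (w j')).mulVec v) := ⟨_, rfl⟩
  have hBv : ∀ j v, B j v = ∏ j' ∈ Finset.univ.erase j,
      b j' s0 ((ExpL_T φ' r (w j')).mulVec v) := fun j v => by rw [hB]
  have hl : ∀ j' (f : (S → ℂ) → ℂ), ExpL_Eu δ A (k j') f →
      ExpL_Eu δ (fun s' => A (r s')) (k j') fun v => f ((ExpL_T φ' r (w j')).mulVec v) :=
    fun j' f hf => ExpL_Eu_lin hD r _ (fun s s' => ExpL_T_alg φ' r (w j') s s')
      (fun s s' h => by unfold ExpL_T; rw [Matrix.of_apply, if_neg h]) hf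
  have hBE : ∀ j, ExpL_Eu δ (fun s' => A (r s')) (∑ j' ∈ Finset.univ.erase j, k j') (B j) := by
    intro j
    rw [hB]
    exact ExpL_Eu_prod hD (Finset.univ.erase j) k
      (fun j' v => b j' s0 ((ExpL_T φ' r (w j')).mulVec v))
      (fun j' => hl j' _ (h1 j' s0).db)
  have hE : ∀ (j : Fin (Module.finrank K L)) (f : (S → ℂ) → ℂ), ExpL_Eu δ A (k j) f →
      ExpL_Eu δ (fun s' => A (r s')) (∑ j, k j)
        (fun v => f ((ExpL_T φ' r (w j)).mulVec v) * B j v) := by
    intro j f hf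
    have h6 := ExpL_Eu_mul hD (hl j f hf) (hBE j)
    rw [Finset.add_sum_erase _ _ (Finset.mem_univ j)] at h6
    exact h6
  have hBd : ∀ j, Differentiable ℂ (B j) := fun j => (hBE j).ent
  have hB0 : ∀ j v, (∀ j', b j' s0 ((ExpL_T φ' r (w j')).mulVec v) ≠ 0) → B j v ≠ 0 := by
    intro j v h
    rw [hBv]
    exact Finset.prod_ne_zero_iff.2 fun j' _ => h j'
  refine ⟨fun s' v => a (e s').2 (e s').1 ((ExpL_T φ' r (w (e s').2)).mulVec v) * B (e s').2 v,
    fun s' v => b (e s').2 (e s').1 ((ExpL_T φ' r (w (e s').2)).mulVec v) * B (e s').2 v,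
    ∑ j, k j, ?_, ?_, ?_, ?_⟩
  · intro s'
    refine ⟨hE _ _ (h1 _ _).da, hE _ _ (h1 _ _).db, ⟨v', mul_ne_zero (h3 _ _)
      (hB0 _ _ fun j' => h3 j' s0)⟩, ?_⟩
    obtain ⟨e1, N1, hF, hFa, hFb⟩ := (h1 (e s').2 (e s').1).fac
    have hf0 : ∀ j', ∃ (e : (S → ℂ) → (S → ℂ) → ℂ) (N : (S → ℂ) → ℝ),
        Fac (latK K φ M) e N ∧ HasFac (latK K φ M) e (b j' s0) := fun j' => by
      obtain ⟨e2, N2, h5, h6, h7⟩ := (h1 j' s0).fac
      exact ⟨e2, N2, h5, h7⟩
    choose e0 N0 hF0 hFb0 using hf0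
    have hP1 := ExpL_Fac_prod (Finset.univ.erase (e s').2) fun j' =>
      ExpL_Fac_lin (ExpL_T φ' r (w j')) (hTl j') (hF0 j')
    have hP2 := ExpL_HasFac_prod (Finset.univ.erase (e s').2) fun j' =>
      ExpL_HasFac_lin (ExpL_T φ' r (w j')) (hTl j') (hFb0 j')
    rw [hB]
    exact ⟨_, _, ExpL_Fac_mul (ExpL_Fac_lin (ExpL_T φ' r (w (e s').2)) (hTl _) hF) hP1,
      ExpL_HasFac_mul (ExpL_HasFac_lin (ExpL_T φ' r (w (e s').2)) (hTl _) hFa) hP2,
      ExpL_HasFac_mul (ExpL_HasFac_lin (ExpL_T φ' r (w (e s').2)) (hTl _) hFb) hP2⟩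
  · intro s' p hp
    exact mul_ne_zero (h2 _ _ p hp) (hB0 _ _ fun j' => h2 j' s0 p hp)
  · intro s'
    exact mul_ne_zero (h3 _ _) (hB0 _ _ fun j' => h3 j' s0)
  · intro hdet
    obtain ⟨y, hy0, hy⟩ := Matrix.exists_mulVec_eq_zero_iff.2 hdet
    refine hy0 (ExpL_T_inj hφ' hr w hws y fun j => ?_)
    refine Matrix.eq_zero_of_mulVec_eq_zero (h4 j) ?_
    funext s
    have h5 := congrFun hy (e.symm (s, j))
    rw [Matrix.mulVec, dotProduct] at h5 ⊢
    rw [Pi.zero_apply] at h5 ⊢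
    rw [← h5]
    have h6 : ∀ s', jac (fun s' v => a (e s').2 (e s').1 ((ExpL_T φ' r (w (e s').2)).mulVec v) *
        B (e s').2 v) (fun s' v => b (e s').2 (e s').1
        ((ExpL_T φ' r (w (e s').2)).mulVec v) * B (e s').2 v) v' (e.symm (s, j)) s' =
        ∑ i, ExpL_T φ' r (w j) i s' * jac (a j) (b j) ((ExpL_T φ' r (w j)).mulVec v') s i := by
      intro s'
      simp only [jac, Matrix.of_apply, Equiv.apply_symm_apply]
      have h7 : (fun z => a j s ((ExpL_T φ' r (w j)).mulVec z) * B j z /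
          (b j s ((ExpL_T φ' r (w j)).mulVec z) * B j z)) =ᶠ[nhds v']
          fun z => a j s ((ExpL_T φ' r (w j)).mulVec z) / b j s ((ExpL_T φ' r (w j)).mulVec z) := by
        have h8 : ∀ᶠ z in nhds v', B j z ≠ 0 :=
          (hBd j).continuous.continuousAt.eventually_ne (hB0 j v' fun j' => h3 j' s0)
        filter_upwards [h8] with z hz
        rw [mul_div_mul_right _ _ hz]
      have h9 : pd s' (fun z => a j s ((ExpL_T φ' r (w j)).mulVec z) * B j z /
          (b j s ((ExpL_T φ' r (w j)).mulVec z) * B j z)) v' = pd s' (fun z =>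
            a j s ((ExpL_T φ' r (w j)).mulVec z) / b j s ((ExpL_T φ' r (w j)).mulVec z)) v' := by
        unfold pd
        rw [h7.fderiv_eq]
      refine h9.trans ?_
      have h10 : DifferentiableAt ℂ (fun z => a j s z / b j s z)
          ((ExpL_T φ' r (w j)).mulVec v') := by
        simp only [div_eq_mul_inv]
        exact ((h1 j s).da.ent _).fun_mul (((h1 j s).db.ent _).fun_inv (h3 j s))
      exact ExpL_pd_lin (ExpL_T φ' r (w j)) (a := fun z => a j s z / b j s z) h10 s'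
    calc ∑ i, jac (a j) (b j) ((ExpL_T φ' r (w j)).mulVec v') s i *
          (ExpL_T φ' r (w j)).mulVec y i =
        ∑ i, ∑ s', jac (a j) (b j) ((ExpL_T φ' r (w j)).mulVec v') s i *
          (ExpL_T φ' r (w j) i s' * y s') := by
          refine Finset.sum_congr rfl fun i _ => ?_
          rw [Matrix.mulVec, dotProduct, Finset.mul_sum]
      _ = ∑ s', ∑ i, jac (a j) (b j) ((ExpL_T φ' r (w j)).mulVec v') s i *
          (ExpL_T φ' r (w j) i s' * y s') := Finset.sum_comm
      _ = _ := Finset.sum_congr rfl fun s' _ => by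
          rw [h6 s', Finset.sum_mul]
          exact Finset.sum_congr rfl fun i _ => by ring

end GAM
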