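import Pool.Agent.GAM.StD2

/-!
# GAM: exponents and reindexing
-/

set_option autoImplicit false

namespace GAM

open scoped ComplexConjugate

section

variable {S S' : Type} [Fintype S] [DecidableEq S] [Fintype S'] [DecidableEq S']

/-- reindexing of the coordinates -/
noncomputable def ExpR_R (f : S' ≃ S) : (S' → ℂ) ≃L[ℂ] (S → ℂ) :=
  (LinearEquiv.funCongrLeft ℂ ℂ f.symm).toContinuousLinearEquiv

theorem ExpR_R_apply (f : S' ≃ S) (v : S' → ℂ) (s : S) : ExpR_R f v s = v (f.symm s) := rfl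

theorem ExpR_single (f : S' ≃ S) (s' : S') :
    ExpR_R f (Pi.single s' 1) = Pi.single (f s') 1 := by
  funext s
  rw [ExpR_R_apply, Pi.single_apply, Pi.single_apply]
  by_cases h : s = f s'
  · rw [if_pos h, if_pos (by rw [h, Equiv.symm_apply_apply])]
  · rw [if_neg h, if_neg (fun h' => h (by rw [← h', Equiv.apply_symm_apply]))]

theorem ExpR_pd (f : S' ≃ S) (g : (S → ℂ) → ℂ) (s' : S') (v : S' → ℂ) :
    pd s' (fun v => g (ExpR_R f v)) v = pd (f s') g (ExpR_R f v) := by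
  unfold pd
  have h : fderiv ℂ (fun v => g (ExpR_R f v)) v =
      (fderiv ℂ g (ExpR_R f v)).comp (ExpR_R f : (S' → ℂ) →L[ℂ] (S → ℂ)) :=
    ContinuousLinearEquiv.comp_right_fderiv (ExpR_R f) (f := g) (x := v)
  rw [h, ContinuousLinearMap.comp_apply]
  exact congrArg _ (ExpR_single f s')

theorem ExpR_eul (f : S' ≃ S) (A : S → ℂ) (g : (S → ℂ) → ℂ) (v : S' → ℂ) :
    eul (fun s' => A (f s')) (fun v => g (ExpR_R f v)) v = eul A g (ExpR_R f v) := by
  unfold eul
  rw [← Equiv.sum_comp f]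
  refine Finset.sum_congr rfl fun s' _ => ?_
  rw [ExpR_pd, ExpR_R_apply, Equiv.symm_apply_apply]

/-- the matrix of the reindexing -/
noncomputable def ExpR_T (f : S' ≃ S) : Matrix S S' ℂ :=
  Matrix.of fun s s' => if f.symm s = s' then 1 else 0

theorem ExpR_T_mulVec (f : S' ≃ S) (v : S' → ℂ) : (ExpR_T f).mulVec v = ExpR_R f v := by
  funext s
  simp [ExpR_T, ExpR_R_apply, Matrix.mulVec, dotProduct]

theorem ExpR_del (h1 : St_DelR) (f : S' ≃ S) (δ : Derivation ℚ ℂ ℂ) {a a' : (S → ℂ) → ℂ}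
    (h : IsDel δ a a') : IsDel δ (fun v => a (ExpR_R f v)) (fun v => a' (ExpR_R f v)) := by
  have h2 := (h1 S δ).lin S' (ExpR_T f) a a' (fun i k => by
    show IsAlgebraic ℚ (if f.symm i = k then (1 : ℂ) else 0)
    split_ifs
    · exact isAlgebraic_one
    · exact isAlgebraic_zero) h
  simp only [ExpR_T_mulVec] at h2
  exact h2

theorem ExpR_lat (K : Type) [Field K] [NumberField K] (φ : S → K →+* ℂ) (f : S' ≃ S) (M : ℕ)
    {l : S' → ℂ} (hl : l ∈ latK K (fun s => φ (f s)) M) : ExpR_R f l ∈ latK K φ M := by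
  unfold latK at hl
  refine Submodule.span_induction (p := fun l _ => ExpR_R f l ∈ latK K φ M) ?_ ?_ ?_ ?_ hl
  · rintro _ ⟨x, rfl⟩
    refine Submodule.subset_span ⟨x, ?_⟩
    funext s
    show _ = φ (f (f.symm s)) _
    rw [Equiv.apply_symm_apply]
  · rw [map_zero]
    exact Submodule.zero_mem _
  · intro x y _ _ hx hy
    rw [map_add]
    exact Submodule.add_mem _ hx hy
  · intro n x _ hx
    rw [map_zsmul]
    exact Submodule.smul_mem _ n hx

theorem ExpR_qd (h1 : St_DelR) (K : Type) [Field K] [NumberField K] (φ : S → K →+* ℂ)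
    (f : S' ≃ S) (M : ℕ) (δ : Derivation ℚ ℂ ℂ) {a b a' b' : (S → ℂ) → ℂ}
    (h : QD δ (latK K φ M) a b a' b') :
    QD δ (latK K (fun s => φ (f s)) M) (fun v => a (ExpR_R f v)) (fun v => b (ExpR_R f v))
      (fun v => a' (ExpR_R f v)) (fun v => b' (ExpR_R f v)) := by
  obtain ⟨hda, hdb, ⟨v, hv⟩, e, N, hF, ha, hb⟩ := h
  refine ⟨ExpR_del h1 f δ hda, ExpR_del h1 f δ hdb, ⟨(ExpR_R f).symm v, ?_⟩,
    fun l v => e (ExpR_R f l) (ExpR_R f v), fun v => N (ExpR_R f v), ⟨?_, ?_, ?_⟩, ?_, ?_⟩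
  · show b (ExpR_R f ((ExpR_R f).symm v)) ≠ 0
    rw [ContinuousLinearEquiv.apply_symm_apply]
    exact hv
  · exact hF.cont.comp (ExpR_R f).continuous
  · intro l hl
    exact (hF.hol _ (ExpR_lat K φ f M hl)).comp (ExpR_R f).differentiable
  · intro l hl v
    show _ = Real.exp (N (ExpR_R f (v + l)) - N (ExpR_R f v))
    rw [hF.norm _ (ExpR_lat K φ f M hl), map_add]
  · intro l hl v
    show a (ExpR_R f (v + l)) = _
    rw [map_add, ha _ (ExpR_lat K φ f M hl)]
  · intro l hl v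
    show b (ExpR_R f (v + l)) = _
    rw [map_add, hb _ (ExpR_lat K φ f M hl)]

end

theorem thm_ExpR (h1 : St_DelR) : St_ExpR := by
  intro K _ _ S S' _ _ _ _ φ δ A f ⟨M, hM, h⟩
  refine ⟨M, hM, fun P v₀ => ?_⟩
  classical
  obtain ⟨a, b, k, hq, hP, hv, hj⟩ := h (P.image (ExpR_R f)) (ExpR_R f v₀)
  refine ⟨fun i v => a (f i) (ExpR_R f v), fun i v => b (f i) (ExpR_R f v), k, fun i => ?_,
    fun i p hp => hP (f i) _ (Finset.mem_image_of_mem _ hp), fun i => hv (f i), ?_⟩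
  · have h2 := ExpR_qd h1 K φ f M δ (hq (f i))
    have h3 : ∀ g : (S → ℂ) → ℂ, (fun v : S' → ℂ => k * g (ExpR_R f v) +
        eul (fun s => A (f s)) (fun v => g (ExpR_R f v)) v) =
        fun v => k * g (ExpR_R f v) + eul A g (ExpR_R f v) := fun g => by
      funext v
      rw [ExpR_eul]
    show QD δ (latK K (fun s => φ (f s)) M) (fun v => a (f i) (ExpR_R f v))
      (fun v => b (f i) (ExpR_R f v)) (fun v : S' → ℂ => k * a (f i) (ExpR_R f v) +
        eul (fun s => A (f s)) (fun v => a (f i) (ExpR_R f v)) v)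
      (fun v : S' → ℂ => k * b (f i) (ExpR_R f v) +
        eul (fun s => A (f s)) (fun v => b (f i) (ExpR_R f v)) v)
    rw [h3, h3]
    exact h2
  · have h4 : jac (fun i v => a (f i) (ExpR_R f v)) (fun i v => b (f i) (ExpR_R f v)) v₀ =
        (jac a b (ExpR_R f v₀)).submatrix f f := by
      ext i j
      exact ExpR_pd f (fun z => a (f i) z / b (f i) z) j v₀
    rw [h4, Matrix.det_submatrix_equiv_self]
    exact hj

end GAM
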