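import Pool.Agent.GAM.Per
import Pool.Agent.GAM.Bas

/-!
# GAM: periodic quotients built from the functions `F_x`
-/

set_option autoImplicit false
set_option linter.unusedSectionVars false
set_option linter.unusedVariables false

namespace GAM

open scoped ComplexConjugate Topology
open Filter

variable {ι : Type} [Fintype ι] [DecidableEq ι] {δ : Derivation ℚ ℂ ℂ}
  {L : Submodule ℤ (ι → ℂ)} {χ θ : (ι → ℂ) → ℂ}

theorem IsDel.pow (hR : DelRules ι δ) {a a' : (ι → ℂ) → ℂ} (h : IsDel δ a a') (n : ℕ) :
    IsDel δ (fun v => a v ^ n) (fun v => n * a v ^ (n - 1) * a' v) := by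
  induction n with
  | zero =>
    have := hR.const 1
    simpa using this
  | succ n ih =>
    have h1 := hR.mul _ _ _ _ ih h
    have e1 : (fun v => a v ^ n * a v) = fun v => a v ^ (n + 1) := by funext v; rw [pow_succ]
    have e2 : (fun v => n * a v ^ (n - 1) * a' v * a v + a v ^ n * a' v) =
        fun v => ((n + 1 : ℕ) : ℂ) * a v ^ (n + 1 - 1) * a' v := by
      funext v
      rcases n with _ | n
      · simp
      · simp only [Nat.add_sub_cancel]
        push_cast
        ring
    rw [e1, e2] at h1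
    exact h1

/-- the factor of automorphy of `F_x ^ n` if `n x ∈ L` -/
noncomputable def fx (χ : (ι → ℂ) → ℂ) (n : ℕ) (l v : ι → ℂ) : ℂ :=
  (χ l * Complex.exp (Real.pi * H v l + Real.pi / 2 * H l l)) ^ n

theorem H_diff (w : ι → ℂ) : Differentiable ℂ fun v : ι → ℂ => H v w := (Hc w).differentiable

theorem H_cont_re : Continuous fun v : ι → ℂ => (H v v).re := by
  unfold H
  fun_prop

theorem fac_fx (hP : PLat L χ) (n : ℕ) :
    Fac L (fx χ n) (fun v => n * (Real.pi / 2 * (H v v).re)) where
  cont := by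
    have := H_cont_re (ι := ι)
    fun_prop
  hol := by
    intro l hl
    unfold fx
    have := H_diff l
    fun_prop
  norm := by
    intro l hl v
    unfold fx
    rw [norm_pow, norm_mul, hP.chi_norm hl, one_mul, Complex.norm_exp, ← Real.exp_nat_mul]
    congr 1
    have h1 : (H (v + l) (v + l)).re = (H v v).re + 2 * (H v l).re + (H l l).re := by
      rw [H_add_left, H_add_right, H_add_right]
      have h2 : (H l v).re = (H v l).re := by rw [← H_conj v l, Complex.conj_re]
      simp only [Complex.add_re, h2]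
      ring
    rw [h1]
    have h3 : ((Real.pi : ℂ) * H v l + Real.pi / 2 * H l l).re =
        Real.pi * (H v l).re + Real.pi / 2 * (H l l).re := by
      have h4 : (Real.pi : ℂ) / 2 = ((Real.pi / 2 : ℝ) : ℂ) := by push_cast; ring
      rw [Complex.add_re, h4, Complex.re_ofReal_mul, Complex.re_ofReal_mul]
    rw [h3]
    ring

theorem exp_order (hP : PLat L χ) {n : ℕ} {x l : ι → ℂ} (hx : (n : ℤ) • x ∈ L) (hl : l ∈ L) :
    Complex.exp (2 * Real.pi * Complex.I * E x l) ^ n = 1 := by
  obtain ⟨m, hm⟩ := hP.int _ hx l hl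
  rw [E_zsmul_left] at hm
  rw [← Complex.exp_nat_mul, Complex.exp_eq_one_iff]
  refine ⟨m, ?_⟩
  have : ((n : ℝ) * E x l : ℝ) = m := by exact_mod_cast hm
  have h2 : (n : ℂ) * (E x l : ℂ) = m := by exact_mod_cast congrArg (fun r : ℝ => (r : ℂ)) this
  linear_combination (2 * Real.pi * Complex.I) * h2

theorem hasFac_fx (hP : PLat L χ) (hT : IsTh L χ θ) {n : ℕ} {x : ι → ℂ} (hx : (n : ℤ) • x ∈ L) :
    HasFac L (fx χ n) (fun v => F θ x v ^ n) := by
  intro l hl v
  have h1 := exp_order hP hx hl
  simp only [fx, F_quasi hT hl, mul_pow, h1]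
  ring

/-- the type of `F_0` itself -/
theorem hasFac_one (hP : PLat L χ) (hT : IsTh L χ θ) : HasFac L (fx χ 1) (F θ 0) := by
  have := hasFac_fx hP hT (n := 1) (x := 0) (by simp)
  simpa using this

theorem F_nz (h : ∃ v, θ v ≠ 0) (x : ι → ℂ) : ∃ v, F θ x v ≠ 0 := by
  obtain ⟨v, hv⟩ := h
  exact ⟨v - x, (F_ne_iff θ x _).2 (by simpa using hv)⟩

theorem F_ne_lat (hP : PLat L χ) (hT : IsTh L χ θ) {l : ι → ℂ} (hl : l ∈ L) {x v : ι → ℂ}
    (hv : F θ x v ≠ 0) : F θ x (v + l) ≠ 0 := by
  rw [F_quasi hT hl]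
  exact mul_ne_zero (mul_ne_zero (mul_ne_zero (hP.chi_ne hl) (Complex.exp_ne_zero _))
    (Complex.exp_ne_zero _)) hv

/-- `F_x ^ n / F_y ^ n` is a periodic quotient -/
theorem QD_pow (hR : DelRules ι δ) (hP : PLat L χ) (hT : IsTh L χ θ) (h0 : ∃ v, θ v ≠ 0) {n : ℕ}
    {x y : ι → ℂ} (hx : (n : ℤ) • x ∈ L) (hy : (n : ℤ) • y ∈ L) {a' b' : (ι → ℂ) → ℂ}
    (ha : IsDel δ (F θ x) a') (hb : IsDel δ (F θ y) b') :
    QD δ L (fun v => F θ x v ^ n) (fun v => F θ y v ^ n)
      (fun v => n * F θ x v ^ (n - 1) * a' v) (fun v => n * F θ y v ^ (n - 1) * b' v) where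
  da := ha.pow hR n
  db := hb.pow hR n
  nz := by
    obtain ⟨v, hv⟩ := F_nz h0 y
    exact ⟨v, pow_ne_zero n hv⟩
  fac := ⟨fx χ n, _, fac_fx hP n, hasFac_fx hP hT hx, hasFac_fx hP hT hy⟩

/-- logarithmic derivatives are additively quasi-periodic -/
theorem om_quasi (hP : PLat L χ) (hT : IsTh L χ θ) {l : ι → ℂ} (hl : l ∈ L) (x : ι → ℂ) (j : ι)
    {v : ι → ℂ} (hv : F θ x v ≠ 0) :
    pd j (F θ x) (v + l) / F θ x (v + l) = pd j (F θ x) v / F θ x v + Real.pi * conj (l j) := by
  have hd := F_differentiable hT x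
  have e1 : (fun z => F θ x (z + l)) = fun z => (χ l * Complex.exp (2 * Real.pi * Complex.I * E x l) *
      Complex.exp (Real.pi * H z l + Real.pi / 2 * H l l)) * F θ x z := by
    funext z; rw [F_quasi hT hl]
  have e2 : pd j (fun z => F θ x (z + l)) v = pd j (F θ x) (v + l) := pd_shift' _ _ _ _
  have hc : DifferentiableAt ℂ (fun z => χ l * Complex.exp (2 * Real.pi * Complex.I * E x l) *
      Complex.exp (Real.pi * H z l + Real.pi / 2 * H l l)) v := by
    have := H_diff l
    fun_prop
  have e3 : pd j (fun z => χ l * Complex.exp (2 * Real.pi * Complex.I * E x l) *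
      Complex.exp (Real.pi * H z l + Real.pi / 2 * H l l)) v =
      (χ l * Complex.exp (2 * Real.pi * Complex.I * E x l) *
      Complex.exp (Real.pi * H v l + Real.pi / 2 * H l l)) * (Real.pi * conj (l j)) := by
    have h1 : HasFDerivAt (fun z : ι → ℂ => H z l) (Hc l) v := (Hc l).hasFDerivAt
    have h2 : HasFDerivAt (fun z : ι → ℂ => Real.pi * H z l + Real.pi / 2 * H l l)
        ((Real.pi : ℂ) • Hc l) v := (h1.const_mul (Real.pi : ℂ)).add_const _
    have h3 := (h2.cexp.const_mul (χ l * Complex.exp (2 * Real.pi * Complex.I * E x l))).fderiv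
    unfold pd
    rw [h3]
    have h4 : Hc l (Pi.single j 1) = conj (l j) := by
      rw [Hc_apply]
      unfold H
      rw [Finset.sum_eq_single j]
      · simp
      · intro b _ hb
        simp [hb]
      · simp
    simp only [smul_apply, smul_eq_mul, h4]
    ring
  rw [e1, pd_mul' hc (hd v), e3] at e2
  rw [← e2, F_quasi hT hl x v]
  have hne : χ l * Complex.exp (2 * Real.pi * Complex.I * E x l) *
      Complex.exp (Real.pi * H v l + Real.pi / 2 * H l l) ≠ 0 :=
    mul_ne_zero (mul_ne_zero (hP.chi_ne hl) (Complex.exp_ne_zero _)) (Complex.exp_ne_zero _)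
  generalize χ l * Complex.exp (2 * Real.pi * Complex.I * E x l) *
      Complex.exp (Real.pi * H v l + Real.pi / 2 * H l l) = c at hne ⊢
  field_simp
  ring

/-- real linear functionals which vanish on a lattice -/
theorem lat_zero (hL : IsLat L) {p q : ι → ℂ}
    (h : ∀ l ∈ L, ∑ j, p j * l j + ∑ j, q j * conj (l j) = 0) : p = 0 ∧ q = 0 := by
  obtain ⟨b, hb⟩ := hL
  have h1 : ∀ z : ι → ℂ, ∑ j, p j * z j + ∑ j, q j * conj (z j) = 0 := by
    intro z
    let φ : (ι → ℂ) →ₗ[ℝ] ℂ :=
      { toFun := fun z => ∑ j, p j * z j + ∑ j, q j * conj (z j)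
        map_add' := by
          intro z w
          simp only [Pi.add_apply, map_add, mul_add, Finset.sum_add_distrib]
          ring
        map_smul' := by
          intro r z
          simp only [Pi.smul_apply, Complex.real_smul, map_mul, Complex.conj_ofReal,
            RingHom.id_apply, mul_add, Finset.mul_sum]
          congr 1 <;> exact Finset.sum_congr rfl fun j _ => by ring }
    have h2 : φ = 0 := by
      apply b.ext
      intro i
      have := h (b i) (by rw [hb]; exact Submodule.subset_span ⟨i, rfl⟩)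
      simpa [φ] using this
    have h3 := LinearMap.congr_fun h2 z
    simpa [φ] using h3
  have h2 : ∀ j, p j + q j = 0 := by
    intro j
    have := h1 (Pi.single j 1)
    simpa [Pi.single_apply, apply_ite conj] using this
  have h3 : ∀ j, p j * Complex.I - q j * Complex.I = 0 := by
    intro j
    have := h1 (Pi.single j Complex.I)
    simpa [Pi.single_apply, apply_ite conj, sub_eq_add_neg] using this
  constructor
  · funext j
    have e1 := h2 j
    have e2 := h3 j
    have e3 : 2 * Complex.I * p j = 0 := by linear_combination Complex.I * e1 + e2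
    simpa using e3
  · funext j
    have e1 := h2 j
    have e2 := h3 j
    have e3 : 2 * Complex.I * q j = 0 := by linear_combination Complex.I * e1 - e2
    simpa using e3

/-- additive functions on a lattice -/
theorem lat_add (hL : IsLat L) {γ : (ι → ℂ) → ℂ}
    (h : ∀ l ∈ L, ∀ m ∈ L, γ (l + m) = γ l + γ m) :
    ∃ p q : ι → ℂ, ∀ l ∈ L, γ l = ∑ j, p j * l j + ∑ j, q j * conj (l j) := by
  obtain ⟨b, hb⟩ := hL
  have hbL : ∀ i, b i ∈ L := fun i => by rw [hb]; exact Submodule.subset_span ⟨i, rfl⟩
  have h0 : γ 0 = 0 := by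
    have := h 0 L.zero_mem 0 L.zero_mem
    simpa using this
  have hneg : ∀ l ∈ L, γ (-l) = -γ l := by
    intro l hl
    have := h l hl (-l) (L.neg_mem hl)
    rw [add_neg_cancel, h0] at this
    linear_combination -this
  let φ : (ι → ℂ) →ₗ[ℝ] ℂ := b.constr ℝ fun i => γ (b i)
  have hφ : ∀ l ∈ L, γ l = φ l := by
    intro l hl
    have hl' := hl
    rw [hb] at hl
    induction hl using Submodule.span_induction with
    | mem x hx =>
      obtain ⟨i, rfl⟩ := hx
      simp [φ]
    | zero => rw [h0, map_zero]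
    | add x y hx hy ihx ihy =>
      have hx' : x ∈ L := by rw [hb]; exact hx
      have hy' : y ∈ L := by rw [hb]; exact hy
      rw [h x hx' y hy', ihx hx', ihy hy', map_add]
    | smul n x hx ih =>
      have hx' : x ∈ L := by rw [hb]; exact hx
      have hn : ∀ k : ℕ, γ ((k : ℤ) • x) = (k : ℂ) * γ x := by
        intro k
        induction k with
        | zero => simp [h0]
        | succ k ihk =>
          have e : ((k + 1 : ℕ) : ℤ) • x = (k : ℤ) • x + x := by push_cast; rw [add_smul, one_smul]
          rw [e, h _ (L.smul_mem _ hx') x hx', ihk]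
          push_cast; ring
      have hz : ∀ k : ℤ, γ (k • x) = (k : ℂ) * γ x := by
        intro k
        rcases Int.eq_nat_or_neg k with ⟨m, rfl | rfl⟩
        · rw [hn]; norm_cast
        · rw [neg_smul, hneg _ (L.smul_mem _ hx'), hn]; push_cast; ring
      have e : n • x = (n : ℝ) • x := by
        rw [Int.cast_smul_eq_zsmul]
      rw [hz, ih hx', e, map_smul]
      simp
  refine ⟨fun j => (φ (Pi.single j 1) - Complex.I * φ (Pi.single j Complex.I)) / 2,
    fun j => (φ (Pi.single j 1) + Complex.I * φ (Pi.single j Complex.I)) / 2, fun l hl => ?_⟩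
  rw [hφ l hl]
  have e1 : l = ∑ j, ((l j).re • (Pi.single j (1 : ℂ) : ι → ℂ) +
      (l j).im • (Pi.single j Complex.I : ι → ℂ)) := by
    funext k
    rw [Finset.sum_apply, Finset.sum_eq_single k]
    · simp
    · intro j _ hj
      simp [hj.symm]
    · simp
  conv_lhs => rw [e1]
  rw [map_sum, ← Finset.sum_add_distrib]
  refine Finset.sum_congr rfl fun j _ => ?_
  rw [map_add, map_smul, map_smul, Complex.real_smul, Complex.real_smul]
  have e2 : l j = (l j).re + (l j).im * Complex.I := (Complex.re_add_im _).symm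
  have e3 : conj (l j) = (l j).re - (l j).im * Complex.I := by
    apply Complex.ext <;> simp
  rw [e3]
  conv_rhs => rw [e2]
  simp only [Complex.add_re, Complex.ofReal_re, Complex.mul_re, Complex.I_re, mul_zero,
    Complex.ofReal_im, Complex.I_im, mul_one, sub_self, add_zero, Complex.add_im, Complex.mul_im,
    zero_add]
  have hI : Complex.I * Complex.I = -1 := Complex.I_mul_I
  linear_combination ((l j).im * φ (Pi.single j Complex.I)) * hI

end GAM
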