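import Pool.Agent.GAM.StD2
import Pool.Agent.GAM.QDF

/-!
# GAM: [ExpU], exponents are unique
-/

set_option autoImplicit false
set_option linter.unusedSectionVars false
set_option linter.unusedVariables false

namespace GAM

open scoped ComplexConjugate Topology
open Filter

theorem ExpU_mono {ι : Type} [Fintype ι] [DecidableEq ι] {δ : Derivation ℚ ℂ ℂ}
    {Λ Λ' : Submodule ℤ (ι → ℂ)} (h : Λ' ≤ Λ) {a b a' b' : (ι → ℂ) → ℂ}
    (hQ : QD δ Λ a b a' b') : QD δ Λ' a b a' b' where
  da := hQ.da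
  db := hQ.db
  nz := hQ.nz
  fac := by
    obtain ⟨e, N, h1, h2, h3⟩ := hQ.fac
    exact ⟨e, N, ⟨h1.cont, fun l hl => h1.hol l (h hl), fun l hl => h1.norm l (h hl)⟩,
      fun l hl => h2 l (h hl), fun l hl => h3 l (h hl)⟩

theorem ExpU_shift {ι : Type} [Fintype ι] [DecidableEq ι] {δ : Derivation ℚ ℂ ℂ}
    {Λ : Submodule ℤ (ι → ℂ)} {a b : (ι → ℂ) → ℂ} {A : ι → ℂ} {k : ℂ}
    (hQ : QD δ Λ a b (fun v => k * a v + eul A a v) (fun v => k * b v + eul A b v))
    {l : ι → ℂ} (hl : l ∈ Λ) {v : ι → ℂ} (hv : b v ≠ 0) :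
    qd a b (fun v => k * a v + eul A a v) (fun v => k * b v + eul A b v) (v + l) -
      qd a b (fun v => k * a v + eul A a v) (fun v => k * b v + eul A b v) v =
      ∑ j, (A j * l j) * pd j (fun z => a z / b z) v := by
  have key : ∀ z, b z ≠ 0 → qd a b (fun v => k * a v + eul A a v)
      (fun v => k * b v + eul A b v) z = ∑ j, A j * z j * pd j (fun z => a z / b z) z := by
    intro z hz
    have h1 : ∀ j, pd j (fun z => a z / b z) z = (pd j a z * b z - a z * pd j b z) / b z ^ 2 :=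
      fun j => pd_div' (hQ.da.ent z) (hQ.db.ent z) hz j
    simp only [h1, qd, eul]
    have h2 : (k * a z + ∑ j, A j * z j * pd j a z) * b z -
        a z * (k * b z + ∑ j, A j * z j * pd j b z) =
        ∑ j, A j * z j * (pd j a z * b z - a z * pd j b z) := by
      have h3 : ∑ j, A j * z j * (pd j a z * b z - a z * pd j b z) =
          (∑ j, A j * z j * pd j a z) * b z - a z * ∑ j, A j * z j * pd j b z := by
        rw [Finset.sum_mul, Finset.mul_sum, ← Finset.sum_sub_distrib]
        exact Finset.sum_congr rfl fun j _ => by ring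
      rw [h3]
      ring
    rw [h2, Finset.sum_div]
    exact Finset.sum_congr rfl fun j _ => by ring
  have hper : ∀ j, pd j (fun z => a z / b z) (v + l) = pd j (fun z => a z / b z) v := by
    intro j
    have h1 : pd j (fun z => a (z + l) / b (z + l)) v = pd j (fun z => a z / b z) (v + l) :=
      pd_shift' (fun z => a z / b z) l v j
    have h2 : (fun z => a (z + l) / b (z + l)) = fun z => a z / b z :=
      funext fun z => hQ.per hl z
    rw [← h1, h2]
  rw [key v hv, key (v + l) (hQ.ne hl hv), ← Finset.sum_sub_distrib]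
  refine Finset.sum_congr rfl fun j _ => ?_
  rw [hper j, Pi.add_apply]
  ring

theorem ExpU_le (K : Type) [Field K] [NumberField K] {S : Type} (φ : S → K →+* ℂ) (M M' : ℕ) :
    latK K φ (M * M') ≤ latK K φ M := by
  unfold latK
  rw [Submodule.span_le]
  rintro _ ⟨x, rfl⟩
  apply Submodule.subset_span
  refine ⟨(M' : NumberField.RingOfIntegers K) * x, ?_⟩
  funext s
  have h1 : (((M * M' : ℕ) : K) * (x : K)) = (M : K) *
      (((M' : NumberField.RingOfIntegers K) * x : NumberField.RingOfIntegers K) : K) := by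
    push_cast
    ring
  show φ s _ = φ s _
  rw [h1]

theorem thm_ExpU (h1 : St_Per) (h2 : St_LatB) : St_ExpU := by
  intro K _ _ c S _ _ φ δ A A' hc hφ hA hA'
  obtain ⟨M, hM, hA⟩ := hA
  obtain ⟨M', hM', hA'⟩ := hA'
  obtain ⟨a, b, k, hQ, -, hb0, hJ⟩ := hA ∅ 0
  obtain ⟨a', b', k', hQ', -, hb0', hJ'⟩ := hA' ∅ 0
  have hle : latK K φ (M * M') ≤ latK K φ M := ExpU_le K φ M M'
  have hle' : latK K φ (M * M') ≤ latK K φ M' := by
    rw [mul_comm]; exact ExpU_le K φ M' M
  have hΛ := h2 K c S φ hc hφ (M * M') (Nat.mul_ne_zero hM hM')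
  have hQ1 := fun i => ExpU_mono hle (hQ i)
  have hQ1' := fun i => ExpU_mono hle' (hQ' i)
  obtain ⟨ld, hld⟩ := h1 S δ (latK K φ (M * M')) a b _ _ 0 hΛ hQ1 hb0 hJ
  have main : ∀ (A : S → ℂ) (a b : S → (S → ℂ) → ℂ) (k : ℂ),
      (∀ i, QD δ (latK K φ (M * M')) (a i) (b i) (fun v => k * a i v + eul A (a i) v)
        (fun v => k * b i v + eul A (b i) v)) → (∀ i, b i 0 ≠ 0) → (jac a b 0).det ≠ 0 →
      ∀ l ∈ latK K φ (M * M'), ∀ s, ld l s = A s * l s := by
    intro A a b k hQ hb0 hJ l hl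
    have h3 : ∀ i, ∑ j, (ld l j - A j * l j) * pd j (fun z => a i z / b i z) 0 = 0 := by
      intro i
      have e1 := hld _ _ _ _ (hQ i) l hl 0 (hb0 i)
      rw [ExpU_shift (hQ i) hl (hb0 i)] at e1
      simp only [sub_mul, Finset.sum_sub_distrib]
      rw [e1, sub_self]
    have h4 : (fun j => ld l j - A j * l j) = 0 := by
      apply Matrix.eq_zero_of_mulVec_eq_zero hJ
      funext i
      have := h3 i
      simp only [Matrix.mulVec, dotProduct, jac, Matrix.of_apply, Pi.zero_apply]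
      rw [← this]
      exact Finset.sum_congr rfl fun j _ => mul_comm _ _
    intro s
    exact sub_eq_zero.1 (congrFun h4 s)
  have hl : (fun s => φ s (((M * M' : ℕ) : K) * ((1 : NumberField.RingOfIntegers K) : K))) ∈
      latK K φ (M * M') := Submodule.subset_span ⟨1, rfl⟩
  funext s
  have e1 := main A a b k hQ1 hb0 hJ _ hl s
  have e2 := main A' a' b' k' hQ1' hb0' hJ' _ hl s
  rw [e1] at e2
  have h5 : φ s (((M * M' : ℕ) : K) * ((1 : NumberField.RingOfIntegers K) : K)) ≠ 0 := by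
    have h6 : ((1 : NumberField.RingOfIntegers K) : K) = 1 := rfl
    rw [h6, mul_one, map_natCast]
    exact Nat.cast_ne_zero.2 (Nat.mul_ne_zero hM hM')
  exact mul_right_cancel₀ h5 e2

end GAM
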