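import Pool.Agent.GAM.StA

/-!
# GAM [FinD]: the spaces of entire functions with given factor of automorphy are finite dimensional

Instead of vanishing to high order at few points we use a fine net: a function which vanishes on a
`δ`-net of the compact fundamental domain `K` is small on `K` by the Schwarz lemma on discs of
radius `1`, compared with its maximum.
-/

set_option autoImplicit false

namespace GAM

open scoped ComplexConjugate

/-- compact fundamental domain -/
lemma FinD_dom {ι : Type} [Fintype ι] {Λ : Submodule ℤ (ι → ℂ)} (h : IsLat Λ) :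
    ∃ K : Set (ι → ℂ), IsCompact K ∧ (0 : ι → ℂ) ∈ K ∧ ∀ v, ∃ k ∈ K, ∃ l ∈ Λ, v = k + l := by
  classical
  obtain ⟨b, hb⟩ := h
  refine ⟨(fun t : ι ⊕ ι → ℝ => ∑ i, t i • b i) '' Set.Icc 0 1, ?_, ?_, ?_⟩
  · apply isCompact_Icc.image
    fun_prop
  · refine ⟨0, ⟨le_rfl, zero_le_one⟩, ?_⟩
    simp
  · intro v
    refine ⟨∑ i, Int.fract (b.repr v i) • b i, ⟨fun i => Int.fract (b.repr v i), ⟨?_, ?_⟩, rfl⟩,
      ∑ i, ⌊b.repr v i⌋ • b i, ?_, ?_⟩
    · intro i; exact Int.fract_nonneg _
    · intro i; exact (Int.fract_lt_one _).le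
    · rw [hb]
      exact Submodule.sum_mem _ fun i _ => Submodule.smul_mem _ _
        (Submodule.subset_span ⟨i, rfl⟩)
    · rw [← Finset.sum_add_distrib]
      conv_lhs => rw [← b.sum_repr v]
      refine Finset.sum_congr rfl fun i _ => ?_
      have h1 : (⌊b.repr v i⌋ : ℤ) • b i = ((⌊b.repr v i⌋ : ℤ) : ℝ) • b i := by
        rw [Int.cast_smul_eq_zsmul]
      rw [h1, ← add_smul]
      congr 1
      exact (Int.fract_add_floor _).symm

/-- an entire function, small on the net, is zero -/
lemma FinD_zero {ι : Type} [Fintype ι] {K : Set (ι → ℂ)} (hK : IsCompact K)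
    (hne : K.Nonempty) {N : (ι → ℂ) → ℝ} (hN : Continuous N) :
    ∃ t : Finset (ι → ℂ), ∀ G : (ι → ℂ) → ℂ, Differentiable ℂ G → (∀ p ∈ t, G p = 0) →
      (∀ v, ∃ k ∈ K, ‖G v‖ * Real.exp (-N v) = ‖G k‖ * Real.exp (-N k)) → ∀ v, G v = 0 := by
  classical
  have hK1 : IsCompact (Metric.cthickening 1 K) := hK.cthickening
  obtain ⟨C1, hC1⟩ := (hK1.image hN).bddAbove
  obtain ⟨C0, hC0⟩ := (hK.image hN).bddBelow
  set δ : ℝ := min (1 / 2) (Real.exp (C0 - C1) / 4) with hδ
  have hδ0 : 0 < δ := by
    rw [hδ]; exact lt_min (by norm_num) (by positivity)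
  have hδ1 : δ ≤ 1 / 2 := min_le_left _ _
  have hδ2 : δ ≤ Real.exp (C0 - C1) / 4 := min_le_right _ _
  obtain ⟨t, htK, htf, hcov⟩ := hK.finite_cover_balls hδ0
  refine ⟨htf.toFinset, ?_⟩
  intro G hG hzero hper
  have hcont : ContinuousOn (fun z => ‖G z‖ * Real.exp (-N z)) K := by
    apply Continuous.continuousOn
    have := hG.continuous
    fun_prop
  obtain ⟨z0, hz0, hmax⟩ := hK.exists_isMaxOn hne hcont
  set M := ‖G z0‖ * Real.exp (-N z0) with hM
  have hM0 : 0 ≤ M := by positivity
  have hall : ∀ v, ‖G v‖ * Real.exp (-N v) ≤ M := by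
    intro v
    obtain ⟨k, hk, he⟩ := hper v
    rw [he]
    exact hmax hk
  have hbound : ∀ v, ‖G v‖ ≤ M * Real.exp (N v) := by
    intro v
    have h1 := hall v
    have h2 : ‖G v‖ = (‖G v‖ * Real.exp (-N v)) * Real.exp (N v) := by
      rw [mul_assoc, ← Real.exp_add]; simp
    rw [h2]
    exact mul_le_mul_of_nonneg_right h1 (Real.exp_pos _).le
  -- `M = 0`
  have hMz : M = 0 := by
    by_contra hne0
    have hMp : 0 < M := lt_of_le_of_ne hM0 (Ne.symm hne0)
    have hz0' := hcov hz0
    simp only [Set.mem_iUnion] at hz0'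
    obtain ⟨p, hp, hzp⟩ := hz0'
    rw [Metric.mem_ball] at hzp
    have hGp : G p = 0 := hzero p (htf.mem_toFinset.2 hp)
    set w : ι → ℂ := (δ : ℂ)⁻¹ • (z0 - p) with hw
    have hw1 : ‖w‖ < 1 := by
      rw [hw, norm_smul, norm_inv, Complex.norm_real, Real.norm_of_nonneg hδ0.le]
      rw [inv_mul_lt_iff₀ hδ0, mul_one, ← dist_eq_norm]
      exact hzp
    set B := M * Real.exp C1 with hB
    have hB0 : 0 < B := by positivity
    have hmaps : Set.MapsTo (fun s : ℂ => G (p + s • w)) (Metric.ball 0 1)
        (Metric.closedBall (G (p + (0 : ℂ) • w)) (2 * B)) := by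
      intro s hs
      rw [Metric.mem_ball, dist_zero_right] at hs
      rw [zero_smul, add_zero, hGp, Metric.mem_closedBall, dist_zero_right]
      have h1 : p + s • w ∈ Metric.cthickening 1 K := by
        apply Metric.mem_cthickening_of_dist_le _ p 1 K (htK hp)
        rw [dist_eq_norm]
        simp only [add_sub_cancel_left, norm_smul]
        have := mul_le_mul hs.le hw1.le (norm_nonneg w) zero_le_one
        linarith
      have h2 : N (p + s • w) ≤ C1 := hC1 ⟨_, h1, rfl⟩
      calc ‖G (p + s • w)‖ ≤ M * Real.exp (N (p + s • w)) := hbound _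
        _ ≤ B := mul_le_mul_of_nonneg_left (Real.exp_le_exp.2 h2) hM0
        _ ≤ 2 * B := by linarith
    have hd : DifferentiableOn ℂ (fun s : ℂ => G (p + s • w)) (Metric.ball 0 1) := by
      apply Differentiable.differentiableOn
      apply hG.comp
      fun_prop
    have hδb : ((δ : ℝ) : ℂ) ∈ Metric.ball (0 : ℂ) 1 := by
      rw [Metric.mem_ball, dist_zero_right, Complex.norm_real, Real.norm_of_nonneg hδ0.le]
      linarith
    have hS := Complex.dist_le_div_mul_dist_of_mapsTo_ball hd hmaps hδb
    have h3 : p + ((δ : ℝ) : ℂ) • w = z0 := by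
      rw [hw, smul_smul, mul_inv_cancel₀ (by exact_mod_cast hδ0.ne'), one_smul]
      abel
    rw [h3, zero_smul, add_zero, hGp, dist_zero_right, dist_zero_right, Complex.norm_real,
      Real.norm_of_nonneg hδ0.le, div_one] at hS
    have h4 : C0 ≤ N z0 := hC0 ⟨_, hz0, rfl⟩
    have h5 : M ≤ M / 2 := by
      calc M = ‖G z0‖ * Real.exp (-N z0) := hM
        _ ≤ (2 * B * δ) * Real.exp (-C0) :=
            mul_le_mul hS (Real.exp_le_exp.2 (by linarith)) (Real.exp_pos _).le (by positivity)
        _ ≤ (2 * B * (Real.exp (C0 - C1) / 4)) * Real.exp (-C0) := by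
            apply mul_le_mul_of_nonneg_right _ (Real.exp_pos _).le
            exact mul_le_mul_of_nonneg_left hδ2 (by positivity)
        _ = M / 2 * (Real.exp C1 * Real.exp (C0 - C1) * Real.exp (-C0)) := by
            rw [hB]; ring
        _ = M / 2 := by
            rw [← Real.exp_add, ← Real.exp_add]
            have : C1 + (C0 - C1) + -C0 = 0 := by ring
            rw [this, Real.exp_zero, mul_one]
    linarith
  intro v
  have h6 := hbound v
  rw [hMz, zero_mul] at h6
  exact norm_le_zero_iff.1 h6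

theorem thm_FinD (_h1 : St_Hol) : St_FinD := by
  classical
  intro ι _ Λ e N hΛ hF
  obtain ⟨K, hK, h0K, hdom⟩ := FinD_dom hΛ
  obtain ⟨t, ht⟩ := FinD_zero hK ⟨0, h0K⟩ hF.cont
  refine ⟨t.card, ?_⟩
  intro f hf hfac hli
  let T : (Fin (t.card + 1) → ℂ) →ₗ[ℂ] (t → ℂ) :=
    { toFun := fun c p => ∑ i, c i * f i p
      map_add' := by
        intro c d; ext p
        simp [add_mul, Finset.sum_add_distrib]
      map_smul' := by
        intro a c; ext p
        simp [Finset.mul_sum, mul_assoc] }
  have hinj : Function.Injective T := by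
    rw [← LinearMap.ker_eq_bot, LinearMap.ker_eq_bot']
    intro c hc
    have hG : ∀ v, (∑ i, c i * f i v) = 0 := by
      apply ht (fun v => ∑ i, c i * f i v)
      · have : Differentiable ℂ (fun v => ∑ i, c i * f i v) :=
          Differentiable.fun_sum fun i _ => (hf i).const_mul (c i)
        exact this
      · intro p hp
        have := congrFun hc ⟨p, hp⟩
        exact this
      · intro v
        obtain ⟨k, hk, l, hl, rfl⟩ := hdom v
        refine ⟨k, hk, ?_⟩
        have h2 : (∑ i, c i * f i (k + l)) = e l k * ∑ i, c i * f i k := by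
          rw [Finset.mul_sum]
          refine Finset.sum_congr rfl fun i _ => ?_
          rw [hfac i l hl k]; ring
        rw [h2, norm_mul, hF.norm l hl k]
        have h3 : Real.exp (N (k + l) - N k) * Real.exp (-N (k + l)) = Real.exp (-N k) := by
          rw [← Real.exp_add]; congr 1; ring
        rw [mul_right_comm, h3]
        ring
    have h4 := Fintype.linearIndependent_iff.1 hli c (by
      funext v
      simpa [Finset.sum_apply] using hG v)
    funext i
    exact h4 i
  have h5 := LinearMap.finrank_le_finrank_of_injective hinj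
  simp at h5

end GAM
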