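import Pool.Agent.GAM.StC

/-!
# GAM: CM types from a given one by flipping
-/

set_option autoImplicit false

namespace GAM

open scoped ComplexConjugate

theorem FlipJ_cc {K : Type} [Field K] [NumberField K] {c : K →+* K} (hc : CMF K c) :
    c.comp c = RingHom.id K := by
  obtain ⟨σ⟩ : Nonempty (K →+* ℂ) := inferInstance
  ext x
  apply σ.injective
  rw [RingHom.comp_apply, ← hc.cc, ← hc.cc, Complex.conj_conj, RingHom.id_apply]

theorem FlipJ_comp {K : Type} [Field K] [NumberField K] {c : K →+* K} (hc : CMF K c)
    (σ : K →+* ℂ) : (σ.comp c).comp c = σ := by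
  rw [RingHom.comp_assoc, FlipJ_cc hc, RingHom.comp_id]

/-- flipping a subset -/
theorem FlipJ_set {K : Type} [Field K] [NumberField K] {c : K →+* K} {S : Type}
    [DecidableEq S] {φ : S → K →+* ℂ} (hc : CMF K c) (hφ : CMT K c φ) (J : Finset S) :
    CMT K c (fun s => if s ∈ J then (φ s).comp c else φ s) := by
  let π : S ⊕ S → S ⊕ S := Sum.elim (fun s => if s ∈ J then Sum.inr s else Sum.inl s)
    (fun s => if s ∈ J then Sum.inl s else Sum.inr s)
  have hπ : Function.Involutive π := by
    intro x
    rcases x with s | s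
    · by_cases h : s ∈ J <;> simp [π, h]
    · by_cases h : s ∈ J <;> simp [π, h]
  have he : (Sum.elim (fun s => if s ∈ J then (φ s).comp c else φ s)
      fun s => ((if s ∈ J then (φ s).comp c else φ s : K →+* ℂ)).comp c) =
      (Sum.elim φ fun s => (φ s).comp c) ∘ π := by
    funext x
    rcases x with s | s
    · by_cases h : s ∈ J <;> simp [π, h]
    · by_cases h : s ∈ J <;> simp [π, h, FlipJ_comp hc]
  unfold CMT
  rw [he]
  exact hφ.comp hπ.bijective

theorem thm_FlipJ : St_FlipJ := by
  classical
  intro K _ _ c S S' _ _ _ _ φ φ' hc hφ hφ'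
  refine ⟨fun v => ?_, FlipJ_set hc hφ, ?_⟩
  · have h1 := FlipJ_set hc hφ {v}
    have h2 : (fun s => if s ∈ ({v} : Finset S) then (φ s).comp c else φ s) = flip c φ v := by
      funext s
      unfold flip
      by_cases h : s = v
      · subst h
        simp
      · simp [h]
    rwa [h2] at h1
  · let E : S ⊕ S ≃ (K →+* ℂ) := Equiv.ofBijective _ hφ
    let E' : S' ⊕ S' ≃ (K →+* ℂ) := Equiv.ofBijective _ hφ'
    have hEl : ∀ s, E (Sum.inl s) = φ s := fun _ => rfl
    have hEr : ∀ s, E (Sum.inr s) = (φ s).comp c := fun _ => rfl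
    have hEl' : ∀ s, E' (Sum.inl s) = φ' s := fun _ => rfl
    have hEr' : ∀ s, E' (Sum.inr s) = (φ' s).comp c := fun _ => rfl
    -- the index of an embedding
    have hex : ∀ s', ∃ s, φ' s' = φ s ∨ φ' s' = (φ s).comp c := by
      intro s'
      rcases hx : E.symm (φ' s') with s | s
      · refine ⟨s, Or.inl ?_⟩
        rw [← hEl, ← hx, Equiv.apply_symm_apply]
      · refine ⟨s, Or.inr ?_⟩
        rw [← hEr, ← hx, Equiv.apply_symm_apply]
    choose f hf using hex
    have hex' : ∀ s, ∃ s', φ s = φ' s' ∨ φ s = (φ' s').comp c := by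
      intro s
      rcases hx : E'.symm (φ s) with s' | s'
      · refine ⟨s', Or.inl ?_⟩
        rw [← hEl', ← hx, Equiv.apply_symm_apply]
      · refine ⟨s', Or.inr ?_⟩
        rw [← hEr', ← hx, Equiv.apply_symm_apply]
    have huniq : ∀ s t, (φ s = φ t ∨ φ s = (φ t).comp c) → s = t := by
      rintro s t (h | h)
      · exact Sum.inl.inj (E.injective (show E (Sum.inl s) = E (Sum.inl t) from h))
      · exact absurd (E.injective (show E (Sum.inl s) = E (Sum.inr t) from h)) Sum.inl_ne_inr
    have huniq' : ∀ s t, (φ' s = φ' t ∨ φ' s = (φ' t).comp c) → s = t := by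
      rintro s t (h | h)
      · exact Sum.inl.inj (E'.injective (show E' (Sum.inl s) = E' (Sum.inl t) from h))
      · exact absurd (E'.injective (show E' (Sum.inl s) = E' (Sum.inr t) from h)) Sum.inl_ne_inr
    have hinj : Function.Injective f := by
      intro s t hst
      apply huniq'
      have h1 := hf s
      have h2 := hf t
      rw [← hst] at h2
      rcases h1 with h1 | h1 <;> rcases h2 with h2 | h2
      · exact Or.inl (h1.trans h2.symm)
      · right
        rw [h2, FlipJ_comp hc]
        exact h1
      · right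
        rw [h2]
        exact h1
      · exact Or.inl (h1.trans h2.symm)
    have hsurj : Function.Surjective f := by
      intro s
      obtain ⟨s', hs'⟩ := hex' s
      refine ⟨s', ?_⟩
      apply (huniq _ _ _).symm
      rcases hs' with h | h <;> rcases hf s' with h1 | h1
      · exact Or.inl (h.trans h1)
      · exact Or.inr (h.trans h1)
      · right
        rw [h, h1]
      · left
        rw [h, h1, FlipJ_comp hc]
    have hbij : Function.Bijective f := ⟨hinj, hsurj⟩
    refine ⟨Finset.univ.filter fun s => ∃ s', f s' = s ∧ φ' s' = (φ s).comp c,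
      Equiv.ofBijective f hbij, fun s' => ?_⟩
    show φ' s' = if f s' ∈ (Finset.univ.filter fun s => ∃ s', f s' = s ∧
      φ' s' = (φ s).comp c) then (φ (f s')).comp c else φ (f s')
    by_cases h : φ' s' = (φ (f s')).comp c
    · rw [if_pos (Finset.mem_filter.2 ⟨Finset.mem_univ _, s', rfl, h⟩)]
      exact h
    · rw [if_neg]
      · exact (hf s').resolve_right h
      · intro h2
        obtain ⟨-, s'', h3, h4⟩ := Finset.mem_filter.1 h2
        have := hinj h3
        subst this
        exact h h4

end GAM
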