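import Pool.Agent.GAM.StA
import Pool.Agent.GAM.Bas

/-!
# GAM [Four]
-/

set_option autoImplicit false

namespace GAM

open scoped ComplexConjugate

section torus

variable {κ : Type} [Fintype κ]

/-- The projection onto the torus. -/
private noncomputable def Four_pi : C(κ → ℝ, UnitAddTorus κ) where
  toFun x i := (x i : UnitAddCircle)
  continuous_toFun := continuous_pi fun i =>
    (AddCircle.continuous_mk' 1).comp (continuous_apply i)

omit [Fintype κ] in
private lemma Four_pi_quot : Topology.IsQuotientMap (Four_pi (κ := κ)) := by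
  have h : IsOpenQuotientMap (Pi.map fun _ : κ => ((↑) : ℝ → UnitAddCircle)) :=
    IsOpenQuotientMap.piMap fun _ => QuotientAddGroup.isOpenQuotientMap_mk
  exact h.isQuotientMap

omit [Fintype κ] in
private lemma Four_pi_factors (F : (κ → ℝ) → ℂ)
    (hF : ∀ (n : κ → ℤ) x, F (fun i => x i + n i) = F x) :
    Function.FactorsThrough F (Four_pi (κ := κ)) := by
  intro x y hxy
  have h : ∀ i, ∃ n : ℤ, x i + n = y i := by
    intro i
    have h1 : (x i : UnitAddCircle) = (y i : UnitAddCircle) := congrFun hxy i
    obtain ⟨n, hn⟩ := AddSubgroup.mem_zmultiples_iff.mp (QuotientAddGroup.eq.mp h1)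
    refine ⟨n, ?_⟩
    simp only [zsmul_eq_mul, mul_one] at hn
    linarith
  choose n hn using h
  rw [← hF n x]
  congr 1
  funext i
  exact hn i

private lemma Four_mFourier (n : κ → ℤ) (x : κ → ℝ) :
    UnitAddTorus.mFourier n (fun i => (x i : UnitAddCircle)) =
      Complex.exp (2 * Real.pi * Complex.I * ((∑ i, n i * x i : ℝ) : ℂ)) := by
  simp only [UnitAddTorus.mFourier, ContinuousMap.coe_mk, fourier_coe_apply]
  rw [← Complex.exp_sum]
  congr 1
  push_cast
  rw [Finset.mul_sum]
  refine Finset.sum_congr rfl fun i _ => ?_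
  ring

private lemma Four_zero (F : (κ → ℝ) → ℂ) (hc : Continuous F)
    (hF : ∀ (n : κ → ℤ) x, F (fun i => x i + n i) = F x)
    (h0 : ∀ n : κ → ℤ, ∫ t in Set.Icc (0 : κ → ℝ) 1,
      F t * Complex.exp (-(2 * Real.pi * Complex.I * ((∑ i, n i * t i : ℝ) : ℂ))) = 0) :
    ∀ t, F t = 0 := by
  set G : C(UnitAddTorus κ, ℂ) := Four_pi_quot.lift (⟨F, hc⟩ : C(κ → ℝ, ℂ))
    (Four_pi_factors F hF) with hG
  have hGF : ∀ x : κ → ℝ, G (fun i => (x i : UnitAddCircle)) = F x := by
    intro x
    exact DFunLike.congr_fun (Four_pi_quot.lift_comp (⟨F, hc⟩ : C(κ → ℝ, ℂ))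
      (Four_pi_factors F hF)) x
  have hco : UnitAddTorus.mFourierCoeff (d := κ) G = 0 := by
    funext n
    rw [UnitAddTorus.mFourierCoeff_eq_integral G n 0]
    have hset : {x : κ → ℝ | ∀ i, x i ∈ Set.Ioc ((0 : κ → ℝ) i) ((0 : κ → ℝ) i + 1)} =
        Set.univ.pi fun i => Set.Ioc ((0 : κ → ℝ) i) ((1 : κ → ℝ) i) := by
      ext x
      simp only [Set.mem_ofPred_eq, Set.mem_univ_pi, Pi.zero_apply, Pi.one_apply, zero_add]
    rw [hset]
    have hae : (Set.univ.pi fun i => Set.Ioc ((0 : κ → ℝ) i) ((1 : κ → ℝ) i)) =ᵐ[MeasureTheory.volume]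
        Set.Icc (0 : κ → ℝ) 1 := MeasureTheory.Measure.univ_pi_Ioc_ae_eq_Icc
    rw [MeasureTheory.setIntegral_congr_set hae]
    rw [Pi.zero_apply, ← h0 n]
    congr 1
    funext x
    rw [hGF, Four_mFourier, smul_eq_mul, mul_comm]
    congr 2
    push_cast
    simp only [Pi.neg_apply, Int.cast_neg, neg_mul, Finset.sum_neg_distrib]
    ring
  intro t
  have hs : Summable (UnitAddTorus.mFourierCoeff (d := κ) G) := by
    rw [hco]
    exact summable_zero
  have h1 := UnitAddTorus.hasSum_mFourier_series_apply_of_summable hs (fun i => (t i : UnitAddCircle))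
  rw [hGF, hco] at h1
  simp only [Pi.zero_apply, zero_smul] at h1
  exact h1.unique hasSum_zero

end torus

section lattice

variable {ι : Type} [Fintype ι]

private lemma Four_I (z : ι → ℂ) : E (Complex.I • z) z = (H z z).re := by
  unfold E
  rw [H_smul_left]
  simp [Complex.mul_im]

/-- The coordinates of `E`. -/
private noncomputable def Four_T (b : Module.Basis (ι ⊕ ι) ℝ (ι → ℂ)) :
    (ι → ℂ) →ₗ[ℝ] (ι ⊕ ι → ℝ) where
  toFun l i := E (b i) l
  map_add' l l' := by
    funext i
    exact E_add_right _ _ _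
  map_smul' c l := by
    funext i
    exact E_rsmul_right _ _ _

private lemma Four_T_sum (b : Module.Basis (ι ⊕ ι) ℝ (ι → ℂ)) (l : ι → ℂ) (t : ι ⊕ ι → ℝ) :
    E (∑ i, t i • b i) l = ∑ i, t i * E (b i) l := by
  have h : ∀ s : Finset (ι ⊕ ι), E (∑ i ∈ s, t i • b i) l = ∑ i ∈ s, t i * E (b i) l := by
    classical
    intro s
    induction s using Finset.induction_on with
    | empty => simp [E_zero_left]
    | insert a s ha ih =>
      rw [Finset.sum_insert ha, Finset.sum_insert ha, E_add_left, E_rsmul_left, ih]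
  exact h Finset.univ

private lemma Four_T_surj (b : Module.Basis (ι ⊕ ι) ℝ (ι → ℂ)) :
    Function.Surjective (Four_T b) := by
  have hinj : Function.Injective (Four_T b) := by
    rw [← LinearMap.ker_eq_bot, LinearMap.ker_eq_bot']
    intro l hl
    have h1 : ∀ i, E (b i) l = 0 := fun i => congrFun hl i
    have h2 : E (Complex.I • l) l = 0 := by
      rw [← b.sum_repr (Complex.I • l), Four_T_sum]
      simp [h1]
    rw [Four_I] at h2
    exact H_self_eq_zero h2
  have hfr : Module.finrank ℝ (ι → ℂ) = Module.finrank ℝ (ι ⊕ ι → ℝ) := by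
    rw [Module.finrank_eq_card_basis b, Module.finrank_fintype_fun_eq_card]
  exact (LinearMap.injective_iff_surjective_of_finrank_eq_finrank hfr).mp hinj

end lattice

theorem thm_Four : St_Four := by
  intro ι _ L χ b f hL hLb hf hper h0 v
  have hbL : ∀ i, b i ∈ L := fun i => by
    rw [hLb]
    exact Submodule.subset_span ⟨i, rfl⟩
  have key := Four_zero (κ := ι ⊕ ι) (fun t => f (∑ i, t i • b i))
    (by
      refine hf.comp ?_
      exact continuous_finsetSum _ fun i _ => (continuous_apply i).smul continuous_const)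
    (by
      intro n x
      have h1 : (∑ i, (x i + (n i : ℝ)) • b i) = (∑ i, x i • b i) + ∑ i, n i • b i := by
        rw [← Finset.sum_add_distrib]
        refine Finset.sum_congr rfl fun i _ => ?_
        rw [add_smul, Int.cast_smul_eq_zsmul]
      simp only
      rw [h1]
      exact hper _ (Submodule.sum_mem _ fun i _ => L.smul_mem _ (hbL i)) _)
    (by
      intro n
      obtain ⟨l, hl⟩ := Four_T_surj b (fun i => (n i : ℝ))
      have hl' : ∀ i, E (b i) l = n i := fun i => congrFun hl i
      have hlL : l ∈ L := by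
        refine hL.self l ?_
        intro m hm
        rw [hLb] at hm
        induction hm using Submodule.span_induction with
        | mem x hx =>
          obtain ⟨i, rfl⟩ := hx
          refine ⟨-n i, ?_⟩
          rw [E_symm, hl' i]
          push_cast
          rfl
        | zero => exact ⟨0, by rw [E_zero_right]; simp⟩
        | add x y _ _ hx hy =>
          obtain ⟨p, hp⟩ := hx
          obtain ⟨q, hq⟩ := hy
          exact ⟨p + q, by rw [E_add_right, hp, hq]; push_cast; rfl⟩
        | smul a x _ hx =>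
          obtain ⟨p, hp⟩ := hx
          exact ⟨a * p, by rw [E_zsmul_right, hp]; push_cast; rfl⟩
      have h2 := h0 l hlL
      unfold avg at h2
      rw [← h2]
      congr 1
      funext t
      simp only
      rw [Four_T_sum]
      congr 4
      push_cast
      refine Finset.sum_congr rfl fun i _ => ?_
      rw [hl' i]
      push_cast
      ring)
  have h3 : f (∑ i, b.repr v i • b i) = 0 := key (fun i => b.repr v i)
  rwa [b.sum_repr] at h3

end GAM

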