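import Pool.Agent.GAM.StG
import Pool.Agent.GAM.Bas

/-!
# GAM: all large odd numbers are good
-/

set_option autoImplicit false

namespace GAM

variable {ι : Type} [Fintype ι]

omit [Fintype ι] in
private theorem GNex_zsmul {N : ℕ} (hN : N ≠ 0) (l : ι → ℂ) :
    (N : ℤ) • ((N : ℝ)⁻¹ • l) = l := by
  rw [natCast_zsmul, ← Nat.cast_smul_eq_nsmul ℝ, smul_smul,
    mul_inv_cancel₀ (Nat.cast_ne_zero.mpr hN), one_smul]

/-- approximation by points of `(1/N) L` -/
private theorem GNex_near {κ : Type} [Fintype κ] (b : Module.Basis κ ℝ (ι → ℂ)) {N : ℕ}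
    (hN : N ≠ 0) (u : ι → ℂ) : ∃ x : ι → ℂ,
      (N : ℤ) • x ∈ Submodule.span ℤ (Set.range b) ∧ ‖x - u‖ ≤ (N : ℝ)⁻¹ * ∑ i, ‖b i‖ := by
  let t : κ → ℝ := fun i => b.repr ((N : ℝ) • u) i
  let l : ι → ℂ := ∑ i, (⌊t i⌋ : ℤ) • b i
  have hNR : (N : ℝ) ≠ 0 := Nat.cast_ne_zero.mpr hN
  refine ⟨(N : ℝ)⁻¹ • l, ?_, ?_⟩
  · rw [GNex_zsmul hN]
    exact Submodule.sum_mem _ fun i _ => Submodule.smul_mem _ _ (Submodule.subset_span ⟨i, rfl⟩)
  · have h1 : (N : ℝ) • u = ∑ i, t i • b i := (b.sum_repr _).symm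
    have h2 : (N : ℝ)⁻¹ • l - u = (N : ℝ)⁻¹ • ∑ i, (-(Int.fract (t i))) • b i := by
      have h3 : u = (N : ℝ)⁻¹ • ((N : ℝ) • u) := by
        rw [smul_smul, inv_mul_cancel₀ hNR, one_smul]
      conv_lhs => rw [h3, h1]
      rw [← smul_sub]
      congr 1
      simp only [l]
      rw [← Finset.sum_sub_distrib]
      refine Finset.sum_congr rfl fun i _ => ?_
      rw [← Int.cast_smul_eq_zsmul ℝ, ← sub_smul]
      congr 1
      rw [← Int.self_sub_floor]
      ring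
    rw [h2, norm_smul, norm_inv, Real.norm_natCast]
    refine mul_le_mul_of_nonneg_left ?_ (by positivity)
    refine (norm_sum_le _ _).trans (Finset.sum_le_sum fun i _ => ?_)
    rw [norm_smul, norm_neg, Real.norm_eq_abs, abs_of_nonneg (Int.fract_nonneg _)]
    exact mul_le_of_le_one_left (norm_nonneg _) (Int.fract_lt_one _).le

theorem thm_GNex : St_GNex := by
  intro ι _ L χ θ hP hT hne
  obtain ⟨x₀, hx₀⟩ := hne
  obtain ⟨b, hb⟩ := hP.basis
  have hopen : IsOpen {v | θ v ≠ 0} := isOpen_ne_fun hT.ent.continuous continuous_const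
  obtain ⟨r, hr, hball⟩ := Metric.isOpen_iff.mp hopen x₀ hx₀
  have hball' : ∀ v, ‖v - x₀‖ < r → θ v ≠ 0 := fun v hv =>
    hball (by rw [Metric.mem_ball, dist_eq_norm]; exact hv)
  set C : ℝ := ∑ i, ‖b i‖ with hC
  have hC0 : 0 ≤ C := Finset.sum_nonneg fun i _ => norm_nonneg _
  refine ⟨⌈2 * C / r⌉₊ + 1, fun N hN hodd => ?_⟩
  have hN0 : N ≠ 0 := by omega
  have hNpos : (0 : ℝ) < N := by exact_mod_cast Nat.pos_of_ne_zero hN0
  have hNr : (N : ℝ)⁻¹ * (2 * C) < r := by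
    have h1 : 2 * C / r < N := by
      refine lt_of_le_of_lt (Nat.le_ceil _) ?_
      exact_mod_cast hN
    rw [div_lt_iff₀ hr] at h1
    rw [inv_mul_lt_iff₀ hNpos]
    exact h1
  -- the point near `x₀ - w`
  have hpt : ∀ w : ι → ℂ, ∃ x, (N : ℤ) • x ∈ L ∧ ‖x + w - x₀‖ ≤ (N : ℝ)⁻¹ * C := by
    intro w
    obtain ⟨x, hx1, hx2⟩ := GNex_near b hN0 (x₀ - w)
    refine ⟨x, by rw [hb]; exact hx1, ?_⟩
    have h1 : x + w - x₀ = x - (x₀ - w) := by abel
    rw [h1]
    exact hx2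
  refine ⟨hodd, ?_, ?_⟩
  · intro w
    obtain ⟨x, hx1, hx2⟩ := hpt w
    refine ⟨x, hx1, hball' _ (lt_of_le_of_lt hx2 (lt_of_le_of_lt ?_ hNr))⟩
    refine mul_le_mul_of_nonneg_left (by linarith) (by positivity)
  · intro w t ht hsep
    obtain ⟨x, hx1, hx2⟩ := hpt w
    have hbL : ∀ i, b i ∈ L := fun i => by
      rw [hb]
      exact Submodule.subset_span ⟨i, rfl⟩
    have hint : ∀ i, ∃ n : ℤ, E ((N : ℝ)⁻¹ • t) (b i) = n := by
      intro i
      have h1 : (N : ℤ) • (x + (N : ℝ)⁻¹ • b i) ∈ L := by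
        rw [smul_add, GNex_zsmul hN0]
        exact L.add_mem hx1 (hbL i)
      have h2 : θ (x + w) ≠ 0 := by
        refine hball' _ (lt_of_le_of_lt hx2 (lt_of_le_of_lt ?_ hNr))
        refine mul_le_mul_of_nonneg_left (by linarith) (by positivity)
      have h3 : θ (x + (N : ℝ)⁻¹ • b i + w) ≠ 0 := by
        refine hball' _ (lt_of_le_of_lt ?_ hNr)
        have h4 : x + (N : ℝ)⁻¹ • b i + w - x₀ = (x + w - x₀) + (N : ℝ)⁻¹ • b i := by abel
        rw [h4]
        refine (norm_add_le _ _).trans ?_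
        have h5 : ‖(N : ℝ)⁻¹ • b i‖ ≤ (N : ℝ)⁻¹ * C := by
          rw [norm_smul, norm_inv, Real.norm_natCast]
          refine mul_le_mul_of_nonneg_left ?_ (by positivity)
          exact Finset.single_le_sum (f := fun i => ‖b i‖) (fun j _ => norm_nonneg _)
            (Finset.mem_univ i)
        linarith
      have h6 := hsep x (x + (N : ℝ)⁻¹ • b i) hx1 h1 h2 h3
      rw [E_add_left, Complex.ofReal_add, mul_add, Complex.exp_add] at h6
      have h7 : Complex.exp (2 * Real.pi * Complex.I * (E ((N : ℝ)⁻¹ • b i) t : ℝ)) = 1 := by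
        have h8 := Complex.exp_ne_zero (2 * Real.pi * Complex.I * (E x t : ℝ))
        exact (mul_right_eq_self₀.mp h6.symm).resolve_right h8
      obtain ⟨n, hn⟩ := Complex.exp_eq_one_iff.mp h7
      refine ⟨-n, ?_⟩
      have h9 : (2 * (Real.pi : ℂ) * Complex.I) ≠ 0 := Complex.two_pi_I_ne_zero
      have h10 : ((E ((N : ℝ)⁻¹ • b i) t : ℝ) : ℂ) = n := by
        have h11 : (2 * (Real.pi : ℂ) * Complex.I) * ((E ((N : ℝ)⁻¹ • b i) t : ℝ) : ℂ) =
            (2 * (Real.pi : ℂ) * Complex.I) * n := by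
          rw [hn]
          ring
        exact mul_left_cancel₀ h9 h11
      have h12 : E ((N : ℝ)⁻¹ • b i) t = n := by exact_mod_cast h10
      rw [E_rsmul_left] at h12
      rw [E_symm, E_rsmul_right, h12]
      push_cast
      rfl
    have hall : ∀ l ∈ L, ∃ n : ℤ, E ((N : ℝ)⁻¹ • t) l = n := by
      intro l hl
      rw [hb] at hl
      induction hl using Submodule.span_induction with
      | mem x hx =>
        obtain ⟨i, rfl⟩ := hx
        exact hint i
      | zero => exact ⟨0, by rw [E_zero_right]; simp⟩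
      | add x y _ _ h1 h2 =>
        obtain ⟨n1, h1⟩ := h1
        obtain ⟨n2, h2⟩ := h2
        exact ⟨n1 + n2, by rw [E_add_right, h1, h2]; push_cast; rfl⟩
      | smul m x _ h1 =>
        obtain ⟨n1, h1⟩ := h1
        exact ⟨m * n1, by rw [E_zsmul_right, h1]; push_cast; rfl⟩
    exact ⟨_, hP.self _ hall, (GNex_zsmul hN0 t).symm⟩

end GAM
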