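import Mathlib
import Pool.Agent.GAM.StD2
import Pool.Agent.GAM.Bas

/-!
# GAM / GamI: invariance under the congruence subgroup
-/

set_option autoImplicit false

namespace GAM

open scoped ComplexConjugate

/-- an element of order `n` is moved by an element of `2 n L` -/
private theorem GamI_move {S : Type} [Fintype S] [DecidableEq S] {v w : S} {g : GG v w}
    {L : Submodule ℤ (S × Fin 2 → ℂ)} {n : ℕ} (hn : n ≠ 0)
    (hg : ∀ l ∈ L, ∃ m ∈ L, act g l = l + ((2 * n ^ 2 : ℕ) : ℤ) • m)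
    {t : S × Fin 2 → ℂ} (ht : (n : ℤ) • t ∈ L) :
    ∃ m ∈ L, act g t = t + ((n : ℤ) • m + (n : ℤ) • m) := by
  obtain ⟨m, hm, h⟩ := hg _ ht
  refine ⟨m, hm, ?_⟩
  rw [act_zsmul] at h
  have hn' : (n : ℤ) ≠ 0 := by exact_mod_cast hn
  apply smul_right_injective (S × Fin 2 → ℂ) hn'
  simp only
  rw [h, smul_add, ← add_smul, smul_smul]
  congr 2
  push_cast
  ring

/-- translation by `2 n m` does nothing at points of order `n` -/
private theorem GamI_fac {S : Type} [Fintype S] [DecidableEq S]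
    {L : Submodule ℤ (S × Fin 2 → ℂ)} {χ : (S × Fin 2 → ℂ) → ℂ} (hL : PLat L χ) {n : ℕ}
    {t m : S × Fin 2 → ℂ} (ht : (n : ℤ) • t ∈ L) (hm : m ∈ L) :
    χ ((n : ℤ) • m + (n : ℤ) • m) *
      Complex.exp (Real.pi * Complex.I * E t ((n : ℤ) • m + (n : ℤ) • m)) = 1 := by
  rw [hL.chi_two (L.smul_mem _ hm), one_mul, E_add_right, E_zsmul_right, ← E_zsmul_left]
  rw [← exp_two_pi_int (hL.int _ ht _ hm)]
  congr 1
  push_cast
  ring

theorem thm_GamI (h1 : St_Equi) (h2 : St_PsiL) : St_GamI := by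
  intro S _ _ u v w g L χ θ n x x' y huv huw hvw hL hθ hne hx hx' hy hn hgL hg z hz
  have hM : Maps g L L χ χ := by
    refine ⟨hgL, ?_⟩
    intro l hl
    obtain ⟨m, hm, h⟩ := hg l hl
    have e : ((2 * n ^ 2 : ℕ) : ℤ) • m = ((n ^ 2 : ℕ) : ℤ) • m + ((n ^ 2 : ℕ) : ℤ) • m := by
      rw [← add_smul]
      congr 1
      push_cast
      ring
    rw [h, e]
    exact hL.chi_add_two hl (L.smul_mem _ hm)
  obtain ⟨_, j, hj, hj1, hj2⟩ := h1 S u v w g L L χ θ χ θ huv huw hvw hL hL hθ hθ hne hne hM z hz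
  have key : ∀ (t : S × Fin 2 → ℂ), (n : ℤ) • t ∈ L → ∀ z' : Fin 2 → ℂ,
      psi v w θ z' (act g t) = psi v w θ z' t ∧
      ∀ u i, dpsi v w u i θ z' (act g t) = dpsi v w u i θ z' t := by
    intro t ht z'
    obtain ⟨m, hm, h⟩ := GamI_move hn hg ht
    have hmem : (n : ℤ) • m + (n : ℤ) • m ∈ L := L.add_mem (L.smul_mem _ hm) (L.smul_mem _ hm)
    obtain ⟨k1, k2⟩ := h2 S v w L χ θ hvw hL hθ z' _ hmem t
    have hf := GamI_fac hL ht hm
    constructor
    · rw [h, k1, hf, one_mul]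
    · intro u i
      rw [h, k2, hf, one_mul]
  refine ⟨j, hj, hj1, ?_⟩
  have hp : ∀ k : Fin 3, psi v w θ (mob g z) (y k) = j * psi v w θ z (y k) := by
    intro k
    rw [← hj1, (key (y k) (hy k) (mob g z)).1]
  have hw : wedge v w u θ (mob g z) x x' = j ^ 2 * wedge v w u θ z x x' := by
    rw [← hj2]
    unfold wedge
    rw [(key x hx (mob g z)).2, (key x hx (mob g z)).2, (key x' hx' (mob g z)).2,
      (key x' hx' (mob g z)).2]
  intro i
  unfold F4
  rw [hp, hp, hp, hw]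
  split_ifs
  · ring
  · ring
  · ring
  · rfl

end GAM
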