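import Pool.Agent.GAM.StD2

set_option autoImplicit false

namespace GAM

open scoped ComplexConjugate

private lemma gau_one (c : ℝ) (hc : 0 < c) :
    MeasureTheory.Integrable fun z : ℂ => Real.exp (-(c * ‖z‖ ^ 2)) := by
  have h := (GaussianFourier.integrable_cexp_neg_mul_sq_norm_add (V := ℂ) (b := (c : ℂ))
    (by simpa using hc) 0 0).norm
  refine h.congr (Filter.Eventually.of_forall fun z => ?_)
  simp only
  rw [Complex.norm_exp]
  congr 1
  simp only [inner_zero_left, Complex.ofReal_zero, mul_zero, add_zero]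
  rw [← Complex.ofReal_pow, ← Complex.ofReal_neg, ← Complex.ofReal_mul, Complex.ofReal_re]
  ring

private lemma gau_int1 : ∫ z : ℂ, Real.exp (-(Real.pi * ‖z‖ ^ 2)) = 1 := by
  have h := GaussianFourier.integral_rexp_neg_mul_sq_norm (V := ℂ) (b := Real.pi) Real.pi_pos
  have e1 : (fun z : ℂ => Real.exp (-(Real.pi * ‖z‖ ^ 2))) =
      fun z : ℂ => Real.exp (-Real.pi * ‖z‖ ^ 2) := by
    funext z
    rw [neg_mul]
  rw [e1, h, div_self Real.pi_ne_zero, Real.one_rpow]

private lemma gau_norm (ξ : ℂ × ℂ) :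
    gw ξ = ((Real.exp (-(Real.pi * (‖ξ.1‖ ^ 2 + ‖ξ.2‖ ^ 2))) : ℝ) : ℂ) := by
  unfold gw
  rw [Complex.mul_conj, Complex.mul_conj, Complex.normSq_eq_norm_sq, Complex.normSq_eq_norm_sq]
  push_cast
  rfl

theorem thm_Gau : St_Gau := by
  have hprod : ∀ c : ℝ, (fun ξ : ℂ × ℂ => Real.exp (-(c * (‖ξ.1‖ ^ 2 + ‖ξ.2‖ ^ 2)))) =
      fun ξ : ℂ × ℂ => Real.exp (-(c * ‖ξ.1‖ ^ 2)) * Real.exp (-(c * ‖ξ.2‖ ^ 2)) := by
    intro c
    funext ξ
    rw [← Real.exp_add]
    congr 1
    ring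
  refine ⟨?_, ?_, ?_, ?_⟩
  · intro c hc
    rw [hprod c]
    exact (gau_one c hc).mul_prod (gau_one c hc)
  · intro c A hc
    -- complete the square
    refine ⟨Real.exp (1 + (1 + |A|) ^ 2 / c), Real.exp_pos _, ?_⟩
    intro ξ
    set a := ‖ξ.1‖ with ha
    set b := ‖ξ.2‖ with hb
    have ha0 : 0 ≤ a := norm_nonneg _
    have hb0 : 0 ≤ b := norm_nonneg _
    have h1 : 1 + a + b ≤ Real.exp (a + b) := by
      have := Real.add_one_le_exp (a + b)
      linarith
    have h2 : (a + b) + (A * (a + b) - c * (a ^ 2 + b ^ 2)) ≤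
        (1 + (1 + |A|) ^ 2 / c) + -(c / 2 * (a ^ 2 + b ^ 2)) := by
      have hA : A ≤ |A| := le_abs_self A
      set B := 1 + |A| with hB
      have hB0 : 0 < B := by positivity
      have h3 : (a + b) + A * (a + b) ≤ B * a + B * b := by nlinarith
      have h4 : ∀ x : ℝ, B * x ≤ c / 2 * x ^ 2 + B ^ 2 / (2 * c) := by
        intro x
        have h5 : 0 ≤ (c * x - B) ^ 2 / (2 * c) := by positivity
        have h6 : (c * x - B) ^ 2 / (2 * c) = c / 2 * x ^ 2 + B ^ 2 / (2 * c) - B * x := by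
          field_simp
          ring
        linarith
      have h7 := h4 a
      have h8 := h4 b
      have h9 : B ^ 2 / (2 * c) + B ^ 2 / (2 * c) = B ^ 2 / c := by
        field_simp
        norm_num
      linarith
    calc (1 + a + b) * Real.exp (A * (a + b) - c * (a ^ 2 + b ^ 2))
        ≤ Real.exp (a + b) * Real.exp (A * (a + b) - c * (a ^ 2 + b ^ 2)) :=
          mul_le_mul_of_nonneg_right h1 (Real.exp_pos _).le
      _ = Real.exp ((a + b) + (A * (a + b) - c * (a ^ 2 + b ^ 2))) := by rw [← Real.exp_add]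
      _ ≤ Real.exp ((1 + (1 + |A|) ^ 2 / c) + -(c / 2 * (a ^ 2 + b ^ 2))) :=
          Real.exp_le_exp.mpr h2
      _ = _ := by rw [Real.exp_add]
  · intro ξ
    rw [gau_norm, Complex.norm_real, Real.norm_of_nonneg (Real.exp_pos _).le]
  · have h1 : (fun ξ : ℂ × ℂ => gw ξ) = fun ξ : ℂ × ℂ =>
        ((Real.exp (-(Real.pi * ‖ξ.1‖ ^ 2)) * Real.exp (-(Real.pi * ‖ξ.2‖ ^ 2)) : ℝ) : ℂ) := by
      funext ξ
      rw [gau_norm]
      exact congrArg _ (congrFun (hprod Real.pi) ξ)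
    rw [h1, integral_complex_ofReal]
    rw [MeasureTheory.Measure.volume_eq_prod,
      MeasureTheory.integral_prod_mul (μ := MeasureTheory.volume) (ν := MeasureTheory.volume)
        (fun z : ℂ => Real.exp (-(Real.pi * ‖z‖ ^ 2)))
        (fun z : ℂ => Real.exp (-(Real.pi * ‖z‖ ^ 2))), gau_int1]
    norm_num

end GAM
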