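import Pool.Agent.GAM.StD2
import Pool.Agent.GAM.Bas
import Pool.Agent.GAM.Hol

/-!
# [GenY] points of odd order with finitely many non-zero values
-/

set_option autoImplicit false

namespace GAM

theorem GenY_open_dense {ι : Type} [Fintype ι] {θ : (ι → ℂ) → ℂ} (hθ : Differentiable ℂ θ)
    (h0 : ∃ v, θ v ≠ 0) (p : ι → ℂ) :
    IsOpen {y : ι → ℂ | θ (y + p) ≠ 0} ∧ Dense {y : ι → ℂ | θ (y + p) ≠ 0} := by
  have hcont : Continuous fun y : ι → ℂ => θ (y + p) :=
    hθ.continuous.comp (continuous_id.add continuous_const)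
  refine ⟨isOpen_ne_fun hcont continuous_const, ?_⟩
  intro y
  rw [mem_closure_iff_nhds]
  intro U hU
  by_contra hcon
  rw [Set.not_nonempty_iff_eq_empty] at hcon
  have hzero : ∀ y' ∈ U, θ (y' + p) = 0 := by
    intro y' hy'
    by_contra hne
    have : y' ∈ U ∩ {y : ι → ℂ | θ (y + p) ≠ 0} := ⟨hy', hne⟩
    rw [hcon] at this
    exact this
  have han : AnalyticOnNhd ℂ θ Set.univ :=
    analyticOnNhd_of_differentiableOn isOpen_univ hθ.differentiableOn
  have hev : θ =ᶠ[nhds (y + p)] fun _ => 0 := by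
    have ht : Filter.Tendsto (fun z : ι → ℂ => z - p) (nhds (y + p)) (nhds y) := by
      have : Continuous fun z : ι → ℂ => z - p := continuous_id.sub continuous_const
      have h := this.tendsto (y + p)
      simpa using h
    filter_upwards [ht hU] with z hz
    have := hzero (z - p) hz
    simpa using this
  have heq : Set.EqOn θ (fun _ => 0) Set.univ :=
    han.eqOn_of_preconnected_of_eventuallyEq (fun _ _ => analyticAt_const) isPreconnected_univ
      (Set.mem_univ _) hev
  obtain ⟨v, hv⟩ := h0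
  exact hv (heq (Set.mem_univ v))

theorem thm_GenY (h1 : St_OddD) : St_GenY := by
  intro ι _ L χ θ hP hT h0 P
  have hfin : IsOpen {y : ι → ℂ | ∀ p ∈ P, θ (y + p) ≠ 0} ∧
      Dense {y : ι → ℂ | ∀ p ∈ P, θ (y + p) ≠ 0} := by
    classical
    induction P using Finset.induction_on with
    | empty => simp
    | insert p P _ ih =>
      have h2 := GenY_open_dense hT.ent h0 p
      have h3 : {y : ι → ℂ | ∀ q ∈ insert p P, θ (y + q) ≠ 0} =
          {y : ι → ℂ | θ (y + p) ≠ 0} ∩ {y : ι → ℂ | ∀ q ∈ P, θ (y + q) ≠ 0} := by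
        ext y
        simp
      rw [h3]
      exact ⟨h2.1.inter ih.1, h2.2.inter_of_isOpen_left ih.2 h2.1⟩
  obtain ⟨y, hy1, hy2⟩ := (h1 ι L hP.lat).inter_open_nonempty _ hfin.1 hfin.2.nonempty
  refine ⟨y, hy2, fun p hp => ?_⟩
  have h4 : θ (y + p) ≠ 0 := hy1 p hp
  unfold F
  exact mul_ne_zero h4 (Complex.exp_ne_zero _)

end GAM
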