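import Pool.Agent.GAM.StG
import Pool.Agent.GAM.Mer

/-!
# GAM [Glue]: entire function from local holomorphic quotients
-/

set_option autoImplicit false

open Topology

namespace GAM

theorem thm_Glue : St_Glue := by
  intro ι _ f g hf hg h0 hloc
  choose U q hU hv hq hfg using hloc
  have hD : Dense {v | g v ≠ 0} := ent_dense hg h0
  have key : ∀ v₀, ∀ v ∈ U v₀, q v v = q v₀ v := by
    intro v₀ v hvU
    by_contra hne
    have hc1 : ContinuousAt (q v) v := (hq v).continuousOn.continuousAt ((hU v).mem_nhds (hv v))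
    have hc2 : ContinuousAt (q v₀) v := (hq v₀).continuousOn.continuousAt ((hU v₀).mem_nhds hvU)
    have hev : ∀ᶠ z in 𝓝 v, q v z - q v₀ z ≠ 0 :=
      (hc1.sub hc2).eventually_ne (sub_ne_zero.2 hne)
    have hev2 : ∀ᶠ z in 𝓝 v, z ∈ U v := (hU v).mem_nhds (hv v)
    have hev3 : ∀ᶠ z in 𝓝 v, z ∈ U v₀ := (hU v₀).mem_nhds hvU
    obtain ⟨z, hz1, hz2⟩ := hD.inter_nhds_nonempty (hev.and (hev2.and hev3))
    have h1 := hfg v z hz2.2.1
    have h2 := hfg v₀ z hz2.2.2
    apply hz2.1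
    have h3 : (q v z - q v₀ z) * g z = 0 := by rw [sub_mul, ← h1, ← h2, sub_self]
    exact (mul_eq_zero.1 h3).resolve_right hz1
  refine ⟨fun v => q v v, ?_, fun v => hfg v v (hv v)⟩
  intro v₀
  have h1 : (fun v => q v v) =ᶠ[𝓝 v₀] q v₀ := by
    filter_upwards [(hU v₀).mem_nhds (hv v₀)] with v hv
    exact key v₀ v hv
  exact ((hq v₀ v₀ (hv v₀)).differentiableAt ((hU v₀).mem_nhds (hv v₀))).congr_of_eventuallyEq h1

end GAM
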