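import Pool.Agent.GAM.StD2
import Pool.Agent.GAM.Bas
import Pool.Agent.GAM.Hol

/-!
# GAM [GroC]: closure properties of the growth condition
-/

set_option autoImplicit false

namespace GAM

open scoped ComplexConjugate

lemma GroC_nonneg {ι : Type} [Fintype ι] {G : (ι → ℂ) → ℂ} {A C : ℝ}
    (h : ∀ v, ‖G v‖ ≤ C * Real.exp (A * (H v v).re)) : 0 ≤ C := by
  have := h 0
  rw [H_zero_left, Complex.zero_re, mul_zero, Real.exp_zero, mul_one] at this
  exact (norm_nonneg _).trans this

lemma GroC_coord {ι : Type} [Fintype ι] (v : ι → ℂ) (j : ι) : ‖v j‖ ^ 2 ≤ (H v v).re := by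
  rw [H_self_re]
  exact Finset.single_le_sum (f := fun a => ‖v a‖ ^ 2) (fun a _ => by positivity)
    (Finset.mem_univ j)

lemma GroC_shift {ι : Type} [Fintype ι] [DecidableEq ι] (v : ι → ℂ) (j : ι) (t : ℂ)
    (ht : ‖t‖ ≤ 1) {η : ℝ} (hη : 0 < η) :
    (H (v + t • Pi.single j 1) (v + t • Pi.single j 1)).re ≤
      (1 + η) * (H v v).re + (1 + 1 / η) := by
  have h0 : ∀ a, ‖(v + t • (Pi.single j 1 : ι → ℂ)) a‖ ^ 2 ≤
      (1 + η) * ‖v a‖ ^ 2 + (if a = j then (1 + 1 / η) else 0) := by
    intro a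
    by_cases ha : a = j
    · subst ha
      simp only [Pi.add_apply, Pi.smul_apply, Pi.single_eq_same, smul_eq_mul, mul_one, if_true]
      have h1 : ‖v a + t‖ ≤ ‖v a‖ + 1 := (norm_add_le _ _).trans (by linarith)
      have h2 : ‖v a + t‖ ^ 2 ≤ (‖v a‖ + 1) ^ 2 := by gcongr
      have h3 : 0 ≤ (η * ‖v a‖ - 1) ^ 2 / η := by positivity
      have h4 : (η * ‖v a‖ - 1) ^ 2 / η = η * ‖v a‖ ^ 2 - 2 * ‖v a‖ + 1 / η := by
        field_simp
        ring
      nlinarith
    · simp only [Pi.add_apply, Pi.smul_apply, Pi.single_eq_of_ne ha, smul_eq_mul, mul_zero,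
        add_zero, if_neg ha]
      have := sq_nonneg ‖v a‖
      nlinarith
  rw [H_self_re, H_self_re]
  refine (Finset.sum_le_sum fun a _ => h0 a).trans (le_of_eq ?_)
  rw [Finset.sum_add_distrib, Finset.mul_sum]
  simp

theorem thm_GroC : St_GroC := by
  intro ι _ _
  have hpi := Real.pi_pos
  refine ⟨?_, ?_, ?_, ?_⟩
  · intro G hG j
    have han : AnalyticOnNhd ℂ G Set.univ :=
      analyticOnNhd_of_differentiableOn isOpen_univ hG.ent.differentiableOn
    refine ⟨?_, ?_⟩
    · have h1 : Differentiable ℂ (fderiv ℂ G) := by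
        have h2 := han.fderiv
        intro z
        exact (h2 z (Set.mem_univ z)).differentiableAt
      intro z
      exact (h1 z).clm_apply (differentiableAt_const _)
    · intro ε hε
      obtain ⟨C, hC⟩ := hG.bd (ε / 2) (by linarith)
      have hC0 := GroC_nonneg hC
      set η : ℝ := ε / (Real.pi + ε) with hη
      have hη0 : 0 < η := by positivity
      refine ⟨C * Real.exp ((Real.pi / 2 + ε / 2) * (1 + 1 / η)), fun v => ?_⟩
      have hA : (Real.pi / 2 + ε / 2) * (1 + η) = Real.pi / 2 + ε := by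
        rw [hη]
        field_simp
        ring
      have h3 := Pool.Agent.Squeeze.norm_fderiv_apply_le (U := Set.univ) (f := G)
        (x := v) (v := Pi.single j 1) hG.ent.differentiableOn isOpen_univ
        (fun t _ => Set.mem_univ _)
        (C := C * Real.exp ((Real.pi / 2 + ε / 2) * (1 + 1 / η)) *
          Real.exp ((Real.pi / 2 + ε) * (H v v).re)) (fun t ht => by
            refine (hC _).trans ?_
            rw [mul_assoc, ← Real.exp_add]
            gcongr
            have h4 := GroC_shift v j t ht hη0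
            calc (Real.pi / 2 + ε / 2) * (H (v + t • Pi.single j 1) (v + t • Pi.single j 1)).re
                ≤ (Real.pi / 2 + ε / 2) * ((1 + η) * (H v v).re + (1 + 1 / η)) := by gcongr
              _ = (Real.pi / 2 + ε / 2) * (1 + 1 / η) +
                  (Real.pi / 2 + ε / 2) * (1 + η) * (H v v).re := by ring
              _ = _ := by rw [hA])
      exact h3
  · intro G hG j
    refine ⟨(differentiable_apply j).mul hG.ent, ?_⟩
    intro ε hε
    obtain ⟨C, hC⟩ := hG.bd (ε / 2) (by linarith)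
    have hC0 := GroC_nonneg hC
    refine ⟨C * (1 + 2 / ε), fun v => ?_⟩
    rw [norm_mul]
    have h1 := GroC_coord v j
    have h2 : ‖v j‖ ≤ (1 + 2 / ε) * Real.exp (ε / 2 * (H v v).re) := by
      have h3 := Real.add_one_le_exp (ε / 2 * (H v v).re)
      have h4 : ‖v j‖ ≤ 1 + ‖v j‖ ^ 2 := by nlinarith [sq_nonneg (‖v j‖ - 1), norm_nonneg (v j)]
      have h5 : (1 + 2 / ε) * (ε / 2 * (H v v).re + 1) =
          1 + 2 / ε + (ε / 2 + 1) * (H v v).re := by
        field_simp
        ring
      have h6 : 0 ≤ (H v v).re := H_self_nonneg v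
      have h7 : 0 < 2 / ε := by positivity
      calc ‖v j‖ ≤ 1 + ‖v j‖ ^ 2 := h4
        _ ≤ 1 + (H v v).re := by linarith
        _ ≤ 1 + 2 / ε + (ε / 2 + 1) * (H v v).re := by nlinarith
        _ = (1 + 2 / ε) * (ε / 2 * (H v v).re + 1) := h5.symm
        _ ≤ _ := by gcongr
    calc ‖v j‖ * ‖G v‖ ≤ ((1 + 2 / ε) * Real.exp (ε / 2 * (H v v).re)) *
        (C * Real.exp ((Real.pi / 2 + ε / 2) * (H v v).re)) := by
          gcongr
          exact hC v
      _ = C * (1 + 2 / ε) * (Real.exp (ε / 2 * (H v v).re) *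
          Real.exp ((Real.pi / 2 + ε / 2) * (H v v).re)) := by ring
      _ = _ := by
        rw [← Real.exp_add]
        congr 2
        ring
  · intro G hG c
    refine ⟨hG.ent.const_mul c, fun ε hε => ?_⟩
    obtain ⟨C, hC⟩ := hG.bd ε hε
    refine ⟨‖c‖ * C, fun v => ?_⟩
    rw [norm_mul, mul_assoc]
    gcongr
    exact hC v
  · intro G G' hG hG'
    refine ⟨hG.ent.add hG'.ent, fun ε hε => ?_⟩
    obtain ⟨C, hC⟩ := hG.bd ε hε
    obtain ⟨C', hC'⟩ := hG'.bd ε hε
    refine ⟨C + C', fun v => ?_⟩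
    rw [add_mul]
    exact (norm_add_le _ _).trans (add_le_add (hC v) (hC' v))

end GAM
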