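import Pool.Agent.GAM.StD2

/-!
# GAM [GroF]
-/

set_option autoImplicit false

namespace GAM

open scoped ComplexConjugate

theorem thm_GroF (h1 : St_GroU) (h2 : St_GroC) : St_GroF := by
  intro ι _ _
  obtain ⟨a, b, c, d⟩ := h2 ι
  refine ⟨fun L χ θ hL hθ x => ?_, a, b, c, d⟩
  obtain ⟨C, hC, h⟩ := h1 ι L χ θ hL hθ
  refine ⟨F_differentiable hθ x, fun ε hε => ⟨C, fun v => ?_⟩⟩
  refine (h x v).trans ?_
  apply mul_le_mul_of_nonneg_left _ hC.le
  apply Real.exp_le_exp.mpr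
  have := H_self_nonneg v
  nlinarith

end GAM
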