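import Pool.Agent.GAM.StD2
import Pool.Agent.GAM.FinD

/-!
# GAM [GroU]: uniform growth of the functions `F_x`
-/

set_option autoImplicit false

namespace GAM

open scoped ComplexConjugate

theorem thm_GroU : St_GroU := by
  intro ι _ L χ θ hP hT
  obtain ⟨K, hK, h0, hdom⟩ := FinD_dom hP.lat
  have hc : Continuous fun y : ι → ℂ => F θ y 0 :=
    (F_continuous hT).comp (continuous_id.prodMk continuous_const)
  obtain ⟨C, hC⟩ := hK.exists_bound_of_continuousOn hc.continuousOn
  have hC0 : 0 ≤ C := (norm_nonneg _).trans (hC 0 h0)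
  refine ⟨C + 1, by linarith, fun x v => ?_⟩
  have h1 := F_norm θ x v
  obtain ⟨k, hk, l, hl, hkl⟩ := hdom (x + v)
  rw [hkl, F_norm_lat hT hP hl] at h1
  have h2 := hC k hk
  have h3 : ‖F θ x v‖ = ‖F θ k 0‖ * Real.exp (Real.pi / 2 * (H v v).re) := by
    rw [← h1, mul_assoc, ← Real.exp_add, neg_add_cancel, Real.exp_zero, mul_one]
  rw [h3]
  have h4 := Real.exp_pos (Real.pi / 2 * (H v v).re)
  nlinarith

end GAM
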