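import Pool.Agent.GAM.StD2

/-!
# GAM [HomI]: homogeneous algebraic independence of three functions
-/

set_option autoImplicit false

namespace GAM

open MvPolynomial

lemma HomI_chain (f : Fin 3 → (Fin 2 → ℂ) → ℂ) (z : Fin 2 → ℂ)
    (hf : ∀ i, DifferentiableAt ℂ (f i) z) (P : MvPolynomial (Fin 3) ℂ) :
    HasFDerivAt (fun z => MvPolynomial.eval (fun i => f i z) P)
      (∑ i, MvPolynomial.eval (fun i => f i z) (pderiv i P) • fderiv ℂ (f i) z) z := by
  induction P using MvPolynomial.induction_on with
  | C a =>
    have h2 : (∑ i, MvPolynomial.eval (fun i => f i z) (pderiv i (C a)) •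
        fderiv ℂ (f i) z) = 0 := by
      refine ContinuousLinearMap.ext fun v => ?_
      simp
    rw [h2]
    simp only [eval_C]
    exact hasFDerivAt_const a z
  | add p q hp hq =>
    have h2 : (∑ i, MvPolynomial.eval (fun i => f i z) (pderiv i (p + q)) •
        fderiv ℂ (f i) z) = (∑ i, MvPolynomial.eval (fun i => f i z) (pderiv i p) •
        fderiv ℂ (f i) z) + ∑ i, MvPolynomial.eval (fun i => f i z) (pderiv i q) •
        fderiv ℂ (f i) z := by
      refine ContinuousLinearMap.ext fun v => ?_
      simp [add_mul, Finset.sum_add_distrib]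
    rw [h2]
    simp only [map_add]
    exact hp.add hq
  | mul_X p n hp =>
    have h1 := hp.mul (hf n).hasFDerivAt
    simp only [map_mul, eval_X]
    have h2 : (∑ i, MvPolynomial.eval (fun i => f i z) (pderiv i (p * X n)) •
        fderiv ℂ (f i) z) = MvPolynomial.eval (fun i => f i z) p • fderiv ℂ (f n) z +
        f n z • ∑ i, MvPolynomial.eval (fun i => f i z) (pderiv i p) • fderiv ℂ (f i) z := by
      refine ContinuousLinearMap.ext fun v => ?_
      have h3 : ∀ i, MvPolynomial.eval (fun i => f i z) (pderiv i (p * X n)) *
          fderiv ℂ (f i) z v = (if i = n then MvPolynomial.eval (fun i => f i z) p *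
            fderiv ℂ (f n) z v else 0) +
          f n z * (MvPolynomial.eval (fun i => f i z) (pderiv i p) * fderiv ℂ (f i) z v) := by
        intro i
        rw [pderiv_mul, pderiv_X, map_add, map_mul, map_mul, eval_X]
        by_cases h : i = n
        · subst h
          simp only [Pi.single_eq_same, map_one, if_true]
          ring
        · rw [if_neg h, Pi.single_eq_of_ne (Ne.symm h), map_zero]
          ring
      simp only [sum_apply, smul_apply, add_apply, smul_eq_mul]
      rw [Finset.sum_congr rfl fun i _ => h3 i, Finset.sum_add_distrib, ← Finset.mul_sum]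
      congr 1
      simp
    rw [h2]
    exact h1

theorem thm_HomI : St_HomI := by
  intro f hf hdet m
  have hA : ∀ᶠ z in nhds (0 : Fin 2 → ℂ), ∀ i, AnalyticAt ℂ (f i) z :=
    Filter.eventually_all.2 fun i => (hf i).eventually_analyticAt
  have hD : ∀ᶠ z in nhds (0 : Fin 2 → ℂ), (Matrix.of fun i j : Fin 3 => if j = 0 then f i z else
      if j = 1 then pd 0 (f i) z else pd 1 (f i) z).det ≠ 0 := by
    have hc : ContinuousAt (fun z : Fin 2 → ℂ => (Matrix.of fun i j : Fin 3 =>
        if j = 0 then f i z else if j = 1 then pd 0 (f i) z else pd 1 (f i) z).det) 0 := by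
      have h1 : Continuous fun M : Matrix (Fin 3) (Fin 3) ℂ => M.det :=
        Continuous.matrix_det continuous_id
      apply (h1.continuousAt).comp
      refine continuousAt_pi.2 fun i => continuousAt_pi.2 fun j => ?_
      have h2 : ∀ k : Fin 2, ContinuousAt (fun z => pd k (f i) z) 0 := by
        intro k
        have h3 := (hf i).fderiv.continuousAt
        exact h3.clm_apply continuousAt_const
      simp only [Matrix.of_apply]
      split_ifs
      · exact (hf i).continuousAt
      · exact h2 0
      · exact h2 1
    exact hc.eventually_ne hdet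
  induction m with
  | zero =>
    intro P hP hv
    rw [← totalDegree_zero_iff_isHomogeneous, totalDegree_eq_zero_iff_eq_C] at hP
    have h1 := hv.self_of_nhds
    rw [hP, eval_C] at h1
    rw [hP, h1, C_0]
  | succ m ih =>
    intro P hP hv
    have hg : ∀ᶠ z in nhds (0 : Fin 2 → ℂ), ∀ i,
        MvPolynomial.eval (fun i => f i z) (pderiv i P) = 0 := by
      filter_upwards [hA, hD, hv, hv.eventually_nhds] with z h1 h2 h3 h4
      have h5 := HomI_chain f z (fun i => (h1 i).differentiableAt) P
      have h6 : HasFDerivAt (fun z => MvPolynomial.eval (fun i => f i z) P)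
          (0 : (Fin 2 → ℂ) →L[ℂ] ℂ) z :=
        (hasFDerivAt_const (0 : ℂ) z).congr_of_eventuallyEq h4
      have h7 := h5.unique h6
      have h8 : ∀ k : Fin 2, ∑ i, MvPolynomial.eval (fun i => f i z) (pderiv i P) *
          pd k (f i) z = 0 := by
        intro k
        have h9 := congrArg (fun L => L (Pi.single k 1)) h7
        simpa [pd, smul_eq_mul] using h9
      have h10 : ∑ i, MvPolynomial.eval (fun i => f i z) (pderiv i P) * f i z = 0 := by
        have h11 := congrArg (MvPolynomial.eval (fun i => f i z)) hP.sum_X_mul_pderiv
        rw [map_sum] at h11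
        simp only [map_mul, eval_X, map_nsmul, h3, smul_zero] at h11
        rw [← h11]
        exact Finset.sum_congr rfl fun i _ => mul_comm _ _
      have h12 : (fun i => MvPolynomial.eval (fun i => f i z) (pderiv i P)) = 0 := by
        apply Matrix.eq_zero_of_vecMul_eq_zero h2
        funext j
        simp only [Matrix.vecMul, dotProduct, Matrix.of_apply, Pi.zero_apply]
        fin_cases j
        · simpa using h10
        · simpa using h8 0
        · simpa using h8 1
      exact fun i => congrFun h12 i
    have h0 : ∀ i, pderiv i P = 0 := by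
      intro i
      have h1 : (pderiv i P).IsHomogeneous m := by simpa using hP.pderiv (i := i)
      exact ih (pderiv i P) h1 (hg.mono fun z hz => hz i)
    have h1 := hP.sum_X_mul_pderiv
    simp only [h0, mul_zero, Finset.sum_const_zero] at h1
    rw [nsmul_eq_mul] at h1
    rcases mul_eq_zero.1 h1.symm with h2 | h2
    · exfalso
      exact Nat.cast_ne_zero.2 (Nat.succ_ne_zero m) h2
    · exact h2

end GAM
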