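import Pool.Agent.GAM.StG
import Pool.Agent.GAM.Mer
import Pool.Agent.GAM.Hol
import Pool.Agent.GAM.FinD

/-!
# GAM [SepB]: `q = exp(linear)`, `z - w ∈ L` (Liouville)
-/

set_option autoImplicit false

open Topology

namespace GAM

open scoped ComplexConjugate

/-- continuous periodic functions are bounded -/
lemma SepB_bdd {ι : Type} [Fintype ι] {L : Submodule ℤ (ι → ℂ)} (hL : IsLat L)
    {F : Type} [NormedAddCommGroup F] {f : (ι → ℂ) → F} (hf : Continuous f)
    (hper : ∀ l ∈ L, ∀ u, f (u + l) = f u) : Bornology.IsBounded (Set.range f) := by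
  obtain ⟨K, hK, -, hdom⟩ := FinD_dom hL
  refine (hK.image hf).isBounded.subset ?_
  rintro _ ⟨u, rfl⟩
  obtain ⟨k, hk, l, hl, rfl⟩ := hdom u
  rw [hper l hl]
  exact ⟨k, hk, rfl⟩

/-- a real linear map which vanishes on a lattice is zero -/
lemma SepB_lin {ι : Type} [Fintype ι] {L : Submodule ℤ (ι → ℂ)} (hL : IsLat L)
    {F : Type} [AddCommGroup F] [Module ℝ F] (f : (ι → ℂ) →ₗ[ℝ] F) (h : ∀ l ∈ L, f l = 0)
    (u : ι → ℂ) : f u = 0 := by
  obtain ⟨b, hb⟩ := hL
  have h1 : f = 0 := by
    refine b.ext fun i => ?_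
    rw [LinearMap.zero_apply]
    refine h _ ?_
    rw [hb]
    exact Submodule.subset_span ⟨i, rfl⟩
  rw [h1, LinearMap.zero_apply]

lemma SepB_fderiv {ι : Type} [Fintype ι] {q : (ι → ℂ) → ℂ} (hq : Differentiable ℂ q) :
    Differentiable ℂ (fderiv ℂ q) := by
  have han : AnalyticOnNhd ℂ q Set.univ :=
    analyticOnNhd_of_differentiableOn isOpen_univ hq.differentiableOn
  intro z
  exact (han.fderiv z (Set.mem_univ z)).differentiableAt

lemma SepB_per {ι : Type} [Fintype ι] {L : Submodule ℤ (ι → ℂ)} {χ θ : (ι → ℂ) → ℂ}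
    {z w : ι → ℂ} {q : (ι → ℂ) → ℂ} (hP : PLat L χ) (hT : IsTh L χ θ) (h0 : ∃ v, θ v ≠ 0)
    (hq : Differentiable ℂ q) (hqz : ∀ u, θ (u + z) = q u * θ (u + w)) {l : ι → ℂ}
    (hl : l ∈ L) (u : ι → ℂ) : q (u + l) = Complex.exp (Real.pi * H (z - w) l) * q u := by
  have h1 : (fun u => q (u + l)) = fun u => Complex.exp (Real.pi * H (z - w) l) * q u := by
    refine eq_of_gen (hq.continuous.comp (continuous_id.add continuous_const))
      (continuous_const.mul hq.continuous) ?_
    have h2 : ∀ᶠ u in gen ι, θ (u + w) ≠ 0 := by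
      obtain ⟨v, hv⟩ := h0
      exact gen_ne (hT.ent.comp (differentiable_id.add_const w))
        ⟨v - w, by simpa using hv⟩
    filter_upwards [h2] with u hu
    have h3 := hqz (u + l)
    have h4 : u + l + z = u + z + l := by abel
    have h5 : u + l + w = u + w + l := by abel
    rw [h4, h5, hT.quasi l hl, hT.quasi l hl, hqz u] at h3
    have h6 : Complex.exp (Real.pi * H (u + z) l + Real.pi / 2 * H l l) =
        Complex.exp (Real.pi * H (z - w) l) *
          Complex.exp (Real.pi * H (u + w) l + Real.pi / 2 * H l l) := by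
      rw [← Complex.exp_add]
      congr 1
      simp only [H_add_left, H_sub_left]
      ring
    rw [h6] at h3
    have h7 : χ l * Complex.exp (Real.pi * H (u + w) l + Real.pi / 2 * H l l) * θ (u + w) ≠ 0 :=
      mul_ne_zero (mul_ne_zero (hP.chi_ne hl) (Complex.exp_ne_zero _)) hu
    refine mul_right_cancel₀ h7 ?_
    rw [← h3]
    ring
  exact congrFun h1 u

theorem thm_SepB : St_SepB := by
  intro ι _ L χ θ z w q hP hT h0 hq hq0 hqz
  set t := z - w with ht
  have hper : ∀ l ∈ L, ∀ u, q (u + l) = Complex.exp (Real.pi * H t l) * q u :=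
    fun l hl u => SepB_per hP hT h0 hq hqz hl u
  -- the logarithmic derivative is constant
  have hfper : ∀ l ∈ L, ∀ u, fderiv ℂ q (u + l) = Complex.exp (Real.pi * H t l) • fderiv ℂ q u := by
    intro l hl u
    have h1 : fderiv ℂ (fun u => q (u + l)) u = fderiv ℂ q (u + l) := fderiv_comp_add_right l
    rw [← h1]
    have h2 : (fun u => q (u + l)) = fun u => Complex.exp (Real.pi * H t l) * q u :=
      funext fun u => hper l hl u
    rw [h2, fderiv_const_mul (hq u)]
  set η : (ι → ℂ) → ((ι → ℂ) →L[ℂ] ℂ) := fun u => (q u)⁻¹ • fderiv ℂ q u with hη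
  have hηd : Differentiable ℂ η := fun u => ((hq u).inv (hq0 u)).smul (SepB_fderiv hq u)
  have hηper : ∀ l ∈ L, ∀ u, η (u + l) = η u := by
    intro l hl u
    simp only [hη]
    rw [hper l hl, hfper l hl, smul_smul, mul_inv]
    congr 1
    have := Complex.exp_ne_zero (Real.pi * H t l)
    field_simp
  have hηc : ∀ u, η u = η 0 := fun u =>
    hηd.apply_eq_apply_of_bounded (SepB_bdd hP.lat hηd.continuous hηper) u 0
  set c := η 0 with hc
  have hqd : ∀ u, fderiv ℂ q u = q u • c := by
    intro u
    rw [← hηc u]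
    simp only [hη]
    rw [smul_smul, mul_inv_cancel₀ (hq0 u), one_smul]
  have hexp : ∀ u, q u = q 0 * Complex.exp (c u) := by
    have h1 : Differentiable ℂ fun u => q u * Complex.exp (-c u) :=
      hq.mul (c.differentiable.neg.cexp)
    have h2 : ∀ u, fderiv ℂ (fun u => q u * Complex.exp (-c u)) u = 0 := by
      intro u
      have h3 : HasFDerivAt (fun u => Complex.exp (-c u)) (Complex.exp (-c u) • (-c)) u :=
        (c.hasFDerivAt.neg).cexp
      have h4 := ((hq u).hasFDerivAt.mul h3).fderiv
      have h5 : (fun u => q u * Complex.exp (-c u)) = q * fun u => Complex.exp (-c u) := rfl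
      rw [h5, h4, hqd u]
      ext h
      simp
      ring
    intro u
    have h3 := is_const_of_fderiv_eq_zero h1 h2 u 0
    simp only [map_zero, neg_zero, Complex.exp_zero, mul_one] at h3
    rw [← h3, mul_assoc, ← Complex.exp_add, neg_add_cancel, Complex.exp_zero, mul_one]
  have hcl : ∀ l ∈ L, Complex.exp (c l) = Complex.exp (Real.pi * H t l) := by
    intro l hl
    have h1 := hper l hl 0
    rw [zero_add, hexp l, mul_comm] at h1
    exact mul_right_cancel₀ (hq0 0) h1
  -- real parts
  have hre : ∀ u, (c u).re = Real.pi * (H t u).re := by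
    intro u
    have h1 := SepB_lin hP.lat (F := ℝ)
      { toFun := fun u => (c u).re - Real.pi * (H t u).re
        map_add' := fun x y => by
          rw [map_add, H_add_right, Complex.add_re, Complex.add_re]; ring
        map_smul' := fun r x => by
          have h2 : r • x = (r : ℂ) • x := by funext a; simp
          rw [H_rsmul_right, h2, map_smul, smul_eq_mul, Complex.re_ofReal_mul,
            Complex.re_ofReal_mul, RingHom.id_apply, smul_eq_mul]
          ring }
      (fun l hl => by
        have h2 := congrArg norm (hcl l hl)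
        rw [Complex.norm_exp, Complex.norm_exp] at h2
        have h3 := Real.exp_injective h2
        rw [Complex.re_ofReal_mul] at h3
        exact sub_eq_zero.2 h3) u
    exact sub_eq_zero.1 h1
  have hcu : ∀ u, c u = Real.pi * H u t := by
    intro u
    have h1 : ∀ x, (H t x).re = (H x t).re := fun x => by rw [← H_conj x t, Complex.conj_re]
    apply Complex.ext
    · rw [hre, h1, Complex.re_ofReal_mul]
    · have h2 := hre (Complex.I • u)
      rw [h1, H_smul_left, map_smul, smul_eq_mul, Complex.I_mul_re, Complex.I_mul_re] at h2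
      rw [Complex.im_ofReal_mul]
      linarith
  refine hP.self _ fun l hl => ?_
  have h1 := hcl l hl
  rw [hcu] at h1
  have h2 : Complex.exp (2 * Real.pi * Complex.I * E l t) = 1 := by
    have h3 : (2 * Real.pi * Complex.I * E l t : ℂ) = Real.pi * H l t - Real.pi * H t l := by
      have := H_sub_H l t
      linear_combination -(Real.pi : ℂ) * this
    rw [h3, Complex.exp_sub, h1, div_self (Complex.exp_ne_zero _)]
  rw [Complex.exp_eq_one_iff] at h2
  obtain ⟨n, hn⟩ := h2
  refine ⟨-n, ?_⟩
  have h4 : (2 * Real.pi * Complex.I : ℂ) ≠ 0 := by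
    have := Real.pi_ne_zero
    simp [this, Complex.I_ne_zero]
  have h5 : (E l t : ℂ) = n := by
    refine mul_left_cancel₀ h4 ?_
    rw [hn]
    ring
  rw [E_symm]
  have h6 : E l t = n := by exact_mod_cast h5
  rw [h6]
  push_cast
  ring

end GAM
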