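import Pool.Agent.GAM.SepA
import Pool.Agent.GAM.SepB

/-!
# GAM [ImA]: `d_t θ = η θ` with `η` entire
-/

set_option autoImplicit false

open Topology

namespace GAM

open scoped ComplexConjugate

lemma ImA_dd {ι : Type} [Fintype ι] {L : Submodule ℤ (ι → ℂ)} {χ θ : (ι → ℂ) → ℂ}
    (hT : IsTh L χ θ) (t ρ z : ι → ℂ) : dd t (F θ ρ) z =
      (dd t θ (ρ + z) - Real.pi * H t ρ * θ (ρ + z)) *
        Complex.exp (-(Real.pi * H z ρ) - Real.pi / 2 * H ρ ρ) := by
  have h1 := dd_F_add hT t 0 ρ z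
  have h2 : F θ 0 = θ := funext fun v => F_zero θ v
  rw [h2, zero_add, E_zero_right, Complex.ofReal_zero, mul_zero, add_zero, add_comm z ρ] at h1
  exact h1

lemma ImA_mul {ι : Type} [Fintype ι] {f g : (ι → ℂ) → ℂ} (hf : Differentiable ℂ f)
    (hg : Differentiable ℂ g) (t v : ι → ℂ) :
    dd t (fun u => f u * g u) v = dd t f v * g v + f v * dd t g v := by
  unfold dd
  rw [fderiv_fun_mul (hf v) (hg v)]
  simp
  ring

lemma ImA_sum {ι : Type} [Fintype ι] {n : ℕ} {f g : Fin n → (ι → ℂ) → ℂ}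
    (hf : ∀ i, Differentiable ℂ (f i)) (hg : ∀ i, Differentiable ℂ (g i)) (k : Fin n → ℂ)
    (t v : ι → ℂ) : dd t (fun u => ∑ i, k i * (f i u * g i u)) v =
      ∑ i, k i * (dd t (f i) v * g i v + f i v * dd t (g i) v) := by
  have h1 : ∀ i, dd t (fun u => k i * (f i u * g i u)) v =
      k i * (dd t (f i) v * g i v + f i v * dd t (g i) v) := by
    intro i
    have h2 := ImA_mul (f := fun _ => k i) (differentiable_const _) ((hf i).mul (hg i)) t v
    have h3 : dd t (fun _ : ι → ℂ => k i) v = 0 := by simp [dd]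
    rw [h3, zero_mul, zero_add] at h2
    rw [← ImA_mul (hf i) (hg i) t v]
    exact h2
  simp only [← h1]
  unfold dd
  have h2 : ∀ i ∈ Finset.univ, DifferentiableAt ℂ (fun u => k i * (f i u * g i u)) v :=
    fun i _ => (((hf i).mul (hg i)).const_mul (k i)) v
  rw [fderiv_fun_sum h2]
  simp

lemma ImA_prod {ι : Type} [Fintype ι] {L : Submodule ℤ (ι → ℂ)} {χ θ : (ι → ℂ) → ℂ} {N r : ℕ}
    {c : Fin (r + 1) → ι → ℂ} {κ : Fin (r + 1) → (ι → ℂ) → ℂ} {z t : ι → ℂ} {m : ℂ}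
    (hT : IsTh L χ θ) (hL : LinN L θ N r c κ)
    (hF : ∀ x, (N : ℤ) • x ∈ L → dd t (F θ x) z = m * F θ x z)
    {σ : ι → ℂ} (hσ : (N : ℤ) • σ ∈ L) (ρ : ι → ℂ) :
    dd t θ (ρ + z) * θ (σ + σ - ρ + z) + θ (ρ + z) * dd t θ (σ + σ - ρ + z) =
      (2 * m + Real.pi * H t (σ + σ)) * (θ (ρ + z) * θ (σ + σ - ρ + z)) := by
  have h1 : (fun v => F θ ρ v * F θ (σ + σ - ρ) v) =
      fun v => ∑ i, κ i (ρ - σ) * (F θ (σ + c i) v * F θ (σ - c i) v) := by
    funext v
    have h2 := hL.lin σ (ρ - σ) v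
    have h3 : σ + (ρ - σ) = ρ := by abel
    have h4 : σ - (ρ - σ) = σ + σ - ρ := by abel
    rwa [h3, h4] at h2
  have h5 : dd t (F θ ρ) z * F θ (σ + σ - ρ) z + F θ ρ z * dd t (F θ (σ + σ - ρ)) z =
      2 * m * (F θ ρ z * F θ (σ + σ - ρ) z) := by
    rw [← ImA_mul (F_differentiable hT _) (F_differentiable hT _), h1,
      ImA_sum (fun i => F_differentiable hT _) (fun i => F_differentiable hT _)]
    rw [congrFun h1 z, Finset.mul_sum]
    refine Finset.sum_congr rfl fun i _ => ?_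
    have h6 : (N : ℤ) • (σ + c i) ∈ L := by
      rw [smul_add]; exact L.add_mem hσ (hL.lev i)
    have h7 : (N : ℤ) • (σ - c i) ∈ L := by
      rw [smul_sub]; exact L.sub_mem hσ (hL.lev i)
    rw [hF _ h6, hF _ h7]
    ring
  rw [ImA_dd hT, ImA_dd hT] at h5
  unfold F at h5
  have h8 : H t (σ + σ) = H t ρ + H t (σ + σ - ρ) := by
    rw [← H_add_right]
    congr 1
    abel
  rw [h8]
  have h9 : Complex.exp (-(Real.pi * H z ρ) - Real.pi / 2 * H ρ ρ) *
      Complex.exp (-(Real.pi * H z (σ + σ - ρ)) -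
        Real.pi / 2 * H (σ + σ - ρ) (σ + σ - ρ)) ≠ 0 :=
    mul_ne_zero (Complex.exp_ne_zero _) (Complex.exp_ne_zero _)
  refine mul_right_cancel₀ h9 ?_
  linear_combination h5

theorem thm_ImA (hG : St_Glue) : St_ImA := by
  intro ι _ L χ θ N r c κ z t m hP hT h0 hN hL hF
  have hdθ : Differentiable ℂ (dd t θ) := fun u =>
    (SepB_fderiv hT.ent u).clm_apply (differentiableAt_const _)
  obtain ⟨q, hq, hqz⟩ := hG ι (fun u => dd t θ (u + z)) (fun u => θ (u + z))
    (hdθ.comp (differentiable_id.add_const z)) (hT.ent.comp (differentiable_id.add_const z))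
    (by
      obtain ⟨v, hv⟩ := h0
      exact ⟨v - z, by rw [sub_add_cancel]; exact hv⟩)
    (by
      intro ρ₀
      obtain ⟨σ, hσ, hne⟩ := SepA_pt hP hT hN (z - ρ₀)
      have hd1 : Differentiable ℂ fun ρ : ι → ℂ => θ (σ + σ - ρ + z) :=
        hT.ent.comp ((differentiable_id.const_sub (σ + σ)).add_const z)
      have hd2 : Differentiable ℂ fun ρ : ι → ℂ => dd t θ (σ + σ - ρ + z) :=
        hdθ.comp ((differentiable_id.const_sub (σ + σ)).add_const z)
      refine ⟨{ρ | θ (σ + σ - ρ + z) ≠ 0}, fun ρ => 2 * m + Real.pi * H t (σ + σ) -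
        dd t θ (σ + σ - ρ + z) / θ (σ + σ - ρ + z),
        isOpen_ne_fun hd1.continuous continuous_const, ?_, ?_, ?_⟩
      · show θ (σ + σ - ρ₀ + z) ≠ 0
        have h1 : σ + σ - ρ₀ + z = σ + σ + (z - ρ₀) := by abel
        rw [h1]
        exact hne
      · intro ρ hρ
        exact ((diff_div (hd2 ρ) (hd1 ρ) hρ).const_sub _).differentiableWithinAt
      · intro ρ hρ
        have h1 := ImA_prod hT hL hF hσ ρ
        have h2 : θ (σ + σ - ρ + z) ≠ 0 := hρ
        refine mul_right_cancel₀ h2 ?_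
        rw [sub_mul, sub_mul]
        have h3 : dd t θ (σ + σ - ρ + z) / θ (σ + σ - ρ + z) * θ (ρ + z) *
            θ (σ + σ - ρ + z) = θ (ρ + z) * dd t θ (σ + σ - ρ + z) := by
          field_simp
        rw [h3]
        linear_combination h1)
  refine ⟨fun u => q (u - z), hq.comp (differentiable_id.sub_const z), fun u => ?_⟩
  have h1 := hqz (u - z)
  simp only [sub_add_cancel] at h1
  exact h1

end GAM
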