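import Pool.Agent.GAM.FCalc

/-!
# GAM [Imm]
-/

set_option autoImplicit false

namespace GAM

open scoped ComplexConjugate
open Complex

section

variable {ι : Type} [Fintype ι] [DecidableEq ι]

/-- choice of rows of a family of covectors without common zero -/
theorem Imm_rows {C : Type} (p : C → Prop) (r : C → ι → ℂ)
    (h : ∀ t : ι → ℂ, t ≠ 0 → ∃ c, p c ∧ ∑ a, t a * r c a ≠ 0) :
    ∃ c : ι → C, (∀ i, p (c i)) ∧ (Matrix.of fun i j => r (c i) j).det ≠ 0 := by
  classical
  have hs : ⊤ ≤ Submodule.span ℂ (r '' {c | p c}) := by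
    by_contra hn
    have hlt : Submodule.span ℂ (r '' {c | p c}) < ⊤ := lt_top_iff_ne_top.2 fun he => hn he.ge
    obtain ⟨f, hf, hle⟩ := Submodule.exists_le_ker_of_lt_top _ hlt
    have ht : (fun a => f (Pi.single a 1)) ≠ (0 : ι → ℂ) := by
      intro h0
      apply hf
      refine LinearMap.pi_ext' fun a => ?_
      ext
      have := congrFun h0 a
      simpa using this
    obtain ⟨c, hc, hne⟩ := h _ ht
    apply hne
    have h1 : f (r c) = 0 := hle (Submodule.subset_span ⟨c, hc, rfl⟩)
    rw [← h1]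
    conv_rhs => rw [← Finset.univ_sum_single (r c), map_sum]
    refine Finset.sum_congr rfl fun a _ => ?_
    have : Pi.single a (r c a) = r c a • (Pi.single a (1 : ℂ) : ι → ℂ) := by
      rw [← Pi.single_smul, smul_eq_mul, mul_one]
    rw [this, map_smul, smul_eq_mul, mul_comm]
  let B := Module.Basis.ofSpan hs
  have hB : ∀ x, ∃ c, p c ∧ r c = B x := by
    intro x
    obtain ⟨c, hc, hcx⟩ := Module.Basis.ofSpan_subset hs ⟨x, rfl⟩
    exact ⟨c, hc, hcx⟩
  let e := (Pi.basisFun ℂ ι).indexEquiv B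
  choose g hg1 hg2 using hB
  refine ⟨fun i => g (e i), fun i => hg1 _, ?_⟩
  have hli : LinearIndependent ℂ (fun i => r (g (e i))) := by
    have h1 : (fun i => r (g (e i))) = (fun x => B x) ∘ e := by
      funext i
      exact hg2 (e i)
    rw [h1]
    exact B.linearIndependent.comp e e.injective
  have h2 : IsUnit (Matrix.of fun i j => r (g (e i)) j) :=
    Matrix.linearIndependent_rows_iff_isUnit.1 hli
  exact ((Matrix.isUnit_iff_isUnit_det _).1 h2).ne_zero

theorem Imm_pd (θ : (ι → ℂ) → ℂ) (hθ : Differentiable ℂ θ) (c v : ι → ℂ) (a : ι) :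
    pd a (F θ c) v = (pd a θ (c + v) - Real.pi * conj (c a) * θ (c + v)) *
      exp (-(Real.pi * H v c) - Real.pi / 2 * H c c) := by
  have hd : Differentiable ℂ fun v : ι → ℂ => H v c := differentiable_H c
  show pd a (fun v => θ (c + v) * exp (-(Real.pi * H v c) - Real.pi / 2 * H c c)) v = _
  have h1 : DifferentiableAt ℂ (fun z => θ (c + z)) v :=
    (hθ.comp (by fun_prop : Differentiable ℂ fun z => c + z)).differentiableAt
  rw [pd_mul h1 (by fun_prop), pd_exp (by fun_prop), pd_sub (by fun_prop) (by fun_prop), pd_const,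
    pd_neg, pd_const_mul (by fun_prop), pd_H, pd_comp_add_left]
  ring

theorem Imm_cont (θ : (ι → ℂ) → ℂ) (hθ : Differentiable ℂ θ) (v : ι → ℂ) (a : ι) :
    Continuous fun c => pd a (F θ c) v := by
  simp only [Imm_pd θ hθ]
  have h1 : Continuous (pd a θ) := (pd_diff hθ a).continuous
  have h2 : Continuous θ := hθ.continuous
  have h3 : Continuous fun c : ι → ℂ => H v c := by
    unfold H
    fun_prop
  have h4 : Continuous fun c : ι → ℂ => H c c := by
    unfold H
    fun_prop
  have h5 : Continuous fun c : ι → ℂ => conj (c a) := by fun_prop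
  fun_prop

omit [DecidableEq ι] in
theorem Imm_contF (θ : (ι → ℂ) → ℂ) (hθ : Differentiable ℂ θ) (v : ι → ℂ) :
    Continuous fun c => F θ c v := by
  unfold F
  have h2 : Continuous θ := hθ.continuous
  have h3 : Continuous fun c : ι → ℂ => H v c := by
    unfold H
    fun_prop
  have h4 : Continuous fun c : ι → ℂ => H c c := by
    unfold H
    fun_prop
  fun_prop

theorem Imm_shift (θ : (ι → ℂ) → ℂ) (hθ : Differentiable ℂ θ) (c v : ι → ℂ) (a : ι) :
    pd a (F θ c) v = exp (Real.pi / 2 * H v v - Real.pi * I * E v c) *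
      (pd a (F θ (c + v)) 0 + Real.pi * conj (v a) * F θ (c + v) 0) := by
  have h1 : (fun z => F θ c (z + v)) = fun z => F θ (c + v) z *
      exp (Real.pi * H z v + Real.pi / 2 * H v v - Real.pi * I * E v c) := by
    funext z
    exact F_shift' θ c v z
  have hd : Differentiable ℂ fun z : ι → ℂ => H z v := differentiable_H v
  have h2 := pd_comp_add (F θ c) v 0 a
  rw [zero_add] at h2
  rw [← h2, h1, pd_mul (F_diff hθ _).differentiableAt (by fun_prop), pd_exp (by fun_prop),
    pd_sub (by fun_prop) (by fun_prop), pd_const, pd_add (by fun_prop) (by fun_prop), pd_const,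
    pd_const_mul (by fun_prop), pd_H]
  rw [H_zero_left, mul_zero, zero_add]
  ring

omit [Fintype ι] [DecidableEq ι] in
theorem Imm_zsmul {L : Submodule ℤ (ι → ℂ)} {x : ι → ℂ} {n m : ℕ} (h : (n : ℤ) • x ∈ L)
    (hnm : n ∣ m) : (m : ℤ) • x ∈ L := by
  obtain ⟨k, rfl⟩ := hnm
  have : ((n * k : ℕ) : ℤ) • x = (k : ℤ) • ((n : ℤ) • x) := by
    rw [smul_smul]
    congr 1
    push_cast
    ring
  rw [this]
  exact L.smul_mem _ h

end

theorem thm_Imm (h1 : St_Ind1) (h2 : St_OddD) : St_Imm := by
  intro ι _ _ L χ θ hL hθ hne y v hy hyv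
  have hdense := h2 ι L hL.isLat
  have key : ∀ t : ι → ℂ, t ≠ 0 → ∃ c, (OddTor L c ∧ F θ c v ≠ 0) ∧
      ∑ a, t a * (pd a (F θ c) v * F θ y v - F θ c v * pd a (F θ y) v) ≠ 0 := by
    intro t ht
    by_contra hcon
    push Not at hcon
    set G : (ι → ℂ) → ℂ := fun c =>
      ∑ a, t a * (pd a (F θ c) v * F θ y v - F θ c v * pd a (F θ y) v) with hG
    have hGc : Continuous G := by
      refine continuous_finsetSum _ fun a _ => ?_
      have e1 := Imm_cont θ hθ.ent v a
      have e2 := Imm_contF θ hθ.ent v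
      exact continuous_const.mul ((e1.mul continuous_const).sub (e2.mul continuous_const))
    have hFc := Imm_contF θ hθ.ent v
    have h3 : (fun c => F θ c v * G c) = fun _ => 0 := by
      refine Continuous.ext_on hdense (hFc.mul hGc) continuous_const fun c hc => ?_
      by_cases h4 : F θ c v = 0
      · simp only [h4, zero_mul]
      · simp only [hcon c ⟨hc, h4⟩, hG, mul_zero]
    have h5 : ∀ c, θ (c + v) ≠ 0 → G c = 0 := by
      intro c hc
      have h6 := congrFun h3 c
      simp only [mul_eq_zero] at h6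
      refine h6.resolve_left ?_
      unfold F
      exact mul_ne_zero hc (exp_ne_zero _)
    have hsh : Differentiable ℂ fun c : ι → ℂ => θ (c + v) :=
      hθ.ent.comp (by fun_prop : Differentiable ℂ fun c : ι → ℂ => c + v)
    have hG0 : G = fun _ => 0 := by
      refine eq_of_ent hsh ?_ hGc continuous_const fun c hc => h5 c hc
      obtain ⟨w, hw⟩ := hne
      exact ⟨w - v, by rwa [sub_add_cancel]⟩
    obtain ⟨x, hx, hxne⟩ := h1 ι L χ θ hL hθ hne t
      ((∑ a, t a * pd a (F θ y) v) / F θ y v - Real.pi * ∑ a, t a * conj (v a)) ht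
    apply hxne
    have h7 := congrFun hG0 (x - v)
    simp only [hG] at h7
    rw [dd_eq_sum]
    set ε := exp (Real.pi / 2 * H v v - Real.pi * I * E v (x - v)) with hε
    have hε0 : ε ≠ 0 := exp_ne_zero _
    have h8 : ∀ a, pd a (F θ (x - v)) v =
        ε * (pd a (F θ x) 0 + Real.pi * conj (v a) * F θ x 0) := by
      intro a
      have := Imm_shift θ hθ.ent (x - v) v a
      rw [sub_add_cancel] at this
      exact this
    have h9 : F θ (x - v) v = ε * F θ x 0 := by
      have := F_val θ (x - v) v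
      rw [sub_add_cancel] at this
      rw [this, mul_comm]
    have h10 : ∑ a, t a * (pd a (F θ (x - v)) v * F θ y v - F θ (x - v) v * pd a (F θ y) v) =
        ε * ((∑ a, t a * pd a (F θ x) 0) * F θ y v +
          Real.pi * (∑ a, t a * conj (v a)) * F θ x 0 * F θ y v -
          F θ x 0 * ∑ a, t a * pd a (F θ y) v) := by
      rw [h9]
      simp only [h8, Finset.mul_sum, Finset.sum_mul, ← Finset.sum_add_distrib,
        ← Finset.sum_sub_distrib]
      refine Finset.sum_congr rfl fun a _ => ?_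
      ring
    rw [h10] at h7
    have h11 := (mul_eq_zero.1 h7).resolve_left hε0
    field_simp
    linear_combination h11
  obtain ⟨c, hc, hdet⟩ := Imm_rows (fun c => OddTor L c ∧ F θ c v ≠ 0)
    (fun c a => pd a (F θ c) v * F θ y v - F θ c v * pd a (F θ y) v) key
  obtain ⟨n₀, hn₀, hn₀y⟩ := hy
  choose m hm1 hm2 using fun i => (hc i).1
  set n := n₀ * ∏ i, m i with hn
  have hnodd : Odd n := by
    rw [hn]
    refine hn₀.mul ?_
    exact Finset.prod_induction _ Odd (fun a b ha hb => ha.mul hb) odd_one fun i _ => hm1 i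
  refine ⟨n, c, hnodd, Imm_zsmul hn₀y ⟨_, rfl⟩, fun i => Imm_zsmul (hm2 i)
    (Dvd.dvd.mul_left (Finset.dvd_prod_of_mem m (Finset.mem_univ i)) _), ?_⟩
  have hn1 : 1 ≤ n := hnodd.pos
  have hnn : (n : ℂ) ≠ 0 := by
    have : n ≠ 0 := by omega
    exact_mod_cast this
  set B : Matrix ι ι ℂ :=
    Matrix.of fun i j => pd j (F θ (c i)) v * F θ y v - F θ (c i) v * pd j (F θ y) v with hB
  have hjac : jac (fun i z => F θ (c i) z ^ n) (fun _ z => F θ y z ^ n) v =
      Matrix.of fun i j =>
        (n * F θ (c i) v ^ (n - 1) * F θ y v ^ (n - 1) / (F θ y v ^ n) ^ 2) * B i j := by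
    ext i j
    have hd1 := (F_diff hθ.ent (c i)).differentiableAt (x := v)
    have hd2 := (F_diff hθ.ent y).differentiableAt (x := v)
    have hq := pd_div (hd1.fun_pow n) (hd2.fun_pow n) (pow_ne_zero _ hyv) j
    rw [pd_pow hd1, pd_pow hd2] at hq
    show pd j (fun z => F θ (c i) z ^ n / F θ y z ^ n) v =
      (n * F θ (c i) v ^ (n - 1) * F θ y v ^ (n - 1) / (F θ y v ^ n) ^ 2) *
        (pd j (F θ (c i)) v * F θ y v - F θ (c i) v * pd j (F θ y) v)
    rw [hq]
    obtain ⟨k, hk⟩ : ∃ k, n = k + 1 := ⟨n - 1, by omega⟩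
    rw [hk]
    simp only [Nat.add_sub_cancel]
    field_simp
    ring
  rw [hjac, Matrix.det_mul_column]
  refine mul_ne_zero ?_ hdet
  rw [Finset.prod_ne_zero_iff]
  intro i _
  have e1 : F θ (c i) v ^ (n - 1) ≠ 0 := pow_ne_zero _ (hc i).2
  have e2 : F θ y v ^ (n - 1) ≠ 0 := pow_ne_zero _ hyv
  have e3 : (F θ y v ^ n) ^ 2 ≠ 0 := pow_ne_zero _ (pow_ne_zero _ hyv)
  exact div_ne_zero (mul_ne_zero (mul_ne_zero hnn e1) e2) e3

end GAM
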