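import Pool.Agent.GAM.FCalc

/-!
# GAM [Ind1]
-/

set_option autoImplicit false

namespace GAM

open scoped ComplexConjugate

/-- complex conjugation is not complex differentiable -/
lemma Ind1_conj : ¬ DifferentiableAt ℂ (fun s : ℂ => conj s) 0 := by
  intro h
  obtain ⟨d, hd⟩ : ∃ d, HasDerivAt (fun s : ℂ => conj s) d 0 := ⟨_, h.hasDerivAt⟩
  -- along the real axis
  have h1 : HasDerivAt (fun t : ℝ => conj ((t : ℂ))) d 0 := by
    have := (show HasDerivAt (fun s : ℂ => conj s) d ((0 : ℝ) : ℂ) by simpa using hd).comp_ofReal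
    exact this
  have h2 : HasDerivAt (fun t : ℝ => conj ((t : ℂ))) 1 0 := by
    have h3 : (fun t : ℝ => conj ((t : ℂ))) = fun t : ℝ => (t : ℂ) :=
      funext fun t => Complex.conj_ofReal t
    rw [h3]
    exact Complex.ofRealCLM.hasDerivAt
  have hd1 : d = 1 := h1.unique h2
  -- along the imaginary axis
  have h3 : HasDerivAt (fun s : ℂ => conj (Complex.I * s)) (d * Complex.I) 0 := by
    have h4 : HasDerivAt (fun s : ℂ => Complex.I * s) Complex.I 0 := by
      simpa using (hasDerivAt_id (0 : ℂ)).const_mul Complex.I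
    have h5 : HasDerivAt (fun s : ℂ => conj s) d (Complex.I * 0) := by simpa using hd
    exact h5.comp 0 h4
  have h4 : HasDerivAt (fun s : ℂ => conj (Complex.I * s)) (-Complex.I * d) 0 := by
    have h5 : (fun s : ℂ => conj (Complex.I * s)) = fun s : ℂ => -Complex.I * conj s := by
      funext s
      rw [map_mul, Complex.conj_I]
    rw [h5]
    exact hd.const_mul (-Complex.I)
  have h5 := h3.unique h4
  rw [hd1, one_mul, mul_one] at h5
  have h6 := congrArg Complex.im h5
  simp at h6
  norm_num at h6

/-- derivative of `F_x` at the origin -/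
lemma Ind1_dd {ι : Type} [Fintype ι] {θ : (ι → ℂ) → ℂ} (h : Differentiable ℂ θ)
    (x t : ι → ℂ) : dd t (F θ x) 0 =
    (dd t θ x - Real.pi * H t x * θ x) * Complex.exp (-(Real.pi / 2 * H x x)) := by
  classical
  have hH : Differentiable ℂ fun v : ι → ℂ => H v x := differentiable_H x
  have h1 : ∀ a, pd a (F θ x) 0 = (pd a θ x - Real.pi * conj (x a) * θ x) *
      Complex.exp (-(Real.pi / 2 * H x x)) := by
    intro a
    have e1 : F θ x = fun v => θ (x + v) *
        Complex.exp (-(Real.pi * H v x) - Real.pi / 2 * H x x) := rfl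
    have hθ : DifferentiableAt ℂ (fun v => θ (x + v)) (0 : ι → ℂ) := by
      exact (h.comp (by fun_prop)).differentiableAt
    rw [e1, pd_mul hθ (by fun_prop), pd_comp_add_left, add_zero, pd_exp (by fun_prop),
      pd_sub (by fun_prop) (by fun_prop), pd_const, pd_neg, pd_const_mul (by fun_prop), pd_H]
    simp only [H_zero_left, mul_zero, neg_zero, zero_sub]
    ring
  rw [dd_eq_sum, dd_eq_sum]
  simp only [h1]
  set E : ℂ := Complex.exp (-(Real.pi / 2 * H x x)) with hE
  have h2 : H t x = ∑ a, t a * conj (x a) := rfl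
  rw [h2, Finset.mul_sum, Finset.sum_mul, ← Finset.sum_sub_distrib, Finset.sum_mul]
  refine Finset.sum_congr rfl fun a _ => ?_
  ring

theorem thm_Ind1 (h1 : St_OddD) : St_Ind1 := by
  classical
  intro ι _ L χ θ hL hθ hne t c ht
  by_contra hcon
  push Not at hcon
  -- the identity for all points
  have hdd : Differentiable ℂ (dd t θ) := dd_diff hθ.ent t
  have key : ∀ x : ι → ℂ, dd t θ x - Real.pi * H t x * θ x = c * θ x := by
    have hc1 : Continuous fun x : ι → ℂ => dd t θ x - Real.pi * H t x * θ x := by
      have h2 : Continuous fun x : ι → ℂ => H t x :=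
        continuous_H.comp (continuous_const.prodMk continuous_id)
      exact hdd.continuous.sub ((continuous_const.mul h2).mul hθ.ent.continuous)
    have hc2 : Continuous fun x : ι → ℂ => c * θ x := continuous_const.mul hθ.ent.continuous
    have h3 := Continuous.ext_on (h1 ι L hL.isLat) hc1 hc2 (fun x hx => by
      have h4 := hcon x hx
      rw [Ind1_dd hθ.ent, F_at_zero] at h4
      have h5 := Complex.exp_ne_zero (-(Real.pi / 2 * H x x) : ℂ)
      apply mul_right_cancel₀ h5
      rw [h4]
      ring)
    exact fun x => congrFun h3 x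
  obtain ⟨w, hw⟩ := hne
  -- restriction to a line
  let g : ℂ → ℂ := fun s => θ (w + s • t)
  let k : ℂ → ℂ := fun s => dd t θ (w + s • t)
  have hg : Differentiable ℂ g := hθ.ent.comp (by fun_prop)
  have hk : Differentiable ℂ k := hdd.comp (by fun_prop)
  have hg0 : g 0 ≠ 0 := by simpa [g] using hw
  have htt : H t t ≠ 0 := by
    intro h0
    have := H_self_pos ht
    rw [h0] at this
    simp at this
  have hpi : (Real.pi : ℂ) ≠ 0 := by exact_mod_cast Real.pi_ne_zero
  have hid : ∀ s, k s - Real.pi * (H t w + conj s * H t t) * g s = c * g s := by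
    intro s
    have h2 := key (w + s • t)
    rw [H_add_right, H_smul_right] at h2
    exact h2
  have hev : (fun s : ℂ => conj s) =ᶠ[nhds 0]
      fun s => (k s - (Real.pi * H t w + c) * g s) / (Real.pi * H t t * g s) := by
    filter_upwards [hg.continuous.continuousAt.eventually_ne hg0] with s hs
    rw [eq_div_iff (mul_ne_zero (mul_ne_zero hpi htt) hs)]
    have h2 := hid s
    linear_combination -h2
  refine Ind1_conj (DifferentiableAt.congr_of_eventuallyEq ?_ hev)
  refine DifferentiableAt.div ?_ ?_ (mul_ne_zero (mul_ne_zero hpi htt) hg0)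
  · exact hk.differentiableAt.sub ((differentiableAt_const _).mul hg.differentiableAt)
  · exact (differentiableAt_const _).mul hg.differentiableAt

end GAM
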