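import Pool.Agent.GAM.FCalc

/-!
# GAM [Ind2]
-/

set_option autoImplicit false

namespace GAM

open scoped ComplexConjugate

/-- an entire function of `(x, y)` which vanishes for `y = conj x` is zero -/
theorem Ind2_pol {ι : Type} [Fintype ι] {Q : (ι → ℂ) × (ι → ℂ) → ℂ} (hQ : Differentiable ℂ Q)
    (h : ∀ x, Q (x, star x) = 0) (x y : ι → ℂ) : Q (x, y) = 0 := by
  set a : ι → ℂ := (1 / 2 : ℂ) • (x + star y) with ha
  set b : ι → ℂ := (-Complex.I / 2 : ℂ) • (x - star y) with hb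
  have hd : Differentiable ℂ (fun t : ℂ => Q (a + t • b, star a + t • star b)) :=
    hQ.comp (by fun_prop)
  have hreal : ∀ t : ℝ, Q (a + (t : ℂ) • b, star a + (t : ℂ) • star b) = 0 := by
    intro t
    have h1 : star a + (t : ℂ) • star b = star (a + (t : ℂ) • b) := by
      rw [star_add, star_smul]; simp
    rw [h1]
    exact h _
  have han : AnalyticOnNhd ℂ (fun t : ℂ => Q (a + t • b, star a + t • star b)) Set.univ :=
    fun s _ => hd.analyticAt s
  have hzero : (fun t : ℂ => Q (a + t • b, star a + t • star b)) = fun _ => 0 := by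
    have han2 : AnalyticOnNhd ℂ (fun _ : ℂ => (0 : ℂ)) Set.univ := fun s _ => analyticAt_const
    refine han.eq_of_frequently_eq han2 (z₀ := 0) ?_
    rw [Filter.frequently_iff]
    intro U hU
    obtain ⟨V, hV, hVU⟩ := mem_nhdsWithin_iff_exists_mem_nhds_inter.1 hU
    obtain ⟨ε, hε, hεV⟩ := Metric.mem_nhds_iff.1 hV
    refine ⟨((ε / 2 : ℝ) : ℂ), hVU ⟨hεV ?_, ?_⟩, hreal _⟩
    · rw [Metric.mem_ball, dist_zero_right, Complex.norm_real, Real.norm_eq_abs,
        abs_of_pos (by linarith)]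
      linarith
    · rw [Set.mem_compl_iff, Set.mem_singleton_iff]
      intro h5
      have h6 : (ε / 2 : ℝ) = 0 := by exact_mod_cast h5
      linarith
  have h2 := congrFun hzero Complex.I
  have hI := Complex.I_mul_I
  have h3 : a + Complex.I • b = x := by
    funext i
    simp only [ha, hb, Pi.add_apply, Pi.smul_apply, Pi.sub_apply, smul_eq_mul]
    linear_combination (-(x i - star y i) / 2) * hI
  have h4 : star a + Complex.I • star b = y := by
    funext i
    simp only [ha, hb, Pi.add_apply, Pi.smul_apply, Pi.star_apply, Pi.sub_apply, smul_eq_mul,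
      star_mul', star_add, star_sub, star_star]
    simp only [Complex.star_def, map_div₀, map_neg, Complex.conj_I, map_one]
    have h5 : conj (2 : ℂ) = 2 := map_ofNat _ 2
    rw [h5]
    linear_combination ((conj (x i) - y i) / 2) * hI
  rwa [h3, h4] at h2

section

variable {ι : Type} [Fintype ι] [DecidableEq ι]

/-- derivative of a translate with the exponential factor -/
theorem Ind2_pd {g : (ι → ℂ) → ℂ} (hg : Differentiable ℂ g) (x : ι → ℂ) (j : ι) :
    pd j (fun v => g (x + v) * Complex.exp (-(Real.pi * H v x) - Real.pi / 2 * H x x)) =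
      fun v => (pd j g (x + v) - Real.pi * conj (x j) * g (x + v)) *
        Complex.exp (-(Real.pi * H v x) - Real.pi / 2 * H x x) := by
  funext v
  have hH : Differentiable ℂ fun v : ι → ℂ => H v x := differentiable_H x
  have h1 : Differentiable ℂ fun v => g (x + v) := hg.comp (by fun_prop)
  rw [pd_mul (h1 v) (by fun_prop), pd_comp_add_left, pd_exp (by fun_prop),
    pd_sub (by fun_prop) (by fun_prop), pd_neg, pd_const_mul (hH v), pd_H, pd_const]
  ring

/-- the second derivatives of `F_x` at the origin -/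
theorem Ind2_pd2 {θ : (ι → ℂ) → ℂ} (hθ : Differentiable ℂ θ) (x : ι → ℂ) (i j : ι) :
    pd i (pd j (F θ x)) 0 = (pd i (pd j θ) x - Real.pi * conj (x j) * pd i θ x -
      Real.pi * conj (x i) * pd j θ x + Real.pi ^ 2 * (conj (x i) * conj (x j)) * θ x) *
        Complex.exp (-(Real.pi / 2 * H x x)) := by
  have h1 : F θ x = fun v => θ (x + v) *
      Complex.exp (-(Real.pi * H v x) - Real.pi / 2 * H x x) := rfl
  have hj := pd_diff hθ j
  set g : (ι → ℂ) → ℂ := fun z => pd j θ z - Real.pi * conj (x j) * θ z with hg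
  have hgd : Differentiable ℂ g := hj.sub (hθ.const_mul _)
  have h2 : (fun v => (pd j θ (x + v) - Real.pi * conj (x j) * θ (x + v)) *
        Complex.exp (-(Real.pi * H v x) - Real.pi / 2 * H x x)) =
      fun v => g (x + v) * Complex.exp (-(Real.pi * H v x) - Real.pi / 2 * H x x) := rfl
  rw [h1, Ind2_pd hθ x j, h2, Ind2_pd hgd x i]
  have h3 : pd i g x = pd i (pd j θ) x - Real.pi * conj (x j) * pd i θ x := by
    rw [hg, pd_sub (hj x) ((hθ.const_mul _) x), pd_const_mul (hθ x)]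
  dsimp only
  rw [add_zero, h3, hg, H_zero_left]
  dsimp only
  rw [mul_zero, neg_zero, zero_sub]
  ring

end

theorem thm_Ind2 (h1 : St_OddD) : St_Ind2 := by
  intro ι _ _ L χ θ hP hT hne j₁ j₂ j₃ j₄ α β γ h12 h34 h13 h14 h23 h24 hnz
  by_contra hcon
  push Not at hcon
  have hθ := hT.ent
  set Q : (ι → ℂ) × (ι → ℂ) → ℂ := fun p =>
    α * θ p.1 + β * (pd j₁ (pd j₂ θ) p.1 - Real.pi * p.2 j₂ * pd j₁ θ p.1 -
      Real.pi * p.2 j₁ * pd j₂ θ p.1 + Real.pi ^ 2 * (p.2 j₁ * p.2 j₂) * θ p.1) +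
    γ * (pd j₃ (pd j₄ θ) p.1 - Real.pi * p.2 j₄ * pd j₃ θ p.1 -
      Real.pi * p.2 j₃ * pd j₄ θ p.1 + Real.pi ^ 2 * (p.2 j₃ * p.2 j₄) * θ p.1) with hQ
  have hQd : Differentiable ℂ Q := by
    have e0 := hθ.comp (differentiable_fst (𝕜 := ℂ) (E := ι → ℂ) (F := ι → ℂ))
    have e1 := (pd_diff hθ j₁).comp (differentiable_fst (𝕜 := ℂ) (E := ι → ℂ) (F := ι → ℂ))
    have e2 := (pd_diff hθ j₂).comp (differentiable_fst (𝕜 := ℂ) (E := ι → ℂ) (F := ι → ℂ))
    have e3 := (pd_diff hθ j₃).comp (differentiable_fst (𝕜 := ℂ) (E := ι → ℂ) (F := ι → ℂ))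
    have e4 := (pd_diff hθ j₄).comp (differentiable_fst (𝕜 := ℂ) (E := ι → ℂ) (F := ι → ℂ))
    have e5 := (pd_diff (pd_diff hθ j₂) j₁).comp
      (differentiable_fst (𝕜 := ℂ) (E := ι → ℂ) (F := ι → ℂ))
    have e6 := (pd_diff (pd_diff hθ j₄) j₃).comp
      (differentiable_fst (𝕜 := ℂ) (E := ι → ℂ) (F := ι → ℂ))
    simp only [Function.comp_def] at e0 e1 e2 e3 e4 e5 e6
    rw [hQ]
    fun_prop
  -- the relation at all points
  have hexp : ∀ x : ι → ℂ, α * F θ x 0 + β * pd j₁ (pd j₂ (F θ x)) 0 +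
      γ * pd j₃ (pd j₄ (F θ x)) 0 = Q (x, star x) * Complex.exp (-(Real.pi / 2 * H x x)) := by
    intro x
    rw [Ind2_pd2 hθ, Ind2_pd2 hθ, F_at_zero, hQ]
    simp only [Pi.star_apply, Complex.star_def]
    ring
  have hodd : ∀ x, OddTor L x → Q (x, star x) = 0 := by
    intro x hx
    have e1 := hcon x hx
    rw [hexp] at e1
    exact (mul_eq_zero.1 e1).resolve_right (Complex.exp_ne_zero _)
  have hall : ∀ x, Q (x, star x) = 0 := by
    have hc : Continuous (fun x : ι → ℂ => Q (x, star x)) :=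
      hQd.continuous.comp (continuous_id.prodMk continuous_star)
    have hdense := h1 ι L hP.isLat
    have e1 := Continuous.ext_on hdense hc (continuous_const (y := (0 : ℂ)))
      (fun x hx => hodd x hx)
    exact fun x => congrFun e1 x
  have hQ0 := Ind2_pol hQd hall
  obtain ⟨x, hx⟩ := hne
  have hpi : (Real.pi : ℂ) ≠ 0 := by exact_mod_cast Real.pi_ne_zero
  have hs : ∀ (a b : ι), a ≠ b → (Pi.single a (1 : ℂ) : ι → ℂ) b = 0 := fun a b hab => by
    rw [Pi.single_apply, if_neg (Ne.symm hab)]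
  have hss : ∀ a : ι, (Pi.single a (1 : ℂ) : ι → ℂ) a = 1 := fun a => by simp
  have q0 := hQ0 x 0
  have q1 := hQ0 x (Pi.single j₁ 1)
  have q2 := hQ0 x (Pi.single j₂ 1)
  have q12 := hQ0 x (Pi.single j₁ 1 + Pi.single j₂ 1)
  have q3 := hQ0 x (Pi.single j₃ 1)
  have q4 := hQ0 x (Pi.single j₄ 1)
  have q34 := hQ0 x (Pi.single j₃ 1 + Pi.single j₄ 1)
  rw [hQ] at q0 q1 q2 q12 q3 q4 q34
  simp only [Pi.zero_apply, Pi.add_apply, hs _ _ h12, hs _ _ h12.symm, hs _ _ h34,
    hs _ _ h34.symm, hs _ _ h13, hs _ _ h13.symm, hs _ _ h14, hs _ _ h14.symm, hs _ _ h23,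
    hs _ _ h23.symm, hs _ _ h24, hs _ _ h24.symm, hss] at q0 q1 q2 q12 q3 q4 q34
  have hβ : β * ((Real.pi : ℂ) ^ 2 * θ x) = 0 := by
    linear_combination q12 - q1 - q2 + q0
  have hγ : γ * ((Real.pi : ℂ) ^ 2 * θ x) = 0 := by
    linear_combination q34 - q3 - q4 + q0
  have hk : (Real.pi : ℂ) ^ 2 * θ x ≠ 0 := mul_ne_zero (pow_ne_zero 2 hpi) hx
  have hβ0 := (mul_eq_zero.1 hβ).resolve_right hk
  have hγ0 := (mul_eq_zero.1 hγ).resolve_right hk
  rw [hβ0, hγ0] at q0
  have hα : α * θ x = 0 := by linear_combination q0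
  exact hnz ⟨(mul_eq_zero.1 hα).resolve_right hx, hβ0, hγ0⟩

end GAM
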