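import Pool.Agent.GAM.StD2

/-!
# GAM [LevM]: common denominators
-/

set_option autoImplicit false

namespace GAM

open scoped ComplexConjugate

/-- a common denominator of finitely many rational numbers -/
theorem LevM_den {κ : Type} [Finite κ] (q : κ → ℚ) :
    ∃ M : ℕ, M ≠ 0 ∧ ∀ i, ∃ z : ℤ, (M : ℚ) * q i = z := by
  classical
  cases nonempty_fintype κ
  refine ⟨∏ i, (q i).den, Finset.prod_ne_zero_iff.2 fun i _ => (q i).den_nz, fun i => ?_⟩
  obtain ⟨t, ht⟩ := Finset.dvd_prod_of_mem (fun i => (q i).den) (Finset.mem_univ i)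
  refine ⟨t * (q i).num, ?_⟩
  have h := Rat.mul_den_eq_num (q i)
  rw [ht]
  push_cast
  rw [← h]
  ring

/-- an integral multiple of a vector is in the lattice -/
theorem LevM_mem {V : Type} [AddCommGroup V] [Module ℚ V] {n : ℕ} (e : Module.Basis (Fin n) ℚ V)
    (x : V) (M : ℕ) (h : ∀ i, ∃ z : ℤ, (M : ℚ) * e.repr x i = z) :
    (M : ℚ) • x ∈ Submodule.span ℤ (Set.range e) := by
  choose z hz using h
  have h1 : (M : ℚ) • x = ∑ i, z i • e i := by
    conv_lhs => rw [← e.sum_repr x]
    rw [Finset.smul_sum]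
    refine Finset.sum_congr rfl fun i _ => ?_
    rw [smul_smul, hz i, Int.cast_smul_eq_zsmul]
  rw [h1]
  exact Submodule.sum_mem _ fun i _ => Submodule.smul_mem _ _ (Submodule.subset_span ⟨i, rfl⟩)

theorem thm_LevM : St_LevM := by
  intro K _ _ n e
  classical
  let ω := NumberField.RingOfIntegers.basis K
  obtain ⟨M, hM, hz⟩ := LevM_den
    (fun p : (Module.Free.ChooseBasisIndex ℤ (NumberField.RingOfIntegers K)) × Fin 2 × Fin n =>
      e.repr (if p.2.1 = 0 then ((ω p.1 : K), (0 : K)) else ((0 : K), (ω p.1 : K))) p.2.2)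
  refine ⟨M, hM, fun x => ?_⟩
  have hx : x ∈ Submodule.span ℤ (Set.range ω) := by
    rw [ω.span_eq]
    exact Submodule.mem_top
  induction hx using Submodule.span_induction with
  | mem x hx =>
    obtain ⟨k, rfl⟩ := hx
    refine ⟨?_, ?_⟩
    · have h := LevM_mem e ((ω k : K), (0 : K)) M fun i => by
        have := hz (k, 0, i)
        exact this
      have h1 : (M : ℚ) • (((ω k : NumberField.RingOfIntegers K) : K), (0 : K)) =
          ((M : K) * ((ω k : NumberField.RingOfIntegers K) : K), (0 : K)) := by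
        rw [Prod.smul_mk, smul_zero, Rat.smul_def]
        push_cast
        rfl
      rw [h1] at h
      exact h
    · have h := LevM_mem e ((0 : K), (ω k : K)) M fun i => by
        have := hz (k, 1, i)
        exact this
      have h1 : (M : ℚ) • ((0 : K), ((ω k : NumberField.RingOfIntegers K) : K)) =
          ((0 : K), (M : K) * ((ω k : NumberField.RingOfIntegers K) : K)) := by
        rw [Prod.smul_mk, smul_zero, Rat.smul_def]
        push_cast
        rfl
      rw [h1] at h
      exact h
  | zero =>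
    have h0 : ((0 : NumberField.RingOfIntegers K) : K) = 0 :=
      map_zero (algebraMap (NumberField.RingOfIntegers K) K)
    rw [h0, mul_zero]
    exact ⟨Submodule.zero_mem _, Submodule.zero_mem _⟩
  | add x y _ _ hx hy =>
    have h1 := Submodule.add_mem _ hx.1 hy.1
    have h2 := Submodule.add_mem _ hx.2 hy.2
    rw [Prod.mk_add_mk, add_zero, ← mul_add, ← map_add] at h1 h2
    exact ⟨h1, h2⟩
  | smul z x _ hx =>
    have h1 := Submodule.smul_mem _ z hx.1
    have h2 := Submodule.smul_mem _ z hx.2
    rw [Prod.smul_mk, smul_zero, ← mul_smul_comm, ← map_zsmul] at h1 h2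
    exact ⟨h1, h2⟩

end GAM
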