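import Pool.Agent.GAM.StD
import Pool.Agent.Helper8.Model

/-!
# GAM: frozen statements, exponents of all CM types together, abelian varieties
-/

set_option autoImplicit false

namespace GAM

open scoped ComplexConjugate

/-! ## The function `Ψ` -/

/-- The odd function `1_Φ - 1/2` of a CM type. -/
noncomputable def hfun {S : Type} {K : Type} [Field K] (φ : S → K →+* ℂ) (σ : K →+* ℂ) : ℚ :=
  open Classical in if σ ∈ Set.range φ then 1 / 2 else -1 / 2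

/-- Odd functions. -/
def OddF {K : Type} [Field K] (c : K →+* K) (f : (K →+* ℂ) → ℚ) : Prop :=
  ∀ σ : K →+* ℂ, f (σ.comp c) = -f σ

/-- [Cube] a function on the cube with all square relations is affine -/
def St_Cube : Prop := ∀ (S : Type) [Fintype S] [DecidableEq S] (F : Finset S → ℂ),
  (∀ (J : Finset S) (v w : S), v ≠ w → v ∉ J → w ∉ J →
    F J + F (insert v (insert w J)) = F (insert v J) + F (insert w J)) →
  ∃ q : S → ℂ, ∀ J, F J = F ∅ + ∑ v ∈ J, q v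

/-- [FlipJ] CM types from a given one: every CM type with the same index set is, up to a
permutation of the index set, given by flipping a subset; flipping once more at `v` is
`GAM.flip`. -/
def St_FlipJ : Prop := ∀ (K : Type) [Field K] [NumberField K] (c : K →+* K) (S S' : Type)
  [Fintype S] [DecidableEq S] [Fintype S'] [DecidableEq S'] (φ : S → K →+* ℂ)
  (φ' : S' → K →+* ℂ), CMF K c → CMT K c φ → CMT K c φ' →
  (∀ v, CMT K c (flip c φ v)) ∧
  (∀ J : Finset S, CMT K c (fun s => if s ∈ J then (φ s).comp c else φ s)) ∧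
  ∃ (J : Finset S) (f : S' ≃ S), ∀ s', φ' s' = if f s' ∈ J then (φ (f s')).comp c else φ (f s')

/-- [Base] there are CM types containing a given embedding -/
def St_Base : Prop := ∀ (K : Type) [Field K] [NumberField K] (c : K →+* K), CMF K c →
  ∀ t : K →+* ℂ, ∃ (S : Type) (_ : Fintype S) (_ : DecidableEq S) (φ : S → K →+* ℂ) (u : S),
    CMT K c φ ∧ φ u = t

/-- [PsiK1] the exponents at `t` depend linearly on the CM type -/
def St_PsiK1 : Prop := ∀ (K : Type) [Field K] [NumberField K] (c : K →+* K)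
  (δ : Derivation ℚ ℂ ℂ) (t : K →+* ℂ), CMF K c →
  ∃ Ψ : ((K →+* ℂ) → ℚ) →ₗ[ℚ] ℂ, ∀ (S : Type) [Fintype S] [DecidableEq S] (φ : S → K →+* ℂ)
    (A : S → ℂ) (s : S), CMT K c φ → IsExp δ K φ A → φ s = t →
    A s - δ Real.pi / (2 * Real.pi) = Ψ (hfun φ)

/-- [Spn] the odd functions are spanned by the functions of the CM types containing `t` -/
def St_Spn : Prop := ∀ (K : Type) [Field K] [NumberField K] (c : K →+* K) (t : K →+* ℂ)
  (f : (K →+* ℂ) → ℚ), CMF K c → OddF c f → f ∈ Submodule.span ℚ {h : (K →+* ℂ) → ℚ |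
    ∃ (S : Type) (_ : Fintype S) (_ : DecidableEq S) (φ : S → K →+* ℂ) (s : S),
      CMT K c φ ∧ φ s = t ∧ h = hfun φ}

/-- The function `Ψ` of `δ`. -/
structure IsPsiK (δ : Derivation ℚ ℂ ℂ) (K : Type) [Field K] [NumberField K] (c : K →+* K)
    (Ψ : (K →+* ℂ) → ((K →+* ℂ) → ℚ) →ₗ[ℚ] ℂ) : Prop where
  val : ∀ (S : Type) [Fintype S] [DecidableEq S] (φ : S → K →+* ℂ) (A : S → ℂ) (s : S),
    CMT K c φ → IsExp δ K φ A → A s - δ Real.pi / (2 * Real.pi) = Ψ (φ s) (hfun φ)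
  cj : ∀ (t : K →+* ℂ) (f : (K →+* ℂ) → ℚ), OddF c f → Ψ (t.comp c) f = -Ψ t f
  gal : ∀ (g : K ≃+* K) (t : K →+* ℂ) (f : (K →+* ℂ) → ℚ), OddF c f →
    Ψ (t.comp (g : K →+* K)) f = Ψ t (fun σ => f (σ.comp (g : K →+* K)))

/-- [PsiK] -/
def St_PsiK : Prop := ∀ (K : Type) [Field K] [NumberField K] (c : K →+* K)
  (δ : Derivation ℚ ℂ ℂ), CMF K c → ∃ Ψ, IsPsiK δ K c Ψ

/-- [Iso] CM types with the same exponents (module of Part V) -/
def St_Iso : Prop := ∀ (K : Type) [Field K] [NumberField K] (c : K →+* K) (S : Type)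
  [Fintype S] [DecidableEq S] (φ φ' : S → K →+* ℂ), CMF K c → CMT K c φ → CMT K c φ' →
  (∀ (δ : Derivation ℚ ℂ ℂ) (A A' : S → ℂ), IsExp δ K φ A → IsExp δ K φ' A' →
    ∀ s s' : S, (φ s = φ' s' → A s = A' s') ∧
      (φ s = (φ' s').comp c → A s + A' s' = δ Real.pi / Real.pi)) →
  Set.range φ = Set.range φ'

/-- [MM] for an abelian field the functions `Ψ_t` have no common odd zero -/
def St_MM : Prop := ∀ (K : Type) [Field K] [NumberField K] (c : K →+* K)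
  (Ψ : Derivation ℚ ℂ ℂ → (K →+* ℂ) → ((K →+* ℂ) → ℚ) →ₗ[ℚ] ℂ) (f : (K →+* ℂ) → ℚ),
  CMF K c → IsGalois ℚ K → (∀ g g' : K ≃ₐ[ℚ] K, g * g' = g' * g) → (∀ δ, IsPsiK δ K c (Ψ δ)) →
  OddF c f → (∀ δ t, Ψ δ t f = 0) → f = 0

/-! ## Change of the field -/

/-- [ExpL] exponents and extensions of the field -/
def St_ExpL : Prop := ∀ (K L : Type) [Field K] [NumberField K] [Field L] [NumberField L]
  [Algebra K L] (c : K →+* K) (c' : L →+* L) (S S' : Type) [Fintype S] [DecidableEq S]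
  [Fintype S'] [DecidableEq S'] (φ : S → K →+* ℂ) (φ' : S' → L →+* ℂ) (r : S' → S)
  (δ : Derivation ℚ ℂ ℂ) (A : S → ℂ), CMF K c → CMF L c' → CMT K c φ → CMT L c' φ' →
  (∀ s', (φ' s').comp (algebraMap K L) = φ (r s')) → IsExp δ K φ A →
  IsExp δ L φ' (fun s' => A (r s'))

/-- [Comp] finitely many abelian CM fields are contained in one -/
def St_Comp : Prop := ∀ (I : Type) [Fintype I] [Nonempty I] (K : I → Type)
  [∀ i, Field (K i)] [∀ i, NumberField (K i)], (∀ i, IsGalois ℚ (K i)) →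
  (∀ i, ∀ g g' : K i ≃ₐ[ℚ] K i, g * g' = g' * g) → (∀ i, ∃ c, CMF (K i) c) →
  ∃ (L : Type) (_ : Field L) (_ : NumberField L) (_ : ∀ i, Algebra (K i) L) (c : L →+* L),
    CMF L c ∧ IsGalois ℚ L ∧ ∀ g g' : L ≃ₐ[ℚ] L, g * g' = g' * g

/-- [Bal] Galois closed relations between the exponents of CM types of abelian fields are
balanced -/
def St_Bal : Prop := ∀ (I : Type) [Fintype I] (K : I → Type) [∀ i, Field (K i)]
  [∀ i, NumberField (K i)] (c : ∀ i, K i →+* K i) (S : I → Type) [∀ i, Fintype (S i)]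
  [∀ i, DecidableEq (S i)] (φ : ∀ i, S i → K i →+* ℂ) (A : Derivation ℚ ℂ ℂ → ∀ i, S i → ℂ)
  (z : (Σ i, (K i →+* ℂ)) → ℤ), (∀ i, IsGalois ℚ (K i)) →
  (∀ i, ∀ g g' : K i ≃ₐ[ℚ] K i, g * g' = g' * g) → (∀ i, CMF (K i) (c i)) →
  (∀ i, CMT (K i) (c i) (φ i)) → (∀ δ i, IsExp δ (K i) (φ i) (A δ i)) →
  (∀ i (σ : K i →+* ℂ), z ⟨i, σ.comp (c i)⟩ = -z ⟨i, σ⟩) →
  (∀ (τ : ℂ ≃+* ℂ) (δ : Derivation ℚ ℂ ℂ),
    ∑ i, ∑ s, (z ⟨i, (τ : ℂ →+* ℂ).comp (φ i s)⟩ : ℂ) *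
      (2 * A δ i s - δ Real.pi / Real.pi) = 0) →
  ∑ i, ∑ s, z ⟨i, φ i s⟩ = 0

/-! ## Exponents of abelian varieties -/

open Pool.Agent.GPC (AbVar)

/-- [EulP] rescaling of the coordinates -/
def St_EulP : Prop := ∀ (ι : Type) [Fintype ι] [DecidableEq ι] (δ : Derivation ℚ ℂ ℂ)
  (p : ι → ℂ) (f : (ι → ℂ) → ℂ), (∀ i, p i ≠ 0) → IsDel δ f (fun _ => 0) →
  IsDel δ (fun v => f (fun i => p i * v i))
    (fun v => eul (fun i => δ (p i) / p i) (fun v => f (fun i => p i * v i)) v)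

/-- [AVDel] the normalised theta functions of an abelian variety have algebraic Taylor
coefficients -/
def St_AVDel : Prop := ∀ X : AbVar, ∃ (i₀ : Fin (X.N + 1)) (c : Fin X.g → ℂ), X.θ i₀ 0 ≠ 0 ∧
  ∀ (j : Fin (X.N + 1)) (δ : Derivation ℚ ℂ ℂ),
    IsDel δ (fun z => Complex.exp (-∑ a, c a * z a) * X.θ j z / X.θ i₀ 0) (fun _ => 0)

/-- [AVFac] their factor of automorphy -/
def St_AVFac : Prop := ∀ (X : AbVar) (c : Fin X.g → ℂ) (d : ℂ), ∃ (e : (Fin X.g → ℂ) →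
  (Fin X.g → ℂ) → ℂ) (N : (Fin X.g → ℂ) → ℝ), Fac X.Λ e N ∧
    ∀ j, HasFac X.Λ e (fun z => Complex.exp (-∑ a, c a * z a) * X.θ j z / d)

/-- [AVNz] a linear combination without zeros in a finite set -/
def St_AVNz : Prop := ∀ (X : AbVar) (P : Finset (Fin X.g → ℂ)), ∃ n : Fin (X.N + 1) → ℕ,
  ∀ z ∈ P, ∑ j, (n j : ℂ) * X.θ j z ≠ 0

/-- [AVJac] local coordinates -/
def St_AVJac : Prop := ∀ (X : AbVar) (S : Type) [Fintype S] [DecidableEq S]
  (T : Matrix (Fin X.g) S ℂ) (c : Fin X.g → ℂ) (d : ℂ) (n : Fin (X.N + 1) → ℕ) (v₀ : S → ℂ),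
  d ≠ 0 → (∀ v, T.mulVec v = 0 → v = 0) → ∑ j, (n j : ℂ) * X.θ j (T.mulVec v₀) ≠ 0 →
  ∃ j : S → Fin (X.N + 1), (jac (fun s v => Complex.exp (-∑ a, c a * T.mulVec v a) *
    X.θ (j s) (T.mulVec v) / d)
    (fun _ v => ∑ j, (n j : ℂ) * (Complex.exp (-∑ a, c a * T.mulVec v a) *
      X.θ j (T.mulVec v) / d)) v₀).det ≠ 0

/-- [ExpAV] the logarithmic derivatives of the periods of an abelian variety with complex
multiplication are the exponents -/
def St_ExpAV : Prop := ∀ (X : AbVar) (K : Type) [Field K] [NumberField K] (S : Type) [Fintype S]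
  [DecidableEq S] (φ : S → K →+* ℂ) (T : Matrix (Fin X.g) S ℂ) (p : S → ℂ) (M : ℕ)
  (δ : Derivation ℚ ℂ ℂ), (∀ a s, IsAlgebraic ℚ (T a s)) → (∀ v, T.mulVec v = 0 → v = 0) →
  (∀ s, p s ≠ 0) → M ≠ 0 →
  (∀ x : NumberField.RingOfIntegers K,
    T.mulVec (fun s => p s * φ s ((M : K) * (x : K))) ∈ X.Λ) →
  IsExp δ K φ (fun s => δ (p s) / p s)

end GAM
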