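import Pool.Agent.GAM.StG
import Pool.Agent.GAM.StC
import Pool.Agent.GAM.StD2
import Pool.Agent.GAM.ExpE
import Pool.Agent.GAM.LevM
import Pool.Agent.GAM.Der
import Pool.Agent.Helper8.HomFil

/-!
# GAM: CM types with the same exponents
-/

set_option autoImplicit false
set_option linter.unusedSectionVars false

namespace GAM

open scoped ComplexConjugate
open Pool.Agent.GPC (AbVar hermForm bilForm hom_fil period_rsmul)

section Iso

variable {K : Type} [Field K] [NumberField K] {c : K →+* K} {S : Type} [Fintype S] [DecidableEq S]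

/-- the embedding and the component which belong to a coordinate -/
noncomputable def Iso_em (c : K →+* K) (φ φ' : S → K →+* ℂ) :
    (S × Fin 2) ⊕ (S × Fin 2) → (K →+* ℂ) × Fin 2 :=
  Sum.elim (fun p => (if p.2 = 0 then φ p.1 else φ' p.1, p.2))
    (fun p => ((if p.2 = 0 then φ p.1 else φ' p.1).comp c, p.2))

lemma Iso_cc (hC : CMF K c) (σ : K →+* ℂ) : (σ.comp c).comp c = σ := by
  ext x
  show σ (c (c x)) = σ x
  rw [← hC.cc, ← hC.cc, Complex.conj_conj]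

lemma Iso_bij {φ φ' : S → K →+* ℂ} (h1 : CMT K c φ) (h2 : CMT K c φ') :
    Function.Bijective (Iso_em c φ φ') := by
  have key : ∀ i : Fin 2, CMT K c (fun s => if i = 0 then φ s else φ' s) := by
    intro i
    by_cases hi : i = 0
    · simpa [hi] using h1
    · simpa [hi] using h2
  constructor
  · intro p q h
    have hcomp : ∀ q : (S × Fin 2) ⊕ (S × Fin 2), (Iso_em c φ φ' q).2 =
        (Sum.elim (fun p => p.2) (fun p => p.2) q : Fin 2) := by
      rintro (q | q) <;> rfl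
    rcases p with ⟨s, i⟩ | ⟨s, i⟩ <;> rcases q with ⟨t, j⟩ | ⟨t, j⟩
    · simp only [Iso_em, Sum.elim_inl, Prod.mk.injEq] at h
      obtain ⟨h3, rfl⟩ := h
      have h4 := @(key i).1 (Sum.inl s) (Sum.inl t) h3
      rw [Sum.inl.injEq] at h4
      rw [h4]
    · simp only [Iso_em, Sum.elim_inl, Sum.elim_inr, Prod.mk.injEq] at h
      obtain ⟨h3, rfl⟩ := h
      have h4 := @(key i).1 (Sum.inl s) (Sum.inr t) h3
      exact absurd h4 Sum.inl_ne_inr
    · simp only [Iso_em, Sum.elim_inl, Sum.elim_inr, Prod.mk.injEq] at h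
      obtain ⟨h3, rfl⟩ := h
      have h4 := @(key i).1 (Sum.inr s) (Sum.inl t) h3
      exact absurd h4 Sum.inr_ne_inl
    · simp only [Iso_em, Sum.elim_inr, Prod.mk.injEq] at h
      obtain ⟨h3, rfl⟩ := h
      have h4 := @(key i).1 (Sum.inr s) (Sum.inr t) h3
      rw [Sum.inr.injEq] at h4
      rw [h4]
  · rintro ⟨σ, i⟩
    obtain ⟨q, hq⟩ := (key i).2 σ
    rcases q with s | s
    · exact ⟨Sum.inl (s, i), Prod.ext hq rfl⟩
    · exact ⟨Sum.inr (s, i), Prod.ext hq rfl⟩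

/-- component of an element of `K × K` -/
def Iso_co (x : K × K) (i : Fin 2) : K := if i = 0 then x.1 else x.2

lemma Iso_co_swap (x : K × K) (i : Fin 2) : Iso_co x.swap i = Iso_co x (i + 1) := by
  fin_cases i <;> rfl

lemma Iso_coor (r : S × Fin 2 → ℝ) (φ φ' : S → K →+* ℂ) (x : K × K) (p : S × Fin 2) :
    coor r φ φ' x p = r p * (if p.2 = 0 then φ p.1 else φ' p.1) (Iso_co x p.2) := by
  unfold coor Iso_co
  split_ifs <;> rfl

/-- the periods -/
noncomputable def Iso_P (μ : S × Fin 2 → ℂ) (r : S × Fin 2 → ℝ) :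
    (S × Fin 2) ⊕ (S × Fin 2) → ℂ :=
  Sum.elim (fun p => μ p * r p)
    (fun p => Real.pi * ((‖μ p‖ ^ 2 : ℝ) : ℂ)⁻¹ * conj (μ p) * r p)

lemma Iso_P_inr {μ : S × Fin 2 → ℂ} (hμ : ∀ a, μ a ≠ 0) (r : S × Fin 2 → ℝ) (p : S × Fin 2) :
    Iso_P μ r (Sum.inr p) = Real.pi * r p / μ p := by
  unfold Iso_P
  rw [Sum.elim_inr]
  have h1 : ((‖μ p‖ ^ 2 : ℝ) : ℂ) = μ p * conj (μ p) := by
    rw [Complex.mul_conj']; push_cast; rfl
  have h2 : conj (μ p) ≠ 0 := (map_ne_zero _).mpr (hμ p)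
  have h3 := hμ p
  rw [h1]
  field_simp

lemma Iso_P_ne {μ : S × Fin 2 → ℂ} (hμ : ∀ a, μ a ≠ 0) {r : S × Fin 2 → ℝ} (hr : ∀ p, 0 < r p)
    (q : (S × Fin 2) ⊕ (S × Fin 2)) : Iso_P μ r q ≠ 0 := by
  rcases q with p | p
  · exact mul_ne_zero (hμ p) (Complex.ofReal_ne_zero.mpr (hr p).ne')
  · rw [Iso_P_inr hμ]
    exact div_ne_zero (mul_ne_zero (Complex.ofReal_ne_zero.mpr Real.pi_ne_zero)
      (Complex.ofReal_ne_zero.mpr (hr p).ne')) (hμ p)

/-- the period vector of an element of `K × K` -/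
noncomputable def Iso_per (c : K →+* K) (φ φ' : S → K →+* ℂ) (μ : S × Fin 2 → ℂ)
    (r : S × Fin 2 → ℝ) (x : K × K) (q : (S × Fin 2) ⊕ (S × Fin 2)) : ℂ :=
  Iso_P μ r q * (Iso_em c φ φ' q).1 (Iso_co x (Iso_em c φ φ' q).2)

lemma Iso_per_smul (φ φ' : S → K →+* ℂ) (μ : S × Fin 2 → ℂ)
    (r : S × Fin 2 → ℝ) (a : ℚ) (x : K × K) (q : (S × Fin 2) ⊕ (S × Fin 2)) :
    Iso_per c φ φ' μ r (a • x) q = a * Iso_per c φ φ' μ r x q := by
  unfold Iso_per
  have h1 : Iso_co (a • x) (Iso_em c φ φ' q).2 = (a : K) * Iso_co x (Iso_em c φ φ' q).2 := by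
    unfold Iso_co
    split_ifs
    · rw [Prod.smul_fst, Rat.smul_def]
    · rw [Prod.smul_snd, Rat.smul_def]
  rw [h1, map_mul, map_ratCast]
  ring

lemma Iso_period (hC : CMF K c) {φ φ' : S → K →+* ℂ} (X : AbVar) (e : Fin X.g ≃ S × Fin 2)
    {μ : S × Fin 2 → ℂ} (r : S × Fin 2 → ℝ)
    (hH : X.H = Matrix.diagonal fun j => ((‖μ (e j)‖ ^ 2 : ℝ) : ℂ)⁻¹) (hq : X.q = 0) (x : K × K) :
    X.period (fun j => μ (e j) * coor r φ φ' x (e j)) =
      fun q => Iso_per c φ φ' μ r x (Sum.map e e q) := by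
  funext q
  rcases q with j | j
  · show μ (e j) * coor r φ φ' x (e j) = Iso_per c φ φ' μ r x (Sum.inl (e j))
    unfold Iso_per Iso_P Iso_em
    rw [Iso_coor, Sum.elim_inl, Sum.elim_inl]
    ring
  · show X.eta _ j = Iso_per c φ φ' μ r x (Sum.inr (e j))
    unfold AbVar.eta
    rw [Pool.Agent.Helper7.hermForm_single, Pool.Agent.Helper7.bilForm_single, hq, hH]
    simp only [Matrix.zero_apply, zero_mul, Finset.sum_const_zero, add_zero]
    rw [Finset.sum_eq_single j]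
    · rw [Matrix.diagonal_apply_eq, map_mul, Iso_coor, map_mul, Complex.conj_ofReal, hC.cc]
      unfold Iso_per Iso_P Iso_em
      rw [Sum.elim_inr, Sum.elim_inr]
      show _ = _ * (if (e j).2 = 0 then φ (e j).1 else φ' (e j).1) (c (Iso_co x (e j).2))
      ring
    · intro b _ hb
      rw [Matrix.diagonal_apply_ne' _ hb, zero_mul]
    · intro h; exact absurd (Finset.mem_univ _) h

variable {n : ℕ} {e₀ : Module.Basis (Fin n) ℚ (K × K)} {L : Submodule ℤ (S × Fin 2 → ℂ)}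
  {r : S × Fin 2 → ℝ} {φ φ' : S → K →+* ℂ}

lemma Iso_coor_smul (a : ℕ) (x : K × K) (p : S × Fin 2) :
    coor r φ φ' ((a : ℚ) • x) p = a * coor r φ φ' x p := by
  rw [Iso_coor, Iso_coor]
  have h1 : Iso_co ((a : ℚ) • x) p.2 = (a : K) * Iso_co x p.2 := by
    unfold Iso_co
    split_ifs
    · rw [Prod.smul_fst, Rat.smul_def]; push_cast; rfl
    · rw [Prod.smul_snd, Rat.smul_def]; push_cast; rfl
  rw [h1, map_mul, map_natCast]
  ring

lemma Iso_betti (hC : CMF K c) (hL : ∀ v, v ∈ L ↔ ∃ x ∈ Submodule.span ℤ (Set.range e₀),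
      coor r φ φ' x = v) {A : Derivation ℚ ℂ ℂ → S × Fin 2 → ℂ} {X : AbVar}
    {e : Fin X.g ≃ S × Fin 2} {μ : S × Fin 2 → ℂ} {N : ℕ} (hX : AbOf L A X e μ N) (v : X.H1) :
    X.IsBetti v ↔ ∃ x : K × K, v = fun q => Iso_per c φ φ' μ r x (Sum.map e e q) := by
  have hNC : (N : ℂ) ≠ 0 := Nat.cast_ne_zero.mpr hX.pos
  constructor
  · rintro ⟨M, hM, l, hl, hMl⟩
    have hMC : (M : ℂ) ≠ 0 := Nat.cast_ne_zero.mpr hM
    obtain ⟨l₀, hl₀, hl₁⟩ := (hX.lat l).mp hl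
    obtain ⟨x₀, -, rfl⟩ := (hL l₀).mp hl₀
    have h1 : l = fun j => μ (e j) * coor r φ φ' ((N : ℚ) • x₀) (e j) := by
      funext j
      rw [hl₁, Iso_coor_smul]
    rw [h1, Iso_period hC X e r hX.herm hX.q] at hMl
    refine ⟨((N : ℚ) / M) • x₀, ?_⟩
    funext q
    have h2 := congrFun hMl q
    rw [Pi.smul_apply, smul_eq_mul, Iso_per_smul] at h2
    rw [Iso_per_smul]
    push_cast at h2 ⊢
    field_simp
    linear_combination h2
  · rintro ⟨x, rfl⟩
    obtain ⟨D, hD, hD1⟩ := LevM_den fun i => e₀.repr x i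
    have hD2 := LevM_mem e₀ x D hD1
    refine ⟨N * D, mul_ne_zero hX.pos hD,
      fun j => μ (e j) * coor r φ φ' ((N : ℚ) • ((D : ℚ) • x)) (e j), ?_, ?_⟩
    · rw [hX.lat]
      refine ⟨coor r φ φ' ((D : ℚ) • x), (hL _).mpr ⟨_, hD2, rfl⟩, fun j => ?_⟩
      rw [Iso_coor_smul]
    · rw [Iso_period hC X e r hX.herm hX.q]
      funext q
      rw [Pi.smul_apply, smul_eq_mul, Iso_per_smul, Iso_per_smul]
      push_cast
      ring

/-- logarithmic derivatives of the periods -/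
noncomputable def Iso_B (δ : Derivation ℚ ℂ ℂ) (A : S × Fin 2 → ℂ) :
    (S × Fin 2) ⊕ (S × Fin 2) → ℂ :=
  Sum.elim A (fun p => δ Real.pi / Real.pi - A p)

lemma Iso_B_spec {A : Derivation ℚ ℂ ℂ → S × Fin 2 → ℂ} {μ : S × Fin 2 → ℂ}
    (hμ : ∀ a, μ a ≠ 0) (hA : ∀ δ a, δ (μ a) = A δ a * μ a)
    (hr : ∀ p, IsAlgebraic ℚ ((r p : ℝ) : ℂ)) (δ : Derivation ℚ ℂ ℂ)
    (q : (S × Fin 2) ⊕ (S × Fin 2)) :
    δ (Iso_P μ r q) = Iso_B δ (A δ) q * Iso_P μ r q := by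
  have hr0 : ∀ p, δ ((r p : ℝ) : ℂ) = 0 := fun p => (thm_Der _).mp (hr p) δ
  rcases q with p | p
  · show δ (μ p * r p) = A δ p * (μ p * r p)
    rw [Derivation.leibniz, hr0, hA, smul_eq_mul, smul_eq_mul]
    ring
  · have h1 : Iso_P μ r (Sum.inr p) * μ p = Real.pi * r p := by
      rw [Iso_P_inr hμ]
      have := hμ p
      field_simp
    have h2 := congrArg δ h1
    rw [Derivation.leibniz, Derivation.leibniz, hr0, hA, smul_eq_mul, smul_eq_mul, smul_eq_mul,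
      smul_eq_mul, mul_zero, zero_add] at h2
    have h3 : (Real.pi : ℂ) ≠ 0 := Complex.ofReal_ne_zero.mpr Real.pi_ne_zero
    show _ = (δ Real.pi / Real.pi - A δ p) * Iso_P μ r (Sum.inr p)
    apply mul_right_cancel₀ (hμ p)
    have h4 : (δ Real.pi / Real.pi - A δ p) * Iso_P μ r (Sum.inr p) * μ p =
        r p * δ Real.pi - A δ p * (Iso_P μ r (Sum.inr p) * μ p) := by
      rw [sub_mul, sub_mul, mul_assoc _ _ (μ p), mul_assoc _ _ (μ p), h1]
      field_simp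
    rw [h4]
    linear_combination h2

/-- the partner of a coordinate -/
noncomputable def Iso_pi (h1 : CMT K c φ) (h2 : CMT K c φ') (q : (S × Fin 2) ⊕ (S × Fin 2)) :
    (S × Fin 2) ⊕ (S × Fin 2) :=
  (Equiv.ofBijective _ (Iso_bij h1 h2)).symm ((Iso_em c φ φ' q).1, (Iso_em c φ φ' q).2 + 1)

lemma Iso_em_pi (h1 : CMT K c φ) (h2 : CMT K c φ') (q : (S × Fin 2) ⊕ (S × Fin 2)) :
    Iso_em c φ φ' (Iso_pi h1 h2 q) = ((Iso_em c φ φ' q).1, (Iso_em c φ φ' q).2 + 1) :=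
  Equiv.ofBijective_apply_symm_apply _ (Iso_bij h1 h2) _

lemma Iso_B_eq₀ (hC : CMF K c) {δ : Derivation ℚ ℂ ℂ} {A : S × Fin 2 → ℂ}
    (hA : ∀ s s' : S, (φ s = φ' s' → A (s, 0) = A (s', 1)) ∧
      (φ s = (φ' s').comp c → A (s, 0) + A (s', 1) = δ Real.pi / Real.pi))
    (q q' : (S × Fin 2) ⊕ (S × Fin 2)) (h : (Iso_em c φ φ' q).1 = (Iso_em c φ φ' q').1)
    (h0 : (Iso_em c φ φ' q).2 = 0) (h1 : (Iso_em c φ φ' q').2 = 1) :
    Iso_B δ A q = Iso_B δ A q' := by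
  rcases q with ⟨s, i⟩ | ⟨s, i⟩ <;> rcases q' with ⟨t, j⟩ | ⟨t, j⟩
  · obtain rfl : i = 0 := h0
    obtain rfl : j = 1 := h1
    exact (hA s t).1 h
  · obtain rfl : i = 0 := h0
    obtain rfl : j = 1 := h1
    have h2 := (hA s t).2 h
    show A (s, 0) = δ Real.pi / Real.pi - A (t, 1)
    rw [← h2]; ring
  · obtain rfl : i = 0 := h0
    obtain rfl : j = 1 := h1
    have h3 : (φ s).comp c = φ' t := h
    have h2 := (hA s t).2 (by rw [← h3, Iso_cc hC])
    show δ Real.pi / Real.pi - A (s, 0) = A (t, 1)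
    rw [← h2]; ring
  · obtain rfl : i = 0 := h0
    obtain rfl : j = 1 := h1
    have h3 : (φ s).comp c = (φ' t).comp c := h
    have h4 : φ s = φ' t := by rw [← Iso_cc hC (φ s), h3, Iso_cc hC]
    show δ Real.pi / Real.pi - A (s, 0) = δ Real.pi / Real.pi - A (t, 1)
    rw [(hA s t).1 h4]

lemma Iso_B_eq (hC : CMF K c) (h1 : CMT K c φ) (h2 : CMT K c φ') {δ : Derivation ℚ ℂ ℂ}
    {A : S × Fin 2 → ℂ}
    (hA : ∀ s s' : S, (φ s = φ' s' → A (s, 0) = A (s', 1)) ∧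
      (φ s = (φ' s').comp c → A (s, 0) + A (s', 1) = δ Real.pi / Real.pi))
    (q : (S × Fin 2) ⊕ (S × Fin 2)) : Iso_B δ A q = Iso_B δ A (Iso_pi h1 h2 q) := by
  have h3 := Iso_em_pi h1 h2 q
  have h4 : (Iso_em c φ φ' q).2 = 0 ∨ (Iso_em c φ φ' q).2 = 1 := by
    generalize (Iso_em c φ φ' q).2 = i
    fin_cases i
    · left; rfl
    · right; rfl
  rcases h4 with h4 | h4
  · exact Iso_B_eq₀ hC hA _ _ (by rw [h3]) h4 (by rw [h3, h4]; rfl)
  · exact (Iso_B_eq₀ hC hA _ _ (by rw [h3]) (by rw [h3, h4]; rfl) h4).symm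

lemma Iso_alg (hC : CMF K c) (h1 : CMT K c φ) (h2 : CMT K c φ')
    {A : Derivation ℚ ℂ ℂ → S × Fin 2 → ℂ} {μ : S × Fin 2 → ℂ}
    (hμ : ∀ a, μ a ≠ 0) (hA : ∀ δ a, δ (μ a) = A δ a * μ a) (hr0 : ∀ p, 0 < r p)
    (hr : ∀ p, IsAlgebraic ℚ ((r p : ℝ) : ℂ))
    (hR : ∀ (δ : Derivation ℚ ℂ ℂ) (s s' : S), (φ s = φ' s' → A δ (s, 0) = A δ (s', 1)) ∧
      (φ s = (φ' s').comp c → A δ (s, 0) + A δ (s', 1) = δ Real.pi / Real.pi))
    (q : (S × Fin 2) ⊕ (S × Fin 2)) :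
    IsAlgebraic ℚ (Iso_P μ r q / Iso_P μ r (Iso_pi h1 h2 q)) := by
  rw [thm_Der]
  intro δ
  have h3 := Iso_P_ne hμ hr0 (Iso_pi h1 h2 q)
  have h4 : Iso_P μ r q = (Iso_P μ r q / Iso_P μ r (Iso_pi h1 h2 q)) *
      Iso_P μ r (Iso_pi h1 h2 q) := by field_simp
  have h5 := congrArg δ h4
  rw [Derivation.leibniz, smul_eq_mul, smul_eq_mul, Iso_B_spec hμ hA hr,
    Iso_B_spec hμ hA hr, ← Iso_B_eq hC h1 h2 (hR δ) q] at h5
  have h6 : Iso_P μ r (Iso_pi h1 h2 q) * δ (Iso_P μ r q / Iso_P μ r (Iso_pi h1 h2 q)) = 0 := by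
    have h7 : (Iso_P μ r q / Iso_P μ r (Iso_pi h1 h2 q)) * (Iso_B δ (A δ) q *
      Iso_P μ r (Iso_pi h1 h2 q)) = Iso_B δ (A δ) q * Iso_P μ r q := by field_simp
    rw [h7] at h5
    linear_combination -h5
  exact (mul_eq_zero.mp h6).resolve_left h3

/-- the map of the homology which exchanges the components respects the Hodge filtration -/
lemma Iso_contra (hC : CMF K c) (h1 : CMT K c φ) (h2 : CMT K c φ')
    (hL : ∀ v, v ∈ L ↔ ∃ x ∈ Submodule.span ℤ (Set.range e₀), coor r φ φ' x = v)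
    {A : Derivation ℚ ℂ ℂ → S × Fin 2 → ℂ} {X : AbVar} {e : Fin X.g ≃ S × Fin 2}
    {μ : S × Fin 2 → ℂ} {N : ℕ} (hX : AbOf L A X e μ N) (hr0 : ∀ p, 0 < r p)
    (hr : ∀ p, IsAlgebraic ℚ ((r p : ℝ) : ℂ))
    (hR : ∀ (δ : Derivation ℚ ℂ ℂ) (s s' : S), (φ s = φ' s' → A δ (s, 0) = A δ (s', 1)) ∧
      (φ s = (φ' s').comp c → A δ (s, 0) + A δ (s', 1) = δ Real.pi / Real.pi))
    (s s' : S) (h : φ' s' = (φ s).comp c) : False := by
  let Q : Fin X.g ⊕ Fin X.g ≃ (S × Fin 2) ⊕ (S × Fin 2) := Equiv.sumCongr e e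
  let π' : (S × Fin 2) ⊕ (S × Fin 2) → (S × Fin 2) ⊕ (S × Fin 2) := Iso_pi h1 h2
  let f : X.H1 → X.H1 := fun v q => Iso_P μ r (Q q) / Iso_P μ r (π' (Q q)) * v (Q.symm (π' (Q q)))
  have hlin : IsLinearMap ℂ f :=
    ⟨fun v w => by funext q; simp only [f, Pi.add_apply]; ring,
      fun a v => by funext q; simp only [f, Pi.smul_apply, smul_eq_mul]; ring⟩
  have hper : ∀ x : K × K, f (fun q => Iso_per c φ φ' μ r x (Sum.map e e q)) =
      fun q => Iso_per c φ φ' μ r x.swap (Sum.map e e q) := by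
    intro x
    funext q
    show Iso_P μ r (Q q) / Iso_P μ r (π' (Q q)) *
      Iso_per c φ φ' μ r x (Q (Q.symm (π' (Q q)))) = Iso_per c φ φ' μ r x.swap (Q q)
    rw [Equiv.apply_symm_apply]
    unfold Iso_per
    have h3 := Iso_P_ne hX.ne hr0 (π' (Q q))
    rw [Iso_em_pi, Iso_co_swap]
    field_simp
  have hb : ∀ v, X.IsBetti v → X.IsBetti (f v) := by
    intro v hv
    obtain ⟨x, rfl⟩ := (Iso_betti hC hL hX v).mp hv
    rw [hper]
    exact (Iso_betti hC hL hX _).mpr ⟨x.swap, rfl⟩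
  have hd : ∀ v, X.IsDeRham v → X.IsDeRham (f v) := by
    intro v hv q
    exact (Iso_alg hC h1 h2 hX.ne hX.exp hr0 hr hR (Q q)).mul (hv _)
  have hF := hom_fil X X f hlin hb hd
  have hpi : π' (Sum.inl (s', 1)) = Sum.inr (s, 0) := by
    apply (Iso_bij h1 h2).1
    rw [Iso_em_pi]
    refine Prod.ext h ?_
    show (1 : Fin 2) + 1 = 0
    rfl
  have h3 := hF (Pi.single (Q.symm (Sum.inr (s, 0))) 1) (fun a => by
    apply Pi.single_eq_of_ne
    intro h4
    have h5 := congrArg Q h4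
    rw [Equiv.apply_symm_apply] at h5
    have h6 : Q (Sum.inl a) = Sum.inl (e a) := rfl
    rw [h6] at h5
    exact Sum.inl_ne_inr h5) (e.symm (s', 1))
  have h4 : Q (Sum.inl (e.symm (s', 1))) = Sum.inl (s', 1) := by
    show Sum.inl (e (e.symm (s', 1))) = _
    rw [Equiv.apply_symm_apply]
  have h5 : f (Pi.single (Q.symm (Sum.inr (s, 0))) 1) (Sum.inl (e.symm (s', 1))) =
      Iso_P μ r (Sum.inl (s', 1)) / Iso_P μ r (Sum.inr (s, 0)) := by
    show Iso_P μ r (Q (Sum.inl (e.symm (s', 1)))) / Iso_P μ r (π' (Q (Sum.inl (e.symm (s', 1))))) *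
      (Pi.single (Q.symm (Sum.inr (s, 0))) 1 : X.H1) (Q.symm (π' (Q (Sum.inl (e.symm (s', 1)))))) = _
    rw [h4, hpi, Pi.single_eq_same, mul_one]
  rw [h5] at h3
  exact div_ne_zero (Iso_P_ne hX.ne hr0 _) (Iso_P_ne hX.ne hr0 _) h3

lemma Iso_range (h1 : CMT K c φ) (h2 : CMT K c φ')
    (h : ∀ s s', φ' s' ≠ (φ s).comp c) : Set.range φ = Set.range φ' := by
  have hsub : ∀ s', ∃ s, φ s = φ' s' := by
    intro s'
    obtain ⟨q, hq⟩ := h1.2 (φ' s')
    rcases q with s | s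
    · exact ⟨s, hq⟩
    · exact absurd hq.symm (h s s')
  choose g hg using hsub
  have hinj' : Function.Injective φ' := fun a b hab =>
    Sum.inl_injective (h2.1 (show Sum.elim φ' _ (Sum.inl a) = Sum.elim φ' _ (Sum.inl b) from hab))
  have hginj : Function.Injective g := fun a b hab => hinj' (by rw [← hg a, ← hg b, hab])
  have hgsurj : Function.Surjective g := Finite.surjective_of_injective hginj
  ext σ
  constructor
  · rintro ⟨s, rfl⟩
    obtain ⟨s', rfl⟩ := hgsurj s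
    exact ⟨s', (hg s').symm⟩
  · rintro ⟨s', rfl⟩
    exact ⟨g s', hg s'⟩

end Iso

theorem thm_Iso (h1 : St_Sgn) (h2 : St_LatK) (h3 : St_TorK) (h4 : St_ThEx) (h5 : St_CM)
    (h6 : St_ExpT) (h7 : St_AbV) : St_Iso := by
  classical
  intro K _ _ c S _ _ φ φ' hC hT hT' hrel
  obtain ⟨ζ, hζ, hs⟩ := (h1 K c S φ hC hT).2.1 fun _ => false
  obtain ⟨ζ', hζ', hs'⟩ := (h1 K c S φ' hC hT').2.1 fun _ => false
  have hre : ∀ s, (φ s ζ).re = 0 := fun s => (hs s).1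
  have him : ∀ s, (φ s ζ).im < 0 := fun s => by simpa using (hs s).2
  have hre' : ∀ s, (φ' s ζ').re = 0 := fun s => (hs' s).1
  have him' : ∀ s, (φ' s ζ').im < 0 := fun s => by simpa using (hs' s).2
  have hS : Nonempty S := by
    obtain ⟨σ⟩ : Nonempty (K →+* ℂ) := inferInstance
    obtain ⟨s, -⟩ := hT.2 σ
    rcases s with s | s
    · exact ⟨s⟩
    · exact ⟨s⟩
  have hζ0 : ζ ≠ 0 := by
    rintro rfl
    obtain ⟨s⟩ := hS
    have := him s
    rw [map_zero] at this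
    simp at this
  have hζ0' : ζ' ≠ 0 := by
    rintro rfl
    obtain ⟨s⟩ := hS
    have := him' s
    rw [map_zero] at this
    simp at this
  obtain ⟨n, e₀, χ, p1, p2, p3, p4⟩ := h2 K c ζ ζ' hC hζ hζ' hζ0 hζ0'
  let r : S × Fin 2 → ℝ := fun p =>
    if p.2 = 0 then Real.sqrt (-2 * (φ p.1 ζ).im) else Real.sqrt (-2 * (φ' p.1 ζ').im)
  have hr0 : ∀ p, 0 < r p := by
    intro p
    simp only [r]
    split_ifs
    · exact Real.sqrt_pos.mpr (by linarith [him p.1])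
    · exact Real.sqrt_pos.mpr (by linarith [him' p.1])
  have hr : ∀ p, IsAlgebraic ℚ ((r p : ℝ) : ℂ) := by
    intro p
    simp only [r]
    split_ifs
    · exact ExpE_algr (ExpE_alg (φ p.1) ζ) (hre p.1) (him p.1)
    · exact ExpE_algr (ExpE_alg (φ' p.1) ζ') (hre' p.1) (him' p.1)
  have hr1 : ∀ s, r (s, 0) ^ 2 = -2 * (φ s ζ).im := fun s => by
    simp only [r, if_pos]
    exact Real.sq_sqrt (by linarith [him s])
  have hr2 : ∀ s, r (s, 1) ^ 2 = -2 * (φ' s ζ').im := fun s => by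
    have h8 : ((s, 1) : S × Fin 2).2 ≠ 0 := by simp
    simp only [r, if_neg h8]
    exact Real.sq_sqrt (by linarith [him' s])
  obtain ⟨L, χ', s, hP, hL, -, hCM⟩ := h3 K c S φ φ' ζ ζ' n e₀ χ hC hT hT' hζ hζ' him him' p1 p2
    p3 p4 r hr0 hr1 hr2
  obtain ⟨θ, hTh, hne⟩ := h4 (S × Fin 2) L χ' hP
  have h5' := fun δ => h5 (S × Fin 2) δ L χ' θ s hP hTh hne hCM
  choose A k hE using h5'
  obtain ⟨X, e, μ, N, hX⟩ := h7 (S × Fin 2) L χ' θ A k hP hTh hne hE
  obtain ⟨M, hM, hMe⟩ := thm_LevM K n e₀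
  have hexp1 : ∀ δ, IsExp δ K φ fun s => A δ (s, 0) := by
    intro δ
    refine h6 K c S (S × Fin 2) φ δ L χ' θ (A δ) (k δ) (fun s => (s, 0)) (fun s => r (s, 0)) M hC
      hT hP hTh hne (hE δ) (fun a b h => congrArg Prod.fst h) (fun s => hr0 (s, 0))
      (fun s => hr (s, 0)) hM ?_
    intro x
    rw [hL]
    refine ⟨_, (hMe x).1, ?_⟩
    funext p
    obtain ⟨t, i⟩ := p
    rw [Finset.sum_apply]
    by_cases hi : i = 0
    · subst hi
      rw [Finset.sum_eq_single t]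
      · rw [Pi.single_eq_same]
        simp only [coor, if_true]
      · intro b _ hb
        exact Pi.single_eq_of_ne (fun h => hb (congrArg Prod.fst h).symm) _
      · intro h
        exact absurd (Finset.mem_univ _) h
    · simp only [coor]
      rw [if_neg hi, map_zero, mul_zero]
      symm
      refine Finset.sum_eq_zero fun b _ => ?_
      exact Pi.single_eq_of_ne (fun h => hi (congrArg Prod.snd h)) _
  have hexp2 : ∀ δ, IsExp δ K φ' fun s => A δ (s, 1) := by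
    intro δ
    refine h6 K c S (S × Fin 2) φ' δ L χ' θ (A δ) (k δ) (fun s => (s, 1)) (fun s => r (s, 1)) M hC
      hT' hP hTh hne (hE δ) (fun a b h => congrArg Prod.fst h) (fun s => hr0 (s, 1))
      (fun s => hr (s, 1)) hM ?_
    intro x
    rw [hL]
    refine ⟨_, (hMe x).2, ?_⟩
    funext p
    obtain ⟨t, i⟩ := p
    rw [Finset.sum_apply]
    by_cases hi : i = 1
    · subst hi
      rw [Finset.sum_eq_single t]
      · rw [Pi.single_eq_same]
        simp only [coor]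
        rw [if_neg (by simp)]
      · intro b _ hb
        exact Pi.single_eq_of_ne (fun h => hb (congrArg Prod.fst h).symm) _
      · intro h
        exact absurd (Finset.mem_univ _) h
    · have hi0 : i = 0 := by
        fin_cases i
        · rfl
        · exact absurd rfl hi
      simp only [coor]
      rw [if_pos hi0, map_zero, mul_zero]
      symm
      refine Finset.sum_eq_zero fun b _ => ?_
      exact Pi.single_eq_of_ne (fun h => hi (congrArg Prod.snd h)) _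
  refine Iso_range hT hT' fun t t' h => ?_
  exact Iso_contra hC hT hT' hL hX hr0 hr (fun δ s s' =>
    hrel δ _ _ (hexp1 δ) (hexp2 δ) s s') t t' h

end GAM
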