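import Pool.Agent.GAM.StD2

/-!
# GAM: `latK` is a lattice
-/

set_option autoImplicit false

namespace GAM

theorem thm_LatB (h1 : St_BasK) : St_LatB := by
  intro K _ _ c S _ _ φ hc hφ M hM
  let κ := Module.Free.ChooseBasisIndex ℤ (NumberField.RingOfIntegers K)
  obtain ⟨hcard, hli, hsp⟩ := h1 K c S φ hc hφ κ (NumberField.integralBasis K)
  let b : Module.Basis κ ℝ (S → ℂ) := Module.Basis.mk hli hsp.ge
  have hb : ∀ i s, b i s = φ s (NumberField.integralBasis K i) := by
    intro i s
    rw [show b i = _ from Module.Basis.mk_apply hli hsp.ge i]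
  have hM' : (M : ℝ) ≠ 0 := by exact_mod_cast hM
  let b' : Module.Basis κ ℝ (S → ℂ) := b.isUnitSMul (w := fun _ => (M : ℝ))
    (fun _ => isUnit_iff_ne_zero.2 hM')
  have hb' : ∀ i, b' i = (M : ℝ) • b i := fun i => Module.Basis.isUnitSMul_apply _ i
  have hcard' : Fintype.card κ = Fintype.card (S ⊕ S) := by
    rw [hcard, Fintype.card_sum, two_mul]
  let e : κ ≃ S ⊕ S := Fintype.equivOfCardEq hcard'
  refine ⟨b'.reindex e, ?_⟩
  rw [Module.Basis.range_reindex]
  -- the linear map
  let ℓ : NumberField.RingOfIntegers K →ₗ[ℤ] (S → ℂ) :=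
    AddMonoidHom.toIntLinearMap
      { toFun := fun x s => φ s ((M : K) * (x : K))
        map_zero' := by
          funext s
          simp
        map_add' := by
          intro x y
          funext s
          simp [mul_add] }
  have hℓ : ∀ x s, ℓ x s = φ s ((M : K) * (x : K)) := fun _ _ => rfl
  have e1 : latK K φ M = Submodule.span ℤ (Set.range ℓ) := rfl
  have e2 : Submodule.span ℤ (Set.range ℓ) = Submodule.map ℓ ⊤ := by
    rw [Submodule.map_top]
    have : (Set.range ℓ) = ((LinearMap.range ℓ : Submodule ℤ (S → ℂ)) : Set (S → ℂ)) := rfl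
    rw [this, Submodule.span_eq]
  rw [e1, e2, ← (NumberField.RingOfIntegers.basis K).span_eq, Submodule.map_span]
  congr 1
  rw [← Set.range_comp]
  congr 1
  funext i
  funext s
  rw [Function.comp_apply, hℓ, hb', Pi.smul_apply, hb, map_mul, map_natCast,
    NumberField.integralBasis_apply, Complex.real_smul]
  push_cast
  rfl

end GAM
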