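import Pool.Agent.GAM.StD2

/-!
# GAM: unimodular lattices in `K × K`
-/

set_option autoImplicit false

namespace GAM

open scoped ComplexConjugate

theorem LatK_cc {K : Type} [Field K] [NumberField K] {c : K →+* K} (h : CMF K c) (x : K) :
    c (c x) = x := by
  obtain ⟨σ⟩ := (inferInstance : Nonempty (K →+* ℂ))
  refine σ.injective ?_
  rw [← h.cc, ← h.cc, Complex.conj_conj]

/-- the involution as an automorphism over `ℚ` -/
noncomputable def LatK_eq {K : Type} [Field K] [NumberField K] {c : K →+* K} (h : CMF K c) :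
    K ≃ₐ[ℚ] K :=
  AlgEquiv.ofAlgHom c.toRatAlgHom c.toRatAlgHom
    (AlgHom.ext fun x => LatK_cc h x) (AlgHom.ext fun x => LatK_cc h x)

theorem LatK_tr {K : Type} [Field K] [NumberField K] {c : K →+* K} (h : CMF K c) (x : K) :
    Algebra.trace ℚ K (c x) = Algebra.trace ℚ K x :=
  Algebra.trace_eq_of_algEquiv (LatK_eq h) x

/-- the trace form -/
noncomputable def LatK_B {K : Type} [Field K] [NumberField K] (c : K →+* K) (ζ₁ ζ₂ : K) :
    (K × K) →ₗ[ℚ] (K × K) →ₗ[ℚ] ℚ :=
  LinearMap.mk₂ ℚ (fun x y => Algebra.trace ℚ K (ζ₁ * (x.1 * c y.1) + ζ₂ * (x.2 * c y.2)))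
    (fun x x' y => by
      rw [← map_add]
      refine congrArg _ ?_
      simp only [Prod.fst_add, Prod.snd_add]
      ring)
    (fun r x y => by
      show _ = r • Algebra.trace ℚ K (ζ₁ * (x.1 * c y.1) + ζ₂ * (x.2 * c y.2))
      rw [← map_smul]
      refine congrArg _ ?_
      rw [Prod.smul_fst, Prod.smul_snd]
      simp only [Algebra.smul_def]
      ring)
    (fun x y y' => by
      rw [← map_add]
      refine congrArg _ ?_
      simp only [Prod.fst_add, Prod.snd_add, map_add]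
      ring)
    (fun r x y => by
      show _ = r • Algebra.trace ℚ K (ζ₁ * (x.1 * c y.1) + ζ₂ * (x.2 * c y.2))
      rw [← map_smul]
      refine congrArg _ ?_
      rw [Prod.smul_fst, Prod.smul_snd, map_rat_smul, map_rat_smul]
      simp only [Algebra.smul_def]
      ring)

theorem LatK_B_apply {K : Type} [Field K] [NumberField K] (c : K →+* K) (ζ₁ ζ₂ : K)
    (x y : K × K) : LatK_B c ζ₁ ζ₂ x y =
      Algebra.trace ℚ K (ζ₁ * (x.1 * c y.1) + ζ₂ * (x.2 * c y.2)) :=
  rfl

theorem LatK_nd {K : Type} [Field K] [NumberField K] {x : K}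
    (h : ∀ y, Algebra.trace ℚ K (x * y) = 0) : x = 0 := by
  have h1 := traceForm_nondegenerate ℚ K
  exact h1.1 x fun y => by
    rw [Algebra.traceForm_apply]
    exact h y

theorem thm_LatK (h1 : St_Symp) (h2 : St_ChiB) : St_LatK := by
  intro K _ _ c ζ₁ ζ₂ hc hz1 hz2 hn1 hn2
  have halt : ∀ x, LatK_B c ζ₁ ζ₂ x x = 0 := by
    intro x
    rw [LatK_B_apply]
    have h3 : Algebra.trace ℚ K (ζ₁ * (x.1 * c x.1) + ζ₂ * (x.2 * c x.2)) =
        -Algebra.trace ℚ K (ζ₁ * (x.1 * c x.1) + ζ₂ * (x.2 * c x.2)) := by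
      rw [← map_neg, ← LatK_tr hc]
      refine congrArg _ ?_
      simp only [map_add, map_mul, hz1, hz2, LatK_cc hc]
      ring
    linarith
  have hnd : ∀ x, (∀ y, LatK_B c ζ₁ ζ₂ x y = 0) → x = 0 := by
    intro x hx
    have h3 : x.1 = 0 := by
      have h4 : ζ₁ * x.1 = 0 := LatK_nd fun y => by
        have h5 := hx (c y, 0)
        rw [LatK_B_apply] at h5
        simpa [LatK_cc hc, mul_assoc] using h5
      exact (mul_eq_zero.1 h4).resolve_left hn1
    have h3' : x.2 = 0 := by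
      have h4 : ζ₂ * x.2 = 0 := LatK_nd fun y => by
        have h5 := hx (0, c y)
        rw [LatK_B_apply] at h5
        simpa [LatK_cc hc, mul_assoc] using h5
      exact (mul_eq_zero.1 h4).resolve_left hn2
    exact Prod.ext h3 h3'
  obtain ⟨n, e, he, he'⟩ := h1 (K × K) (LatK_B c ζ₁ ζ₂) halt hnd
  obtain ⟨χ, hχ, hχ'⟩ := h2 (K × K) (LatK_B c ζ₁ ζ₂) n e halt he
  refine ⟨n, e, χ, fun i j => ?_, fun x hx => ?_, hχ, fun x hx y hy => ?_⟩
  · rw [← LatK_B_apply]
    exact he i j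
  · refine he' x fun j => ?_
    rw [LatK_B_apply]
    exact hx j
  · rw [← LatK_B_apply]
    exact hχ' x hx y hy

end GAM
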