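import Pool.Agent.GAM.StG
import Pool.Agent.GAM.Der

/-!
# GAM [LinD]: coefficients of linear combinations of functions with algebraic Taylor coefficients
-/

set_option autoImplicit false

namespace GAM

open scoped ComplexConjugate

theorem LinD_sum {ι κ : Type} [Fintype ι] [DecidableEq ι] {δ : Derivation ℚ ℂ ℂ}
    (hR : DelRules ι δ) (s : Finset κ) (a a' : κ → (ι → ℂ) → ℂ)
    (h : ∀ i ∈ s, IsDel δ (a i) (a' i)) :
    IsDel δ (fun v => ∑ i ∈ s, a i v) (fun v => ∑ i ∈ s, a' i v) := by
  classical
  induction s using Finset.induction_on with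
  | empty =>
    have h0 := hR.const 0
    rw [map_zero] at h0
    simp only [Finset.sum_empty]
    exact h0
  | insert i s hi ih =>
    have h1 := hR.add _ _ _ _ (h i (Finset.mem_insert_self i s))
      (ih fun j hj => h j (Finset.mem_insert_of_mem hj))
    simp only [Finset.sum_insert hi]
    exact h1

theorem thm_LinD (hD : St_DelR) : St_LinD := by
  intro ι κ _ _ _ f g c hf hfd hgd hg i
  rw [thm_Der (c i)]
  intro δ
  have hR := hD ι δ
  have h1 : ∀ j ∈ (Finset.univ : Finset κ), IsDel δ (fun v => c j * f j v)
      (fun v => δ (c j) * f j v + c j * 0) := fun j _ =>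
    hR.mul _ _ _ _ (hR.const (c j)) (hfd δ j)
  have h2 := LinD_sum hR Finset.univ _ _ h1
  have h3 : (fun v => ∑ j, c j * f j v) = g := by
    funext v
    exact (hg v).symm
  rw [h3] at h2
  have h4 := hR.uniq _ _ _ h2 (hgd δ)
  have h5 : ∑ j, δ (c j) • f j = 0 := by
    funext v
    have := congrFun h4 v
    simp only [mul_zero, add_zero] at this
    rw [Finset.sum_apply]
    simpa using this
  exact Fintype.linearIndependent_iff.mp hf (fun j => δ (c j)) h5 i

end GAM
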