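import Pool.Agent.GAM.StC
import Pool.Agent.KSE.OddAb

/-!
# GAM: for an abelian field the functions `Ψ_t` have no common odd zero
-/

set_option autoImplicit false
set_option linter.unusedVariables false
set_option linter.unusedSectionVars false

namespace GAM

open scoped ComplexConjugate

section MM

variable {K : Type} [Field K] [NumberField K] {c : K →+* K}

private theorem MM_cc (hc : CMF K c) (σ : K →+* ℂ) : (σ.comp c).comp c = σ := by
  refine RingHom.ext fun x => ?_
  show σ (c (c x)) = σ x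
  rw [← hc.cc, ← hc.cc, Complex.conj_conj]

private theorem MM_ne (hc : CMF K c) (σ : K →+* ℂ) : σ.comp c ≠ σ := by
  intro h
  apply hc.ne
  refine RingHom.ext fun x => σ.injective ?_
  exact RingHom.congr_fun h x

private theorem MM_comm (hc : CMF K c) (σ : K →+* ℂ) (g : K →+* K) :
    (σ.comp c).comp g = (σ.comp g).comp c := by
  refine RingHom.ext fun x => ?_
  show σ (c (g x)) = (σ.comp g) (c x)
  rw [← hc.cc, ← hc.cc]
  rfl

/-- changing a CM type at some places -/
private theorem MM_cmt {S : Type} (hc : CMF K c) {φ φ' : S → K →+* ℂ} (h : CMT K c φ)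
    (hφ : ∀ s, φ' s = φ s ∨ φ' s = (φ s).comp c) : CMT K c φ' := by
  have hval : ∀ x : S ⊕ S, ∃ y : S ⊕ S, Sum.elim φ' (fun s => (φ' s).comp c) x =
      Sum.elim φ (fun s => (φ s).comp c) y ∧ Sum.elim id id y = Sum.elim id id x := by
    rintro (s | s)
    · rcases hφ s with h1 | h1
      · exact ⟨Sum.inl s, h1, rfl⟩
      · exact ⟨Sum.inr s, h1, rfl⟩
    · rcases hφ s with h1 | h1
      · refine ⟨Sum.inr s, ?_, rfl⟩
        show (φ' s).comp c = (φ s).comp c
        rw [h1]
      · refine ⟨Sum.inl s, ?_, rfl⟩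
        show (φ' s).comp c = φ s
        rw [h1, MM_cc hc]
  constructor
  · intro x y hxy
    obtain ⟨x', hx1, hx2⟩ := hval x
    obtain ⟨y', hy1, hy2⟩ := hval y
    have h1 : x' = y' := h.1 (by rw [← hx1, ← hy1]; exact hxy)
    rw [h1, hy2] at hx2
    rcases x with s | s <;> rcases y with s' | s'
    · exact congrArg Sum.inl hx2.symm
    · have h2 : s' = s := hx2
      subst h2
      exact absurd hxy.symm (MM_ne hc (φ' s'))
    · have h2 : s' = s := hx2
      subst h2
      exact absurd hxy (MM_ne hc (φ' s'))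
    · exact congrArg Sum.inr hx2.symm
  · intro σ
    obtain ⟨s | s, hs⟩ := h.2 σ
    · have hs' : φ s = σ := hs
      rcases hφ s with h1 | h1
      · exact ⟨Sum.inl s, h1.trans hs'⟩
      · refine ⟨Sum.inr s, ?_⟩
        show (φ' s).comp c = σ
        rw [h1, MM_cc hc, hs']
    · have hs' : (φ s).comp c = σ := hs
      rcases hφ s with h1 | h1
      · refine ⟨Sum.inr s, ?_⟩
        show (φ' s).comp c = σ
        rw [h1, hs']
      · exact ⟨Sum.inl s, h1.trans hs'⟩

end MM

theorem thm_MM (hI : St_Iso) (hE : St_ExpE) : St_MM := by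
  classical
  intro K _ _ c Ψ f hc hG hab hΨ hf hf0
  by_contra hne
  let R : Submodule ℚ ((K →+* ℂ) → ℚ) :=
    { carrier := {f | OddF c f ∧ ∀ δ t, Ψ δ t f = 0}
      add_mem' := by
        rintro a b ⟨ha1, ha2⟩ ⟨hb1, hb2⟩
        refine ⟨fun σ => ?_, fun δ t => ?_⟩
        · rw [Pi.add_apply, Pi.add_apply, ha1 σ, hb1 σ]
          ring
        · rw [map_add, ha2, hb2, add_zero]
      zero_mem' := ⟨fun σ => by simp, fun δ t => map_zero _⟩
      smul_mem' := by
        rintro q a ⟨ha1, ha2⟩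
        refine ⟨fun σ => ?_, fun δ t => ?_⟩
        · rw [Pi.smul_apply, Pi.smul_apply, ha1 σ, smul_neg]
        · rw [map_smul, ha2, smul_zero] }
  have hR0 : R ≠ ⊥ := by
    rw [Submodule.ne_bot_iff]
    exact ⟨f, ⟨hf, hf0⟩, hne⟩
  have hconj : ∀ σ : K →+* ℂ, NumberField.ComplexEmbedding.conjugate σ = σ.comp c := by
    intro σ
    refine RingHom.ext fun x => ?_
    show (starRingEnd ℂ) (σ x) = σ (c x)
    exact hc.cc σ x
  have hR1 : ∀ f ∈ R, ∀ σ, f (NumberField.ComplexEmbedding.conjugate σ) = - f σ := by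
    intro f hf σ
    rw [hconj]
    exact hf.1 σ
  have hR2 : ∀ f ∈ R, ∀ τ : ℂ ≃+* ℂ, (fun σ => f ((τ : ℂ →+* ℂ).comp σ)) ∈ R := by
    intro f hf τ
    obtain ⟨σ₁⟩ : Nonempty (K →+* ℂ) := inferInstance
    have hsurj : ∀ σ : K →+* ℂ, ∃ g : K ≃ₐ[ℚ] K, σ₁.comp (g : K →+* K) = σ := by
      intro σ
      obtain ⟨g, hg⟩ := NumberField.ComplexEmbedding.exists_comp_symm_eq_of_comp_eq (k := ℚ) σ₁ σ
        (RingHom.ext fun x => by simp)
      exact ⟨g.symm, hg⟩
    obtain ⟨g, hg⟩ := hsurj ((τ : ℂ →+* ℂ).comp σ₁)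
    have key : ∀ σ : K →+* ℂ, (τ : ℂ →+* ℂ).comp σ =
        σ.comp ((g : K ≃+* K) : K →+* K) := by
      intro σ
      obtain ⟨h, rfl⟩ := hsurj σ
      refine RingHom.ext fun x => ?_
      show (τ : ℂ →+* ℂ) (σ₁ (h x)) = σ₁ (h (g x))
      have e1 : (τ : ℂ →+* ℂ) (σ₁ (h x)) = σ₁ (g (h x)) :=
        (RingHom.congr_fun hg (h x)).symm
      have e2 : g (h x) = h (g x) := by
        have := DFunLike.congr_fun (hab g h) x
        exact this
      rw [e1, e2]
    have e : (fun σ => f ((τ : ℂ →+* ℂ).comp σ)) =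
        fun σ => f (σ.comp ((g : K ≃+* K) : K →+* K)) := by
      funext σ
      rw [key]
    rw [e]
    refine ⟨fun σ => ?_, fun δ t => ?_⟩
    · show f ((σ.comp c).comp ((g : K ≃+* K) : K →+* K)) =
        -f (σ.comp ((g : K ≃+* K) : K →+* K))
      rw [MM_comm hc]
      exact hf.1 _
    · rw [← (hΨ δ).gal (g : K ≃+* K) t f hf.1]
      exact hf.2 δ _
  obtain ⟨f₁, ⟨hodd, hzero⟩, hf₁, hv⟩ := Pool.Agent.GPC.oddSparse_abelian K hab R hR0 hR1 hR2
  -- a CM type containing the set where the function is `1`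
  obtain ⟨e, he⟩ := exists_injective_nat (K →+* ℂ)
  let Φ : (K →+* ℂ) → Prop := fun σ => f₁ σ = 1 ∨ (f₁ σ = 0 ∧ e σ < e (σ.comp c))
  let Φ' : (K →+* ℂ) → Prop := fun σ => f₁ σ = -1 ∨ (f₁ σ = 0 ∧ e σ < e (σ.comp c))
  have hcc := MM_cc hc
  have hlt : ∀ σ : K →+* ℂ, ¬ e σ < e (σ.comp c) ↔ e (σ.comp c) < e ((σ.comp c).comp c) := by
    intro σ
    rw [hcc]
    have hne' : e (σ.comp c) ≠ e σ := fun h => MM_ne hc σ (he h)
    omega
  have hΦ : ∀ σ, ¬ Φ σ ↔ Φ (σ.comp c) := by
    intro σ
    have h1 := hodd σ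
    simp only [Φ, h1]
    rcases hv σ with h | h | h
    · rw [h]; norm_num
    · rw [h]
      have := hlt σ
      norm_num
      rw [← not_lt, this]
    · rw [h]; norm_num
  have hΦ' : ∀ σ, ¬ Φ' σ ↔ Φ' (σ.comp c) := by
    intro σ
    have h1 := hodd σ
    simp only [Φ', h1]
    rcases hv σ with h | h | h
    · rw [h]; norm_num
    · rw [h]
      have := hlt σ
      norm_num
      rw [← not_lt, this]
    · rw [h]; norm_num
  let S : Type := {σ : K →+* ℂ // Φ σ}
  let φ : S → K →+* ℂ := Subtype.val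
  let φ' : S → K →+* ℂ := fun s => if f₁ (φ s) = 1 then (φ s).comp c else φ s
  have hcmt : CMT K c φ := by
    constructor
    · rintro (s | s) (s' | s') h
      · have h' : φ s = φ s' := h
        exact congrArg Sum.inl (Subtype.ext h')
      · have h' : φ s = (φ s').comp c := h
        exact absurd s'.2 ((hΦ _).2 (by
          show Φ ((φ s').comp c)
          rw [← h']
          exact s.2))
      · have h' : (φ s).comp c = φ s' := h
        exact absurd s.2 ((hΦ _).2 (by
          show Φ ((φ s).comp c)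
          rw [h']
          exact s'.2))
      · have h' : (φ s).comp c = (φ s').comp c := h
        have h'' : φ s = φ s' := by rw [← hcc (φ s), h', hcc]
        exact congrArg Sum.inr (Subtype.ext h'')
    · intro σ
      by_cases h : Φ σ
      · exact ⟨Sum.inl ⟨σ, h⟩, rfl⟩
      · exact ⟨Sum.inr ⟨σ.comp c, (hΦ σ).1 h⟩, hcc σ⟩
  have hcmt' : CMT K c φ' := by
    refine MM_cmt hc hcmt fun s => ?_
    simp only [φ']
    split_ifs
    · exact Or.inr rfl
    · exact Or.inl rfl
  have hran : ∀ σ, σ ∈ Set.range φ ↔ Φ σ := by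
    intro σ
    constructor
    · rintro ⟨s, rfl⟩
      exact s.2
    · intro h
      exact ⟨⟨σ, h⟩, rfl⟩
  have hran' : ∀ σ, σ ∈ Set.range φ' ↔ Φ' σ := by
    intro σ
    constructor
    · rintro ⟨s, rfl⟩
      simp only [φ']
      split_ifs with h1
      · left
        rw [hodd, h1]
      · right
        rcases s.2 with h2 | h2
        · exact absurd h2 h1
        · exact h2
    · rintro (h | h)
      · have h1 : f₁ (σ.comp c) = 1 := by rw [hodd, h]; norm_num
        refine ⟨⟨σ.comp c, Or.inl h1⟩, ?_⟩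
        simp only [φ', φ]
        rw [if_pos h1, hcc]
      · refine ⟨⟨σ, Or.inr h⟩, ?_⟩
        simp only [φ', φ]
        rw [if_neg (by rw [h.1]; norm_num)]
  have hdiff : hfun φ - hfun φ' = f₁ := by
    funext σ
    rw [Pi.sub_apply]
    unfold hfun
    rcases hv σ with h | h | h
    · have n1 : σ ∉ Set.range φ := fun h2 => by
        rcases (hran σ).1 h2 with h3 | h3
        · rw [h] at h3; norm_num at h3
        · rw [h] at h3; norm_num at h3
      have n2 : σ ∈ Set.range φ' := (hran' σ).2 (Or.inl h)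
      rw [if_neg n1, if_pos n2, h]; norm_num
    · by_cases h4 : e σ < e (σ.comp c)
      · rw [if_pos ((hran σ).2 (Or.inr ⟨h, h4⟩)), if_pos ((hran' σ).2 (Or.inr ⟨h, h4⟩)), h]
        norm_num
      · have n1 : σ ∉ Set.range φ := fun h2 => by
          rcases (hran σ).1 h2 with h3 | h3
          · rw [h] at h3; norm_num at h3
          · exact h4 h3.2
        have n2 : σ ∉ Set.range φ' := fun h2 => by
          rcases (hran' σ).1 h2 with h3 | h3
          · rw [h] at h3; norm_num at h3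
          · exact h4 h3.2
        rw [if_neg n1, if_neg n2, h]; norm_num
    · have n1 : σ ∉ Set.range φ' := fun h2 => by
        rcases (hran' σ).1 h2 with h3 | h3
        · rw [h] at h3; norm_num at h3
        · rw [h] at h3; norm_num at h3
      have n2 : σ ∈ Set.range φ := (hran σ).2 (Or.inl h)
      rw [if_pos n2, if_neg n1, h]; norm_num
  have hodd' : OddF c (hfun φ') := by
    intro σ
    unfold hfun
    have h1 := hΦ' σ
    by_cases h2 : Φ' σ
    · rw [if_pos ((hran' σ).2 h2), if_neg fun h3 => h1.2 ((hran' _).1 h3) h2]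
      norm_num
    · rw [if_neg fun h3 => h2 ((hran' _).1 h3), if_pos ((hran' _).2 (h1.1 h2))]
      norm_num
  have hΨd : ∀ δ t, Ψ δ t (hfun φ) = Ψ δ t (hfun φ') := by
    intro δ t
    have h1 := hzero δ t
    rw [← hdiff, map_sub, sub_eq_zero] at h1
    exact h1
  have hiso := hI K c S φ φ' hc hcmt hcmt' (by
    intro δ A A' hA hA' s s'
    have h1 := (hΨ δ).val S φ A s hcmt hA
    have h2 := (hΨ δ).val S φ' A' s' hcmt' hA'
    refine ⟨fun h => ?_, fun h => ?_⟩
    · rw [h, hΨd] at h1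
      rw [← h1] at h2
      linear_combination -h2
    · rw [h, hΨd, (hΨ δ).cj _ _ hodd', ← h2] at h1
      have h3 : δ Real.pi / (Real.pi : ℂ) = 2 * (δ Real.pi / (2 * Real.pi)) := by
        field_simp
      rw [h3]
      linear_combination h1)
  apply hf₁
  rw [← hdiff, sub_eq_zero]
  funext σ
  unfold hfun
  rw [hiso]

end GAM
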