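import Pool.Agent.GAM.StD2

set_option autoImplicit false
set_option linter.unusedSimpArgs false

namespace GAM

open scoped ComplexConjugate

theorem MapK_cc {K : Type} [Field K] [NumberField K] {c : K →+* K} (h : CMF K c) (x : K) :
    c (c x) = x := by
  obtain ⟨σ⟩ : Nonempty (K →+* ℂ) := inferInstance
  apply σ.injective
  rw [← h.cc σ (c x), ← h.cc σ x, Complex.conj_conj]

theorem MapK_coor0 {S : Type} {K : Type} [Field K] (r : S × Fin 2 → ℝ)
    (φ φ' : S → K →+* ℂ) (x : K × K) (s : S) :
    coor r φ φ' x (s, 0) = (r (s, 0) : ℂ) * φ s x.1 := by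
  simp [coor]

theorem MapK_coor1 {S : Type} {K : Type} [Field K] (r : S × Fin 2 → ℝ)
    (φ φ' : S → K →+* ℂ) (x : K × K) (s : S) :
    coor r φ φ' x (s, 1) = (r (s, 1) : ℂ) * φ' s x.2 := by
  simp [coor]

theorem MapK_flip_self {S : Type} [DecidableEq S] {K : Type} [Field K] (c : K →+* K)
    (φ : S → K →+* ℂ) (v : S) : flip c φ v v = (φ v).comp c := by
  simp [flip]

theorem MapK_flip_of_ne {S : Type} [DecidableEq S] {K : Type} [Field K] (c : K →+* K)
    (φ : S → K →+* ℂ) (v : S) {s : S} (h : s ≠ v) : flip c φ v s = φ s := by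
  simp [flip, h]

/-- The permutation which exchanges the two coordinates over `v`. -/
def MapK_j {S : Type} [DecidableEq S] (v : S) : S × Fin 2 ≃ S × Fin 2 :=
  Equiv.swap (v, 0) (v, 1)

theorem MapK_j_ne {S : Type} [DecidableEq S] (v : S) {s : S} (h : s ≠ v) (i : Fin 2) :
    MapK_j v (s, i) = (s, i) := by
  unfold MapK_j
  apply Equiv.swap_apply_of_ne_of_ne
  · intro h1
    exact h (Prod.ext_iff.mp h1).1
  · intro h1
    exact h (Prod.ext_iff.mp h1).1

theorem MapK_j0 {S : Type} [DecidableEq S] (v : S) : MapK_j v (v, 0) = (v, 1) :=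
  Equiv.swap_apply_left _ _

theorem MapK_j1 {S : Type} [DecidableEq S] (v : S) : MapK_j v (v, 1) = (v, 0) :=
  Equiv.swap_apply_right _ _

theorem thm_MapK : St_MapK := by
  intro K _ _ c S _ _ φ κ ζ₁ u v w a b r hc _ _ _ hvw hκ him hκ0 hneg hr hr0 hζ hζn hr1 hNv hNs
  have hcc := MapK_cc hc
  have hconj : ∀ s x, conj (φ s x) = φ s (c x) := fun s x => hc.cc (φ s) x
  set NN : K := a * c a + κ * (b * c b) with hNN
  have hcN : c NN = NN := by
    rw [hNN]
    simp only [map_add, map_mul, hcc, hκ]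
    ring
  have real_of : ∀ s x, c x = x → φ s x = ((φ s x).re : ℂ) := by
    intro s x hx
    have h1 := hconj s x
    rw [hx] at h1
    exact (Complex.conj_eq_iff_real.mp h1).elim fun t ht => by rw [ht, Complex.ofReal_re]
  have hκr : ∀ s, φ s κ = ((φ s κ).re : ℂ) := fun s => real_of s κ hκ
  have hNr : ∀ s, φ s NN = ((φ s NN).re : ℂ) := fun s => real_of s NN hcN
  have hNne : ∀ s, (φ s NN).re ≠ 0 := by
    intro s
    by_cases hs : s = v
    · rw [hs]
      exact hNv.ne
    · exact (hNs s hs).ne'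
  have hκne : ∀ s, (φ s κ).re ≠ 0 := by
    intro s h
    apply hκ0
    apply (φ s).injective
    rw [hκr s, h, map_zero, Complex.ofReal_zero]
  -- square roots
  set k : S → ℝ := fun s => Real.sqrt |(φ s κ).re| with hk
  set m : S → ℝ := fun s => Real.sqrt |(φ s NN).re| with hm
  have hkpos : ∀ s, 0 < k s := fun s => Real.sqrt_pos.mpr (abs_pos.mpr (hκne s))
  have hmpos : ∀ s, 0 < m s := fun s => Real.sqrt_pos.mpr (abs_pos.mpr (hNne s))
  have hk2 : ∀ s, k s ^ 2 = |(φ s κ).re| := fun s => Real.sq_sqrt (abs_nonneg _)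
  have hm2 : ∀ s, m s ^ 2 = |(φ s NN).re| := fun s => Real.sq_sqrt (abs_nonneg _)
  have hr1' : ∀ s, r (s, 1) = k s * r (s, 0) := by
    intro s
    have h1 : 0 < r (s, 1) := hr _
    have h2 : 0 ≤ k s * r (s, 0) := (mul_pos (hkpos s) (hr _)).le
    have h3 : r (s, 1) ^ 2 = (k s * r (s, 0)) ^ 2 := by
      rw [hr1 s, mul_pow, hk2]
    exact (pow_left_inj₀ h1.le h2 two_ne_zero).mp h3
  have hkC : ∀ s, ((k s : ℝ) : ℂ) ^ 2 = ((|(φ s κ).re| : ℝ) : ℂ) := fun s => by
    rw [← hk2 s, Complex.ofReal_pow]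
  have hmC : ∀ s, ((m s : ℝ) : ℂ) ^ 2 = ((|(φ s NN).re| : ℝ) : ℂ) := fun s => by
    rw [← hm2 s, Complex.ofReal_pow]
  have hkmem : ∀ s, (s = v ∨ s = w) → ((k s : ℝ) : ℂ) ^ 2 = - φ s κ := by
    intro s hs
    have h1 := (hneg s).mpr hs
    rw [hkC, abs_of_neg h1, Complex.ofReal_neg, ← hκr s]
  have hknmem : ∀ s, ¬ (s = v ∨ s = w) → ((k s : ℝ) : ℂ) ^ 2 = φ s κ := by
    intro s hs
    have h1 : ¬ (φ s κ).re < 0 := fun h => hs ((hneg s).mp h)
    rw [hkC, abs_of_nonneg (not_lt.mp h1), ← hκr s]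
  have hmv : ((m v : ℝ) : ℂ) ^ 2 = - φ v NN := by
    rw [hmC, abs_of_neg hNv, Complex.ofReal_neg, ← hNr v]
  have hms : ∀ s, s ≠ v → ((m s : ℝ) : ℂ) ^ 2 = φ s NN := by
    intro s hs
    rw [hmC, abs_of_pos (hNs s hs), ← hNr s]
  have hm0 : ∀ s, ((m s : ℝ) : ℂ) ≠ 0 := fun s => by exact_mod_cast (hmpos s).ne'
  have hNexp : ∀ s, φ s NN = φ s a * φ s (c a) + φ s κ * (φ s b * φ s (c b)) := by
    intro s
    rw [hNN]
    simp only [map_add, map_mul]
  let r' : S × Fin 2 → ℝ := fun p =>
    if p.2 = 0 then r (p.1, 0) * m p.1 else r (p.1, 0) * (k p.1 * m p.1)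
  have hr'0 : ∀ s, r' (s, 0) = r (s, 0) * m s := fun s => by simp [r']
  have hr'1 : ∀ s, r' (s, 1) = r (s, 0) * (k s * m s) := fun s => by simp [r']
  let ga : S → ℂ := fun s => if s = v then (k s : ℂ) * φ s (c b) / (m s : ℂ)
    else φ s a / (m s : ℂ)
  let gb : S → ℂ := fun s => if s = v then φ s (c a) / (m s : ℂ)
    else (k s : ℂ) * φ s b / (m s : ℂ)
  have hgav : ga v = (k v : ℂ) * φ v (c b) / (m v : ℂ) := by simp [ga]
  have hgbv : gb v = φ v (c a) / (m v : ℂ) := by simp [gb]
  have hgas : ∀ s, s ≠ v → ga s = φ s a / (m s : ℂ) := fun s hs => by simp [ga, hs]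
  have hgbs : ∀ s, s ≠ v → gb s = (k s : ℂ) * φ s b / (m s : ℂ) := fun s hs => by simp [gb, hs]
  refine ⟨r', ⟨ga, gb, fun s => ?_⟩, MapK_j v, ?_, ?_, ?_, ?_, ?_, ?_⟩
  · -- the relation
    by_cases hs : s = v
    · subst hs
      rw [eps_of_mem (Or.inl rfl), hgav, hgbv]
      simp only [map_mul, map_div₀, Complex.conj_ofReal, hconj, hcc]
      have h1 := hm0 s
      have h2 := hkmem s (Or.inl rfl)
      have h3 := hNexp s
      field_simp
      rw [← sub_eq_zero]
      linear_combination (φ s b * φ s (c b)) * h2 - hmv + h3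
    · rw [hgas s hs, hgbs s hs]
      simp only [map_mul, map_div₀, Complex.conj_ofReal, hconj, hcc]
      have h1 := hm0 s
      have h3 := hNexp s
      have h4 := hms s hs
      by_cases hs' : s = v ∨ s = w
      · have h2 := hkmem s hs'
        rw [eps_of_mem hs']
        field_simp
        rw [← sub_eq_zero]
        linear_combination -(φ s b * φ s (c b)) * h2 - h4 - h3
      · have h2 := hknmem s hs'
        rw [eps_of_not_mem hs']
        field_simp
        rw [← sub_eq_zero]
        linear_combination (φ s b * φ s (c b)) * h2 - h4 - h3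
  · rintro ⟨s, i⟩
    have h1 := hr (s, 0)
    have h2 := hkpos s
    have h3 := hmpos s
    fin_cases i
    · simp only [Fin.zero_eta, hr'0]
      positivity
    · simp only [Fin.mk_one, hr'1]
      positivity
  · intro s hs
    exact ⟨MapK_j_ne v hs 0, MapK_j_ne v hs 1⟩
  · exact ⟨MapK_j0 v, MapK_j1 v⟩
  · intro s
    rw [hr'0, mul_pow, hr0 s, hm2]
    by_cases hs : s = v
    · subst hs
      rw [MapK_flip_self, RingHom.comp_apply, map_mul, hζ, hcN, abs_of_neg hNv, map_mul, map_neg,
        hNr s, Complex.im_mul_ofReal, Complex.neg_im]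
      simp only [Complex.ofReal_re]
      ring
    · rw [MapK_flip_of_ne c φ v hs, abs_of_pos (hNs s hs), map_mul, hNr s, Complex.im_mul_ofReal]
      simp only [Complex.ofReal_re]
      ring
  · intro s
    rw [hr'1, mul_pow, hr0 s, mul_pow, hm2, hk2]
    by_cases hs : s = v
    · subst hs
      have h1 := (hneg s).mpr (Or.inl rfl)
      rw [MapK_flip_of_ne c φ w hvw, abs_of_neg hNv, abs_of_neg h1, map_mul, map_mul, hNr s,
        Complex.im_mul_ofReal, hκr s, Complex.im_ofReal_mul]
      simp only [Complex.ofReal_re]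
      ring
    · by_cases hs' : s = w
      · subst hs'
        have h1 := (hneg s).mpr (Or.inr rfl)
        rw [MapK_flip_self, RingHom.comp_apply, abs_of_pos (hNs s hs), abs_of_neg h1]
        simp only [map_mul, hζ, hcN, hκ, map_neg]
        rw [hNr s, Complex.im_mul_ofReal, hκr s, Complex.im_ofReal_mul, Complex.neg_im]
        simp only [Complex.ofReal_re]
        ring
      · have h1 : ¬ (φ s κ).re < 0 := fun h => (not_or.mpr ⟨hs, hs'⟩) ((hneg s).mp h)
        rw [MapK_flip_of_ne c φ w hs', abs_of_pos (hNs s hs), abs_of_nonneg (not_lt.mp h1),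
          map_mul, map_mul, hNr s, Complex.im_mul_ofReal, hκr s, Complex.im_ofReal_mul]
        simp only [Complex.ofReal_re]
        ring
  · intro y
    ext ⟨s, i⟩
    by_cases hs : s = v
    · have hf : flip c (flip c φ v) w s = (φ s).comp c := by
        rw [hs, MapK_flip_of_ne c _ w hvw, MapK_flip_self]
      have hf1 : flip c φ v s = (φ s).comp c := by rw [hs, MapK_flip_self]
      have hf2 : flip c φ w s = φ s := by rw [hs, MapK_flip_of_ne c _ w hvw]
      have hsm : s = v ∨ s = w := Or.inl hs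
      have h1 := hm0 s
      have h2 := hkmem s hsm
      have ha : ga s = (k s : ℂ) * φ s (c b) / (m s : ℂ) := by rw [hs, hgav]
      have hb : gb s = φ s (c a) / (m s : ℂ) := by rw [hs, hgbv]
      have hj0 : MapK_j v (s, 0) = (s, 1) := by rw [hs, MapK_j0]
      have hj1 : MapK_j v (s, 1) = (s, 0) := by rw [hs, MapK_j1]
      fin_cases i
      · simp only [Fin.zero_eta, act_v0 _ _ hsm]
        simp only [hj0, hj1, MapK_coor0, MapK_coor1, hf, hf1, hf2, ha, hb, hr'0, hr'1,
          RingHom.comp_apply, hr1', map_mul, map_add, map_sub, Complex.conj_ofReal, map_div₀,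
          hconj, hcc, Complex.ofReal_mul]
        field_simp
        linear_combination -(φ s (c b) * φ s y.2 * (r (s, 0) : ℂ)) * h2
      · simp only [Fin.mk_one, act_v1 _ _ hsm]
        simp only [hj0, hj1, MapK_coor0, MapK_coor1, hf, hf1, hf2, ha, hb, hr'0, hr'1,
          RingHom.comp_apply, hr1', map_mul, map_add, map_sub, Complex.conj_ofReal, map_div₀,
          hconj, hcc, Complex.ofReal_mul]
        field_simp
    · have hj0 : MapK_j v (s, 0) = (s, 0) := MapK_j_ne v hs 0
      have hj1 : MapK_j v (s, 1) = (s, 1) := MapK_j_ne v hs 1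
      have ha := hgas s hs
      have hb := hgbs s hs
      have h1 := hm0 s
      have hf1 : flip c φ v s = φ s := MapK_flip_of_ne c _ v hs
      by_cases hs' : s = w
      · have hsm : s = v ∨ s = w := Or.inr hs'
        have hf : flip c (flip c φ v) w s = (φ s).comp c := by
          rw [hs', MapK_flip_self, MapK_flip_of_ne c _ v hvw.symm]
        have hf2 : flip c φ w s = (φ s).comp c := by rw [hs', MapK_flip_self]
        have h2 := hkmem s hsm
        fin_cases i
        · simp only [Fin.zero_eta, act_v0 _ _ hsm]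
          simp only [hj0, hj1, MapK_coor0, MapK_coor1, hf, hf1, hf2, ha, hb, hr'0, hr'1,
            RingHom.comp_apply, hr1', map_mul, map_add, map_sub, Complex.conj_ofReal, map_div₀,
            hconj, hcc, Complex.ofReal_mul]
          field_simp
          linear_combination -(φ s (c b) * φ s y.2 * (r (s, 0) : ℂ)) * h2
        · simp only [Fin.mk_one, act_v1 _ _ hsm]
          simp only [hj0, hj1, MapK_coor0, MapK_coor1, hf, hf1, hf2, ha, hb, hr'0, hr'1,
            RingHom.comp_apply, hr1', map_mul, map_add, map_sub, Complex.conj_ofReal, map_div₀,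
            hconj, hcc, Complex.ofReal_mul]
          field_simp
          ring
      · have hsm : ¬ (s = v ∨ s = w) := not_or.mpr ⟨hs, hs'⟩
        have hf : flip c (flip c φ v) w s = φ s := by
          rw [MapK_flip_of_ne c _ w hs', MapK_flip_of_ne c _ v hs]
        have hf2 : flip c φ w s = φ s := MapK_flip_of_ne c _ w hs'
        have h2 := hknmem s hsm
        fin_cases i
        · simp only [Fin.zero_eta, act_u0 _ _ hsm]
          simp only [hj0, hj1, MapK_coor0, MapK_coor1, hf, hf1, hf2, ha, hb, hr'0, hr'1,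
            RingHom.comp_apply, hr1', map_mul, map_add, map_sub, Complex.conj_ofReal, map_div₀,
            hconj, hcc, Complex.ofReal_mul]
          field_simp
          linear_combination (φ s (c b) * φ s y.2 * (r (s, 0) : ℂ)) * h2
        · simp only [Fin.mk_one, act_u1 _ _ hsm]
          simp only [hj0, hj1, MapK_coor0, MapK_coor1, hf, hf1, hf2, ha, hb, hr'0, hr'1,
            RingHom.comp_apply, hr1', map_mul, map_add, map_sub, Complex.conj_ofReal, map_div₀,
            hconj, hcc, Complex.ofReal_mul]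
          field_simp

end GAM
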