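import Pool.Agent.GAM.StD2

/-!
# GAM [MinP]: a relation of minimal degree in the last variable
-/

set_option autoImplicit false

namespace GAM

open MvPolynomial

lemma MinP_coeff {P : MvPolynomial (Fin 4) ℂ} {m : Fin 4 →₀ ℕ}
    (h : m ∈ (pderiv 3 P).support) : m + Finsupp.single 3 1 ∈ P.support := by
  rw [mem_support_iff] at h ⊢
  intro h0
  apply h
  rw [coeff_pderiv, h0, zero_mul]

lemma MinP_deg {P : MvPolynomial (Fin 4) ℂ} (h : pderiv 3 P ≠ 0) :
    degreeOf 3 (pderiv 3 P) < degreeOf 3 P := by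
  have h1 : ∀ m ∈ (pderiv 3 P).support, m 3 + 1 ≤ degreeOf 3 P := by
    intro m hm
    have h2 := monomial_le_degreeOf 3 (MinP_coeff hm)
    simpa using h2
  have h3 : 0 < degreeOf 3 P := by
    obtain ⟨m, hm⟩ := support_nonempty.2 h
    have := h1 m hm
    omega
  rw [degreeOf_lt_iff h3]
  intro m hm
  have := h1 m hm
  omega

lemma MinP_vars {P : MvPolynomial (Fin 4) ℂ} (h : pderiv 3 P = 0) : (3 : Fin 4) ∉ P.vars := by
  intro hv
  rw [mem_vars_iff_mem_support] at hv
  obtain ⟨m, hm, h3⟩ := hv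
  have h3' : m 3 ≠ 0 := Finsupp.mem_support_iff.1 h3
  have h4 : m - Finsupp.single 3 1 + Finsupp.single 3 1 = m := by
    apply tsub_add_cancel_of_le
    rw [Finsupp.single_le_iff]
    omega
  have h5 : coeff (m - Finsupp.single 3 1) (pderiv 3 P) = 0 := by rw [h, coeff_zero]
  rw [coeff_pderiv, h4] at h5
  rcases mul_eq_zero.1 h5 with h6 | h6
  · exact (mem_support_iff.1 hm) h6
  · exact Nat.cast_add_one_ne_zero _ h6

theorem thm_MinP : St_MinP := by
  intro X f D h1 h2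
  classical
  have hp : ∃ d : ℕ, ∃ (m : ℕ) (P : MvPolynomial (Fin 4) ℂ), P ≠ 0 ∧ P.IsHomogeneous m ∧
      (∀ z ∈ D, MvPolynomial.eval (fun i => f i z) P = 0) ∧ P.degreeOf 3 = d := by
    obtain ⟨m, P, a, b, c⟩ := h2
    exact ⟨_, m, P, a, b, c, rfl⟩
  obtain ⟨m, P, hP0, hPh, hPv, hPd⟩ := Nat.find_spec hp
  refine ⟨m, P, hPh, hPv, ?_⟩
  by_contra hcon
  push Not at hcon
  have hder : pderiv 3 P = 0 := by
    by_contra hne
    have hd := MinP_deg hne
    rw [hPd] at hd
    exact Nat.find_min hp hd ⟨m - 1, pderiv 3 P, hne, hPh.pderiv, hcon, rfl⟩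
  have h3 := MinP_vars hder
  have hvars : (P.vars : Set (Fin 4)) ⊆ Set.range (Fin.castSucc : Fin 3 → Fin 4) := by
    intro i hi
    have hi3 : i ≠ 3 := by
      rintro rfl
      exact h3 hi
    have hlt : (i : ℕ) < 3 := by
      have := i.2
      have h6 : (i : ℕ) ≠ 3 := fun h => hi3 (Fin.ext h)
      omega
    exact ⟨⟨i, hlt⟩, Fin.ext rfl⟩
  obtain ⟨Q, hQ⟩ := exists_rename_eq_of_vars_subset_range P Fin.castSucc
    (Fin.castSucc_injective 3) hvars
  have hQ0 : Q = 0 := by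
    apply h1 m Q ((IsHomogeneous.rename_isHomogeneous_iff (Fin.castSucc_injective 3)).1 (by rw [hQ]; exact hPh))
    intro z hz
    have := hPv z hz
    rw [← hQ, eval_rename] at this
    exact this
  exact hP0 (by rw [← hQ, hQ0, map_zero])

end GAM
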