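import Pool.Agent.GAM.StD2

/-!
# GAM, module Mink: Minkowski's theorem for the lattices `L h`
-/

set_option autoImplicit false

namespace GAM

open scoped ComplexConjugate
open MeasureTheory

/-- a linear map preserving a non-degenerate form has determinant `± 1` -/
theorem Mink_det {V : Type} [AddCommGroup V] [Module ℝ V] [Module.Free ℝ V] [Module.Finite ℝ V]
    {n : ℕ} (b : Module.Basis (Fin n) ℝ V) (B : LinearMap.BilinForm ℝ V)
    (hB : ∀ x, (∀ y, B x y = 0) → x = 0) (f : V →ₗ[ℝ] V)
    (hf : ∀ x y, B (f x) (f y) = B x y) : |LinearMap.det f| = 1 := by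
  classical
  have h1 : B.Nondegenerate := LinearMap.BilinForm.Nondegenerate.ofSeparatingLeft hB
  have h2 := (LinearMap.BilinForm.nondegenerate_iff_det_ne_zero b).1 h1
  have h3 : B.comp f f = B := by
    ext x y
    exact hf x y
  have h4 := LinearMap.BilinForm.toMatrix_comp b b B f f
  rw [h3] at h4
  have h5 := congrArg Matrix.det h4
  rw [Matrix.det_mul, Matrix.det_mul, Matrix.det_transpose, LinearMap.det_toMatrix] at h5
  have h6 : LinearMap.det f * LinearMap.det f = 1 := by
    apply mul_right_cancel₀ h2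
    linear_combination -h5
  have h7 : |LinearMap.det f| * |LinearMap.det f| = 1 := by
    rw [← abs_mul, h6, abs_one]
  nlinarith [abs_nonneg (LinearMap.det f)]

section

variable {S : Type} [Fintype S] [DecidableEq S] {v w : S}

/-- the real signs -/
noncomputable def Mink_e (v w : S) (p : S × Fin 2) : ℝ :=
  if p.2 = 0 then 1 else if p.1 = v ∨ p.1 = w then -1 else 1

omit [Fintype S] in
theorem Mink_e_ne (v w : S) (p : S × Fin 2) : Mink_e v w p ≠ 0 := by
  unfold Mink_e
  split_ifs <;> norm_num

omit [Fintype S] in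
theorem Mink_eps (v w s : S) : eps v w s = ((Mink_e v w (s, 1) : ℝ) : ℂ) := by
  unfold Mink_e eps
  simp only [Fin.isValue, one_ne_zero, if_false]
  split_ifs <;> simp

/-- the invariant form -/
noncomputable def Mink_B (v w : S) : LinearMap.BilinForm ℝ (S × Fin 2 → ℂ) :=
  LinearMap.mk₂ ℝ (fun x y => ∑ p, Mink_e v w p * (x p * conj (y p)).re)
    (by
      intro x x' y
      rw [← Finset.sum_add_distrib]
      refine Finset.sum_congr rfl fun p _ => ?_
      simp only [Pi.add_apply, add_mul, Complex.add_re]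
      ring)
    (by
      intro c x y
      rw [smul_eq_mul, Finset.mul_sum]
      refine Finset.sum_congr rfl fun p _ => ?_
      simp only [Pi.smul_apply, Complex.real_smul, mul_assoc, Complex.re_ofReal_mul]
      ring)
    (by
      intro x y y'
      rw [← Finset.sum_add_distrib]
      refine Finset.sum_congr rfl fun p _ => ?_
      simp only [Pi.add_apply, map_add, mul_add, Complex.add_re])
    (by
      intro c x y
      rw [smul_eq_mul, Finset.mul_sum]
      refine Finset.sum_congr rfl fun p _ => ?_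
      simp only [Pi.smul_apply, Complex.real_smul, map_mul, Complex.conj_ofReal]
      rw [show x p * ((c : ℂ) * conj (y p)) = (c : ℂ) * (x p * conj (y p)) by ring,
        Complex.re_ofReal_mul]
      ring)

theorem Mink_B_apply (x y : S × Fin 2 → ℂ) :
    Mink_B v w x y = ∑ p, Mink_e v w p * (x p * conj (y p)).re := rfl

theorem Mink_B_nd (x : S × Fin 2 → ℂ) (h : ∀ y, Mink_B v w x y = 0) : x = 0 := by
  funext p
  have h1 := h (Pi.single p (x p))
  rw [Mink_B_apply, Finset.sum_eq_single p] at h1
  · rw [Pi.single_eq_same, Complex.mul_conj, Complex.ofReal_re] at h1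
    rcases mul_eq_zero.1 h1 with h2 | h2
    · exact absurd h2 (Mink_e_ne v w p)
    · exact Complex.normSq_eq_zero.1 h2
  · intro q _ hq
    rw [Pi.single_eq_of_ne hq]
    simp
  · intro hp
    exact absurd (Finset.mem_univ p) hp

omit [Fintype S] in
theorem Mink_r0 (h : GG v w) (x : S × Fin 2 → ℂ) (s : S) : rmul h x (s, 0) =
    x (s, 0) * h.a s - eps v w s * (conj (x (s, 1)) * h.b s) := by
  simp [rmul]

omit [Fintype S] in
theorem Mink_r1 (h : GG v w) (x : S × Fin 2 → ℂ) (s : S) : rmul h x (s, 1) =
    x (s, 1) * h.a s + conj (x (s, 0)) * h.b s := by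
  simp [rmul]

/-- `rmul` as a real linear map -/
noncomputable def Mink_L (h : GG v w) : (S × Fin 2 → ℂ) →ₗ[ℝ] (S × Fin 2 → ℂ) where
  toFun := rmul h
  map_add' x y := by
    funext ⟨s, i⟩
    fin_cases i
    · simp only [Fin.zero_eta, Pi.add_apply, Mink_r0, map_add]
      ring
    · simp only [Fin.mk_one, Pi.add_apply, Mink_r1, map_add]
      ring
  map_smul' c x := by
    funext ⟨s, i⟩
    fin_cases i
    · simp only [Fin.zero_eta, Pi.smul_apply, Mink_r0, Complex.real_smul, map_mul,
        Complex.conj_ofReal, RingHom.id_apply]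
      ring
    · simp only [Fin.mk_one, Pi.smul_apply, Mink_r1, Complex.real_smul, map_mul,
        Complex.conj_ofReal, RingHom.id_apply]
      ring

theorem Mink_B_inv (h : GG v w) (x y : S × Fin 2 → ℂ) :
    Mink_B v w (Mink_L h x) (Mink_L h y) = Mink_B v w x y := by
  rw [Mink_B_apply, Mink_B_apply, Fintype.sum_prod_type, Fintype.sum_prod_type]
  refine Finset.sum_congr rfl fun s _ => ?_
  rw [Fin.sum_univ_two, Fin.sum_univ_two]
  show Mink_e v w (s, 0) * (rmul h x (s, 0) * conj (rmul h y (s, 0))).re +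
    Mink_e v w (s, 1) * (rmul h x (s, 1) * conj (rmul h y (s, 1))).re = _
  have h0 : Mink_e v w (s, 0) = 1 := by simp [Mink_e]
  have hr := h.rel s
  rw [Mink_eps] at hr
  rw [Mink_r0, Mink_r0, Mink_r1, Mink_r1, h0, Mink_eps]
  generalize Mink_e v w (s, 1) = e at *
  have hr' := congrArg Complex.re hr
  simp only [Complex.add_re, Complex.mul_re, Complex.conj_re, Complex.conj_im, Complex.ofReal_re,
    Complex.ofReal_im, Complex.mul_im, Complex.one_re] at hr'
  simp only [Complex.add_re, Complex.mul_re, Complex.conj_re, Complex.conj_im, Complex.ofReal_re,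
    Complex.ofReal_im, Complex.mul_im, Complex.sub_re, Complex.sub_im, Complex.add_im,
    map_add, map_sub, map_mul, Complex.conj_conj, Complex.conj_ofReal]
  linear_combination ((x (s, 0)).re * (y (s, 0)).re + (x (s, 0)).im * (y (s, 0)).im +
    e * ((x (s, 1)).re * (y (s, 1)).re + (x (s, 1)).im * (y (s, 1)).im)) * hr'

theorem Mink_detL (h : GG v w) : |LinearMap.det (Mink_L h)| = 1 := by
  have b := Module.finBasis ℝ (S × Fin 2 → ℂ)
  exact Mink_det b (Mink_B v w) Mink_B_nd (Mink_L h) (Mink_B_inv h)

end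

theorem thm_Mink : St_Mink := by
  intro S _ _ v w n b
  set μ : Measure (S × Fin 2 → ℂ) := volume with hμ
  set d := Module.finrank ℝ (S × Fin 2 → ℂ) with hd
  have : Nonempty (S × Fin 2) := ⟨(v, 0)⟩
  have hd1 : 1 ≤ d := by
    have : Nontrivial (S × Fin 2 → ℂ) := inferInstance
    exact Module.finrank_pos
  have hF : μ (ZSpan.fundamentalDomain b) < ⊤ :=
    (ZSpan.fundamentalDomain_isBounded b).measure_lt_top
  have hb0 : 0 < μ (Metric.ball (0 : S × Fin 2 → ℂ) 1) := Metric.measure_ball_pos μ _ one_pos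
  have hb1 : μ (Metric.ball (0 : S × Fin 2 → ℂ) 1) < ⊤ := Metric.isBounded_ball.measure_lt_top
  have hC : μ (ZSpan.fundamentalDomain b) * 2 ^ d ≠ ⊤ := by
    exact ENNReal.mul_ne_top hF.ne (by finiteness)
  set C := (μ (ZSpan.fundamentalDomain b) * 2 ^ d).toReal with hCd
  set c := (μ (Metric.ball (0 : S × Fin 2 → ℂ) 1)).toReal with hcd
  have hc : 0 < c := ENNReal.toReal_pos hb0.ne' hb1.ne
  have hC0 : 0 ≤ C := ENNReal.toReal_nonneg
  have hR : 1 ≤ C / c + 1 := by
    have : 0 ≤ C / c := by positivity
    linarith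
  refine ⟨C / c + 1, fun h => ?_⟩
  set R := C / c + 1 with hRd
  set s : Set (S × Fin 2 → ℂ) := Mink_L h ⁻¹' (Metric.closedBall 0 R) with hs
  have hdet : LinearMap.det (Mink_L h) ≠ 0 := by
    intro h0
    have := Mink_detL h
    rw [h0, abs_zero] at this
    exact zero_ne_one this
  have hms : μ s = μ (Metric.closedBall 0 R) := by
    rw [hs, Measure.addHaar_preimage_linearMap μ hdet, abs_inv, Mink_detL]
    simp
  have hlt : μ (ZSpan.fundamentalDomain b) * 2 ^ d < μ s := by
    rw [hms, Measure.addHaar_closedBall μ 0 (by linarith)]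
    rw [← ENNReal.ofReal_toReal hC, ← ENNReal.ofReal_toReal hb1.ne,
      ← ENNReal.ofReal_mul (by positivity)]
    apply (ENNReal.ofReal_lt_ofReal_iff (by positivity)).2
    calc C = C / c * c := by field_simp
      _ < R * c := by
        apply mul_lt_mul_of_pos_right _ hc
        rw [hRd]
        linarith
      _ ≤ R ^ d * c := by
        apply mul_le_mul_of_nonneg_right _ hc.le
        calc R = R ^ 1 := (pow_one R).symm
          _ ≤ R ^ d := pow_le_pow_right₀ hR hd1
  have hcount : Countable (Submodule.span ℤ (Set.range b)).toAddSubgroup :=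
    inferInstanceAs (Countable (Submodule.span ℤ (Set.range b)))
  obtain ⟨x, hx0, hx⟩ := exists_ne_zero_mem_lattice_of_measure_mul_two_pow_lt_measure
    (ZSpan.isAddFundamentalDomain' b μ) (s := s) (by
      intro x hx
      rw [hs, Set.mem_preimage, mem_closedBall_zero_iff] at hx ⊢
      rw [map_neg, norm_neg]
      exact hx) ((convex_closedBall 0 R).linear_preimage (Mink_L h)) hlt
  refine ⟨(x : S × Fin 2 → ℂ), x.2, ?_, ?_⟩
  · intro h0
    exact hx0 (Subtype.ext h0)
  · intro p
    rw [hs, Set.mem_preimage, mem_closedBall_zero_iff] at hx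
    exact (norm_le_pi_norm (rmul h x) p).trans hx

end GAM
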