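import Pool.Agent.GAM.OrdB

/-!
# GAM: finitely many classes modulo `m`
-/

set_option autoImplicit false

namespace GAM

/-- a common denominator for the pairs of integral elements -/
theorem ModF_den {K : Type} [Field K] [NumberField K] {n : ℕ}
    (f : Module.Basis (Fin n) ℚ (K × K)) :
    ∃ N : ℕ, N ≠ 0 ∧ ∀ β : K × K, IsIntegral ℤ β.1 → IsIntegral ℤ β.2 →
      (N : ℤ) • β ∈ Submodule.span ℤ (Set.range f) := by
  classical
  let ω := NumberField.RingOfIntegers.basis K
  let J := Module.Free.ChooseBasisIndex ℤ (NumberField.RingOfIntegers K)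
  obtain ⟨N, hN, hv⟩ := OrdB_dens f (J := J ⊕ J) fun j =>
    Sum.elim (fun i : J => ((ω i : K), (0 : K))) (fun i : J => ((0 : K), (ω i : K))) j
  refine ⟨N, hN, fun β h1 h2 => ?_⟩
  have key1 : ∀ x : NumberField.RingOfIntegers K,
      (N : ℤ) • (((x : K), (0 : K)) : K × K) ∈ Submodule.span ℤ (Set.range f) := by
    intro x
    have hx : x ∈ Submodule.span ℤ (Set.range ω) := ω.mem_span x
    induction hx using Submodule.span_induction with
    | mem y hy =>
      obtain ⟨i, rfl⟩ := hy
      exact hv (Sum.inl i)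
    | zero =>
      have : (((0 : NumberField.RingOfIntegers K) : K), (0 : K)) = (0 : K × K) := by simp
      rw [this, smul_zero]
      exact zero_mem _
    | add y z _ _ hy hz =>
      have : (((y + z : NumberField.RingOfIntegers K) : K), (0 : K)) =
          ((y : K), (0 : K)) + ((z : K), (0 : K)) := by simp
      rw [this, smul_add]
      exact add_mem hy hz
    | smul a y _ hy =>
      have : (((a • y : NumberField.RingOfIntegers K) : K), (0 : K)) =
          a • ((y : K), (0 : K)) := by
        ext
        · simp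
        · simp
      rw [this, smul_comm]
      exact Submodule.smul_mem _ _ hy
  have key2 : ∀ x : NumberField.RingOfIntegers K,
      (N : ℤ) • (((0 : K), (x : K)) : K × K) ∈ Submodule.span ℤ (Set.range f) := by
    intro x
    have hx : x ∈ Submodule.span ℤ (Set.range ω) := ω.mem_span x
    induction hx using Submodule.span_induction with
    | mem y hy =>
      obtain ⟨i, rfl⟩ := hy
      exact hv (Sum.inr i)
    | zero =>
      have : ((0 : K), ((0 : NumberField.RingOfIntegers K) : K)) = (0 : K × K) := by simp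
      rw [this, smul_zero]
      exact zero_mem _
    | add y z _ _ hy hz =>
      have : ((0 : K), ((y + z : NumberField.RingOfIntegers K) : K)) =
          ((0 : K), (y : K)) + ((0 : K), (z : K)) := by simp
      rw [this, smul_add]
      exact add_mem hy hz
    | smul a y _ hy =>
      have : ((0 : K), ((a • y : NumberField.RingOfIntegers K) : K)) =
          a • ((0 : K), (y : K)) := by
        ext
        · simp
        · simp
      rw [this, smul_comm]
      exact Submodule.smul_mem _ _ hy
  have e : β = (β.1, (0 : K)) + ((0 : K), β.2) := by ext <;> simp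
  rw [e, smul_add]
  exact add_mem (key1 ⟨β.1, h1⟩) (key2 ⟨β.2, h2⟩)

theorem thm_ModF (h1 : St_OrdR) (h2 : St_OrdB) : St_ModF := by
  classical
  intro K _ _ c κ n e m hc hκ hn hm
  obtain ⟨f, hf⟩ := h2 K c κ n e
  obtain ⟨-, -, -, ⟨N, hN, hint⟩, -, -⟩ := h1 K c κ n e hc hκ hn
  obtain ⟨M, hM, hMf⟩ := ModF_den f
  set N1 : ℕ := M * N with hN1
  have hN10 : N1 ≠ 0 := mul_ne_zero hM hN
  -- the multiples by `N1` of the elements of the order have integer coordinates
  have hcoord : ∀ β, inO c κ (Submodule.span ℤ (Set.range e)) β → ∀ i, ∃ z : ℤ,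
      f.repr ((N1 : ℤ) • β) i = z := by
    intro β hβ i
    have h3 : (N1 : ℤ) • β ∈ Submodule.span ℤ (Set.range f) := by
      have e1 : (N1 : ℤ) • β = (M : ℤ) • ((N : ℤ) • β) := by
        rw [smul_smul, hN1]; push_cast; rfl
      rw [e1]
      refine hMf _ ?_ ?_
      · rw [OrdB_smul_fst]
        have := (hint β hβ).1
        push_cast
        exact this
      · rw [OrdB_smul_snd]
        have := (hint β hβ).2
        push_cast
        exact this
    obtain ⟨z, hz⟩ := (f.mem_span_iff_repr_mem ℤ _).1 h3 i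
    exact ⟨z, hz.symm⟩
  have : NeZero (m * N1) := ⟨mul_ne_zero hm hN10⟩
  let T := Fin n → ZMod (m * N1)
  let g : K × K → T := fun β i => ((⌊f.repr ((N1 : ℤ) • β) i⌋ : ℤ) : ZMod (m * N1))
  refine ⟨Fintype.card T, fun β => Fintype.equivFin T (g β), fun β β' hβ hβ' hg => ?_⟩
  have hg' : g β = g β' := (Fintype.equivFin T).injective hg
  have hdiv : ∀ i, ∃ w : ℤ, f.repr ((N1 : ℤ) • β) i - f.repr ((N1 : ℤ) • β') i =
      ((m * N1 : ℕ) : ℚ) * w := by
    intro i
    obtain ⟨z, hz⟩ := hcoord β hβ i
    obtain ⟨z', hz'⟩ := hcoord β' hβ' i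
    have h3 : ((z : ℤ) : ZMod (m * N1)) = z' := by
      have h4 := congrFun hg' i
      simp only [g, hz, hz', Int.floor_intCast] at h4
      exact h4
    have h5 : ((m * N1 : ℕ) : ℤ) ∣ z - z' := by
      rw [← ZMod.intCast_zmod_eq_zero_iff_dvd]
      push_cast at h3 ⊢
      rw [h3, sub_self]
    obtain ⟨w, hw⟩ := h5
    refine ⟨w, ?_⟩
    rw [hz, hz']
    exact_mod_cast hw
  choose w hw using hdiv
  refine ⟨∑ i, (w i) • f i, hf _ ?_, ?_⟩
  · exact Submodule.sum_mem _ fun i _ => Submodule.smul_mem _ _
      (Submodule.subset_span ⟨i, rfl⟩)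
  · have h6 : (N1 : ℤ) • β = (N1 : ℤ) • (β' + (m : ℤ) • ∑ i, (w i) • f i) := by
      apply f.repr.injective
      ext i
      have e2 : (∑ i, (w i) • f i : K × K) = ∑ i, ((w i : ℤ) : ℚ) • f i :=
        Finset.sum_congr rfl fun i _ => (Int.cast_smul_eq_zsmul ℚ _ _).symm
      have e3 : f.repr (∑ i, (w i) • f i) i = w i := by
        rw [e2, f.repr_sum_self]
      have e4 : f.repr ((N1 : ℤ) • ((m : ℤ) • ∑ i, (w i) • f i)) i = (N1 : ℚ) * (m * w i) := by
        rw [map_zsmul, map_zsmul, Finsupp.smul_apply, Finsupp.smul_apply, e3, zsmul_eq_mul,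
          zsmul_eq_mul]
        push_cast
        ring
      rw [smul_add, map_add, Finsupp.add_apply, e4]
      have := hw i
      push_cast at this
      linear_combination this
    have h7 : Function.Injective fun v : K × K => (N1 : ℤ) • v := by
      intro v v' hv
      have h8 : (N1 : ℤ) • (v - v') = 0 := by
        rw [smul_sub]; exact sub_eq_zero.2 hv
      have h9 : (N1 : ℤ) ≠ 0 := by exact_mod_cast hN10
      exact sub_eq_zero.1 ((smul_eq_zero.1 h8).resolve_left h9)
    exact h7 h6

end GAM
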