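import Pool.Agent.GAM.StG
import Pool.Agent.GAM.Hol
import Pool.Agent.GAM.Mer
import Pool.Agent.GAM.EulW

/-!
# GAM: normalisation of the theta functions
-/

set_option autoImplicit false

namespace GAM

variable {ι : Type} [Fintype ι] [DecidableEq ι]

omit [DecidableEq ι] in
private theorem Nor_an {f : (ι → ℂ) → ℂ} (hf : Differentiable ℂ f) (z : ι → ℂ) :
    AnalyticAt ℂ f z :=
  thm_Hol ι Set.univ f isOpen_univ hf.differentiableOn z (Set.mem_univ z)

private theorem Nor_pdl_diff {f : (ι → ℂ) → ℂ} (hf : Differentiable ℂ f) (l : List ι) :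
    Differentiable ℂ (pdl l f) := by
  induction l with
  | nil => exact hf
  | cons a l ih => exact ent_pd ih a

private theorem Nor_pdl_zero (l : List ι) : pdl l (fun _ : ι → ℂ => (0 : ℂ)) = fun _ => 0 := by
  induction l with
  | nil => rfl
  | cons a l ih =>
    change pd a (pdl l fun _ => 0) = _
    rw [ih]
    funext z
    exact EulW_pd_const 0 z a

/-- eigenvalues of `δ` -/
private theorem Nor_key {δ : Derivation ℚ ℂ ℂ} {f : (ι → ℂ) → ℂ} {A : ι → ℂ} {k : ℂ}
    (hf : Differentiable ℂ f) (h : IsDel δ f (fun v => k * f v + eul A f v)) (l : List ι) :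
    δ (pdl l f 0) = (k + (l.map A).sum) * pdl l f 0 := by
  have h1 := h.del l
  have h2 : AnalyticAt ℂ f 0 := Nor_an hf 0
  rw [← h1, (EulW_add (f := fun v => k * f v) (analyticAt_const.mul h2)
    (EulW_eul_an h2 A) l).eq_of_nhds, (EulW_smul h2 k l).eq_of_nhds, thm_EulW ι A f l h2]
  ring

private theorem Nor_mul (δ : Derivation ℚ ℂ ℂ) {a b x y : ℂ} (h1 : δ a = x * a)
    (h2 : δ b = y * b) : δ (a * b) = (x + y) * (a * b) := by
  rw [Derivation.leibniz, h1, h2]
  simp only [smul_eq_mul]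
  ring

private theorem Nor_inv (δ : Derivation ℚ ℂ ℂ) {a x : ℂ} (h1 : δ a = x * a) :
    δ (a⁻¹) = (-x) * a⁻¹ := by
  by_cases ha : a = 0
  · simp [ha]
  rw [Derivation.leibniz_inv, h1]
  simp only [smul_eq_mul]
  field_simp

private theorem Nor_pdl_diag {f : (ι → ℂ) → ℂ} (hf : Differentiable ℂ f) (s : ι → ℂ)
    (l : List ι) : pdl l (fun z => f (fun a => s a * z a)) =
      fun z => (l.map s).prod * pdl l f (fun a => s a * z a) := by
  induction l with
  | nil =>
    funext z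
    simp [pdl]
  | cons a l ih =>
    change pd a (pdl l (fun z => f (fun a => s a * z a))) = _
    rw [ih]
    funext z
    have hd : Differentiable ℂ (pdl l f) := Nor_pdl_diff hf l
    have hd' : Differentiable ℂ fun z : ι → ℂ => pdl l f (fun a => s a * z a) :=
      hd.comp (by fun_prop)
    rw [pd_const_mul' (hd' z), pd_diag' s z a (hd _), List.map_cons, List.prod_cons]
    change _ = _ * pd a (pdl l f) _
    ring

theorem thm_Nor (_hD : St_DelR) (hI : St_Ind1) (hO : St_OddD) : St_Nor := by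
  intro ι _ _ L χ θ A k hP hT hne hE
  obtain ⟨v₀, hv₀⟩ := hne
  -- the point y
  have hopen : IsOpen {v | θ v ≠ 0} := isOpen_ne_fun hT.ent.continuous continuous_const
  obtain ⟨y, hy1, hy2⟩ := (hO ι L hP.lat).exists_mem_open hopen ⟨v₀, hv₀⟩
  have hy0 : F θ y 0 ≠ 0 := by
    rw [F_ne_iff, add_zero]
    exact hy2
  -- the points x_a
  have hx : ∀ a : ι, ∃ x, OddTor L x ∧ pd a (F θ x) 0 ≠ 0 := by
    intro a
    obtain ⟨x, hx1, hx2⟩ := hI ι L χ θ hP hT ⟨v₀, hv₀⟩ (Pi.single a 1) 0 (by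
      intro h
      have := congrFun h a
      simp at this)
    refine ⟨x, hx1, ?_⟩
    rw [zero_mul] at hx2
    exact hx2
  choose X hX1 hX2 using hx
  have hFd : ∀ x, Differentiable ℂ (F θ x) := fun x => F_differentiable hT x
  have key : ∀ (δ : Derivation ℚ ℂ ℂ) x, OddTor L x → ∀ l : List ι,
      δ (pdl l (F θ x) 0) = (k δ + (l.map (A δ)).sum) * pdl l (F θ x) 0 :=
    fun δ x hx l => Nor_key (hFd x) (hE δ x hx) l
  have keyq : ∀ δ : Derivation ℚ ℂ ℂ, δ (F θ y 0) = k δ * F θ y 0 := by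
    intro δ
    have h := key δ y hy1 []
    simpa [pdl] using h
  have keyp : ∀ (δ : Derivation ℚ ℂ ℂ) a, δ (pd a (F θ (X a)) 0) =
      (k δ + A δ a) * pd a (F θ (X a)) 0 := by
    intro δ a
    have h := key δ (X a) (hX1 a) [a]
    simpa [pdl] using h
  refine ⟨fun a => pd a (F θ (X a)) 0 / F θ y 0, y, ?_⟩
  have hμ : ∀ (δ : Derivation ℚ ℂ ℂ) a, δ (pd a (F θ (X a)) 0 / F θ y 0) =
      A δ a * (pd a (F θ (X a)) 0 / F θ y 0) := by
    intro δ a
    rw [div_eq_mul_inv, Nor_mul δ (keyp δ a) (Nor_inv δ (keyq δ))]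
    ring
  refine ⟨fun a => div_ne_zero (hX2 a) hy0, hy1, hy0, hμ, ?_⟩
  intro δ x hx
  set μ₀ : ι → ℂ := fun a => pd a (F θ (X a)) 0 / F θ y 0 with hμ₀
  refine ⟨?_, differentiable_const _, ?_⟩
  · have h1 : Differentiable ℂ fun z : ι → ℂ =>
        F θ x (fun a => (μ₀ a)⁻¹ * z a) :=
      (hFd x).comp (by fun_prop)
    have h2 : Tn θ μ₀ y x = fun z => F θ x (fun a => (μ₀ a)⁻¹ * z a) * (F θ y 0)⁻¹ := by
      funext z
      unfold Tn
      rw [div_eq_mul_inv]
    rw [h2]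
    exact h1.mul_const _
  · intro l
    rw [Nor_pdl_zero]
    have h1 : pdl l (Tn θ μ₀ y x) 0 =
        (l.map fun a => (μ₀ a)⁻¹).prod * pdl l (F θ x) 0 * (F θ y 0)⁻¹ := by
      have h2 : Tn θ μ₀ y x = fun z => (F θ y 0)⁻¹ * F θ x (fun a => (μ₀ a)⁻¹ * z a) := by
        funext z
        unfold Tn
        rw [div_eq_mul_inv, mul_comm]
      have h3 : Differentiable ℂ fun z : ι → ℂ => F θ x (fun a => (μ₀ a)⁻¹ * z a) :=
        (hFd x).comp (by fun_prop)
      rw [h2, (EulW_smul (Nor_an h3 0) (F θ y 0)⁻¹ l).eq_of_nhds,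
        Nor_pdl_diag (hFd x) (fun a => (μ₀ a)⁻¹) l]
      simp only [Pi.zero_apply, mul_zero]
      have h4 : (fun _ : ι => (0 : ℂ)) = 0 := rfl
      rw [h4]
      ring
    have h5 : ∀ l : List ι, δ ((l.map fun a => (μ₀ a)⁻¹).prod) =
        (-(l.map (A δ)).sum) * (l.map fun a => (μ₀ a)⁻¹).prod := by
      intro l
      induction l with
      | nil => simp
      | cons a l ih =>
        rw [List.map_cons, List.prod_cons, Nor_mul δ (Nor_inv δ (hμ δ a)) ih, List.map_cons,
          List.sum_cons]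
        ring
    rw [h1, Nor_mul δ (Nor_mul δ (h5 l) (key δ x hx l)) (Nor_inv δ (keyq δ))]
    ring

end GAM
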