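import Pool.Agent.GAM.StD2

/-!
# GAM: finitely many reduced norms of bounded size
-/

set_option autoImplicit false

namespace GAM

theorem NrdF_integral {K : Type} [Field K] [NumberField K] (c : K →+* K) {κ β1 β2 : K}
    {N N' : ℕ} (h1 : IsIntegral ℤ ((N : K) * β1)) (h2 : IsIntegral ℤ ((N : K) * β2))
    (h3 : IsIntegral ℤ ((N' : K) * κ)) :
    IsIntegral ℤ ((N : K) ^ 2 * N' * nrd c κ (β1, β2)) := by
  have e : (N : K) ^ 2 * N' * nrd c κ (β1, β2) =
      (N' : K) * (((N : K) * β1) * c ((N : K) * β1)) +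
        ((N' : K) * κ) * (((N : K) * β2) * c ((N : K) * β2)) := by
    unfold nrd
    simp only [map_mul, map_natCast]
    ring
  rw [e]
  have hc : ∀ x : K, IsIntegral ℤ x → IsIntegral ℤ (c x) := fun x hx => map_isIntegral_int c hx
  have hN : IsIntegral ℤ (N' : K) := by
    have := isIntegral_algebraMap (R := ℤ) (A := K) (x := (N' : ℤ))
    simpa using this
  exact (hN.mul (h1.mul (hc _ h1))).add (h3.mul (h2.mul (hc _ h2)))

theorem NrdF_mult {K : Type} [Field K] [NumberField K] (κ : K) :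
    ∃ N' : ℕ, N' ≠ 0 ∧ IsIntegral ℤ ((N' : K) * κ) := by
  have halg : IsAlgebraic ℤ κ := by
    have h1 : IsAlgebraic ℚ κ := Algebra.IsAlgebraic.isAlgebraic κ
    exact (IsFractionRing.isAlgebraic_iff ℤ ℚ K).2 h1
  obtain ⟨y, hy, h⟩ := halg.exists_integral_multiple
  refine ⟨y.natAbs, Int.natAbs_ne_zero.2 hy, ?_⟩
  rcases Int.natAbs_eq y with h2 | h2
  · have h3 : ((y.natAbs : ℕ) : ℤ) = y := h2.symm
    have e : ((y.natAbs : ℕ) : K) * κ = y • κ := by
      rw [zsmul_eq_mul, ← Int.cast_natCast, h3]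
    rw [e]; exact h
  · have h3 : ((y.natAbs : ℕ) : ℤ) = -y := by omega
    have e : ((y.natAbs : ℕ) : K) * κ = -(y • κ) := by
      rw [zsmul_eq_mul, ← neg_mul, ← Int.cast_natCast, h3, Int.cast_neg]
    rw [e]; exact h.neg

theorem thm_NrdF (h1 : St_OrdR) : St_NrdF := by
  intro K _ _ c κ n e R hc hκ hn
  obtain ⟨-, -, -, ⟨N, hN, hint⟩, -, -⟩ := h1 K c κ n e hc hκ hn
  obtain ⟨N', hN', hκi⟩ := NrdF_mult κ
  have hfin := NumberField.Embeddings.finite_of_norm_le K ℂ ((N : ℝ) ^ 2 * N' * R)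
  have hinj : Set.InjOn (fun x : K => (N : K) ^ 2 * N' * x)
      ((fun x : K => (N : K) ^ 2 * N' * x) ⁻¹'
        {x : K | IsIntegral ℤ x ∧ ∀ φ : K →+* ℂ, ‖φ x‖ ≤ (N : ℝ) ^ 2 * N' * R}) := by
    intro x _ y _ hxy
    have h0 : (N : K) ^ 2 * N' ≠ 0 :=
      mul_ne_zero (pow_ne_zero 2 (Nat.cast_ne_zero.2 hN)) (Nat.cast_ne_zero.2 hN')
    exact mul_left_cancel₀ h0 hxy
  refine (hfin.preimage hinj).subset ?_
  rintro x ⟨hx, β, hβ, rfl⟩
  refine ⟨NrdF_integral c (hint β hβ).1 (hint β hβ).2 hκi, fun φ => ?_⟩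
  simp only [map_mul, map_pow, map_natCast, norm_mul, norm_pow, Complex.norm_natCast]
  exact mul_le_mul_of_nonneg_left (hx φ) (by positivity)

end GAM
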