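import Pool.Agent.GAM.StA

/-!
# GAM [OddD]: points of odd order are dense
-/

set_option autoImplicit false

namespace GAM

open scoped ComplexConjugate

theorem thm_OddD : St_OddD := by
  classical
  intro ι _ L hL
  obtain ⟨b, hb⟩ := hL
  rw [Metric.dense_iff]
  intro v r hr
  set C : ℝ := ∑ i, ‖b i‖ with hC
  have hC0 : 0 ≤ C := Finset.sum_nonneg fun i _ => norm_nonneg _
  obtain ⟨m, hm⟩ := exists_nat_gt (C / r)
  set n : ℕ := 2 * m + 1 with hn
  have hn0 : (0 : ℝ) < n := by rw [hn]; positivity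
  have hCn : C < r * n := by
    rw [div_lt_iff₀ hr] at hm
    have h1 : (n : ℝ) = 2 * m + 1 := by rw [hn]; push_cast; ring
    have h2 : (0 : ℝ) ≤ m := by positivity
    rw [h1]
    nlinarith
  set x : ι → ℂ := ∑ i, ((⌊n * b.repr v i⌋ : ℝ) / n) • b i with hx
  refine ⟨x, ?_, n, ⟨m, hn⟩, ?_⟩
  · rw [Metric.mem_ball, dist_eq_norm]
    have h1 : x - v = ∑ i, ((⌊n * b.repr v i⌋ : ℝ) / n - b.repr v i) • b i := by
      conv_lhs => rw [← b.sum_repr v, hx, ← Finset.sum_sub_distrib]
      refine Finset.sum_congr rfl fun i _ => ?_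
      rw [sub_smul]
    rw [h1]
    have h2 : ∀ i, |(⌊n * b.repr v i⌋ : ℝ) / n - b.repr v i| ≤ 1 / n := by
      intro i
      have h3 := Int.floor_le (n * b.repr v i)
      have h4 := Int.lt_floor_add_one (n * b.repr v i)
      have h5 : (⌊n * b.repr v i⌋ : ℝ) / n - b.repr v i =
          ((⌊n * b.repr v i⌋ : ℝ) - n * b.repr v i) / n := by
        field_simp
      rw [h5, abs_div, abs_of_pos hn0]
      apply div_le_div_of_nonneg_right _ hn0.le
      rw [abs_le]
      constructor <;> linarith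
    calc _ ≤ ∑ i, ‖((⌊n * b.repr v i⌋ : ℝ) / n - b.repr v i) • b i‖ := norm_sum_le _ _
      _ ≤ ∑ i, (1 / n : ℝ) * ‖b i‖ := by
          refine Finset.sum_le_sum fun i _ => ?_
          rw [norm_smul, Real.norm_eq_abs]
          exact mul_le_mul_of_nonneg_right (h2 i) (norm_nonneg _)
      _ = C / n := by rw [← Finset.mul_sum, hC]; ring
      _ < r := by rw [div_lt_iff₀ hn0]; exact hCn
  · have h1 : ((n : ℤ) • x : ι → ℂ) = ∑ i, ⌊n * b.repr v i⌋ • b i := by
      rw [hx, Finset.smul_sum]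
      refine Finset.sum_congr rfl fun i _ => ?_
      rw [← Int.cast_smul_eq_zsmul ℝ, ← Int.cast_smul_eq_zsmul ℝ, smul_smul]
      congr 1
      push_cast
      field_simp
    show ((n : ℤ) • x : ι → ℂ) ∈ L
    rw [h1, hb]
    exact Submodule.sum_mem _ fun i _ => Submodule.smul_mem _ _ (Submodule.subset_span ⟨i, rfl⟩)

end GAM
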