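import Pool.Agent.GAM.StD2

set_option autoImplicit false
set_option linter.unusedSimpArgs false

namespace GAM

theorem OrdR_cc {K : Type} [Field K] [NumberField K] {c : K →+* K} (h : CMF K c) (x : K) :
    c (c x) = x := by
  obtain ⟨σ⟩ : Nonempty (K →+* ℂ) := inferInstance
  apply σ.injective
  rw [← h.cc σ (c x), ← h.cc σ x, Complex.conj_conj]

section alg

variable {K : Type} [Field K] (c : K →+* K) (κ : K)

theorem OrdR_add_left (β β' x : K × K) : tw c κ (β + β') x = tw c κ β x + tw c κ β' x := by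
  simp only [tw, Prod.fst_add, Prod.snd_add, map_add, Prod.mk_add_mk, Prod.mk.injEq]
  constructor <;> ring

theorem OrdR_neg_left (β x : K × K) : tw c κ (-β) x = - tw c κ β x := by
  simp only [tw, Prod.fst_neg, Prod.snd_neg, map_neg, Prod.neg_mk, Prod.mk.injEq]
  constructor <;> ring

theorem OrdR_zero_left (x : K × K) : tw c κ 0 x = 0 := by
  simp [tw]

theorem OrdR_add_right (β x y : K × K) : tw c κ β (x + y) = tw c κ β x + tw c κ β y := by
  simp only [tw, Prod.fst_add, Prod.snd_add, Prod.mk_add_mk, Prod.mk.injEq]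
  constructor <;> ring

theorem OrdR_zero_right (β : K × K) : tw c κ β 0 = 0 := by
  simp [tw]

omit c κ in
theorem OrdR_zsmul (m : ℤ) (x : K × K) : m • x = ((m : K) * x.1, (m : K) * x.2) := by
  ext
  · rw [Prod.smul_fst, zsmul_eq_mul]
  · rw [Prod.smul_snd, zsmul_eq_mul]

theorem OrdR_smul_right (m : ℤ) (β x : K × K) : tw c κ β (m • x) = m • tw c κ β x := by
  rw [OrdR_zsmul, OrdR_zsmul]
  simp only [tw, Prod.mk.injEq]
  constructor <;> ring

theorem OrdR_smul_left (m : ℤ) (β x : K × K) : tw c κ (m • β) x = m • tw c κ β x := by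
  rw [OrdR_zsmul, OrdR_zsmul]
  simp only [tw, Prod.mk.injEq, map_mul, map_intCast]
  constructor <;> ring

theorem OrdR_one (x : K × K) : tw c κ (1, 0) x = x := by
  simp [tw]

theorem OrdR_mul_one (x : K × K) : tw c κ x (1, 0) = x := by
  simp [tw]

/-- The order as a module. -/
def OrdR_O (Q : Submodule ℤ (K × K)) : Submodule ℤ (K × K) where
  carrier := {β | inO c κ Q β}
  add_mem' {β β'} h h' := by
    intro x hx
    rw [OrdR_add_left]
    exact Q.add_mem (h x hx) (h' x hx)
  zero_mem' := by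
    intro x hx
    rw [OrdR_zero_left]
    exact Q.zero_mem
  smul_mem' m β h := by
    intro x hx
    rw [OrdR_smul_left]
    exact Q.smul_mem m (h x hx)

theorem OrdR_mem (Q : Submodule ℤ (K × K)) (β : K × K) : β ∈ OrdR_O c κ Q ↔ inO c κ Q β :=
  Iff.rfl

end alg

/-- Denominators. -/
theorem OrdR_den {V : Type} [AddCommGroup V] [Module ℚ V] {n : ℕ}
    (e : Module.Basis (Fin n) ℚ V) (y : V) :
    ∃ N : ℕ, N ≠ 0 ∧ ((N : ℤ) • y) ∈ Submodule.span ℤ (Set.range e) := by
  refine ⟨∏ i, (e.repr y i).den, Finset.prod_ne_zero_iff.mpr fun i _ => (e.repr y i).den_nz, ?_⟩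
  have h1 : y = ∑ i, (e.repr y i) • e i := (e.sum_repr y).symm
  rw [h1, Finset.smul_sum, ← h1]
  refine Submodule.sum_mem _ fun i _ => ?_
  have h2 : ((∏ i, (e.repr y i).den : ℕ) : ℤ) • (e.repr y i) • e i =
      (((∏ j ∈ Finset.univ.erase i, (e.repr y j).den : ℕ) : ℤ) * (e.repr y i).num) • e i := by
    rw [← Finset.prod_erase_mul _ _ (Finset.mem_univ i)]
    rw [← Int.cast_smul_eq_zsmul ℚ, ← Int.cast_smul_eq_zsmul ℚ, smul_smul]
    congr 1
    push_cast
    rw [mul_assoc, Rat.den_mul_eq_num]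
  rw [h2]
  exact Submodule.smul_mem _ _ (Submodule.subset_span ⟨i, rfl⟩)

/-- Common denominators. -/
theorem OrdR_dens {V : Type} [AddCommGroup V] [Module ℚ V] {n : ℕ}
    (e : Module.Basis (Fin n) ℚ V) {κ : Type} [Fintype κ] (y : κ → V) :
    ∃ N : ℕ, N ≠ 0 ∧ ∀ i, ((N : ℤ) • y i) ∈ Submodule.span ℤ (Set.range e) := by
  classical
  choose N hN h using fun i => OrdR_den e (y i)
  refine ⟨∏ i, N i, Finset.prod_ne_zero_iff.mpr fun i _ => hN i, fun i => ?_⟩
  rw [← Finset.prod_erase_mul _ _ (Finset.mem_univ i), Nat.cast_mul, mul_smul]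
  exact Submodule.smul_mem _ _ (h i)

theorem thm_OrdR : St_OrdR := by
  intro K _ _ c κ n e hc hκ hdiv
  have hcc := OrdR_cc hc
  set Q : Submodule ℤ (K × K) := Submodule.span ℤ (Set.range e) with hQ
  have assoc : ∀ β β' x : K × K, tw c κ β (tw c κ β' x) = tw c κ (tw c κ β β') x := by
    intro β β' x
    simp only [tw, map_add, map_sub, map_mul, hcc, hκ, Prod.mk.injEq]
    constructor <;> ring
  have h6 : ∀ β : K × K, tw c κ (c β.1, -β.2) β = (nrd c κ β, 0) ∧
      tw c κ β (c β.1, -β.2) = (nrd c κ β, 0) := by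
    intro β
    simp only [tw, nrd, map_neg, hcc, Prod.mk.injEq]
    refine ⟨⟨by ring, by ring⟩, by ring, by ring⟩
  -- membership on generators
  have hgen : ∀ β : K × K, (∀ i, tw c κ β (e i) ∈ Q) → inO c κ Q β := by
    intro β hβ x hx
    induction hx using Submodule.span_induction with
    | mem x hx =>
      obtain ⟨i, rfl⟩ := hx
      exact hβ i
    | zero =>
      rw [OrdR_zero_right]
      exact Q.zero_mem
    | add x y _ _ h1 h2 =>
      rw [OrdR_add_right]
      exact Q.add_mem h1 h2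
    | smul m x _ h1 =>
      rw [OrdR_smul_right]
      exact Q.smul_mem m h1
  have h3 : ∀ β : K × K, ∃ N : ℕ, N ≠ 0 ∧ inO c κ Q ((N : ℤ) • β) := by
    intro β
    obtain ⟨N, hN, h⟩ := OrdR_dens e fun i => tw c κ β (e i)
    refine ⟨N, hN, hgen _ fun i => ?_⟩
    rw [OrdR_smul_left]
    exact h i
  refine ⟨?_, ?_, h3, ?_, ?_, ?_⟩
  · intro β β' hβ hβ'
    refine ⟨(OrdR_O c κ Q).add_mem hβ hβ', (OrdR_O c κ Q).neg_mem hβ, ?_⟩
    intro x hx
    rw [← assoc]
    exact hβ _ (hβ' x hx)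
  · intro x hx
    rw [OrdR_one]
    exact hx
  · -- denominators of the elements of the order
    have hn : Nonempty (Fin n) := by
      by_contra h
      rw [not_nonempty_iff] at h
      have h1 : Subsingleton (K × K) := e.repr.toEquiv.subsingleton
      have h2 : ((1 : K), (0 : K)) = 0 := Subsingleton.elim _ _
      have h3 : (1 : K) = 0 := (Prod.ext_iff.mp h2).1
      exact one_ne_zero h3
    obtain ⟨i₀⟩ := hn
    set x₀ : K × K := e i₀ with hx₀
    have hx0 : x₀ ≠ 0 := e.ne_zero i₀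
    have hν : nrd c κ x₀ ≠ 0 := fun h => hx0 (hdiv _ h)
    set y₀ : K × K := ((nrd c κ x₀)⁻¹ * c x₀.1, (nrd c κ x₀)⁻¹ * -x₀.2) with hy₀
    have hxy : tw c κ x₀ y₀ = (1, 0) := by
      have h1 := (h6 x₀).2
      have h2 : tw c κ x₀ y₀ = ((nrd c κ x₀)⁻¹ * (tw c κ x₀ (c x₀.1, -x₀.2)).1,
          (nrd c κ x₀)⁻¹ * (tw c κ x₀ (c x₀.1, -x₀.2)).2) := by
        rw [hy₀]
        generalize (nrd c κ x₀)⁻¹ = t
        simp only [tw, Prod.mk.injEq]
        constructor <;> ring
      rw [h2, h1]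
      simp [inv_mul_cancel₀ hν]
    classical
    have halg : Algebra.IsAlgebraic ℤ K :=
      (IsFractionRing.comap_isAlgebraic_iff (A := ℤ) (K := ℚ) (C := K)).mpr inferInstance
    obtain ⟨N, hN, hint⟩ := Algebra.IsAlgebraic.exists_integral_multiples (R := ℤ)
      (A := K) (Finset.univ.image (fun i : Fin n => (tw c κ (e i) y₀).1) ∪
        Finset.univ.image (fun i : Fin n => (tw c κ (e i) y₀).2))
    have hi1 : ∀ i, IsIntegral ℤ (N • (tw c κ (e i) y₀).1) := fun i =>
      hint _ (Finset.mem_union_left _ (Finset.mem_image_of_mem _ (Finset.mem_univ i)))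
    have hi2 : ∀ i, IsIntegral ℤ (N • (tw c κ (e i) y₀).2) := fun i =>
      hint _ (Finset.mem_union_right _ (Finset.mem_image_of_mem _ (Finset.mem_univ i)))
    have hall : ∀ z ∈ Q, IsIntegral ℤ (N • (tw c κ z y₀).1) ∧
        IsIntegral ℤ (N • (tw c κ z y₀).2) := by
      intro z hz
      induction hz using Submodule.span_induction with
      | mem x hx =>
        obtain ⟨i, rfl⟩ := hx
        exact ⟨hi1 i, hi2 i⟩
      | zero =>
        rw [OrdR_zero_left]
        simp only [Prod.fst_zero, Prod.snd_zero, smul_zero]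
        exact ⟨isIntegral_zero, isIntegral_zero⟩
      | add x y _ _ h1 h2 =>
        rw [OrdR_add_left]
        simp only [Prod.fst_add, Prod.snd_add, smul_add]
        exact ⟨h1.1.add h2.1, h1.2.add h2.2⟩
      | smul m x _ h1 =>
        rw [OrdR_smul_left]
        simp only [Prod.smul_fst, Prod.smul_snd]
        rw [smul_comm, smul_comm N m]
        exact ⟨h1.1.smul m, h1.2.smul m⟩
    refine ⟨N.natAbs, Int.natAbs_ne_zero.mpr hN, fun β hβ => ?_⟩
    have h1 := hall _ (hβ x₀ (Submodule.subset_span ⟨i₀, rfl⟩))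
    rw [← assoc, hxy, OrdR_mul_one] at h1
    simp only [zsmul_eq_mul] at h1
    rcases Int.natAbs_eq N with h | h
    · have h2 : ((N.natAbs : ℕ) : K) = (N : K) := by
        have h4 : (N : K) = ((N.natAbs : ℤ) : K) := congrArg (fun t : ℤ => (t : K)) h
        rw [h4, Int.cast_natCast]
      rw [h2]
      exact h1
    · have h2 : ((N.natAbs : ℕ) : K) = -(N : K) := by
        have h4 : (N : K) = ((-(N.natAbs : ℤ) : ℤ) : K) := congrArg (fun t : ℤ => (t : K)) h
        rw [h4, Int.cast_neg, Int.cast_natCast, neg_neg]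
      rw [h2, neg_mul, neg_mul]
      exact ⟨h1.1.neg, h1.2.neg⟩
  · -- integral elements
    let B := NumberField.RingOfIntegers.basis K
    choose N1 hN1 h1 using fun i => h3 ((B i : K), (0 : K))
    choose N2 hN2 h2 using fun i => h3 ((0 : K), (B i : K))
    classical
    refine ⟨(∏ i, N1 i) * ∏ i, N2 i, mul_ne_zero (Finset.prod_ne_zero_iff.mpr fun i _ => hN1 i)
      (Finset.prod_ne_zero_iff.mpr fun i _ => hN2 i), fun β hβ1 hβ2 => ?_⟩
    set N : ℕ := (∏ i, N1 i) * ∏ i, N2 i with hN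
    have g1 : ∀ i, (N : ℤ) • ((B i : K), (0 : K)) ∈ OrdR_O c κ Q := by
      intro i
      rw [hN, mul_comm, ← Finset.prod_erase_mul _ N1 (Finset.mem_univ i), ← mul_assoc,
        Nat.cast_mul, mul_smul]
      exact Submodule.smul_mem _ _ (h1 i)
    have g2 : ∀ i, (N : ℤ) • ((0 : K), (B i : K)) ∈ OrdR_O c κ Q := by
      intro i
      rw [hN, ← Finset.prod_erase_mul _ N2 (Finset.mem_univ i), ← mul_assoc,
        Nat.cast_mul, mul_smul]
      exact Submodule.smul_mem _ _ (h2 i)
    have e1 : ∀ x : NumberField.RingOfIntegers K, (x : K) = ∑ i, (B.repr x i : ℤ) • (B i : K) := by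
      intro x
      have h := B.sum_repr x
      have h' := congrArg (fun t : NumberField.RingOfIntegers K => (t : K)) h
      simp only [map_sum] at h'
      rw [← h']
      refine Finset.sum_congr rfl fun i _ => ?_
      rw [zsmul_eq_mul, zsmul_eq_mul]
      push_cast
      rfl
    have k1 : β = ∑ i, ((B.repr ⟨β.1, hβ1⟩ i : ℤ) • ((B i : K), (0 : K))) +
        ∑ i, ((B.repr ⟨β.2, hβ2⟩ i : ℤ) • ((0 : K), (B i : K))) := by
      ext
      · rw [Prod.fst_add, Prod.fst_sum, Prod.fst_sum]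
        simp only [Prod.smul_fst, smul_zero, Finset.sum_const_zero, add_zero]
        exact e1 ⟨β.1, hβ1⟩
      · rw [Prod.snd_add, Prod.snd_sum, Prod.snd_sum]
        simp only [Prod.smul_snd, smul_zero, Finset.sum_const_zero, zero_add]
        exact e1 ⟨β.2, hβ2⟩
    rw [k1, smul_add, Finset.smul_sum, Finset.smul_sum]
    refine (OrdR_O c κ Q).add_mem (Submodule.sum_mem _ fun i _ => ?_)
      (Submodule.sum_mem _ fun i _ => ?_)
    · rw [smul_comm]
      exact Submodule.smul_mem _ _ (g1 i)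
    · rw [smul_comm]
      exact Submodule.smul_mem _ _ (g2 i)
  · intro β β' x
    refine ⟨assoc β β' x, ?_, (h6 β).1, (h6 β).2⟩
    simp only [tw, nrd, map_add, map_sub, map_mul, hcc, hκ]
    ring

end GAM
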