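import Pool.Agent.GAM.Hat

/-!
# GAM: [Per], the derivatives by `δ` of periodic functions
-/

set_option autoImplicit false
set_option linter.unusedSectionVars false
set_option linter.unusedVariables false

namespace GAM

open scoped ComplexConjugate Topology
open Filter

variable {ι : Type} [Fintype ι] [DecidableEq ι] {δ : Derivation ℚ ℂ ℂ}
  {Λ : Submodule ℤ (ι → ℂ)}

theorem pd_sum' {κ : Type} (s : Finset κ) {f : κ → (ι → ℂ) → ℂ} {v : ι → ℂ}
    (hf : ∀ i ∈ s, DifferentiableAt ℂ (f i) v) (j : ι) :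
    pd j (fun z => ∑ i ∈ s, f i z) v = ∑ i ∈ s, pd j (f i) v := by
  unfold pd
  rw [fderiv_fun_sum hf]
  simp

theorem Fac.ne {e : (ι → ℂ) → (ι → ℂ) → ℂ} {N : (ι → ℂ) → ℝ} (h : Fac Λ e N) {l : ι → ℂ}
    (hl : l ∈ Λ) (v : ι → ℂ) : e l v ≠ 0 := by
  rw [← norm_pos_iff, h.norm l hl v]
  exact Real.exp_pos _

theorem QD.per {a b a' b' : (ι → ℂ) → ℂ} (h : QD δ Λ a b a' b') {l : ι → ℂ} (hl : l ∈ Λ)
    (v : ι → ℂ) : a (v + l) / b (v + l) = a v / b v := by
  obtain ⟨e, N, h1, h2, h3⟩ := h.fac
  rw [h2 l hl v, h3 l hl v]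
  exact mul_div_mul_left _ _ (h1.ne hl v)

theorem QD.ne {a b a' b' : (ι → ℂ) → ℂ} (h : QD δ Λ a b a' b') {l : ι → ℂ} (hl : l ∈ Λ)
    {v : ι → ℂ} (hv : b v ≠ 0) : b (v + l) ≠ 0 := by
  obtain ⟨e, N, h1, h2, h3⟩ := h.fac
  rw [h3 l hl v]
  exact mul_ne_zero (h1.ne hl v) hv

theorem QD.hat {a b a' b' : (ι → ℂ) → ℂ} (h : QD δ Λ a b a' b') :
    Hat δ (fun v => a v / b v) (qd a b a' b') := Hat.quot h.da h.db h.nz

/-- factor of automorphy of the Wronskian -/
theorem wr_fac {a b : (ι → ℂ) → ℂ} (ha : Differentiable ℂ a) (hb : Differentiable ℂ b)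
    {e : (ι → ℂ) → (ι → ℂ) → ℂ} {N : (ι → ℂ) → ℝ} (h : Fac Λ e N) (h2 : HasFac Λ e a)
    (h3 : HasFac Λ e b) (k : ι) :
    HasFac Λ (fun l v => e l v * e l v) (fun v => pd k a v * b v - a v * pd k b v) := by
  -- the case of a nonzero denominator
  have key : ∀ (a b : (ι → ℂ) → ℂ), Differentiable ℂ a → Differentiable ℂ b → HasFac Λ e a →
      HasFac Λ e b → ∀ l ∈ Λ, ∀ v, b v ≠ 0 →
      pd k a (v + l) * b (v + l) - a (v + l) * pd k b (v + l) =
        e l v * e l v * (pd k a v * b v - a v * pd k b v) := by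
    intro a b ha hb h2 h3 l hl v hv
    have hne := h.ne hl v
    have hv' : b (v + l) ≠ 0 := by rw [h3 l hl v]; exact mul_ne_zero hne hv
    have e1 : (fun z => a (z + l) / b (z + l)) = fun z => a z / b z := by
      funext z
      rw [h2 l hl z, h3 l hl z]
      exact mul_div_mul_left _ _ (h.ne hl z)
    have e2 := pd_div' (ha v) (hb v) hv k
    have e3 : pd k (fun z => a (z + l) / b (z + l)) v =
        (pd k a (v + l) * b (v + l) - a (v + l) * pd k b (v + l)) / b (v + l) ^ 2 := by
      have e4 : DifferentiableAt ℂ (fun z => a (z + l)) v :=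
        (ha.comp (differentiable_id.add_const l)) v
      have e5 : DifferentiableAt ℂ (fun z => b (z + l)) v :=
        (hb.comp (differentiable_id.add_const l)) v
      rw [pd_div' e4 e5 hv', pd_shift', pd_shift']
    rw [e1, e2, h3 l hl v] at e3
    rw [div_eq_div_iff (pow_ne_zero 2 hv) (pow_ne_zero 2 (mul_ne_zero hne hv))] at e3
    rw [h3 l hl v]
    have h5 : b v ^ 2 ≠ 0 := pow_ne_zero 2 hv
    apply mul_right_cancel₀ h5
    linear_combination -e3
  intro l hl v
  simp only
  by_cases hv : b v = 0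
  · by_cases hva : a v = 0
    · rw [h2 l hl v, h3 l hl v, hv, hva]; ring
    · have := key b a hb ha h3 h2 l hl v hva
      linear_combination -this
  · exact key a b ha hb h2 h3 l hl v hv

theorem QD.pd (hR : DelRules ι δ) {a b a' b' : (ι → ℂ) → ℂ} (h : QD δ Λ a b a' b') (k : ι) :
    QD δ Λ (fun v => pd k a v * b v - a v * pd k b v) (fun v => b v * b v)
      (fun v => GAM.pd k a' v * b v + GAM.pd k a v * b' v -
        (a' v * GAM.pd k b v + a v * GAM.pd k b' v)) (fun v => b' v * b v + b v * b' v) where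
  da := IsDel.wr hR h.da h.db k
  db := hR.mul _ _ _ _ h.db h.db
  nz := ent_mul_ne h.db.ent h.db.ent h.nz h.nz
  fac := by
    obtain ⟨e, N, h1, h2, h3⟩ := h.fac
    refine ⟨fun l v => e l v * e l v, fun v => N v + N v, ⟨h1.cont.add h1.cont,
      fun l hl => (h1.hol l hl).mul (h1.hol l hl), ?_⟩,
      wr_fac h.da.ent h.db.ent h1 h2 h3 k, ?_⟩
    · intro l hl v
      rw [norm_mul, h1.norm l hl v, ← Real.exp_add]
      congr 1; ring
    · intro l hl v
      simp only [h3 l hl v]
      ring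

theorem pd_div_cont {a b : (ι → ℂ) → ℂ} {v : ι → ℂ} (ha : Differentiable ℂ a)
    (hb : Differentiable ℂ b) (hv : b v ≠ 0) (j : ι) :
    ContinuousAt (pd j (fun z => a z / b z)) v := by
  have h1 : ContinuousAt (fun z => (pd j a z * b z - a z * pd j b z) / b z ^ 2) v :=
    ((((ent_pd ha j).continuous.continuousAt).mul hb.continuous.continuousAt).sub
      (ha.continuous.continuousAt.mul (ent_pd hb j).continuous.continuousAt)).div
      (hb.continuous.continuousAt.pow 2) (pow_ne_zero 2 hv)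
  refine h1.congr ?_
  filter_upwards [hb.continuous.continuousAt.eventually_ne hv] with z hz
  rw [pd_div' (ha z) (hb z) hz]

theorem gen_jac {a b : ι → (ι → ℂ) → ℂ} {v₀ : ι → ℂ} (ha : ∀ i, Differentiable ℂ (a i))
    (hb : ∀ i, Differentiable ℂ (b i)) (h0 : ∀ i, b i v₀ ≠ 0) (hJ : (jac a b v₀).det ≠ 0) :
    ∀ᶠ v in gen ι, (Jm (fun i z => a i z / b i z) v).det ≠ 0 := by
  have hM : Mer fun v => (Jm (fun i z => a i z / b i z) v).det :=
    Mer.det fun i j => (Mer.quot (ha i) (hb i) ⟨v₀, h0 i⟩).pd j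
  rcases hM.dich with h | h
  swap
  · exact h
  exfalso
  apply hJ
  have hc : ContinuousAt (fun v => (Jm (fun i z => a i z / b i z) v).det) v₀ := by
    have h1 : ContinuousAt (fun v => Jm (fun i z => a i z / b i z) v) v₀ := by
      apply tendsto_pi_nhds.2
      intro i
      apply tendsto_pi_nhds.2
      intro j
      exact pd_div_cont (ha i) (hb i) (h0 i) j
    exact (Continuous.matrix_det continuous_id).continuousAt.comp h1
  exact eqAt_of_gen hc continuousAt_const h

theorem thm_Per (hTor : St_TorD) (hDel : St_DelR) : St_Per := by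
  intro ι _ _ δ Λ a b a' b' v₀ hΛ hQ hb0 hdet
  classical
  have hR := hDel ι δ
  set f : ι → (ι → ℂ) → ℂ := fun i z => a i z / b i z with hf
  set g : ι → (ι → ℂ) → ℂ := fun i => qd (a i) (b i) (a' i) (b' i) with hg
  have hHat : ∀ i, Hat δ (f i) (g i) := fun i => (hQ i).hat
  have hJ : ∀ᶠ v in gen ι, (Jm f v).det ≠ 0 :=
    gen_jac (fun i => (hQ i).da.ent) (fun i => (hQ i).db.ent) hb0 hdet
  set lam : (ι → ℂ) → ι → (ι → ℂ) → ℂ := fun l j v =>
    ((Jm f v).det)⁻¹ * (Matrix.cramer (Jm f v) (fun i => g i (v + l) - g i v)) j with hlamdef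
  have hlamMer : ∀ l j, Mer (lam l j) := by
    intro l j
    refine Mer.mul (Mer.inv (Mer.det fun i k => ((hHat i).mer₁).pd k)) ?_
    simp only [Matrix.cramer_apply]
    refine Mer.det fun i k => ?_
    by_cases hk : k = j
    · subst hk
      simp only [Matrix.updateCol_self]
      exact ((hHat i).mer₂.shift l).sub (hHat i).mer₂
    · simp only [Matrix.updateCol_ne hk]
      exact ((hHat i).mer₁).pd k
  have hlam : ∀ l i, ∀ᶠ v in gen ι, g i (v + l) - g i v = ∑ j, lam l j v * pd j (f i) v := by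
    intro l i
    filter_upwards [hJ] with v hv
    have h1 := Matrix.mulVec_cramer (Jm f v) (fun i => g i (v + l) - g i v)
    have h2 := congrFun h1 i
    simp only [Matrix.mulVec, dotProduct, Pi.smul_apply, smul_eq_mul] at h2
    have h3 : g i (v + l) - g i v = ((Jm f v).det)⁻¹ * ∑ j, Jm f v i j *
        (Matrix.cramer (Jm f v) (fun i => g i (v + l) - g i v)) j := by
      rw [h2, inv_mul_cancel_left₀ hv]
    rw [h3, Finset.mul_sum]
    refine Finset.sum_congr rfl fun j _ => ?_
    simp only [hlamdef, Jm, Matrix.of_apply]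
    ring
  -- the relation for all periodic quotients, with variable coefficients
  have key : ∀ a₀ b₀ a₀' b₀' : (ι → ℂ) → ℂ, QD δ Λ a₀ b₀ a₀' b₀' → ∀ l ∈ Λ, ∀ᶠ v in gen ι,
      qd a₀ b₀ a₀' b₀' (v + l) - qd a₀ b₀ a₀' b₀' v =
        ∑ j, lam l j v * pd j (fun z => a₀ z / b₀ z) v := by
    intro a₀ b₀ a₀' b₀' h₀ l hl
    set F : Option ι → (ι → ℂ) → ℂ := fun i => Option.elim i (fun z => a₀ z / b₀ z) f with hF
    set G : Option ι → (ι → ℂ) → ℂ := fun i => Option.elim i (qd a₀ b₀ a₀' b₀') g with hG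
    have hFG : ∀ i, Hat δ (F i) (G i) := by
      intro i
      rcases i with _ | i
      · exact h₀.hat
      · exact hHat i
    have hper : ∀ i, ∀ᶠ v in gen ι, F i (v + l) = F i v := by
      intro i
      rcases i with _ | i
      · exact Eventually.of_forall fun v => h₀.per hl v
      · exact Eventually.of_forall fun v => (hQ i).per hl v
    have hrel : ∃ P : MvPolynomial (Option ι) ℂ, P ≠ 0 ∧
        ∀ᶠ v in gen ι, MvPolynomial.eval (fun i => F i v) P = 0 := by
      obtain ⟨P, hP0, hP⟩ := hTor ι (Option ι) (by simp) Λ hΛ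
        (fun i => Option.elim i a₀ a) (fun i => Option.elim i b₀ b)
        (by rintro (_ | i); exacts [h₀.da.ent, (hQ i).da.ent])
        (by rintro (_ | i); exacts [h₀.db.ent, (hQ i).db.ent])
        (by rintro (_ | i); exacts [h₀.nz, (hQ i).nz])
        (by rintro (_ | i); exacts [h₀.fac, (hQ i).fac])
      refine ⟨P, hP0, ?_⟩
      have h1 : ∀ᶠ v in gen ι, ∀ i : Option ι, (Option.elim i b₀ b : (ι → ℂ) → ℂ) v ≠ 0 := by
        rw [eventually_all]
        rintro (_ | i)
        · exact gen_ne h₀.db.ent h₀.nz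
        · exact gen_ne (hQ i).db.ent (hQ i).nz
      filter_upwards [h1] with v hv
      have h2 := hP v hv
      have h3 : (fun i : Option ι => F i v) = fun i : Option ι =>
          (Option.elim i a₀ a : (ι → ℂ) → ℂ) v / (Option.elim i b₀ b : (ι → ℂ) → ℂ) v := by
        funext i
        rcases i with _ | i <;> rfl
      rw [h3]
      exact h2
    have := rel_hat hR hFG (by exact hJ) hrel l hper (lam l) (fun i => hlam l i)
    exact this
  -- the coefficients are constant
  have hconst : ∀ l ∈ Λ, ∀ j, ∃ c : ℂ, ∀ᶠ v in gen ι, lam l j v = c := by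
    intro l hl
    have h1 : ∀ k, ∀ᶠ v in gen ι, ∀ j, pd k (lam l j) v = 0 := by
      intro k
      have h2 : ∀ i, ∀ᶠ v in gen ι, ∑ j, pd k (lam l j) v * pd j (f i) v = 0 := by
        intro i
        have hA := key _ _ _ _ ((hQ i).pd hR k) l hl
        have hf' : ∀ᶠ v in gen ι, (pd k (a i) v * b i v - a i v * pd k (b i) v) /
            (b i v * b i v) = pd k (f i) v := by
          filter_upwards [gen_ne (hQ i).db.ent (hQ i).nz] with v hv
          rw [hf, pd_div' ((hQ i).da.ent v) ((hQ i).db.ent v) hv, sq]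
        have hg' := Hat.uniq hR (((hQ i).pd hR k).hat.congr hf' (Eventually.of_forall fun _ => rfl))
          ((hHat i).pd hR k)
        have hB := gen_pd (hlam l i) k
        filter_upwards [hA, hg', gen_shift hg' l, hB, (hHat i).mer₂.diffAt,
          gen_shift (hHat i).mer₂.diffAt l,
          eventually_all.2 fun j => gen_pd hf' j, eventually_all.2 fun j => (hlamMer l j).diffAt,
          eventually_all.2 fun j => (((hHat i).mer₁).pd j).diffAt,
          eventually_all.2 fun j => (hHat i).mer₁.comm k j] with v e1 e2 e3 e4 e5 e6 e7 e8 e9 e10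
        have e11 : DifferentiableAt ℂ (fun z => g i (z + l)) v :=
          e6.comp v (differentiable_id.add_const l).differentiableAt
        rw [pd_sub' e11 e5, pd_shift',
          pd_sum' (f := fun j z => lam l j z * pd j (f i) z) _ fun j _ => (e8 j).mul (e9 j)] at e4
        rw [e3, e2, e4] at e1
        have e12 : ∀ j, pd k (fun z => lam l j z * pd j (f i) z) v =
            pd k (lam l j) v * pd j (f i) v + lam l j v * pd k (pd j (f i)) v :=
          fun j => pd_mul' (e8 j) (e9 j) k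
        simp only [e12, e7, e10, Finset.sum_add_distrib] at e1
        linear_combination e1
      filter_upwards [hJ, eventually_all.2 h2] with v e1 e2
      have e3 : (fun j => pd k (lam l j) v) = 0 := by
        apply Matrix.eq_zero_of_mulVec_eq_zero e1
        funext i
        have := e2 i
        simp only [Matrix.mulVec, dotProduct, Jm, Matrix.of_apply, Pi.zero_apply]
        rw [← this]
        exact Finset.sum_congr rfl fun j _ => mul_comm _ _
      exact fun j => congrFun e3 j
    intro j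
    exact (hlamMer l j).constant fun k => (h1 k).mono fun v hv => hv j
  choose! c hc using hconst
  refine ⟨c, fun a₀ b₀ a₀' b₀' h₀ l hl v hv => ?_⟩
  have h1 : ∀ᶠ v in gen ι, qd a₀ b₀ a₀' b₀' (v + l) - qd a₀ b₀ a₀' b₀' v =
      ∑ j, c l j * pd j (fun z => a₀ z / b₀ z) v := by
    filter_upwards [key _ _ _ _ h₀ l hl, eventually_all.2 (hc l hl)] with v e1 e2
    rw [e1]
    exact Finset.sum_congr rfl fun j _ => by rw [e2 j]
  refine eqAt_of_gen (a := fun v => qd a₀ b₀ a₀' b₀' (v + l) - qd a₀ b₀ a₀' b₀' v)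
    (b := fun v => ∑ j, c l j * pd j (fun z => a₀ z / b₀ z) v) ?_ ?_ h1
  · have h2 := (qd_diff (h₀.da.ent _) (h₀.db.ent _) (h₀.da.ent' _) (h₀.db.ent' _)
      (h₀.ne hl hv)).continuousAt
    have h3 : ContinuousAt (fun z : ι → ℂ => z + l) v := by fun_prop
    exact (ContinuousAt.comp (f := fun z : ι → ℂ => z + l) h2 h3).sub
      (qd_diff (h₀.da.ent _) (h₀.db.ent _) (h₀.da.ent' _) (h₀.db.ent' _) hv).continuousAt
  · exact tendsto_finsetSum _ fun j _ =>
      continuousAt_const.mul (pd_div_cont h₀.da.ent h₀.db.ent hv j)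

end GAM
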