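import Pool.Agent.GAM.StD2

/-!
# GAM [PsiC]: closed formula for `psi`
-/

set_option autoImplicit false

namespace GAM

open scoped ComplexConjugate

lemma PsiC_x0 (a b u0 u1 : ℂ) (h : a * conj a - b * conj b = 1) (ha : conj a ≠ 0) :
    (a * u0 + conj b * conj u1) - conj b / conj a * conj (a * u1 + conj b * conj u0) =
      u0 / conj a := by
  simp only [map_add, map_mul, Complex.conj_conj]
  field_simp
  linear_combination u0 * h

lemma PsiC_block (a b u0 u1 y : ℂ) (h : a * conj a - b * conj b = 1) (ha : conj a ≠ 0) :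
    -((y - (a * u0 + conj b * conj u1)) * conj (a * u0 + conj b * conj u1) +
        conj b / conj a * conj (y - (a * u0 + conj b * conj u1)) *
          conj (a * u1 + conj b * conj u0)) -
      1 / 2 * ((a * u0 + conj b * conj u1) * conj (a * u0 + conj b * conj u1) +
        (a * u1 + conj b * conj u0) * conj (a * u1 + conj b * conj u0)) -
      (y - (a * u0 + conj b * conj u1)) * conj (y - (a * u0 + conj b * conj u1)) +
      1 / 2 * (u0 * conj u0 + u1 * conj u1) =
    -(b / conj a * (u0 * u1)) + conj y * (u0 / conj a) - y * conj y := by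
  simp only [map_add, map_sub, map_mul, Complex.conj_conj]
  field_simp
  linear_combination (2 * conj y * u0 - conj a * (u0 * conj u0 + u1 * conj u1) -
    2 * b * u0 * u1) * h

lemma PsiC_off (a b u0 u1 : ℂ) (h : a * conj a + b * conj b = 1) :
    (a * u0 - conj b * u1) * conj (a * u0 - conj b * u1) +
      (b * u0 + conj a * u1) * conj (b * u0 + conj a * u1) =
    u0 * conj u0 + u1 * conj u1 := by
  simp only [map_add, map_sub, map_mul, Complex.conj_conj]
  linear_combination (u0 * conj u0 + u1 * conj u1) * h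

section psic

variable {S : Type} [Fintype S] [DecidableEq S] {v w : S}

omit [Fintype S] in
lemma PsiC_rel (g : GG v w) {s : S} (hs : s = v ∨ s = w) :
    g.a s * conj (g.a s) - g.b s * conj (g.b s) = 1 := by
  have h := g.rel s
  rw [eps_of_mem hs] at h
  linear_combination h

omit [Fintype S] in
lemma PsiC_ne (g : GG v w) {s : S} (hs : s = v ∨ s = w) : conj (g.a s) ≠ 0 := by
  intro h0
  have h := PsiC_rel g hs
  rw [h0, mul_zero, zero_sub] at h
  have h1 : ‖g.b s‖ ^ 2 = (-1 : ℝ) := by
    have h2 : g.b s * conj (g.b s) = -1 := by linear_combination -h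
    rw [Complex.mul_conj, Complex.normSq_eq_norm_sq] at h2
    exact_mod_cast h2
  nlinarith [sq_nonneg ‖g.b s‖]

omit [DecidableEq S] in
/-- the form as a sum over blocks -/
lemma PsiC_H (x y : S × Fin 2 → ℂ) :
    H x y = ∑ s, (x (s, 0) * conj (y (s, 0)) + x (s, 1) * conj (y (s, 1))) := by
  unfold H
  rw [sum_prod_two]

lemma PsiC_Hsub (g : GG v w) (hvw : v ≠ w) (u : S × Fin 2 → ℂ) :
    H u u - H (act g u) (act g u) =
      ((u (v, 0) * conj (u (v, 0)) + u (v, 1) * conj (u (v, 1))) -
        (act g u (v, 0) * conj (act g u (v, 0)) + act g u (v, 1) * conj (act g u (v, 1)))) +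
      ((u (w, 0) * conj (u (w, 0)) + u (w, 1) * conj (u (w, 1))) -
        (act g u (w, 0) * conj (act g u (w, 0)) + act g u (w, 1) * conj (act g u (w, 1)))) := by
  rw [PsiC_H, PsiC_H, ← Finset.sum_sub_distrib]
  refine Fintype.sum_eq_add v w hvw fun s hs => ?_
  have hs' : ¬ (s = v ∨ s = w) := by tauto
  have h := g.rel s
  rw [eps_of_not_mem hs', one_mul] at h
  rw [act_u0 g u hs', act_u1 g u hs', PsiC_off _ _ _ _ h, sub_self]

lemma PsiC_embH (hvw : v ≠ w) (z : Fin 2 → ℂ) (ξ : ℂ × ℂ) (x : S × Fin 2 → ℂ) :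
    H (embD v w z ξ) x =
      (ξ.1 * conj (x (v, 0)) + z 0 * conj ξ.1 * conj (x (v, 1))) +
      (ξ.2 * conj (x (w, 0)) + z 1 * conj ξ.2 * conj (x (w, 1))) := by
  rw [PsiC_H, Fintype.sum_eq_add v w hvw fun s hs => ?_]
  · simp [embD, hvw.symm]
  · simp [embD, hs.1, hs.2]

omit [Fintype S] in
lemma PsiC_arg (g : GG v w) (u : S × Fin 2 → ℂ) (y : ℂ × ℂ) :
    act g u + embD v w (mob g 0) (y - (act g u (v, 0), act g u (w, 0))) = clo v w g u y := by
  have hz0 : mob g 0 0 = conj (g.b v) / conj (g.a v) := mob_zero g 0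
  have hz1 : mob g 0 1 = conj (g.b w) / conj (g.a w) := mob_zero g 1
  have hv : v = v ∨ v = w := Or.inl rfl
  have hw : w = v ∨ w = w := Or.inr rfl
  have hav := PsiC_ne g hv
  have haw := PsiC_ne g hw
  have hrv := PsiC_rel g hv
  have hrw := PsiC_rel g hw
  funext p
  obtain ⟨s, i⟩ := p
  rw [Pi.add_apply]
  unfold embD clo
  by_cases hs : s = v
  · subst hs
    fin_cases i
    · simp
    · simp only [if_true, Fin.mk_one, Fin.isValue, one_ne_zero, if_false, Prod.fst_sub, hz0]
      rw [act_v1 g u hv, act_v0 g u hv]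
      have h1 := PsiC_x0 (g.a s) (g.b s) (u (s, 1)) (u (s, 0)) hrv hav
      rw [map_sub]
      linear_combination h1
  · by_cases hs' : s = w
    · subst hs'
      fin_cases i
      · simp [hs]
      · simp only [if_neg hs, if_true, Fin.mk_one, Fin.isValue, one_ne_zero, if_false,
          Prod.snd_sub, hz1]
        rw [act_v1 g u hw, act_v0 g u hw]
        have h1 := PsiC_x0 (g.a s) (g.b s) (u (s, 1)) (u (s, 0)) hrw haw
        rw [map_sub]
        linear_combination h1
    · simp [hs, hs']

end psic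

theorem thm_PsiC : St_PsiC := by
  intro S _ _ v w g θ u hvw
  have hz0 : mob g 0 0 = conj (g.b v) / conj (g.a v) := mob_zero g 0
  have hz1 : mob g 0 1 = conj (g.b w) / conj (g.a w) := mob_zero g 1
  have hv : v = v ∨ v = w := Or.inl rfl
  have hw : w = v ∨ w = w := Or.inr rfl
  have hinv : (MeasureTheory.volume : MeasureTheory.Measure (ℂ × ℂ)).IsAddRightInvariant := by
    rw [MeasureTheory.Measure.volume_eq_prod]
    infer_instance
  unfold psi ell
  rw [← MeasureTheory.integral_sub_right_eq_self _ (act g u (v, 0), act g u (w, 0)),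
    ← MeasureTheory.integral_mul_const, ← MeasureTheory.integral_const_mul]
  refine MeasureTheory.integral_congr_ae (MeasureTheory.ae_of_all _ fun y => ?_)
  simp only
  unfold F cli gw
  rw [PsiC_arg]
  have hexp : Complex.exp (-(Real.pi * H (embD v w (mob g 0)
        (y - (act g u (v, 0), act g u (w, 0)))) (act g u)) -
        Real.pi / 2 * H (act g u) (act g u)) *
      Complex.exp (-(Real.pi * ((y - (act g u (v, 0), act g u (w, 0))).1 *
        conj (y - (act g u (v, 0), act g u (w, 0))).1 +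
        (y - (act g u (v, 0), act g u (w, 0))).2 *
        conj (y - (act g u (v, 0), act g u (w, 0))).2))) *
      Complex.exp (Real.pi / 2 * H u u) =
      Complex.exp (-(Real.pi * (g.b v / conj (g.a v) * (u (v, 0) * u (v, 1)) +
        g.b w / conj (g.a w) * (u (w, 0) * u (w, 1))))) *
      (Complex.exp (Real.pi * (conj y.1 * (u (v, 0) / conj (g.a v)) +
        conj y.2 * (u (w, 0) / conj (g.a w)))) *
      Complex.exp (-(Real.pi * (y.1 * conj y.1 + y.2 * conj y.2)))) := by
    rw [← Complex.exp_add, ← Complex.exp_add, ← Complex.exp_add, ← Complex.exp_add]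
    congr 1
    have e1 := PsiC_Hsub g hvw u
    rw [PsiC_embH hvw, hz0, hz1]
    have b1 := PsiC_block (g.a v) (g.b v) (u (v, 0)) (u (v, 1)) y.1 (PsiC_rel g hv)
      (PsiC_ne g hv)
    have b2 := PsiC_block (g.a w) (g.b w) (u (w, 0)) (u (w, 1)) y.2 (PsiC_rel g hw)
      (PsiC_ne g hw)
    rw [← act_v0 g u hv, ← act_v1 g u hv] at b1
    rw [← act_v0 g u hw, ← act_v1 g u hw] at b2
    simp only [Prod.fst_sub, Prod.snd_sub]
    linear_combination (Real.pi : ℂ) * b1 + (Real.pi : ℂ) * b2 + (Real.pi / 2 : ℂ) * e1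
  linear_combination (θ (clo v w g u y)) * hexp

end GAM
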