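import Pool.Agent.GAM.StD2

/-!
# GAM [PsiE]: the integral of the closed formula is entire
-/

set_option autoImplicit false

namespace GAM

open scoped ComplexConjugate

section psie

variable {S : Type} [DecidableEq S] {v w : S}

lemma PsiE_vw (g : GG v w) {s : S} (hs : s = v ∨ s = w) :
    ‖g.a s‖ ^ 2 - ‖g.b s‖ ^ 2 = 1 := by
  have h := g.rel s
  rw [eps_of_mem hs, Complex.mul_conj, Complex.mul_conj, Complex.normSq_eq_norm_sq,
    Complex.normSq_eq_norm_sq] at h
  have h1 : ((‖g.a s‖ ^ 2 - ‖g.b s‖ ^ 2 : ℝ) : ℂ) = (1 : ℝ) := by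
    push_cast
    push_cast at h
    linear_combination h
  exact_mod_cast h1

lemma PsiE_off (g : GG v w) {s : S} (hs : ¬ (s = v ∨ s = w)) :
    ‖g.a s‖ ^ 2 + ‖g.b s‖ ^ 2 = 1 := by
  have h := g.rel s
  rw [eps_of_not_mem hs, one_mul, Complex.mul_conj, Complex.mul_conj,
    Complex.normSq_eq_norm_sq, Complex.normSq_eq_norm_sq] at h
  exact_mod_cast h

lemma PsiE_one_le (g : GG v w) {s : S} (hs : s = v ∨ s = w) : 1 ≤ ‖g.a s‖ := by
  have h := PsiE_vw g hs
  nlinarith [norm_nonneg (g.a s), sq_nonneg ‖g.b s‖]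

lemma PsiE_q (g : GG v w) {s : S} (hs : s = v ∨ s = w) : ‖g.b s‖ / ‖g.a s‖ < 1 := by
  have h := PsiE_vw g hs
  have h1 := PsiE_one_le g hs
  rw [div_lt_one (by linarith)]
  nlinarith [norm_nonneg (g.b s)]

/-- the entry of index `(s, 1)`, `s = v, w` -/
lemma PsiE_entry (g : GG v w) {s : S} (hs : s = v ∨ s = w) {M q : ℝ} (hM : 0 ≤ M)
    (hq : ‖g.b s‖ / ‖g.a s‖ ≤ q) (x y : ℂ) (hx : ‖x‖ ≤ M) :
    ‖(x + conj (g.b s) * conj y) / conj (g.a s)‖ ≤ M + q * ‖y‖ := by
  have h1 := PsiE_one_le g hs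
  have h0 : 0 < ‖g.a s‖ := by linarith
  rw [norm_div, RCLike.norm_conj, div_le_iff₀ h0]
  rw [div_le_iff₀ h0] at hq
  have h2 : ‖x + conj (g.b s) * conj y‖ ≤ ‖x‖ + ‖g.b s‖ * ‖y‖ := by
    refine (norm_add_le _ _).trans ?_
    rw [norm_mul, RCLike.norm_conj, RCLike.norm_conj]
  have h3 : ‖g.b s‖ * ‖y‖ ≤ q * ‖g.a s‖ * ‖y‖ := mul_le_mul_of_nonneg_right hq (norm_nonneg _)
  have h4 : M * 1 ≤ M * ‖g.a s‖ := mul_le_mul_of_nonneg_left h1 hM
  nlinarith

variable [Fintype S]

/-- the size of the argument of `θ` -/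
lemma PsiE_size (g : GG v w) (hvw : v ≠ w) {M q : ℝ} (hM : 0 ≤ M)
    (hqv : ‖g.b v‖ / ‖g.a v‖ ≤ q) (hqw : ‖g.b w‖ / ‖g.a w‖ ≤ q) (u : S × Fin 2 → ℂ)
    (hu : ‖u‖ ≤ M) (y : ℂ × ℂ) :
    (H (clo v w g u y) (clo v w g u y)).re ≤
      (‖y.1‖ ^ 2 + (M + q * ‖y.1‖) ^ 2) + (‖y.2‖ ^ 2 + (M + q * ‖y.2‖) ^ 2) +
        Fintype.card S * (8 * M ^ 2) := by
  have hup : ∀ p, ‖u p‖ ≤ M := fun p => (norm_le_pi_norm u p).trans hu
  rw [H_self_re, Fintype.sum_prod_type]
  simp only [Fin.sum_univ_two]
  have h1 : ∀ s : S, ‖clo v w g u y (s, 0)‖ ^ 2 + ‖clo v w g u y (s, 1)‖ ^ 2 ≤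
      (if s = v then (‖y.1‖ ^ 2 + (M + q * ‖y.1‖) ^ 2) else 0) +
      (if s = w then (‖y.2‖ ^ 2 + (M + q * ‖y.2‖) ^ 2) else 0) + 8 * M ^ 2 := by
    intro s
    by_cases hs : s = v
    · subst hs
      rw [if_pos rfl, if_neg hvw]
      have e0 : clo s w g u y (s, 0) = y.1 := by simp [clo]
      have e1 : clo s w g u y (s, 1) = (u (s, 1) + conj (g.b s) * conj y.1) / conj (g.a s) := by
        simp [clo]
      rw [e0, e1]
      have h2 := PsiE_entry g (Or.inl rfl) hM hqv (u (s, 1)) y.1 (hup _)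
      have h3 := pow_le_pow_left₀ (norm_nonneg _) h2 2
      have h4 : 0 ≤ M ^ 2 := sq_nonneg _
      linarith
    · rw [if_neg hs]
      by_cases hs' : s = w
      · subst hs'
        rw [if_pos rfl]
        have e0 : clo v s g u y (s, 0) = y.2 := by simp [clo, hs]
        have e1 : clo v s g u y (s, 1) =
            (u (s, 1) + conj (g.b s) * conj y.2) / conj (g.a s) := by
          simp [clo, hs]
        rw [e0, e1]
        have h2 := PsiE_entry g (Or.inr rfl) hM hqw (u (s, 1)) y.2 (hup _)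
        have h3 := pow_le_pow_left₀ (norm_nonneg _) h2 2
        have h4 : 0 ≤ M ^ 2 := sq_nonneg _
        linarith
      · rw [if_neg hs']
        have hn : ¬ (s = v ∨ s = w) := by tauto
        have e0 : clo v w g u y (s, 0) = g.a s * u (s, 0) - conj (g.b s) * u (s, 1) := by
          rw [← act_u0 g u hn]
          simp [clo, hs, hs']
        have e1 : clo v w g u y (s, 1) = g.b s * u (s, 0) + conj (g.a s) * u (s, 1) := by
          rw [← act_u1 g u hn]
          simp [clo, hs, hs']
        have hab := PsiE_off g hn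
        have ha : ‖g.a s‖ ≤ 1 := by nlinarith [norm_nonneg (g.a s), sq_nonneg ‖g.b s‖]
        have hb : ‖g.b s‖ ≤ 1 := by nlinarith [norm_nonneg (g.b s), sq_nonneg ‖g.a s‖]
        have n0 : ‖g.a s * u (s, 0) - conj (g.b s) * u (s, 1)‖ ≤ 2 * M := by
          refine (norm_sub_le _ _).trans ?_
          rw [norm_mul, norm_mul, RCLike.norm_conj]
          have a1 := mul_le_mul ha (hup (s, 0)) (norm_nonneg _) zero_le_one
          have a2 := mul_le_mul hb (hup (s, 1)) (norm_nonneg _) zero_le_one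
          linarith
        have n1 : ‖g.b s * u (s, 0) + conj (g.a s) * u (s, 1)‖ ≤ 2 * M := by
          refine (norm_add_le _ _).trans ?_
          rw [norm_mul, norm_mul, RCLike.norm_conj]
          have a1 := mul_le_mul hb (hup (s, 0)) (norm_nonneg _) zero_le_one
          have a2 := mul_le_mul ha (hup (s, 1)) (norm_nonneg _) zero_le_one
          linarith
        rw [e0, e1]
        have m0 := pow_le_pow_left₀ (norm_nonneg _) n0 2
        have m1 := pow_le_pow_left₀ (norm_nonneg _) n1 2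
        linarith
  refine (Finset.sum_le_sum fun s _ => h1 s).trans (le_of_eq ?_)
  rw [Finset.sum_add_distrib, Finset.sum_add_distrib, Finset.sum_ite_eq', Finset.sum_ite_eq',
    Finset.sum_const, Finset.card_univ, nsmul_eq_mul]
  simp

omit [Fintype S] in
lemma PsiE_clo_cont (g : GG v w) :
    Continuous fun p : (S × Fin 2 → ℂ) × (ℂ × ℂ) => clo v w g p.1 p.2 := by
  refine continuous_pi fun p => ?_
  obtain ⟨s, i⟩ := p
  have c1 : Continuous fun p : (S × Fin 2 → ℂ) × (ℂ × ℂ) => conj p.2.1 :=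
    Complex.continuous_conj.comp (continuous_fst.comp continuous_snd)
  have c2 : Continuous fun p : (S × Fin 2 → ℂ) × (ℂ × ℂ) => conj p.2.2 :=
    Complex.continuous_conj.comp (continuous_snd.comp continuous_snd)
  have cu : ∀ q : S × Fin 2, Continuous fun p : (S × Fin 2 → ℂ) × (ℂ × ℂ) => p.1 q :=
    fun q => (continuous_apply q).comp continuous_fst
  unfold clo
  by_cases hs : s = v
  · simp only [hs, if_true]
    by_cases hi : i = 0
    · simp only [hi, if_true]
      exact continuous_fst.comp continuous_snd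
    · simp only [hi, if_false]
      exact ((cu _).add (continuous_const.mul c1)).div_const _
  · simp only [hs, if_false]
    by_cases hs' : s = w
    · simp only [hs', if_true]
      by_cases hi : i = 0
      · simp only [hi, if_true]
        exact continuous_snd.comp continuous_snd
      · simp only [hi, if_false]
        exact ((cu _).add (continuous_const.mul c2)).div_const _
    · simp only [hs', if_false]
      have hn : ¬ (s = v ∨ s = w) := by tauto
      have hi : i = 0 ∨ i = 1 := by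
        fin_cases i
        · exact Or.inl rfl
        · exact Or.inr rfl
      rcases hi with rfl | rfl
      · simp only [act_u0 g _ hn]
        exact (continuous_const.mul (cu _)).sub (continuous_const.mul (cu _))
      · simp only [act_u1 g _ hn]
        exact (continuous_const.mul (cu _)).add (continuous_const.mul (cu _))

lemma PsiE_clo_diff (g : GG v w) (y : ℂ × ℂ) :
    Differentiable ℂ fun u : S × Fin 2 → ℂ => clo v w g u y := by
  rw [differentiable_pi]
  rintro ⟨s, i⟩
  have cu : ∀ q : S × Fin 2, Differentiable ℂ fun u : (S × Fin 2 → ℂ) => u q :=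
    fun q => differentiable_apply q
  unfold clo
  by_cases hs : s = v
  · simp only [hs, if_true]
    by_cases hi : i = 0
    · simp only [hi, if_true]
      exact differentiable_const _
    · simp only [hi, if_false]
      fun_prop
  · simp only [hs, if_false]
    by_cases hs' : s = w
    · simp only [hs', if_true]
      by_cases hi : i = 0
      · simp only [hi, if_true]
        exact differentiable_const _
      · simp only [hi, if_false]
        fun_prop
    · simp only [hs', if_false]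
      have hn : ¬ (s = v ∨ s = w) := by tauto
      have hi : i = 0 ∨ i = 1 := by
        fin_cases i
        · exact Or.inl rfl
        · exact Or.inr rfl
      rcases hi with rfl | rfl
      · simp only [act_u0 g _ hn]
        exact ((cu _).const_mul _).sub ((cu _).const_mul _)
      · simp only [act_u1 g _ hn]
        exact ((cu _).const_mul _).add ((cu _).const_mul _)

end psie

theorem thm_PsiE (h1 : St_HolP) (h2 : St_Gau) (h3 : St_GroU) : St_PsiE := by
  intro S _ _ v w g L χ θ hvw hP hT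
  obtain ⟨C, hC, hgro⟩ := h3 (S × Fin 2) L χ θ hP hT
  obtain ⟨gau1, gau2, gau3, -⟩ := h2
  have hth : ∀ X, ‖θ X‖ ≤ C * Real.exp (Real.pi / 2 * (H X X).re) := by
    intro X
    have := hgro 0 X
    rwa [F_zero] at this
  have hv : v = v ∨ v = w := Or.inl rfl
  have hw : w = v ∨ w = w := Or.inr rfl
  have hav := PsiE_one_le g hv
  have haw := PsiE_one_le g hw
  set q : ℝ := max (‖g.b v‖ / ‖g.a v‖) (‖g.b w‖ / ‖g.a w‖) with hq
  have hq1 : q < 1 := max_lt (PsiE_q g hv) (PsiE_q g hw)
  have hq0 : 0 ≤ q := le_trans (by positivity) (le_max_left _ _)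
  have hc : 0 < Real.pi * (1 - q ^ 2) / 2 := by
    have : q ^ 2 < 1 := by nlinarith
    have := Real.pi_pos
    have : 0 < 1 - q ^ 2 := by linarith
    positivity
  have hcont : Continuous fun p : (S × Fin 2 → ℂ) × (ℂ × ℂ) => cli v w g θ p.1 p.2 := by
    unfold cli gw
    have c1 : Continuous fun p : (S × Fin 2 → ℂ) × (ℂ × ℂ) => conj p.2.1 :=
      Complex.continuous_conj.comp (continuous_fst.comp continuous_snd)
    have c2 : Continuous fun p : (S × Fin 2 → ℂ) × (ℂ × ℂ) => conj p.2.2 :=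
      Complex.continuous_conj.comp (continuous_snd.comp continuous_snd)
    have cu : ∀ q : S × Fin 2, Continuous fun p : (S × Fin 2 → ℂ) × (ℂ × ℂ) => p.1 q :=
      fun q => (continuous_apply q).comp continuous_fst
    refine ((hT.ent.continuous.comp (PsiE_clo_cont g)).mul (Complex.continuous_exp.comp
      (continuous_const.mul ((c1.mul ((cu _).div_const _)).add
        (c2.mul ((cu _).div_const _)))))).mul (Complex.continuous_exp.comp ?_)
    exact (continuous_const.mul (((continuous_fst.comp continuous_snd).mul c1).add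
      ((continuous_snd.comp continuous_snd).mul c2))).neg
  have hdiff : ∀ y : ℂ × ℂ, Differentiable ℂ fun u => cli v w g θ u y := by
    intro y
    unfold cli
    have cu : ∀ q : S × Fin 2, Differentiable ℂ fun u : (S × Fin 2 → ℂ) => u q :=
      fun q => differentiable_apply q
    refine ((hT.ent.comp (PsiE_clo_diff g y)).mul (Differentiable.cexp ?_)).mul
      (differentiable_const _)
    fun_prop
  have key := (h1 (S × Fin 2) Set.univ (fun u y => cli v w g θ u y) isOpen_univ hcont hdiff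
    (by
      intro u₀ _
      set M : ℝ := ‖u₀‖ + 1 with hM
      have hM0 : 0 ≤ M := by positivity
      obtain ⟨C2, hC2, hC2b⟩ := gau2 (Real.pi * (1 - q ^ 2) / 2) (2 * Real.pi * M) hc
      have hgi := gau1 (Real.pi * (1 - q ^ 2) / 2 / 2) (by positivity)
      set K : ℝ := Fintype.card S * (8 * M ^ 2) with hK
      refine ⟨1, fun y => C * Real.exp (Real.pi / 2 * (K + 2 * M ^ 2)) *
        (C2 * Real.exp (-(Real.pi * (1 - q ^ 2) / 2 / 2 * (‖y.1‖ ^ 2 + ‖y.2‖ ^ 2)))), one_pos,
        (hgi.const_mul _).const_mul _, ?_⟩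
      intro u hu y
      have huM : ‖u‖ ≤ M := by
        have h4 := norm_add_le (u - u₀) u₀
        rw [sub_add_cancel] at h4
        linarith
      have hup : ∀ p, ‖u p‖ ≤ M := fun p => (norm_le_pi_norm u p).trans huM
      have hsize := PsiE_size g hvw hM0 (le_max_left _ _) (le_max_right _ _) u huM y
      rw [← hq] at hsize
      have e1 : ‖Complex.exp (Real.pi * (conj y.1 * (u (v, 0) / conj (g.a v)) +
          conj y.2 * (u (w, 0) / conj (g.a w))))‖ ≤ Real.exp (Real.pi * M * (‖y.1‖ + ‖y.2‖)) := by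
        refine (Complex.norm_exp_le_exp_norm _).trans (Real.exp_le_exp.2 ?_)
        rw [norm_mul, Complex.norm_real, Real.norm_of_nonneg Real.pi_pos.le, mul_assoc]
        refine mul_le_mul_of_nonneg_left ?_ Real.pi_pos.le
        refine (norm_add_le _ _).trans ?_
        rw [norm_mul, norm_mul, norm_div, norm_div, RCLike.norm_conj, RCLike.norm_conj,
          RCLike.norm_conj, RCLike.norm_conj]
        have d1 : ‖u (v, 0)‖ / ‖g.a v‖ ≤ M := by
          rw [div_le_iff₀ (by linarith)]
          nlinarith [hup (v, 0)]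
        have d2 : ‖u (w, 0)‖ / ‖g.a w‖ ≤ M := by
          rw [div_le_iff₀ (by linarith)]
          nlinarith [hup (w, 0)]
        have d3 := mul_le_mul_of_nonneg_left d1 (norm_nonneg y.1)
        have d4 := mul_le_mul_of_nonneg_left d2 (norm_nonneg y.2)
        linarith
      have e2 : ‖cli v w g θ u y‖ ≤ C * Real.exp (Real.pi / 2 * (H (clo v w g u y)
          (clo v w g u y)).re) * Real.exp (Real.pi * M * (‖y.1‖ + ‖y.2‖)) *
          Real.exp (-(Real.pi * (‖y.1‖ ^ 2 + ‖y.2‖ ^ 2))) := by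
        unfold cli
        rw [norm_mul, norm_mul, gau3]
        exact mul_le_mul_of_nonneg_right (mul_le_mul (hth _) e1 (norm_nonneg _)
          (by positivity)) (Real.exp_pos _).le
      refine e2.trans ?_
      have e3 : Real.pi / 2 * (H (clo v w g u y) (clo v w g u y)).re +
          Real.pi * M * (‖y.1‖ + ‖y.2‖) + -(Real.pi * (‖y.1‖ ^ 2 + ‖y.2‖ ^ 2)) ≤
          Real.pi / 2 * (K + 2 * M ^ 2) + (2 * Real.pi * M * (‖y.1‖ + ‖y.2‖) -
            Real.pi * (1 - q ^ 2) / 2 * (‖y.1‖ ^ 2 + ‖y.2‖ ^ 2)) := by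
        have hpi := Real.pi_pos
        have f1 := mul_le_mul_of_nonneg_left hsize (by positivity : 0 ≤ Real.pi / 2)
        have f2 : q * (M * ‖y.1‖) ≤ 1 * (M * ‖y.1‖) :=
          mul_le_mul_of_nonneg_right hq1.le (by positivity)
        have f3 : q * (M * ‖y.2‖) ≤ 1 * (M * ‖y.2‖) :=
          mul_le_mul_of_nonneg_right hq1.le (by positivity)
        have f4 := mul_le_mul_of_nonneg_left f2 hpi.le
        have f5 := mul_le_mul_of_nonneg_left f3 hpi.le
        nlinarith
      have e4 := hC2b y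
      have e5 : Real.exp (2 * Real.pi * M * (‖y.1‖ + ‖y.2‖) -
            Real.pi * (1 - q ^ 2) / 2 * (‖y.1‖ ^ 2 + ‖y.2‖ ^ 2)) ≤
          C2 * Real.exp (-(Real.pi * (1 - q ^ 2) / 2 / 2 * (‖y.1‖ ^ 2 + ‖y.2‖ ^ 2))) := by
        refine le_trans ?_ e4
        have f1 : (1 : ℝ) ≤ 1 + ‖y.1‖ + ‖y.2‖ := by
          have := norm_nonneg y.1
          have := norm_nonneg y.2
          linarith
        calc _ = 1 * Real.exp (2 * Real.pi * M * (‖y.1‖ + ‖y.2‖) -
            Real.pi * (1 - q ^ 2) / 2 * (‖y.1‖ ^ 2 + ‖y.2‖ ^ 2)) := (one_mul _).symm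
          _ ≤ _ := mul_le_mul_of_nonneg_right f1 (Real.exp_pos _).le
      calc C * Real.exp (Real.pi / 2 * (H (clo v w g u y) (clo v w g u y)).re) *
            Real.exp (Real.pi * M * (‖y.1‖ + ‖y.2‖)) *
            Real.exp (-(Real.pi * (‖y.1‖ ^ 2 + ‖y.2‖ ^ 2)))
          = C * Real.exp (Real.pi / 2 * (H (clo v w g u y) (clo v w g u y)).re +
            Real.pi * M * (‖y.1‖ + ‖y.2‖) + -(Real.pi * (‖y.1‖ ^ 2 + ‖y.2‖ ^ 2))) := by
            rw [Real.exp_add, Real.exp_add]; ring
        _ ≤ C * Real.exp (Real.pi / 2 * (K + 2 * M ^ 2) + (2 * Real.pi * M * (‖y.1‖ + ‖y.2‖) -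
            Real.pi * (1 - q ^ 2) / 2 * (‖y.1‖ ^ 2 + ‖y.2‖ ^ 2))) :=
            mul_le_mul_of_nonneg_left (Real.exp_le_exp.2 e3) hC.le
        _ = C * Real.exp (Real.pi / 2 * (K + 2 * M ^ 2)) *
            Real.exp (2 * Real.pi * M * (‖y.1‖ + ‖y.2‖) -
            Real.pi * (1 - q ^ 2) / 2 * (‖y.1‖ ^ 2 + ‖y.2‖ ^ 2)) := by
            rw [Real.exp_add]; ring
        _ ≤ _ := mul_le_mul_of_nonneg_left e5 (by positivity))).1
  exact differentiableOn_univ.1 key

end GAM
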