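import Pool.Agent.GAM.StD2

/-!
# GAM PsiJ: joint continuity of `psi`
-/

set_option autoImplicit false

open MeasureTheory Filter Topology

namespace GAM

open scoped ComplexConjugate

variable {S : Type} [DecidableEq S]

lemma PsiJ_embD_cont (v w : S) (ξ : ℂ × ℂ) : Continuous fun z => embD v w z ξ := by
  refine continuous_pi fun p => ?_
  unfold embD
  split_ifs <;> fun_prop

lemma PsiJ_embD_cont' (v w : S) (z : Fin 2 → ℂ) : Continuous fun ξ => embD v w z ξ := by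
  refine continuous_pi fun p => ?_
  unfold embD
  split_ifs <;> fun_prop

lemma PsiJ_H [Fintype S] {v w : S} (hvw : v ≠ w) (z : Fin 2 → ℂ) (ξ : ℂ × ℂ) :
    (H (embD v w z ξ) (embD v w z ξ)).re =
      (1 + ‖z 0‖ ^ 2) * ‖ξ.1‖ ^ 2 + (1 + ‖z 1‖ ^ 2) * ‖ξ.2‖ ^ 2 := by
  rw [H_self_re, Fintype.sum_prod_type]
  have h : ∀ s : S, ∑ i : Fin 2, ‖embD v w z ξ (s, i)‖ ^ 2 =
      (if s = v then (1 + ‖z 0‖ ^ 2) * ‖ξ.1‖ ^ 2 else 0) +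
      (if s = w then (1 + ‖z 1‖ ^ 2) * ‖ξ.2‖ ^ 2 else 0) := by
    intro s
    rw [Fin.sum_univ_two]
    by_cases h1 : s = v
    · have h2 : s ≠ w := fun h2 => hvw (h1.symm.trans h2)
      simp [embD, h1, hvw, mul_pow]
      ring
    · by_cases h2 : s = w
      · simp [embD, h2, hvw.symm, mul_pow]
        ring
      · simp [embD, h1, h2]
  rw [Finset.sum_congr rfl fun s _ => h s, Finset.sum_add_distrib, Finset.sum_ite_eq',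
    Finset.sum_ite_eq']
  simp

theorem thm_PsiJ (h1 : St_GroU) (h2 : St_Gau) : St_PsiJ := by
  intro S _ _ v w L χ θ hvw hP hT
  obtain ⟨C, hC, hb⟩ := h1 (S × Fin 2) L χ θ hP hT
  obtain ⟨hint, -, hgw, -⟩ := h2
  rintro ⟨z₀, x₀⟩ ⟨hz₀, -⟩
  -- the radius
  obtain ⟨r, hr0, hr1, hr⟩ : ∃ r : ℝ, 0 ≤ r ∧ r < 1 ∧ ∀ i, ‖z₀ i‖ < r := by
    have hz : ∀ i, ‖z₀ i‖ < 1 := hz₀
    have hm1 : max ‖z₀ 0‖ ‖z₀ 1‖ < 1 := max_lt (hz 0) (hz 1)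
    have hm0 : 0 ≤ max ‖z₀ 0‖ ‖z₀ 1‖ := (norm_nonneg _).trans (le_max_left _ _)
    refine ⟨(max ‖z₀ 0‖ ‖z₀ 1‖ + 1) / 2, by linarith, by linarith, fun i => ?_⟩
    have h3 : ‖z₀ i‖ ≤ max ‖z₀ 0‖ ‖z₀ 1‖ := by
      fin_cases i
      · exact le_max_left _ _
      · exact le_max_right _ _
    linarith
  have hnh : ∀ᶠ p : (Fin 2 → ℂ) × (S × Fin 2 → ℂ) in 𝓝 (z₀, x₀), ∀ i, ‖p.1 i‖ < r := by
    rw [eventually_all]
    intro i
    have hc : Continuous fun p : (Fin 2 → ℂ) × (S × Fin 2 → ℂ) => ‖p.1 i‖ :=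
      ((continuous_apply i).comp continuous_fst).norm
    exact hc.continuousAt.eventually_lt_const (hr i)
  set c : ℝ := Real.pi / 2 * (1 - r ^ 2) with hc
  have hc0 : 0 < c := by
    have : 0 < 1 - r ^ 2 := by nlinarith
    have := Real.pi_pos
    positivity
  refine ContinuousAt.continuousWithinAt ?_
  have hcont : Continuous fun q : ((Fin 2 → ℂ) × (S × Fin 2 → ℂ)) × (ℂ × ℂ) =>
      F θ q.1.2 (embD v w q.1.1 q.2) * gw q.2 := by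
    refine Continuous.mul ?_ ?_
    · have h3 : Continuous fun q : ((Fin 2 → ℂ) × (S × Fin 2 → ℂ)) × (ℂ × ℂ) =>
          embD v w q.1.1 q.2 := by
        refine continuous_pi fun p => ?_
        unfold embD
        split_ifs <;> fun_prop
      exact (F_continuous hT).comp ((continuous_snd.comp continuous_fst).prodMk h3)
    · unfold gw
      fun_prop
  show ContinuousAt (fun p : (Fin 2 → ℂ) × (S × Fin 2 → ℂ) =>
    ∫ ξ : ℂ × ℂ, F θ p.2 (embD v w p.1 ξ) * gw ξ) (z₀, x₀)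
  refine continuousAt_of_dominated
    (bound := fun ξ => C * Real.exp (-(c * (‖ξ.1‖ ^ 2 + ‖ξ.2‖ ^ 2)))) ?_ ?_ ?_ ?_
  · refine Eventually.of_forall fun p => Continuous.aestronglyMeasurable ?_
    exact hcont.comp (continuous_const.prodMk continuous_id)
  · filter_upwards [hnh] with p hp
    refine Eventually.of_forall fun ξ => ?_
    rw [norm_mul, hgw]
    have h3 := hb p.2 (embD v w p.1 ξ)
    rw [PsiJ_H hvw] at h3
    have hq : ∀ i, ‖p.1 i‖ ^ 2 ≤ r ^ 2 := fun i =>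
      pow_le_pow_left₀ (norm_nonneg _) (hp i).le 2
    have h4 : Real.pi / 2 * ((1 + ‖p.1 0‖ ^ 2) * ‖ξ.1‖ ^ 2 + (1 + ‖p.1 1‖ ^ 2) * ‖ξ.2‖ ^ 2) -
        Real.pi * (‖ξ.1‖ ^ 2 + ‖ξ.2‖ ^ 2) ≤ -(c * (‖ξ.1‖ ^ 2 + ‖ξ.2‖ ^ 2)) := by
      have e1 : ‖p.1 0‖ ^ 2 * ‖ξ.1‖ ^ 2 ≤ r ^ 2 * ‖ξ.1‖ ^ 2 :=
        mul_le_mul_of_nonneg_right (hq 0) (by positivity)
      have e2 : ‖p.1 1‖ ^ 2 * ‖ξ.2‖ ^ 2 ≤ r ^ 2 * ‖ξ.2‖ ^ 2 :=
        mul_le_mul_of_nonneg_right (hq 1) (by positivity)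
      have e3 := mul_le_mul_of_nonneg_left (add_le_add e1 e2)
        (by have := Real.pi_pos; positivity : (0 : ℝ) ≤ Real.pi / 2)
      rw [hc]
      linarith
    calc ‖F θ p.2 (embD v w p.1 ξ)‖ * Real.exp (-(Real.pi * (‖ξ.1‖ ^ 2 + ‖ξ.2‖ ^ 2)))
        ≤ C * Real.exp (Real.pi / 2 * ((1 + ‖p.1 0‖ ^ 2) * ‖ξ.1‖ ^ 2 +
            (1 + ‖p.1 1‖ ^ 2) * ‖ξ.2‖ ^ 2)) *
            Real.exp (-(Real.pi * (‖ξ.1‖ ^ 2 + ‖ξ.2‖ ^ 2))) :=
          mul_le_mul_of_nonneg_right h3 (Real.exp_pos _).le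
      _ = C * Real.exp (Real.pi / 2 * ((1 + ‖p.1 0‖ ^ 2) * ‖ξ.1‖ ^ 2 +
            (1 + ‖p.1 1‖ ^ 2) * ‖ξ.2‖ ^ 2) - Real.pi * (‖ξ.1‖ ^ 2 + ‖ξ.2‖ ^ 2)) := by
          rw [mul_assoc, ← Real.exp_add, ← sub_eq_add_neg]
      _ ≤ C * Real.exp (-(c * (‖ξ.1‖ ^ 2 + ‖ξ.2‖ ^ 2))) :=
          mul_le_mul_of_nonneg_left (Real.exp_le_exp.2 h4) hC.le
  · exact (hint c hc0).const_mul C
  · refine Eventually.of_forall fun ξ => Continuous.continuousAt ?_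
    exact hcont.comp (continuous_id.prodMk continuous_const)

end GAM
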