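import Pool.Agent.GAM.StC

/-!
# GAM [PsiK]: the function `Ψ` with its Galois equivariance
-/

set_option autoImplicit false

namespace GAM

open scoped ComplexConjugate

lemma PsiK_cc {K : Type} [Field K] {c : K →+* K} (hc : CMF K c) (t : K →+* ℂ) (x : K) :
    c (c x) = x := by
  apply t.injective
  rw [← hc.cc, ← hc.cc, Complex.conj_conj]

lemma PsiK_comm {K : Type} [Field K] {c : K →+* K} (hc : CMF K c) (t : K →+* ℂ) (g : K ≃+* K)
    (x : K) : g (c x) = c (g x) := by
  apply t.injective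
  have h1 := hc.cc (t.comp (g : K →+* K)) x
  rw [← hc.cc]
  simp only [RingHom.comp_apply, RingHom.coe_coe] at h1
  exact h1.symm

lemma PsiK_cmt {K : Type} [Field K] {c : K →+* K} (hc : CMF K c) (t : K →+* ℂ) (g : K ≃+* K)
    {S : Type} {φ : S → K →+* ℂ} (hφ : CMT K c φ) :
    CMT K c (fun s => (φ s).comp (g : K →+* K)) := by
  unfold CMT at hφ ⊢
  have h1 : Sum.elim (fun s => (φ s).comp (g : K →+* K))
      (fun s => ((φ s).comp (g : K →+* K)).comp c) =
      (fun σ : K →+* ℂ => σ.comp (g : K →+* K)) ∘ Sum.elim φ fun s => (φ s).comp c := by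
    funext s
    rcases s with s | s
    · rfl
    · apply RingHom.ext
      intro x
      simp only [Sum.elim_inr, Function.comp_apply, RingHom.comp_apply, RingHom.coe_coe]
      rw [PsiK_comm hc t g x]
  rw [h1]
  refine Function.Bijective.comp ?_ hφ
  refine ⟨?_, ?_⟩
  · intro σ τ h
    apply RingHom.ext
    intro x
    have h2 := congrArg (fun ρ : K →+* ℂ => ρ (g.symm x)) h
    simpa using h2
  · intro σ
    refine ⟨σ.comp (g.symm : K →+* K), ?_⟩
    apply RingHom.ext
    intro x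
    simp

lemma PsiK_gal (hS : St_Spn) (hE : St_ExpE) (hC : St_ExpC) {K : Type} [Field K] [NumberField K]
    {c : K →+* K} {δ : Derivation ℚ ℂ ℂ} (hc : CMF K c)
    (Ψ : (K →+* ℂ) → ((K →+* ℂ) → ℚ) →ₗ[ℚ] ℂ)
    (hval : ∀ (S : Type) [Fintype S] [DecidableEq S] (φ : S → K →+* ℂ) (A : S → ℂ) (s : S),
      CMT K c φ → IsExp δ K φ A → A s - δ Real.pi / (2 * Real.pi) = Ψ (φ s) (hfun φ))
    (g : K ≃+* K) (t : K →+* ℂ) (f : (K →+* ℂ) → ℚ) (hf : OddF c f) :
    Ψ (t.comp (g : K →+* K)) f = Ψ t (fun σ => f (σ.comp (g : K →+* K))) := by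
  have h1 := hS K c (t.comp (g : K →+* K)) f hc hf
  clear hf
  induction h1 using Submodule.span_induction with
  | mem h hh =>
    obtain ⟨S, _, _, φ', s, hφ', hs, rfl⟩ := hh
    obtain ⟨A, hA⟩ := hE K c S φ' δ hc hφ'
    have h2 := hC K S φ' δ A g.symm hA
    have h3 := PsiK_cmt hc t g.symm hφ'
    have h4 := hval S φ' A s hφ' hA
    have h5 := hval S _ A s h3 h2
    have h6 : (φ' s).comp (g.symm : K →+* K) = t := by
      rw [hs]
      apply RingHom.ext
      intro x
      simp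
    rw [h6] at h5
    rw [hs] at h4
    rw [← h4, h5]
    congr 1
    funext σ
    unfold hfun
    have h7 : (σ ∈ Set.range fun s => (φ' s).comp (g.symm : K →+* K)) ↔
        σ.comp (g : K →+* K) ∈ Set.range φ' := by
      constructor
      · rintro ⟨s', rfl⟩
        refine ⟨s', ?_⟩
        apply RingHom.ext
        intro x
        simp
      · rintro ⟨s', h⟩
        refine ⟨s', ?_⟩
        apply RingHom.ext
        intro x
        simp [h]
    by_cases h8 : σ.comp (g : K →+* K) ∈ Set.range φ'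
    · rw [if_pos h8, if_pos (h7.2 h8)]
    · rw [if_neg h8, if_neg fun h9 => h8 (h7.1 h9)]
  | zero =>
    rw [map_zero]
    exact (map_zero (Ψ t)).symm
  | add a b _ _ ha hb =>
    rw [map_add, ha, hb, ← map_add]
    rfl
  | smul q a _ ha =>
    rw [map_smul, ha, ← map_smul]
    rfl

theorem thm_PsiK (h1 : St_PsiK1) (hS : St_Spn) (hE : St_ExpE) (hC : St_ExpC) : St_PsiK := by
  intro K _ _ c δ hc
  choose Ψ hΨ using fun t : K →+* ℂ => h1 K c δ t hc
  have hval : ∀ (S : Type) [Fintype S] [DecidableEq S] (φ : S → K →+* ℂ) (A : S → ℂ) (s : S),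
      CMT K c φ → IsExp δ K φ A → A s - δ Real.pi / (2 * Real.pi) = Ψ (φ s) (hfun φ) := by
    intro S _ _ φ A s hφ hA
    exact hΨ (φ s) S φ A s hφ hA rfl
  refine ⟨Ψ, hval, ?_, PsiK_gal hS hE hC hc Ψ hval⟩
  intro t f hf
  have hcc : c.comp c = RingHom.id K := RingHom.ext fun x => PsiK_cc hc t x
  have h2 := PsiK_gal hS hE hC hc Ψ hval (RingEquiv.ofRingHom c c hcc hcc) t f hf
  have h3 : ((RingEquiv.ofRingHom c c hcc hcc : K ≃+* K) : K →+* K) = c := by
    apply RingHom.ext
    intro x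
    rfl
  rw [h3] at h2
  rw [h2, ← map_neg]
  congr 1
  funext σ
  exact hf σ

end GAM
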