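import Pool.Agent.GAM.StC

/-!
# GAM [PsiK1]: the exponents at `t` depend linearly on the CM type
-/

set_option autoImplicit false
set_option linter.unusedSectionVars false

namespace GAM

open scoped ComplexConjugate

section

variable {K : Type} [Field K] {c : K →+* K} {S : Type} [DecidableEq S] {φ : S → K →+* ℂ}

/-- the CM type flipped at `J` -/
private def PsiK1_fl (c : K →+* K) (φ : S → K →+* ℂ) (J : Finset S) (s : S) : K →+* ℂ :=
  if s ∈ J then (φ s).comp c else φ s

private theorem PsiK1_flip {J : Finset S} {v : S} (hv : v ∉ J) :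
    flip c (PsiK1_fl c φ J) v = PsiK1_fl c φ (insert v J) := by
  funext s
  unfold flip
  by_cases hs : s = v
  · subst hs
    rw [Function.update_self]
    unfold PsiK1_fl
    rw [if_neg hv, if_pos (Finset.mem_insert_self _ _)]
  · rw [Function.update_of_ne hs]
    unfold PsiK1_fl
    by_cases hJ : s ∈ J
    · rw [if_pos hJ, if_pos (Finset.mem_insert_of_mem hJ)]
    · rw [if_neg hJ, if_neg fun h => (Finset.mem_insert.mp h).elim hs hJ]

private theorem PsiK1_inj (h : CMT K c φ) {s s' : S} (h1 : φ s = φ s') : s = s' := by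
  have := h.1 (a₁ := Sum.inl s) (a₂ := Sum.inl s') h1
  exact Sum.inl.inj this

private theorem PsiK1_ne (h : CMT K c φ) {s s' : S} : (φ s).comp c ≠ φ s' := by
  intro h1
  have := h.1 (a₁ := Sum.inr s) (a₂ := Sum.inl s') h1
  cases this

/-- `φ v` is in the flipped CM type if and only if `v` is not in `J` -/
private theorem PsiK1_mem (h : CMT K c φ) (J : Finset S) (v : S) :
    φ v ∈ Set.range (PsiK1_fl c φ J) ↔ v ∉ J := by
  constructor
  · rintro ⟨s, hs⟩ hv
    unfold PsiK1_fl at hs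
    split_ifs at hs with h1
    · exact PsiK1_ne h hs
    · exact h1 (PsiK1_inj h hs ▸ hv)
  · intro hv
    exact ⟨v, by unfold PsiK1_fl; rw [if_neg hv]⟩

end

theorem thm_PsiK1 (hE : St_ExpE) (hU : St_ExpU) (hR : St_ExpR) (hX : St_X) (hC : St_Cube)
    (hF : St_FlipJ) (hB : St_Base) : St_PsiK1 := by
  intro K _ _ c δ t hc
  obtain ⟨S, _, _, φ, u, hφ, hu⟩ := hB K c hc t
  have hcm : ∀ J : Finset S, CMT K c (PsiK1_fl c φ J) := (hF K c S S φ φ hc hφ hφ).2.1
  have hex : ∀ J : Finset S, ∃ A, IsExp δ K (PsiK1_fl c φ J) A := fun J =>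
    hE K c S (PsiK1_fl c φ J) δ hc (hcm J)
  choose A hA using hex
  let S' : Type := {s : S // s ≠ u}
  let em : Finset S' → Finset S := fun J => J.map (Function.Embedding.subtype _)
  have hem : ∀ (J : Finset S') (v : S'), v.1 ∈ em J ↔ v ∈ J := by
    intro J v
    simp only [em, Finset.mem_map, Function.Embedding.subtype_apply]
    constructor
    · rintro ⟨w, hw, h⟩
      rwa [← Subtype.ext h]
    · intro hv
      exact ⟨v, hv, rfl⟩
  have hemi : ∀ (J : Finset S') (v : S'), em (insert v J) = insert v.1 (em J) := by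
    intro J v
    simp [em, Finset.map_insert]
  let F : Finset S' → ℂ := fun J => A (em J) u
  obtain ⟨q, hq⟩ := hC S' F (by
    intro J v w hvw hv hw
    have hv' : v.1 ∉ em J := fun h => hv ((hem J v).mp h)
    have hw' : w.1 ∉ em J := fun h => hw ((hem J w).mp h)
    have hvw' : v.1 ≠ w.1 := fun h => hvw (Subtype.ext h)
    have hw'' : w.1 ∉ insert v.1 (em J) := fun h =>
      (Finset.mem_insert.mp h).elim (fun h => hvw' h.symm) hw'
    have h1 := hX K c S (PsiK1_fl c φ (em J)) u v.1 w.1 δ (A (em J))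
      (A (insert w.1 (insert v.1 (em J)))) (A (insert v.1 (em J))) (A (insert w.1 (em J))) hc
      (hcm _) (Ne.symm v.2) (Ne.symm w.2) hvw' (hA _)
      (by rw [PsiK1_flip hv', PsiK1_flip hw'']; exact hA _)
      (by rw [PsiK1_flip hv']; exact hA _) (by rw [PsiK1_flip hw']; exact hA _)
    show A (em J) u + A (em (insert v (insert w J))) u =
      A (em (insert v J)) u + A (em (insert w J)) u
    rw [Finset.insert_comm v w J, hemi, hemi, hemi]
    exact h1)
  let C : ℂ := F ∅ - δ Real.pi / (2 * Real.pi) + 1 / 2 * ∑ v, q v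
  let Ψ : ((K →+* ℂ) → ℚ) →ₗ[ℚ] ℂ :=
    { toFun := fun f => 2 * C * (f (φ u) : ℂ) - ∑ v : S', q v * (f (φ v.1) : ℂ)
      map_add' := by
        intro f g
        simp only [Pi.add_apply, Rat.cast_add, mul_add, Finset.sum_add_distrib]
        ring
      map_smul' := by
        intro r f
        simp only [Pi.smul_apply, smul_eq_mul, Rat.cast_mul, RingHom.id_apply, Rat.smul_def,
          mul_sub, Finset.mul_sum]
        congr 1
        · ring
        · exact Finset.sum_congr rfl fun v _ => by ring }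
  refine ⟨Ψ, fun S₁ _ _ φ₁ A₁ s hφ₁ hA₁ hs => ?_⟩
  obtain ⟨-, -, J, f, hf⟩ := hF K c S S₁ φ φ₁ hc hφ hφ₁
  have hf' : φ₁ = fun s => PsiK1_fl c φ J (f s) := funext hf
  have hfs : f s = u ∧ u ∉ J := by
    have h1 : φ₁ s = φ u := by rw [hs, hu]
    rw [hf s] at h1
    split_ifs at h1 with h2
    · exact absurd h1 (PsiK1_ne hφ)
    · have h3 := PsiK1_inj hφ h1
      exact ⟨h3, h3 ▸ h2⟩
  obtain ⟨hfu, huJ⟩ := hfs
  have hr : Set.range φ₁ = Set.range (PsiK1_fl c φ J) := by
    rw [hf']
    exact f.surjective.range_comp (PsiK1_fl c φ J)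
  have hA₁' : A₁ s = A J u := by
    have h1 := hR K S S₁ (PsiK1_fl c φ J) δ (A J) f (hA J)
    rw [← hf'] at h1
    have h2 := hU K c S₁ φ₁ δ A₁ _ hc hφ₁ hA₁ h1
    rw [h2]
    show A J (f s) = A J u
    rw [hfu]
  let J' : Finset S' := Finset.univ.filter fun v => v.1 ∈ J
  have hJ' : em J' = J := by
    ext x
    simp only [em, J', Finset.mem_map, Finset.mem_filter, Finset.mem_univ, true_and,
      Function.Embedding.subtype_apply]
    constructor
    · rintro ⟨v, hv, rfl⟩
      exact hv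
    · intro hx
      exact ⟨⟨x, fun h => huJ (h ▸ hx)⟩, hx, rfl⟩
  have hFJ : A J u = F ∅ + ∑ v ∈ J', q v := by
    rw [← hq J']
    show A J u = A (em J') u
    rw [hJ']
  have h1 : hfun φ₁ (φ u) = 1 / 2 := by
    unfold hfun
    rw [if_pos]
    rw [hr]
    exact (PsiK1_mem hφ J u).mpr huJ
  have h2 : ∀ v : S', (hfun φ₁ (φ v.1) : ℂ) = 1 / 2 - if v ∈ J' then 1 else 0 := by
    intro v
    unfold hfun
    rw [hr]
    by_cases hv : v.1 ∈ J
    · rw [if_neg fun h => (PsiK1_mem hφ J v.1).mp h hv, if_pos (by simpa [J'] using hv)]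
      push_cast
      ring
    · rw [if_pos ((PsiK1_mem hφ J v.1).mpr hv), if_neg (by simpa [J'] using hv)]
      push_cast
      ring
  show A₁ s - δ Real.pi / (2 * Real.pi) =
    2 * C * (hfun φ₁ (φ u) : ℂ) - ∑ v : S', q v * (hfun φ₁ (φ v.1) : ℂ)
  have h3 : ∑ v : S', q v * (hfun φ₁ (φ v.1) : ℂ) = 1 / 2 * ∑ v, q v - ∑ v ∈ J', q v := by
    have h4 : ∀ v : S', q v * (hfun φ₁ (φ v.1) : ℂ) =
        1 / 2 * q v - if v ∈ J' then q v else 0 := by
      intro v
      rw [h2]
      split_ifs <;> ring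
    rw [Finset.sum_congr rfl fun v _ => h4 v, Finset.sum_sub_distrib, ← Finset.mul_sum,
      Finset.sum_ite_mem, Finset.univ_inter]
  rw [h3, h1, hA₁', hFJ]
  simp only [C]
  push_cast
  ring

end GAM
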