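import Pool.Agent.GAM.StD2
import Pool.Agent.GAM.Bas

/-!
# GAM, module PsiL: quasi-periodicity of the Fock vectors
-/

set_option autoImplicit false

namespace GAM

open scoped ComplexConjugate

lemma PsiL_ell {S : Type} [Fintype S] [DecidableEq S] (v w : S) (z : Fin 2 → ℂ)
    (G : (S × Fin 2 → ℂ) → ℂ) (c : ℂ) :
    ell v w z (fun u => c * G u) = c * ell v w z G := by
  unfold ell
  rw [← MeasureTheory.integral_const_mul]
  refine MeasureTheory.integral_congr_ae (Filter.Eventually.of_forall fun ξ => ?_)
  dsimp only
  ring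

theorem thm_PsiL : St_PsiL := by
  intro S _ _ v w L χ θ _ _ hT z l hl x
  have h1 : F θ (x + l) = fun u => χ l * Complex.exp (Real.pi * Complex.I * E x l) * F θ x u :=
    funext fun u => F_add_lat hT hl x u
  refine ⟨?_, fun u i => ?_⟩
  · unfold psi
    rw [h1, PsiL_ell]
  · unfold dpsi
    have h2 : pd (u, i) (F θ (x + l)) =
        fun t => χ l * Complex.exp (Real.pi * Complex.I * E x l) * pd (u, i) (F θ x) t := by
      funext t
      unfold pd
      rw [h1, fderiv_const_mul (F_differentiable hT x t)]
      rfl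
    rw [h2, PsiL_ell]

end GAM
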