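import Pool.Agent.GAM.StD2
import Pool.Agent.GAM.Bas

/-!
# GAM, module PsiN: the Fock vectors are not zero
-/

set_option autoImplicit false
set_option linter.unusedSectionVars false

namespace GAM

open scoped ComplexConjugate
open MeasureTheory

section psiN

variable {S : Type} [Fintype S] [DecidableEq S]

lemma psiN_embD_H (v w : S) (hvw : v ≠ w) (z : Fin 2 → ℂ) (ξ : ℂ × ℂ) :
    (H (embD v w z ξ) (embD v w z ξ)).re =
      (1 + ‖z 0‖ ^ 2) * ‖ξ.1‖ ^ 2 + (1 + ‖z 1‖ ^ 2) * ‖ξ.2‖ ^ 2 := by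
  rw [H_self_re, Fintype.sum_prod_type, Fintype.sum_eq_add v w hvw]
  · simp only [Fin.sum_univ_two]
    have e1 : embD v w z ξ (v, 0) = ξ.1 := by simp [embD]
    have e2 : embD v w z ξ (v, 1) = z 0 * conj ξ.1 := by simp [embD]
    have e3 : embD v w z ξ (w, 0) = ξ.2 := by simp [embD, hvw.symm]
    have e4 : embD v w z ξ (w, 1) = z 1 * conj ξ.2 := by simp [embD, hvw.symm]
    rw [e1, e2, e3, e4, norm_mul, norm_mul, RCLike.norm_conj, RCLike.norm_conj]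
    ring
  · rintro s ⟨h1, h2⟩
    simp [embD, h1, h2]

lemma psiN_embD_cont (v w : S) (z : Fin 2 → ℂ) : Continuous fun ξ : ℂ × ℂ => embD v w z ξ := by
  apply continuous_pi
  intro p
  unfold embD
  have h1 : Continuous fun ξ : ℂ × ℂ => conj ξ.1 := Complex.continuous_conj.comp continuous_fst
  have h2 : Continuous fun ξ : ℂ × ℂ => conj ξ.2 := Complex.continuous_conj.comp continuous_snd
  split_ifs <;> fun_prop

lemma psiN_gw_cont : Continuous gw := by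
  unfold gw
  have h1 : Continuous fun ξ : ℂ × ℂ => conj ξ.1 := Complex.continuous_conj.comp continuous_fst
  have h2 : Continuous fun ξ : ℂ × ℂ => conj ξ.2 := Complex.continuous_conj.comp continuous_snd
  fun_prop

end psiN

section psiNbox

variable {κ : Type} [Fintype κ]

lemma psiN_box : Set.Icc (0 : κ → ℝ) 1 ⊆ closure (interior (Set.Icc (0 : κ → ℝ) 1)) := by
  have h1 : Set.Icc (0 : κ → ℝ) 1 = Set.pi Set.univ fun _ : κ => Set.Icc (0 : ℝ) 1 :=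
    (Set.pi_univ_Icc _ _).symm
  have h2 : closure (interior (Set.Icc (0 : κ → ℝ) 1)) =
      Set.pi Set.univ fun _ : κ => Set.Icc (0 : ℝ) 1 := by
    rw [h1, interior_pi_set Set.finite_univ, closure_pi_set]
    simp only [interior_Icc]
    rw [closure_Ioo (by norm_num)]
  rw [h2, h1]

variable {ι : Type} [Fintype ι]

lemma psiN_cont (b : Module.Basis κ ℝ (ι → ℂ)) :
    Continuous fun t : κ → ℝ => ∑ i, t i • b i := by
  fun_prop

lemma psiN_avg_ne {L : Submodule ℤ (ι → ℂ)} {χ θ : (ι → ℂ) → ℂ}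
    {b : Module.Basis κ ℝ (ι → ℂ)} (hP : PLat L χ) (hb : L = Submodule.span ℤ (Set.range b))
    (hT : IsTh L χ θ) (hne : ∃ v, θ v ≠ 0) :
    avg b (fun x => F θ x 0 * conj (F θ x 0)) ≠ 0 := by
  intro h0
  have hFc : Continuous fun t : κ → ℝ => F θ (∑ i, t i • b i) 0 :=
    (F_continuous hT).comp ((psiN_cont b).prodMk continuous_const)
  have hc : Continuous fun t : κ → ℝ => ‖F θ (∑ i, t i • b i) 0‖ ^ 2 := hFc.norm.pow 2
  have h1 : ∫ t in Set.Icc (0 : κ → ℝ) 1, ‖F θ (∑ i, t i • b i) 0‖ ^ 2 = 0 := by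
    unfold avg at h0
    have h2 : (fun t : κ → ℝ => F θ (∑ i, t i • b i) 0 * conj (F θ (∑ i, t i • b i) 0)) =
        fun t : κ → ℝ => ((‖F θ (∑ i, t i • b i) 0‖ ^ 2 : ℝ) : ℂ) := by
      funext t
      rw [Complex.mul_conj']
      push_cast
      rfl
    rw [h2] at h0
    have h3 : ∫ t in Set.Icc (0 : κ → ℝ) 1, ((‖F θ (∑ i, t i • b i) 0‖ ^ 2 : ℝ) : ℂ) =
        ((∫ t in Set.Icc (0 : κ → ℝ) 1, ‖F θ (∑ i, t i • b i) 0‖ ^ 2 : ℝ) : ℂ) :=
      integral_ofReal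
    rw [h3] at h0
    exact_mod_cast h0
  have h3 : (fun t : κ → ℝ => ‖F θ (∑ i, t i • b i) 0‖ ^ 2) =ᵐ[volume.restrict
      (Set.Icc (0 : κ → ℝ) 1)] 0 := by
    rw [← integral_eq_zero_iff_of_nonneg]
    · exact h1
    · intro t
      positivity
    · exact (hc.continuousOn.integrableOn_compact isCompact_Icc)
  have h4 := Measure.eqOn_of_ae_eq h3 hc.continuousOn continuousOn_const psiN_box
  obtain ⟨x, hx⟩ := hne
  set t : κ → ℝ := fun i => Int.fract (b.repr x i) with ht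
  have htI : t ∈ Set.Icc (0 : κ → ℝ) 1 :=
    ⟨fun i => Int.fract_nonneg _, fun i => (Int.fract_lt_one _).le⟩
  set l : ι → ℂ := ∑ i, ⌊b.repr x i⌋ • b i with hl
  have hlL : l ∈ L := by
    rw [hb]
    exact Submodule.sum_mem _ fun i _ => Submodule.smul_mem _ _ (Submodule.subset_span ⟨i, rfl⟩)
  have hsum : (∑ i, t i • b i) + l = x := by
    rw [hl, ← Finset.sum_add_distrib]
    conv_rhs => rw [← b.sum_repr x]
    refine Finset.sum_congr rfl fun i _ => ?_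
    rw [ht]
    have : (⌊b.repr x i⌋ • b i : ι → ℂ) = ((⌊b.repr x i⌋ : ℤ) : ℝ) • b i :=
      (Int.cast_smul_eq_zsmul ℝ _ _).symm
    rw [this, ← add_smul, Int.fract_add_floor]
  have h5 : ‖F θ (∑ i, t i • b i) 0‖ ^ 2 = 0 := h4 htI
  have h6 : F θ (∑ i, t i • b i) 0 = 0 := by
    have := pow_eq_zero_iff (two_ne_zero) |>.mp h5
    exact norm_eq_zero.mp this
  have h7 : F θ x 0 = 0 := by
    rw [← hsum, F_zero_iff_lat hT hP hlL]
    exact h6
  rw [F_eq_zero_iff, add_zero] at h7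
  exact hx h7

end psiNbox

theorem thm_PsiN (h1 : St_Shift) (h2 : St_GroU) (h3 : St_Gau) : St_PsiN := by
  intro S _ _ v w L χ θ hvw hP hT hne z hz
  by_contra hcon
  push Not at hcon
  obtain ⟨b, hb⟩ := hP.basis
  obtain ⟨C, hC, hCF⟩ := h2 _ L χ θ hP hT
  obtain ⟨g1, -, g3, g4⟩ := h3
  have hA := psiN_avg_ne hP hb hT hne
  set A : ℂ := avg b (fun x => F θ x 0 * conj (F θ x 0)) with hAdef
  have hsh : ∀ v', avg b (fun x => F θ x v' * conj (F θ x 0)) = A := h1 _ L χ θ b hP hb hT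
  have hX := psiN_cont b
  set X : (S × Fin 2 ⊕ S × Fin 2 → ℝ) → (S × Fin 2 → ℂ) := fun t => ∑ i, t i • b i with hXdef
  -- the constant of the Gaussian
  obtain ⟨r, hr0, hr1, hr⟩ : ∃ r : ℝ, 0 ≤ r ∧ r < 1 ∧ ∀ i, ‖z i‖ ^ 2 ≤ r := by
    refine ⟨max (‖z 0‖ ^ 2) (‖z 1‖ ^ 2), by positivity, ?_, ?_⟩
    · have a0 := hz 0
      have a1 := hz 1
      have b0 := norm_nonneg (z 0)
      have b1 := norm_nonneg (z 1)
      apply max_lt <;> nlinarith
    · intro i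
      fin_cases i
      · exact le_max_left _ _
      · exact le_max_right _ _
  set c : ℝ := Real.pi / 2 * (1 - r) with hc
  have hcpos : 0 < c := by
    have := Real.pi_pos
    have : 0 < 1 - r := by linarith
    positivity
  have hgauss := g1 c hcpos
  let f : (S × Fin 2 ⊕ S × Fin 2 → ℝ) → ℂ × ℂ → ℂ := fun t ξ =>
    F θ (X t) (embD v w z ξ) * gw ξ * conj (F θ (X t) 0)
  have hfc : Continuous fun p : (S × Fin 2 ⊕ S × Fin 2 → ℝ) × (ℂ × ℂ) => f p.1 p.2 := by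
    have c1 : Continuous fun p : (S × Fin 2 ⊕ S × Fin 2 → ℝ) × (ℂ × ℂ) =>
        F θ (X p.1) (embD v w z p.2) :=
      (F_continuous hT).comp ((hX.comp continuous_fst).prodMk
        ((psiN_embD_cont v w z).comp continuous_snd))
    have c2 : Continuous fun p : (S × Fin 2 ⊕ S × Fin 2 → ℝ) × (ℂ × ℂ) =>
        F θ (X p.1) 0 :=
      (F_continuous hT).comp ((hX.comp continuous_fst).prodMk continuous_const)
    have c3 : Continuous fun p : (S × Fin 2 ⊕ S × Fin 2 → ℝ) × (ℂ × ℂ) => gw p.2 :=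
      psiN_gw_cont.comp continuous_snd
    exact (c1.mul c3).mul (Complex.continuous_conj.comp c2)
  have : IsFiniteMeasure (volume.restrict (Set.Icc (0 : S × Fin 2 ⊕ S × Fin 2 → ℝ) 1)) :=
    ⟨by rw [Measure.restrict_apply_univ]; exact isCompact_Icc.measure_lt_top⟩
  have hint : Integrable (Function.uncurry f)
      ((volume.restrict (Set.Icc (0 : S × Fin 2 ⊕ S × Fin 2 → ℝ) 1)).prod volume) := by
    have hb' : Integrable (fun p : (S × Fin 2 ⊕ S × Fin 2 → ℝ) × (ℂ × ℂ) =>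
        (C * C) * Real.exp (-(c * (‖p.2.1‖ ^ 2 + ‖p.2.2‖ ^ 2))))
        ((volume.restrict (Set.Icc (0 : S × Fin 2 ⊕ S × Fin 2 → ℝ) 1)).prod volume) :=
      Integrable.mul_prod (f := fun _ => C * C)
        (g := fun ξ : ℂ × ℂ => Real.exp (-(c * (‖ξ.1‖ ^ 2 + ‖ξ.2‖ ^ 2))))
        (integrable_const _) hgauss
    refine hb'.mono' hfc.aestronglyMeasurable (Filter.Eventually.of_forall ?_)
    rintro ⟨t, ξ⟩
    show ‖F θ (X t) (embD v w z ξ) * gw ξ * conj (F θ (X t) 0)‖ ≤ _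
    rw [norm_mul, norm_mul, RCLike.norm_conj, g3]
    have e1 := hCF (X t) (embD v w z ξ)
    rw [psiN_embD_H v w hvw] at e1
    have e2 := hCF (X t) 0
    rw [H_zero_left, Complex.zero_re, mul_zero, Real.exp_zero, mul_one] at e2
    have e3 : Real.exp (Real.pi / 2 * ((1 + ‖z 0‖ ^ 2) * ‖ξ.1‖ ^ 2 +
        (1 + ‖z 1‖ ^ 2) * ‖ξ.2‖ ^ 2)) * Real.exp (-(Real.pi * (‖ξ.1‖ ^ 2 + ‖ξ.2‖ ^ 2))) ≤
        Real.exp (-(c * (‖ξ.1‖ ^ 2 + ‖ξ.2‖ ^ 2))) := by
      rw [← Real.exp_add]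
      apply Real.exp_le_exp.mpr
      have p1 : ‖z 0‖ ^ 2 * ‖ξ.1‖ ^ 2 ≤ r * ‖ξ.1‖ ^ 2 :=
        mul_le_mul_of_nonneg_right (hr 0) (by positivity)
      have p2 : ‖z 1‖ ^ 2 * ‖ξ.2‖ ^ 2 ≤ r * ‖ξ.2‖ ^ 2 :=
        mul_le_mul_of_nonneg_right (hr 1) (by positivity)
      have hpi := Real.pi_pos
      have p3 := mul_le_mul_of_nonneg_left p1 hpi.le
      have p4 := mul_le_mul_of_nonneg_left p2 hpi.le
      rw [hc]
      nlinarith
    calc ‖F θ (X t) (embD v w z ξ)‖ * Real.exp (-(Real.pi * (‖ξ.1‖ ^ 2 + ‖ξ.2‖ ^ 2))) *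
          ‖F θ (X t) 0‖
        ≤ (C * Real.exp (Real.pi / 2 * ((1 + ‖z 0‖ ^ 2) * ‖ξ.1‖ ^ 2 +
          (1 + ‖z 1‖ ^ 2) * ‖ξ.2‖ ^ 2))) *
          Real.exp (-(Real.pi * (‖ξ.1‖ ^ 2 + ‖ξ.2‖ ^ 2))) * C := by
          apply mul_le_mul _ e2 (norm_nonneg _) (by positivity)
          exact mul_le_mul_of_nonneg_right e1 (by positivity)
      _ = (C * C) * (Real.exp (Real.pi / 2 * ((1 + ‖z 0‖ ^ 2) * ‖ξ.1‖ ^ 2 +
          (1 + ‖z 1‖ ^ 2) * ‖ξ.2‖ ^ 2)) *
          Real.exp (-(Real.pi * (‖ξ.1‖ ^ 2 + ‖ξ.2‖ ^ 2)))) := by ring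
      _ ≤ (C * C) * Real.exp (-(c * (‖ξ.1‖ ^ 2 + ‖ξ.2‖ ^ 2))) :=
          mul_le_mul_of_nonneg_left e3 (by positivity)
  have hswap := integral_integral_swap hint
  have hl : ∫ t in Set.Icc (0 : S × Fin 2 ⊕ S × Fin 2 → ℝ) 1, ∫ ξ : ℂ × ℂ, f t ξ = 0 := by
    have : ∀ t, ∫ ξ : ℂ × ℂ, f t ξ = 0 := by
      intro t
      show ∫ ξ : ℂ × ℂ, F θ (X t) (embD v w z ξ) * gw ξ * conj (F θ (X t) 0) = 0
      rw [integral_mul_const]
      have h0 : ∫ ξ : ℂ × ℂ, F θ (X t) (embD v w z ξ) * gw ξ = 0 := hcon (X t)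
      rw [h0, zero_mul]
    simp only [this, integral_zero]
  have hr' : ∫ ξ : ℂ × ℂ, ∫ t in Set.Icc (0 : S × Fin 2 ⊕ S × Fin 2 → ℝ) 1, f t ξ = A := by
    have : ∀ ξ : ℂ × ℂ, ∫ t in Set.Icc (0 : S × Fin 2 ⊕ S × Fin 2 → ℝ) 1, f t ξ = gw ξ * A := by
      intro ξ
      rw [← hsh (embD v w z ξ)]
      unfold avg
      rw [← integral_const_mul]
      refine integral_congr_ae (Filter.Eventually.of_forall fun t => ?_)
      show F θ (X t) (embD v w z ξ) * gw ξ * conj (F θ (X t) 0) =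
        gw ξ * (F θ (X t) (embD v w z ξ) * conj (F θ (X t) 0))
      ring
    simp only [this]
    rw [integral_mul_const, g4, one_mul]
  rw [hl, hr'] at hswap
  exact hA hswap.symm

end GAM
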