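import Pool.Agent.GAM.StD2

/-!
# GAM PsiT: `psi` at `g 0` is a theta function for `g⁻¹ L`
-/

set_option autoImplicit false

namespace GAM

open scoped ComplexConjugate

theorem thm_PsiT (h1 : St_PsiC) (h2 : St_PsiE) (h3 : St_PsiL) : St_PsiT := by
  intro S _ _ v w g L L' χ χ' θ hvw hP hT hM
  constructor
  · have e : (fun u => psi v w θ (mob g 0) (act g u) * Complex.exp (Real.pi / 2 * H u u)) =
        fun u : S × Fin 2 → ℂ =>
        Complex.exp (-(Real.pi * (g.b v / conj (g.a v) * (u (v, 0) * u (v, 1)) +
      g.b w / conj (g.a w) * (u (w, 0) * u (w, 1))))) * ∫ y : ℂ × ℂ, cli v w g θ u y := by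
      funext u
      exact h1 S v w g θ u hvw
    rw [e]
    refine Differentiable.mul ?_ (h2 S v w g L χ θ hvw hP hT)
    fun_prop
  · intro l hl u
    have hgl : act g l ∈ L := (hM.lat l).mp hl
    obtain ⟨h4, -⟩ := h3 S v w L χ θ hvw hP hT (mob g 0) (act g l) hgl (act g u)
    have h5 := H_sub_H u l
    show psi v w θ (mob g 0) (act g (u + l)) * Complex.exp (Real.pi / 2 * H (u + l) (u + l)) = _
    rw [act_add, h4, hM.chi l hl, E_act]
    have h6 : Complex.exp (Real.pi * Complex.I * E u l) *
        Complex.exp (Real.pi / 2 * H (u + l) (u + l)) =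
        Complex.exp (Real.pi * H u l + Real.pi / 2 * H l l) *
        Complex.exp (Real.pi / 2 * H u u) := by
      rw [← Complex.exp_add, ← Complex.exp_add]
      congr 1
      simp only [H_add_left, H_add_right]
      linear_combination (-(Real.pi : ℂ) / 2) * h5
    linear_combination (χ' l * psi v w θ (mob g 0) (act g u)) * h6

end GAM
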