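import Pool.Agent.GAM.StD2
import Pool.Agent.GAM.Bas

/-!
# GAM, module Pts: choice of the points of odd order
-/

set_option autoImplicit false

namespace GAM

open scoped ComplexConjugate

lemma Pts_dd {ι : Type} [Fintype ι] [DecidableEq ι] (f : (ι → ℂ) → ℂ) (z : ι → ℂ) (i j : ι)
    (a b : ℂ) : dd (a • (Pi.single i 1 : ι → ℂ) + b • (Pi.single j 1 : ι → ℂ)) f z =
      a * pd i f z + b * pd j f z := by
  unfold dd pd
  rw [map_add, map_smul, map_smul, smul_eq_mul, smul_eq_mul]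

/-- three vectors -/
lemma Pts_det {Y : Type} (p : Y → Prop) (V : Y → Fin 3 → ℂ)
    (h : ∀ α β γ : ℂ, ¬ (α = 0 ∧ β = 0 ∧ γ = 0) → ∃ y, p y ∧
      α * V y 0 + β * V y 1 + γ * V y 2 ≠ 0) :
    ∃ y : Fin 3 → Y, (∀ i, p (y i)) ∧ V (y 0) 0 ≠ 0 ∧
      (Matrix.of fun i j : Fin 3 => V (y i) j).det ≠ 0 := by
  obtain ⟨y0, hp0, h0⟩ := h 1 0 0 (by simp)
  have h0' : V y0 0 ≠ 0 := by simpa using h0
  obtain ⟨y1, hp1, h1⟩ := h (-V y0 1) (V y0 0) 0 (fun h => h0' h.2.1)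
  obtain ⟨y2, hp2, h2⟩ := h (V y0 1 * V y1 2 - V y0 2 * V y1 1)
    (V y0 2 * V y1 0 - V y0 0 * V y1 2) (V y0 0 * V y1 1 - V y0 1 * V y1 0) (by
      rintro ⟨-, -, h3⟩
      apply h1
      linear_combination h3)
  refine ⟨![y0, y1, y2], ?_, h0', ?_⟩
  · intro i
    fin_cases i
    · exact hp0
    · exact hp1
    · exact hp2
  · rw [Matrix.det_fin_three]
    simp only [Matrix.of_apply, Matrix.cons_val_zero, Matrix.cons_val_one, Matrix.cons_val]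
    intro h3
    apply h2
    linear_combination h3

theorem thm_Pts (h1 : St_Ind1) (h2 : St_Ind2) (h3 : St_Ell) (h4 : St_GroF) : St_Pts := by
  classical
  intro S _ _ u v w L χ θ huv huw hvw hP hT hne
  obtain ⟨g1, g2, -⟩ := h4 (S × Fin 2)
  have hG : ∀ x, Gro (F θ x) := g1 L χ θ hP hT
  have hpsi : ∀ y, psi v w θ 0 y = F θ y 0 := fun y => (h3 S v w (F θ y) hvw (hG y)).2.1
  have hdpsi : ∀ i x, dpsi v w u i θ 0 x = pd (u, i) (F θ x) 0 := fun i x =>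
    (h3 S v w (pd (u, i) (F θ x)) hvw (g2 _ (hG x) (u, i))).2.1
  -- the points x, x'
  have hsing : ∀ (a b : ℂ), ¬ (a = 0 ∧ b = 0) → a • (Pi.single (u, 0) 1 : S × Fin 2 → ℂ) +
      b • (Pi.single (u, 1) 1 : S × Fin 2 → ℂ) ≠ 0 := by
    intro a b hab h
    apply hab
    have e0 := congrFun h (u, 0)
    have e1 := congrFun h (u, 1)
    simp only [Pi.add_apply, Pi.smul_apply, smul_eq_mul, Pi.zero_apply] at e0 e1
    rw [Pi.single_eq_same, Pi.single_eq_of_ne (by simp)] at e0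
    rw [Pi.single_eq_same, Pi.single_eq_of_ne (by simp)] at e1
    exact ⟨by simpa using e0, by simpa using e1⟩
  have hx : ∀ (a b : ℂ), ¬ (a = 0 ∧ b = 0) → ∃ x, OddTor L x ∧
      a * pd (u, 0) (F θ x) 0 + b * pd (u, 1) (F θ x) 0 ≠ 0 := by
    intro a b hab
    obtain ⟨x, hx, hx'⟩ := h1 (S × Fin 2) L χ θ hP hT hne _ 0 (hsing a b hab)
    rw [Pts_dd, zero_mul] at hx'
    exact ⟨x, hx, hx'⟩
  obtain ⟨x, hxo, hx0⟩ := hx 1 0 (by simp)
  have hx0' : pd (u, 0) (F θ x) 0 ≠ 0 := by simpa using hx0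
  obtain ⟨x', hxo', hx1⟩ := hx (-pd (u, 1) (F θ x) 0) (pd (u, 0) (F θ x) 0) (fun h => hx0' h.2)
  -- the points y
  obtain ⟨y, hyo, hy0, hyd⟩ := Pts_det (OddTor L) (fun (y : S × Fin 2 → ℂ) (j : Fin 3) =>
    if j = 0 then F θ y 0 else
      if j = 1 then pd (v, 0) (pd (v, 1) (F θ y)) 0 else
        pd (w, 0) (pd (w, 1) (F θ y)) 0) (by
    intro α β γ hn
    obtain ⟨y, hy, hy'⟩ := h2 (S × Fin 2) L χ θ hP hT hne (v, 0) (v, 1) (w, 0) (w, 1) α β γ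
      (by simp) (by simp) (by simp [hvw]) (by simp) (by simp) (by simp [hvw]) hn
    refine ⟨y, hy, ?_⟩
    simpa using hy')
  refine ⟨x, x', y, hxo, hxo', hyo, ?_, ?_, hyd⟩
  · unfold wedge
    rw [hdpsi, hdpsi, hdpsi, hdpsi]
    intro h
    apply hx1
    linear_combination h
  · rw [hpsi]
    simpa using hy0

end GAM
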