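import Pool.Agent.GAM.StG
import Pool.Agent.GAM.Der
import Pool.Agent.GAM.Hol
import Pool.Agent.GAM.DelR

/-!
# GAM [Quad]: the Wronskians and the second logarithmic derivatives are quadratic forms with
algebraic coefficients
-/

set_option autoImplicit false
set_option linter.unusedSectionVars false

namespace GAM

open scoped ComplexConjugate

section

variable {ι : Type} [Fintype ι] [DecidableEq ι]

/-- multiplication of the coordinates -/
noncomputable def Quad_D (μ : ι → ℂ) (z : ι → ℂ) : ι → ℂ := fun a => (μ a)⁻¹ * z a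

omit [DecidableEq ι] in
theorem Quad_D_surj {μ : ι → ℂ} (hμ : ∀ a, μ a ≠ 0) (v : ι → ℂ) : ∃ z, Quad_D μ z = v := by
  refine ⟨fun a => μ a * v a, ?_⟩
  funext a
  unfold Quad_D
  rw [← mul_assoc, inv_mul_cancel₀ (hμ a), one_mul]

theorem Quad_pd {f : (ι → ℂ) → ℂ} (hf : Differentiable ℂ f) (μ : ι → ℂ) (s : ℂ) (a : ι) :
    pd a (fun z => s * f (Quad_D μ z)) = fun z => s * (μ a)⁻¹ * pd a f (Quad_D μ z) := by
  funext z
  let D : (ι → ℂ) →L[ℂ] (ι → ℂ) :=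
    ContinuousLinearMap.pi fun b => (μ b)⁻¹ • (ContinuousLinearMap.proj b : (ι → ℂ) →L[ℂ] ℂ)
  have hD : ∀ z, D z = Quad_D μ z := by
    intro z
    funext b
    simp [D, Quad_D]
  have h1 : HasFDerivAt (fun z => f (D z)) ((fderiv ℂ f (D z)).comp D) z :=
    (hf (D z)).hasFDerivAt.comp z D.hasFDerivAt
  have h2 : HasFDerivAt (fun z => s * f (D z)) (s • ((fderiv ℂ f (D z)).comp D)) z :=
    h1.const_mul s
  have e1 : (fun z => s * f (Quad_D μ z)) = fun z => s * f (D z) := by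
    funext w
    rw [hD]
  have e2 : D (Pi.single a 1) = (μ a)⁻¹ • (Pi.single a (1 : ℂ) : ι → ℂ) := by
    rw [hD]
    funext b
    unfold Quad_D
    rw [Pi.smul_apply, smul_eq_mul]
    by_cases hb : b = a
    · subst hb
      rfl
    · rw [Pi.single_eq_of_ne hb, mul_zero, mul_zero]
  unfold pd
  rw [e1, h2.fderiv]
  change s * fderiv ℂ f (D z) (D (Pi.single a 1)) = _
  rw [e2, map_smul, smul_eq_mul, hD]
  ring

theorem Quad_Tn (θ : (ι → ℂ) → ℂ) (μ y x : ι → ℂ) :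
    Tn θ μ y x = fun z => (F θ y 0)⁻¹ * F θ x (Quad_D μ z) := by
  funext z
  unfold Tn Quad_D
  rw [div_eq_inv_mul]

theorem Quad_pd_Tn {L : Submodule ℤ (ι → ℂ)} {χ θ : (ι → ℂ) → ℂ} (hT : IsTh L χ θ)
    (μ y x : ι → ℂ) (a : ι) :
    pd a (Tn θ μ y x) = fun z => (F θ y 0)⁻¹ * (μ a)⁻¹ * pd a (F θ x) (Quad_D μ z) := by
  rw [Quad_Tn, Quad_pd (F_differentiable hT x)]

theorem Quad_pd2_Tn {L : Submodule ℤ (ι → ℂ)} {χ θ : (ι → ℂ) → ℂ} (hT : IsTh L χ θ)
    (μ y x : ι → ℂ) (a b : ι) :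
    pd a (pd b (Tn θ μ y x)) =
      fun z => (F θ y 0)⁻¹ * (μ b)⁻¹ * (μ a)⁻¹ * pd a (pd b (F θ x)) (Quad_D μ z) := by
  rw [Quad_pd_Tn hT, Quad_pd (DelR_pd_diff (DelR_an thm_Hol (F_differentiable hT x)) b)]

/-! ### roots of unity -/

omit [DecidableEq ι] in
theorem Quad_root {L : Submodule ℤ (ι → ℂ)} {χ : (ι → ℂ) → ℂ} (hP : PLat L χ) {N : ℕ}
    (hN : N ≠ 0) {x l : ι → ℂ} (hx : (N : ℤ) • x ∈ L) (hl : l ∈ L) :
    IsAlgebraic ℚ (χ l * Complex.exp (Real.pi * Complex.I * E x l)) := by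
  have h1 : IsAlgebraic ℚ (χ l) := by
    rcases hP.pm l hl with h | h
    · rw [h]
      exact isAlgebraic_one
    · rw [h]
      exact isAlgebraic_one.neg
  refine h1.mul ?_
  have h2 : Complex.exp (Real.pi * Complex.I * E x l) ^ (2 * N) = 1 := by
    rw [← Complex.exp_nat_mul]
    obtain ⟨n, hn⟩ := hP.int _ hx l hl
    have h3 := exp_two_pi_int (x := E ((N : ℤ) • x) l) ⟨n, hn⟩
    rw [E_zsmul_left] at h3
    rw [← h3]
    congr 1
    push_cast
    ring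
  have h4 : IsAlgebraic ℚ (Complex.exp (Real.pi * Complex.I * E x l) ^ (2 * N)) := by
    rw [h2]
    exact isAlgebraic_one
  exact IsAlgebraic.of_pow (by omega) h4

/-! ### the quadratic forms -/

theorem Quad_XX {M : ℕ} (k k' : Fin (M + 1)) {d : ℂ} (hd : IsAlgebraic ℚ d) :
    Pool.Agent.GPC.IsAlgQuadratic
      (MvPolynomial.C d * (MvPolynomial.X k * MvPolynomial.X k') :
        MvPolynomial (Fin (M + 1)) ℂ) := by
  classical
  refine ⟨?_, fun m => ?_⟩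
  · have h := (MvPolynomial.isHomogeneous_C (Fin (M + 1)) d).mul
      ((MvPolynomial.isHomogeneous_X ℂ k).mul (MvPolynomial.isHomogeneous_X ℂ k'))
    simpa using h
  · rw [MvPolynomial.coeff_C_mul]
    refine hd.mul ?_
    have : (MvPolynomial.X k * MvPolynomial.X k' : MvPolynomial (Fin (M + 1)) ℂ) =
        MvPolynomial.monomial (Finsupp.single k 1 + Finsupp.single k' 1) 1 := by
      rw [MvPolynomial.X, MvPolynomial.X, MvPolynomial.monomial_mul, one_mul]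
    rw [this, MvPolynomial.coeff_monomial]
    split_ifs
    · exact isAlgebraic_one
    · exact isAlgebraic_zero

theorem Quad_sum {M : ℕ} {α : Type} (s : Finset α) (Q : α → MvPolynomial (Fin (M + 1)) ℂ)
    (hQ : ∀ a ∈ s, Pool.Agent.GPC.IsAlgQuadratic (Q a)) :
    Pool.Agent.GPC.IsAlgQuadratic (∑ a ∈ s, Q a) := by
  refine ⟨MvPolynomial.IsHomogeneous.sum _ _ _ fun a ha => (hQ a ha).1, fun m => ?_⟩
  rw [MvPolynomial.coeff_sum]
  exact Finset.sum_induction _ (fun x => IsAlgebraic ℚ x) (fun x y hx hy => hx.add hy)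
    (isAlgebraic_zero) fun a ha => (hQ a ha).2 m

/-- the derivative of a product -/
theorem Quad_del_mul {δ : Derivation ℚ ℂ ℂ} (hR : DelRules ι δ) {a b : (ι → ℂ) → ℂ}
    (ha : IsDel δ a fun _ => 0) (hb : IsDel δ b fun _ => 0) :
    IsDel δ (fun v => a v * b v) fun _ => 0 := by
  have h := hR.mul _ _ _ _ ha hb
  simpa using h

theorem Quad_del_sub {δ : Derivation ℚ ℂ ℂ} (hR : DelRules ι δ) {a b : (ι → ℂ) → ℂ}
    (ha : IsDel δ a fun _ => 0) (hb : IsDel δ b fun _ => 0) :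
    IsDel δ (fun v => a v - b v) fun _ => 0 := by
  have h1 : IsDel δ (fun _ : ι → ℂ => (-1 : ℂ)) fun _ => 0 := by
    have h := hR.const (-1)
    have h2 : δ (-1) = 0 := by
      rw [map_neg, δ.map_one_eq_zero, neg_zero]
    rwa [h2] at h
  have h3 := hR.add _ _ _ _ ha (Quad_del_mul hR h1 hb)
  have e : (fun v => a v + -1 * b v) = fun v => a v - b v := by
    funext v
    ring
  rw [e] at h3
  simpa using h3

theorem Quad_del_pd {δ : Derivation ℚ ℂ ℂ} (hR : DelRules ι δ) {a : (ι → ℂ) → ℂ} (j : ι)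
    (ha : IsDel δ a fun _ => 0) : IsDel δ (pd j a) fun _ => 0 := by
  have h := hR.pd j _ _ ha
  rwa [DelR_pd_const] at h

/-- **The common part.** -/
theorem Quad_core (hD : St_DelR) (hLin : St_LinD) {L : Submodule ℤ (ι → ℂ)}
    {χ θ : (ι → ℂ) → ℂ} {A : Derivation ℚ ℂ ℂ → ι → ℂ} {μ y : ι → ℂ} {N r : ℕ}
    {c : Fin (r + 1) → ι → ℂ} {κ : Fin (r + 1) → (ι → ℂ) → ℂ} {M : ℕ}
    {X : Fin (M + 1) → ι → ℂ} (hP : PLat L χ) (hT : IsTh L χ θ) (hn : Norm L θ A μ y)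
    (hG : GoodN L θ N) (hL : LinN L θ N r c κ) (hX : ∀ j, (N : ℤ) • X j ∈ L)
    (hX' : ∀ x, (N : ℤ) • x ∈ L → ∃ j, x - X j ∈ L) {σ : ι → ℂ} (hσ : (N : ℤ) • σ ∈ L)
    (g : (ι → ℂ) → ℂ) (hg : ∀ δ : Derivation ℚ ℂ ℂ, IsDel δ g fun _ => 0)
    (d : Fin (r + 1) → ℂ)
    (hd : ∀ z, g z = ∑ i, d i * (Tn θ μ y (σ + c i) z * Tn θ μ y (σ - c i) z)) :
    ∃ Q : MvPolynomial (Fin (M + 1)) ℂ, Pool.Agent.GPC.IsAlgQuadratic Q ∧
      ∀ z, g z = MvPolynomial.eval (fun k => Tn θ μ y (X k) z) Q := by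
  have hN0 : N ≠ 0 := by
    rintro rfl
    exact absurd hG.odd (by decide)
  have hp : ∀ i, (N : ℤ) • (σ + c i) ∈ L := fun i => by
    rw [smul_add]
    exact L.add_mem hσ (hL.lev i)
  have hm : ∀ i, (N : ℤ) • (σ - c i) ∈ L := fun i => by
    rw [smul_sub]
    exact L.sub_mem hσ (hL.lev i)
  -- the coefficients are algebraic
  have halg : ∀ i, IsAlgebraic ℚ (d i) := by
    refine hLin ι (Fin (r + 1)) (fun i z => Tn θ μ y (σ + c i) z * Tn θ μ y (σ - c i) z) g d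
      ?_ (fun δ i => ?_) hg hd
    · rw [Fintype.linearIndependent_iff]
      intro t ht
      refine Fintype.linearIndependent_iff.mp (hL.ind σ) t ?_
      funext v
      obtain ⟨z, rfl⟩ := Quad_D_surj hn.ne v
      have h1 := congrFun ht z
      rw [Finset.sum_apply] at h1 ⊢
      simp only [Pi.smul_apply, smul_eq_mul, Pi.zero_apply, Quad_Tn] at h1 ⊢
      have h2 : ∑ i, t i * ((F θ y 0)⁻¹ * F θ (σ + c i) (Quad_D μ z) *
          ((F θ y 0)⁻¹ * F θ (σ - c i) (Quad_D μ z))) = ((F θ y 0)⁻¹ * (F θ y 0)⁻¹) *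
          ∑ i, t i * (F θ (σ + c i) (Quad_D μ z) * F θ (σ - c i) (Quad_D μ z)) := by
        rw [Finset.mul_sum]
        refine Finset.sum_congr rfl fun i _ => ?_
        ring
      rw [h2, mul_eq_zero] at h1
      refine h1.resolve_left ?_
      exact mul_ne_zero (inv_ne_zero hn.ney) (inv_ne_zero hn.ney)
    · exact Quad_del_mul (hD ι δ) (hn.del δ _ ⟨N, hG.odd, hp i⟩) (hn.del δ _ ⟨N, hG.odd, hm i⟩)
  -- the functions are multiples of the given ones
  have key : ∀ x, (N : ℤ) • x ∈ L → ∃ (k : Fin (M + 1)) (ω : ℂ), IsAlgebraic ℚ ω ∧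
      ∀ z, Tn θ μ y x z = ω * Tn θ μ y (X k) z := by
    intro x hx
    obtain ⟨k, hk⟩ := hX' x hx
    refine ⟨k, _, Quad_root hP hN0 (hX k) hk, fun z => ?_⟩
    have e : x = X k + (x - X k) := by abel
    rw [Quad_Tn, Quad_Tn]
    have h1 := F_add_lat hT hk (X k) (Quad_D μ z)
    rw [← e] at h1
    simp only []
    rw [h1]
    ring
  choose k1 ω1 hω1 hk1 using fun i => key _ (hp i)
  choose k2 ω2 hω2 hk2 using fun i => key _ (hm i)
  refine ⟨∑ i, MvPolynomial.C (d i * ω1 i * ω2 i) * (MvPolynomial.X (k1 i) * MvPolynomial.X (k2 i)),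
    Quad_sum _ _ fun i _ => Quad_XX _ _ (((halg i).mul (hω1 i)).mul (hω2 i)), fun z => ?_⟩
  rw [hd, map_sum]
  refine Finset.sum_congr rfl fun i _ => ?_
  rw [hk1, hk2]
  simp only [map_mul, MvPolynomial.eval_C, MvPolynomial.eval_X]
  ring

end

theorem thm_Quad (hD : St_DelR) (hL : St_LinD) : St_Quad := by
  intro ι _ _ L χ θ A μ y N r c κ κ₁ κ₂ M X hP hT hne hn hG hLin h1 h2 hX hX'
  constructor
  · intro a i j
    obtain ⟨k, hk⟩ := hG.odd
    set σ : ι → ℂ := ((k + 1 : ℕ) : ℤ) • (X j + X i) with hσd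
    set ρ : ι → ℂ := ((k + 1 : ℕ) : ℤ) • (X j - X i) with hρd
    have hσ : (N : ℤ) • σ ∈ L := by
      rw [hσd, smul_comm]
      refine L.smul_mem _ ?_
      rw [smul_add]
      exact L.add_mem (hX j) (hX i)
    have hN : (N : ℤ) = 2 * k + 1 := by
      rw [hk]
      push_cast
      ring
    have e1 : σ + ρ = X j + (N : ℤ) • X j := by
      rw [hσd, hρd, hN]
      push_cast
      module
    have e2 : σ - ρ = X i + (N : ℤ) • X i := by
      rw [hσd, hρd, hN]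
      push_cast
      module
    have hF : ∀ x, (N : ℤ) • x ∈ L → F θ (x + (N : ℤ) • x) =
        fun v => χ ((N : ℤ) • x) * F θ x v := by
      intro x hx
      funext v
      rw [F_add_lat hT hx, E_zsmul_right, E_self, mul_zero, Complex.ofReal_zero, mul_zero,
        Complex.exp_zero, mul_one]
    have hpF : ∀ x, (N : ℤ) • x ∈ L → pd a (F θ (x + (N : ℤ) • x)) =
        fun v => χ ((N : ℤ) • x) * pd a (F θ x) v := by
      intro x hx
      rw [hF x hx]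
      funext v
      have h3 := ((F_differentiable hT x v).hasFDerivAt.const_mul (χ ((N : ℤ) • x))).fderiv
      unfold pd
      rw [h3]
      rfl
    have hεj := hP.chi_sq (hX j)
    have hεi := hP.chi_sq (hX i)
    refine Quad_core hD hL hP hT hn hG hLin hX hX' hσ _ (fun δ => ?_)
      (fun l => (μ a)⁻¹ * (χ ((N : ℤ) • X j) * χ ((N : ℤ) • X i)) * κ₁ a l ρ) fun z => ?_
    · have hdj := hn.del δ (X j) ⟨N, hG.odd, hX j⟩
      have hdi := hn.del δ (X i) ⟨N, hG.odd, hX i⟩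
      exact Quad_del_sub (hD ι δ) (Quad_del_mul (hD ι δ) hdi (Quad_del_pd (hD ι δ) a hdj))
        (Quad_del_mul (hD ι δ) hdj (Quad_del_pd (hD ι δ) a hdi))
    · have h3 := h1 a σ ρ (Quad_D μ z)
      rw [e1, e2, hF _ (hX j), hF _ (hX i)] at h3
      have h4 := congrFun (hpF _ (hX j)) (Quad_D μ z)
      have h5 := congrFun (hpF _ (hX i)) (Quad_D μ z)
      rw [hF _ (hX j)] at h4
      rw [hF _ (hX i)] at h5
      rw [h4, h5] at h3
      rw [Quad_pd_Tn hT, Quad_pd_Tn hT]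
      simp only [Quad_Tn]
      have h6 : ∑ l, (μ a)⁻¹ * (χ ((N : ℤ) • X j) * χ ((N : ℤ) • X i)) * κ₁ a l ρ *
          ((F θ y 0)⁻¹ * F θ (σ + c l) (Quad_D μ z) *
            ((F θ y 0)⁻¹ * F θ (σ - c l) (Quad_D μ z))) =
          (μ a)⁻¹ * (χ ((N : ℤ) • X j) * χ ((N : ℤ) • X i)) * ((F θ y 0)⁻¹ * (F θ y 0)⁻¹) *
            ∑ l, κ₁ a l ρ * (F θ (σ + c l) (Quad_D μ z) * F θ (σ - c l) (Quad_D μ z)) := by
        rw [Finset.mul_sum]
        refine Finset.sum_congr rfl fun l _ => ?_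
        ring
      rw [h6, ← h3]
      linear_combination (-((μ a)⁻¹ * ((F θ y 0)⁻¹ * (F θ y 0)⁻¹) *
        (pd a (F θ (X j)) (Quad_D μ z) * F θ (X i) (Quad_D μ z) -
          F θ (X j) (Quad_D μ z) * pd a (F θ (X i)) (Quad_D μ z)))) *
        ((χ ((N : ℤ) • X i) * χ ((N : ℤ) • X i)) * hεj + hεi)
  · intro a b i
    refine Quad_core hD hL hP hT hn hG hLin hX hX' (hX i) _ (fun δ => ?_)
      (fun l => (μ a)⁻¹ * (μ b)⁻¹ * κ₂ a b l) fun z => ?_
    · have hdi := hn.del δ (X i) ⟨N, hG.odd, hX i⟩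
      exact Quad_del_sub (hD ι δ)
        (Quad_del_mul (hD ι δ) hdi (Quad_del_pd (hD ι δ) a (Quad_del_pd (hD ι δ) b hdi)))
        (Quad_del_mul (hD ι δ) (Quad_del_pd (hD ι δ) a hdi) (Quad_del_pd (hD ι δ) b hdi))
    · have h3 := h2 a b (X i) (Quad_D μ z)
      rw [Quad_pd2_Tn hT, Quad_pd_Tn hT, Quad_pd_Tn hT]
      simp only [Quad_Tn]
      have h6 : ∑ l, (μ a)⁻¹ * (μ b)⁻¹ * κ₂ a b l *
          ((F θ y 0)⁻¹ * F θ (X i + c l) (Quad_D μ z) *
            ((F θ y 0)⁻¹ * F θ (X i - c l) (Quad_D μ z))) =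
          (μ a)⁻¹ * (μ b)⁻¹ * ((F θ y 0)⁻¹ * (F θ y 0)⁻¹) *
            ∑ l, κ₂ a b l * (F θ (X i + c l) (Quad_D μ z) * F θ (X i - c l) (Quad_D μ z)) := by
        rw [Finset.mul_sum]
        refine Finset.sum_congr rfl fun l _ => ?_
        ring
      rw [h6, ← h3]
      ring

end GAM
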