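import Pool.Agent.GAM.QuarA

/-!
# GAM [Quar]
-/

set_option autoImplicit false

open Filter Topology Asymptotics

namespace GAM

section del

variable {ι : Type} [Fintype ι] [DecidableEq ι] {δ : Derivation ℚ ℂ ℂ}

lemma Quar_dsum (hR : DelRules ι δ) {α : Type} (s : Finset α) (A A' : α → (ι → ℂ) → ℂ)
    (h : ∀ i ∈ s, IsDel δ (A i) (A' i)) :
    IsDel δ (fun v => ∑ i ∈ s, A i v) (fun v => ∑ i ∈ s, A' i v) := by
  classical
  induction s using Finset.induction_on with
  | empty =>
    simp only [Finset.sum_empty]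
    have := hR.const 0
    rwa [map_zero] at this
  | insert a s ha ih =>
    simp only [Finset.sum_insert ha]
    exact hR.add _ _ _ _ (h a (Finset.mem_insert_self _ _))
      (ih fun i hi => h i (Finset.mem_insert_of_mem hi))

lemma Quar_dsub {a a' b b' : (ι → ℂ) → ℂ} (h1 : IsDel δ a a') (h2 : IsDel δ b b') :
    IsDel δ (fun v => a v - b v) (fun v => a' v - b' v) := by
  refine ⟨h1.ent.sub h2.ent, h1.ent'.sub h2.ent', fun l => ?_⟩
  rw [Quar_pdl_sub h1.ent h2.ent, Quar_pdl_sub h1.ent' h2.ent']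
  change pdl l a' 0 - pdl l b' 0 = δ (pdl l a 0 - pdl l b 0)
  rw [h1.del, h2.del, map_sub]

lemma Quar_dmon (hR : DelRules ι δ) {k : ℕ} (r : Fin k → ι) (c : ℂ) :
    IsDel δ (fun v : ι → ℂ => (∏ i, v (r i)) * c) (fun v => (∏ i, v (r i)) * δ c) := by
  have key : ∀ s : Finset (Fin k), IsDel δ (fun v : ι → ℂ => ∏ i ∈ s, v (r i)) (fun _ => 0) := by
    intro s
    classical
    induction s using Finset.induction_on with
    | empty =>
      simp only [Finset.prod_empty]
      have := hR.const (ι := ι) 1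
      rwa [Derivation.map_one_eq_zero] at this
    | insert a s ha ih =>
      simp only [Finset.prod_insert ha]
      have := hR.mul _ _ _ _ (hR.coord (r a)) ih
      simpa using this
  have := hR.mul _ _ _ _ (key Finset.univ) (hR.const c)
  simpa using this

lemma Quar_poly (hR : DelRules ι δ) {h : (ι → ℂ) → ℂ} (hh : Differentiable ℂ h) (N : ℕ) :
    ∃ A P : (ι → ℂ) → ℂ, IsDel δ A P ∧ (fun v => h v - A v) =O[𝓝 0] (fun v => ‖v‖ ^ N) := by
  obtain ⟨p, hp⟩ := Quar_an hh 0
  have h1 := hp.isBigO_sub_partialSum_pow N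
  have h2 : ∀ y : ι → ℂ, p.partialSum N y = ∑ k ∈ Finset.range N, ∑ r : Fin k → ι,
      (∏ i, y (r i)) * p k (fun i => Pi.single (r i) 1) := by
    intro y
    unfold FormalMultilinearSeries.partialSum
    refine Finset.sum_congr rfl fun k _ => ?_
    conv_lhs => rw [pi_eq_sum_univ' y]
    rw [ContinuousMultilinearMap.map_sum]
    refine Finset.sum_congr rfl fun r _ => ?_
    rw [ContinuousMultilinearMap.map_smul_univ, smul_eq_mul]
  refine ⟨fun v => p.partialSum N v, fun v => ∑ k ∈ Finset.range N, ∑ r : Fin k → ι,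
      (∏ i, v (r i)) * δ (p k (fun i => Pi.single (r i) 1)), ?_, ?_⟩
  · simp only [h2]
    exact Quar_dsum hR _ (fun k v => ∑ r : Fin k → ι,
      (∏ i, v (r i)) * p k (fun i => Pi.single (r i) 1)) (fun k v => ∑ r : Fin k → ι,
      (∏ i, v (r i)) * δ (p k (fun i => Pi.single (r i) 1))) fun k _ =>
      Quar_dsum hR _ (fun (r : Fin k → ι) v => (∏ i, v (r i)) * p k (fun i => Pi.single (r i) 1))
        (fun (r : Fin k → ι) v => (∏ i, v (r i)) * δ (p k (fun i => Pi.single (r i) 1)))
        fun r _ => Quar_dmon hR r _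
  · simpa only [zero_add] using h1

lemma Quar_delO {Q Q' : (ι → ℂ) → ℂ} (h : IsDel δ Q Q') {N : ℕ}
    (hO : Q =O[𝓝 0] (fun v => ‖v‖ ^ N)) : Q' =O[𝓝 0] (fun v => ‖v‖ ^ N) :=
  Quar_tay N h.ent' fun l hl => by rw [h.del, Quar_van N h.ent hO l hl, map_zero]

lemma Quar_subst {κ : Type} [Fintype κ] [DecidableEq κ] (hR : DelRules ι δ)
    (G : MvPolynomial κ ℂ) :
    ∃ Gd : MvPolynomial κ ℂ, ∀ A P : κ → (ι → ℂ) → ℂ, (∀ s, IsDel δ (A s) (P s)) →
      IsDel δ (fun v => MvPolynomial.eval (fun s => A s v) G)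
        (fun v => MvPolynomial.eval (fun s => A s v) Gd +
          ∑ s, MvPolynomial.eval (fun s => A s v) (MvPolynomial.pderiv s G) * P s v) := by
  induction G using MvPolynomial.induction_on with
  | C c =>
    refine ⟨MvPolynomial.C (δ c), fun A P _ => ?_⟩
    simp only [MvPolynomial.eval_C, MvPolynomial.pderiv_C, map_zero, zero_mul,
      Finset.sum_const_zero, add_zero]
    exact hR.const c
  | add p q ihp ihq =>
    obtain ⟨Gp, hp⟩ := ihp
    obtain ⟨Gq, hq⟩ := ihq
    refine ⟨Gp + Gq, fun A P h => ?_⟩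
    have h1 := hR.add _ _ _ _ (hp A P h) (hq A P h)
    simp only [map_add, add_mul, Finset.sum_add_distrib]
    refine (congrArg (IsDel δ _) (funext fun v => ?_)).mp h1
    ring
  | mul_X p i ih =>
    obtain ⟨Gp, hp⟩ := ih
    refine ⟨Gp * MvPolynomial.X i, fun A P h => ?_⟩
    have h1 := hR.mul _ _ _ _ (hp A P h) (h i)
    simp only [map_mul, MvPolynomial.eval_X]
    refine (congrArg (IsDel δ _) (funext fun v => ?_)).mp h1
    have e1 : ∀ s, MvPolynomial.eval (fun s => A s v)
        (MvPolynomial.pderiv s (p * MvPolynomial.X i)) * P s v =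
        MvPolynomial.eval (fun s => A s v) (MvPolynomial.pderiv s p) * P s v * A i v +
        (if s = i then MvPolynomial.eval (fun s => A s v) p * P i v else 0) := by
      intro s
      rw [Derivation.leibniz, MvPolynomial.pderiv_X]
      by_cases hs : s = i
      · subst hs
        simp
        ring
      · simp [hs, Ne.symm hs]
        ring
    simp only [e1, Finset.sum_add_distrib, Finset.sum_ite_eq', Finset.mem_univ, if_true,
      ← Finset.sum_mul]
    ring

end del

section final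

variable {ι : Type} [Fintype ι]

lemma Quar_mulO {a b : (ι → ℂ) → ℂ} (hb : Continuous b) {N : ℕ}
    (hO : a =O[𝓝 0] (fun v => ‖v‖ ^ N)) : (fun v => a v * b v) =O[𝓝 0] (fun v => ‖v‖ ^ N) := by
  have h1 : b =O[𝓝 0] (fun _ => (1 : ℝ)) := (hb.tendsto 0).isBigO_one ℝ
  simpa using hO.mul h1

lemma Quar_evalO {κ : Type} {f A : κ → (ι → ℂ) → ℂ} (hf : ∀ s, Continuous (f s))
    (hA : ∀ s, Continuous (A s)) {N : ℕ}
    (hO : ∀ s, (fun v => f s v - A s v) =O[𝓝 0] (fun v => ‖v‖ ^ N)) (p : MvPolynomial κ ℂ) :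
    (fun v => MvPolynomial.eval (fun s => f s v) p - MvPolynomial.eval (fun s => A s v) p)
      =O[𝓝 0] (fun v => ‖v‖ ^ N) := by
  induction p using MvPolynomial.induction_on with
  | C c =>
    simp only [MvPolynomial.eval_C, sub_self]
    exact isBigO_zero _ _
  | add p q ihp ihq =>
    refine (ihp.add ihq).congr_left fun v => ?_
    simp only [map_add]
    ring
  | mul_X p i ih =>
    have hc : Continuous (fun v => MvPolynomial.eval (fun s => A s v) p) := by
      have := MvPolynomial.continuous_eval p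
      exact this.comp (continuous_pi hA)
    refine ((Quar_mulO (hf i) ih).add (Quar_mulO hc (hO i))).congr_left fun v => ?_
    simp only [map_mul, MvPolynomial.eval_X]
    ring

/-- The matrix units. -/
noncomputable def Quar_E {R : Type} [Fintype R] [DecidableEq R] (r s : R) :
    (R → ℂ) →L[ℂ] (R → ℂ) :=
  (ContinuousLinearMap.single ℂ (fun _ : R => ℂ) r).comp (ContinuousLinearMap.proj s)

lemma Quar_E_apply {R : Type} [Fintype R] [DecidableEq R] (r s : R) (w : R → ℂ) (t : R) :
    Quar_E r s w t = if t = r then w s else 0 := by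
  unfold Quar_E
  rw [ContinuousLinearMap.comp_apply, ContinuousLinearMap.proj_apply,
    ContinuousLinearMap.single_apply, Pi.single_apply]

/-- The matrix of the partial derivatives. -/
noncomputable def Quar_M {R : Type} [Fintype R] [DecidableEq R] (f : R → (ι → ℂ) → ℂ)
    (G : R → MvPolynomial R ℂ) (v : ι → ℂ) : (R → ℂ) →L[ℂ] (R → ℂ) :=
  ∑ r, ∑ s, MvPolynomial.eval (fun s => f s v) (MvPolynomial.pderiv s (G r)) • Quar_E r s

lemma Quar_M_apply {R : Type} [Fintype R] [DecidableEq R] (f : R → (ι → ℂ) → ℂ)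
    (G : R → MvPolynomial R ℂ) (v : ι → ℂ) (w : R → ℂ) (t : R) :
    Quar_M f G v w t =
      ∑ s, MvPolynomial.eval (fun s => f s v) (MvPolynomial.pderiv s (G t)) * w s := by
  unfold Quar_M
  simp only [_root_.sum_apply, Finset.sum_apply, _root_.smul_apply,
    Pi.smul_apply, Quar_E_apply, smul_eq_mul, mul_ite, mul_zero]
  rw [Finset.sum_comm]
  refine Finset.sum_congr rfl fun s _ => ?_
  rw [Finset.sum_ite_eq]
  simp

lemma Quar_eval_diff {κ : Type} {f : κ → (ι → ℂ) → ℂ} (hf : ∀ s, Differentiable ℂ (f s))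
    (p : MvPolynomial κ ℂ) : Differentiable ℂ (fun v => MvPolynomial.eval (fun s => f s v) p) := by
  induction p using MvPolynomial.induction_on with
  | C c =>
    simp only [MvPolynomial.eval_C]
    exact differentiable_const _
  | add p q ihp ihq =>
    simp only [map_add]
    exact ihp.add ihq
  | mul_X p i ih =>
    simp only [map_mul, MvPolynomial.eval_X]
    exact ih.mul (hf i)

lemma Quar_M_diff {R : Type} [Fintype R] [DecidableEq R] {f : R → (ι → ℂ) → ℂ}
    (hf : ∀ s, Differentiable ℂ (f s)) (G : R → MvPolynomial R ℂ) :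
    Differentiable ℂ (Quar_M f G) := by
  unfold Quar_M
  refine Differentiable.fun_sum fun r _ => Differentiable.fun_sum fun s _ => ?_
  exact (Quar_eval_diff hf _).smul_const _

theorem thm_Quar (h1 : St_DelR) : St_Quar := by
  intro ι R _ _ _ δ f G hf hfe r₀
  classical
  have hR := h1 ι δ
  choose Gd hGd using fun r => Quar_subst hR (G r)
  choose A P hAP hfA using fun (N : ℕ) (s : R) => Quar_poly hR (hf s) N
  have hAd : ∀ N s, Differentiable ℂ (A N s) := fun N s => (hAP N s).ent
  have hPd : ∀ N s, Differentiable ℂ (P N s) := fun N s => (hAP N s).ent'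
  have hM : Differentiable ℂ (Quar_M f G) := Quar_M_diff hf G
  set g : (ι → ℂ) → R → ℂ := fun v r => MvPolynomial.eval (fun s => f s v) (Gd r) with hg
  have hgd : Differentiable ℂ g := differentiable_pi.2 fun r => Quar_eval_diff hf _
  have hlin : ∀ a a' : (ι → ℂ) → ℂ, IsDel δ a a' →
      IsDel δ (fun v => a ((2 : ℂ) • v)) (fun v => a' ((2 : ℂ) • v)) := by
    intro a a' h
    have h2 := hR.lin ι (Matrix.diagonal fun _ : ι => (2 : ℂ)) a a' (fun i k => by
      rw [Matrix.diagonal_apply]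
      split_ifs
      · have h3 := isAlgebraic_algebraMap (R := ℚ) (A := ℂ) (2 : ℚ)
        rwa [map_ofNat] at h3
      · exact isAlgebraic_zero) h
    have e : ∀ v : ι → ℂ, (Matrix.diagonal fun _ : ι => (2 : ℂ)).mulVec v = (2 : ℂ) • v := by
      intro v
      funext i
      rw [Matrix.mulVec_diagonal]
      rfl
    simpa only [e] using h2
  -- the approximate functional equation
  have hO : ∀ N, (fun v => (fun s => P N s ((2 : ℂ) • v)) - g v -
      Quar_M f G v (fun s => P N s v)) =O[𝓝 0] (fun v => ‖v‖ ^ N) := by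
    intro N
    rw [isBigO_pi]
    intro r
    have q1 := Quar_dsub (hlin _ _ (hAP N r)) (hGd r (A N) (P N) (hAP N))
    have q2 : (fun v => A N r ((2 : ℂ) • v) - MvPolynomial.eval (fun s => A N s v) (G r))
        =O[𝓝 0] (fun v => ‖v‖ ^ N) := by
      have q3 : (fun v => f r ((2 : ℂ) • v) - A N r ((2 : ℂ) • v)) =O[𝓝 0]
          (fun v => ‖v‖ ^ N) := by
        have ht : Tendsto (fun v : ι → ℂ => (2 : ℂ) • v) (𝓝 0) (𝓝 0) := by
          have : Continuous (fun v : ι → ℂ => (2 : ℂ) • v) := by fun_prop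
          simpa using this.tendsto 0
        have q4 := (hfA N r).comp_tendsto ht
        refine q4.trans ?_
        refine IsBigO.of_bound (2 ^ N) (Eventually.of_forall fun v => ?_)
        simp only [Function.comp_apply, norm_smul, Complex.norm_ofNat, mul_pow, norm_mul, norm_pow,
          Real.norm_ofNat, norm_norm]
        exact le_rfl
      refine ((Quar_evalO (fun s => (hf s).continuous) (fun s => (hAd N s).continuous)
        (hfA N) (G r)).sub q3).congr_left fun v => ?_
      rw [hfe]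
      ring
    have q5 := Quar_delO q1 q2
    have q6 := Quar_evalO (fun s => (hf s).continuous) (fun s => (hAd N s).continuous)
      (hfA N) (Gd r)
    have q7 : (fun v => ∑ s, (MvPolynomial.eval (fun s => f s v) (MvPolynomial.pderiv s (G r)) -
        MvPolynomial.eval (fun s => A N s v) (MvPolynomial.pderiv s (G r))) * P N s v)
        =O[𝓝 0] (fun v => ‖v‖ ^ N) :=
      IsBigO.fun_sum fun s _ => Quar_mulO (hPd N s).continuous
        (Quar_evalO (fun s => (hf s).continuous) (fun s => (hAd N s).continuous) (hfA N) _)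
    refine ((q5.sub q6).sub q7).congr_left fun v => ?_
    rw [Pi.sub_apply, Pi.sub_apply, Quar_M_apply]
    simp only [sub_mul, Finset.sum_sub_distrib, hg]
    ring
  have hex : ∀ N : ℕ, 2 * ‖Quar_M f G 0‖ < 2 ^ N → ∃ b : (ι → ℂ) → R → ℂ, Differentiable ℂ b ∧
      (∀ v, b ((2 : ℂ) • v) = g v + Quar_M f G v (b v)) ∧
      (fun v => b v - fun s => P N s v) =O[𝓝 0] (fun v => ‖v‖ ^ N) := fun N hN =>
    Quar_exist hM hN hgd (P := fun v s => P N s v) (differentiable_pi.2 fun s => hPd N s) (hO N)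
  obtain ⟨N₀, hN₀⟩ := pow_unbounded_of_one_lt (2 * ‖Quar_M f G 0‖) (one_lt_two)
  obtain ⟨b₀, hb₀, hb₀e, hb₀O⟩ := hex N₀ hN₀
  refine ⟨fun v => b₀ v r₀, hf r₀, differentiable_pi.1 hb₀ r₀, fun l => ?_⟩
  set N := max N₀ (l.length + 1) with hN
  have hN₀N : N₀ ≤ N := le_max_left _ _
  have hlN : l.length < N := (Nat.lt_succ_self _).trans_le (le_max_right _ _)
  obtain ⟨b, hb, hbe, hbO⟩ := hex N (hN₀.trans_le (pow_le_pow_right₀ one_le_two hN₀N))
  have hPP : (fun v => (fun s => P N s v) - fun s => P N₀ s v) =O[𝓝 0] (fun v => ‖v‖ ^ N₀) := by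
    rw [isBigO_pi]
    intro s
    refine Quar_delO (Quar_dsub (hAP N s) (hAP N₀ s)) ?_
    refine ((hfA N₀ s).sub ((hfA N s).trans (Quar_pow_mono hN₀N))).congr_left fun v => ?_
    ring
  have hbb : b = b₀ := by
    funext v
    have := Quar_uniq hM.continuous hN₀ (h := fun v => b v - b₀ v) (fun v => by
      change b ((2 : ℂ) • v) - b₀ ((2 : ℂ) • v) = _
      rw [hbe, hb₀e, map_sub]
      abel) (((hbO.trans (Quar_pow_mono hN₀N)).add (hPP.sub hb₀O)).congr_left fun v => by abel) v
    exact sub_eq_zero.1 this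
  have hbr : Differentiable ℂ (fun v => b v r₀) := differentiable_pi.1 hb r₀
  have e1 : pdl l (fun v => b v r₀ - P N r₀ v) 0 = 0 :=
    Quar_van N (hbr.sub (hPd N r₀)) ((isBigO_pi.1 hbO) r₀) l hlN
  rw [Quar_pdl_sub hbr (hPd N r₀)] at e1
  have e2 : pdl l (fun v => f r₀ v - A N r₀ v) 0 = 0 :=
    Quar_van N ((hf r₀).sub (hAd N r₀)) (hfA N r₀) l hlN
  rw [Quar_pdl_sub (hf r₀) (hAd N r₀)] at e2
  rw [← hbb, sub_eq_zero.1 e2, ← (hAP N r₀).del]
  exact sub_eq_zero.1 e1

end final

end GAM
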