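import Pool.Agent.GAM.StD2
import Pool.Agent.GAM.Bas
import Pool.Agent.GAM.Hol

/-!
# GAM, module Rel: the algebraic relation between the four functions
-/

set_option autoImplicit false

namespace GAM

open scoped ComplexConjugate

/-- scaling of homogeneous polynomials -/
lemma Rel_scale {σ : Type} {m : ℕ} {P : MvPolynomial σ ℂ} (hP : P.IsHomogeneous m) (c : ℂ)
    (x : σ → ℂ) : MvPolynomial.eval (fun i => c * x i) P = c ^ m * MvPolynomial.eval x P := by
  rw [MvPolynomial.eval_eq, MvPolynomial.eval_eq, Finset.mul_sum]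
  refine Finset.sum_congr rfl fun d hd => ?_
  have h1 : ∑ i ∈ d.support, d i = m := by
    have h := hP (MvPolynomial.mem_support_iff.mp hd)
    have h' : Finsupp.degree d = m := (DFunLike.congr_fun
      (Finsupp.degree_eq_weight_one (σ := σ) (R := ℕ)) d).trans h
    exact h'
  have h2 : ∏ i ∈ d.support, (c * x i) ^ d i = c ^ m * ∏ i ∈ d.support, x i ^ d i := by
    simp_rw [mul_pow]
    rw [Finset.prod_mul_distrib, Finset.prod_pow_eq_pow_sum, h1]
  rw [h2]
  ring

lemma Rel_F4 {S : Type} [Fintype S] [DecidableEq S] (v w u : S)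
    (θ : (S × Fin 2 → ℂ) → ℂ) (x x' : S × Fin 2 → ℂ) (y : Fin 3 → S × Fin 2 → ℂ)
    (i : Fin 3) (z : Fin 2 → ℂ) :
    F4 v w u θ x x' y i.castSucc z = psi v w θ z (y 0) * psi v w θ z (y i) := by
  unfold F4
  fin_cases i <;> simp

theorem thm_Rel (h1 : St_SieR) (h2 : St_HomI) (h3 : St_MinP) (h4 : St_Ell) (h5 : St_GroF) :
    St_Rel := by
  classical
  intro S _ _ u v w L χ θ x x' y huv huw hvw hP hT hne hC hx hx' hy hy0 hdet
  obtain ⟨g1, g2, -⟩ := h5 (S × Fin 2)
  have hG : ∀ x, Gro (F θ x) := g1 L χ θ hP hT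
  have hE : ∀ i, _ := fun i => h4 S v w (F θ (y i)) hvw (hG (y i))
  have hz : ∀ G, Gro G → ell v w 0 G = G 0 := fun G hG => (h4 S v w G hvw hG).2.1
  have han : ∀ i, AnalyticAt ℂ (fun z => psi v w θ z (y i)) 0 := fun i =>
    analyticOnNhd_of_differentiableOn isOpen_D2 (hE i).1 0 zero_mem_D2
  have hM := h1 S u v w L χ θ x x' y huv huw hvw hP hT hne hC hx hx' hy
  refine h3 (Fin 2 → ℂ) (F4 v w u θ x x' y) D2 ?_ hM
  intro m P hPm hPz
  refine h2 (fun i z => psi v w θ z (y i)) han ?_ m P hPm ?_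
  · -- the determinant
    have e0 : ∀ i, psi v w θ 0 (y i) = F θ (y i) 0 := fun i => hz _ (hG (y i))
    have e1 : ∀ i, pd 0 (fun z => psi v w θ z (y i)) 0 =
        1 / Real.pi * pd (v, 0) (pd (v, 1) (F θ (y i))) 0 := by
      intro i
      rw [← hz _ (g2 _ (g2 _ (hG (y i)) (v, 1)) (v, 0))]
      exact (hE i).2.2.1 0 zero_mem_D2
    have e2 : ∀ i, pd 1 (fun z => psi v w θ z (y i)) 0 =
        1 / Real.pi * pd (w, 0) (pd (w, 1) (F θ (y i))) 0 := by
      intro i
      rw [← hz _ (g2 _ (g2 _ (hG (y i)) (w, 1)) (w, 0))]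
      exact (hE i).2.2.2 0 zero_mem_D2
    rw [Matrix.det_fin_three] at hdet ⊢
    simp only [Matrix.of_apply, if_true, one_ne_zero, if_false, Fin.reduceEq, e0, e1, e2]
      at hdet ⊢
    intro h
    apply hdet
    have hpi : (Real.pi : ℂ) ≠ 0 := by exact_mod_cast Real.pi_ne_zero
    have h' := congrArg (fun t => (Real.pi : ℂ) ^ 2 * t) h
    simp only [mul_zero] at h'
    field_simp at h'
    linear_combination h'
  · -- the relation near zero
    have hnz : ∀ᶠ z in nhds (0 : Fin 2 → ℂ), psi v w θ z (y 0) ≠ 0 :=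
      (han 0).continuousAt.eventually_ne hy0
    filter_upwards [hnz, isOpen_D2.mem_nhds zero_mem_D2] with z hz1 hz2
    have h := hPz z hz2
    have h' : (fun i : Fin 3 => F4 v w u θ x x' y i.castSucc z) =
        fun i => psi v w θ z (y 0) * psi v w θ z (y i) := funext fun i => Rel_F4 v w u θ x x' y i z
    rw [h', Rel_scale hPm] at h
    exact (mul_eq_zero.mp h).resolve_left (pow_ne_zero _ hz1)

end GAM
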