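import Pool.Agent.GAM.StG

/-!
# GAM [Rep]: finitely many representatives of `(1/N) L / L`
-/

set_option autoImplicit false

namespace GAM

open scoped ComplexConjugate

lemma Rep_zsmul {ι : Type} (n : ℤ) (v : ι → ℂ) : n • v = (n : ℝ) • v := by
  ext i
  simp

theorem thm_Rep : St_Rep := by
  classical
  intro ι _ L N hL hN
  obtain ⟨b, hb⟩ := hL
  have hN0 : (N : ℝ) ≠ 0 := by exact_mod_cast hN
  have hNpos : (0 : ℤ) < N := by exact_mod_cast Nat.pos_of_ne_zero hN
  have hne : Nonempty ((ι ⊕ ι) → Fin N) := ⟨fun _ => ⟨0, Nat.pos_of_ne_zero hN⟩⟩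
  obtain ⟨M, hM⟩ : ∃ M, Fintype.card ((ι ⊕ ι) → Fin N) = M + 1 :=
    Nat.exists_eq_succ_of_ne_zero Fintype.card_ne_zero
  let e : Fin (M + 1) ≃ ((ι ⊕ ι) → Fin N) := (Fintype.equivFinOfCardEq hM).symm
  let Y : ((ι ⊕ ι) → Fin N) → ι → ℂ := fun m => ∑ i, (((m i : ℕ) : ℝ) / N) • b i
  refine ⟨M, fun j => Y (e j), fun j => ?_, fun x hx => ?_⟩
  · have h1 : (N : ℤ) • Y (e j) = ∑ i, (((e j i : ℕ) : ℤ)) • b i := by
      rw [Rep_zsmul, Finset.smul_sum]
      refine Finset.sum_congr rfl fun i _ => ?_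
      rw [Rep_zsmul, smul_smul]
      congr 1
      push_cast
      field_simp
    rw [h1, hb]
    exact Submodule.sum_mem _ fun i _ =>
      Submodule.smul_mem _ _ (Submodule.subset_span ⟨i, rfl⟩)
  · rw [hb] at hx
    obtain ⟨c, hc⟩ := (Submodule.mem_span_range_iff_exists_fun ℤ).mp hx
    have hlt : ∀ i, (c i % N).toNat < N := fun i => by
      have h1 := Int.emod_lt_of_pos (c i) hNpos
      have h2 := Int.emod_nonneg (c i) hNpos.ne'
      omega
    refine ⟨e.symm (fun i => ⟨(c i % N).toNat, hlt i⟩), ?_⟩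
    show x - Y (e (e.symm _)) ∈ L
    rw [Equiv.apply_symm_apply]
    have hx2 : x = ∑ i, ((c i : ℝ) / N) • b i := by
      have h2 : (N : ℝ) • x = ∑ i, (c i : ℝ) • b i := by
        have h3 : (N : ℤ) • x = (N : ℝ) • x := by
          rw [Rep_zsmul]
          congr 1
        rw [← h3, ← hc]
        exact Finset.sum_congr rfl fun i _ => Rep_zsmul _ _
      have h3 : x = (N : ℝ)⁻¹ • ((N : ℝ) • x) := by
        rw [smul_smul, inv_mul_cancel₀ hN0, one_smul]
      rw [h3, h2, Finset.smul_sum]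
      refine Finset.sum_congr rfl fun i _ => ?_
      rw [smul_smul]
      congr 1
      field_simp
    have h4 : x - Y (fun i => ⟨(c i % N).toNat, hlt i⟩) = ∑ i, (c i / (N : ℤ)) • b i := by
      rw [hx2, ← Finset.sum_sub_distrib]
      refine Finset.sum_congr rfl fun i _ => ?_
      rw [Rep_zsmul, ← sub_smul]
      congr 1
      have h5 : (((c i % N).toNat : ℕ) : ℝ) = ((c i % N : ℤ) : ℝ) := by
        have h6 : (((c i % N).toNat : ℕ) : ℤ) = c i % N :=
          Int.toNat_of_nonneg (Int.emod_nonneg (c i) hNpos.ne')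
        exact_mod_cast congrArg (fun t : ℤ => (t : ℝ)) h6
      have h7 : (c i : ℝ) = (N : ℝ) * ((c i / (N : ℤ) : ℤ) : ℝ) + ((c i % N : ℤ) : ℝ) := by
        have h8 := Int.mul_ediv_add_emod (c i) N
        exact_mod_cast congrArg (fun t : ℤ => (t : ℝ)) h8.symm
      show (c i : ℝ) / N - (((c i % N).toNat : ℕ) : ℝ) / N = _
      rw [h5, h7]
      have h9 : ((N : ℝ) * ((c i / (N : ℤ) : ℤ) : ℝ) + ((c i % N : ℤ) : ℝ)) / N -
          ((c i % N : ℤ) : ℝ) / N = ((c i / (N : ℤ) : ℤ) : ℝ) := by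
        field_simp
        ring
      exact h9
    rw [h4, hb]
    exact Submodule.sum_mem _ fun i _ =>
      Submodule.smul_mem _ _ (Submodule.subset_span ⟨i, rfl⟩)

end GAM
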