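import Pool.Agent.GAM.StD2

/-!
# GAM [RowS]: choice of rows of an invertible matrix
-/

set_option autoImplicit false

namespace GAM

open scoped ComplexConjugate

theorem thm_RowS : St_RowS := by
  intro ι S _ _ _ _ M j hM hj
  let N : Matrix ι S ℂ := Matrix.of fun a b => M a (j b)
  have h1 : LinearIndependent ℂ M.col := by
    rw [Matrix.linearIndependent_cols_iff_isUnit, Matrix.isUnit_iff_isUnit_det]
    exact isUnit_iff_ne_zero.2 hM
  have h2 : LinearIndependent ℂ N.transpose.row := h1.comp j hj
  have h3 : N.rank = Fintype.card S := by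
    rw [← Matrix.rank_transpose]
    exact h2.rank_matrix
  have h4 : Module.finrank ℂ (Submodule.span ℂ (Set.range N.row)) = Fintype.card S := by
    rw [← Matrix.rank_eq_finrank_span_row, h3]
  obtain ⟨f, hf, -, hfl⟩ := Submodule.exists_fun_fin_finrank_span_eq ℂ (Set.range N.row)
  let e : S ≃ Fin (Module.finrank ℂ (Submodule.span ℂ (Set.range N.row))) :=
    Fintype.equivOfCardEq (by rw [Fintype.card_fin, h4])
  choose g hg using hf
  refine ⟨fun a => g (e a), ?_⟩
  have h5 : LinearIndependent ℂ (Matrix.of fun a b : S => M (g (e a)) (j b)).row := by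
    have h6 : (Matrix.of fun a b : S => M (g (e a)) (j b)).row = f ∘ e := by
      funext a
      exact hg (e a)
    rw [h6]
    exact hfl.comp e e.injective
  rw [Matrix.linearIndependent_rows_iff_isUnit, Matrix.isUnit_iff_isUnit_det] at h5
  exact h5.ne_zero

end GAM
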