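import Pool.Agent.GAM.StG
import Pool.Agent.GAM.Mer

/-!
# GAM [SepA]: `θ(u + z) = q(u) θ(u + w)` with `q` entire without zeros
-/

set_option autoImplicit false

open Topology

namespace GAM

open scoped ComplexConjugate

lemma SepA_F {ι : Type} [Fintype ι] (θ : (ι → ℂ) → ℂ) (ρ τ z : ι → ℂ) :
    F θ ρ z * F θ τ z = θ (ρ + z) * θ (τ + z) * Complex.exp (-(Real.pi * H z (ρ + τ))) *
      Complex.exp (-(Real.pi / 2 * H ρ ρ) - Real.pi / 2 * H τ τ) := by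
  unfold F
  have h1 : Complex.exp (-(Real.pi * H z ρ) - Real.pi / 2 * H ρ ρ) *
      Complex.exp (-(Real.pi * H z τ) - Real.pi / 2 * H τ τ) =
      Complex.exp (-(Real.pi * H z (ρ + τ))) *
      Complex.exp (-(Real.pi / 2 * H ρ ρ) - Real.pi / 2 * H τ τ) := by
    rw [← Complex.exp_add, ← Complex.exp_add, H_add_right]
    congr 1
    ring
  linear_combination (θ (ρ + z) * θ (τ + z)) * h1

/-- values at doubled points of level `N` -/
lemma SepA_pt {ι : Type} [Fintype ι] {L : Submodule ℤ (ι → ℂ)} {χ θ : (ι → ℂ) → ℂ} {N : ℕ}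
    (hP : PLat L χ) (hT : IsTh L χ θ) (hN : GoodN L θ N) (w : ι → ℂ) :
    ∃ σ, (N : ℤ) • σ ∈ L ∧ θ (σ + σ + w) ≠ 0 := by
  obtain ⟨x, hx, hne⟩ := hN.pt w
  obtain ⟨k, hk⟩ := hN.odd
  refine ⟨((k + 1 : ℕ) : ℤ) • x, ?_, ?_⟩
  · rw [smul_comm]
    exact L.smul_mem _ hx
  · have h1 : ((k + 1 : ℕ) : ℤ) • x + ((k + 1 : ℕ) : ℤ) • x + w = (x + w) + (N : ℤ) • x := by
      rw [hk, ← add_smul]
      have h2 : (((k + 1 : ℕ) : ℤ) + ((k + 1 : ℕ) : ℤ)) = 1 + ((2 * k + 1 : ℕ) : ℤ) := by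
        push_cast; ring
      rw [h2, add_smul, one_smul]
      abel
    rw [h1, hT.quasi _ hx]
    exact mul_ne_zero (mul_ne_zero (hP.chi_ne hx) (Complex.exp_ne_zero _)) hne

lemma SepA_prod {ι : Type} [Fintype ι] {L : Submodule ℤ (ι → ℂ)} {θ : (ι → ℂ) → ℂ} {N r : ℕ}
    {c : Fin (r + 1) → ι → ℂ} {κ : Fin (r + 1) → (ι → ℂ) → ℂ} {z w : ι → ℂ} {γ : ℂ}
    (hL : LinN L θ N r c κ) (hF : ∀ x, (N : ℤ) • x ∈ L → F θ x z = γ * F θ x w)
    {σ : ι → ℂ} (hσ : (N : ℤ) • σ ∈ L) (ρ : ι → ℂ) :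
    θ (ρ + z) * θ (σ + σ - ρ + z) = γ ^ 2 * Complex.exp (Real.pi * H (z - w) (σ + σ)) *
      (θ (ρ + w) * θ (σ + σ - ρ + w)) := by
  have h1 : ∀ v, F θ ρ v * F θ (σ + σ - ρ) v =
      ∑ i, κ i (ρ - σ) * (F θ (σ + c i) v * F θ (σ - c i) v) := by
    intro v
    have h2 := hL.lin σ (ρ - σ) v
    have h3 : σ + (ρ - σ) = ρ := by abel
    have h4 : σ - (ρ - σ) = σ + σ - ρ := by abel
    rwa [h3, h4] at h2
  have h5 : F θ ρ z * F θ (σ + σ - ρ) z = γ ^ 2 * (F θ ρ w * F θ (σ + σ - ρ) w) := by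
    rw [h1 z, h1 w, Finset.mul_sum]
    refine Finset.sum_congr rfl fun i _ => ?_
    have h6 : (N : ℤ) • (σ + c i) ∈ L := by
      rw [smul_add]; exact L.add_mem hσ (hL.lev i)
    have h7 : (N : ℤ) • (σ - c i) ∈ L := by
      rw [smul_sub]; exact L.sub_mem hσ (hL.lev i)
    rw [hF _ h6, hF _ h7]
    ring
  rw [SepA_F, SepA_F] at h5
  have h8 : ρ + (σ + σ - ρ) = σ + σ := by abel
  rw [h8] at h5
  have h9 := Complex.exp_ne_zero (-(Real.pi / 2 * H ρ ρ) -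
    Real.pi / 2 * H (σ + σ - ρ) (σ + σ - ρ))
  have h10 : θ (ρ + z) * θ (σ + σ - ρ + z) * Complex.exp (-(Real.pi * H z (σ + σ))) =
      γ ^ 2 * (θ (ρ + w) * θ (σ + σ - ρ + w) * Complex.exp (-(Real.pi * H w (σ + σ)))) := by
    refine mul_right_cancel₀ h9 ?_
    rw [h5]
    ring
  have h11 : Complex.exp (-(Real.pi * H w (σ + σ))) * Complex.exp (Real.pi * H z (σ + σ)) =
      Complex.exp (Real.pi * H (z - w) (σ + σ)) := by
    rw [← Complex.exp_add, H_sub_left]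
    congr 1
    ring
  have h12 : Complex.exp (-(Real.pi * H z (σ + σ))) * Complex.exp (Real.pi * H z (σ + σ)) = 1 := by
    rw [← Complex.exp_add, neg_add_cancel, Complex.exp_zero]
  calc θ (ρ + z) * θ (σ + σ - ρ + z)
      = θ (ρ + z) * θ (σ + σ - ρ + z) * Complex.exp (-(Real.pi * H z (σ + σ))) *
        Complex.exp (Real.pi * H z (σ + σ)) := by rw [mul_assoc _ (Complex.exp _), h12, mul_one]
    _ = γ ^ 2 * (Complex.exp (-(Real.pi * H w (σ + σ))) * Complex.exp (Real.pi * H z (σ + σ))) *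
        (θ (ρ + w) * θ (σ + σ - ρ + w)) := by rw [h10]; ring
    _ = _ := by rw [h11]

lemma SepA_half (hG : St_Glue) {ι : Type} [Fintype ι] {L : Submodule ℤ (ι → ℂ)}
    {χ θ : (ι → ℂ) → ℂ} {N r : ℕ}
    {c : Fin (r + 1) → ι → ℂ} {κ : Fin (r + 1) → (ι → ℂ) → ℂ} {z w : ι → ℂ} {γ : ℂ}
    (hP : PLat L χ) (hT : IsTh L χ θ) (h0 : ∃ v, θ v ≠ 0) (hN : GoodN L θ N)
    (hL : LinN L θ N r c κ) (hF : ∀ x, (N : ℤ) • x ∈ L → F θ x z = γ * F θ x w) :
    ∃ q : (ι → ℂ) → ℂ, Differentiable ℂ q ∧ ∀ u, θ (u + z) = q u * θ (u + w) := by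
  refine hG ι (fun u => θ (u + z)) (fun u => θ (u + w))
    (hT.ent.comp (differentiable_id.add_const z)) (hT.ent.comp (differentiable_id.add_const w))
    ?_ ?_
  · obtain ⟨v, hv⟩ := h0
    exact ⟨v - w, by rw [sub_add_cancel]; exact hv⟩
  · intro ρ₀
    obtain ⟨σ, hσ, hne⟩ := SepA_pt hP hT hN (z - ρ₀)
    have hd1 : Differentiable ℂ fun ρ : ι → ℂ => θ (σ + σ - ρ + z) :=
      hT.ent.comp ((differentiable_id.const_sub (σ + σ)).add_const z)
    have hd2 : Differentiable ℂ fun ρ : ι → ℂ => θ (σ + σ - ρ + w) :=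
      hT.ent.comp ((differentiable_id.const_sub (σ + σ)).add_const w)
    refine ⟨{ρ | θ (σ + σ - ρ + z) ≠ 0}, fun ρ => γ ^ 2 *
      Complex.exp (Real.pi * H (z - w) (σ + σ)) * θ (σ + σ - ρ + w) / θ (σ + σ - ρ + z),
      isOpen_ne_fun hd1.continuous continuous_const, ?_, ?_, ?_⟩
    · show θ (σ + σ - ρ₀ + z) ≠ 0
      have h1 : σ + σ - ρ₀ + z = σ + σ + (z - ρ₀) := by abel
      rw [h1]
      exact hne
    · intro ρ hρ
      exact (diff_div ((hd2.const_mul _) ρ) (hd1 ρ) hρ).differentiableWithinAt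
    · intro ρ hρ
      have h1 := SepA_prod hL hF hσ ρ
      have h2 : θ (σ + σ - ρ + z) ≠ 0 := hρ
      field_simp
      rw [h1]
      ring

theorem thm_SepA (hG : St_Glue) : St_SepA := by
  intro ι _ L χ θ N r c κ z w γ hP hT h0 hN hL hγ hF
  obtain ⟨q, hq, hqz⟩ := SepA_half hG hP hT h0 hN hL hF
  obtain ⟨p, hp, hpz⟩ := SepA_half hG (z := w) (w := z) (γ := γ⁻¹) hP hT h0 hN hL
    (fun x hx => by rw [hF x hx, inv_mul_cancel_left₀ hγ])
  refine ⟨q, hq, ?_, hqz⟩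
  have h1 : (fun u => p u * q u) = fun _ => (1 : ℂ) := by
    refine eq_of_gen (hp.continuous.mul hq.continuous) continuous_const ?_
    have h2 : ∀ᶠ u in gen ι, θ (u + w) ≠ 0 := by
      obtain ⟨v, hv⟩ := h0
      exact gen_ne (hT.ent.comp (differentiable_id.add_const w))
        ⟨v - w, by simpa using hv⟩
    filter_upwards [h2] with u hu
    have h3 := hpz u
    rw [hqz u] at h3
    refine mul_right_cancel₀ hu ?_
    rw [one_mul, mul_assoc]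
    exact h3.symm
  intro u hu
  have h2 := congrFun h1 u
  simp only [hu, mul_zero] at h2
  exact zero_ne_one h2

end GAM
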