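import Pool.Agent.GAM.StD2

/-!
# GAM: elements of a CM field with given signs
-/

set_option autoImplicit false

namespace GAM

open scoped ComplexConjugate

theorem Sgn_cc {K : Type} [Field K] [NumberField K] {c : K →+* K} (hc : CMF K c) (x : K) :
    c (c x) = x := by
  obtain ⟨σ⟩ : Nonempty (K →+* ℂ) := inferInstance
  apply σ.injective
  rw [← hc.cc, ← hc.cc, Complex.conj_conj]

theorem thm_Sgn (h1 : St_DenK) : St_Sgn := by
  intro K _ _ c S _ _ φ hc hφ
  have hd := h1 K c S φ hc hφ
  have hcc := Sgn_cc hc
  have hφc : ∀ s x, φ s (c x) = conj (φ s x) := fun s x => (hc.cc (φ s) x).symm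
  refine ⟨fun ε => ?_, fun ε => ?_, fun κ v w hvw hκ hsgn => ?_⟩
  · have hop : IsOpen {u : S → ℂ | ∀ s, if ε s = true then 0 < (u s).re else (u s).re < 0} := by
      simp only [Set.ofPred_forall]
      refine isOpen_iInter_of_finite fun s => ?_
      have hcont : Continuous fun u : S → ℂ => (u s).re :=
        Complex.continuous_re.comp (continuous_apply s)
      cases ε s
      · simpa using isOpen_lt hcont continuous_const
      · simpa using isOpen_lt continuous_const hcont
    obtain ⟨x, hx⟩ := hd.exists_mem_open hop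
      ⟨fun s => if ε s = true then 1 else -1, fun s => by
        cases hε : ε s <;> simp [hε]⟩
    refine ⟨x + c x, by rw [map_add, hcc, add_comm], fun s => ?_⟩
    have e1 : φ s (x + c x) = ((2 * (φ s x).re : ℝ) : ℂ) := by
      rw [map_add, hφc, Complex.add_conj]
    rw [e1]
    refine ⟨Complex.ofReal_im _, ?_⟩
    rw [Complex.ofReal_re]
    have h2 := hx s
    cases hε : ε s
    · rw [hε] at h2
      simp only [Bool.false_eq_true, if_false] at h2 ⊢
      linarith
    · rw [hε] at h2
      simp only [if_true] at h2 ⊢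
      linarith
  · have hop : IsOpen {u : S → ℂ | ∀ s, if ε s = true then 0 < (u s).im else (u s).im < 0} := by
      simp only [Set.ofPred_forall]
      refine isOpen_iInter_of_finite fun s => ?_
      have hcont : Continuous fun u : S → ℂ => (u s).im :=
        Complex.continuous_im.comp (continuous_apply s)
      cases ε s
      · simpa using isOpen_lt hcont continuous_const
      · simpa using isOpen_lt continuous_const hcont
    obtain ⟨x, hx⟩ := hd.exists_mem_open hop
      ⟨fun s => if ε s = true then Complex.I else -Complex.I, fun s => by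
        cases hε : ε s <;> simp [hε]⟩
    refine ⟨x - c x, by rw [map_sub, hcc]; ring, fun s => ?_⟩
    have e1 : φ s (x - c x) = ((2 * (φ s x).im : ℝ) : ℂ) * Complex.I := by
      rw [map_sub, hφc, Complex.sub_conj]
    rw [e1]
    refine ⟨by simp, ?_⟩
    have e2 : (((2 * (φ s x).im : ℝ) : ℂ) * Complex.I).im = 2 * (φ s x).im := by
      simp
    rw [e2]
    have h2 := hx s
    cases hε : ε s
    · rw [hε] at h2
      simp only [Bool.false_eq_true, if_false] at h2 ⊢
      linarith
    · rw [hε] at h2
      simp only [if_true] at h2 ⊢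
      linarith
  · have hreal : ∀ s, (((φ s κ).re : ℝ) : ℂ) = φ s κ := by
      intro s
      have h2 : conj (φ s κ) = φ s κ := by rw [← hφc, hκ]
      exact (Complex.conj_eq_iff_re.1 h2)
    have hv : (φ v κ).re < 0 := (hsgn v).2 (Or.inl rfl)
    have hcv : Continuous fun u : S → ℂ => ‖u v‖ ^ 2 := (continuous_norm.comp
      (continuous_apply v)).pow 2
    have hcw : Continuous fun u : S → ℂ => ‖u w‖ ^ 2 := (continuous_norm.comp
      (continuous_apply w)).pow 2
    have hop : IsOpen {u : S → ℂ | 1 + (φ v κ).re * ‖u v‖ ^ 2 < 0 ∧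
        0 < 1 + (φ w κ).re * ‖u w‖ ^ 2} := by
      refine (isOpen_lt (continuous_const.add (continuous_const.mul hcv))
        continuous_const).inter (isOpen_lt continuous_const
        (continuous_const.add (continuous_const.mul hcw)))
    have hne : {u : S → ℂ | 1 + (φ v κ).re * ‖u v‖ ^ 2 < 0 ∧
        0 < 1 + (φ w κ).re * ‖u w‖ ^ 2}.Nonempty := by
      set t : ℝ := -(φ v κ).re with ht
      have ht0 : 0 < t := by linarith
      refine ⟨fun s => if s = v then (((1 + 1 / t : ℝ)) : ℂ) else 0, ?_, ?_⟩
      · have e1 : ‖(if v = v then (((1 + 1 / t : ℝ)) : ℂ) else 0)‖ ^ 2 = (1 + 1 / t) ^ 2 := by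
          rw [if_pos rfl, Complex.norm_real, Real.norm_eq_abs, sq_abs]
        show 1 + (φ v κ).re * ‖(if v = v then (((1 + 1 / t : ℝ)) : ℂ) else 0)‖ ^ 2 < 0
        rw [e1]
        have e2 : (φ v κ).re = -t := by rw [ht]; ring
        rw [e2]
        have e3 : -t * (1 + 1 / t) ^ 2 = -t - 2 - 1 / t := by
          field_simp
          ring
        rw [e3]
        have : 0 < 1 / t := by positivity
        linarith
      · show 0 < 1 + (φ w κ).re * ‖(if w = v then (((1 + 1 / t : ℝ)) : ℂ) else 0)‖ ^ 2
        rw [if_neg (Ne.symm hvw)]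
        simp
    obtain ⟨b, hb1, hb2⟩ := hd.exists_mem_open hop hne
    have key : ∀ s, (φ s (1 * c 1 + κ * (b * c b))).re = 1 + (φ s κ).re * ‖φ s b‖ ^ 2 := by
      intro s
      rw [map_one, mul_one, map_add, map_one, map_mul, map_mul, hφc, Complex.mul_conj,
        Complex.normSq_eq_norm_sq, ← hreal s]
      simp [← Complex.ofReal_pow]
    refine ⟨1, b, ?_, fun s hs => ?_⟩
    · rw [key]
      exact hb1
    · rw [key]
      by_cases hsw : s = w
      · rw [hsw]
        exact hb2
      · have h2 : ¬ (φ s κ).re < 0 := fun h => by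
          rcases (hsgn s).1 h with h | h
          · exact hs h
          · exact hsw h
        have h3 : 0 ≤ (φ s κ).re * ‖φ s b‖ ^ 2 := mul_nonneg (not_lt.1 h2) (by positivity)
        linarith

end GAM
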