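import Pool.Agent.GAM.FCalc

/-!
# GAM [Shift]
-/

set_option autoImplicit false

namespace GAM

open scoped ComplexConjugate

/-- the conjugate of an entire function -/
theorem Shift_conj {ι : Type} [Fintype ι] {f : (ι → ℂ) → ℂ} (hf : Differentiable ℂ f) :
    Differentiable ℂ (fun y : ι → ℂ => conj (f (star y))) := by
  intro y
  have h1 := (hf (star y)).hasFDerivAt
  set f' := fderiv ℂ f (star y) with hf'
  let T : (ι → ℂ) →ₗ[ℂ] ℂ :=
    { toFun := fun k => conj (f' (star k))
      map_add' := fun a b => by rw [star_add, map_add, map_add]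
      map_smul' := fun c a => by
        rw [star_smul, map_smul, smul_eq_mul, map_mul]
        simp }
  have h2 : HasFDerivAt (fun y : ι → ℂ => conj (f (star y))) (LinearMap.toContinuousLinearMap T) y := by
    rw [hasFDerivAt_iff_isLittleO_nhds_zero] at h1 ⊢
    have h3 : Filter.Tendsto (fun k : ι → ℂ => star k) (nhds 0) (nhds 0) := by
      have : Continuous (fun k : ι → ℂ => star k) := continuous_star
      have h4 := this.tendsto 0
      rwa [star_zero] at h4
    have h5 := h1.comp_tendsto h3
    have h6 : (fun k : ι → ℂ => conj (f (star (y + k))) - conj (f (star y)) -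
        (LinearMap.toContinuousLinearMap T) k) =
        fun k => conj (f (star y + star k) - f (star y) - f' (star k)) := by
      funext k
      rw [map_sub, map_sub, star_add]
      rfl
    rw [h6]
    rw [Asymptotics.isLittleO_iff] at h5 ⊢
    intro c hc
    filter_upwards [h5 hc] with k hk
    rw [Complex.norm_conj]
    simp only [Function.comp_apply] at hk
    rwa [norm_star] at hk
  exact h2.differentiableAt

theorem thm_Shift (h1 : St_Avg) : St_Shift := by
  intro ι _ L χ θ b hP hL hT v
  set Ψ : (ι → ℂ) × (ι → ℂ) → ℂ := fun p =>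
    θ p.1 * conj (θ (star p.2)) * Complex.exp (-(Real.pi * ∑ a, p.1 a * p.2 a)) with hΨ
  have hd : Differentiable ℂ Ψ := by
    have e1 : Differentiable ℂ (fun p : (ι → ℂ) × (ι → ℂ) => θ p.1) :=
      hT.ent.comp differentiable_fst
    have e2 : Differentiable ℂ (fun p : (ι → ℂ) × (ι → ℂ) => conj (θ (star p.2))) :=
      (Shift_conj hT.ent).comp differentiable_snd
    have e3 : Differentiable ℂ (fun p : (ι → ℂ) × (ι → ℂ) =>
        Complex.exp (-(Real.pi * ∑ a, p.1 a * p.2 a))) := by
      fun_prop
    exact (e1.mul e2).mul e3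
  have hper : ∀ l ∈ L, ∀ x y, Ψ (x + l, y + star l) = Ψ (x, y) := by
    intro l hl x y
    rw [hΨ]
    dsimp only
    have e1 := hT.quasi l hl x
    have e2 := hT.quasi l hl (star y)
    have e3 : star (y + star l) = star y + l := by rw [star_add, star_star]
    have hχ : conj (χ l) = χ l := by
      rcases hP.pm l hl with h | h <;> rw [h] <;> simp
    have e4 : conj (H (star y) l) = ∑ a, l a * y a := by
      rw [H_conj]
      unfold H
      refine Finset.sum_congr rfl fun a _ => ?_
      simp
    have e5 : conj (H l l) = H l l := H_conj l l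
    have e6 : (∑ a, (x + l) a * (y + star l) a) =
        (∑ a, x a * y a) + H x l + (∑ a, l a * y a) + H l l := by
      unfold H
      rw [← Finset.sum_add_distrib, ← Finset.sum_add_distrib, ← Finset.sum_add_distrib]
      refine Finset.sum_congr rfl fun a _ => ?_
      simp only [Pi.add_apply, Pi.star_apply, Complex.star_def]
      ring
    rw [e1, e3, e2, e6]
    rw [map_mul, map_mul, hχ, ← Complex.exp_conj, map_add, map_mul, map_mul, e4, e5]
    have e7 : conj ((Real.pi : ℂ)) = Real.pi := Complex.conj_ofReal _
    have e8 : conj ((Real.pi : ℂ) / 2) = Real.pi / 2 := by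
      rw [map_div₀, e7, map_ofNat]
    rw [e7, e8]
    have e9 : Complex.exp (Real.pi * H x l + Real.pi / 2 * H l l) *
        Complex.exp (Real.pi * (∑ a, l a * y a) + Real.pi / 2 * H l l) *
        Complex.exp (-(Real.pi * ((∑ a, x a * y a) + H x l + (∑ a, l a * y a) + H l l))) =
        Complex.exp (-(Real.pi * ∑ a, x a * y a)) := by
      rw [← Complex.exp_add, ← Complex.exp_add]
      congr 1
      ring
    have e10 := hP.chi_sq hl
    rw [← e9]
    linear_combination (θ x * conj (θ (star y)) *
      (Complex.exp (Real.pi * H x l + Real.pi / 2 * H l l) *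
        Complex.exp (Real.pi * (∑ a, l a * y a) + Real.pi / 2 * H l l) *
        Complex.exp (-(Real.pi * ((∑ a, x a * y a) + H x l + (∑ a, l a * y a) + H l l))))) * e10
  have hmain := h1 ι L b Ψ hL hd hper v
  have hF : ∀ x v : ι → ℂ, Ψ (x + v, star x) = F θ x v * conj (F θ x 0) := by
    intro x v
    rw [hΨ]
    dsimp only
    rw [star_star, F_at_zero]
    unfold F
    have e1 : (∑ a, (x + v) a * (star x) a) = H x x + H v x := by
      unfold H
      rw [← Finset.sum_add_distrib]
      refine Finset.sum_congr rfl fun a _ => ?_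
      simp only [Pi.add_apply, Pi.star_apply, Complex.star_def]
      ring
    have e5 : conj (H x x) = H x x := H_conj x x
    have e7 : conj ((Real.pi : ℂ)) = Real.pi := Complex.conj_ofReal _
    rw [e1, map_mul, ← Complex.exp_conj, map_neg, map_mul, map_div₀, e7, e5]
    have e8 : conj (2 : ℂ) = 2 := map_ofNat _ 2
    rw [e8]
    have e9 : Complex.exp (-(Real.pi * (H x x + H v x))) =
        Complex.exp (-(Real.pi * H v x) - Real.pi / 2 * H x x) *
          Complex.exp (-(Real.pi / 2 * H x x)) := by
      rw [← Complex.exp_add]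
      congr 1
      ring
    rw [e9]
    ring
  have hF0 : ∀ x : ι → ℂ, Ψ (x, star x) = F θ x 0 * conj (F θ x 0) := by
    intro x
    have := hF x 0
    rwa [add_zero] at this
  simp only [hF, hF0] at hmain
  exact hmain

end GAM
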