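import Pool.Agent.GAM.StD2

/-!
# GAM [SieR]: existence of an algebraic relation between the four functions
-/

set_option autoImplicit false

namespace GAM

open scoped ComplexConjugate

section sier

variable {S : Type} [Fintype S] [DecidableEq S]

lemma SieR_psi (h4 : St_Ell) (h5 : St_GroF) {v w : S} (hvw : v ≠ w)
    {L : Submodule ℤ (S × Fin 2 → ℂ)} {χ θ : (S × Fin 2 → ℂ) → ℂ} (hL : PLat L χ)
    (hθ : IsTh L χ θ) (x : S × Fin 2 → ℂ) : DifferentiableOn ℂ (fun z => psi v w θ z x) D2 :=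
  (h4 S v w (F θ x) hvw ((h5 (S × Fin 2)).1 L χ θ hL hθ x)).1

lemma SieR_dpsi (h4 : St_Ell) (h5 : St_GroF) {v w : S} (hvw : v ≠ w)
    {L : Submodule ℤ (S × Fin 2 → ℂ)} {χ θ : (S × Fin 2 → ℂ) → ℂ} (hL : PLat L χ)
    (hθ : IsTh L χ θ) (u : S) (i : Fin 2) (x : S × Fin 2 → ℂ) :
    DifferentiableOn ℂ (fun z => dpsi v w u i θ z x) D2 :=
  (h4 S v w (pd (u, i) (F θ x)) hvw ((h5 (S × Fin 2)).2.1 _
    ((h5 (S × Fin 2)).1 L χ θ hL hθ x) (u, i))).1

lemma SieR_F4 (h4 : St_Ell) (h5 : St_GroF) {v w : S} (hvw : v ≠ w)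
    {L : Submodule ℤ (S × Fin 2 → ℂ)} {χ θ : (S × Fin 2 → ℂ) → ℂ} (hL : PLat L χ)
    (hθ : IsTh L χ θ) (u : S) (x x' : S × Fin 2 → ℂ) (y : Fin 3 → S × Fin 2 → ℂ) (i : Fin 4) :
    DifferentiableOn ℂ (F4 v w u θ x x' y i) D2 := by
  have hp := SieR_psi h4 h5 hvw hL hθ
  have hd := SieR_dpsi h4 h5 hvw hL hθ u
  unfold F4 wedge
  split_ifs
  · exact (hp _).fun_mul (hp _)
  · exact (hp _).fun_mul (hp _)
  · exact (hp _).fun_mul (hp _)
  · exact ((hd _ _).fun_mul (hd _ _)).fun_sub ((hd _ _).fun_mul (hd _ _))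

end sier

theorem thm_SieR (h1 : St_Sieg) (h2 : St_GamI) (h3 : St_Sup) (h4 : St_Ell) (h5 : St_GroF) :
    St_SieR := by
  intro S _ _ u v w L χ θ x x' y huv huw hvw hL hθ hne hcoc hx hx' hy
  classical
  -- the common order
  obtain ⟨n, hn, hc⟩ := exists_common_order (L := L) (κ := Option (Option (Fin 3)))
    (fun o => o.elim x fun o => o.elim x' fun i => y i) (by
      intro o
      rcases o with _ | o
      · exact hx
      · rcases o with _ | i
        · exact hx'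
        · exact hy i)
  have hn0 : n ≠ 0 := by
    rintro rfl
    simp at hn
  obtain ⟨r, hr, hcoc⟩ := hcoc (2 * n ^ 2) (by positivity)
  obtain ⟨N, hN, hlub⟩ := h3 S v w L χ θ hvw hL hθ hne
  set r' : ℝ := max r 0 with hr'
  have hr1 : r' < 1 := max_lt hr one_pos
  have hr0 : 0 ≤ r' := le_max_right _ _
  have hK : Metric.closedBall (0 : Fin 2 → ℂ) r' ⊆ D2 := by
    rw [D2_eq_ball]
    exact Metric.closedBall_subset_ball hr1
  refine h1 (Fin 2) (Fin 4) (by simp) D2 (Metric.closedBall 0 r') (fun z => 2 * N z)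
    (fun i z => F4 v w u θ x x' y i z) isOpen_D2 (continuousOn_const.mul hN)
    (isCompact_closedBall _ _) hK (fun i => SieR_F4 h4 h5 hvw hL hθ u x x' y i) ?_
  intro z hz
  obtain ⟨g, hg1, hg2, hg3⟩ := hcoc z hz
  obtain ⟨j, hj0, hj1, hj2⟩ := h2 S u v w g L χ θ n x x' y huv huw hvw hL hθ hne
    (hc none) (hc (some none)) (fun i => hc (some (some i))) hn0 hg1 hg2 z hz
  refine ⟨mob g z, ?_, (j ^ 2)⁻¹, ?_, ?_⟩
  · rw [mem_closedBall_zero_iff, pi_norm_le_iff_of_nonneg hr0]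
    exact fun i => (hg3 i).trans (le_max_left _ _)
  · have hjn : 0 < ‖j‖ := norm_pos_iff.2 hj0
    have h6 := hlub z hz
    have h7 := hlub (mob g z) (mob_mem g hz)
    have h8 : Real.exp (N (mob g z)) = ‖j‖ * Real.exp (N z) := by
      apply le_antisymm
      · apply h7.2
        rintro _ ⟨t, rfl⟩
        obtain ⟨t, rfl⟩ := act_surj g t
        show ‖psi v w θ (mob g z) (act g t)‖ ≤ _
        rw [hj1, norm_mul]
        exact mul_le_mul_of_nonneg_left (h6.1 ⟨t, rfl⟩) hjn.le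
      · rw [← le_div_iff₀' hjn]
        apply h6.2
        rintro _ ⟨t, rfl⟩
        show ‖psi v w θ z t‖ ≤ _
        rw [le_div_iff₀' hjn, ← norm_mul, ← hj1]
        exact h7.1 ⟨act g t, rfl⟩
    have h9 : Real.exp (2 * N (mob g z)) = ‖j‖ ^ 2 * Real.exp (2 * N z) := by
      rw [two_mul, two_mul, Real.exp_add, Real.exp_add, h8]
      ring
    rw [h9, norm_inv, norm_pow]
    field_simp
  · intro i
    rw [hj2 i]
    field_simp

end GAM
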