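import Pool.Agent.GAM.SiegAux

/-!
# GAM: Siegel's theorem on algebraic dependence
-/

set_option autoImplicit false

open Metric Filter Topology

namespace GAM

open Pool.Agent.Helper8 (dds dds_sum dds_const_mul)

section comb

variable {κ : Type} [Fintype κ] [DecidableEq κ]

/-- Exponents of homogeneous monomials of degree `m`. -/
noncomputable def expo (k0 : κ) (m s : ℕ) (β : {k // k ≠ k0} → Fin (s + 1)) : κ →₀ ℕ :=
  Finsupp.equivFunOnFinite.symm fun k =>
    if h : k ≠ k0 then (β ⟨k, h⟩ : ℕ) else m - ∑ j, (β j : ℕ)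

lemma expo_ne (k0 : κ) (m s : ℕ) (β : {k // k ≠ k0} → Fin (s + 1)) (j : {k // k ≠ k0}) :
    expo k0 m s β j = β j := by
  simp [expo, j.2]

lemma expo_self (k0 : κ) (m s : ℕ) (β : {k // k ≠ k0} → Fin (s + 1)) :
    expo k0 m s β k0 = m - ∑ j, (β j : ℕ) := by
  simp [expo]

lemma expo_inj (k0 : κ) (m s : ℕ) : Function.Injective (expo k0 m s) := by
  intro β β' h
  funext j
  have h1 := expo_ne k0 m s β j
  rw [h, expo_ne] at h1
  exact Fin.ext h1.symm

lemma expo_sum (k0 : κ) {m s : ℕ} (β : {k // k ≠ k0} → Fin (s + 1))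
    (hm : Fintype.card {k // k ≠ k0} * s ≤ m) : ∑ k, expo k0 m s β k = m := by
  have h1 : ∑ k, expo k0 m s β k = expo k0 m s β k0 + ∑ j : {k // k ≠ k0}, expo k0 m s β j :=
    Fintype.sum_eq_add_sum_subtype_ne _ k0
  rw [h1, expo_self]
  simp only [expo_ne]
  have h2 : ∑ j, (β j : ℕ) ≤ Fintype.card {k // k ≠ k0} * s := by
    calc ∑ j, (β j : ℕ) ≤ ∑ _j : {k // k ≠ k0}, s :=
          Finset.sum_le_sum fun j _ => Nat.lt_succ_iff.1 (β j).2
      _ = _ := by simp
  omega

end comb

theorem thm_Sieg : St_Sieg := by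
  classical
  intro ι κ _ _ hcard Ω K N f hΩ hN hK hKΩ hf htr
  obtain ⟨t, c, htK, hvp⟩ := van_principle Ω K N hΩ hN hK hKΩ
  set n := Fintype.card ι with hn
  have hκ : 0 < Fintype.card κ := by omega
  obtain ⟨k0⟩ : Nonempty κ := Fintype.card_pos_iff.1 hκ
  have hκ' : Fintype.card {k // k ≠ k0} = n + 1 := by
    have h1 : Fintype.card {k // k ≠ k0} = Fintype.card κ - 1 := by
      rw [Fintype.card_subtype_compl, Fintype.card_subtype_eq]
    omega
  set A : ℕ := (c + 1) * (n + 1) with hA
  set s : ℕ := t.card * A ^ n + 1 with hs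
  set m : ℕ := (n + 1) * s with hm
  set k : ℕ := c * m + 1 with hk
  have hs1 : 1 ≤ s := by omega
  have hm1 : 1 ≤ m := by
    rw [hm]
    exact Nat.mul_pos (Nat.succ_pos n) hs1
  have hkA : k ≤ A * s := by
    have : A * s = c * m + m := by
      rw [hA, hm]
      ring
    omega
  have hcount : t.card * k ^ n < (s + 1) ^ (n + 1) := by
    calc t.card * k ^ n ≤ t.card * (A * s) ^ n := by gcongr
      _ = (t.card * A ^ n) * s ^ n := by rw [mul_pow]; ring
      _ ≤ s * s ^ n := by
        apply Nat.mul_le_mul_right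
        omega
      _ = s ^ (n + 1) := by ring
      _ < (s + 1) ^ (n + 1) := Nat.pow_lt_pow_left (Nat.lt_succ_self s) (Nat.succ_ne_zero n)
  -- monomials
  set G : ({k // k ≠ k0} → Fin (s + 1)) → (ι → ℂ) → ℂ :=
    fun β z => ∏ k, f k z ^ (expo k0 m s β k) with hG
  have hGd : ∀ β, DifferentiableOn ℂ (G β) Ω := by
    intro β
    have h1 : ∀ S : Finset κ,
        DifferentiableOn ℂ (fun z : ι → ℂ => ∏ k ∈ S, f k z ^ (expo k0 m s β k)) Ω := by
      intro S
      induction S using Finset.induction_on with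
      | empty => simp
      | insert a S ha ih =>
        simp only [Finset.prod_insert ha]
        exact ((hf a).fun_pow _).fun_mul ih
    exact h1 Finset.univ
  have hGa : ∀ β, ∀ p ∈ Ω, AnalyticAt ℂ (G β) p := fun β p hp =>
    analyticOnNhd_of_differentiableOn hΩ (hGd β) p hp
  have hGc : ∀ β, ∀ z z' : ι → ℂ, ∀ d : ℂ, (∀ i, f i z = d * f i z') → G β z = d ^ m * G β z' := by
    intro β z z' d h
    simp only [hG]
    simp only [h, mul_pow]
    rw [Finset.prod_mul_distrib, Finset.prod_pow_eq_pow_sum, expo_sum k0 β (by rw [hκ'])]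
  let T : (({k // k ≠ k0} → Fin (s + 1)) → ℂ) →ₗ[ℂ] ((t × (ι → Fin k)) → ℂ) :=
    { toFun := fun x q => ∑ β, x β * dds ((word q.2).map ev) (G β) q.1
      map_add' := by
        intro x y
        funext q
        simp only [Pi.add_apply, add_mul, Finset.sum_add_distrib]
      map_smul' := by
        intro a x
        funext q
        simp only [Pi.smul_apply, smul_eq_mul, RingHom.id_apply, Finset.mul_sum, mul_assoc] }
  have hker : LinearMap.ker T ≠ ⊥ := by
    apply LinearMap.ker_ne_bot_of_finrank_lt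
    rw [Module.finrank_fintype_fun_eq_card, Module.finrank_fintype_fun_eq_card]
    simp only [Fintype.card_prod, Fintype.card_coe, Fintype.card_fun, Fintype.card_fin]
    rw [hκ']
    exact hcount
  obtain ⟨x, hx, hx0⟩ := (Submodule.ne_bot_iff _).1 hker
  set P : MvPolynomial κ ℂ := ∑ β, MvPolynomial.monomial (expo k0 m s β) (x β) with hP
  have hPe : ∀ z, MvPolynomial.eval (fun i => f i z) P = ∑ β, x β * G β z := by
    intro z
    rw [hP, map_sum]
    refine Finset.sum_congr rfl fun β _ => ?_
    rw [MvPolynomial.eval_monomial]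
    congr 1
    rw [Finsupp.prod_fintype]
    intro i
    exact pow_zero _
  refine ⟨m, P, ?_, ?_, ?_⟩
  · intro h0
    apply hx0
    funext β
    have h1 : P.coeff (expo k0 m s β) = x β := by
      rw [hP, MvPolynomial.coeff_sum, Finset.sum_eq_single β]
      · rw [MvPolynomial.coeff_monomial, if_pos rfl]
      · intro β' _ hne
        rw [MvPolynomial.coeff_monomial, if_neg]
        exact fun h => hne (expo_inj k0 m s h)
      · intro h
        exact absurd (Finset.mem_univ _) h
    rw [← h1, h0]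
    simp
  · rw [hP]
    apply MvPolynomial.IsHomogeneous.sum
    intro β _
    apply MvPolynomial.isHomogeneous_monomial
    rw [Finsupp.degree_eq_sum]
    exact expo_sum k0 β (by rw [hκ'])
  · set F : (ι → ℂ) → ℂ := ∑ β, fun z => x β * G β z with hF
    have hFe : ∀ z, F z = MvPolynomial.eval (fun i => f i z) P := by
      intro z
      rw [hPe, hF, Finset.sum_apply]
    have hFd : DifferentiableOn ℂ F Ω := by
      have h1 : DifferentiableOn ℂ (fun z => ∑ β, x β * G β z) Ω :=
        DifferentiableOn.fun_sum fun β _ => (hGd β).const_mul _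
      refine h1.congr fun z _ => ?_
      rw [hF, Finset.sum_apply]
    have hFt : ∀ z ∈ Ω, ∃ z' ∈ K, ‖F z‖ ≤ Real.exp (m * (N z - N z')) * ‖F z'‖ := by
      intro z hz
      obtain ⟨z', hz', d, hd, hd2⟩ := htr z hz
      refine ⟨z', hz', le_of_eq ?_⟩
      have h1 : F z = d ^ m * F z' := by
        rw [hFe, hFe, hPe, hPe, Finset.mul_sum]
        refine Finset.sum_congr rfl fun β _ => ?_
        rw [hGc β z z' d hd2]
        ring
      have h2 : ‖d‖ = Real.exp (N z - N z') := by
        rw [Real.exp_sub, ← hd]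
        field_simp
      rw [h1, norm_mul, norm_pow, h2, ← Real.exp_nat_mul]
    have hzero := hvp m k F hFd hFt (Nat.lt_succ_self _) (by
      intro p hp μ
      have hpΩ : p ∈ Ω := hKΩ (htK hp)
      rw [hF, dds_sum Finset.univ (fun β z => x β * G β z) _ fun β _ =>
        analyticAt_const.mul (hGa β p hpΩ)]
      have h1 := congrFun (LinearMap.mem_ker.1 hx) (⟨p, hp⟩, μ)
      have h2 : ∑ β, x β * dds ((word μ).map ev) (G β) p = 0 := h1
      rw [← h2]
      refine Finset.sum_congr rfl fun β _ => ?_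
      exact dds_const_mul _ _ (hGa β p hpΩ))
    intro z hz
    rw [← hFe]
    exact hzero z hz

end GAM
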