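import Pool.Agent.GAM.StC

/-!
# GAM: the functions of the CM types containing `t` span the odd functions
-/

set_option autoImplicit false

namespace GAM

open scoped ComplexConjugate

theorem Spn_comp {K : Type} [Field K] [NumberField K] {c : K →+* K} (hc : CMF K c)
    (σ : K →+* ℂ) : (σ.comp c).comp c = σ := by
  ext x
  rw [RingHom.comp_apply, RingHom.comp_apply, ← hc.cc, ← hc.cc, Complex.conj_conj]

theorem Spn_hfun_inl {K : Type} [Field K] {S : Type} (φ : S → K →+* ℂ) (s : S) :
    hfun φ (φ s) = 1 / 2 := by
  unfold hfun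
  rw [if_pos ⟨s, rfl⟩]

theorem Spn_hfun_inr {K : Type} [Field K] {c : K →+* K} {S : Type} {φ : S → K →+* ℂ}
    (hφ : CMT K c φ) (s : S) : hfun φ ((φ s).comp c) = -1 / 2 := by
  unfold hfun
  rw [if_neg]
  rintro ⟨t, ht⟩
  have h1 : (Sum.elim φ fun s => (φ s).comp c) (Sum.inl t) =
      (Sum.elim φ fun s => (φ s).comp c) (Sum.inr s) := ht
  exact absurd (hφ.1 h1) (by simp)

theorem thm_Spn (hF : St_FlipJ) (hB : St_Base) : St_Spn := by
  classical
  intro K _ _ c t f hc hf
  obtain ⟨S, _, _, φ, u, hφ, hu⟩ := hB K c hc t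
  set W := Submodule.span ℚ {h : (K →+* ℂ) → ℚ |
    ∃ (S : Type) (_ : Fintype S) (_ : DecidableEq S) (φ : S → K →+* ℂ) (s : S),
      CMT K c φ ∧ φ s = t ∧ h = hfun φ} with hW
  have hcomp := Spn_comp hc
  have hne : ∀ s t, φ s ≠ (φ t).comp c := by
    intro s t h
    have h1 : (Sum.elim φ fun s => (φ s).comp c) (Sum.inl s) =
      (Sum.elim φ fun s => (φ s).comp c) (Sum.inr t) := h
    exact absurd (hφ.1 h1) (by simp)
  have hinj : ∀ s t, φ s = φ t → s = t := by
    intro s t h
    have h1 : (Sum.elim φ fun s => (φ s).comp c) (Sum.inl s) =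
      (Sum.elim φ fun s => (φ s).comp c) (Sum.inl t) := h
    exact Sum.inl.inj (hφ.1 h1)
  have hext : ∀ g h : (K →+* ℂ) → ℚ, (∀ s, g (φ s) = h (φ s)) →
      (∀ s, g ((φ s).comp c) = h ((φ s).comp c)) → g = h := by
    intro g h h1 h2
    funext σ
    obtain ⟨x, hx⟩ := hφ.2 σ
    rcases x with s | s
    · have : φ s = σ := hx
      rw [← this]
      exact h1 s
    · have : (φ s).comp c = σ := hx
      rw [← this]
      exact h2 s
  -- the basis of the odd functions
  let d : S → (K →+* ℂ) → ℚ := fun v σ => if σ = φ v then 1 else if σ = (φ v).comp c then -1 else 0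
  have hd1 : ∀ v s, d v (φ s) = if s = v then 1 else 0 := by
    intro v s
    by_cases h : s = v
    · subst h
      simp [d]
    · have h1 : φ s ≠ φ v := fun h' => h (hinj _ _ h')
      simp [d, h, h1, hne]
  have hd2 : ∀ v s, d v ((φ s).comp c) = if s = v then -1 else 0 := by
    intro v s
    have h0 : (φ s).comp c ≠ φ v := fun h' => hne v s h'.symm
    by_cases h : s = v
    · subst h
      simp [d, h0]
    · have h1 : (φ s).comp c ≠ (φ v).comp c := by
        intro h'
        have := congrArg (fun σ : K →+* ℂ => σ.comp c) h'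
        simp only [hcomp] at this
        exact h (hinj _ _ this)
      simp [d, h, h0, h1]
  have h0 : hfun φ ∈ W := Submodule.subset_span ⟨S, inferInstance, inferInstance, φ, u, hφ, hu, rfl⟩
  -- the flipped types
  have hflip : ∀ v, v ≠ u → d v ∈ W := by
    intro v hv
    have hψ := (hF K c S S φ φ hc hφ hφ).2.1 {v}
    set ψ : S → K →+* ℂ := fun s => if s ∈ ({v} : Finset S) then (φ s).comp c else φ s with hψd
    have h1 : hfun ψ ∈ W := by
      refine Submodule.subset_span ⟨S, inferInstance, inferInstance, ψ, u, hψ, ?_, rfl⟩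
      rw [hψd]
      simp only [Finset.mem_singleton]
      rw [if_neg (Ne.symm hv)]
      exact hu
    have h2 : d v = hfun φ - hfun ψ := by
      refine hext _ _ (fun s => ?_) fun s => ?_
      · rw [hd1, Pi.sub_apply, Spn_hfun_inl]
        by_cases hs : s = v
        · have e1 : φ s = (ψ s).comp c := by
            rw [hψd]
            simp only [Finset.mem_singleton]
            rw [if_pos hs, hcomp]
          rw [if_pos hs, e1, Spn_hfun_inr hψ]
          norm_num
        · have e1 : φ s = ψ s := by
            rw [hψd]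
            simp only [Finset.mem_singleton]
            rw [if_neg hs]
          rw [if_neg hs, e1, Spn_hfun_inl]
          norm_num
      · rw [hd2, Pi.sub_apply, Spn_hfun_inr hφ]
        by_cases hs : s = v
        · have e1 : (φ s).comp c = ψ s := by
            rw [hψd]
            simp only [Finset.mem_singleton]
            rw [if_pos hs]
          rw [if_pos hs, e1, Spn_hfun_inl]
          norm_num
        · have e1 : (φ s).comp c = (ψ s).comp c := by
            rw [hψd]
            simp only [Finset.mem_singleton]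
            rw [if_neg hs]
          rw [if_neg hs, e1, Spn_hfun_inr hψ]
          norm_num
    rw [h2]
    exact W.sub_mem h0 h1
  -- the remaining basis vector
  have hsum : hfun φ = (1 / 2 : ℚ) • ∑ v, d v := by
    refine hext _ _ (fun s => ?_) fun s => ?_
    · rw [Spn_hfun_inl, Pi.smul_apply, Finset.sum_apply, Finset.sum_congr rfl fun v _ => hd1 v s,
        Finset.sum_ite_eq, if_pos (Finset.mem_univ _)]
      norm_num
    · rw [Spn_hfun_inr hφ, Pi.smul_apply, Finset.sum_apply,
        Finset.sum_congr rfl fun v _ => hd2 v s,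
        Finset.sum_ite_eq, if_pos (Finset.mem_univ _)]
      norm_num
  have hdu : d u ∈ W := by
    have h2 : d u = (2 : ℚ) • hfun φ - ∑ v ∈ Finset.univ.erase u, d v := by
      rw [hsum, smul_smul, ← Finset.add_sum_erase _ _ (Finset.mem_univ u)]
      norm_num
    rw [h2]
    refine W.sub_mem (W.smul_mem _ h0) (W.sum_mem fun v hv => hflip v (Finset.ne_of_mem_erase hv))
  have hall : ∀ v, d v ∈ W := by
    intro v
    by_cases hv : v = u
    · rw [hv]
      exact hdu
    · exact hflip v hv
  have hfin : f = ∑ v, f (φ v) • d v := by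
    refine hext _ _ (fun s => ?_) fun s => ?_
    · rw [Finset.sum_apply]
      simp only [Pi.smul_apply, hd1, smul_eq_mul, mul_ite, mul_one, mul_zero, Finset.sum_ite_eq,
        Finset.mem_univ, if_true]
    · rw [Finset.sum_apply, hf]
      simp only [Pi.smul_apply, hd2, smul_eq_mul, mul_ite, mul_neg, mul_one, mul_zero,
        Finset.sum_ite_eq, Finset.mem_univ, if_true]
  rw [hfin]
  exact W.sum_mem fun v _ => W.smul_mem _ (hall v)

end GAM
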