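import Mathlib
import Pool.Agent.GAM.StD2

/-!
# GAM / Sup: the supremum of `|psi_z|` is continuous in `z`
-/

set_option autoImplicit false

namespace GAM

open scoped ComplexConjugate

theorem thm_Sup (h1 : St_PsiJ) (h2 : St_PsiN) (h3 : St_PsiL) : St_Sup := by
  intro S _ _ v w L χ θ hvw hL hθ hne
  obtain ⟨b, hb⟩ := hL.basis
  set K : Set (S × Fin 2 → ℂ) := closure (ZSpan.fundamentalDomain b) with hK
  have hKc : IsCompact K := (ZSpan.fundamentalDomain_isBounded b).isCompact_closure
  -- periodicity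
  have hper : ∀ z : Fin 2 → ℂ, ∀ l ∈ L, ∀ x, ‖psi v w θ z (x + l)‖ = ‖psi v w θ z x‖ := by
    intro z l hl x
    rw [(h3 S v w L χ θ hvw hL hθ z l hl x).1, norm_mul, norm_mul]
    have e1 : ‖χ l‖ = 1 := by
      rcases hL.pm l hl with h | h <;> rw [h] <;> simp
    have e2 : ‖Complex.exp (Real.pi * Complex.I * E x l)‖ = 1 := by
      rw [Complex.norm_exp]
      simp
    rw [e1, e2, one_mul, one_mul]
  have hrep : ∀ z : Fin 2 → ℂ, ∀ x, ∃ q ∈ K, ‖psi v w θ z x‖ = ‖psi v w θ z q‖ := by
    intro z x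
    refine ⟨ZSpan.fract b x, subset_closure (ZSpan.fract_mem_fundamentalDomain b x), ?_⟩
    have hl : ((ZSpan.floor b x : Submodule.span ℤ (Set.range b)) : S × Fin 2 → ℂ) ∈ L := by
      rw [hb]
      exact (ZSpan.floor b x).2
    rw [← hper z _ hl (ZSpan.fract b x)]
    congr 2
    rw [ZSpan.fract_apply]
    abel
  have hKne : K.Nonempty := ⟨ZSpan.fract b 0, subset_closure (ZSpan.fract_mem_fundamentalDomain b 0)⟩
  have hJ := h1 S v w L χ θ hvw hL hθ
  -- the supremum over `K`
  set M : (Fin 2 → ℂ) → ℝ := fun z => sSup ((fun x => ‖psi v w θ z x‖) '' K) with hM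
  have hMc : ContinuousOn M D2 := by
    rw [continuousOn_iff_continuous_domRestrict]
    have hf : Continuous (Function.uncurry fun (z : D2) (x : S × Fin 2 → ℂ) =>
        ‖psi v w θ z x‖) := by
      apply Continuous.norm
      have e : (Function.uncurry fun (z : D2) (x : S × Fin 2 → ℂ) => psi v w θ z x) =
          (fun p : (Fin 2 → ℂ) × (S × Fin 2 → ℂ) => psi v w θ p.1 p.2) ∘
            (fun q : D2 × (S × Fin 2 → ℂ) => ((q.1 : Fin 2 → ℂ), q.2)) := rfl
      have : Continuous ((fun p : (Fin 2 → ℂ) × (S × Fin 2 → ℂ) => psi v w θ p.1 p.2) ∘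
            (fun q : D2 × (S × Fin 2 → ℂ) => ((q.1 : Fin 2 → ℂ), q.2))) := by
        apply hJ.comp_continuous
        · exact (continuous_subtype_val.comp continuous_fst).prodMk continuous_snd
        · intro q
          exact ⟨q.1.2, Set.mem_univ _⟩
      exact this
    exact hKc.continuous_sSup hf
  have hcx : ∀ z ∈ D2, Continuous fun x => ‖psi v w θ z x‖ := by
    intro z hz
    apply Continuous.norm
    have : Continuous ((fun p : (Fin 2 → ℂ) × (S × Fin 2 → ℂ) => psi v w θ p.1 p.2) ∘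
        (fun x : S × Fin 2 → ℂ => (z, x))) := by
      apply hJ.comp_continuous
      · exact continuous_const.prodMk continuous_id
      · intro q
        exact ⟨hz, Set.mem_univ _⟩
    exact this
  have hbdd : ∀ z ∈ D2, BddAbove ((fun x => ‖psi v w θ z x‖) '' K) := by
    intro z hz
    exact (hKc.image (hcx z hz)).bddAbove
  have hlub : ∀ z ∈ D2, IsLUB (Set.range fun x => ‖psi v w θ z x‖) (M z) := by
    intro z hz
    constructor
    · rintro _ ⟨x, rfl⟩
      obtain ⟨q, hq, hxq⟩ := hrep z x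
      simp only
      rw [hxq]
      exact le_csSup (hbdd z hz) ⟨q, hq, rfl⟩
    · intro B hB
      apply csSup_le (hKne.image _)
      rintro _ ⟨x, _, rfl⟩
      exact hB ⟨x, rfl⟩
  have hpos : ∀ z ∈ D2, 0 < M z := by
    intro z hz
    obtain ⟨x, hx⟩ := h2 S v w L χ θ hvw hL hθ hne z hz
    exact (norm_pos_iff.mpr hx).trans_le ((hlub z hz).1 ⟨x, rfl⟩)
  refine ⟨fun z => Real.log (M z), ?_, ?_⟩
  · exact hMc.log (fun z hz => (hpos z hz).ne')
  · intro z hz
    rw [Real.exp_log (hpos z hz)]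
    exact hlub z hz

end GAM
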