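import Pool.Agent.GAM.StD2

/-!
# GAM [Symp]: unimodular lattices for alternating forms over `ℚ`
-/

set_option autoImplicit false

namespace GAM

/-- Families with a dual family. -/
def Symp_P (V : Type) [AddCommGroup V] [Module ℚ V] (B : V →ₗ[ℚ] V →ₗ[ℚ] ℚ) : Prop :=
  ∃ (κ : Type) (_ : Fintype κ) (_ : DecidableEq κ) (e e' : κ → V),
    (∀ i j, B (e i) (e' j) = if i = j then 1 else 0) ∧
    (∀ i j, ∃ m : ℤ, B (e i) (e j) = m) ∧
    (∀ j, e' j ∈ Submodule.span ℤ (Set.range e)) ∧
    ∀ v, v = ∑ i, B v (e' i) • e i

lemma Symp_main : ∀ (n : ℕ) (V : Type) [AddCommGroup V] [Module ℚ V] [FiniteDimensional ℚ V]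
    (B : V →ₗ[ℚ] V →ₗ[ℚ] ℚ), Module.finrank ℚ V = n → (∀ x, B x x = 0) →
    (∀ x, (∀ y, B x y = 0) → x = 0) → Symp_P V B := by
  intro n
  induction n using Nat.strong_induction_on with
  | _ n ih =>
    intro V _ _ _ B hn hB hnd
    have hanti : ∀ x y, B x y = - B y x := by
      intro x y
      have h := hB (x + y)
      rw [map_add, map_add, LinearMap.add_apply, LinearMap.add_apply, hB, hB] at h
      linarith
    by_cases hV : ∃ x : V, x ≠ 0
    · obtain ⟨x, hx⟩ := hV
      have h1 : ∃ y, B x y ≠ 0 := by
        by_contra h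
        push Not at h
        exact hx (hnd x h)
      obtain ⟨y₀, hy₀⟩ := h1
      obtain ⟨y, hxy⟩ : ∃ y, B x y = 1 := ⟨(B x y₀)⁻¹ • y₀, by
        rw [map_smul, smul_eq_mul, inv_mul_cancel₀ hy₀]⟩
      have hyx : B y x = -1 := by rw [hanti, hxy]
      set W : Submodule ℚ V := LinearMap.ker (B x) ⊓ LinearMap.ker (B y) with hW
      have hWx : ∀ w ∈ W, B x w = 0 := fun w hw => LinearMap.mem_ker.1 hw.1
      have hWy : ∀ w ∈ W, B y w = 0 := fun w hw => LinearMap.mem_ker.1 hw.2
      have hWx' : ∀ w ∈ W, B w x = 0 := fun w hw => by rw [hanti, hWx w hw, neg_zero]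
      have hWy' : ∀ w ∈ W, B w y = 0 := fun w hw => by rw [hanti, hWy w hw, neg_zero]
      have hdec : ∀ v, v - B v y • x + B v x • y ∈ W := by
        intro v
        refine ⟨LinearMap.mem_ker.2 ?_, LinearMap.mem_ker.2 ?_⟩
        · rw [map_add, map_sub, map_smul, map_smul, hB, hxy, hanti x v]
          simp
        · rw [map_add, map_sub, map_smul, map_smul, hB, hyx, hanti y v]
          simp
      have hlt : Module.finrank ℚ W < n := by
        rw [← hn]
        apply Submodule.finrank_lt
        intro htop
        have h2 : y ∈ W := by rw [htop]; trivial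
        have h3 := hWx y h2
        rw [hxy] at h3
        exact one_ne_zero h3
      obtain ⟨κ, _, _, e, e', h1, h2, h3, h4⟩ := ih _ hlt W
        ((B.domRestrict W).compl₂ W.subtype) rfl (fun w => hB w) (by
          intro w hw
          apply Subtype.ext
          apply hnd
          intro v
          have h5 := hw ⟨_, hdec v⟩
          have h6 : B w (v - B v y • x + B v x • y) = 0 := h5
          rw [map_add, map_sub, map_smul, map_smul, hWx' w w.2, hWy' w w.2] at h6
          simpa using h6)
      have h1' : ∀ i j, B (e i) (e' j) = if i = j then 1 else 0 := h1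
      have h2' : ∀ i j, ∃ m : ℤ, B (e i) (e j) = m := h2
      have h4' : ∀ w : W, (w : V) = ∑ i, B w (e' i) • (e i : V) := by
        intro w
        have := congrArg (fun w : W => (w : V)) (h4 w)
        simpa using this
      refine ⟨κ ⊕ Bool, inferInstance, inferInstance,
        Sum.elim (fun i => (e i : V)) (fun b => if b then x else y),
        Sum.elim (fun i => (e' i : V)) (fun b => if b then y else -x), ?_, ?_, ?_, ?_⟩
      · rintro (i | i) (j | j)
        · simp only [Sum.elim_inl, Sum.inl.injEq]
          exact h1' i j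
        · cases j
          · simp [hWx' _ (e i).2]
          · simp [hWy' _ (e i).2]
        · cases i
          · simp [hWy _ (e' j).2]
          · simp [hWx _ (e' j).2]
        · cases i <;> cases j <;> simp [hxy, hyx, hB]
      · rintro (i | i) (j | j)
        · exact h2' i j
        · refine ⟨0, ?_⟩
          cases j
          · simp [hWy' _ (e i).2]
          · simp [hWx' _ (e i).2]
        · refine ⟨0, ?_⟩
          cases i
          · simp [hWy _ (e j).2]
          · simp [hWx _ (e j).2]
        · cases i <;> cases j
          · exact ⟨0, by simp [hB]⟩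
          · exact ⟨-1, by simp [hyx]⟩
          · exact ⟨1, by simp [hxy]⟩
          · exact ⟨0, by simp [hB]⟩
      · rintro (j | j)
        · have h5 := h3 j
          have h6 : (e' j : V) ∈ (Submodule.span ℤ (Set.range e)).map
              ((W.subtype).restrictScalars ℤ) := ⟨_, h5, rfl⟩
          rw [Submodule.map_span] at h6
          refine Submodule.span_mono ?_ h6
          rintro _ ⟨_, ⟨i, rfl⟩, rfl⟩
          exact ⟨Sum.inl i, rfl⟩
        · cases j
          · simp only [Sum.elim_inr, Bool.false_eq_true, if_false]
            exact Submodule.neg_mem _ (Submodule.subset_span ⟨Sum.inr true, by simp⟩)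
          · simp only [Sum.elim_inr, if_true]
            exact Submodule.subset_span ⟨Sum.inr false, by simp⟩
      · intro v
        rw [Fintype.sum_sum_type]
        simp only [Sum.elim_inl, Sum.elim_inr, Fintype.sum_bool, if_true, Bool.false_eq_true,
          if_false]
        have h5 := h4' ⟨_, hdec v⟩
        have h6 : ∀ i, B (v - B v y • x + B v x • y) (e' i) = B v (e' i) := by
          intro i
          rw [map_add, map_sub, map_smul, map_smul, LinearMap.add_apply, LinearMap.sub_apply,
            LinearMap.smul_apply, LinearMap.smul_apply, hWx _ (e' i).2, hWy _ (e' i).2]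
          simp
        simp only [h6] at h5
        rw [← h5, map_neg, neg_smul]
        abel
    · push Not at hV
      refine ⟨Empty, inferInstance, inferInstance, Empty.elim, Empty.elim, ?_, ?_, ?_, ?_⟩
      · exact fun i => i.elim
      · exact fun i => i.elim
      · exact fun i => i.elim
      · intro v
        rw [hV v]
        simp

theorem thm_Symp : St_Symp := by
  intro V _ _ _ B hB hnd
  obtain ⟨κ, _, _, e, e', h1, h2, h3, h4⟩ := Symp_main _ V B rfl hB hnd
  have hli : LinearIndependent ℚ e := by
    rw [Fintype.linearIndependent_iff]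
    intro g hg j
    have h5 := congrArg (fun v => B v (e' j)) hg
    simp only [map_sum, map_smul, LinearMap.sum_apply, LinearMap.smul_apply, h1, map_zero,
      LinearMap.zero_apply, smul_eq_mul, mul_ite, mul_one, mul_zero] at h5
    simpa using h5
  have hsp : ⊤ ≤ Submodule.span ℚ (Set.range e) := by
    intro v _
    rw [h4 v]
    exact Submodule.sum_mem _ fun i _ => Submodule.smul_mem _ _ (Submodule.subset_span ⟨i, rfl⟩)
  set b : Module.Basis κ ℚ V := Module.Basis.mk hli hsp with hb
  have hbe : ∀ i, b i = e i := fun i => by rw [hb, Module.Basis.mk_apply]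
  have hr : Set.range (b.reindex (Fintype.equivFin κ)) = Set.range e := by
    rw [Module.Basis.range_reindex]
    exact congrArg Set.range (funext hbe)
  refine ⟨Fintype.card κ, b.reindex (Fintype.equivFin κ), ?_, ?_⟩
  · intro i j
    rw [Module.Basis.reindex_apply, Module.Basis.reindex_apply, hbe, hbe]
    exact h2 _ _
  · intro x hx
    rw [hr]
    have h5 : ∀ j, ∃ m : ℤ, B x (e j) = m := by
      intro j
      have := hx (Fintype.equivFin κ j)
      rwa [Module.Basis.reindex_apply, Equiv.symm_apply_apply, hbe] at this
    have h6 : ∀ v ∈ Submodule.span ℤ (Set.range e), ∃ m : ℤ, B x v = m := by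
      intro v hv
      induction hv using Submodule.span_induction with
      | mem v hv =>
        obtain ⟨i, rfl⟩ := hv
        exact h5 i
      | zero => exact ⟨0, by simp⟩
      | add v w _ _ hv hw =>
        obtain ⟨m, hm⟩ := hv
        obtain ⟨m', hm'⟩ := hw
        exact ⟨m + m', by rw [map_add, hm, hm']; push_cast; ring⟩
      | smul a v _ hv =>
        obtain ⟨m, hm⟩ := hv
        exact ⟨a * m, by rw [map_zsmul, hm, zsmul_eq_mul]; push_cast; ring⟩
    rw [h4 x]
    refine Submodule.sum_mem _ fun i _ => ?_
    obtain ⟨m, hm⟩ := h6 _ (h3 i)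
    rw [hm, Int.cast_smul_eq_zsmul]
    exact Submodule.smul_mem _ _ (Submodule.subset_span ⟨i, rfl⟩)

end GAM
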