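import Pool.Agent.GAM.FCalc

/-!
# GAM [ThUn]
-/

set_option autoImplicit false

namespace GAM

open scoped ComplexConjugate

open Complex

section

variable {ι : Type} [Fintype ι] {L : Submodule ℤ (ι → ℂ)} {χ θ θ' : (ι → ℂ) → ℂ}

private lemma ThUn_conj {f : (ι → ℂ) → ℂ} (hf : Differentiable ℂ f) :
    Differentiable ℂ fun y : ι → ℂ => conj (f (star y)) := by
  intro y
  have h : DifferentiableAt ℂ f (star y) := hf _
  have h2 := h.star_star
  rw [star_star] at h2
  exact h2

/-- the function `psi_1 conj psi_2` -/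
private noncomputable def ThUn_f (θ θ' : (ι → ℂ) → ℂ) (x : ι → ℂ) : ℂ :=
  θ x * conj (θ' x) * exp (-(Real.pi * H x x))

private lemma ThUn_cont (h : Differentiable ℂ θ) (h' : Differentiable ℂ θ') :
    Continuous (ThUn_f θ θ') := by
  have h1 := h.continuous
  have h2 := h'.continuous
  have h3 : Continuous fun x : ι → ℂ => H x x := by unfold H; fun_prop
  unfold ThUn_f
  have h4 : Continuous fun x : ι → ℂ => conj (θ' x) := Complex.continuous_conj.comp h2
  fun_prop

private lemma ThUn_char (h : PLat L χ) {l : ι → ℂ} (hl : l ∈ L) : χ l * conj (χ l) = 1 := by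
  rcases h.pm l hl with h2 | h2 <;> rw [h2] <;> simp

private lemma ThUn_per (h : PLat L χ) (h1 : IsTh L χ θ) (h2 : IsTh L χ θ') :
    ∀ l ∈ L, ∀ v, ThUn_f θ θ' (v + l) = ThUn_f θ θ' v := by
  intro l hl v
  unfold ThUn_f
  rw [h1.quasi l hl, h2.quasi l hl]
  have e1 : conj (χ l * exp (Real.pi * H v l + Real.pi / 2 * H l l) * θ' v) =
      conj (χ l) * exp (Real.pi * H l v + Real.pi / 2 * H l l) * conj (θ' v) := by
    rw [map_mul, map_mul, ← Complex.exp_conj]
    congr 3
    simp only [map_add, map_mul, map_div₀, Complex.conj_ofReal, H_conj, map_ofNat]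
  rw [e1]
  have e2 : exp (Real.pi * H v l + Real.pi / 2 * H l l) *
      exp (Real.pi * H l v + Real.pi / 2 * H l l) * exp (-(Real.pi * H (v + l) (v + l))) =
      exp (-(Real.pi * H v v)) := by
    rw [← Complex.exp_add, ← Complex.exp_add]
    congr 1
    rw [H_add_left, H_add_right, H_add_right]
    ring
  calc _ = (χ l * conj (χ l)) * (θ v * conj (θ' v)) *
        (exp (Real.pi * H v l + Real.pi / 2 * H l l) *
      exp (Real.pi * H l v + Real.pi / 2 * H l l) * exp (-(Real.pi * H (v + l) (v + l)))) := by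
        ring
    _ = _ := by rw [e2, ThUn_char h hl, one_mul]

private noncomputable def ThUn_g (l x y : ι → ℂ) : ℂ := ∑ a, (x a - l a) * (y a + conj (l a))

private lemma ThUn_g_star (l x : ι → ℂ) : ThUn_g l x (star x) = H x x + 2 * I * E x l - H l l := by
  have h1 : ThUn_g l x (star x) = H (x - l) (x + l) := by
    unfold ThUn_g H
    apply Finset.sum_congr rfl
    intro a _
    simp
  rw [h1, H_sub_left, H_add_right, H_add_right, H_swap x l]
  ring

private lemma ThUn_g_star' (l x : ι → ℂ) : ThUn_g l (x + l) (star x) = H x x + H x l := by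
  have h1 : ThUn_g l (x + l) (star x) = H x (x + l) := by
    unfold ThUn_g H
    apply Finset.sum_congr rfl
    intro a _
    simp
  rw [h1, H_add_right]

private lemma ThUn_g_add (l m x y : ι → ℂ) : ThUn_g l (x + m) (y + star m) =
    ThUn_g l x y + H x m + H m (star y) + H m m - 2 * I * E l m := by
  have h1 : 2 * I * E l m = H l m - H m l := by rw [H_swap l m]; ring
  rw [h1]
  unfold ThUn_g H
  rw [← Finset.sum_add_distrib, ← Finset.sum_add_distrib, ← Finset.sum_add_distrib,
    ← Finset.sum_sub_distrib, ← Finset.sum_sub_distrib]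
  apply Finset.sum_congr rfl
  intro a _
  simp
  ring

/-- the Fourier coefficients -/
private lemma ThUn_coef (h2 : St_Avg) (h : PLat L χ) (ht : IsTh L χ θ) (ht' : IsTh L χ θ')
    (b : Module.Basis (ι ⊕ ι) ℝ (ι → ℂ)) (hb : L = Submodule.span ℤ (Set.range b))
    {l : ι → ℂ} (hl : l ∈ L) :
    avg b (fun x => ThUn_f θ θ' x * exp (-(2 * Real.pi * I * E x l))) * exp (Real.pi * H l l) =
      χ l * exp (Real.pi / 2 * H l l) * avg b (ThUn_f θ θ') := by
  set Ψ : (ι → ℂ) × (ι → ℂ) → ℂ := fun p =>
    θ p.1 * conj (θ' (star p.2)) * exp (-(Real.pi * ThUn_g l p.1 p.2)) with hΨ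
  have hd : Differentiable ℂ Ψ := by
    have d1 : Differentiable ℂ fun p : (ι → ℂ) × (ι → ℂ) => θ p.1 := ht.ent.comp differentiable_fst
    have d2 : Differentiable ℂ fun p : (ι → ℂ) × (ι → ℂ) => conj (θ' (star p.2)) :=
      (ThUn_conj ht'.ent).comp differentiable_snd
    have d3 : Differentiable ℂ fun p : (ι → ℂ) × (ι → ℂ) => ThUn_g l p.1 p.2 := by
      unfold ThUn_g
      fun_prop
    rw [hΨ]
    exact (d1.mul d2).mul (by fun_prop)
  have hi : ∀ m ∈ L, ∀ x y, Ψ (x + m, y + star m) = Ψ (x, y) := by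
    intro m hm x y
    simp only [hΨ]
    rw [star_add, star_star, ht.quasi m hm, ht'.quasi m hm, ThUn_g_add]
    have e1 : conj (χ m * exp (Real.pi * H (star y) m + Real.pi / 2 * H m m) * θ' (star y)) =
        conj (χ m) * exp (Real.pi * H m (star y) + Real.pi / 2 * H m m) *
          conj (θ' (star y)) := by
      rw [map_mul, map_mul, ← Complex.exp_conj]
      congr 3
      simp only [map_add, map_mul, map_div₀, Complex.conj_ofReal, H_conj, map_ofNat]
    rw [e1]
    obtain ⟨n, hn⟩ := h.int l hl m hm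
    have e2 : exp (Real.pi * H x m + Real.pi / 2 * H m m) *
        exp (Real.pi * H m (star y) + Real.pi / 2 * H m m) *
        exp (-(Real.pi * (ThUn_g l x y + H x m + H m (star y) + H m m -
          2 * I * E l m))) = exp (-(Real.pi * ThUn_g l x y)) := by
      rw [← Complex.exp_add, ← Complex.exp_add, hn]
      have : (Real.pi * H x m + Real.pi / 2 * H m m +
          (Real.pi * H m (star y) + Real.pi / 2 * H m m) +
          -(Real.pi * (ThUn_g l x y + H x m + H m (star y) + H m m - 2 * I * ((n : ℝ) : ℂ)))) =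
          -(Real.pi * ThUn_g l x y) + n * (2 * Real.pi * I) := by
        push_cast
        ring
      rw [this, Complex.exp_add, Complex.exp_int_mul_two_pi_mul_I, mul_one]
    calc _ = (χ m * conj (χ m)) * (θ x * conj (θ' (star y))) *
          (exp (Real.pi * H x m + Real.pi / 2 * H m m) *
        exp (Real.pi * H m (star y) + Real.pi / 2 * H m m) *
        exp (-(Real.pi * (ThUn_g l x y + H x m + H m (star y) + H m m -
          2 * I * E l m)))) := by ring
      _ = _ := by rw [e2, ThUn_char h hm, one_mul]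
  have key := h2 ι L b Ψ hb hd hi l
  have k1 : (fun x => Ψ (x + l, star x)) = fun x =>
      χ l * exp (Real.pi / 2 * H l l) * ThUn_f θ θ' x := by
    funext x
    simp only [hΨ]
    rw [star_star, ht.quasi l hl, ThUn_g_star']
    unfold ThUn_f
    have e2 : exp (Real.pi * H x l + Real.pi / 2 * H l l) *
        exp (-(Real.pi * (H x x + H x l))) =
        exp (Real.pi / 2 * H l l) * exp (-(Real.pi * H x x)) := by
      rw [← Complex.exp_add, ← Complex.exp_add]
      congr 1
      ring
    calc _ = χ l * (θ x * conj (θ' x)) * (exp (Real.pi * H x l + Real.pi / 2 * H l l) *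
        exp (-(Real.pi * (H x x + H x l)))) := by ring
      _ = _ := by rw [e2]; ring
  have k2 : (fun x => Ψ (x, star x)) = fun x =>
      exp (Real.pi * H l l) * (ThUn_f θ θ' x * exp (-(2 * Real.pi * I * E x l))) := by
    funext x
    simp only [hΨ]
    rw [star_star, ThUn_g_star]
    unfold ThUn_f
    have e2 : exp (-(Real.pi * (H x x + 2 * I * E x l - H l l))) =
        exp (Real.pi * H l l) * (exp (-(Real.pi * H x x)) * exp (-(2 * Real.pi * I * E x l))) := by
      rw [← Complex.exp_add, ← Complex.exp_add]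
      congr 1
      ring
    rw [e2]
    ring
  rw [k1, k2] at key
  have m1 : ∀ (c : ℂ) (g : (ι → ℂ) → ℂ), avg b (fun x => c * g x) = c * avg b g := by
    intro c g
    unfold avg
    rw [MeasureTheory.integral_const_mul]
  rw [m1, m1] at key
  rw [mul_comm, ← key]

/-- if the average vanishes, one of the functions is zero -/
private lemma ThUn_zero (h1 : St_Four) (h2 : St_Avg) (h : PLat L χ) (ht : IsTh L χ θ)
    (ht' : IsTh L χ θ') (b : Module.Basis (ι ⊕ ι) ℝ (ι → ℂ))
    (hb : L = Submodule.span ℤ (Set.range b)) (h0 : avg b (ThUn_f θ θ') = 0) (v : ι → ℂ) :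
    θ v * θ' v = 0 := by
  have hf := h1 ι L χ b (ThUn_f θ θ') h hb (ThUn_cont ht.ent ht'.ent) (ThUn_per h ht ht') (by
    intro l hl
    have := ThUn_coef h2 h ht ht' b hb hl
    rw [h0, mul_zero] at this
    exact (mul_eq_zero.1 this).resolve_right (exp_ne_zero _)) v
  unfold ThUn_f at hf
  rcases mul_eq_zero.1 ((mul_eq_zero.1 hf).resolve_right (exp_ne_zero _)) with h3 | h3
  · rw [h3, zero_mul]
  · have : θ' v = 0 := by
      rwa [map_eq_zero] at h3
    rw [this, mul_zero]

private lemma ThUn_int (b : Module.Basis (ι ⊕ ι) ℝ (ι → ℂ)) {g : (ι → ℂ) → ℂ}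
    (hg : Continuous g) : MeasureTheory.IntegrableOn (fun t : ι ⊕ ι → ℝ => g (∑ i, t i • b i))
      (Set.Icc (0 : ι ⊕ ι → ℝ) 1) := by
  apply ContinuousOn.integrableOn_compact isCompact_Icc
  apply Continuous.continuousOn
  exact hg.comp (by fun_prop)

end

theorem thm_ThUn (h1 : St_Four) (h2 : St_Avg) : St_ThUn := by
  intro ι _ L χ θ θ' h ht ht' h0
  obtain ⟨b, hb⟩ := h.basis
  have hN : avg b (ThUn_f θ θ) ≠ 0 := by
    intro hN
    obtain ⟨v, hv⟩ := h0
    exact hv (mul_self_eq_zero.1 (ThUn_zero h1 h2 h ht ht b hb hN v))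
  set c : ℂ := avg b (ThUn_f θ' θ) / avg b (ThUn_f θ θ) with hc
  refine ⟨c, ?_⟩
  have ht'' : IsTh L χ fun v => θ' v - c * θ v := by
    refine ⟨ht'.ent.sub (ht.ent.const_mul c), ?_⟩
    intro l hl v
    show θ' (v + l) - c * θ (v + l) = _ * (θ' v - c * θ v)
    rw [ht'.quasi l hl, ht.quasi l hl]
    ring
  have hz : avg b (ThUn_f (fun v => θ' v - c * θ v) θ) = 0 := by
    have e1 : ThUn_f (fun v => θ' v - c * θ v) θ = fun x => ThUn_f θ' θ x - c * ThUn_f θ θ x := by
      funext x
      unfold ThUn_f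
      ring
    rw [e1]
    have e2 : avg b (fun x => ThUn_f θ' θ x - c * ThUn_f θ θ x) =
        avg b (ThUn_f θ' θ) - c * avg b (ThUn_f θ θ) := by
      unfold avg
      rw [MeasureTheory.integral_sub (ThUn_int b (ThUn_cont ht'.ent ht.ent))
        ((ThUn_int b (ThUn_cont ht.ent ht.ent)).const_mul c), MeasureTheory.integral_const_mul]
    rw [e2, hc, div_mul_cancel₀ _ hN, sub_self]
  intro v
  have h3 := ThUn_zero h1 h2 h ht'' ht b hb hz
  have h4 := ent_mul (f := θ) (g := fun v => θ' v - c * θ v) ht.ent ht''.ent (by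
    intro v
    rw [mul_comm]
    exact h3 v) h0 v
  exact sub_eq_zero.1 h4

end GAM
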