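import Pool.Agent.GAM.FCalc

/-!
# GAM [ThUx]
-/

set_option autoImplicit false

namespace GAM

open scoped ComplexConjugate

open Complex

theorem thm_ThUx (h1 : St_ThUn) : St_ThUx := by
  intro ι _ L χ θ h ht h0 x f hf hq
  have hg : IsTh L χ fun v => f (v - x) * exp (Real.pi * H v x) := by
    refine ⟨?_, ?_⟩
    · have d1 : Differentiable ℂ fun v : ι → ℂ => f (v - x) :=
        hf.comp (differentiable_id.sub_const x)
      have d2 := differentiable_H x
      exact d1.mul (by fun_prop)
    · intro l hl v
      show f (v + l - x) * exp (Real.pi * H (v + l) x) = _ * (f (v - x) * exp (Real.pi * H v x))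
      rw [show v + l - x = (v - x) + l by abel, hq l hl]
      have e : exp (2 * Real.pi * I * E x l) * exp (Real.pi * H (v - x) l + Real.pi / 2 * H l l) *
          exp (Real.pi * H (v + l) x) = exp (Real.pi * H v l + Real.pi / 2 * H l l) *
          exp (Real.pi * H v x) := by
        rw [← Complex.exp_add, ← Complex.exp_add, ← Complex.exp_add]
        congr 1
        rw [H_sub_left, H_add_left, H_swap x l]
        ring
      calc χ l * exp (2 * Real.pi * I * E x l) *
            exp (Real.pi * H (v - x) l + Real.pi / 2 * H l l) * f (v - x) *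
            exp (Real.pi * H (v + l) x)
          = χ l * (exp (2 * Real.pi * I * E x l) *
            exp (Real.pi * H (v - x) l + Real.pi / 2 * H l l) *
            exp (Real.pi * H (v + l) x)) * f (v - x) := by ring
        _ = _ := by rw [e]; ring
  obtain ⟨c, hc⟩ := h1 ι L χ θ _ h ht hg h0
  refine ⟨c * exp (-(Real.pi / 2 * H x x)), ?_⟩
  intro v
  have h2 := hc (x + v)
  rw [show x + v - x = v by abel] at h2
  have e : exp (Real.pi * H (x + v) x) * exp (-(Real.pi * H (x + v) x)) = 1 := by
    rw [← Complex.exp_add, add_neg_cancel, Complex.exp_zero]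
  have h3 : f v = c * θ (x + v) * exp (-(Real.pi * H (x + v) x)) := by
    rw [← h2, mul_assoc, e, mul_one]
  rw [h3]
  unfold F
  have e2 : exp (-(Real.pi * H (x + v) x)) = exp (-(Real.pi / 2 * H x x)) *
      exp (-(Real.pi * H v x) - Real.pi / 2 * H x x) := by
    rw [← Complex.exp_add]
    congr 1
    rw [H_add_left]
    ring
  rw [e2]
  ring

end GAM
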