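import Pool.Agent.GAM.StD2

/-!
# GAM: complex multiplication on the lattice of the basis `e`
-/

set_option autoImplicit false

namespace GAM

open scoped ComplexConjugate

theorem TorC_den {V : Type} [AddCommGroup V] [Module ℚ V] {n : ℕ}
    (b : Module.Basis (Fin n) ℚ V) (y : V) :
    ∃ N : ℕ, N ≠ 0 ∧ (N : ℤ) • y ∈ Submodule.span ℤ (Set.range b) := by
  classical
  obtain ⟨q, hq⟩ : ∃ q : Fin n → ℚ, ∀ j, b.repr y j = q j := ⟨_, fun _ => rfl⟩
  have hy : y = ∑ j, q j • b j := by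
    simp only [← hq]
    exact (b.sum_repr y).symm
  refine ⟨∏ j, (q j).den, Finset.prod_ne_zero_iff.2 fun j _ => (q j).den_ne_zero, ?_⟩
  have h1 : ((∏ j, (q j).den : ℕ) : ℤ) • y =
      ∑ j, ((∏ i ∈ Finset.univ.erase j, (q i).den : ℕ) * (q j).num : ℤ) • b j := by
    rw [hy, Finset.smul_sum]
    refine Finset.sum_congr rfl fun j _ => ?_
    rw [← Int.cast_smul_eq_zsmul ℚ, ← Int.cast_smul_eq_zsmul ℚ, smul_smul]
    congr 1
    have h2 : ((q j).den : ℚ) * q j = (q j).num := Rat.den_mul_eq_num _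
    rw [← Finset.mul_prod_erase Finset.univ (fun j => (q j).den) (Finset.mem_univ j)]
    push_cast
    rw [← h2]
    ring
  rw [h1]
  exact Submodule.sum_mem _ fun j _ => Submodule.smul_mem _ _ (Submodule.subset_span ⟨j, rfl⟩)

theorem TorC_den2 {V : Type} [AddCommGroup V] [Module ℚ V] {n : ℕ}
    (b : Module.Basis (Fin n) ℚ V) (T : V →+ V) :
    ∃ N : ℕ, N ≠ 0 ∧ ∀ x ∈ Submodule.span ℤ (Set.range b),
      (N : ℤ) • T x ∈ Submodule.span ℤ (Set.range b) := by
  classical
  choose N hN hm using fun i => TorC_den b (T (b i))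
  refine ⟨∏ i, N i, Finset.prod_ne_zero_iff.2 fun i _ => hN i, fun x hx => ?_⟩
  induction hx using Submodule.span_induction with
  | mem x hx =>
    obtain ⟨i, rfl⟩ := hx
    rw [← Finset.prod_erase_mul Finset.univ N (Finset.mem_univ i)]
    push_cast
    rw [mul_smul]
    exact Submodule.smul_mem _ _ (hm i)
  | zero => simp
  | add x y _ _ hx hy =>
    rw [map_add, smul_add]
    exact Submodule.add_mem _ hx hy
  | smul a x _ hx =>
    rw [map_zsmul, smul_comm]
    exact Submodule.smul_mem _ _ hx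

/-- A primitive element separates the embeddings. -/
theorem TorC_prim (K : Type) [Field K] [NumberField K] :
    ∃ α : K, ∀ σ τ : K →+* ℂ, σ α = τ α → σ = τ := by
  obtain ⟨α, hα⟩ := Field.exists_primitive_element ℚ K
  refine ⟨α, fun σ τ h => ?_⟩
  have h1 : σ.toRatAlgHom = τ.toRatAlgHom :=
    (Field.primitive_element_iff_algHom_eq_of_eval ℚ ℂ (fun _ => IsAlgClosed.splits _) α
      σ.toRatAlgHom).1 hα τ.toRatAlgHom h
  ext x
  exact DFunLike.congr_fun h1 x

/-- A natural number outside of a finite set of complex numbers. -/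
theorem TorC_q (s : Set ℂ) (hs : s.Finite) : ∃ q : ℕ, (q : ℂ) ∉ s := by
  by_contra hcon
  push Not at hcon
  exact Set.infinite_univ (Set.Finite.subset (hs.preimage (Nat.cast_injective.injOn))
    (fun q _ => hcon q))

theorem TorC_alg (K : Type) [Field K] [NumberField K] (σ : K →+* ℂ) (x : K) :
    IsAlgebraic ℚ (σ x) := by
  have h1 : IsAlgebraic ℚ x := Algebra.IsAlgebraic.isAlgebraic x
  exact h1.algHom σ.toRatAlgHom

theorem thm_TorC : St_TorC := by
  classical
  intro K _ _ c S _ _ φ φ' n e r L hK hφ hφ' hL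
  obtain ⟨α, hα⟩ := TorC_prim K
  obtain ⟨q, hq⟩ := TorC_q (Set.range fun p : (K →+* ℂ) × (K →+* ℂ) => p.1 α - p.2 α)
    (Set.finite_range _)
  have hq' : ∀ σ τ : K →+* ℂ, σ α ≠ τ α + q := by
    intro σ τ h
    exact hq ⟨(σ, τ), by simp only [h]; ring⟩
  have hT : ∃ T : K × K →+ K × K, ∀ x, T x = (α * x.1, (α + (q : K)) * x.2) :=
    ⟨(AddMonoidHom.mulLeft α).prodMap (AddMonoidHom.mulLeft (α + (q : K))), fun x => rfl⟩
  obtain ⟨T, hT⟩ := hT
  obtain ⟨N, hN, hNT⟩ := TorC_den2 e T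
  have hN' : (N : ℂ) ≠ 0 := Nat.cast_ne_zero.2 hN
  have inj : ∀ ψ : S → K →+* ℂ, CMT K c ψ → ∀ a b, a ≠ b → ψ a ≠ ψ b := by
    intro ψ hψ a b hab h
    have := @hψ.1 (Sum.inl a) (Sum.inl b) h
    exact hab (Sum.inl.inj this)
  have inj' : ∀ ψ : S → K →+* ℂ, CMT K c ψ → ∀ a b, (ψ a).comp c ≠ ψ b := by
    intro ψ hψ a b h
    have := @hψ.1 (Sum.inr a) (Sum.inl b) h
    cases this
  have hcc : ∀ (σ : K →+* ℂ) (x : K), conj (σ x) = (σ.comp c) x := fun σ x => hK.cc σ x
  refine ⟨fun p => if p.2 = 0 then φ p.1 ((N : K) * α) else φ' p.1 ((N : K) * (α + (q : K))),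
    ?_, ?_, ?_, ?_⟩
  · rintro ⟨s, i⟩
    dsimp only
    split_ifs
    · exact TorC_alg K _ _
    · exact TorC_alg K _ _
  · intro l hl
    obtain ⟨x, hx, rfl⟩ := (hL l).1 hl
    refine (hL _).2 ⟨(N : ℤ) • T x, hNT x hx, ?_⟩
    ext ⟨s, i⟩
    simp only [coor, hT]
    fin_cases i
    · simp
      ring
    · simp
      ring
  · rintro ⟨a, i⟩ ⟨b, j⟩ hab
    fin_cases i <;> fin_cases j
    · have h1 : a ≠ b := by
        rintro rfl
        exact hab rfl
      have h2 : φ a α ≠ φ b α := fun h => inj φ hφ a b h1 (hα _ _ h)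
      simpa [hN'] using h2
    · have h2 := hq' (φ a) (φ' b)
      simpa [hN'] using h2
    · have h2 := (hq' (φ b) (φ' a)).symm
      simpa [hN'] using h2
    · have h1 : a ≠ b := by
        rintro rfl
        exact hab rfl
      have h2 : φ' a α ≠ φ' b α := fun h => inj φ' hφ' a b h1 (hα _ _ h)
      simpa [hN'] using h2
  · rintro ⟨a, i⟩ ⟨b, j⟩
    fin_cases i <;> fin_cases j
    · have h2 : ((φ a).comp c) α ≠ φ b α := fun h => inj' φ hφ a b (hα _ _ h)
      rw [← hcc] at h2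
      simpa [hN'] using h2
    · have h2 := hq' ((φ a).comp c) (φ' b)
      rw [← hcc] at h2
      simpa [hN'] using h2
    · have h2 := (hq' (φ b) ((φ' a).comp c)).symm
      rw [← hcc] at h2
      simpa [hN'] using h2
    · have h2 : ((φ' a).comp c) α ≠ φ' b α := fun h => inj' φ' hφ' a b (hα _ _ h)
      rw [← hcc] at h2
      simpa [hN'] using h2

end GAM
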