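import Pool.Agent.GAM.StA
import Pool.Agent.GAM.FinD

/-!
# GAM [TorD]: algebraic dependence of quotients of theta functions
-/

set_option autoImplicit false

namespace GAM

open scoped ComplexConjugate

lemma TorD_hom {κ : Type} [Fintype κ] {P : MvPolynomial κ ℂ} {m : ℕ} (hP : P.IsHomogeneous m)
    (c : ℂ) (x : κ → ℂ) : MvPolynomial.eval (fun i => c * x i) P = c ^ m *
      MvPolynomial.eval x P := by
  classical
  rw [MvPolynomial.eval_eq', MvPolynomial.eval_eq', Finset.mul_sum]
  refine Finset.sum_congr rfl fun d hd => ?_
  have h1 : ∑ i, d i = m := by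
    have h2 := hP (MvPolynomial.mem_support_iff.1 hd)
    rw [← h2, Finsupp.weight_apply, Finsupp.sum_fintype _ _ (by simp)]
    simp
  simp only [mul_pow]
  rw [Finset.prod_mul_distrib, Finset.prod_pow_eq_pow_sum, h1]
  ring

lemma TorD_prod {ι κ : Type} [Fintype ι] (s : Finset κ) (f : κ → (ι → ℂ) → ℂ)
    (hf : ∀ i, Differentiable ℂ (f i)) : Differentiable ℂ (fun v => ∏ i ∈ s, f i v) := by
  classical
  induction s using Finset.induction_on with
  | empty => simp
  | insert a s ha ih =>
    simp only [Finset.prod_insert ha]
    exact (hf a).mul ih

theorem thm_TorD (h1 : St_Sieg) : St_TorD := by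
  classical
  intro ι κ _ _ hcard Λ hΛ a b ha hb hb0 hfac
  choose e N hF hea heb using hfac
  obtain ⟨K, hK, _, hdom⟩ := FinD_dom hΛ
  set f : Option κ → (ι → ℂ) → ℂ := fun o => Option.elim o (fun v => ∏ i, b i v)
    (fun i v => a i v * ∏ j ∈ Finset.univ.erase i, b j v) with hf
  obtain ⟨m, P, hP0, hPm, hPz⟩ := h1 ι (Option κ)
    (by rw [Fintype.card_option, hcard]) Set.univ K (fun v => ∑ i, N i v) f isOpen_univ
    (by
      apply Continuous.continuousOn
      exact continuous_finsetSum _ fun i _ => (hF i).cont)
    hK (Set.subset_univ K)
    (by
      intro o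
      apply Differentiable.differentiableOn
      cases o with
      | none => exact TorD_prod _ _ hb
      | some i => exact (ha i).mul (TorD_prod _ _ hb))
    (by
      intro z _
      obtain ⟨k, hk, l, hl, rfl⟩ := hdom z
      refine ⟨k, hk, ∏ i, e i l k, ?_, ?_⟩
      · rw [norm_prod]
        have : ∀ i, ‖e i l k‖ = Real.exp (N i (k + l) - N i k) := fun i => (hF i).norm l hl k
        simp only [this]
        rw [← Real.exp_sum, ← Real.exp_add, Finset.sum_sub_distrib]
        congr 1
        ring
      · intro o
        cases o with
        | none =>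
          simp only [hf, Option.elim]
          rw [← Finset.prod_mul_distrib]
          exact Finset.prod_congr rfl fun i _ => heb i l hl k
        | some i =>
          simp only [hf, Option.elim]
          rw [← Finset.mul_prod_erase Finset.univ (fun i => e i l k) (Finset.mem_univ i),
            hea i l hl k]
          have : ∏ j ∈ Finset.univ.erase i, b j (k + l) =
              (∏ j ∈ Finset.univ.erase i, e j l k) * ∏ j ∈ Finset.univ.erase i, b j k := by
            rw [← Finset.prod_mul_distrib]
            exact Finset.prod_congr rfl fun j _ => heb j l hl k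
          rw [this]
          ring)
  set Q : MvPolynomial κ ℂ :=
    MvPolynomial.aeval (fun o : Option κ => Option.elim o 1 MvPolynomial.X) P with hQ
  have hev : ∀ x : κ → ℂ, MvPolynomial.eval x Q =
      MvPolynomial.eval (fun o : Option κ => Option.elim o 1 x) P := by
    intro x
    rw [hQ, MvPolynomial.aeval_def, MvPolynomial.eval₂_comp_left (MvPolynomial.eval x),
      ← MvPolynomial.eval₂_id]
    congr 1
    · ext c
      simp
    · funext o
      cases o <;> simp
  refine ⟨Q, ?_, ?_⟩
  · intro hQ0
    apply hP0
    have h2 : P * MvPolynomial.X none = 0 := by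
      apply MvPolynomial.funext
      intro y
      rw [map_mul, MvPolynomial.eval_X, map_zero]
      by_cases hy : y none = 0
      · rw [hy, mul_zero]
      · have h3 : y = fun o => y none * Option.elim o 1 (fun i => y (some i) / y none) := by
          funext o
          cases o with
          | none => simp
          | some i =>
            simp only [Option.elim]
            field_simp
        have h4 := TorD_hom hPm (y none) (fun o => Option.elim o 1 (fun i => y (some i) / y none))
        rw [← h3, ← hev, hQ0, map_zero, mul_zero] at h4
        rw [h4, zero_mul]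
    rcases mul_eq_zero.1 h2 with h3 | h3
    · exact h3
    · exact absurd h3 (MvPolynomial.X_ne_zero _)
  · intro v hv
    have hB : (∏ i, b i v) ≠ 0 := Finset.prod_ne_zero_iff.2 fun i _ => hv i
    rw [hev]
    have h2 := hPz v (Set.mem_univ v)
    have h3 : (fun o => f o v) = fun o => (∏ i, b i v) *
        Option.elim o 1 (fun i => a i v / b i v) := by
      funext o
      cases o with
      | none => simp [hf]
      | some i =>
        simp only [hf, Option.elim]
        rw [← Finset.mul_prod_erase Finset.univ (fun i => b i v) (Finset.mem_univ i)]
        have := hv i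
        field_simp
    have h4 := TorD_hom hPm (∏ i, b i v) (fun o => Option.elim o 1 (fun i => a i v / b i v))
    rw [← h3, h2] at h4
    rcases mul_eq_zero.1 h4.symm with h5 | h5
    · exact absurd h5 (pow_ne_zero m hB)
    · exact h5

end GAM
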