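import Pool.Agent.GAM.StD2

/-!
# GAM module TorK: the torus with complex multiplication
-/

set_option autoImplicit false

namespace GAM

theorem thm_TorK (h1 : St_TorP) (h2 : St_TorC) : St_TorK := by
  intro K _ _ c S _ _ φ φ' ζ₁ ζ₂ n e χ hc hφ hφ' hz1 hz2 _ _ hint hdual hχ1 hχ2 r hr hr0 hr1
  obtain ⟨L, χ', hP, hL, hχ⟩ := h1 K c S φ φ' ζ₁ ζ₂ n e χ hc hφ hφ' hz1 hz2 hint hdual hχ1 hχ2 r hr
    hr0 hr1
  obtain ⟨s, hs⟩ := h2 K c S φ φ' n e r L hc hφ hφ' hL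
  exact ⟨L, χ', s, hP, hL, hχ, hs⟩

end GAM
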