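import Pool.Agent.GAM.StD2
import Pool.Agent.GAM.Bas

/-!
# GAM: the principal lattice attached to a lattice in `K × K`
-/

set_option autoImplicit false

namespace GAM

open scoped ComplexConjugate

section

variable {S : Type} {K : Type} [Field K]

theorem TorP_add (r : S × Fin 2 → ℝ) (φ φ' : S → K →+* ℂ) (x y : K × K) :
    coor r φ φ' (x + y) = coor r φ φ' x + coor r φ φ' y := by
  funext p
  simp only [coor, Pi.add_apply, Prod.fst_add, Prod.snd_add, map_add]
  split_ifs <;> ring

theorem TorP_zero (r : S × Fin 2 → ℝ) (φ φ' : S → K →+* ℂ) : coor r φ φ' (0 : K × K) = 0 := by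
  have h := TorP_add r φ φ' (0 : K × K) 0
  rw [add_zero] at h
  exact left_eq_add.1 h

/-- the coordinates as an additive map -/
noncomputable def TorP_hom (r : S × Fin 2 → ℝ) (φ φ' : S → K →+* ℂ) :
    K × K →+ (S × Fin 2 → ℂ) where
  toFun := coor r φ φ'
  map_zero' := TorP_zero r φ φ'
  map_add' := TorP_add r φ φ'

theorem TorP_rat [CharZero K] (r : S × Fin 2 → ℝ) (φ φ' : S → K →+* ℂ) (q : ℚ) (x : K × K) :
    coor r φ φ' (q • x) = (q : ℝ) • coor r φ φ' x := by
  funext p
  have h1 : ∀ (ψ : K →+* ℂ) (a : K), ψ (q • a) = (q : ℂ) * ψ a := by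
    intro ψ a
    rw [Algebra.smul_def, map_mul]
    congr 1
    simp
  simp only [coor, Pi.smul_apply, Prod.smul_fst, Prod.smul_snd, h1]
  rw [Complex.real_smul]
  push_cast
  split_ifs <;> ring

end

/-- `E` is non-degenerate -/
theorem TorP_nondeg {ι : Type} [Fintype ι] (v : ι → ℂ) (h : ∀ w, E v w = 0) : v = 0 := by
  have h1 := h (Complex.I • v)
  unfold E at h1
  rw [H_smul_right, Complex.conj_I] at h1
  apply H_self_eq_zero
  simpa using h1

theorem thm_TorP (h1 : St_BasKK) (h2 : St_CorE) : St_TorP := by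
  classical
  intro K _ _ c S _ _ φ φ' ζ₁ ζ₂ n e χ hc hφ hφ' hζ₁ hζ₂ hint hself hpm hadd r hr hr0 hr1
  obtain ⟨hn, hli, hsp⟩ := h1 K c S φ φ' hc hφ hφ' n e r hr
  have hE := h2 K c S φ φ' ζ₁ ζ₂ r hc hφ hφ' hζ₁ hζ₂ hr0 hr1
  set C : K × K → (S × Fin 2 → ℂ) := coor r φ φ' with hC
  set b0 : Module.Basis (Fin n) ℝ (S × Fin 2 → ℂ) := Module.Basis.mk hli hsp.ge with hb0
  have hb0a : ∀ i, b0 i = C (e i) := fun i => by rw [hb0, Module.Basis.mk_apply]
  -- coordinates of rational combinations
  have hsum : ∀ q : Fin n → ℚ, C (∑ i, q i • e i) = ∑ i, (q i : ℝ) • b0 i := by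
    intro q
    have h3 : C (∑ i, q i • e i) = ∑ i, C (q i • e i) :=
      map_sum (TorP_hom r φ φ') (fun i => q i • e i) Finset.univ
    rw [h3]
    refine Finset.sum_congr rfl fun i _ => ?_
    rw [hb0a]
    exact TorP_rat r φ φ' (q i) (e i)
  have hinj : Function.Injective C := by
    intro x y hxy
    have h3 : C (x - y) = 0 := by
      have h4 : C (x - y) = C x - C y := map_sub (TorP_hom r φ φ') x y
      rw [h4, hxy, sub_self]
    have h5 := e.sum_repr (x - y)
    rw [← h5, hsum] at h3
    have h6 := Fintype.linearIndependent_iff.1 b0.linearIndependent (fun i => (e.repr (x - y) i : ℝ)) h3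
    have h7 : e.repr (x - y) = 0 := by
      ext i
      have h9 : ((e.repr (x - y) i : ℚ) : ℝ) = 0 := h6 i
      have h10 : e.repr (x - y) i = 0 := by exact_mod_cast h9
      rw [h10]; rfl
    have h8 : x - y = 0 := by
      rw [← e.repr.map_eq_zero_iff]; exact h7
    exact sub_eq_zero.1 h8
  set L : Submodule ℤ (S × Fin 2 → ℂ) :=
    (Submodule.span ℤ (Set.range e)).map (TorP_hom r φ φ').toIntLinearMap with hL
  have hmem : ∀ v, v ∈ L ↔ ∃ x ∈ Submodule.span ℤ (Set.range e), C x = v := by
    intro v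
    rw [hL, Submodule.mem_map]
    rfl
  have hLspan : L = Submodule.span ℤ (Set.range b0) := by
    rw [hL, Submodule.map_span]
    congr 1
    ext v
    constructor
    · rintro ⟨_, ⟨i, rfl⟩, rfl⟩
      exact ⟨i, hb0a i⟩
    · rintro ⟨i, rfl⟩
      exact ⟨e i, ⟨i, rfl⟩, (hb0a i).symm⟩
  have hbL : ∀ i, b0 i ∈ L := fun i => by rw [hLspan]; exact Submodule.subset_span ⟨i, rfl⟩
  -- integrality
  have hg : ∀ i j, ∃ m : ℤ, E (b0 i) (b0 j) = m := by
    intro i j
    obtain ⟨m, hm⟩ := hint i j
    refine ⟨m, ?_⟩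
    rw [hb0a, hb0a]
    have h3 := hE (e i) (e j)
    rw [hm] at h3
    rw [h3]
    push_cast
    rfl
  have hintL : ∀ l ∈ L, ∀ m ∈ L, ∃ k : ℤ, E l m = k := by
    intro l hl m hm
    rw [hLspan] at hl hm
    induction hl using Submodule.span_induction with
    | mem x hx =>
      obtain ⟨i, rfl⟩ := hx
      induction hm using Submodule.span_induction with
      | mem y hy =>
        obtain ⟨j, rfl⟩ := hy
        exact hg i j
      | zero => exact ⟨0, by rw [E_zero_right]; simp⟩
      | add y z _ _ hy hz =>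
        obtain ⟨p, hp⟩ := hy
        obtain ⟨q, hq⟩ := hz
        exact ⟨p + q, by rw [E_add_right, hp, hq]; push_cast; rfl⟩
      | smul a y _ hy =>
        obtain ⟨p, hp⟩ := hy
        exact ⟨a * p, by rw [E_zsmul_right, hp]; push_cast; rfl⟩
    | zero => exact ⟨0, by rw [E_zero_left]; simp⟩
    | add y z _ _ hy hz =>
      obtain ⟨p, hp⟩ := hy
      obtain ⟨q, hq⟩ := hz
      exact ⟨p + q, by rw [E_add_left, hp, hq]; push_cast; rfl⟩
    | smul a y _ hy =>
      obtain ⟨p, hp⟩ := hy
      exact ⟨a * p, by rw [E_zsmul_left, hp]; push_cast; rfl⟩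
  -- the Gram matrix
  choose g hg' using hg
  set G : Matrix (Fin n) (Fin n) ℚ := Matrix.of fun i j => (g i j : ℚ) with hG
  have hEsum : ∀ (t : Fin n → ℝ) (w : S × Fin 2 → ℂ), E (∑ i, t i • b0 i) w =
      ∑ i, t i * E (b0 i) w := by
    intro t w
    have h3 : ∀ s : Finset (Fin n), E (∑ i ∈ s, t i • b0 i) w = ∑ i ∈ s, t i * E (b0 i) w := by
      intro s
      induction s using Finset.induction_on with
      | empty => simp [E_zero_left]
      | insert a s ha ih =>
        rw [Finset.sum_insert ha, Finset.sum_insert ha, E_add_left, E_rsmul_left, ih]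
    exact h3 Finset.univ
  have hEsumr : ∀ (t : Fin n → ℝ) (w : S × Fin 2 → ℂ), E w (∑ i, t i • b0 i) =
      ∑ i, t i * E w (b0 i) := by
    intro t w
    rw [E_symm, hEsum, ← Finset.sum_neg_distrib]
    refine Finset.sum_congr rfl fun i _ => ?_
    rw [E_symm w (b0 i)]; ring
  have hdet : G.det ≠ 0 := by
    intro h0
    have h3 : ((G.map (fun q : ℚ => (q : ℝ))).det) = 0 := by
      have h4 := (Rat.castHom ℝ).map_det G
      rw [h0, map_zero] at h4
      exact h4.symm
    obtain ⟨t, ht, ht0⟩ := Matrix.exists_vecMul_eq_zero_iff.2 h3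
    apply ht
    have h5 : (∑ i, t i • b0 i) = 0 := by
      apply TorP_nondeg
      intro w
      have h6 : ∀ j, E (∑ i, t i • b0 i) (b0 j) = 0 := by
        intro j
        rw [hEsum]
        have h7 := congrFun ht0 j
        simp only [Matrix.vecMul, dotProduct, Matrix.map_apply, hG, Matrix.of_apply,
          Pi.zero_apply] at h7
        rw [← h7]
        refine Finset.sum_congr rfl fun i _ => ?_
        rw [hg' i j]; push_cast; rfl
      have h8 := b0.sum_repr w
      rw [← h8, hEsumr]
      exact Finset.sum_eq_zero fun i _ => by rw [h6, mul_zero]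
    exact funext (Fintype.linearIndependent_iff.1 b0.linearIndependent t h5)
  have hselfL : ∀ v, (∀ l ∈ L, ∃ k : ℤ, E v l = k) → v ∈ L := by
    intro v hv
    have h3 : ∀ j, ∃ k : ℤ, E v (b0 j) = k := fun j => hv _ (hbL j)
    choose m hm using h3
    set t : Fin n → ℝ := fun i => b0.repr v i with ht
    have hvt : v = ∑ i, t i • b0 i := (b0.sum_repr v).symm
    -- the rational solution
    set q : Fin n → ℚ := Matrix.vecMul (fun j => (m j : ℚ)) G⁻¹ with hq
    have hqG : Matrix.vecMul q G = fun j => (m j : ℚ) := by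
      rw [hq, Matrix.vecMul_vecMul, Matrix.nonsing_inv_mul _ (isUnit_iff_ne_zero.2 hdet),
        Matrix.vecMul_one]
    have htq : t = fun i => (q i : ℝ) := by
      have h4 : (∑ i, (t i - (q i : ℝ)) • b0 i) = 0 := by
        apply TorP_nondeg
        intro w
        have h6 : ∀ j, E (∑ i, (t i - (q i : ℝ)) • b0 i) (b0 j) = 0 := by
          intro j
          rw [hEsum]
          simp only [sub_mul, Finset.sum_sub_distrib]
          rw [← hEsum t, ← hvt, hm j]
          have h7 := congrFun hqG j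
          simp only [Matrix.vecMul, dotProduct, hG, Matrix.of_apply] at h7
          have h8 : (∑ i, (q i : ℝ) * (g i j : ℝ)) = (m j : ℝ) := by exact_mod_cast h7
          rw [← h8, sub_eq_zero]
          refine Finset.sum_congr rfl fun i _ => ?_
          rw [hg' i j]
        have h8 := b0.sum_repr w
        rw [← h8, hEsumr]
        exact Finset.sum_eq_zero fun i _ => by rw [h6, mul_zero]
      have h5 := Fintype.linearIndependent_iff.1 b0.linearIndependent _ h4
      funext i
      exact sub_eq_zero.1 (h5 i)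
    set x : K × K := ∑ i, q i • e i with hx
    have hCx : C x = v := by
      rw [hx, hsum, hvt]
      refine Finset.sum_congr rfl fun i _ => ?_
      rw [htq]
    rw [hmem]
    refine ⟨x, hself x fun j => ⟨m j, ?_⟩, hCx⟩
    have h9 := hE x (e j)
    have h10 : C (e j) = b0 j := (hb0a j).symm
    rw [hCx, h10, hm j] at h9
    exact_mod_cast h9.symm
  -- the semicharacter
  have hinv : ∀ x, Function.invFun C (C x) = x := Function.leftInverse_invFun hinj
  refine ⟨L, fun v => χ (Function.invFun C v), ⟨?_, hintL, hselfL, ?_, ?_⟩, hmem, ?_⟩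
  · have hcard : Fintype.card (Fin n) = Fintype.card ((S × Fin 2) ⊕ (S × Fin 2)) := by
      rw [Fintype.card_fin, hn, Fintype.card_sum]; ring
    refine ⟨b0.reindex (Fintype.equivOfCardEq hcard), ?_⟩
    rw [Module.Basis.range_reindex, hLspan]
  · intro l hl
    obtain ⟨x, hx, rfl⟩ := (hmem l).1 hl
    rw [hinv]
    exact hpm x hx
  · intro l hl m hm
    obtain ⟨x, hx, rfl⟩ := (hmem l).1 hl
    obtain ⟨y, hy, rfl⟩ := (hmem m).1 hm
    have h3 : C x + C y = C (x + y) := (TorP_add r φ φ' x y).symm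
    rw [h3, hinv, hinv, hinv, hadd x hx y hy, hE x y]
    push_cast
    rfl
  · intro x _
    dsimp only
    rw [hinv]

end GAM
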