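import Pool.Agent.GAM.StD2

/-!
# GAM [X]: the exchange theorem
-/

set_option autoImplicit false
set_option linter.unusedSectionVars false

namespace GAM

open scoped ComplexConjugate

section reidx

variable {ι : Type} [Fintype ι]

theorem X_H_reidx (j : ι ≃ ι) (x y : ι → ℂ) : H (fun p => x (j p)) (fun p => y (j p)) = H x y := by
  unfold H
  exact Equiv.sum_comp j fun a => x a * conj (y a)

theorem X_E_reidx (j : ι ≃ ι) (x y : ι → ℂ) : E (fun p => x (j p)) (fun p => y (j p)) = E x y := by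
  unfold E
  rw [X_H_reidx]

/-- The reindexed lattice: `x` with `x ∘ j.symm ∈ L`. -/
def X_re (j : ι ≃ ι) (L : Submodule ℤ (ι → ℂ)) : Submodule ℤ (ι → ℂ) :=
  L.comap ((LinearEquiv.funCongrLeft ℤ ℂ j.symm).toLinearMap)

theorem X_mem_re (j : ι ≃ ι) (L : Submodule ℤ (ι → ℂ)) (x : ι → ℂ) :
    x ∈ X_re j L ↔ (fun p => x (j.symm p)) ∈ L := Iff.rfl

theorem X_PLat (j : ι ≃ ι) {L : Submodule ℤ (ι → ℂ)} {χ : (ι → ℂ) → ℂ} (h : PLat L χ) :
    PLat (X_re j L) fun x => χ fun p => x (j.symm p) := by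
  refine ⟨?_, ?_, ?_, ?_, ?_⟩
  · obtain ⟨b, hb⟩ := h.basis
    refine ⟨b.map (LinearEquiv.funCongrLeft ℝ ℂ j), ?_⟩
    apply le_antisymm
    · intro x hx
      rw [X_mem_re, hb] at hx
      have h1 : x = (LinearEquiv.funCongrLeft ℤ ℂ j) (fun p => x (j.symm p)) := by
        ext p
        simp [LinearEquiv.funCongrLeft_apply, LinearMap.funLeft_apply]
      rw [h1]
      have h2 : Submodule.span ℤ (Set.range b) ≤
          (Submodule.span ℤ (Set.range (b.map (LinearEquiv.funCongrLeft ℝ ℂ j)))).comap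
            (LinearEquiv.funCongrLeft ℤ ℂ j).toLinearMap := by
        rw [Submodule.span_le]
        rintro _ ⟨i, rfl⟩
        refine Submodule.subset_span ⟨i, ?_⟩
        rw [Module.Basis.map_apply]
        rfl
      exact h2 hx
    · rw [Submodule.span_le]
      rintro _ ⟨i, rfl⟩
      change _ ∈ X_re j L
      rw [X_mem_re, Module.Basis.map_apply, hb]
      refine Submodule.subset_span ⟨i, ?_⟩
      ext p
      simp [LinearEquiv.funCongrLeft_apply, LinearMap.funLeft_apply]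
  · intro l hl m hm
    obtain ⟨n, hn⟩ := h.int _ hl _ hm
    exact ⟨n, by rw [← hn]; exact (X_E_reidx j.symm l m).symm⟩
  · intro x hx
    refine h.self _ fun l hl => ?_
    obtain ⟨n, hn⟩ := hx (fun p => l (j p)) (by
      rw [X_mem_re]
      simpa using hl)
    refine ⟨n, ?_⟩
    rw [← hn, ← X_E_reidx j.symm x (fun p => l (j p))]
    simp
    rfl
  · intro l hl
    exact h.pm _ hl
  · intro l hl m hm
    have h2 : E (fun p => l (j.symm p)) (fun p => m (j.symm p)) = E l m := X_E_reidx j.symm l m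
    rw [← h2]
    exact h.add _ hl _ hm

theorem X_IsCM (j : ι ≃ ι) {L : Submodule ℤ (ι → ℂ)} {s : ι → ℂ} (h : IsCM L s) :
    IsCM (X_re j L) fun p => s (j p) := by
  refine ⟨fun a => h.alg _, fun l hl => ?_, fun a b hab => h.sep _ _ fun e => hab (j.injective e),
    fun a b => h.sep' _ _⟩
  rw [X_mem_re] at hl ⊢
  have := h.lat _ hl
  simpa using this

end reidx

section cmt

variable {S : Type} [Fintype S] [DecidableEq S] {K : Type} [Field K] {c : K →+* K}
  {φ : S → K →+* ℂ}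

theorem X_cc (hc : CMF K c) (σ : K →+* ℂ) (x : K) : c (c x) = x := by
  have h1 := hc.cc σ x
  have h2 := hc.cc σ (c x)
  apply σ.injective
  rw [← h2, ← h1, Complex.conj_conj]

theorem X_flip_self (c : K →+* K) (φ : S → K →+* ℂ) (v : S) : flip c φ v v = (φ v).comp c := by
  simp [flip]

theorem X_flip_ne (c : K →+* K) (φ : S → K →+* ℂ) {v s : S} (h : s ≠ v) : flip c φ v s = φ s := by
  simp [flip, h]

theorem X_flip (hc : CMF K c) (h : CMT K c φ) (v : S) : CMT K c (flip c φ v) := by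
  have hcc : (φ v).comp (c.comp c) = φ v := by
    ext x
    simp [X_cc hc (φ v) x]
  unfold CMT at h ⊢
  have h1 : (Sum.elim (flip c φ v) fun s => (flip c φ v s).comp c) =
      (Sum.elim φ fun s => (φ s).comp c) ∘ (Equiv.swap (Sum.inl v) (Sum.inr v)) := by
    ext x : 1
    rcases x with s | s
    · by_cases hs : s = v
      · subst hs
        simp [X_flip_self]
      · have e : Equiv.swap (Sum.inl v : S ⊕ S) (Sum.inr v) (Sum.inl s) = Sum.inl s :=
          Equiv.swap_apply_of_ne_of_ne (by simpa using hs) (by simp)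
        simp [e, X_flip_ne c φ hs]
    · by_cases hs : s = v
      · subst hs
        simp [X_flip_self, RingHom.comp_assoc, hcc]
      · have e : Equiv.swap (Sum.inl v : S ⊕ S) (Sum.inr v) (Sum.inr s) = Sum.inr s :=
          Equiv.swap_apply_of_ne_of_ne (by simp) (by simpa using hs)
        simp [e, X_flip_ne c φ hs]
  rw [h1]
  exact h.comp (Equiv.bijective _)

theorem X_alg [NumberField K] (σ : K →+* ℂ) (x : K) (r : ℝ) (h : r ^ 2 = -2 * (σ x).im) :
    IsAlgebraic ℚ (r : ℂ) := by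
  have h1 : IsAlgebraic ℚ (σ x) := by
    have : IsAlgebraic ℚ x := Algebra.IsAlgebraic.isAlgebraic x
    exact this.algHom (σ.toRatAlgHom)
  have h2 : IsAlgebraic ℚ (conj (σ x)) :=
    h1.algHom ((starRingEnd ℂ : ℂ →+* ℂ).toRatAlgHom)
  have hI : IsAlgebraic ℚ Complex.I := by
    refine ⟨Polynomial.X ^ 2 + 1, ?_, by simp⟩
    intro h0
    have := congrArg (Polynomial.eval 0) h0
    simp at this
  have h3 : ((r : ℂ)) ^ 2 = Complex.I * (σ x - conj (σ x)) := by
    have h4 : σ x - conj (σ x) = (2 * (σ x).im : ℝ) * Complex.I := Complex.sub_conj (σ x)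
    have h5 : ((r : ℂ)) ^ 2 = ((-2 * (σ x).im : ℝ) : ℂ) := by rw [← h]; push_cast; ring
    rw [h4, h5]
    push_cast
    linear_combination (-2 * ((σ x).im : ℂ)) * Complex.I_sq
  have h6 : IsAlgebraic ℚ (((r : ℂ)) ^ 2) := by
    rw [h3]
    exact hI.mul (h1.sub h2)
  exact IsAlgebraic.of_pow (by norm_num) h6

/-- The point of `ℂ^ι` with coordinates `r_s φ_s(x)` at `j s`. -/
theorem X_single {ι : Type} [Fintype ι] [DecidableEq ι] (e : S → ι)
    (he : Function.Injective e) (f : S → ℂ) (g : ι → ℂ) (h1 : ∀ s, g (e s) = f s)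
    (h2 : ∀ p, (∀ s, e s ≠ p) → g p = 0) : (∑ s, Pi.single (e s) (f s) : ι → ℂ) = g := by
  ext p
  rw [Finset.sum_apply]
  by_cases hp : ∃ s, e s = p
  · obtain ⟨s, rfl⟩ := hp
    rw [Finset.sum_eq_single s, Pi.single_eq_same, h1]
    · intro b _ hb
      exact Pi.single_eq_of_ne (fun h => hb (he h.symm)) _
    · intro h
      exact absurd (Finset.mem_univ s) h
  · push Not at hp
    rw [h2 p hp]
    exact Finset.sum_eq_zero fun s _ => Pi.single_eq_of_ne (fun h => hp s h.symm) _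

end cmt

theorem thm_X (h1 : St_Sgn) (h2 : St_LatK) (h3 : St_TorK) (h4 : St_ThEx) (h5 : St_CM)
    (h6 : St_LevM) (h7 : St_ExpT) (h8 : St_ExpU) (h9 : St_CocK) (h10 : St_MapK) (h11 : St_TwB)
    (h12 : St_Core) : St_X := by
  intro K _ _ c S _ _ φ u v w δ A A' A₁ A₂ hK hφ huv huw hvw hA hA' hA₁ hA₂
  classical
  have hcc : ∀ x, c (c x) = x := X_cc hK (φ u)
  obtain ⟨s1, s2, s3⟩ := h1 K c S φ hK hφ
  obtain ⟨κ, hκc, hκ⟩ := s1 fun s => decide (¬ (s = v ∨ s = w))
  have hκim : ∀ s, (φ s κ).im = 0 := fun s => (hκ s).1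
  have hκre : ∀ s, (φ s κ).re < 0 ↔ s = v ∨ s = w := by
    intro s
    have := (hκ s).2
    by_cases hs : s = v ∨ s = w
    · simpa [hs] using this
    · have h0 : 0 < (φ s κ).re := by simpa [hs] using this
      exact ⟨fun h => absurd h (not_lt.mpr h0.le), fun h => absurd h hs⟩
  have hκpos : ∀ s, ¬ (s = v ∨ s = w) → 0 < (φ s κ).re := by
    intro s hs
    simpa [hs] using (hκ s).2
  have hκ0 : κ ≠ 0 := by
    intro h
    have := (hκre v).mpr (Or.inl rfl)
    rw [h, map_zero] at this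
    simp at this
  obtain ⟨ζ, hζc, hζ⟩ := s2 fun _ => false
  have hζre : ∀ s, (φ s ζ).re = 0 := fun s => (hζ s).1
  have hζim : ∀ s, (φ s ζ).im < 0 := fun s => by simpa using (hζ s).2
  have hζ0 : ζ ≠ 0 := by
    intro h
    have := hζim v
    rw [h, map_zero] at this
    simp at this
  obtain ⟨a, b, hNv, hNs⟩ := s3 κ v w hvw hκc hκre
  set NN : K := a * c a + κ * (b * c b) with hNN
  have hNN0 : NN ≠ 0 := by
    intro h
    rw [h, map_zero] at hNv
    simp at hNv
  have hcNN : c NN = NN := by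
    rw [hNN, map_add, map_mul, map_mul, map_mul, hκc, hcc, hcc]
    ring
  have hκ' : ∀ s, φ s κ = ((φ s κ).re : ℂ) := fun s => by
    apply Complex.ext
    · simp
    · simp [hκim s]
  have hNim : ∀ s, (φ s NN).im = 0 := by
    intro s
    have := hK.cc (φ s) NN
    rw [hcNN] at this
    exact Complex.conj_eq_iff_im.mp this
  have hN' : ∀ s, φ s NN = ((φ s NN).re : ℂ) := fun s => by
    apply Complex.ext
    · simp
    · simp [hNim s]
  -- imaginary parts of products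
  have imκ : ∀ s x, (φ s (κ * x)).im = (φ s κ).re * (φ s x).im := by
    intro s x
    rw [map_mul, hκ' s, Complex.im_ofReal_mul, Complex.ofReal_re]
  have imN : ∀ s x, (φ s (x * NN)).im = (φ s NN).re * (φ s x).im := by
    intro s x
    rw [mul_comm, map_mul, hN' s, Complex.im_ofReal_mul, Complex.ofReal_re]
  have imc : ∀ s x, (φ s (c x)).im = -(φ s x).im := by
    intro s x
    rw [← hK.cc, Complex.conj_im]
  set ψ := flip c (flip c φ v) w with hψ
  set φv := flip c φ v with hφv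
  set φw := flip c φ w with hφw
  have hCv : CMT K c φv := X_flip hK hφ v
  have hCw : CMT K c φw := X_flip hK hφ w
  have hCψ : CMT K c ψ := X_flip hK hCv w
  have ψin : ∀ s, (s = v ∨ s = w) → ψ s = (φ s).comp c := by
    intro s hs
    by_cases hsw : s = w
    · subst hsw
      rw [hψ, X_flip_self, hφv, X_flip_ne c φ hvw.symm]
    · have hsv : s = v := hs.resolve_right hsw
      subst hsv
      rw [hψ, X_flip_ne c _ hsw, hφv, X_flip_self]
  have ψout : ∀ s, ¬ (s = v ∨ s = w) → ψ s = φ s := by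
    intro s hs
    push Not at hs
    rw [hψ, X_flip_ne c _ hs.2, hφv, X_flip_ne c _ hs.1]
  -- the radii
  let r : S × Fin 2 → ℝ := fun p => if p.2 = 0 then Real.sqrt (-2 * (φ p.1 ζ).im) else
    Real.sqrt (|(φ p.1 κ).re| * (-2 * (φ p.1 ζ).im))
  have hneg : ∀ s, 0 < -2 * (φ s ζ).im := fun s => by have := hζim s; linarith
  have hκabs : ∀ s, 0 < |(φ s κ).re| := by
    intro s
    rw [abs_pos]
    intro h
    apply hκ0
    apply (φ s).injective
    rw [map_zero, hκ' s, h, Complex.ofReal_zero]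
  have hr : ∀ p, 0 < r p := by
    intro p
    simp only [r]
    split_ifs
    · exact Real.sqrt_pos.mpr (hneg p.1)
    · exact Real.sqrt_pos.mpr (mul_pos (hκabs _) (hneg p.1))
  have hr0 : ∀ s, r (s, 0) ^ 2 = -2 * (φ s ζ).im := by
    intro s
    simp only [r, if_true]
    exact Real.sq_sqrt (hneg s).le
  have hr1 : ∀ s, r (s, 1) ^ 2 = |(φ s κ).re| * r (s, 0) ^ 2 := by
    intro s
    rw [hr0]
    simp only [r]
    rw [if_neg (by norm_num), Real.sq_sqrt (mul_pos (hκabs _) (hneg s)).le]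
  have hψim : ∀ s, (ψ s (κ * ζ)).im = -(|(φ s κ).re| * -(φ s ζ).im) := by
    intro s
    by_cases hs : s = v ∨ s = w
    · rw [ψin s hs, RingHom.comp_apply, imc, imκ, abs_of_neg ((hκre s).mpr hs)]
      ring
    · rw [ψout s hs, imκ, abs_of_pos (hκpos s hs)]
      ring
  have hr1' : ∀ s, r (s, 1) ^ 2 = -2 * (ψ s (κ * ζ)).im := by
    intro s
    rw [hr1, hr0, hψim]
    ring
  have hψneg : ∀ s, (ψ s (κ * ζ)).im < 0 := by
    intro s
    have h0 := pow_pos (hr (s, 1)) 2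
    rw [hr1' s] at h0
    linarith
  -- the lattice
  have hκζc : c (κ * ζ) = -(κ * ζ) := by rw [map_mul, hκc, hζc]; ring
  obtain ⟨n, e, χ, q1, q2, q3, q4⟩ := h2 K c ζ (κ * ζ) hK hζc hκζc hζ0 (mul_ne_zero hκ0 hζ0)
  obtain ⟨L₀, χ₀, s₀, hP₀, hm₀, hχ₀, hCM₀⟩ := h3 K c S φ ψ ζ (κ * ζ) n e χ hK hφ hCψ hζc hκζc
    hζim hψneg q1 q2 q3 q4 r hr hr0 hr1'
  -- the change of variables
  have hnrd : nrd c κ (a, b) = NN := rfl
  obtain ⟨⟨T, hT⟩, hform⟩ := h11 K c κ ζ (a, b) hK hκc hζc (by rw [hnrd]; exact hNN0)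
  have hT' : ∀ y, T y = (a * y.1 - κ * c b * y.2, b * y.1 + c a * y.2) := fun y => hT y
  rw [hnrd] at hform
  let e' : Module.Basis (Fin n) ℚ (K × K) := e.map T.symm
  have he' : ∀ i, T (e' i) = e i := fun i => by simp [e']
  have hspan : ∀ x, x ∈ Submodule.span ℤ (Set.range e') ↔
      T x ∈ Submodule.span ℤ (Set.range e) := by
    intro x
    constructor
    · intro hx
      have h0 : Submodule.span ℤ (Set.range e') ≤ (Submodule.span ℤ (Set.range e)).comap
          (T.toLinearMap.restrictScalars ℤ) := by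
        rw [Submodule.span_le]
        rintro _ ⟨i, rfl⟩
        refine Submodule.subset_span ⟨i, ?_⟩
        exact (he' i).symm
      exact h0 hx
    · intro hx
      have h0 : Submodule.span ℤ (Set.range e) ≤ (Submodule.span ℤ (Set.range e')).comap
          (T.symm.toLinearMap.restrictScalars ℤ) := by
        rw [Submodule.span_le]
        rintro _ ⟨i, rfl⟩
        refine Submodule.subset_span ⟨i, ?_⟩
        simp [e']
      have := h0 hx
      simpa using this
  have htr : ∀ x y : K × K, Algebra.trace ℚ K (ζ * NN * (x.1 * c y.1) +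
      κ * ζ * NN * (x.2 * c y.2)) = Algebra.trace ℚ K (ζ * ((T x).1 * c (T y).1) +
      κ * ζ * ((T x).2 * c (T y).2)) := by
    intro x y
    rw [hT, hT, hform]
  have hζN : c (ζ * NN) = -(ζ * NN) := by rw [map_mul, hζc, hcNN]; ring
  have hκζN : c (κ * ζ * NN) = -(κ * ζ * NN) := by rw [map_mul, hκζc, hcNN]; ring
  obtain ⟨r', g, j, hr', hj, ⟨hjv0, hjv1⟩, hr'0, hr'1, hg⟩ := h10 K c S φ κ ζ u v w a b r hK hφ
    huv huw hvw hκc hκim hκ0 hκre hr hr0 hζc hζim hr1 hNv hNs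
  have hv0 : ∀ s, (φv s (ζ * NN)).im < 0 := by
    intro s
    have h0 := pow_pos (hr' (s, 0)) 2
    rw [hr'0 s] at h0
    linarith
  have hw0 : ∀ s, (φw s (κ * ζ * NN)).im < 0 := by
    intro s
    have h0 := pow_pos (hr' (s, 1)) 2
    rw [hr'1 s] at h0
    linarith
  obtain ⟨L₁, χ₁, s₁, hP₁, hm₁, hχ₁, hCM₁⟩ := h3 K c S φv φw (ζ * NN) (κ * ζ * NN) n e'
    (fun y => χ (T y)) hK hCv hCw hζN hκζN hv0 hw0
    (by
      intro i k
      obtain ⟨m, hm⟩ := q1 i k
      exact ⟨m, by rw [← hm, htr, he', he']⟩)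
    (by
      intro x hx
      rw [hspan]
      refine q2 _ fun k => ?_
      obtain ⟨m, hm⟩ := hx k
      exact ⟨m, by rw [← hm, htr, he']⟩)
    (by
      intro x hx
      exact q3 _ ((hspan x).mp hx))
    (by
      intro x hx y hy
      have := q4 _ ((hspan x).mp hx) _ ((hspan y).mp hy)
      rw [htr, map_add]
      exact this)
    r' hr' hr'0 hr'1
  -- reindexing
  have hP₁' := X_PLat j hP₁
  have hCM₁' := X_IsCM j hCM₁
  have hcoor : ∀ y, coor r φ ψ (T y) = act g (fun p => coor r' φv φw y (j p)) := by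
    intro y
    rw [hT' y]
    exact hg y
  have hmaps : Maps g (X_re j L₁) L₀ (fun x => χ₁ fun p => x (j.symm p)) χ₀ := by
    have key : ∀ x, x ∈ X_re j L₁ ↔ ∃ y ∈ Submodule.span ℤ (Set.range e'),
        (fun p => coor r' φv φw y (j p)) = x := by
      intro x
      rw [X_mem_re, hm₁]
      constructor
      · rintro ⟨y, hy, h⟩
        refine ⟨y, hy, ?_⟩
        rw [h]
        ext p
        simp
      · rintro ⟨y, hy, rfl⟩
        refine ⟨y, hy, ?_⟩
        ext p
        simp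
    refine ⟨fun x => ?_, fun l hl => ?_⟩
    · rw [key, hm₀]
      constructor
      · rintro ⟨y, hy, rfl⟩
        exact ⟨T y, (hspan y).mp hy, hcoor y⟩
      · rintro ⟨x', hx', h⟩
        refine ⟨T.symm x', ?_, ?_⟩
        · rw [hspan, T.apply_symm_apply]
          exact hx'
        · apply act_inj g
          rw [← hcoor, T.apply_symm_apply, h]
    · obtain ⟨y, hy, rfl⟩ := (key l).mp hl
      rw [← hcoor, hχ₀ _ ((hspan y).mp hy)]
      have : (fun p => (fun q => coor r' φv φw y (j q)) (j.symm p)) = coor r' φv φw y := by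
        ext p
        simp
      change _ = χ₁ (fun p => (fun q => coor r' φv φw y (j q)) (j.symm p))
      rw [this, hχ₁ y hy]
  have hCoc : Coc v w L₀ := h9 K c S φ ψ κ u v w n e r L₀ hK hφ huv huw hvw hψ hκc hκim hκ0 hκre
    hr hr1 hm₀
  obtain ⟨θ₀, hθ₀, hθ₀'⟩ := h4 _ L₀ χ₀ hP₀
  obtain ⟨θ₁, hθ₁, hθ₁'⟩ := h4 _ (X_re j L₁) _ hP₁'
  obtain ⟨B₀, k₀, hB₀⟩ := h5 _ δ L₀ χ₀ θ₀ s₀ hP₀ hθ₀ hθ₀' hCM₀
  obtain ⟨B₁, k₁, hB₁⟩ := h5 _ δ (X_re j L₁) _ θ₁ _ hP₁' hθ₁ hθ₁' hCM₁'
  have hmain := h12 S u v w g δ L₀ (X_re j L₁) χ₀ θ₀ _ θ₁ B₀ B₁ k₀ k₁ huv huw hvw hP₀ hP₁' hθ₀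
    hθ₁ hθ₀' hθ₁' hmaps hCoc hB₀ hB₁
  obtain ⟨M, hM, hM'⟩ := h6 K n e
  obtain ⟨M₁, hM₁, hM₁'⟩ := h6 K n e'
  -- identification of the exponents
  have inj0 : Function.Injective fun s : S => ((s, 0) : S × Fin 2) := fun s t h => by
    simpa using h
  have inj1 : Function.Injective fun s : S => ((s, 1) : S × Fin 2) := fun s t h => by
    simpa using h
  have e0 : IsExp δ K φ fun s => B₀ (s, 0) := by
    refine h7 K c S _ φ δ L₀ χ₀ θ₀ B₀ k₀ (fun s => (s, 0)) (fun s => r (s, 0)) M hK hφ hP₀ hθ₀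
      hθ₀' hB₀ inj0 (fun s => hr _) (fun s => X_alg (φ s) ζ _ (hr0 s)) hM fun x => ?_
    rw [hm₀]
    refine ⟨_, (hM' x).1, ?_⟩
    symm
    refine X_single _ inj0 _ _ (fun s => by simp [coor]) ?_
    rintro ⟨s, i⟩ h
    fin_cases i
    · exact absurd rfl (h s)
    · simp [coor]
  have e1 : IsExp δ K ψ fun s => B₀ (s, 1) := by
    refine h7 K c S _ ψ δ L₀ χ₀ θ₀ B₀ k₀ (fun s => (s, 1)) (fun s => r (s, 1)) M hK hCψ hP₀ hθ₀
      hθ₀' hB₀ inj1 (fun s => hr _) (fun s => X_alg (ψ s) (κ * ζ) _ (hr1' s)) hM fun x => ?_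
    rw [hm₀]
    refine ⟨_, (hM' x).2, ?_⟩
    symm
    refine X_single _ inj1 _ _ (fun s => by simp [coor]) ?_
    rintro ⟨s, i⟩ h
    fin_cases i
    · simp [coor]
    · exact absurd rfl (h s)
  have e2 : IsExp δ K φv fun s => B₁ (j.symm (s, 0)) := by
    refine h7 K c S _ φv δ (X_re j L₁) _ θ₁ B₁ k₁ (fun s => j.symm (s, 0)) (fun s => r' (s, 0))
      M₁ hK hCv hP₁' hθ₁ hθ₁' hB₁ (j.symm.injective.comp inj0) (fun s => hr' _)
      (fun s => X_alg (φv s) (ζ * NN) _ (hr'0 s)) hM₁ fun x => ?_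
    rw [X_mem_re, hm₁]
    refine ⟨_, (hM₁' x).1, ?_⟩
    have h0 := X_single (fun s => j.symm (s, 0)) (j.symm.injective.comp inj0)
      (fun s => (r' (s, 0) : ℂ) * φv s ((M₁ : K) * (x : K)))
      (fun p => coor r' φv φw ((M₁ : K) * (x : K), 0) (j p)) (fun s => by simp [coor]) (by
        intro p h
        obtain ⟨⟨s, i⟩, rfl⟩ := j.symm.surjective p
        fin_cases i
        · exact absurd rfl (h s)
        · simp [coor])
    rw [h0]
    ext p
    simp
  have e3 : IsExp δ K φw fun s => B₁ (j.symm (s, 1)) := by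
    refine h7 K c S _ φw δ (X_re j L₁) _ θ₁ B₁ k₁ (fun s => j.symm (s, 1)) (fun s => r' (s, 1))
      M₁ hK hCw hP₁' hθ₁ hθ₁' hB₁ (j.symm.injective.comp inj1) (fun s => hr' _)
      (fun s => X_alg (φw s) (κ * ζ * NN) _ (hr'1 s)) hM₁ fun x => ?_
    rw [X_mem_re, hm₁]
    refine ⟨_, (hM₁' x).2, ?_⟩
    have h0 := X_single (fun s => j.symm (s, 1)) (j.symm.injective.comp inj1)
      (fun s => (r' (s, 1) : ℂ) * φw s ((M₁ : K) * (x : K)))
      (fun p => coor r' φv φw (0, (M₁ : K) * (x : K)) (j p)) (fun s => by simp [coor]) (by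
        intro p h
        obtain ⟨⟨s, i⟩, rfl⟩ := j.symm.surjective p
        fin_cases i
        · simp [coor]
        · exact absurd rfl (h s))
    rw [h0]
    ext p
    simp
  have f0 : A = fun s => B₀ (s, 0) := h8 K c S φ δ _ _ hK hφ hA e0
  have f1 : A' = fun s => B₀ (s, 1) := h8 K c S ψ δ _ _ hK hCψ hA' e1
  have f2 : A₁ = fun s => B₁ (j.symm (s, 0)) := h8 K c S φv δ _ _ hK hCv hA₁ e2
  have f3 : A₂ = fun s => B₁ (j.symm (s, 1)) := h8 K c S φw δ _ _ hK hCw hA₂ e3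
  have g0 : j.symm (u, 0) = (u, 0) := by rw [Equiv.symm_apply_eq, (hj u huv).1]
  have g1 : j.symm (u, 1) = (u, 1) := by rw [Equiv.symm_apply_eq, (hj u huv).2]
  rw [f0, f1, f2, f3]
  simp only [g0, g1]
  exact hmain

end GAM
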