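import Pool.Agent.GAM.AVDel
import Pool.Agent.GAM.AVFac
import Pool.Agent.GAM.AVJac
import Pool.Agent.GAM.AVNz
import Pool.Agent.GAM.AbV
import Pool.Agent.GAM.Add
import Pool.Agent.GAM.Avg
import Pool.Agent.GAM.Bal
import Pool.Agent.GAM.BasK
import Pool.Agent.GAM.BasKK
import Pool.Agent.GAM.BasQ
import Pool.Agent.GAM.Base
import Pool.Agent.GAM.C1
import Pool.Agent.GAM.C2
import Pool.Agent.GAM.C2c
import Pool.Agent.GAM.C3
import Pool.Agent.GAM.C4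
import Pool.Agent.GAM.C5
import Pool.Agent.GAM.ChiB
import Pool.Agent.GAM.Cls
import Pool.Agent.GAM.CocK
import Pool.Agent.GAM.Comp
import Pool.Agent.GAM.CorE
import Pool.Agent.GAM.CorG
import Pool.Agent.GAM.Core
import Pool.Agent.GAM.Cube
import Pool.Agent.GAM.DelDR
import Pool.Agent.GAM.DelEx
import Pool.Agent.GAM.DelF
import Pool.Agent.GAM.DelPD
import Pool.Agent.GAM.DelPsi
import Pool.Agent.GAM.DelR
import Pool.Agent.GAM.DenK
import Pool.Agent.GAM.DirD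
import Pool.Agent.GAM.Dup
import Pool.Agent.GAM.Ell
import Pool.Agent.GAM.EllB
import Pool.Agent.GAM.EllH
import Pool.Agent.GAM.EllI
import Pool.Agent.GAM.EllW
import Pool.Agent.GAM.EllZ
import Pool.Agent.GAM.EquP
import Pool.Agent.GAM.Equi
import Pool.Agent.GAM.EulP
import Pool.Agent.GAM.EulW
import Pool.Agent.GAM.ExpAV
import Pool.Agent.GAM.ExpC
import Pool.Agent.GAM.ExpE
import Pool.Agent.GAM.ExpL
import Pool.Agent.GAM.ExpR
import Pool.Agent.GAM.ExpT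
import Pool.Agent.GAM.ExpU
import Pool.Agent.GAM.FinD
import Pool.Agent.GAM.FlipJ
import Pool.Agent.GAM.Four
import Pool.Agent.GAM.GNex
import Pool.Agent.GAM.GamI
import Pool.Agent.GAM.Gau
import Pool.Agent.GAM.GenY
import Pool.Agent.GAM.Glue
import Pool.Agent.GAM.GroC
import Pool.Agent.GAM.GroF
import Pool.Agent.GAM.GroU
import Pool.Agent.GAM.Hol
import Pool.Agent.GAM.HolP
import Pool.Agent.GAM.HomI
import Pool.Agent.GAM.ImA
import Pool.Agent.GAM.ImB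
import Pool.Agent.GAM.Imm
import Pool.Agent.GAM.Ind1
import Pool.Agent.GAM.Ind2
import Pool.Agent.GAM.Iso
import Pool.Agent.GAM.LatB
import Pool.Agent.GAM.LatK
import Pool.Agent.GAM.LevM
import Pool.Agent.GAM.LinD
import Pool.Agent.GAM.MM
import Pool.Agent.GAM.MapK
import Pool.Agent.GAM.MinP
import Pool.Agent.GAM.Mink
import Pool.Agent.GAM.ModF
import Pool.Agent.GAM.Nor
import Pool.Agent.GAM.NrdF
import Pool.Agent.GAM.OddD
import Pool.Agent.GAM.OrdB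
import Pool.Agent.GAM.OrdR
import Pool.Agent.GAM.Per
import Pool.Agent.GAM.PsiC
import Pool.Agent.GAM.PsiE
import Pool.Agent.GAM.PsiJ
import Pool.Agent.GAM.PsiK
import Pool.Agent.GAM.PsiK1
import Pool.Agent.GAM.PsiL
import Pool.Agent.GAM.PsiN
import Pool.Agent.GAM.PsiT
import Pool.Agent.GAM.Pts
import Pool.Agent.GAM.Quad
import Pool.Agent.GAM.Quar
import Pool.Agent.GAM.Rel
import Pool.Agent.GAM.Rep
import Pool.Agent.GAM.RowS
import Pool.Agent.GAM.Sep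
import Pool.Agent.GAM.SepA
import Pool.Agent.GAM.SepB
import Pool.Agent.GAM.Sgn
import Pool.Agent.GAM.Shift
import Pool.Agent.GAM.SieR
import Pool.Agent.GAM.Sieg
import Pool.Agent.GAM.Spn
import Pool.Agent.GAM.Sup
import Pool.Agent.GAM.Symp
import Pool.Agent.GAM.ThEx
import Pool.Agent.GAM.ThUn
import Pool.Agent.GAM.ThUx
import Pool.Agent.GAM.TorC
import Pool.Agent.GAM.TorD
import Pool.Agent.GAM.TorK
import Pool.Agent.GAM.TorP
import Pool.Agent.GAM.TwB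
import Pool.Agent.GAM.X

/-!
# GAM: assembly (all statements needed for THEOREM C+ and THEOREM G)
-/

set_option autoImplicit false

namespace GAM

namespace All

theorem Hol_ : St_Hol := thm_Hol 
theorem DelR_ : St_DelR := thm_DelR Hol_
theorem ExpL_ : St_ExpL := thm_ExpL DelR_
theorem BasK_ : St_BasK := thm_BasK 
theorem DenK_ : St_DenK := thm_DenK BasK_
theorem Sgn_ : St_Sgn := thm_Sgn DenK_
theorem Symp_ : St_Symp := thm_Symp 
theorem ChiB_ : St_ChiB := thm_ChiB 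
theorem LatK_ : St_LatK := thm_LatK Symp_ ChiB_
theorem BasKK_ : St_BasKK := thm_BasKK BasK_
theorem CorE_ : St_CorE := thm_CorE 
theorem TorP_ : St_TorP := thm_TorP BasKK_ CorE_
theorem TorC_ : St_TorC := thm_TorC 
theorem TorK_ : St_TorK := thm_TorK TorP_ TorC_
theorem ThEx_ : St_ThEx := thm_ThEx 
theorem FinD_ : St_FinD := thm_FinD Hol_
theorem OddD_ : St_OddD := thm_OddD 
theorem Bas_ : St_Bas := thm_Bas FinD_ OddD_
theorem Four_ : St_Four := thm_Four 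
theorem Avg_ : St_Avg := thm_Avg 
theorem ThUn_ : St_ThUn := thm_ThUn Four_ Avg_
theorem Dup_ : St_Dup := thm_Dup Bas_ ThUn_ OddD_
theorem Quar_ : St_Quar := thm_Quar DelR_
theorem DelEx_ : St_DelEx := thm_DelEx Dup_ Quar_ DelR_
theorem Ind1_ : St_Ind1 := thm_Ind1 OddD_
theorem Imm_ : St_Imm := thm_Imm Ind1_ OddD_
theorem Sieg_ : St_Sieg := thm_Sieg 
theorem TorD_ : St_TorD := thm_TorD Sieg_
theorem Per_ : St_Per := thm_Per TorD_ DelR_
theorem C1a_ : St_C1a := thm_C1a DelEx_ Imm_ Per_ DelR_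
theorem C1b_ : St_C1b := thm_C1b DelR_
theorem C1c_ : St_C1c := thm_C1c DelR_
theorem C1_ : St_C1 := thm_C1 C1a_ C1b_ C1c_
theorem Lin_ : St_Lin := thm_Lin 
theorem C2a_ : St_C2a := thm_C2a Lin_
theorem C2b_ : St_C2b := thm_C2b Imm_ DelR_
theorem C2c_ : St_C2c := thm_C2c 
theorem C2_ : St_C2 := thm_C2 C2a_ C2b_ C2c_
theorem ThUx_ : St_ThUx := thm_ThUx ThUn_
theorem C3_ : St_C3 := thm_C3 Lin_ ThUx_ ThUn_ DelR_
theorem C4_ : St_C4 := thm_C4 DelR_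
theorem Add_ : St_Add := thm_Add Bas_
theorem C5_ : St_C5 := thm_C5 Add_ DelR_
theorem CM_ : St_CM := thm_CM C1_ C2_ C3_ C4_ C5_
theorem GenY_ : St_GenY := thm_GenY OddD_
theorem RowS_ : St_RowS := thm_RowS 
theorem ExpT_ : St_ExpT := thm_ExpT GenY_ Imm_ RowS_ DelR_
theorem LevM_ : St_LevM := thm_LevM 
theorem ExpE_ : St_ExpE := thm_ExpE Sgn_ LatK_ TorK_ ThEx_ CM_ ExpT_ LevM_
theorem LatB_ : St_LatB := thm_LatB BasK_
theorem ExpU_ : St_ExpU := thm_ExpU Per_ LatB_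
theorem ExpR_ : St_ExpR := thm_ExpR DelR_
theorem OrdR_ : St_OrdR := thm_OrdR 
theorem OrdB_ : St_OrdB := thm_OrdB OrdR_
theorem NrdF_ : St_NrdF := thm_NrdF OrdR_
theorem ModF_ : St_ModF := thm_ModF OrdR_ OrdB_
theorem Cls_ : St_Cls := thm_Cls OrdR_ NrdF_ ModF_
theorem Mink_ : St_Mink := thm_Mink 
theorem CorG_ : St_CorG := thm_CorG 
theorem CocK_ : St_CocK := thm_CocK BasKK_ OrdB_ Cls_ Mink_ CorG_
theorem MapK_ : St_MapK := thm_MapK 
theorem TwB_ : St_TwB := thm_TwB 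
theorem Ind2_ : St_Ind2 := thm_Ind2 OddD_
theorem HolP_ : St_HolP := thm_HolP 
theorem Gau_ : St_Gau := thm_Gau 
theorem EllI_ : St_EllI := thm_EllI 
theorem EllH_ : St_EllH := thm_EllH HolP_ Gau_ EllI_
theorem GroC_ : St_GroC := thm_GroC 
theorem EllB_ : St_EllB := thm_EllB Gau_ EllI_ GroC_
theorem EllZ_ : St_EllZ := thm_EllZ Gau_ EllI_
theorem Ell_ : St_Ell := thm_Ell EllH_ EllB_ EllZ_ GroC_
theorem GroU_ : St_GroU := thm_GroU 
theorem GroF_ : St_GroF := thm_GroF GroU_ GroC_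
theorem Pts_ : St_Pts := thm_Pts Ind1_ Ind2_ Ell_ GroF_
theorem PsiC_ : St_PsiC := thm_PsiC 
theorem PsiE_ : St_PsiE := thm_PsiE HolP_ Gau_ GroU_
theorem PsiL_ : St_PsiL := thm_PsiL 
theorem PsiT_ : St_PsiT := thm_PsiT PsiC_ PsiE_ PsiL_
theorem Shift_ : St_Shift := thm_Shift Avg_
theorem PsiN_ : St_PsiN := thm_PsiN Shift_ GroU_ Gau_
theorem EquP_ : St_EquP := thm_EquP PsiT_ PsiN_ ThUn_
theorem DirD_ : St_DirD := thm_DirD Gau_ GroU_ HolP_
theorem Equi_ : St_Equi := thm_Equi EquP_ DirD_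
theorem GamI_ : St_GamI := thm_GamI Equi_ PsiL_
theorem PsiJ_ : St_PsiJ := thm_PsiJ GroU_ Gau_
theorem Sup_ : St_Sup := thm_Sup PsiJ_ PsiN_ PsiL_
theorem SieR_ : St_SieR := thm_SieR Sieg_ GamI_ Sup_ Ell_ GroF_
theorem HomI_ : St_HomI := thm_HomI 
theorem MinP_ : St_MinP := thm_MinP 
theorem Rel_ : St_Rel := thm_Rel SieR_ HomI_ MinP_ Ell_ GroF_
theorem EllW_ : St_EllW := thm_EllW Ell_ GroC_
theorem EulW_ : St_EulW := thm_EulW 
theorem DelPsi_ : St_DelPsi := thm_DelPsi Ell_ GroF_ EllW_ EulW_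
theorem DelDR_ : St_DelDR := thm_DelDR 
theorem DelF_ : St_DelF := thm_DelF DelPsi_ DelDR_
theorem DelPD_ : St_DelPD := thm_DelPD DelDR_
theorem Core_ : St_Core := thm_Core Pts_ Rel_ DelF_ DelPD_ Equi_ Ell_ GroF_
theorem X_ : St_X := thm_X Sgn_ LatK_ TorK_ ThEx_ CM_ LevM_ ExpT_ ExpU_ CocK_ MapK_ TwB_ Core_
theorem Cube_ : St_Cube := thm_Cube 
theorem FlipJ_ : St_FlipJ := thm_FlipJ 
theorem Base_ : St_Base := thm_Base 
theorem PsiK1_ : St_PsiK1 := thm_PsiK1 ExpE_ ExpU_ ExpR_ X_ Cube_ FlipJ_ Base_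
theorem Spn_ : St_Spn := thm_Spn FlipJ_ Base_
theorem ExpC_ : St_ExpC := thm_ExpC 
theorem PsiK_ : St_PsiK := thm_PsiK PsiK1_ Spn_ ExpE_ ExpC_
theorem GNex_ : St_GNex := thm_GNex 
theorem Nor_ : St_Nor := thm_Nor DelR_ Ind1_ OddD_
theorem Rep_ : St_Rep := thm_Rep 
theorem LinD_ : St_LinD := thm_LinD DelR_
theorem Quad_ : St_Quad := thm_Quad DelR_ LinD_
theorem Glue_ : St_Glue := thm_Glue 
theorem SepA_ : St_SepA := thm_SepA Glue_
theorem SepB_ : St_SepB := thm_SepB 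
theorem Sep_ : St_Sep := thm_Sep SepA_ SepB_
theorem ImA_ : St_ImA := thm_ImA Glue_
theorem ImB_ : St_ImB := thm_ImB 
theorem AbV_ : St_AbV := thm_AbV Add_ GNex_ Nor_ Rep_ Quad_ Sep_ ImA_ ImB_
theorem Iso_ : St_Iso := thm_Iso Sgn_ LatK_ TorK_ ThEx_ CM_ ExpT_ AbV_
theorem MM_ : St_MM := thm_MM Iso_ ExpE_
theorem Comp_ : St_Comp := thm_Comp 
theorem Bal_ : St_Bal := thm_Bal ExpL_ PsiK_ MM_ Comp_
theorem EulP_ : St_EulP := thm_EulP DelR_
theorem AVDel_ : St_AVDel := thm_AVDel Hol_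
theorem AVFac_ : St_AVFac := thm_AVFac 
theorem AVNz_ : St_AVNz := thm_AVNz 
theorem AVJac_ : St_AVJac := thm_AVJac 
theorem ExpAV_ : St_ExpAV := thm_ExpAV DelR_ EulP_ AVDel_ AVFac_ AVNz_ AVJac_

end All

end GAM
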