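import Pool.Agent.GAM.StA
import Pool.Agent.Squeeze.Smooth
import Pool.Agent.GAM.Bas
import Pool.Agent.GAM.Mer
import Pool.Agent.GAM.QDF

/-!
# GAM: calculus for `H, E, F_x`, entire functions, partial derivatives
-/

set_option autoImplicit false
set_option linter.unusedSectionVars false

namespace GAM

open scoped ComplexConjugate

open Complex

section alg

variable {ι : Type} [Fintype ι]

lemma H_self_pos {x : ι → ℂ} (hx : x ≠ 0) : 0 < (H x x).re := by
  rw [H_self_re]
  obtain ⟨i, hi⟩ := Function.ne_iff.mp hx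
  refine Finset.sum_pos' (fun i _ => by positivity) ⟨i, Finset.mem_univ i, ?_⟩
  have : 0 < ‖x i‖ := norm_pos_iff.mpr hi
  positivity

lemma norm_coord_le (x : ι → ℂ) (a : ι) : ‖x a‖ ^ 2 ≤ (H x x).re := by
  rw [H_self_re]
  exact Finset.single_le_sum (f := fun a => ‖x a‖ ^ 2) (fun i _ => by positivity)
    (Finset.mem_univ a)

lemma E_swap (x y : ι → ℂ) : E y x = -E x y := by
  unfold E
  rw [← H_conj x y, Complex.conj_im]

lemma E_smul_left (c : ℝ) (x y : ι → ℂ) : E (c • x) y = c * E x y := by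
  have : c • x = (c : ℂ) • x := by ext i; simp
  rw [this, E, H_smul_left, Complex.im_ofReal_mul, E]

lemma E_smul_right (c : ℝ) (x y : ι → ℂ) : E x (c • y) = c * E x y := by
  rw [E_swap, E_smul_left, E_swap x y]
  ring

/-- `H x y - H y x = 2 i E x y` -/
lemma H_swap (x y : ι → ℂ) : H y x = H x y - 2 * I * E x y := by
  rw [← H_conj x y, E]
  apply Complex.ext <;> simp
  ring

end alg

section theta

variable {ι : Type} [Fintype ι] {L : Submodule ℤ (ι → ℂ)} {χ θ : (ι → ℂ) → ℂ}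

lemma differentiable_H (w : ι → ℂ) : Differentiable ℂ fun v => H v w := by
  unfold H
  fun_prop

lemma continuous_H : Continuous fun p : (ι → ℂ) × (ι → ℂ) => H p.1 p.2 := by
  unfold H
  fun_prop

lemma F_diff (h : Differentiable ℂ θ) (x : ι → ℂ) : Differentiable ℂ (F θ x) := by
  have h1 := differentiable_H x
  have h2 : Differentiable ℂ fun v => θ (x + v) := h.comp (by fun_prop)
  show Differentiable ℂ fun v => θ (x + v) * exp (-(Real.pi * H v x) - Real.pi / 2 * H x x)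
  exact h2.mul (by fun_prop)

lemma F_at_zero (θ : (ι → ℂ) → ℂ) (x : ι → ℂ) :
    F θ x 0 = θ x * exp (-(Real.pi / 2 * H x x)) := F_apply_zero θ x

/-- (1.1) -/
lemma F_shift (θ : (ι → ℂ) → ℂ) (x w v : ι → ℂ) : F θ (x + w) v = F θ x (v + w) *
    exp (-(Real.pi * H v w) - Real.pi / 2 * H w w + Real.pi * I * E w x) := by
  unfold F
  rw [show x + w + v = x + (v + w) by abel, mul_assoc, ← Complex.exp_add]
  congr 2
  rw [H_add_right, H_add_left, H_add_left, H_add_right, H_add_right, H_swap w x]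
  ring

/-- (1.1), solved for the function at the other point -/
lemma F_shift' (θ : (ι → ℂ) → ℂ) (x w v : ι → ℂ) : F θ x (v + w) = F θ (x + w) v *
    exp (Real.pi * H v w + Real.pi / 2 * H w w - Real.pi * I * E w x) := by
  rw [F_shift, mul_assoc, ← Complex.exp_add]
  rw [show -(Real.pi * H v w) - Real.pi / 2 * H w w + Real.pi * I * E w x +
    (Real.pi * H v w + Real.pi / 2 * H w w - Real.pi * I * E w x) = 0 by ring]
  simp

lemma F_val (θ : (ι → ℂ) → ℂ) (x w : ι → ℂ) : F θ x w = F θ (x + w) 0 *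
    exp (Real.pi / 2 * H w w - Real.pi * I * E w x) := by
  have := F_shift' θ x w 0
  rw [zero_add, H_zero_left, mul_zero, zero_add] at this
  exact this

/-- (1.2) -/
lemma F_lat (h : IsTh L χ θ) {l : ι → ℂ} (hl : l ∈ L) (x v : ι → ℂ) : F θ (x + l) v =
    χ l * exp (Real.pi * I * E x l) * F θ x v := by
  rw [F_shift, F_quasi h hl]
  have : exp (2 * Real.pi * I * E x l) * exp (Real.pi * H v l + Real.pi / 2 * H l l) *
      exp (-(Real.pi * H v l) - Real.pi / 2 * H l l + Real.pi * I * E l x) =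
      exp (Real.pi * I * E x l) := by
    rw [← Complex.exp_add, ← Complex.exp_add]
    congr 1
    rw [E_swap x l]
    push_cast
    ring
  rw [← this]
  ring

lemma PLat.norm_chi (h : PLat L χ) {l : ι → ℂ} (hl : l ∈ L) : ‖χ l‖ = 1 := by
  rcases h.pm l hl with h2 | h2 <;> rw [h2] <;> norm_num

lemma PLat.isLat (h : PLat L χ) : IsLat L := h.basis

/-- the factor of automorphy of `F_x` has absolute value `exp (N (v + l) - N v)`,
`N = π / 2 |v|^2` -/
lemma norm_factor (h : PLat L χ) {l : ι → ℂ} (hl : l ∈ L) (x v : ι → ℂ) :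
    ‖χ l * exp (2 * Real.pi * I * E x l) * exp (Real.pi * H v l + Real.pi / 2 * H l l)‖ =
      Real.exp (Real.pi / 2 * (H (v + l) (v + l)).re - Real.pi / 2 * (H v v).re) := by
  rw [norm_mul, norm_mul, h.norm_chi hl, Complex.norm_exp, Complex.norm_exp]
  have h1 : (2 * Real.pi * I * E x l : ℂ).re = 0 := by simp
  have h2 : (H l v).re = (H v l).re := by rw [← H_conj v l, Complex.conj_re]
  rw [h1, Real.exp_zero, one_mul, one_mul]
  congr 1
  rw [H_add_left, H_add_right, H_add_right]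
  simp only [Complex.add_re, h2]
  have h3 : (Real.pi * H v l : ℂ).re = Real.pi * (H v l).re := Complex.re_ofReal_mul _ _
  have h4 : ((Real.pi : ℂ) / 2 * H l l).re = Real.pi / 2 * (H l l).re := by
    have : ((Real.pi : ℂ) / 2) = ((Real.pi / 2 : ℝ) : ℂ) := by push_cast; rfl
    rw [this, Complex.re_ofReal_mul]
  rw [h3, h4]
  ring

/-- the factor of automorphy of `F_x` -/
noncomputable def fac (χ : (ι → ℂ) → ℂ) (x l v : ι → ℂ) : ℂ :=
  χ l * exp (2 * Real.pi * I * E x l) * exp (Real.pi * H v l + Real.pi / 2 * H l l)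

lemma fac_F (h : PLat L χ) (x : ι → ℂ) :
    Fac L (fac χ x) (fun v => Real.pi / 2 * (H v v).re) := by
  refine ⟨?_, fun l hl => ?_, fun l hl v => norm_factor h hl x v⟩
  · have := (continuous_H (ι := ι)).comp (continuous_id.prodMk continuous_id)
    exact continuous_const.mul (Complex.continuous_re.comp this)
  · unfold fac
    have := differentiable_H l
    fun_prop

lemma hasFac_F (h : IsTh L χ θ) (x : ι → ℂ) : HasFac L (fac χ x) (F θ x) :=
  fun _ hl v => F_quasi h hl x v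

lemma fac_ne (h : PLat L χ) {l : ι → ℂ} (hl : l ∈ L) (x v : ι → ℂ) : fac χ x l v ≠ 0 := by
  unfold fac
  exact mul_ne_zero (mul_ne_zero (h.chi_ne hl) (exp_ne_zero _)) (exp_ne_zero _)

/-- products of factors of automorphy -/
lemma Fac.mul {Λ : Submodule ℤ (ι → ℂ)} {e e' : (ι → ℂ) → (ι → ℂ) → ℂ} {N N' : (ι → ℂ) → ℝ}
    (h : Fac Λ e N) (h' : Fac Λ e' N') : Fac Λ (fun l v => e l v * e' l v)
      (fun v => N v + N' v) := by
  refine ⟨h.cont.add h'.cont, fun l hl => (h.hol l hl).mul (h'.hol l hl), fun l hl v => ?_⟩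
  rw [norm_mul, h.norm l hl, h'.norm l hl, ← Real.exp_add]
  congr 1
  ring

lemma HasFac.mul {Λ : Submodule ℤ (ι → ℂ)} {e e' : (ι → ℂ) → (ι → ℂ) → ℂ}
    {a a' : (ι → ℂ) → ℂ} (h : HasFac Λ e a) (h' : HasFac Λ e' a') :
    HasFac Λ (fun l v => e l v * e' l v) (fun v => a v * a' v) := by
  intro l hl v
  show a (v + l) * a' (v + l) = e l v * e' l v * (a v * a' v)
  rw [h l hl, h' l hl]
  ring

lemma Fac.pow {Λ : Submodule ℤ (ι → ℂ)} {e : (ι → ℂ) → (ι → ℂ) → ℂ} {N : (ι → ℂ) → ℝ}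
    (h : Fac Λ e N) (n : ℕ) : Fac Λ (fun l v => e l v ^ n) (fun v => n * N v) := by
  refine ⟨continuous_const.mul h.cont, fun l hl => (h.hol l hl).pow n, fun l hl v => ?_⟩
  rw [norm_pow, h.norm l hl, ← Real.exp_nat_mul]
  congr 1
  ring

lemma HasFac.pow {Λ : Submodule ℤ (ι → ℂ)} {e : (ι → ℂ) → (ι → ℂ) → ℂ}
    {a : (ι → ℂ) → ℂ} (h : HasFac Λ e a) (n : ℕ) :
    HasFac Λ (fun l v => e l v ^ n) (fun v => a v ^ n) := by
  intro l hl v
  show a (v + l) ^ n = e l v ^ n * a v ^ n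
  rw [h l hl, mul_pow]

lemma PLat.int' (h : PLat L χ) {x l : ι → ℂ} {n : ℤ} (hx : n • x ∈ L) (hl : l ∈ L) :
    ∃ m : ℤ, n * E x l = m := by
  obtain ⟨m, hm⟩ := h.int _ hx _ hl
  exact ⟨m, by rw [← hm, E_zsmul_left]⟩

/-- `n`-th powers of the `F_x`, `n x ∈ L`, have the same factor of automorphy -/
lemma fac_pow (h : PLat L χ) {x l : ι → ℂ} {n : ℕ} (hx : (n : ℤ) • x ∈ L) (hl : l ∈ L)
    (v : ι → ℂ) : fac χ x l v ^ n = fac χ 0 l v ^ n := by
  obtain ⟨m, hm⟩ := h.int' hx hl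
  unfold fac
  rw [mul_pow, mul_pow, mul_pow, mul_pow, ← Complex.exp_nat_mul, ← Complex.exp_nat_mul]
  have : (n : ℂ) * (2 * Real.pi * I * E x l) = m * (2 * Real.pi * I) := by
    have h1 : ((n : ℤ) : ℂ) * (E x l : ℂ) = (m : ℂ) := by exact_mod_cast congrArg (fun t : ℝ => (t : ℂ)) hm
    calc (n : ℂ) * (2 * Real.pi * I * E x l) = (((n : ℤ) : ℂ) * (E x l : ℂ)) * (2 * Real.pi * I) := by
          push_cast; ring
      _ = _ := by rw [h1]
  rw [this, Complex.exp_int_mul_two_pi_mul_I, E_zero_left]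
  simp

lemma exists_theta_ne (h : ∃ v, θ v ≠ 0) (x : ι → ℂ) : ∃ v, F θ x v ≠ 0 := by
  obtain ⟨v, hv⟩ := h
  refine ⟨v - x, ?_⟩
  unfold F
  rw [add_sub_cancel]
  exact mul_ne_zero hv (exp_ne_zero _)

end theta

section ent

variable {ι : Type} [Fintype ι]

/-- an entire function which vanishes on a nonempty open set is zero -/
lemma ent_zero {f : (ι → ℂ) → ℂ} (hf : Differentiable ℂ f) {v₀ : ι → ℂ}
    (h : ∀ᶠ v in nhds v₀, f v = 0) (v : ι → ℂ) : f v = 0 := by
  have h1 : Differentiable ℂ fun t : ℂ => f (v₀ + t • (v - v₀)) := hf.comp (by fun_prop)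
  have h2 : AnalyticOnNhd ℂ (fun t : ℂ => f (v₀ + t • (v - v₀))) Set.univ :=
    fun z _ => h1.analyticAt z
  have h3 : ∀ᶠ t in nhds (0 : ℂ), f (v₀ + t • (v - v₀)) = 0 := by
    have : Continuous fun t : ℂ => v₀ + t • (v - v₀) := by fun_prop
    have h4 := this.tendsto 0
    rw [zero_smul, add_zero] at h4
    exact h4.eventually h
  have h5 := h2.eqOn_zero_of_preconnected_of_eventuallyEq_zero isPreconnected_univ
    (Set.mem_univ 0) h3
  have h6 := h5 (Set.mem_univ 1)
  simpa using h6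

lemma ent_eq {f g : (ι → ℂ) → ℂ} (hf : Differentiable ℂ f) (hg : Differentiable ℂ g)
    {v₀ : ι → ℂ} (h : ∀ᶠ v in nhds v₀, f v = g v) (v : ι → ℂ) : f v = g v := by
  have := ent_zero (f := fun v => f v - g v) (hf.sub hg) (v₀ := v₀)
    (h.mono fun v hv => sub_eq_zero.mpr hv) v
  exact sub_eq_zero.mp this

/-- the ring of entire functions is a domain -/
lemma ent_mul {f g : (ι → ℂ) → ℂ} (hf : Differentiable ℂ f) (hg : Differentiable ℂ g)
    (h : ∀ v, f v * g v = 0) (hf0 : ∃ v, f v ≠ 0) (v : ι → ℂ) : g v = 0 := by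
  obtain ⟨v₀, hv₀⟩ := hf0
  refine ent_zero hg (v₀ := v₀) ?_ v
  filter_upwards [hf.continuous.continuousAt.eventually_ne hv₀] with z hz
  exact (mul_eq_zero.mp (h z)).resolve_left hz

lemma ent_prod_diff {κ : Type} (s : Finset κ) {f : κ → (ι → ℂ) → ℂ}
    (hf : ∀ i ∈ s, Differentiable ℂ (f i)) : Differentiable ℂ fun v => ∏ i ∈ s, f i v := by
  classical
  induction s using Finset.induction_on with
  | empty => simp
  | insert b s hb ih =>
    simp only [Finset.prod_insert hb]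
    exact (hf b (Finset.mem_insert_self _ _)).mul
      (ih fun i hi => hf i (Finset.mem_insert_of_mem hi))

lemma ent_prod_ne {κ : Type} (s : Finset κ) {f : κ → (ι → ℂ) → ℂ}
    (hf : ∀ i ∈ s, Differentiable ℂ (f i)) (h : ∀ i ∈ s, ∃ v, f i v ≠ 0) :
    ∃ v, ∀ i ∈ s, f i v ≠ 0 := by
  classical
  induction s using Finset.induction_on with
  | empty => exact ⟨0, by simp⟩
  | insert a s ha ih =>
    have h1 := ih (fun i hi => hf i (Finset.mem_insert_of_mem hi))
      (fun i hi => h i (Finset.mem_insert_of_mem hi))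
    obtain ⟨v, hv⟩ := h1
    have h2 : Differentiable ℂ fun v => ∏ i ∈ s, f i v :=
      ent_prod_diff s fun i hi => hf i (Finset.mem_insert_of_mem hi)
    obtain ⟨w, hw⟩ := ent_mul_ne (hf a (Finset.mem_insert_self _ _)) h2
      (h a (Finset.mem_insert_self _ _)) ⟨v, Finset.prod_ne_zero_iff.mpr hv⟩
    obtain ⟨hw1, hw2⟩ := mul_ne_zero_iff.mp hw
    refine ⟨w, fun i hi => ?_⟩
    rcases Finset.mem_insert.mp hi with rfl | hi
    · exact hw1
    · exact Finset.prod_ne_zero_iff.mp hw2 i hi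

/-- two continuous functions which agree where `f ≠ 0` are equal -/
lemma eq_of_ent {f g₁ g₂ : (ι → ℂ) → ℂ} (hf : Differentiable ℂ f) (h : ∃ v, f v ≠ 0)
    (h1 : Continuous g₁) (h2 : Continuous g₂) (h3 : ∀ v, f v ≠ 0 → g₁ v = g₂ v) : g₁ = g₂ :=
  Continuous.ext_on (ent_dense hf h) h1 h2 fun v hv => h3 v hv

end ent

section pd

variable {ι : Type} [Fintype ι] [DecidableEq ι]

lemma dd_diff {f : (ι → ℂ) → ℂ} (hf : Differentiable ℂ f) (h : ι → ℂ) :
    Differentiable ℂ (dd h f) := by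
  have h1 := Pool.Agent.Squeeze.differentiableOn_fderiv_apply
    (U := (Set.univ : Set (ι → ℂ))) (f := f) hf.differentiableOn isOpen_univ h
  exact differentiableOn_univ.mp h1

lemma pd_eq_dd (a : ι) (f : (ι → ℂ) → ℂ) : pd a f = dd (Pi.single a 1) f := rfl

lemma pd_diff {f : (ι → ℂ) → ℂ} (hf : Differentiable ℂ f) (a : ι) :
    Differentiable ℂ (pd a f) := dd_diff hf _

lemma dd_eq_sum (h : ι → ℂ) (f : (ι → ℂ) → ℂ) (v : ι → ℂ) : dd h f v = ∑ a, h a * pd a f v := by
  unfold dd pd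
  conv_lhs => rw [pi_eq_sum_univ' h, map_sum]
  refine Finset.sum_congr rfl fun a _ => ?_
  rw [map_smul, smul_eq_mul]

lemma pd_add {f g : (ι → ℂ) → ℂ} {v : ι → ℂ} (hf : DifferentiableAt ℂ f v)
    (hg : DifferentiableAt ℂ g v) (a : ι) :
    pd a (fun z => f z + g z) v = pd a f v + pd a g v := by
  unfold pd
  rw [fderiv_fun_add hf hg]
  rfl

lemma pd_sub {f g : (ι → ℂ) → ℂ} {v : ι → ℂ} (hf : DifferentiableAt ℂ f v)
    (hg : DifferentiableAt ℂ g v) (a : ι) :
    pd a (fun z => f z - g z) v = pd a f v - pd a g v := by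
  unfold pd
  rw [fderiv_fun_sub hf hg]
  rfl

lemma pd_mul {f g : (ι → ℂ) → ℂ} {v : ι → ℂ} (hf : DifferentiableAt ℂ f v)
    (hg : DifferentiableAt ℂ g v) (a : ι) :
    pd a (fun z => f z * g z) v = pd a f v * g v + f v * pd a g v := by
  unfold pd
  rw [fderiv_fun_mul hf hg]
  simp
  ring

lemma pd_pow {f : (ι → ℂ) → ℂ} {v : ι → ℂ} (hf : DifferentiableAt ℂ f v) (n : ℕ) (a : ι) :
    pd a (fun z => f z ^ n) v = n * f v ^ (n - 1) * pd a f v := by
  unfold pd
  rw [fderiv_fun_pow n hf]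
  simp [mul_assoc]

lemma pd_div {f g : (ι → ℂ) → ℂ} {v : ι → ℂ} (hf : DifferentiableAt ℂ f v)
    (hg : DifferentiableAt ℂ g v) (h0 : g v ≠ 0) (a : ι) :
    pd a (fun z => f z / g z) v = (pd a f v * g v - f v * pd a g v) / g v ^ 2 := by
  have hq : DifferentiableAt ℂ (fun z => f z / g z) v := by
    simp only [div_eq_mul_inv]
    exact hf.mul (hg.inv h0)
  have h1 : (fun z => f z / g z * g z) =ᶠ[nhds v] f := by
    filter_upwards [hg.continuousAt.eventually_ne h0] with z hz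
    exact div_mul_cancel₀ _ hz
  have h2 : pd a (fun z => f z / g z * g z) v = pd a f v := by
    unfold pd
    rw [h1.fderiv_eq]
  rw [pd_mul hq hg] at h2
  rw [← h2]
  field_simp
  ring

lemma pd_const (c : ℂ) (v : ι → ℂ) (a : ι) : pd a (fun _ => c) v = 0 := by
  unfold pd
  simp

lemma pd_const_mul {f : (ι → ℂ) → ℂ} {v : ι → ℂ} (hf : DifferentiableAt ℂ f v) (c : ℂ) (a : ι) :
    pd a (fun z => c * f z) v = c * pd a f v := by
  rw [pd_mul (differentiableAt_const c) hf, pd_const, zero_mul, zero_add]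

lemma pd_neg (f : (ι → ℂ) → ℂ) (v : ι → ℂ) (a : ι) : pd a (fun z => -f z) v = -pd a f v := by
  unfold pd
  rw [fderiv_fun_neg]
  rfl

lemma pd_sum {κ : Type} (s : Finset κ) {f : κ → (ι → ℂ) → ℂ} {v : ι → ℂ}
    (hf : ∀ i ∈ s, DifferentiableAt ℂ (f i) v) (a : ι) :
    pd a (fun z => ∑ i ∈ s, f i z) v = ∑ i ∈ s, pd a (f i) v := by
  unfold pd
  rw [fderiv_fun_sum hf]
  simp

lemma pd_coord (a b : ι) (v : ι → ℂ) : pd a (fun z => z b) v = if a = b then 1 else 0 := by
  unfold pd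
  have h : fderiv ℂ (fun z : ι → ℂ => z b) v = ContinuousLinearMap.proj b :=
    (ContinuousLinearMap.proj (R := ℂ) (φ := fun _ : ι => ℂ) b).fderiv
  rw [h, ContinuousLinearMap.proj_apply, Pi.single_apply]
  by_cases hab : a = b
  · simp [hab]
  · simp [hab, Ne.symm hab]

lemma pd_comp_add (f : (ι → ℂ) → ℂ) (w v : ι → ℂ) (a : ι) :
    pd a (fun z => f (z + w)) v = pd a f (v + w) := by
  unfold pd
  rw [fderiv_comp_add_right]

lemma pd_comp_add_left (f : (ι → ℂ) → ℂ) (w v : ι → ℂ) (a : ι) :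
    pd a (fun z => f (w + z)) v = pd a f (w + v) := by
  unfold pd
  rw [fderiv_comp_add_left]

lemma pd_exp {f : (ι → ℂ) → ℂ} {v : ι → ℂ} (hf : DifferentiableAt ℂ f v) (a : ι) :
    pd a (fun z => exp (f z)) v = exp (f v) * pd a f v := by
  unfold pd
  rw [hf.hasFDerivAt.cexp.fderiv]
  simp

lemma pd_H (w v : ι → ℂ) (a : ι) : pd a (fun z => H z w) v = conj (w a) := by
  unfold H
  rw [pd_sum _ (fun i _ => by fun_prop)]
  have : ∀ i, pd a (fun z : ι → ℂ => z i * conj (w i)) v = if a = i then conj (w i) else 0 := by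
    intro i
    rw [pd_mul (by fun_prop) (by fun_prop), pd_const, pd_coord]
    by_cases h : a = i <;> simp [h]
  simp [this]

/-- partial derivatives of `θ` at a translated point: `∂_a f (v + l) = e (∂_a f v + π conj l_a f v)`
for functions with the factor of automorphy of `F_x` -/
lemma pd_F_quasi {L : Submodule ℤ (ι → ℂ)} {χ θ : (ι → ℂ) → ℂ} (h : IsTh L χ θ) {l : ι → ℂ}
    (hl : l ∈ L) (x v : ι → ℂ) (a : ι) :
    pd a (F θ x) (v + l) = fac χ x l v * (pd a (F θ x) v + Real.pi * conj (l a) * F θ x v) := by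
  have h1 : (fun z => F θ x (z + l)) = fun z => fac χ x l z * F θ x z :=
    funext fun z => F_quasi h hl x z
  have hF := F_diff h.ent x
  have hd : Differentiable ℂ fun v : ι → ℂ => H v l := differentiable_H l
  have hc : DifferentiableAt ℂ (fac χ x l) v := by
    unfold fac
    fun_prop
  rw [← pd_comp_add, h1, pd_mul hc hF.differentiableAt]
  have h2 : pd a (fac χ x l) v = fac χ x l v * (Real.pi * conj (l a)) := by
    unfold fac
    rw [pd_const_mul (by fun_prop), pd_exp (by fun_prop), pd_add (by fun_prop) (by fun_prop),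
      pd_const, pd_const_mul (by fun_prop), pd_H]
    ring
  rw [h2]
  ring

lemma pd_comm {f : (ι → ℂ) → ℂ} (hf : Differentiable ℂ f) (a b : ι) (v : ι → ℂ) :
    pd a (pd b f) v = pd b (pd a f) v := by
  have h2 : ContDiffAt ℂ 2 f v := by
    have := Pool.Agent.Squeeze.contDiffOn_of_differentiableOn (U := (Set.univ : Set (ι → ℂ))) isOpen_univ 2
      (f := f) hf.differentiableOn
    exact (this.contDiffAt Filter.univ_mem)
  have h3 := h2.isSymmSndFDerivAt (by simp)
  have h4 : DifferentiableAt ℂ (fderiv ℂ f) v :=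
    (h2.fderiv_right (m := 1) (by norm_num)).differentiableAt (by norm_num)
  have h5 : ∀ x y : ι → ℂ, fderiv ℂ (fun z => fderiv ℂ f z x) v y =
      fderiv ℂ (fderiv ℂ f) v y x := by
    intro x y
    rw [fderiv_clm_apply h4 (by fun_prop)]
    simp
  show fderiv ℂ (fun z => fderiv ℂ f z (Pi.single b 1)) v (Pi.single a 1) =
    fderiv ℂ (fun z => fderiv ℂ f z (Pi.single a 1)) v (Pi.single b 1)
  rw [h5, h5]
  exact h3.eq _ _

end pd

end GAM
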