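import Pool.Agent.GAM.StC
import Pool.Agent.GAM.Mer
import Pool.Agent.Helper7.Deriv

/-!
# GAM [AVDel]: the normalised theta functions of an abelian variety have algebraic Taylor
coefficients
-/

set_option autoImplicit false
set_option linter.unusedSectionVars false
set_option linter.unusedVariables false

namespace GAM

open scoped ComplexConjugate Topology
open Filter
open Pool.Agent.GPC (AbVar)

section ring

variable {ι κ : Type} [Fintype ι] [DecidableEq ι]

/-- The ring generated by the `u_j`, the first derivatives and the inverse of one of them, over the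
algebraic numbers, up to equality near the origin. -/
private inductive AVDel_R (u : κ → (ι → ℂ) → ℂ) (i₀ : κ) : ((ι → ℂ) → ℂ) → Prop
  | const (c : ℂ) (hc : IsAlgebraic ℚ c) : AVDel_R u i₀ (fun _ => c)
  | u (j : κ) : AVDel_R u i₀ (u j)
  | du (b : ι) : AVDel_R u i₀ (pd b (u i₀))
  | inv : AVDel_R u i₀ (fun z => (u i₀ z)⁻¹)
  | add (f g : (ι → ℂ) → ℂ) (hf : AVDel_R u i₀ f) (hg : AVDel_R u i₀ g) :
      AVDel_R u i₀ (fun z => f z + g z)
  | mul (f g : (ι → ℂ) → ℂ) (hf : AVDel_R u i₀ f) (hg : AVDel_R u i₀ g) :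
      AVDel_R u i₀ (fun z => f z * g z)
  | congr (f g : (ι → ℂ) → ℂ) (hf : AVDel_R u i₀ f) (h : ∀ᶠ z in 𝓝 0, f z = g z) :
      AVDel_R u i₀ g

variable {u : κ → (ι → ℂ) → ℂ} {i₀ : κ}

private lemma AVDel_pow {f : (ι → ℂ) → ℂ} (hf : AVDel_R u i₀ f) (n : ℕ) :
    AVDel_R u i₀ (fun z => f z ^ n) := by
  induction n with
  | zero => simpa using AVDel_R.const (u := u) (i₀ := i₀) 1 isAlgebraic_one
  | succ n ih =>
    simp only [pow_succ]
    exact AVDel_R.mul _ _ ih hf

private lemma AVDel_sum {α : Type} (s : Finset α) (f : α → (ι → ℂ) → ℂ)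
    (hf : ∀ i ∈ s, AVDel_R u i₀ (f i)) : AVDel_R u i₀ (fun z => ∑ i ∈ s, f i z) := by
  classical
  induction s using Finset.induction_on with
  | empty => simpa using AVDel_R.const (u := u) (i₀ := i₀) 0 isAlgebraic_zero
  | insert a s ha ih =>
    simp only [Finset.sum_insert ha]
    exact AVDel_R.add _ _ (hf a (Finset.mem_insert_self _ _))
      (ih fun i hi => hf i (Finset.mem_insert_of_mem hi))

private lemma AVDel_prod {α : Type} (s : Finset α) (f : α → (ι → ℂ) → ℂ)
    (hf : ∀ i ∈ s, AVDel_R u i₀ (f i)) : AVDel_R u i₀ (fun z => ∏ i ∈ s, f i z) := by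
  classical
  induction s using Finset.induction_on with
  | empty => simpa using AVDel_R.const (u := u) (i₀ := i₀) 1 isAlgebraic_one
  | insert a s ha ih =>
    simp only [Finset.prod_insert ha]
    exact AVDel_R.mul _ _ (hf a (Finset.mem_insert_self _ _))
      (ih fun i hi => hf i (Finset.mem_insert_of_mem hi))

private lemma AVDel_poly [Fintype κ] {Q : MvPolynomial κ ℂ} (hQ : ∀ m, IsAlgebraic ℚ (Q.coeff m)) :
    AVDel_R u i₀ (fun z => MvPolynomial.eval (fun k => u k z) Q) := by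
  simp only [MvPolynomial.eval_eq']
  refine AVDel_sum _ _ fun m _ => ?_
  exact AVDel_R.mul _ _ (AVDel_R.const _ (hQ m)) (AVDel_prod _ _ fun i _ =>
    AVDel_pow (AVDel_R.u i) _)

/-- The hypotheses on the functions `u_j`. -/
private structure AVDel_H (u : κ → (ι → ℂ) → ℂ) (i₀ : κ) : Prop where
  ent : ∀ j, Differentiable ℂ (u j)
  alg : ∀ j, IsAlgebraic ℚ (u j 0)
  one : u i₀ 0 = 1
  zero : ∀ b, pd b (u i₀) 0 = 0
  W : ∀ a j, ∃ Q : MvPolynomial κ ℂ, (∀ m, IsAlgebraic ℚ (Q.coeff m)) ∧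
    ∀ z, u i₀ z * pd a (u j) z - u j z * pd a (u i₀) z = MvPolynomial.eval (fun k => u k z) Q
  S : ∀ a b, ∃ Q : MvPolynomial κ ℂ, (∀ m, IsAlgebraic ℚ (Q.coeff m)) ∧
    ∀ z, u i₀ z * pd a (pd b (u i₀)) z - pd a (u i₀) z * pd b (u i₀) z =
      MvPolynomial.eval (fun k => u k z) Q

private lemma AVDel_ne (h : AVDel_H u i₀) : ∀ᶠ z in 𝓝 (0 : ι → ℂ), u i₀ z ≠ 0 := by
  have h1 : ContinuousAt (u i₀) 0 := (h.ent i₀).continuous.continuousAt
  exact h1.eventually_ne (by rw [h.one]; exact one_ne_zero)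

private lemma AVDel_diff (h : AVDel_H u i₀) {f : (ι → ℂ) → ℂ} (hf : AVDel_R u i₀ f) :
    ∀ᶠ z in 𝓝 (0 : ι → ℂ), DifferentiableAt ℂ f z := by
  induction hf with
  | const c hc => exact Eventually.of_forall fun z => by fun_prop
  | u j => exact Eventually.of_forall fun z => h.ent j z
  | du b => exact Eventually.of_forall fun z => ent_pd (h.ent i₀) b z
  | inv =>
    filter_upwards [AVDel_ne h] with z hz
    exact (h.ent i₀ z).inv hz
  | add f g _ _ ihf ihg =>
    filter_upwards [ihf, ihg] with z h1 h2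
    exact h1.add h2
  | mul f g _ _ ihf ihg =>
    filter_upwards [ihf, ihg] with z h1 h2
    exact h1.mul h2
  | congr f g _ hfg ihf =>
    filter_upwards [ihf, hfg.eventually_nhds] with z h1 h2
    exact h1.congr_of_eventuallyEq (h2.mono fun _ e => e.symm)

private lemma AVDel_val (h : AVDel_H u i₀) {f : (ι → ℂ) → ℂ} (hf : AVDel_R u i₀ f) :
    IsAlgebraic ℚ (f 0) := by
  induction hf with
  | const c hc => exact hc
  | u j => exact h.alg j
  | du b => rw [h.zero b]; exact isAlgebraic_zero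
  | inv =>
    show IsAlgebraic ℚ (u i₀ 0)⁻¹
    rw [h.one, inv_one]; exact isAlgebraic_one
  | add f g _ _ ihf ihg => exact ihf.add ihg
  | mul f g _ _ ihf ihg => exact ihf.mul ihg
  | congr f g _ hfg ihf =>
    rw [← hfg.self_of_nhds]; exact ihf

private lemma AVDel_pd [Fintype κ] (h : AVDel_H u i₀) {f : (ι → ℂ) → ℂ} (hf : AVDel_R u i₀ f)
    (a : ι) : AVDel_R u i₀ (pd a f) := by
  induction hf with
  | const c hc =>
    refine AVDel_R.congr _ _ (AVDel_R.const 0 isAlgebraic_zero) (Eventually.of_forall fun z => ?_)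
    rw [pd_const']
  | u j =>
    obtain ⟨Q, hQ, hW⟩ := h.W a j
    refine AVDel_R.congr _ _ (AVDel_R.mul _ _ (AVDel_R.add _ _ (AVDel_R.mul _ _ (AVDel_R.u j)
      (AVDel_R.du a)) (AVDel_poly hQ)) AVDel_R.inv) ?_
    filter_upwards [AVDel_ne h] with z hz
    rw [← hW z, ← div_eq_mul_inv, div_eq_iff hz]
    ring
  | du b =>
    obtain ⟨Q, hQ, hS⟩ := h.S a b
    refine AVDel_R.congr _ _ (AVDel_R.mul _ _ (AVDel_R.add _ _ (AVDel_R.mul _ _ (AVDel_R.du a)
      (AVDel_R.du b)) (AVDel_poly hQ)) AVDel_R.inv) ?_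
    filter_upwards [AVDel_ne h] with z hz
    rw [← hS z, ← div_eq_mul_inv, div_eq_iff hz]
    ring
  | inv =>
    refine AVDel_R.congr _ _ (AVDel_R.mul _ _ (AVDel_R.const (-1) isAlgebraic_one.neg)
      (AVDel_R.mul _ _ (AVDel_R.du a) (AVDel_R.mul _ _ AVDel_R.inv AVDel_R.inv))) ?_
    filter_upwards [AVDel_ne h] with z hz
    have e1 : pd a (fun z => (u i₀ z)⁻¹) z = pd a (fun z => (fun _ => (1 : ℂ)) z / u i₀ z) z := by
      simp only [one_div]
    rw [e1, pd_div' (by fun_prop) (h.ent i₀ z) hz, pd_const']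
    field_simp
    ring
  | add f g hf hg ihf ihg =>
    refine AVDel_R.congr _ _ (AVDel_R.add _ _ ihf ihg) ?_
    filter_upwards [AVDel_diff h hf, AVDel_diff h hg] with z h1 h2
    rw [pd_add' h1 h2]
  | mul f g hf hg ihf ihg =>
    refine AVDel_R.congr _ _ (AVDel_R.add _ _ (AVDel_R.mul _ _ ihf hg)
      (AVDel_R.mul _ _ hf ihg)) ?_
    filter_upwards [AVDel_diff h hf, AVDel_diff h hg] with z h1 h2
    rw [pd_mul' h1 h2]
  | congr f g hf hfg ihf =>
    refine AVDel_R.congr _ _ ihf ?_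
    filter_upwards [hfg.eventually_nhds] with z hz
    unfold pd
    rw [Filter.EventuallyEq.fderiv_eq hz]

private lemma AVDel_pdl [Fintype κ] (h : AVDel_H u i₀) {f : (ι → ℂ) → ℂ} (hf : AVDel_R u i₀ f)
    (l : List ι) : AVDel_R u i₀ (pdl l f) := by
  induction l with
  | nil => exact hf
  | cons a l ih => exact AVDel_pd h ih a

private lemma AVDel_pdl_zero (l : List ι) : pdl l (fun _ : ι → ℂ => (0 : ℂ)) = fun _ => 0 := by
  induction l with
  | nil => rfl
  | cons a l ih =>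
    show pd a (pdl l fun _ => 0) = _
    rw [ih]
    funext v
    exact pd_const' 0 v a

private lemma AVDel_isDel [Fintype κ] (h : AVDel_H u i₀) (j : κ) (δ : Derivation ℚ ℂ ℂ) :
    IsDel δ (u j) (fun _ => 0) where
  ent := h.ent j
  ent' := by fun_prop
  del l := by
    rw [AVDel_pdl_zero]
    exact (Pool.Agent.Helper7.derivation_eq_zero δ _
      (AVDel_val h (AVDel_pdl h (AVDel_R.u j) l))).symm

end ring

/-- evaluation of a form at a multiple -/
private lemma AVDel_hom {κ : Type} [Fintype κ] {Q : MvPolynomial κ ℂ} {n : ℕ}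
    (hQ : Q.IsHomogeneous n) (t : ℂ) (x : κ → ℂ) :
    MvPolynomial.eval (fun k => t * x k) Q = t ^ n * MvPolynomial.eval x Q := by
  rw [MvPolynomial.eval_eq', MvPolynomial.eval_eq', Finset.mul_sum]
  refine Finset.sum_congr rfl fun m hm => ?_
  have h1 : ∑ i, m i = n := by
    have h2 := hQ (MvPolynomial.mem_support_iff.1 hm)
    simpa [Finsupp.weight_apply, Finsupp.sum_fintype] using h2
  simp only [mul_pow, Finset.prod_mul_distrib, Finset.prod_pow_eq_pow_sum, h1]
  ring

section factor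

variable {ι : Type} [Fintype ι] [DecidableEq ι]

private noncomputable def AVDel_L (c : ι → ℂ) : (ι → ℂ) →L[ℂ] ℂ :=
  ∑ a, (-(c a)) • ContinuousLinearMap.proj (R := ℂ) a

private lemma AVDel_L_apply (c z : ι → ℂ) : AVDel_L c z = -∑ a, c a * z a := by
  unfold AVDel_L
  rw [sum_apply, ← Finset.sum_neg_distrib]
  refine Finset.sum_congr rfl fun a _ => ?_
  simp

private lemma AVDel_L_single (c : ι → ℂ) (a : ι) : AVDel_L c (Pi.single a 1) = -c a := by
  rw [AVDel_L_apply, Finset.sum_eq_single a]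
  · simp
  · intro b _ hb
    simp [hb]
  · intro h
    exact absurd (Finset.mem_univ _) h

private noncomputable def AVDel_K (c : ι → ℂ) (t : ℂ) (z : ι → ℂ) : ℂ :=
  Complex.exp (AVDel_L c z) / t

private lemma AVDel_K_deriv (c : ι → ℂ) (t : ℂ) (z : ι → ℂ) :
    HasFDerivAt (AVDel_K c t) (AVDel_K c t z • AVDel_L c) z := by
  have h1 : HasFDerivAt (fun z => Complex.exp (AVDel_L c z))
      (Complex.exp (AVDel_L c z) • AVDel_L c) z := (AVDel_L c).hasFDerivAt.cexp
  have h2 := h1.mul_const t⁻¹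
  have e1 : (AVDel_K c t z • AVDel_L c) = t⁻¹ • Complex.exp (AVDel_L c z) • AVDel_L c := by
    rw [smul_smul]
    congr 1
    unfold AVDel_K
    rw [div_eq_mul_inv]; ring
  rw [e1]
  exact h2

private lemma AVDel_K_diff (c : ι → ℂ) (t : ℂ) : Differentiable ℂ (AVDel_K c t) :=
  fun z => (AVDel_K_deriv c t z).differentiableAt

private lemma AVDel_K_pd (c : ι → ℂ) (t : ℂ) (a : ι) (z : ι → ℂ) :
    pd a (AVDel_K c t) z = -(c a * AVDel_K c t z) := by
  unfold pd
  rw [(AVDel_K_deriv c t z).fderiv]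
  show AVDel_K c t z * AVDel_L c (Pi.single a 1) = _
  rw [AVDel_L_single]; ring

private lemma AVDel_pd1 (c : ι → ℂ) (t : ℂ) {f : (ι → ℂ) → ℂ} (hf : Differentiable ℂ f) (a : ι) :
    pd a (fun z => AVDel_K c t z * f z) = fun z => AVDel_K c t z * (pd a f z - c a * f z) := by
  funext z
  rw [pd_mul' (AVDel_K_diff c t z) (hf z), AVDel_K_pd]
  ring

private lemma AVDel_pd2 (c : ι → ℂ) (t : ℂ) {f : (ι → ℂ) → ℂ} (hf : Differentiable ℂ f)
    (a b : ι) (z : ι → ℂ) :
    pd a (pd b (fun z => AVDel_K c t z * f z)) z = AVDel_K c t z * (pd a (pd b f) z -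
      c b * pd a f z - c a * (pd b f z - c b * f z)) := by
  rw [AVDel_pd1 c t hf b]
  have h1 : Differentiable ℂ (fun z => pd b f z - c b * f z) :=
    (ent_pd hf b).sub (hf.const_mul _)
  rw [AVDel_pd1 c t h1 a]
  show AVDel_K c t z * (pd a (fun z => pd b f z - c b * f z) z - c a * (pd b f z - c b * f z)) = _
  rw [pd_sub' (ent_pd hf b z) ((hf.const_mul _) z), pd_const_mul' (hf z)]

end factor

theorem thm_AVDel (hH : St_Hol) : St_AVDel := by
  intro X
  obtain ⟨i₀, hi₀⟩ := X.embedding.base_free 0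
  set t : ℂ := X.θ i₀ 0 with ht
  set c : Fin X.g → ℂ := fun a => pd a (X.θ i₀) 0 / t with hc
  refine ⟨i₀, c, hi₀, ?_⟩
  have hent : ∀ j, Differentiable ℂ (X.θ j) := fun j z =>
    ((X.theta j).entire z (Set.mem_univ z)).differentiableAt
  set u : Fin (X.N + 1) → (Fin X.g → ℂ) → ℂ := fun j z => AVDel_K c t z * X.θ j z with hu
  have hue : ∀ j, u j = fun z => Complex.exp (-∑ a, c a * z a) * X.θ j z / X.θ i₀ 0 := by
    intro j
    funext z
    rw [hu]
    simp only
    unfold AVDel_K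
    rw [AVDel_L_apply, ← ht]; ring
  have hK0 : AVDel_K c t 0 = 1 / t := by
    unfold AVDel_K
    rw [map_zero, Complex.exp_zero]
  have hyp : AVDel_H u i₀ := by
    refine ⟨?_, ?_, ?_, ?_, ?_, ?_⟩
    · intro j
      exact (AVDel_K_diff c t).mul (hent j)
    · intro j
      have h1 := X.algebraic.origin i₀ j hi₀
      have h2 : u j 0 = X.θ j 0 / X.θ i₀ 0 := by
        rw [hu]
        simp only
        rw [hK0, ← ht]; ring
      rw [h2]; exact h1
    · rw [hu]
      simp only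
      rw [hK0, ← ht]
      field_simp
    · intro b
      rw [hu]
      simp only
      rw [AVDel_pd1 c t (hent i₀) b]
      simp only
      rw [← ht, hc]
      simp only
      field_simp
      ring
    · intro a j
      obtain ⟨Q, hQ, hW⟩ := X.algebraic.wronskian a i₀ j
      refine ⟨Q, hQ.2, fun z => ?_⟩
      rw [hu]
      simp only
      rw [AVDel_hom hQ.1, ← hW z, AVDel_pd1 c t (hent j) a, AVDel_pd1 c t (hent i₀) a]
      show _ = AVDel_K c t z ^ 2 * (X.θ i₀ z * pd a (X.θ j) z - X.θ j z * pd a (X.θ i₀) z)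
      ring
    · intro a b
      obtain ⟨Q, hQ, hS⟩ := X.algebraic.second a b i₀
      refine ⟨Q, hQ.2, fun z => ?_⟩
      rw [hu]
      simp only
      rw [AVDel_hom hQ.1, ← hS z, AVDel_pd2 c t (hent i₀) a b, AVDel_pd1 c t (hent i₀) a,
        AVDel_pd1 c t (hent i₀) b]
      show _ = AVDel_K c t z ^ 2 * (X.θ i₀ z * pd a (pd b (X.θ i₀)) z -
        pd a (X.θ i₀) z * pd b (X.θ i₀) z)
      ring
  intro j δ
  have h1 := AVDel_isDel hyp j δ
  rw [hue j] at h1
  exact h1

end GAM
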