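import Pool.Agent.GAM.StD2
import Pool.Agent.GAM.Bas

/-!
# GAM / ExpT: exponents from theta functions
-/

set_option autoImplicit false
set_option linter.unusedSectionVars false

namespace GAM

open scoped ComplexConjugate

section expt

variable {ι S : Type} [Fintype ι] [DecidableEq ι] [Fintype S] [DecidableEq S]

/-- The matrix of the map `T`. -/
noncomputable def ExpT_T (j : S → ι) (r : S → ℝ) : Matrix ι S ℂ :=
  Matrix.of fun i s => if i = j s then (r s : ℂ) else 0

lemma ExpT_mulVec (j : S → ι) (r : S → ℝ) (v : S → ℂ) :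
    (ExpT_T j r).mulVec v = ∑ s, Pi.single (j s) ((r s : ℂ) * v s) := by
  funext i
  rw [Finset.sum_apply]
  simp only [Matrix.mulVec, dotProduct, ExpT_T, Matrix.of_apply]
  apply Finset.sum_congr rfl
  intro s _
  by_cases h : i = j s
  · subst h
    simp
  · rw [if_neg h, Pi.single_eq_of_ne h, zero_mul]

lemma ExpT_alg (j : S → ι) (r : S → ℝ) (hr : ∀ s, IsAlgebraic ℚ (r s : ℂ)) (i : ι) (s : S) :
    IsAlgebraic ℚ (ExpT_T j r i s) := by
  unfold ExpT_T
  rw [Matrix.of_apply]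
  split_ifs
  · exact hr s
  · exact isAlgebraic_zero

lemma ExpT_single (j : S → ι) (r : S → ℝ) (s : S) :
    (ExpT_T j r).mulVec (Pi.single s 1) = (r s : ℂ) • Pi.single (j s) (1 : ℂ) := by
  rw [ExpT_mulVec, Finset.sum_eq_single s]
  · rw [Pi.single_eq_same, mul_one, ← Pi.single_smul, smul_eq_mul, mul_one]
  · intro s' _ hs
    rw [Pi.single_eq_of_ne hs, mul_zero, Pi.single_zero]
  · intro h
    exact absurd (Finset.mem_univ s) h

/-- The map `T` as a continuous linear map. -/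
noncomputable def ExpT_L (j : S → ι) (r : S → ℝ) : (S → ℂ) →L[ℂ] (ι → ℂ) :=
  LinearMap.toContinuousLinearMap (Matrix.mulVecLin (ExpT_T j r))

lemma ExpT_L_apply (j : S → ι) (r : S → ℝ) (v : S → ℂ) :
    ExpT_L j r v = (ExpT_T j r).mulVec v := rfl

/-- chain rule -/
lemma ExpT_pd (j : S → ι) (r : S → ℝ) (f : (ι → ℂ) → ℂ) (v : S → ℂ)
    (hf : DifferentiableAt ℂ f ((ExpT_T j r).mulVec v)) (s : S) :
    pd s (fun z => f ((ExpT_T j r).mulVec z)) v = (r s : ℂ) * pd (j s) f ((ExpT_T j r).mulVec v) := by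
  have h1 : HasFDerivAt (fun z => f ((ExpT_T j r).mulVec z))
      ((fderiv ℂ f ((ExpT_T j r).mulVec v)).comp (ExpT_L j r)) v :=
    HasFDerivAt.comp v (g := f) (f := fun z => (ExpT_T j r).mulVec z) hf.hasFDerivAt
      (ExpT_L j r).hasFDerivAt
  unfold pd
  rw [h1.fderiv, ContinuousLinearMap.comp_apply, ExpT_L_apply, ExpT_single, map_smul, smul_eq_mul]

/-- Euler operators -/
lemma ExpT_eul (j : S → ι) (r : S → ℝ) (A : ι → ℂ) (f : (ι → ℂ) → ℂ) (hf : Differentiable ℂ f)
    (v : S → ℂ) :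
    eul (fun s => A (j s)) (fun z => f ((ExpT_T j r).mulVec z)) v =
      eul A f ((ExpT_T j r).mulVec v) := by
  unfold eul
  have h1 : ∀ i : ι, A i * (ExpT_T j r).mulVec v i * pd i f ((ExpT_T j r).mulVec v) =
      ∑ s, if i = j s then A (j s) * v s * ((r s : ℂ) * pd (j s) f ((ExpT_T j r).mulVec v))
        else 0 := by
    intro i
    simp only [Matrix.mulVec, dotProduct, ExpT_T, Matrix.of_apply]
    rw [Finset.mul_sum, Finset.sum_mul]
    apply Finset.sum_congr rfl
    intro s _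
    by_cases h : i = j s
    · subst h
      rw [if_pos rfl, if_pos rfl]
      ring
    · rw [if_neg h, if_neg h]
      ring
  rw [Finset.sum_congr rfl fun i _ => h1 i, Finset.sum_comm]
  apply Finset.sum_congr rfl
  intro s _
  rw [Finset.sum_ite_eq' Finset.univ (j s), if_pos (Finset.mem_univ _),
    ExpT_pd j r f v (hf _)]

/-- the Euler operator is a derivation -/
lemma ExpT_eul_mul (A : ι → ℂ) (f g : (ι → ℂ) → ℂ) (hf : Differentiable ℂ f)
    (hg : Differentiable ℂ g) (v : ι → ℂ) :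
    eul A (fun z => f z * g z) v = eul A f v * g v + f v * eul A g v := by
  unfold eul
  rw [Finset.sum_mul, Finset.mul_sum, ← Finset.sum_add_distrib]
  apply Finset.sum_congr rfl
  intro a _
  unfold pd
  rw [fderiv_fun_mul (hf v) (hg v)]
  simp only [add_apply, smul_apply, smul_eq_mul]
  ring

lemma ExpT_eul_one (A : ι → ℂ) (v : ι → ℂ) : eul A (fun _ => (1 : ℂ)) v = 0 := by
  unfold eul
  apply Finset.sum_eq_zero
  intro a _
  unfold pd
  rw [fderiv_const_apply, zero_apply, mul_zero]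

/-- powers -/
lemma ExpT_pow {δ : Derivation ℚ ℂ ℂ} (hR : DelRules ι δ) (A : ι → ℂ) (k : ℂ)
    (f : (ι → ℂ) → ℂ) (hf : IsDel δ f (fun v => k * f v + eul A f v)) (n : ℕ) :
    IsDel δ (fun v => f v ^ n)
      (fun v => (n : ℂ) * k * f v ^ n + eul A (fun v => f v ^ n) v) := by
  induction n with
  | zero =>
    have h1 := hR.const 1
    have h2 : (fun v : ι → ℂ => ((0 : ℕ) : ℂ) * k * f v ^ 0 + eul A (fun v => f v ^ 0) v) =
        fun _ => δ 1 := by
      funext v
      simp only [pow_zero]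
      rw [ExpT_eul_one, Nat.cast_zero, zero_mul, zero_mul, add_zero, Derivation.map_one_eq_zero]
    rw [h2]
    simpa only [pow_zero] using h1
  | succ n ih =>
    have h1 := hR.mul _ _ _ _ ih hf
    have h2 : (fun v : ι → ℂ => ((n + 1 : ℕ) : ℂ) * k * f v ^ (n + 1) +
        eul A (fun v => f v ^ (n + 1)) v) =
        fun v => ((n : ℂ) * k * f v ^ n + eul A (fun v => f v ^ n) v) * f v +
          f v ^ n * (k * f v + eul A f v) := by
      funext v
      have h3 : eul A (fun v => f v ^ (n + 1)) v =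
          eul A (fun v => f v ^ n) v * f v + f v ^ n * eul A f v := by
        rw [← ExpT_eul_mul A (fun v => f v ^ n) f (hf.ent.pow n) hf.ent v]
        simp only [pow_succ]
      rw [h3]
      push_cast
      ring
    rw [h2]
    simpa only [pow_succ] using h1

/-- the numerators and denominators -/
lemma ExpT_del {δ : Derivation ℚ ℂ ℂ} (hR : DelRules ι δ) (A : ι → ℂ) (k : ℂ)
    (f : (ι → ℂ) → ℂ) (hf : IsDel δ f (fun v => k * f v + eul A f v)) (n : ℕ) (j : S → ι)
    (r : S → ℝ) (hr : ∀ s, IsAlgebraic ℚ (r s : ℂ)) :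
    IsDel δ (fun v : S → ℂ => f ((ExpT_T j r).mulVec v) ^ n)
      (fun v => (n : ℂ) * k * f ((ExpT_T j r).mulVec v) ^ n +
        eul (fun s => A (j s)) (fun v : S → ℂ => f ((ExpT_T j r).mulVec v) ^ n) v) := by
  have h1 := hR.lin S (ExpT_T j r) _ _ (ExpT_alg j r hr) (ExpT_pow hR A k f hf n)
  have h2 : (fun v : S → ℂ => (n : ℂ) * k * f ((ExpT_T j r).mulVec v) ^ n +
      eul (fun s => A (j s)) (fun v : S → ℂ => f ((ExpT_T j r).mulVec v) ^ n) v) =
      fun v => (n : ℂ) * k * f ((ExpT_T j r).mulVec v) ^ n +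
        eul A (fun v => f v ^ n) ((ExpT_T j r).mulVec v) := by
    funext v
    rw [← ExpT_eul j r A (fun v => f v ^ n) (hf.ent.pow n) v]
  rw [h2]
  exact h1

/-- the point of the lattice -/
lemma ExpT_lat {K : Type} [Field K] [NumberField K] (φ : S → K →+* ℂ) (M : ℕ)
    (L : Submodule ℤ (ι → ℂ)) (j : S → ι) (r : S → ℝ)
    (h : ∀ x : NumberField.RingOfIntegers K, (∑ s, Pi.single (j s) ((r s : ℂ) *
      φ s ((M : K) * (x : K))) : ι → ℂ) ∈ L) (l : S → ℂ) (hl : l ∈ latK K φ M) :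
    (ExpT_T j r).mulVec l ∈ L := by
  unfold latK at hl
  induction hl using Submodule.span_induction with
  | mem x hx =>
    obtain ⟨y, rfl⟩ := hx
    rw [ExpT_mulVec]
    exact h y
  | zero => rw [Matrix.mulVec_zero]; exact L.zero_mem
  | add x y _ _ hx hy => rw [Matrix.mulVec_add]; exact L.add_mem hx hy
  | smul n x _ hx =>
    have h1 : (ExpT_T j r).mulVec (n • x) = n • (ExpT_T j r).mulVec x := by
      rw [← ExpT_L_apply, ← ExpT_L_apply, map_zsmul]
    rw [h1]
    exact L.smul_mem n hx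

/-- quasi-periodicity of the powers -/
lemma ExpT_quasi {L : Submodule ℤ (ι → ℂ)} {χ θ : (ι → ℂ) → ℂ} (hP : PLat L χ)
    (hT : IsTh L χ θ) (x : ι → ℂ) (n : ℕ) (hx : (n : ℤ) • x ∈ L) (l : ι → ℂ) (hl : l ∈ L)
    (v : ι → ℂ) : F θ x (v + l) ^ n = χ l ^ n *
      Complex.exp ((n : ℂ) * (Real.pi * H v l + Real.pi / 2 * H l l)) * F θ x v ^ n := by
  rw [F_quasi hT hl, mul_pow, mul_pow, mul_pow, ← Complex.exp_nat_mul, ← Complex.exp_nat_mul]
  have h1 : (n : ℂ) * (2 * Real.pi * Complex.I * E x l) =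
      2 * Real.pi * Complex.I * ((E ((n : ℤ) • x) l : ℝ) : ℂ) := by
    rw [E_zsmul_left]
    push_cast
    ring
  rw [h1, exp_two_pi_int (hP.E_int hx hl), mul_one]

/-- the real part in the factor of automorphy -/
lemma ExpT_re (n : ℕ) (v l : ι → ℂ) :
    ((n : ℂ) * (Real.pi * H v l + Real.pi / 2 * H l l)).re =
      n * (Real.pi / 2 * (H (v + l) (v + l)).re) - n * (Real.pi / 2 * (H v v).re) := by
  have h1 : (H (v + l) (v + l)).re = (H v v).re + 2 * (H v l).re + (H l l).re := by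
    rw [H_add_left, H_add_right, H_add_right]
    have h2 : (H l v).re = (H v l).re := by
      rw [← H_conj v l, Complex.conj_re]
    simp only [Complex.add_re]
    rw [h2]
    ring
  rw [h1]
  have h3 : ((n : ℂ) * (Real.pi * H v l + Real.pi / 2 * H l l)) =
      (((n : ℝ) * Real.pi : ℝ) : ℂ) * H v l + (((n : ℝ) * (Real.pi / 2) : ℝ) : ℂ) * H l l := by
    push_cast
    ring
  rw [h3, Complex.add_re, Complex.re_ofReal_mul, Complex.re_ofReal_mul]
  ring

lemma ExpT_fac {K : Type} [Field K] [NumberField K] (φ : S → K →+* ℂ) (M : ℕ)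
    {L : Submodule ℤ (ι → ℂ)} {χ : (ι → ℂ) → ℂ} (hP : PLat L χ) (j : S → ι) (r : S → ℝ)
    (h : ∀ x : NumberField.RingOfIntegers K, (∑ s, Pi.single (j s) ((r s : ℂ) *
      φ s ((M : K) * (x : K))) : ι → ℂ) ∈ L) (n : ℕ) :
    Fac (latK K φ M) (fun l v => χ ((ExpT_T j r).mulVec l) ^ n *
      Complex.exp ((n : ℂ) * (Real.pi * H ((ExpT_T j r).mulVec v) ((ExpT_T j r).mulVec l) +
        Real.pi / 2 * H ((ExpT_T j r).mulVec l) ((ExpT_T j r).mulVec l))))
      (fun v => n * (Real.pi / 2 * (H ((ExpT_T j r).mulVec v) ((ExpT_T j r).mulVec v)).re)) where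
  cont := by
    have h1 : Continuous fun v : S → ℂ => (ExpT_T j r).mulVec v := (ExpT_L j r).continuous
    have h2 : Continuous fun u : ι → ℂ => H u u := by
      unfold H
      fun_prop
    exact continuous_const.mul (continuous_const.mul
      (Complex.continuous_re.comp (h2.comp h1)))
  hol := by
    intro l _
    have h1 : Differentiable ℂ fun v : S → ℂ => (ExpT_T j r).mulVec v := (ExpT_L j r).differentiable
    have h2 : Differentiable ℂ fun v : S → ℂ =>
        H ((ExpT_T j r).mulVec v) ((ExpT_T j r).mulVec l) := by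
      have h3 : Differentiable ℂ fun u : ι → ℂ => H u ((ExpT_T j r).mulVec l) := by
        unfold H
        fun_prop
      exact h3.comp h1
    fun_prop
  norm := by
    intro l hl v
    have h1 := ExpT_lat φ M L j r h l hl
    rw [norm_mul, norm_pow, hP.chi_norm h1, one_pow, one_mul, Complex.norm_exp, ExpT_re,
      Matrix.mulVec_add]

end expt

theorem thm_ExpT (h1 : St_GenY) (h2 : St_Imm) (h3 : St_RowS) (h4 : St_DelR) : St_ExpT := by
  intro K _ _ c S ι _ _ _ _ φ δ L χ θ A k j r M _ _ hP hT hne hE hj hr hralg hM hlat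
  refine ⟨M, hM, ?_⟩
  intro P v₀
  classical
  obtain ⟨y, hy, hyP⟩ := h1 ι L χ θ hP hT hne
    (insert ((ExpT_T j r).mulVec v₀) (P.image fun p => (ExpT_T j r).mulVec p))
  have hy0 : F θ y ((ExpT_T j r).mulVec v₀) ≠ 0 := hyP _ (Finset.mem_insert_self _ _)
  obtain ⟨n, cc, hn, hny, hnc, hdet⟩ := h2 ι L χ θ hP hT hne y ((ExpT_T j r).mulVec v₀) hy hy0
  obtain ⟨i, hi⟩ := h3 ι S _ j hdet hj
  have hcodd : ∀ i, OddTor L (cc i) := fun i => ⟨n, hn, hnc i⟩
  have hR : DelRules ι δ := h4 ι δ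
  refine ⟨fun s v => F θ (cc (i s)) ((ExpT_T j r).mulVec v) ^ n,
    fun _ v => F θ y ((ExpT_T j r).mulVec v) ^ n, (n : ℂ) * k, ?_, ?_, ?_, ?_⟩
  · intro s
    refine ⟨ExpT_del hR A k _ (hE _ (hcodd (i s))) n j r hralg,
      ExpT_del hR A k _ (hE _ hy) n j r hralg, ⟨v₀, pow_ne_zero _ hy0⟩,
      ⟨_, _, ExpT_fac φ M hP j r hlat n, ?_, ?_⟩⟩
    · intro l hl v
      simp only
      rw [Matrix.mulVec_add]
      exact ExpT_quasi hP hT _ n (hnc (i s)) _ (ExpT_lat φ M L j r hlat l hl) _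
    · intro l hl v
      simp only
      rw [Matrix.mulVec_add]
      exact ExpT_quasi hP hT _ n hny _ (ExpT_lat φ M L j r hlat l hl) _
  · intro _ p hp
    exact pow_ne_zero _ (hyP _ (Finset.mem_insert_of_mem (Finset.mem_image_of_mem _ hp)))
  · intro _
    exact pow_ne_zero _ hy0
  · have hjac : jac (fun s v => F θ (cc (i s)) ((ExpT_T j r).mulVec v) ^ n)
        (fun _ v => F θ y ((ExpT_T j r).mulVec v) ^ n) v₀ =
        (Matrix.of fun a b : S => jac (fun i z => F θ (cc i) z ^ n) (fun _ z => F θ y z ^ n)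
          ((ExpT_T j r).mulVec v₀) (i a) (j b)) * Matrix.diagonal fun s => (r s : ℂ) := by
      ext a b
      rw [Matrix.mul_diagonal]
      simp only [jac, Matrix.of_apply]
      have e1 : DifferentiableAt ℂ (fun z => F θ (cc (i a)) z ^ n)
          ((ExpT_T j r).mulVec v₀) := (F_differentiable hT (cc (i a)) _).pow n
      have e2 : DifferentiableAt ℂ (fun z => F θ y z ^ n)
          ((ExpT_T j r).mulVec v₀) := (F_differentiable hT y _).pow n
      have hd : DifferentiableAt ℂ (fun z => F θ (cc (i a)) z ^ n / F θ y z ^ n)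
          ((ExpT_T j r).mulVec v₀) := by
        have e3 : (fun z => F θ y z ^ n) ((ExpT_T j r).mulVec v₀) ≠ 0 := pow_ne_zero _ hy0
        have e5 : DifferentiableAt ℂ (fun z => (F θ y z ^ n)⁻¹) ((ExpT_T j r).mulVec v₀) :=
          DifferentiableAt.fun_inv e2 e3
        have e4 : DifferentiableAt ℂ (fun z => F θ (cc (i a)) z ^ n * (F θ y z ^ n)⁻¹)
          ((ExpT_T j r).mulVec v₀) := e1.mul e5
        simp only [div_eq_mul_inv]
        exact e4
      rw [ExpT_pd j r (fun z => F θ (cc (i a)) z ^ n / F θ y z ^ n) v₀ hd b, mul_comm]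
    rw [hjac, Matrix.det_mul, Matrix.det_diagonal]
    refine mul_ne_zero hi (Finset.prod_ne_zero_iff.2 fun s _ => ?_)
    exact_mod_cast (hr s).ne'

end GAM
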