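import Pool.Agent.GAM.StD
import Pool.Agent.GAM.Bas
import Pool.Agent.Helper7.Cohomology

/-!
# GAM: frozen statements, the abelian variety of a principal lattice
-/

set_option autoImplicit false

namespace GAM

open scoped ComplexConjugate

/-- `N` is odd, the functions `F_x`, `x ∈ (1/N) L`, have no common zero and separate the points of
`L / N L`. -/
structure GoodN {ι : Type} [Fintype ι] (L : Submodule ℤ (ι → ℂ)) (θ : (ι → ℂ) → ℂ) (N : ℕ) :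
    Prop where
  odd : Odd N
  pt : ∀ w, ∃ x, (N : ℤ) • x ∈ L ∧ θ (x + w) ≠ 0
  sep : ∀ w, ∀ t ∈ L, (∀ x x', (N : ℤ) • x ∈ L → (N : ℤ) • x' ∈ L → θ (x + w) ≠ 0 →
    θ (x' + w) ≠ 0 → Complex.exp (2 * Real.pi * Complex.I * E x t) =
      Complex.exp (2 * Real.pi * Complex.I * E x' t)) → ∃ m ∈ L, t = (N : ℤ) • m

/-- The formula [Lin], with constants of level `N`. -/
structure LinN {ι : Type} [Fintype ι] (L : Submodule ℤ (ι → ℂ)) (θ : (ι → ℂ) → ℂ) (N r : ℕ)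
    (c : Fin (r + 1) → ι → ℂ) (κ : Fin (r + 1) → (ι → ℂ) → ℂ) : Prop where
  lev : ∀ i, (N : ℤ) • c i ∈ L
  ind : ∀ σ, LinearIndependent ℂ fun (i : Fin (r + 1)) (v : ι → ℂ) =>
    F θ (σ + c i) v * F θ (σ - c i) v
  lin : ∀ σ ρ v, F θ (σ + ρ) v * F θ (σ - ρ) v =
    ∑ i, κ i ρ * (F θ (σ + c i) v * F θ (σ - c i) v)

/-- [GNex] all large odd `N` are good -/
def St_GNex : Prop := ∀ (ι : Type) [Fintype ι] (L : Submodule ℤ (ι → ℂ)) (χ θ : (ι → ℂ) → ℂ),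
  PLat L χ → IsTh L χ θ → (∃ v, θ v ≠ 0) → ∃ N₀ : ℕ, ∀ N : ℕ, N₀ ≤ N → Odd N → GoodN L θ N

/-- [Glue] locally holomorphic quotients -/
def St_Glue : Prop := ∀ (ι : Type) [Fintype ι] (f g : (ι → ℂ) → ℂ), Differentiable ℂ f →
  Differentiable ℂ g → (∃ v, g v ≠ 0) →
  (∀ v₀, ∃ (U : Set (ι → ℂ)) (q : (ι → ℂ) → ℂ), IsOpen U ∧ v₀ ∈ U ∧ DifferentiableOn ℂ q U ∧
    ∀ v ∈ U, f v = q v * g v) →
  ∃ q : (ι → ℂ) → ℂ, Differentiable ℂ q ∧ ∀ v, f v = q v * g v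

/-- [SepA] -/
def St_SepA : Prop := ∀ (ι : Type) [Fintype ι] (L : Submodule ℤ (ι → ℂ)) (χ θ : (ι → ℂ) → ℂ)
  (N r : ℕ) (c : Fin (r + 1) → ι → ℂ) (κ : Fin (r + 1) → (ι → ℂ) → ℂ) (z w : ι → ℂ) (γ : ℂ),
  PLat L χ → IsTh L χ θ → (∃ v, θ v ≠ 0) → GoodN L θ N → LinN L θ N r c κ → γ ≠ 0 →
  (∀ x, (N : ℤ) • x ∈ L → F θ x z = γ * F θ x w) →
  ∃ q : (ι → ℂ) → ℂ, Differentiable ℂ q ∧ (∀ u, q u ≠ 0) ∧ ∀ u, θ (u + z) = q u * θ (u + w)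

/-- [SepB] -/
def St_SepB : Prop := ∀ (ι : Type) [Fintype ι] (L : Submodule ℤ (ι → ℂ)) (χ θ : (ι → ℂ) → ℂ)
  (z w : ι → ℂ) (q : (ι → ℂ) → ℂ), PLat L χ → IsTh L χ θ → (∃ v, θ v ≠ 0) →
  Differentiable ℂ q → (∀ u, q u ≠ 0) → (∀ u, θ (u + z) = q u * θ (u + w)) → z - w ∈ L

/-- [Sep] the functions `F_x`, `x ∈ (1/N) L`, separate points -/
def St_Sep : Prop := ∀ (ι : Type) [Fintype ι] (L : Submodule ℤ (ι → ℂ)) (χ θ : (ι → ℂ) → ℂ)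
  (N r : ℕ) (c : Fin (r + 1) → ι → ℂ) (κ : Fin (r + 1) → (ι → ℂ) → ℂ) (z w : ι → ℂ),
  PLat L χ → IsTh L χ θ → (∃ v, θ v ≠ 0) → GoodN L θ N → LinN L θ N r c κ →
  (∀ x x', (N : ℤ) • x ∈ L → (N : ℤ) • x' ∈ L → F θ x z * F θ x' w = F θ x' z * F θ x w) →
  ∃ m ∈ L, z - w = (N : ℤ) • m

/-- [ImA] -/
def St_ImA : Prop := ∀ (ι : Type) [Fintype ι] (L : Submodule ℤ (ι → ℂ)) (χ θ : (ι → ℂ) → ℂ)
  (N r : ℕ) (c : Fin (r + 1) → ι → ℂ) (κ : Fin (r + 1) → (ι → ℂ) → ℂ) (z t : ι → ℂ) (m : ℂ),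
  PLat L χ → IsTh L χ θ → (∃ v, θ v ≠ 0) → GoodN L θ N → LinN L θ N r c κ →
  (∀ x, (N : ℤ) • x ∈ L → dd t (F θ x) z = m * F θ x z) →
  ∃ η : (ι → ℂ) → ℂ, Differentiable ℂ η ∧ ∀ u, dd t θ u = η u * θ u

/-- [ImB] -/
def St_ImB : Prop := ∀ (ι : Type) [Fintype ι] (L : Submodule ℤ (ι → ℂ)) (χ θ : (ι → ℂ) → ℂ)
  (t : ι → ℂ) (η : (ι → ℂ) → ℂ), PLat L χ → IsTh L χ θ → (∃ v, θ v ≠ 0) →
  Differentiable ℂ η → (∀ u, dd t θ u = η u * θ u) → t = 0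

/-- The normalised functions. -/
noncomputable def Tn {ι : Type} [Fintype ι] (θ : (ι → ℂ) → ℂ) (μ : ι → ℂ) (y x : ι → ℂ)
    (z : ι → ℂ) : ℂ := F θ x (fun a => (μ a)⁻¹ * z a) / F θ y 0

/-- Normalisation: the Taylor coefficients of the functions `Tn` are killed by all
derivations. -/
structure Norm {ι : Type} [Fintype ι] [DecidableEq ι] (L : Submodule ℤ (ι → ℂ))
    (θ : (ι → ℂ) → ℂ) (A : Derivation ℚ ℂ ℂ → ι → ℂ) (μ y : ι → ℂ) : Prop where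
  ne : ∀ a, μ a ≠ 0
  tor : OddTor L y
  ney : F θ y 0 ≠ 0
  exp : ∀ δ a, δ (μ a) = A δ a * μ a
  del : ∀ (δ : Derivation ℚ ℂ ℂ) x, OddTor L x → IsDel δ (Tn θ μ y x) (fun _ => 0)

/-- [Nor] normalisation -/
def St_Nor : Prop := ∀ (ι : Type) [Fintype ι] [DecidableEq ι] (L : Submodule ℤ (ι → ℂ))
  (χ θ : (ι → ℂ) → ℂ) (A : Derivation ℚ ℂ ℂ → ι → ℂ) (k : Derivation ℚ ℂ ℂ → ℂ),
  PLat L χ → IsTh L χ θ → (∃ v, θ v ≠ 0) → (∀ δ, HasExp δ L θ (A δ) (k δ)) →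
  ∃ μ y, Norm L θ A μ y

/-- [LinD] coefficients of linear combinations are algebraic -/
def St_LinD : Prop := ∀ (ι κ : Type) [Fintype ι] [DecidableEq ι] [Fintype κ]
  (f : κ → (ι → ℂ) → ℂ) (g : (ι → ℂ) → ℂ) (c : κ → ℂ), LinearIndependent ℂ f →
  (∀ (δ : Derivation ℚ ℂ ℂ) i, IsDel δ (f i) (fun _ => 0)) →
  (∀ δ : Derivation ℚ ℂ ℂ, IsDel δ g (fun _ => 0)) → (∀ v, g v = ∑ i, c i * f i v) →
  ∀ i, IsAlgebraic ℚ (c i)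

/-- [Rep] representatives of `(1/N) L / L` -/
def St_Rep : Prop := ∀ (ι : Type) [Fintype ι] (L : Submodule ℤ (ι → ℂ)) (N : ℕ), IsLat L →
  N ≠ 0 → ∃ (M : ℕ) (X : Fin (M + 1) → ι → ℂ), (∀ j, (N : ℤ) • X j ∈ L) ∧
    ∀ x, (N : ℤ) • x ∈ L → ∃ j, x - X j ∈ L

/-- [Quad] the Wronskians and the second logarithmic derivatives are quadratic forms with
algebraic coefficients -/
def St_Quad : Prop := ∀ (ι : Type) [Fintype ι] [DecidableEq ι] (L : Submodule ℤ (ι → ℂ))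
  (χ θ : (ι → ℂ) → ℂ) (A : Derivation ℚ ℂ ℂ → ι → ℂ) (μ y : ι → ℂ) (N r : ℕ)
  (c : Fin (r + 1) → ι → ℂ) (κ : Fin (r + 1) → (ι → ℂ) → ℂ)
  (κ₁ : ι → Fin (r + 1) → (ι → ℂ) → ℂ) (κ₂ : ι → ι → Fin (r + 1) → ℂ) (M : ℕ)
  (X : Fin (M + 1) → ι → ℂ), PLat L χ → IsTh L χ θ → (∃ v, θ v ≠ 0) → Norm L θ A μ y →
  GoodN L θ N → LinN L θ N r c κ →
  (∀ a σ ρ v, pd a (F θ (σ + ρ)) v * F θ (σ - ρ) v - F θ (σ + ρ) v * pd a (F θ (σ - ρ)) v =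
      ∑ i, κ₁ a i ρ * (F θ (σ + c i) v * F θ (σ - c i) v)) →
  (∀ a b σ v, F θ σ v * pd a (pd b (F θ σ)) v - pd a (F θ σ) v * pd b (F θ σ) v =
      ∑ i, κ₂ a b i * (F θ (σ + c i) v * F θ (σ - c i) v)) →
  (∀ j, (N : ℤ) • X j ∈ L) → (∀ x, (N : ℤ) • x ∈ L → ∃ j, x - X j ∈ L) →
  (∀ a i j, ∃ Q : MvPolynomial (Fin (M + 1)) ℂ, Pool.Agent.GPC.IsAlgQuadratic Q ∧
    ∀ z, Tn θ μ y (X i) z * pd a (Tn θ μ y (X j)) z - Tn θ μ y (X j) z * pd a (Tn θ μ y (X i)) z =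
      MvPolynomial.eval (fun k => Tn θ μ y (X k) z) Q) ∧
  (∀ a b i, ∃ Q : MvPolynomial (Fin (M + 1)) ℂ, Pool.Agent.GPC.IsAlgQuadratic Q ∧
    ∀ z, Tn θ μ y (X i) z * pd a (pd b (Tn θ μ y (X i))) z -
        pd a (Tn θ μ y (X i)) z * pd b (Tn θ μ y (X i)) z =
      MvPolynomial.eval (fun k => Tn θ μ y (X k) z) Q)

/-- The abelian variety attached to the lattice `μ N L`. -/
structure AbOf {ι : Type} [Fintype ι] (L : Submodule ℤ (ι → ℂ))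
    (A : Derivation ℚ ℂ ℂ → ι → ℂ) (X : Pool.Agent.GPC.AbVar) (e : Fin X.g ≃ ι) (μ : ι → ℂ)
    (N : ℕ) : Prop where
  ne : ∀ a, μ a ≠ 0
  exp : ∀ δ a, δ (μ a) = A δ a * μ a
  pos : N ≠ 0
  lat : ∀ z, z ∈ X.Λ ↔ ∃ l ∈ L, ∀ j, z j = μ (e j) * ((N : ℂ) * l (e j))
  herm : X.H = Matrix.diagonal fun j => ((‖μ (e j)‖ ^ 2 : ℝ) : ℂ)⁻¹
  q : X.q = 0

/-- [AbV] the abelian variety of a principal lattice with exponents -/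
def St_AbV : Prop := ∀ (ι : Type) [Fintype ι] [DecidableEq ι] (L : Submodule ℤ (ι → ℂ))
  (χ θ : (ι → ℂ) → ℂ) (A : Derivation ℚ ℂ ℂ → ι → ℂ) (k : Derivation ℚ ℂ ℂ → ℂ),
  PLat L χ → IsTh L χ θ → (∃ v, θ v ≠ 0) → (∀ δ, HasExp δ L θ (A δ) (k δ)) →
  ∃ (X : Pool.Agent.GPC.AbVar) (e : Fin X.g ≃ ι) (μ : ι → ℂ) (N : ℕ), AbOf L A X e μ N

end GAM
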