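import Pool.Agent.GAM.StD2
import Pool.Agent.GAM.Bas

/-!
# GAM, module DirD: derivatives of the Fock vectors in the directions of the block `u`
-/

set_option autoImplicit false
set_option linter.unusedSectionVars false

namespace GAM

open scoped ComplexConjugate
open MeasureTheory

section dirD

variable {S : Type} [Fintype S] [DecidableEq S]

lemma dirD_embD_H (v w : S) (hvw : v ≠ w) (z : Fin 2 → ℂ) (ξ : ℂ × ℂ) :
    (H (embD v w z ξ) (embD v w z ξ)).re =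
      (1 + ‖z 0‖ ^ 2) * ‖ξ.1‖ ^ 2 + (1 + ‖z 1‖ ^ 2) * ‖ξ.2‖ ^ 2 := by
  rw [H_self_re, Fintype.sum_prod_type, Fintype.sum_eq_add v w hvw]
  · simp only [Fin.sum_univ_two]
    have e1 : embD v w z ξ (v, 0) = ξ.1 := by simp [embD]
    have e2 : embD v w z ξ (v, 1) = z 0 * conj ξ.1 := by simp [embD]
    have e3 : embD v w z ξ (w, 0) = ξ.2 := by simp [embD, hvw.symm]
    have e4 : embD v w z ξ (w, 1) = z 1 * conj ξ.2 := by simp [embD, hvw.symm]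
    rw [e1, e2, e3, e4, norm_mul, norm_mul, RCLike.norm_conj, RCLike.norm_conj]
    ring
  · rintro s ⟨h1, h2⟩
    simp [embD, h1, h2]

lemma dirD_embD_cont (v w : S) (z : Fin 2 → ℂ) : Continuous fun ξ : ℂ × ℂ => embD v w z ξ := by
  apply continuous_pi
  intro p
  unfold embD
  have h1 : Continuous fun ξ : ℂ × ℂ => conj ξ.1 := Complex.continuous_conj.comp continuous_fst
  have h2 : Continuous fun ξ : ℂ × ℂ => conj ξ.2 := Complex.continuous_conj.comp continuous_snd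
  split_ifs <;> fun_prop

lemma dirD_gw_cont : Continuous gw := by
  unfold gw
  have h1 : Continuous fun ξ : ℂ × ℂ => conj ξ.1 := Complex.continuous_conj.comp continuous_fst
  have h2 : Continuous fun ξ : ℂ × ℂ => conj ξ.2 := Complex.continuous_conj.comp continuous_snd
  fun_prop

lemma dirD_H_left (u v w : S) (huv : u ≠ v) (huw : u ≠ w) (z : Fin 2 → ℂ) (ξ : ℂ × ℂ)
    (h : Fin 2 → ℂ) : H (embD v w z ξ) (hU u h) = 0 := by
  unfold H
  apply Finset.sum_eq_zero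
  rintro ⟨s, i⟩ _
  by_cases hs : s = u
  · subst hs
    simp [embD, huv, huw]
  · simp [hU, hs]

lemma dirD_H_right (u v w : S) (huv : u ≠ v) (huw : u ≠ w) (z : Fin 2 → ℂ) (ξ : ℂ × ℂ)
    (h : Fin 2 → ℂ) : H (hU u h) (embD v w z ξ) = 0 := by
  rw [← H_conj, dirD_H_left u v w huv huw, map_zero]

lemma dirD_H_add (u v w : S) (huv : u ≠ v) (huw : u ≠ w) (z : Fin 2 → ℂ) (ξ : ℂ × ℂ)
    (h : Fin 2 → ℂ) (t : ℂ) :
    (H (embD v w z ξ + t • hU u h) (embD v w z ξ + t • hU u h)).re =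
      (H (embD v w z ξ) (embD v w z ξ)).re + ‖t‖ ^ 2 * (H (hU u h) (hU u h)).re := by
  rw [H_add_left, H_add_right, H_add_right, H_smul_left, H_smul_right, H_smul_right, H_smul_left,
    dirD_H_left u v w huv huw, dirD_H_right u v w huv huw, mul_zero, mul_zero, add_zero, zero_add,
    Complex.add_re, ← mul_assoc, Complex.conj_mul']
  have : ((‖t‖ : ℂ) ^ 2 * H (hU u h) (hU u h)).re = ‖t‖ ^ 2 * (H (hU u h) (hU u h)).re := by
    rw [← Complex.ofReal_pow, Complex.re_ofReal_mul]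
  rw [this]

lemma dirD_hU (u : S) (h : Fin 2 → ℂ) :
    hU u h = h 0 • (Pi.single (u, 0) 1 : S × Fin 2 → ℂ) +
      h 1 • (Pi.single (u, 1) 1 : S × Fin 2 → ℂ) := by
  funext ⟨s, i⟩
  by_cases hs : s = u
  · subst hs
    fin_cases i
    · simp [hU]
    · simp [hU]
  · simp [hU, hs]

end dirD

/-- the derivative under the integral sign -/
theorem dirD_main (h1 : St_Gau) (h2 : St_GroU) (h3 : St_HolP) {S : Type} [Fintype S]
    [DecidableEq S] {u v w : S} {L : Submodule ℤ (S × Fin 2 → ℂ)}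
    {χ θ : (S × Fin 2 → ℂ) → ℂ} (huv : u ≠ v) (huw : u ≠ w) (hvw : v ≠ w) (hP : PLat L χ)
    (hT : IsTh L χ θ) {z : Fin 2 → ℂ} (hz : z ∈ D2) (x : S × Fin 2 → ℂ) (h : Fin 2 → ℂ) :
    Integrable (fun ξ : ℂ × ℂ => fderiv ℂ (F θ x) (embD v w z ξ) (hU u h) * gw ξ) ∧
    HasDerivAt (fun t : ℂ => ∫ ξ : ℂ × ℂ, F θ x (embD v w z ξ + t • hU u h) * gw ξ)
      (∫ ξ : ℂ × ℂ, fderiv ℂ (F θ x) (embD v w z ξ) (hU u h) * gw ξ) 0 := by
  obtain ⟨C, hC, hCF⟩ := h2 _ L χ θ hP hT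
  obtain ⟨g1, -, g3, -⟩ := h1
  obtain ⟨r, hr0, hr1, hr⟩ : ∃ r : ℝ, 0 ≤ r ∧ r < 1 ∧ ∀ i, ‖z i‖ ^ 2 ≤ r := by
    refine ⟨max (‖z 0‖ ^ 2) (‖z 1‖ ^ 2), by positivity, ?_, ?_⟩
    · have a0 := hz 0
      have a1 := hz 1
      have b0 := norm_nonneg (z 0)
      have b1 := norm_nonneg (z 1)
      apply max_lt <;> nlinarith
    · intro i
      fin_cases i
      · exact le_max_left _ _
      · exact le_max_right _ _
  set c : ℝ := Real.pi / 2 * (1 - r) with hc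
  have hcpos : 0 < c := by
    have := Real.pi_pos
    have : 0 < 1 - r := by linarith
    positivity
  have hgauss := g1 c hcpos
  have hFd := F_differentiable hT x
  let f : (Fin 1 → ℂ) → ℂ × ℂ → ℂ := fun s ξ => F θ x (embD v w z ξ + s 0 • hU u h) * gw ξ
  have hfc : Continuous fun p : (Fin 1 → ℂ) × (ℂ × ℂ) => f p.1 p.2 := by
    have c1 : Continuous fun p : (Fin 1 → ℂ) × (ℂ × ℂ) =>
        embD v w z p.2 + p.1 0 • hU u h := by
      have c2 := (dirD_embD_cont v w z).comp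
        (continuous_snd : Continuous fun p : (Fin 1 → ℂ) × (ℂ × ℂ) => p.2)
      have c3 : Continuous fun p : (Fin 1 → ℂ) × (ℂ × ℂ) => p.1 0 • hU u h := by fun_prop
      exact c2.add c3
    exact (hFd.continuous.comp c1).mul (dirD_gw_cont.comp continuous_snd)
  have hin : ∀ ξ, HasFDerivAt (fun s : Fin 1 → ℂ => embD v w z ξ + s 0 • hU u h)
      ((ContinuousLinearMap.proj (R := ℂ) (φ := fun _ : Fin 1 => ℂ) 0).smulRight (hU u h)) 0 := by
    intro ξ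
    exact ((ContinuousLinearMap.proj (R := ℂ) (φ := fun _ : Fin 1 => ℂ) 0).hasFDerivAt.smul_const
      (hU u h)).const_add (embD v w z ξ)
  have hfd : ∀ ξ, Differentiable ℂ fun s => f s ξ := by
    intro ξ
    have c1 : Differentiable ℂ fun s : Fin 1 → ℂ => embD v w z ξ + s 0 • hU u h := by fun_prop
    exact (hFd.comp c1).mul_const _
  have hdom : ∀ s₀ ∈ (Set.univ : Set (Fin 1 → ℂ)), ∃ (δ : ℝ) (B : ℂ × ℂ → ℝ), 0 < δ ∧
      Integrable B ∧ ∀ s, ‖s - s₀‖ < δ → ∀ ξ, ‖f s ξ‖ ≤ B ξ := by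
    intro s₀ _
    refine ⟨1, fun ξ => (C * Real.exp (Real.pi / 2 * ((‖s₀ 0‖ + 1) ^ 2 *
      (H (hU u h) (hU u h)).re))) * Real.exp (-(c * (‖ξ.1‖ ^ 2 + ‖ξ.2‖ ^ 2))), one_pos,
      hgauss.const_mul _, ?_⟩
    intro s hs ξ
    have hs0 : ‖s 0‖ ≤ ‖s₀ 0‖ + 1 := by
      have e1 : ‖(s - s₀) 0‖ ≤ ‖s - s₀‖ := norm_le_pi_norm (s - s₀) 0
      have e2 : ‖s 0‖ ≤ ‖s₀ 0‖ + ‖s 0 - s₀ 0‖ := by
        have := norm_add_le (s₀ 0) (s 0 - s₀ 0)
        rwa [add_sub_cancel] at this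
      rw [Pi.sub_apply] at e1
      linarith
    show ‖F θ x (embD v w z ξ + s 0 • hU u h) * gw ξ‖ ≤ _
    rw [norm_mul, g3]
    have e1 := hCF x (embD v w z ξ + s 0 • hU u h)
    rw [dirD_H_add u v w huv huw, dirD_embD_H v w hvw] at e1
    have hHn := H_self_nonneg (hU u h)
    have e3 : Real.exp (Real.pi / 2 * ((1 + ‖z 0‖ ^ 2) * ‖ξ.1‖ ^ 2 +
        (1 + ‖z 1‖ ^ 2) * ‖ξ.2‖ ^ 2 + ‖s 0‖ ^ 2 * (H (hU u h) (hU u h)).re)) *
        Real.exp (-(Real.pi * (‖ξ.1‖ ^ 2 + ‖ξ.2‖ ^ 2))) ≤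
        Real.exp (Real.pi / 2 * ((‖s₀ 0‖ + 1) ^ 2 * (H (hU u h) (hU u h)).re)) *
        Real.exp (-(c * (‖ξ.1‖ ^ 2 + ‖ξ.2‖ ^ 2))) := by
      rw [← Real.exp_add, ← Real.exp_add]
      apply Real.exp_le_exp.mpr
      have p1 : ‖z 0‖ ^ 2 * ‖ξ.1‖ ^ 2 ≤ r * ‖ξ.1‖ ^ 2 :=
        mul_le_mul_of_nonneg_right (hr 0) (by positivity)
      have p2 : ‖z 1‖ ^ 2 * ‖ξ.2‖ ^ 2 ≤ r * ‖ξ.2‖ ^ 2 :=
        mul_le_mul_of_nonneg_right (hr 1) (by positivity)
      have hpi := Real.pi_pos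
      have p3 := mul_le_mul_of_nonneg_left p1 hpi.le
      have p4 := mul_le_mul_of_nonneg_left p2 hpi.le
      have p5 : ‖s 0‖ ^ 2 * (H (hU u h) (hU u h)).re ≤
          (‖s₀ 0‖ + 1) ^ 2 * (H (hU u h) (hU u h)).re :=
        mul_le_mul_of_nonneg_right (pow_le_pow_left₀ (norm_nonneg _) hs0 2) hHn
      have p6 := mul_le_mul_of_nonneg_left p5 hpi.le
      rw [hc]
      nlinarith
    calc ‖F θ x (embD v w z ξ + s 0 • hU u h)‖ * Real.exp (-(Real.pi * (‖ξ.1‖ ^ 2 + ‖ξ.2‖ ^ 2)))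
        ≤ (C * Real.exp (Real.pi / 2 * ((1 + ‖z 0‖ ^ 2) * ‖ξ.1‖ ^ 2 +
          (1 + ‖z 1‖ ^ 2) * ‖ξ.2‖ ^ 2 + ‖s 0‖ ^ 2 * (H (hU u h) (hU u h)).re))) *
          Real.exp (-(Real.pi * (‖ξ.1‖ ^ 2 + ‖ξ.2‖ ^ 2))) :=
          mul_le_mul_of_nonneg_right e1 (by positivity)
      _ = C * (Real.exp (Real.pi / 2 * ((1 + ‖z 0‖ ^ 2) * ‖ξ.1‖ ^ 2 +
          (1 + ‖z 1‖ ^ 2) * ‖ξ.2‖ ^ 2 + ‖s 0‖ ^ 2 * (H (hU u h) (hU u h)).re)) *
          Real.exp (-(Real.pi * (‖ξ.1‖ ^ 2 + ‖ξ.2‖ ^ 2)))) := by ring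
      _ ≤ C * (Real.exp (Real.pi / 2 * ((‖s₀ 0‖ + 1) ^ 2 * (H (hU u h) (hU u h)).re)) *
          Real.exp (-(c * (‖ξ.1‖ ^ 2 + ‖ξ.2‖ ^ 2)))) := mul_le_mul_of_nonneg_left e3 hC.le
      _ = _ := by ring
  obtain ⟨k1, k2⟩ := h3 (Fin 1) Set.univ f isOpen_univ hfc hfd hdom
  obtain ⟨k3, k4⟩ := k2 0 (Set.mem_univ _) 0
  have hpd : ∀ ξ, pd (0 : Fin 1) (fun s => f s ξ) 0 =
      fderiv ℂ (F θ x) (embD v w z ξ) (hU u h) * gw ξ := by
    intro ξ
    have e0 : embD v w z ξ + (0 : Fin 1 → ℂ) 0 • hU u h = embD v w z ξ := by simp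
    have e1 : HasFDerivAt (F θ x) (fderiv ℂ (F θ x) (embD v w z ξ))
        (embD v w z ξ + (0 : Fin 1 → ℂ) 0 • hU u h) := by
      rw [e0]
      exact (hFd _).hasFDerivAt
    have e2 := (e1.comp (0 : Fin 1 → ℂ) (hin ξ)).mul_const (gw ξ)
    unfold pd
    have e3 : fderiv ℂ (fun s => f s ξ) 0 = gw ξ • ((fderiv ℂ (F θ x) (embD v w z ξ)).comp
      ((ContinuousLinearMap.proj (R := ℂ) (φ := fun _ : Fin 1 => ℂ) 0).smulRight (hU u h))) :=
      e2.fderiv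
    rw [e3]
    simp [mul_comm]
  simp only [hpd] at k3 k4
  refine ⟨k3, ?_⟩
  rw [← k4]
  have e4 : HasFDerivAt (fun s : Fin 1 → ℂ => ∫ ξ, f s ξ)
      (fderiv ℂ (fun s : Fin 1 → ℂ => ∫ ξ, f s ξ) 0) ((fun t : ℂ => fun _ : Fin 1 => t) 0) := by
    have : ((fun t : ℂ => fun _ : Fin 1 => t) 0) = (0 : Fin 1 → ℂ) := rfl
    rw [this]
    exact (k1.differentiableAt Filter.univ_mem).hasFDerivAt
  have e5 : HasDerivAt (fun t : ℂ => fun _ : Fin 1 => t) (fun _ : Fin 1 => (1 : ℂ)) 0 :=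
    hasDerivAt_pi.mpr fun _ => hasDerivAt_id 0
  have e6 := e4.comp_hasDerivAt (0 : ℂ) e5
  have e7 : (fun _ : Fin 1 => (1 : ℂ)) = Pi.single 0 1 := by
    funext i
    fin_cases i
    simp
  rw [e7] at e6
  exact e6

theorem thm_DirD (h1 : St_Gau) (h2 : St_GroU) (h3 : St_HolP) : St_DirD := by
  intro S _ _ u v w L χ θ huv huw hvw hP hT z hz x h
  obtain ⟨-, hd⟩ := dirD_main h1 h2 h3 huv huw hvw hP hT hz x h
  have hi : ∀ i : Fin 2, Integrable (fun ξ : ℂ × ℂ => pd (u, i) (F θ x) (embD v w z ξ) * gw ξ) := by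
    intro i
    obtain ⟨hi, -⟩ := dirD_main h1 h2 h3 huv huw hvw hP hT hz x (Pi.single i 1)
    have e : hU u (Pi.single i (1 : ℂ)) = (Pi.single (u, i) 1 : S × Fin 2 → ℂ) := by
      rw [dirD_hU]
      fin_cases i <;> simp
    rw [e] at hi
    exact hi
  have hval : ∫ ξ : ℂ × ℂ, fderiv ℂ (F θ x) (embD v w z ξ) (hU u h) * gw ξ =
      h 0 * dpsi v w u 0 θ z x + h 1 * dpsi v w u 1 θ z x := by
    have e1 : ∀ ξ : ℂ × ℂ, fderiv ℂ (F θ x) (embD v w z ξ) (hU u h) * gw ξ =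
        h 0 * (pd (u, 0) (F θ x) (embD v w z ξ) * gw ξ) +
        h 1 * (pd (u, 1) (F θ x) (embD v w z ξ) * gw ξ) := by
      intro ξ
      rw [dirD_hU, map_add, map_smul, map_smul]
      unfold pd
      simp only [smul_eq_mul]
      ring
    simp only [e1]
    rw [integral_add ((hi 0).const_mul _) ((hi 1).const_mul _), integral_const_mul,
      integral_const_mul]
    rfl
  rw [hval] at hd
  have hfun : (fun t : ℂ => Complex.exp (Real.pi / 2 * H (t • hU u h) (t • hU u h) -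
      Real.pi * Complex.I * E (t • hU u h) x) * psi v w θ z (x + t • hU u h)) =
      fun t : ℂ => ∫ ξ : ℂ × ℂ, F θ x (embD v w z ξ + t • hU u h) * gw ξ := by
    funext t
    have e1 : psi v w θ z (x + t • hU u h) =
        ∫ ξ : ℂ × ℂ, F θ (x + t • hU u h) (embD v w z ξ) * gw ξ := rfl
    rw [e1, ← integral_const_mul]
    refine integral_congr_ae (Filter.Eventually.of_forall fun ξ => ?_)
    show Complex.exp _ * (F θ (x + t • hU u h) (embD v w z ξ) * gw ξ) = _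
    rw [F_add, H_smul_right (c := t) (z := embD v w z ξ), dirD_H_left u v w huv huw, mul_zero,
      mul_zero, neg_zero]
    have e2 : Complex.exp (Real.pi / 2 * H (t • hU u h) (t • hU u h) -
        Real.pi * Complex.I * E (t • hU u h) x) *
        Complex.exp (0 - Real.pi / 2 * H (t • hU u h) (t • hU u h) +
          Real.pi * Complex.I * E (t • hU u h) x) = 1 := by
      rw [← Complex.exp_add, ← Complex.exp_zero]
      congr 1
      ring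
    linear_combination (F θ x (embD v w z ξ + t • hU u h) * gw ξ) * e2
  rw [hfun]
  exact hd

end GAM
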