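import Pool.Agent.GAM.StD2

/-!
# GAM: the order contains a basis
-/

set_option autoImplicit false

namespace GAM

theorem OrdB_tw_add_left {K : Type} [Field K] (c : K →+* K) (κ : K) (β β' x : K × K) :
    tw c κ (β + β') x = tw c κ β x + tw c κ β' x := by
  unfold tw
  ext
  · simp only [Prod.fst_add, Prod.snd_add, map_add]; ring
  · simp only [Prod.fst_add, Prod.snd_add, map_add]; ring

theorem OrdB_tw_add_right {K : Type} [Field K] (c : K →+* K) (κ : K) (β x x' : K × K) :
    tw c κ β (x + x') = tw c κ β x + tw c κ β x' := by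
  unfold tw
  ext
  · simp only [Prod.fst_add, Prod.snd_add]; ring
  · simp only [Prod.fst_add, Prod.snd_add]; ring

theorem OrdB_smul_fst {K : Type} [Field K] (a : ℤ) (x : K × K) : (a • x).1 = (a : K) * x.1 := by
  rw [Prod.smul_fst, zsmul_eq_mul]

theorem OrdB_smul_snd {K : Type} [Field K] (a : ℤ) (x : K × K) : (a • x).2 = (a : K) * x.2 := by
  rw [Prod.smul_snd, zsmul_eq_mul]

theorem OrdB_tw_zsmul_left {K : Type} [Field K] (c : K →+* K) (κ : K) (a : ℤ) (β x : K × K) :
    tw c κ (a • β) x = a • tw c κ β x := by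
  unfold tw
  ext
  · rw [OrdB_smul_fst, OrdB_smul_fst, OrdB_smul_snd, map_mul, map_intCast]; ring
  · rw [OrdB_smul_snd, OrdB_smul_snd, OrdB_smul_fst]
    simp only [map_mul, map_intCast]
    ring

theorem OrdB_tw_zsmul_right {K : Type} [Field K] (c : K →+* K) (κ : K) (a : ℤ) (β x : K × K) :
    tw c κ β (a • x) = a • tw c κ β x := by
  unfold tw
  ext
  · rw [OrdB_smul_fst, OrdB_smul_fst, OrdB_smul_snd]; ring
  · rw [OrdB_smul_snd, OrdB_smul_fst, OrdB_smul_snd]; ring

/-- denominators can be cleared -/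
theorem OrdB_den {V : Type} [AddCommGroup V] [Module ℚ V] {ι : Type} (e : Module.Basis ι ℚ V)
    (v : V) : ∃ N : ℕ, N ≠ 0 ∧ (N : ℤ) • v ∈ Submodule.span ℤ (Set.range e) := by
  have hv : v ∈ Submodule.span ℚ (Set.range e) := e.mem_span v
  induction hv using Submodule.span_induction with
  | mem x hx => exact ⟨1, one_ne_zero, by simpa using Submodule.subset_span hx⟩
  | zero => exact ⟨1, one_ne_zero, by simp⟩
  | add x y _ _ hx hy =>
    obtain ⟨N, hN, hx⟩ := hx
    obtain ⟨N', hN', hy⟩ := hy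
    refine ⟨N * N', mul_ne_zero hN hN', ?_⟩
    have e1 : ((N * N' : ℕ) : ℤ) • (x + y) = (N' : ℤ) • ((N : ℤ) • x) + (N : ℤ) • ((N' : ℤ) • y) := by
      rw [smul_smul, smul_smul, smul_add]
      push_cast
      rw [mul_comm (N' : ℤ)]
    rw [e1]
    exact add_mem (Submodule.smul_mem _ _ hx) (Submodule.smul_mem _ _ hy)
  | smul q x _ hx =>
    obtain ⟨N, hN, hx⟩ := hx
    refine ⟨N * q.den, mul_ne_zero hN q.den_nz, ?_⟩
    have e1 : ((N * q.den : ℕ) : ℤ) • (q • x) = q.num • ((N : ℤ) • x) := by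
      rw [← Int.cast_smul_eq_zsmul ℚ, ← Int.cast_smul_eq_zsmul ℚ, ← Int.cast_smul_eq_zsmul ℚ,
        smul_smul, smul_smul]
      congr 1
      push_cast
      have := Rat.mul_den_eq_num q
      linear_combination (N : ℚ) * this
    rw [e1]
    exact Submodule.smul_mem _ _ hx

/-- denominators of finitely many vectors -/
theorem OrdB_dens {V : Type} [AddCommGroup V] [Module ℚ V] {ι : Type} (e : Module.Basis ι ℚ V)
    {J : Type} [Fintype J] (v : J → V) :
    ∃ N : ℕ, N ≠ 0 ∧ ∀ j, (N : ℤ) • v j ∈ Submodule.span ℤ (Set.range e) := by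
  classical
  choose N hN hv using fun j => OrdB_den e (v j)
  refine ⟨∏ j, N j, Finset.prod_ne_zero_iff.2 fun j _ => hN j, fun j => ?_⟩
  rw [← Finset.mul_prod_erase Finset.univ N (Finset.mem_univ j), Nat.cast_mul, mul_comm,
    mul_smul]
  exact Submodule.smul_mem _ _ (hv j)

theorem thm_OrdB (_h1 : St_OrdR) : St_OrdB := by
  intro K _ _ c κ n e
  obtain ⟨N, hN, hv⟩ := OrdB_dens e fun p : Fin n × Fin n => tw c κ (e p.1) (e p.2)
  have hu : IsUnit (N : ℚ) := by
    rw [isUnit_iff_ne_zero]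
    exact_mod_cast hN
  refine ⟨e.isUnitSMul (w := fun _ => (N : ℚ)) fun _ => hu, fun β hβ x hx => ?_⟩
  induction hβ using Submodule.span_induction with
  | mem b hb =>
    obtain ⟨i, rfl⟩ := hb
    rw [Module.Basis.isUnitSMul_apply]
    induction hx using Submodule.span_induction with
    | mem y hy =>
      obtain ⟨j, rfl⟩ := hy
      have e1 : ((N : ℚ) • e i : K × K) = (N : ℤ) • e i := by
        rw [← Int.cast_smul_eq_zsmul ℚ]
        simp
      rw [e1, OrdB_tw_zsmul_left]
      exact hv (i, j)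
    | zero =>
      have : tw c κ ((N : ℚ) • e i) 0 = 0 := by
        unfold tw; ext <;> simp
      rw [this]
      exact zero_mem _
    | add y z _ _ hy hz =>
      rw [OrdB_tw_add_right]
      exact add_mem hy hz
    | smul a y _ hy =>
      rw [OrdB_tw_zsmul_right]
      exact Submodule.smul_mem _ _ hy
  | zero =>
    have : tw c κ 0 x = 0 := by
      unfold tw; ext <;> simp
    rw [this]
    exact zero_mem _
  | add y z _ _ hy hz =>
    rw [OrdB_tw_add_left]
    exact add_mem hy hz
  | smul a y _ hy =>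
    rw [OrdB_tw_zsmul_left]
    exact Submodule.smul_mem _ _ hy

end GAM
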