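import Pool.Agent.GAM.StD2

set_option autoImplicit false

namespace GAM

theorem TwB_cc {K : Type} [Field K] [NumberField K] {c : K →+* K} (h : CMF K c) (x : K) :
    c (c x) = x := by
  obtain ⟨σ⟩ : Nonempty (K →+* ℂ) := inferInstance
  apply σ.injective
  rw [← h.cc σ (c x), ← h.cc σ x, Complex.conj_conj]

theorem thm_TwB : St_TwB := by
  intro K _ _ c κ ζ β hc hκ hζ hn
  have hcc := TwB_cc hc
  refine ⟨?_, ?_⟩
  · refine ⟨{ toFun := fun x => tw c κ β x
              map_add' := ?_
              map_smul' := ?_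
              invFun := fun x => ((nrd c κ β)⁻¹ * (tw c κ (c β.1, -β.2) x).1,
                (nrd c κ β)⁻¹ * (tw c κ (c β.1, -β.2) x).2)
              left_inv := ?_
              right_inv := ?_ }, fun x => rfl⟩
    · intro x y
      simp only [tw, Prod.fst_add, Prod.snd_add, Prod.mk_add_mk, Prod.mk.injEq]
      constructor <;> ring
    · intro q x
      simp only [tw, Prod.smul_fst, Prod.smul_snd, RingHom.id_apply, Prod.smul_mk, Prod.mk.injEq,
        Rat.smul_def]
      constructor <;> ring
    · intro x
      have h1 : (tw c κ (c β.1, -β.2) (tw c κ β x)) = (nrd c κ β * x.1, nrd c κ β * x.2) := by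
        simp only [tw, nrd, map_neg, hcc, Prod.mk.injEq]
        constructor <;> ring
      ext
      · simp only [h1, ← mul_assoc, inv_mul_cancel₀ hn, one_mul]
      · simp only [h1, ← mul_assoc, inv_mul_cancel₀ hn, one_mul]
    · intro x
      have h1 : (tw c κ β ((nrd c κ β)⁻¹ * (tw c κ (c β.1, -β.2) x).1,
                (nrd c κ β)⁻¹ * (tw c κ (c β.1, -β.2) x).2)) =
            ((nrd c κ β)⁻¹ * (nrd c κ β * x.1), (nrd c κ β)⁻¹ * (nrd c κ β * x.2)) := by
        simp only [tw, map_neg, hcc, Prod.mk.injEq]
        generalize (nrd c κ β)⁻¹ = t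
        simp only [nrd]
        constructor <;> ring
      ext
      · simp only [h1, ← mul_assoc, inv_mul_cancel₀ hn, one_mul]
      · simp only [h1, ← mul_assoc, inv_mul_cancel₀ hn, one_mul]
  · intro x y
    simp only [tw, nrd, map_add, map_sub, map_mul, hcc, hκ]
    ring

end GAM
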