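import Pool.Agent.GAM.C3
import Pool.Agent.GAM.Der

/-!
# GAM: [C4]
-/

set_option autoImplicit false
set_option linter.unusedSectionVars false
set_option linter.unusedVariables false

namespace GAM

open scoped ComplexConjugate Topology
open Filter

section

variable {ι : Type} [Fintype ι] [DecidableEq ι] {δ : Derivation ℚ ℂ ℂ}
  {L : Submodule ℤ (ι → ℂ)} {χ θ : (ι → ℂ) → ℂ}

theorem Hat.diag (hR : DelRules ι δ) {s : ι → ℂ} (hs : ∀ a, IsAlgebraic ℚ (s a))
    (hs0 : ∀ a, s a ≠ 0) {f g : (ι → ℂ) → ℂ} (h : Hat δ f g) :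
    Hat δ (fun v => f fun i => s i * v i) (fun v => g fun i => s i * v i) := by
  obtain ⟨a, b, a', b', ha, hb, hb0, hf, hg⟩ := h
  refine ⟨_, _, _, _, del_diag hR hs ha, del_diag hR hs hb, ?_, gen_diag hf s hs0,
    gen_diag hg s hs0⟩
  obtain ⟨v, hv⟩ := hb0
  refine ⟨fun i => (s i)⁻¹ * v i, ?_⟩
  have : (fun i => s i * ((s i)⁻¹ * v i)) = v := by
    funext i; rw [mul_inv_cancel_left₀ (hs0 i)]
  simpa only [this] using hv

theorem pd_bil {C : Matrix ι ι ℂ} (hC : C.transpose = C) (v : ι → ℂ) (a : ι) :
    pd a (fun v => bil C v v) v = 2 * ∑ j, C a j * v j := by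
  have h1 : ∀ i, pd a (fun v : ι → ℂ => ∑ j, C i j * v i * v j) v =
      ∑ j, (C i j * (if i = a then 1 else 0) * v j + C i j * v i * (if j = a then 1 else 0)) := by
    intro i
    rw [pd_sum' (f := fun j (v : ι → ℂ) => C i j * v i * v j) _ fun j _ => by fun_prop]
    refine Finset.sum_congr rfl fun j _ => ?_
    rw [pd_mul' (f := fun v : ι → ℂ => C i j * v i) (g := fun v => v j) (by fun_prop)
      (by fun_prop), pd_const_mul' (f := fun v : ι → ℂ => v i) (by fun_prop), pd_coord',
      pd_coord']
  have h2 : pd a (fun v => bil C v v) v = ∑ i, ∑ j, (C i j * (if i = a then 1 else 0) * v j +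
      C i j * v i * (if j = a then 1 else 0)) := by
    unfold bil
    rw [pd_sum' (f := fun i (v : ι → ℂ) => ∑ j, C i j * v i * v j) _ fun i _ =>
      (Differentiable.fun_sum fun j _ => by fun_prop) v]
    exact Finset.sum_congr rfl fun i _ => h1 i
  rw [h2]
  simp only [Finset.sum_add_distrib, mul_ite, mul_one, mul_zero, ite_mul, zero_mul,
    Finset.sum_ite_eq', Finset.mem_univ, if_true]
  have h3 : ∑ i, ∑ j, (if i = a then C i j * v j else 0) = ∑ j, C a j * v j := by
    rw [Finset.sum_comm]
    refine Finset.sum_congr rfl fun j _ => ?_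
    simp
  rw [h3]
  have h4 : ∀ i, C i a = C a i := by
    intro i
    conv_lhs => rw [← hC]
    rfl
  simp only [h4]
  ring

/-- derivative of `∑ A_j v_j ω_j` -/
theorem pd_eulom (A : ι → ℂ) {om : ι → (ι → ℂ) → ℂ} {v : ι → ℂ}
    (h : ∀ j, DifferentiableAt ℂ (om j) v) (a : ι) :
    pd a (fun v => ∑ j, A j * v j * om j v) v = A a * om a v + ∑ j, A j * v j * pd a (om j) v := by
  rw [pd_sum' (f := fun j (v : ι → ℂ) => A j * v j * om j v) _ fun j _ =>
    (DifferentiableAt.mul (by fun_prop) (h j))]
  have h1 : ∀ j, pd a (fun v : ι → ℂ => A j * v j * om j v) v =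
      A j * (if j = a then 1 else 0) * om j v + A j * v j * pd a (om j) v := by
    intro j
    rw [pd_mul' (f := fun v : ι → ℂ => A j * v j) (by fun_prop) (h j),
      pd_const_mul' (f := fun v : ι → ℂ => v j) (by fun_prop), pd_coord']
  simp only [h1, Finset.sum_add_distrib, mul_ite, mul_one, mul_zero, ite_mul, zero_mul,
    Finset.sum_ite_eq', Finset.mem_univ, if_true]

theorem pd_om_per (hP : PLat L χ) (hT : IsTh L χ θ) (h0 : ∃ v, θ v ≠ 0) {l : ι → ℂ} (hl : l ∈ L)
    (x : ι → ℂ) (i j : ι) {v : ι → ℂ} (hv : F θ x v ≠ 0) :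
    pd i (fun z => pd j (F θ x) z / F θ x z) (v + l) =
      pd i (fun z => pd j (F θ x) z / F θ x z) v := by
  have hd := F_differentiable hT x
  have e2 : ∀ᶠ z in 𝓝 v, pd j (F θ x) (z + l) / F θ x (z + l) =
      pd j (F θ x) z / F θ x z + Real.pi * conj (l j) := by
    filter_upwards [hd.continuous.continuousAt.eventually_ne hv] with z hz
    exact om_quasi hP hT hl x j hz
  have e3 : pd i (fun z => pd j (F θ x) (z + l) / F θ x (z + l)) v =
      pd i (fun z => pd j (F θ x) z / F θ x z + Real.pi * conj (l j)) v := pd_congr' e2 i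
  have e4 : pd i (fun z => pd j (F θ x) (z + l) / F θ x (z + l)) v =
      pd i (fun z => pd j (F θ x) z / F θ x z) (v + l) :=
    pd_shift' (fun z => pd j (F θ x) z / F θ x z) l v i
  rw [e4, pd_add' (diff_div (ent_pd hd j v) (hd v) hv) (by fun_prop), pd_const', add_zero] at e3
  exact e3

end

theorem thm_C4 (hDel : St_DelR) : St_C4 := by
  intro ι _ _ δ L χ θ s G ld β₀ β A C k hP hT h0 hs hPre hC hA hG
  have hR := hDel ι δ
  have hd := F_differentiable hT (0 : ι → ℂ)
  have hnz := F_nz h0 (0 : ι → ℂ)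
  have hne := gen_ne hd hnz
  have hG0 := hPre.del 0 OddTor.zero
  set u : (ι → ℂ) → ℂ := fun v => G 0 v / F θ 0 v with hu
  set om : ι → (ι → ℂ) → ℂ := fun j v => pd j (F θ 0) v / F θ 0 v with hom
  have hmom : ∀ j, Mer (om j) := fun j => Mer.quot (ent_pd hd j) hd hnz
  have homd : ∀ j v, F θ 0 v ≠ 0 → DifferentiableAt ℂ (om j) v := fun j v hv =>
    diff_div (ent_pd hd j v) (hd v) hv
  -- the function `u` and its derivatives
  have hu1 : ∀ v, F θ 0 v ≠ 0 → u v = k 0 + ∑ j, A j * v j * om j v + 1 / 2 * bil C v v := by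
    intro v hv
    simp only [hu, hom]
    rw [hG 0 OddTor.zero v, ← eul_div]
    have : ∑ i, ∑ j, C i j * v i * v j = bil C v v := rfl
    rw [this]
    field_simp
  have hu2 : ∀ a v, F θ 0 v ≠ 0 → pd a u v =
      A a * om a v + ∑ j, A j * v j * pd j (om a) v + ∑ j, C a j * v j := by
    intro a v hv
    have e1 : pd a u v = pd a (fun v => (k 0 + ∑ j, A j * v j * om j v) + 1 / 2 * bil C v v) v := by
      apply pd_congr'
      filter_upwards [hd.continuous.continuousAt.eventually_ne hv] with z hz
      exact hu1 z hz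
    have d1 : DifferentiableAt ℂ (fun v => ∑ j, A j * v j * om j v) v :=
      DifferentiableAt.fun_sum fun j _ => DifferentiableAt.mul (by fun_prop) (homd j v hv)
    have d2 : DifferentiableAt ℂ (fun v => bil C v v) v := bil_diff C v
    rw [e1, pd_add' (f := fun v => k 0 + ∑ j, A j * v j * om j v)
      (g := fun v => 1 / 2 * bil C v v) ((differentiableAt_const _).add d1) (d2.const_mul _),
      pd_add' (f := fun _ => k 0) (differentiableAt_const _) d1, pd_const', zero_add,
      pd_eulom A (fun j => homd j v hv), pd_const_mul' d2, pd_bil hC]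
    have e2 : ∀ j, pd a (om j) v = pd j (om a) v := fun j => om_comm hd a j hv
    simp only [e2]
    ring
  have hu3 : ∀ a, ∀ l ∈ L, ∀ v, F θ 0 v ≠ 0 → pd a u (v + l) - pd a u v =
      Real.pi * A a * conj (l a) + ∑ j, A j * l j * pd j (om a) v + ∑ j, C a j * l j := by
    intro a l hl v hv
    rw [hu2 a v hv, hu2 a (v + l) (F_ne_lat hP hT hl hv)]
    have e1 : om a (v + l) = om a v + Real.pi * conj (l a) := om_quasi hP hT hl 0 a hv
    have e2 : ∀ j, pd j (om a) (v + l) = pd j (om a) v := fun j =>
      pd_om_per hP hT h0 hl 0 j a hv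
    rw [e1]
    simp only [e2, Pi.add_apply, mul_add, add_mul, Finset.sum_add_distrib]
    ring
  -- main identity
  have main : ∀ a, ∀ l ∈ L, ∑ j, C a j * (s j - conj (s a)) * l j + ∑ j, (0 : ℂ) * conj (l j) = 0 := by
    intro a l hl
    set S : (ι → ℂ) → ι → ℂ := fun v i => s i * v i with hS
    have hSadd : ∀ v l : ι → ℂ, S (v + l) = S v + S l := by
      intro v l; funext i; simp [hS, mul_add]
    have hDa : IsDel δ (pd a (F θ 0)) (pd a (G 0)) := hR.pd a _ _ hG0
    -- numerator and denominator
    have hn1 := hR.mul _ _ _ _ (del_diag hR hs.alg hDa) hG0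
    have hn2 := hR.mul _ _ _ _ (hR.const (-conj (s a)))
      (hR.mul _ _ _ _ (del_diag hR hs.alg hG0) hDa)
    have hnum := hR.add _ _ _ _ hn1 hn2
    have hden := hR.mul _ _ _ _ (del_diag hR hs.alg hG0) hG0
    have hdS : Differentiable ℂ fun v => F θ 0 (S v) := (del_diag hR hs.alg hG0).ent
    have hS0 : ∃ v, F θ 0 (S v) ≠ 0 := by
      obtain ⟨v, hv⟩ := hnz
      refine ⟨fun i => (s i)⁻¹ * v i, ?_⟩
      have : S (fun i => (s i)⁻¹ * v i) = v := by
        funext i; simp only [hS]; rw [mul_inv_cancel_left₀ (hs.ne i)]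
      rwa [this]
    have hden0 := ent_mul_ne hdS hd hS0 hnz
    have hne2 : ∀ᶠ v in gen ι, F θ 0 (S v) * F θ 0 v ≠ 0 := gen_ne (hdS.mul hd) hden0
    have hquot : ∀ v, F θ 0 (S v) * F θ 0 v ≠ 0 →
        (pd a (F θ 0) (S v) * F θ 0 v + -conj (s a) * (F θ 0 (S v) * pd a (F θ 0) v)) /
          (F θ 0 (S v) * F θ 0 v) = om a (S v) - conj (s a) * om a v := by
      intro v hv
      have h1 := left_ne_zero_of_mul hv
      have h2 := right_ne_zero_of_mul hv
      simp only [hom]
      field_simp
      ring
    have hfacd : HasFac L (fun l v => fx χ 1 (S l) (S v) * fx χ 1 l v)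
        (fun v => F θ 0 (S v) * F θ 0 v) := by
      intro l hl v
      have e1 := hasFac_one hP hT l hl v
      have e2 := hasFac_one hP hT (S l) (hs.lat l hl) (S v)
      simp only [hSadd, e1, e2]
      ring
    have hFac : Fac L (fun l v => fx χ 1 (S l) (S v) * fx χ 1 l v)
        (fun v => ((1 : ℕ) : ℝ) * (Real.pi / 2 * (H (S v) (S v)).re) +
          ((1 : ℕ) : ℝ) * (Real.pi / 2 * (H v v).re)) := by
      have h := fac_fx hP 1
      have hSc : Continuous S := by
        simp only [hS]
        fun_prop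
      have hSd : Differentiable ℂ S := by
        simp only [hS]
        fun_prop
      refine ⟨(h.cont.comp hSc).add h.cont, fun l hl =>
        ((h.hol (S l) (hs.lat l hl)).comp hSd).mul (h.hol l hl), ?_⟩
      intro l hl v
      rw [norm_mul, h.norm l hl v, h.norm (S l) (hs.lat l hl) (S v), ← Real.exp_add, hSadd]
      congr 1; ring
    have hfacn : HasFac L (fun l v => fx χ 1 (S l) (S v) * fx χ 1 l v)
        (fun v => pd a (F θ 0) (S v) * F θ 0 v + -conj (s a) * (F θ 0 (S v) * pd a (F θ 0) v)) := by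
      intro l hl
      have key := eq_of_gen (a := fun v => pd a (F θ 0) (S (v + l)) * F θ 0 (v + l) +
          -conj (s a) * (F θ 0 (S (v + l)) * pd a (F θ 0) (v + l)))
        (b := fun v => fx χ 1 (S l) (S v) * fx χ 1 l v *
          (pd a (F θ 0) (S v) * F θ 0 v + -conj (s a) * (F θ 0 (S v) * pd a (F θ 0) v)))
        (hnum.ent.continuous.comp (continuous_id.add continuous_const))
        ((hFac.hol l hl).continuous.mul hnum.ent.continuous) (by
          filter_upwards [hne2] with v hv
          have hv1 : F θ 0 (S v) ≠ 0 := left_ne_zero_of_mul hv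
          have hv2 : F θ 0 v ≠ 0 := right_ne_zero_of_mul hv
          have hfd : F θ 0 (S (v + l)) * F θ 0 (v + l) =
              fx χ 1 (S l) (S v) * fx χ 1 l v * (F θ 0 (S v) * F θ 0 v) := hfacd l hl v
          have hv3 : F θ 0 (S (v + l)) * F θ 0 (v + l) ≠ 0 := by
            rw [hfd]
            exact mul_ne_zero (hFac.ne hl v) hv
          have e1 := hquot v hv
          have e2 := hquot (v + l) hv3
          have e3 : om a (S (v + l)) - conj (s a) * om a (v + l) =
              om a (S v) - conj (s a) * om a v := by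
            have e4 : om a (v + l) = om a v + Real.pi * conj (l a) := om_quasi hP hT hl 0 a hv2
            have e5 : om a (S v + S l) = om a (S v) + Real.pi * conj (S l a) :=
              om_quasi hP hT (hs.lat l hl) 0 a hv1
            rw [hSadd, e4, e5]
            simp only [hS, map_mul]
            ring
          rw [e3, ← e1, div_eq_div_iff hv3 hv, hfd] at e2
          apply mul_right_cancel₀ hv
          linear_combination e2)
      exact fun v => congrFun key v
    have hQD := QD.mk hnum hden hden0 ⟨_, _, hFac, hfacn, hfacd⟩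
    -- the hat of the quotient
    have hH1 : Hat δ (fun v => om a (S v)) (fun v => pd a u (S v)) :=
      Hat.diag hR hs.alg hs.ne (hat_om hR hG0 hnz a)
    have hH2 := Hat.sub hR hH1 (Hat.const_mul hR (hat_om hR hG0 hnz a) (conj (s a)))
    have hcs : δ (conj (s a)) = 0 := by
      have h1 : IsAlgebraic ℚ (conj (s a)) :=
        (hs.alg a).algHom ((starRingEnd ℂ : ℂ →+* ℂ).toRatAlgHom)
      exact (thm_Der _).1 h1 δ
    have hq := Hat.uniq hR (hQD.hat.congr (f₁ := fun v => om a (S v) - conj (s a) * om a v) (by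
      filter_upwards [hne2] with v hv
      exact hquot v hv) (Eventually.of_forall fun _ => rfl)) hH2
    obtain ⟨v, ⟨e1, e2⟩, e3, e4⟩ := gen_exists ((hq.and (gen_shift hq l)).and
      (hne2.and (gen_ne hd hnz)))
    have hper := hPre.per _ _ _ _ hQD l hl v e3
    rw [e1, e2] at hper
    have hv1 : F θ 0 (S v) ≠ 0 := left_ne_zero_of_mul e3
    have e5 : ∀ j, pd j (fun z => (pd a (F θ 0) (S z) * F θ 0 z + -conj (s a) *
        (F θ 0 (S z) * pd a (F θ 0) z)) / (F θ 0 (S z) * F θ 0 z)) v =
        s j * pd j (om a) (S v) - conj (s a) * pd j (om a) v := by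
      intro j
      have e6 : pd j (fun z => (pd a (F θ 0) (S z) * F θ 0 z + -conj (s a) *
          (F θ 0 (S z) * pd a (F θ 0) z)) / (F θ 0 (S z) * F θ 0 z)) v =
          pd j (fun z => om a (S z) - conj (s a) * om a z) v := by
        apply pd_congr'
        filter_upwards [(hdS.mul hd).continuous.continuousAt.eventually_ne e3] with z hz
        exact hquot z hz
      have d1 : DifferentiableAt ℂ (fun z => om a (S z)) v := by
        have h1 := homd a (S v) hv1
        exact h1.comp v (by simp only [hS]; fun_prop)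
      rw [e6, pd_sub' d1 ((homd a v e4).const_mul _), pd_const_mul' (homd a v e4)]
      congr 1
      exact pd_diag' s v j (homd a (S v) hv1)
    have e7 := hu3 a l hl v e4
    have e8 := hu3 a (S l) (hs.lat l hl) (S v) hv1
    have e9 := hA l hl
    have hper2 : pd a u (S (v + l)) - (δ (conj (s a)) * (pd a (F θ 0) (v + l) / F θ 0 (v + l)) +
        conj (s a) * pd a u (v + l)) - (pd a u (S v) - (δ (conj (s a)) *
        (pd a (F θ 0) v / F θ 0 v) + conj (s a) * pd a u v)) =
        ∑ j, A j * l j * (s j * pd j (om a) (S v) - conj (s a) * pd j (om a) v) :=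
      hper.trans (Finset.sum_congr rfl fun j _ => by rw [e9 j, ← e5 j])
    clear hper
    rename' hper2 => hper
    rw [hSadd] at hper
    simp only [hcs, zero_mul, zero_add] at hper
    have e10 : conj (S l a) = conj (s a) * conj (l a) := by simp [hS]
    rw [e10] at e8
    have e11 : ∑ j, A j * l j * (s j * pd j (om a) (S v) - conj (s a) * pd j (om a) v) =
        ∑ j, A j * S l j * pd j (om a) (S v) - conj (s a) * ∑ j, A j * l j * pd j (om a) v := by
      rw [Finset.mul_sum, ← Finset.sum_sub_distrib]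
      refine Finset.sum_congr rfl fun j _ => ?_
      simp only [hS]
      ring
    rw [e11] at hper
    have e12 : ∑ j, C a j * (s j - conj (s a)) * l j = ∑ j, C a j * S l j -
        conj (s a) * ∑ j, C a j * l j := by
      rw [Finset.mul_sum, ← Finset.sum_sub_distrib]
      refine Finset.sum_congr rfl fun j _ => ?_
      simp only [hS]
      ring
    rw [e12]
    simp only [zero_mul, Finset.sum_const_zero, add_zero]
    linear_combination hper - e8 + conj (s a) * e7
  ext a j
  have h1 := (lat_zero hP.lat (p := fun j => C a j * (s j - conj (s a))) (q := 0)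
    (by simpa using main a)).1
  have h2 := congrFun h1 j
  rcases mul_eq_zero.1 h2 with h3 | h3
  · exact h3
  · exact absurd (sub_eq_zero.1 h3).symm (hs.sep' a j)

end GAM
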