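import Pool.Agent.GAM.Mer

/-!
# GAM: derivations of `ℂ` acting on quotients of entire functions; algebraic relations
-/

set_option autoImplicit false
set_option linter.unusedSectionVars false
set_option linter.unusedVariables false

namespace GAM

open scoped ComplexConjugate Topology
open Filter

variable {ι : Type} [Fintype ι] [DecidableEq ι] {δ : Derivation ℚ ℂ ℂ}

/-- `g` is obtained from the quotient `f` of entire functions by `δ` -/
def Hat (δ : Derivation ℚ ℂ ℂ) (f g : (ι → ℂ) → ℂ) : Prop :=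
  ∃ a b a' b' : (ι → ℂ) → ℂ, IsDel δ a a' ∧ IsDel δ b b' ∧ (∃ v, b v ≠ 0) ∧
    (∀ᶠ v in gen ι, f v = a v / b v) ∧ ∀ᶠ v in gen ι, g v = qd a b a' b' v

theorem Hat.congr {f g f₁ g₁ : (ι → ℂ) → ℂ} (h : Hat δ f g) (hf : ∀ᶠ v in gen ι, f v = f₁ v)
    (hg : ∀ᶠ v in gen ι, g v = g₁ v) : Hat δ f₁ g₁ := by
  obtain ⟨a, b, a', b', h1, h2, h3, h4, h5⟩ := h
  exact ⟨a, b, a', b', h1, h2, h3, by filter_upwards [hf, h4] with v e1 e2; rw [← e1, e2],
    by filter_upwards [hg, h5] with v e1 e2; rw [← e1, e2]⟩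

theorem Hat.quot {a b a' b' : (ι → ℂ) → ℂ} (ha : IsDel δ a a') (hb : IsDel δ b b')
    (h : ∃ v, b v ≠ 0) : Hat δ (fun v => a v / b v) (qd a b a' b') :=
  ⟨a, b, a', b', ha, hb, h, Eventually.of_forall fun _ => rfl, Eventually.of_forall fun _ => rfl⟩

theorem Hat.of_del (hR : DelRules ι δ) {a a' : (ι → ℂ) → ℂ} (h : IsDel δ a a') : Hat δ a a' := by
  refine ⟨a, fun _ => 1, a', fun _ => δ 1, h, hR.const 1, ⟨0, one_ne_zero⟩,
    Eventually.of_forall fun v => by simp, Eventually.of_forall fun v => ?_⟩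
  simp [qd]

theorem Hat.const (hR : DelRules ι δ) (c : ℂ) : Hat δ (fun _ : ι → ℂ => c) (fun _ => δ c) :=
  Hat.of_del hR (hR.const c)

theorem Hat.uniq (hR : DelRules ι δ) {f g g₁ : (ι → ℂ) → ℂ} (h : Hat δ f g) (h₁ : Hat δ f g₁) :
    ∀ᶠ v in gen ι, g v = g₁ v := by
  obtain ⟨a, b, a', b', ha, hb, hb0, hf, hg⟩ := h
  obtain ⟨c, d, c', d', hc, hd, hd0, kf, kg⟩ := h₁
  have e1 : (fun v => a v * d v) = fun v => c v * b v := by
    apply eq_of_gen (a := fun v => a v * d v) (b := fun v => c v * b v)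
      (ha.ent.continuous.mul hd.ent.continuous)
      (hc.ent.continuous.mul hb.ent.continuous)
    filter_upwards [hf, kf, gen_ne hb.ent hb0, gen_ne hd.ent hd0] with v e1 e2 e3 e4
    rw [e1] at e2
    field_simp at e2
    linear_combination e2
  have e2 := hR.mul _ _ _ _ ha hd
  have e3 := hR.mul _ _ _ _ hc hb
  rw [e1] at e2
  have e4 := hR.uniq _ _ _ e2 e3
  filter_upwards [hg, kg, gen_ne hb.ent hb0, gen_ne hd.ent hd0] with v k1 k2 k3 k4
  have k5 := congrFun e4 v
  have k6 := congrFun e1 v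
  rw [k1, k2, qd, qd, div_eq_div_iff (pow_ne_zero 2 k3) (pow_ne_zero 2 k4)]
  -- (a'b - ab') d^2 = (c'd - cd') b^2
  linear_combination (b v * d v) * k5 - (d v * b' v + b v * d' v) * k6

theorem Hat.add (hR : DelRules ι δ) {f g f₁ g₁ : (ι → ℂ) → ℂ} (h : Hat δ f g)
    (h₁ : Hat δ f₁ g₁) : Hat δ (fun v => f v + f₁ v) (fun v => g v + g₁ v) := by
  obtain ⟨a, b, a', b', ha, hb, hb0, hf, hg⟩ := h
  obtain ⟨c, d, c', d', hc, hd, hd0, kf, kg⟩ := h₁
  refine ⟨_, _, _, _, hR.add _ _ _ _ (hR.mul _ _ _ _ ha hd) (hR.mul _ _ _ _ hc hb),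
    hR.mul _ _ _ _ hb hd, ent_mul_ne hb.ent hd.ent hb0 hd0, ?_, ?_⟩
  · filter_upwards [hf, kf, gen_ne hb.ent hb0, gen_ne hd.ent hd0] with v e1 e2 e3 e4
    rw [e1, e2]; field_simp
  · filter_upwards [hg, kg, gen_ne hb.ent hb0, gen_ne hd.ent hd0] with v e1 e2 e3 e4
    rw [e1, e2, qd, qd, qd]; field_simp; ring

theorem Hat.mul (hR : DelRules ι δ) {f g f₁ g₁ : (ι → ℂ) → ℂ} (h : Hat δ f g)
    (h₁ : Hat δ f₁ g₁) : Hat δ (fun v => f v * f₁ v) (fun v => g v * f₁ v + f v * g₁ v) := by
  obtain ⟨a, b, a', b', ha, hb, hb0, hf, hg⟩ := h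
  obtain ⟨c, d, c', d', hc, hd, hd0, kf, kg⟩ := h₁
  refine ⟨_, _, _, _, hR.mul _ _ _ _ ha hc, hR.mul _ _ _ _ hb hd,
    ent_mul_ne hb.ent hd.ent hb0 hd0, ?_, ?_⟩
  · filter_upwards [hf, kf, gen_ne hb.ent hb0, gen_ne hd.ent hd0] with v e1 e2 e3 e4
    rw [e1, e2]; field_simp
  · filter_upwards [hf, kf, hg, kg, gen_ne hb.ent hb0, gen_ne hd.ent hd0] with v l1 l2 e1 e2 e3 e4
    rw [e1, e2, l1, l2, qd, qd, qd]; field_simp; ring

theorem Hat.sum (hR : DelRules ι δ) {κ : Type} (s : Finset κ) {f g : κ → (ι → ℂ) → ℂ}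
    (h : ∀ i ∈ s, Hat δ (f i) (g i)) :
    Hat δ (fun v => ∑ i ∈ s, f i v) (fun v => ∑ i ∈ s, g i v) := by
  classical
  induction s using Finset.induction_on with
  | empty => simpa using Hat.const (ι := ι) hR 0
  | insert i s his ih =>
    have := Hat.add hR (h i (Finset.mem_insert_self _ _))
      (ih fun j hj => h j (Finset.mem_insert_of_mem hj))
    simpa only [Finset.sum_insert his] using this

theorem Hat.const_mul (hR : DelRules ι δ) {f g : (ι → ℂ) → ℂ} (h : Hat δ f g) (c : ℂ) :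
    Hat δ (fun v => c * f v) (fun v => δ c * f v + c * g v) :=
  Hat.mul hR (Hat.const hR c) h

theorem Hat.sub (hR : DelRules ι δ) {f g f₁ g₁ : (ι → ℂ) → ℂ} (h : Hat δ f g)
    (h₁ : Hat δ f₁ g₁) : Hat δ (fun v => f v - f₁ v) (fun v => g v - g₁ v) := by
  refine (Hat.add hR h (Hat.const_mul hR h₁ (-1))).congr
    (Eventually.of_forall fun v => by ring) (Eventually.of_forall fun v => ?_)
  have : δ (-1 : ℂ) = 0 := by simp
  rw [this]; ring

theorem qd_diff {a b a' b' : (ι → ℂ) → ℂ} {v : ι → ℂ} (ha : DifferentiableAt ℂ a v)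
    (hb : DifferentiableAt ℂ b v) (ha' : DifferentiableAt ℂ a' v) (hb' : DifferentiableAt ℂ b' v)
    (h : b v ≠ 0) : DifferentiableAt ℂ (qd a b a' b') v := by
  have : DifferentiableAt ℂ (fun v => (a' v * b v - a v * b' v) / (b v) ^ 2) v :=
    diff_div ((ha'.mul hb).sub (ha.mul hb')) (hb.pow 2) (pow_ne_zero 2 h)
  exact this

theorem IsDel.wr (hR : DelRules ι δ) {a b a' b' : (ι → ℂ) → ℂ} (ha : IsDel δ a a')
    (hb : IsDel δ b b') (k : ι) :
    IsDel δ (fun v => pd k a v * b v - a v * pd k b v)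
      (fun v => pd k a' v * b v + pd k a v * b' v - (a' v * pd k b v + a v * pd k b' v)) := by
  have h1 := hR.mul _ _ _ _ (hR.pd k _ _ ha) hb
  have h2 := hR.mul _ _ _ _ (hR.const (-1)) (hR.mul _ _ _ _ ha (hR.pd k _ _ hb))
  have h3 := hR.add _ _ _ _ h1 h2
  have e1 : (fun v => pd k a v * b v + -1 * (a v * pd k b v)) =
      fun v => pd k a v * b v - a v * pd k b v := by funext v; ring
  have e2 : (fun v => pd k a' v * b v + pd k a v * b' v + (δ (-1) * (a v * pd k b v) +
      -1 * (a' v * pd k b v + a v * pd k b' v))) =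
      fun v => pd k a' v * b v + pd k a v * b' v - (a' v * pd k b v + a v * pd k b' v) := by
    funext v
    have : δ (-1 : ℂ) = 0 := by simp
    rw [this]; ring
  rw [e1, e2] at h3
  exact h3

theorem Hat.pd (hR : DelRules ι δ) {f g : (ι → ℂ) → ℂ} (h : Hat δ f g) (k : ι) :
    Hat δ (pd k f) (pd k g) := by
  obtain ⟨a, b, a', b', ha, hb, hb0, hf, hg⟩ := h
  refine ⟨_, _, _, _, IsDel.wr hR ha hb k, hR.mul _ _ _ _ hb hb,
    ent_mul_ne hb.ent hb.ent hb0 hb0, ?_, ?_⟩
  · filter_upwards [gen_pd hf k, gen_ne hb.ent hb0] with v e1 e2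
    rw [e1, pd_div' (ha.ent v) (hb.ent v) e2, sq]
  · filter_upwards [gen_pd hg k, gen_ne hb.ent hb0] with v e1 e2
    have e3 : GAM.pd k (qd a b a' b') v =
        GAM.pd k (fun v => (a' v * b v - a v * b' v) / (b v * b v)) v := by
      unfold qd
      simp only [sq]
    rw [e1, e3, pd_div' (f := fun v => a' v * b v - a v * b' v) (g := fun v => b v * b v)
      (((ha.ent' v).mul (hb.ent v)).sub ((ha.ent v).mul (hb.ent' v)))
      ((hb.ent v).mul (hb.ent v)) (mul_ne_zero e2 e2),
      pd_sub' (f := fun v => a' v * b v) (g := fun v => a v * b' v)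
        ((ha.ent' v).mul (hb.ent v)) ((ha.ent v).mul (hb.ent' v)),
      pd_mul' (ha.ent' v) (hb.ent v), pd_mul' (ha.ent v) (hb.ent' v),
      pd_mul' (hb.ent v) (hb.ent v), qd]
    field_simp
    ring

theorem Hat.mer₁ {f g : (ι → ℂ) → ℂ} (h : Hat δ f g) : Mer f := by
  obtain ⟨a, b, a', b', ha, hb, hb0, hf, hg⟩ := h
  exact ⟨a, b, ha.ent, hb.ent, hb0, hf⟩

theorem Hat.mer₂ {f g : (ι → ℂ) → ℂ} (h : Hat δ f g) : Mer g := by
  obtain ⟨a, b, a', b', ha, hb, hb0, hf, hg⟩ := h
  refine (Mer.quot (a := fun v => a' v * b v - a v * b' v) (b := fun v => b v * b v)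
    ((ha.ent'.mul hb.ent).sub (ha.ent.mul hb.ent')) (hb.ent.mul hb.ent)
    (ent_mul_ne hb.ent hb.ent hb0 hb0)).congr ?_
  filter_upwards [hg] with v e
  rw [e, qd, sq]

/-! ### Polynomials -/

theorem Mer.eval {κ : Type} {f : κ → (ι → ℂ) → ℂ} (hf : ∀ i, Mer (f i)) (P : MvPolynomial κ ℂ) :
    Mer fun v => MvPolynomial.eval (fun i => f i v) P := by
  induction P using MvPolynomial.induction_on with
  | C c => simpa using Mer.const c
  | add P Q hP hQ => simpa only [map_add] using hP.add hQ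
  | mul_X P i hP => simpa only [map_mul, MvPolynomial.eval_X] using hP.mul (hf i)

theorem eval_pd {κ : Type} [Fintype κ] [DecidableEq κ] {f : κ → (ι → ℂ) → ℂ}
    (hf : ∀ i, Mer (f i)) (j : ι) (P : MvPolynomial κ ℂ) :
    ∀ᶠ v in gen ι, pd j (fun v => MvPolynomial.eval (fun i => f i v) P) v =
      ∑ i, MvPolynomial.eval (fun i => f i v) (MvPolynomial.pderiv i P) * pd j (f i) v := by
  induction P using MvPolynomial.induction_on with
  | C c =>
    refine Eventually.of_forall fun v => ?_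
    simp [pd_const']
  | add P Q hP hQ =>
    filter_upwards [hP, hQ, (Mer.eval hf P).diffAt, (Mer.eval hf Q).diffAt] with v e1 e2 e3 e4
    simp only [map_add]
    rw [pd_add' e3 e4, e1, e2, ← Finset.sum_add_distrib]
    exact Finset.sum_congr rfl fun i _ => by ring
  | mul_X P i hP =>
    filter_upwards [hP, (Mer.eval hf P).diffAt, (hf i).diffAt] with v e1 e3 e4
    simp only [map_mul, MvPolynomial.eval_X]
    rw [pd_mul' e3 e4, e1, Finset.sum_mul]
    simp only [MvPolynomial.pderiv_mul, map_add, map_mul, MvPolynomial.eval_X, add_mul,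
      Finset.sum_add_distrib]
    congr 1
    · exact Finset.sum_congr rfl fun k _ => by ring
    · rw [Finset.sum_eq_single i]
      · simp
      · intro k _ hk
        rw [MvPolynomial.pderiv_X_of_ne (Ne.symm hk)]; simp
      · intro h; exact absurd (Finset.mem_univ _) h

theorem eval_hat (hR : DelRules ι δ) {κ : Type} [Fintype κ] [DecidableEq κ]
    {f g : κ → (ι → ℂ) → ℂ} (hf : ∀ i, Hat δ (f i) (g i)) (P : MvPolynomial κ ℂ) :
    ∃ Q : MvPolynomial κ ℂ, Hat δ (fun v => MvPolynomial.eval (fun i => f i v) P)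
      (fun v => MvPolynomial.eval (fun i => f i v) Q +
        ∑ i, MvPolynomial.eval (fun i => f i v) (MvPolynomial.pderiv i P) * g i v) := by
  induction P using MvPolynomial.induction_on with
  | C c =>
    refine ⟨MvPolynomial.C (δ c), ?_⟩
    simpa using Hat.const (ι := ι) hR c
  | add P Q hP hQ =>
    obtain ⟨P', hP⟩ := hP
    obtain ⟨Q', hQ⟩ := hQ
    refine ⟨P' + Q', ?_⟩
    refine (Hat.add hR hP hQ).congr (Eventually.of_forall fun v => by simp)
      (Eventually.of_forall fun v => ?_)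
    simp only [map_add, add_mul, Finset.sum_add_distrib]
    ring
  | mul_X P i hP =>
    obtain ⟨P', hP⟩ := hP
    refine ⟨P' * MvPolynomial.X i, ?_⟩
    refine (Hat.mul hR hP (hf i)).congr (Eventually.of_forall fun v => by simp)
      (Eventually.of_forall fun v => ?_)
    simp only [MvPolynomial.pderiv_mul, map_add, map_mul, MvPolynomial.eval_X, add_mul,
      Finset.sum_add_distrib]
    have h1 : ∑ k, MvPolynomial.eval (fun i => f i v) P *
        MvPolynomial.eval (fun i => f i v) (MvPolynomial.pderiv k (MvPolynomial.X i)) * g k v =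
        MvPolynomial.eval (fun i => f i v) P * g i v := by
      rw [Finset.sum_eq_single i]
      · simp
      · intro k _ hk
        rw [MvPolynomial.pderiv_X_of_ne (Ne.symm hk)]; simp
      · intro h; exact absurd (Finset.mem_univ _) h
    have h2 : ∑ k, MvPolynomial.eval (fun i => f i v) (MvPolynomial.pderiv k P) * f i v * g k v =
        (∑ k, MvPolynomial.eval (fun i => f i v) (MvPolynomial.pderiv k P) * g k v) * f i v := by
      rw [Finset.sum_mul]
      exact Finset.sum_congr rfl fun k _ => by ring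
    rw [h1, h2]
    ring

theorem totalDegree_pderiv_lt {κ : Type} (P : MvPolynomial κ ℂ) (i : κ)
    (h : MvPolynomial.pderiv i P ≠ 0) :
    (MvPolynomial.pderiv i P).totalDegree < P.totalDegree := by
  have key : ∀ m ∈ (MvPolynomial.pderiv i P).support,
      (m.sum fun _ e => e) + 1 ≤ P.totalDegree := by
    intro m hm
    rw [MvPolynomial.mem_support_iff, MvPolynomial.coeff_pderiv] at hm
    have h1 : m + Finsupp.single i 1 ∈ P.support :=
      MvPolynomial.mem_support_iff.2 (left_ne_zero_of_mul hm)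
    have h2 := MvPolynomial.le_totalDegree h1
    rw [Finsupp.sum_add_index' (fun _ => rfl) (fun _ _ _ => rfl), Finsupp.sum_single_index rfl]
      at h2
    exact h2
  obtain ⟨m, hm⟩ := MvPolynomial.support_nonempty.2 h
  have h0 : 0 < P.totalDegree := lt_of_lt_of_le (Nat.succ_pos _) (key m hm)
  unfold MvPolynomial.totalDegree at *
  rw [Finset.sup_lt_iff h0]
  intro m hm
  exact key m hm

theorem eq_C_of_pderiv {κ : Type} (P : MvPolynomial κ ℂ)
    (h : ∀ i, MvPolynomial.pderiv i P = 0) : P = MvPolynomial.C (P.coeff 0) := by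
  classical
  ext m
  rw [MvPolynomial.coeff_C]
  split_ifs with h0
  · rw [h0]
  · have : ∃ i, m i ≠ 0 := by
      by_contra hc
      push Not at hc
      exact h0 (Finsupp.ext fun i => by simp [hc i])
    obtain ⟨i, hi⟩ := this
    have h1 : m - Finsupp.single i 1 + Finsupp.single i 1 = m := by
      ext k
      by_cases hk : k = i
      · subst hk; simp; omega
      · simp [Ne.symm hk]
    have h2 := MvPolynomial.coeff_pderiv (i := i) P (m - Finsupp.single i 1)
    rw [h i, h1, MvPolynomial.coeff_zero] at h2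
    rcases mul_eq_zero.1 h2.symm with h3 | h3
    · exact h3
    · exact absurd h3 (Nat.cast_add_one_ne_zero _)

/-- Jacobian matrix at `v`. -/
noncomputable def Jm (f : ι → (ι → ℂ) → ℂ) (v : ι → ℂ) : Matrix ι ι ℂ :=
  Matrix.of fun i j => pd j (f i) v

/-- a nonzero relation between `f_0, f_1, ..., f_n` with `f_1, ..., f_n` independent yields a
relation which determines the derivatives of `f_0` -/
theorem exists_rel {f : Option ι → (ι → ℂ) → ℂ} (hf : ∀ i, Mer (f i))
    (hJ : ∀ᶠ v in gen ι, (Jm (fun i => f (some i)) v).det ≠ 0)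
    (h : ∃ P : MvPolynomial (Option ι) ℂ, P ≠ 0 ∧
      ∀ᶠ v in gen ι, MvPolynomial.eval (fun i => f i v) P = 0) :
    ∃ P : MvPolynomial (Option ι) ℂ, (∀ᶠ v in gen ι, MvPolynomial.eval (fun i => f i v) P = 0) ∧
      ∀ᶠ v in gen ι, MvPolynomial.eval (fun i => f i v) (MvPolynomial.pderiv none P) ≠ 0 := by
  classical
  have hex : ∃ n : ℕ, ∃ P : MvPolynomial (Option ι) ℂ, P ≠ 0 ∧
      (∀ᶠ v in gen ι, MvPolynomial.eval (fun i => f i v) P = 0) ∧ P.totalDegree = n := by
    obtain ⟨P, h1, h2⟩ := h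
    exact ⟨_, P, h1, h2, rfl⟩
  obtain ⟨P, hP0, hP, hdeg⟩ := Nat.find_spec hex
  have hmin : ∀ i, (∀ᶠ v in gen ι,
      MvPolynomial.eval (fun i => f i v) (MvPolynomial.pderiv i P) = 0) →
      MvPolynomial.pderiv i P = 0 := by
    intro i hi
    by_contra hne
    have h1 := totalDegree_pderiv_lt P i hne
    rw [hdeg] at h1
    exact Nat.find_min hex h1 ⟨_, hne, hi, rfl⟩
  refine ⟨P, hP, ?_⟩
  rcases (Mer.eval hf (MvPolynomial.pderiv none P)).dich with h0 | h0
  swap
  · exact h0
  exfalso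
  have hn := hmin none h0
  have hall : ∀ i, MvPolynomial.pderiv i P = 0 := by
    intro i
    rcases i with _ | i
    · exact hn
    · apply hmin
      have h3 : ∀ᶠ v in gen ι, ∀ j, ∑ i, MvPolynomial.eval (fun i => f i v)
          (MvPolynomial.pderiv i P) * pd j (f i) v = 0 := by
        rw [eventually_all]
        intro j
        filter_upwards [eval_pd hf j P, gen_pd hP j] with v e1 e2
        rw [← e1, e2, pd_const']
      filter_upwards [h3, hJ] with v e1 e2
      have e3 : (fun i => MvPolynomial.eval (fun i => f i v)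
          (MvPolynomial.pderiv (some i) P)) = 0 := by
        apply Matrix.eq_zero_of_vecMul_eq_zero e2
        funext j
        have := e1 j
        rw [Fintype.sum_option, hn, map_zero, zero_mul, zero_add] at this
        simpa [Matrix.vecMul, dotProduct, Jm] using this
      exact congrFun e3 i
  have hC := eq_C_of_pderiv P hall
  obtain ⟨v, hv⟩ := gen_exists hP
  rw [hC, MvPolynomial.eval_C] at hv
  rw [hv, map_zero] at hC
  exact hP0 hC

/-- the main algebraic step of (3.4) -/
theorem rel_hat (hR : DelRules ι δ) {f g : Option ι → (ι → ℂ) → ℂ}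
    (hf : ∀ i, Hat δ (f i) (g i))
    (hJ : ∀ᶠ v in gen ι, (Jm (fun i => f (some i)) v).det ≠ 0)
    (h : ∃ P : MvPolynomial (Option ι) ℂ, P ≠ 0 ∧
      ∀ᶠ v in gen ι, MvPolynomial.eval (fun i => f i v) P = 0)
    (l : ι → ℂ) (hl : ∀ i, ∀ᶠ v in gen ι, f i (v + l) = f i v) (lam : ι → (ι → ℂ) → ℂ)
    (hlam : ∀ i, ∀ᶠ v in gen ι, g (some i) (v + l) - g (some i) v =
      ∑ j, lam j v * pd j (f (some i)) v) :
    ∀ᶠ v in gen ι, g none (v + l) - g none v = ∑ j, lam j v * pd j (f none) v := by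
  obtain ⟨P, hP, hP0⟩ := exists_rel (fun i => (hf i).mer₁) hJ h
  obtain ⟨Q, hQ⟩ := eval_hat hR hf P
  have h1 : ∀ᶠ v in gen ι, MvPolynomial.eval (fun i => f i v) Q +
        ∑ i, MvPolynomial.eval (fun i => f i v) (MvPolynomial.pderiv i P) * g i v = 0 := by
    have h2 : Hat δ (fun _ : ι → ℂ => (0 : ℂ)) (fun v => MvPolynomial.eval (fun i => f i v) Q +
        ∑ i, MvPolynomial.eval (fun i => f i v) (MvPolynomial.pderiv i P) * g i v) :=
      hQ.congr hP (Eventually.of_forall fun _ => rfl)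
    have h3 := Hat.uniq hR h2 (Hat.const hR 0)
    filter_upwards [h3] with v e
    rw [e, map_zero]
  have h2 : ∀ᶠ v in gen ι, ∀ j, ∑ i, MvPolynomial.eval (fun i => f i v)
      (MvPolynomial.pderiv i P) * pd j (f i) v = 0 := by
    rw [eventually_all]
    intro j
    filter_upwards [eval_pd (fun i => (hf i).mer₁) j P, gen_pd hP j] with v e1 e2
    rw [← e1, e2, pd_const']
  filter_upwards [hP0, h1, gen_shift h1 l, h2, eventually_all.2 hl, eventually_all.2 hlam] with
    v e0 e1 e2 e3 e4 e5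
  have e6 : (fun i => f i (v + l)) = fun i => f i v := funext e4
  simp only [e6] at e2
  rw [Fintype.sum_option] at e1 e2
  set u : Option ι → ℂ := fun i => MvPolynomial.eval (fun i => f i v) (MvPolynomial.pderiv i P)
    with hu
  have e7 : u none * (g none (v + l) - g none v) +
      ∑ i, u (some i) * (g (some i) (v + l) - g (some i) v) = 0 := by
    simp only [mul_sub, Finset.sum_sub_distrib]
    simp only [hu]
    linear_combination e2 - e1
  have e8 : ∑ i, u (some i) * (g (some i) (v + l) - g (some i) v) =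
      -(u none * ∑ j, lam j v * pd j (f none) v) := by
    calc ∑ i, u (some i) * (g (some i) (v + l) - g (some i) v)
        = ∑ i, ∑ j, u (some i) * (lam j v * pd j (f (some i)) v) := by
          refine Finset.sum_congr rfl fun i _ => ?_
          rw [e5 i, Finset.mul_sum]
      _ = ∑ j, ∑ i, u (some i) * (lam j v * pd j (f (some i)) v) := Finset.sum_comm
      _ = ∑ j, lam j v * (∑ i, u (some i) * pd j (f (some i)) v) := by
          refine Finset.sum_congr rfl fun j _ => ?_
          rw [Finset.mul_sum]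
          exact Finset.sum_congr rfl fun i _ => by ring
      _ = ∑ j, lam j v * (-(u none * pd j (f none) v)) := by
          refine Finset.sum_congr rfl fun j _ => ?_
          have := e3 j
          rw [Fintype.sum_option] at this
          congr 1
          simp only [hu]
          linear_combination this
      _ = -(u none * ∑ j, lam j v * pd j (f none) v) := by
          rw [Finset.mul_sum, ← Finset.sum_neg_distrib]
          exact Finset.sum_congr rfl fun j _ => by ring
  rw [e8] at e7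
  have e9 : u none ≠ 0 := e0
  have e10 : u none * ((g none (v + l) - g none v) - ∑ j, lam j v * pd j (f none) v) = 0 := by
    linear_combination e7
  rcases mul_eq_zero.1 e10 with e11 | e11
  · exact absurd e11 e9
  · exact sub_eq_zero.1 e11

end GAM
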