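import Pool.Agent.GAM.SepB

/-!
# GAM [ImB]: `d_t θ = η θ` implies `t = 0` (Liouville)
-/

set_option autoImplicit false

open Topology

namespace GAM

open scoped ComplexConjugate

lemma ImB_per {ι : Type} [Fintype ι] {L : Submodule ℤ (ι → ℂ)} {χ θ : (ι → ℂ) → ℂ}
    {t : ι → ℂ} {η : (ι → ℂ) → ℂ} (hP : PLat L χ) (hT : IsTh L χ θ) (h0 : ∃ v, θ v ≠ 0)
    (hη : Differentiable ℂ η) (hηt : ∀ u, dd t θ u = η u * θ u) {l : ι → ℂ}
    (hl : l ∈ L) (u : ι → ℂ) : η (u + l) = η u + Real.pi * H t l := by
  have h1 : (fun u => η (u + l)) = fun u => η u + Real.pi * H t l := by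
    refine eq_of_gen (hη.continuous.comp (continuous_id.add continuous_const))
      (hη.continuous.add continuous_const) ?_
    filter_upwards [gen_ne hT.ent h0] with u hu
    have h2 : fderiv ℂ (fun u => θ (u + l)) u = fderiv ℂ θ (u + l) := fderiv_comp_add_right l
    have h3 : (fun u => θ (u + l)) = (fun u => χ l *
        Complex.exp (Real.pi * H u l + Real.pi / 2 * H l l)) * θ :=
      funext fun u => hT.quasi l hl u
    have h4 : HasFDerivAt (fun u => χ l * Complex.exp (Real.pi * H u l + Real.pi / 2 * H l l))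
        (χ l • (Complex.exp (Real.pi * H u l + Real.pi / 2 * H l l) •
          ((Real.pi : ℂ) • Hc l))) u := by
      have h5 : HasFDerivAt (fun u => H u l) (Hc l) u := (Hc l).hasFDerivAt
      exact (((h5.const_mul (Real.pi : ℂ)).add_const (Real.pi / 2 * H l l)).cexp).const_mul (χ l)
    rw [h3, (h4.mul (hT.ent u).hasFDerivAt).fderiv] at h2
    have h6 := hηt (u + l)
    unfold dd at h6
    rw [← h2] at h6
    simp only [ContinuousLinearMap.add_apply, ContinuousLinearMap.smul_apply, smul_eq_mul] at h6
    rw [Hc_apply] at h6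
    have h7 := hηt u
    unfold dd at h7
    rw [h7, hT.quasi l hl] at h6
    have h8 : χ l * Complex.exp (Real.pi * H u l + Real.pi / 2 * H l l) * θ u ≠ 0 :=
      mul_ne_zero (mul_ne_zero (hP.chi_ne hl) (Complex.exp_ne_zero _)) hu
    refine mul_right_cancel₀ h8 ?_
    linear_combination -h6
  exact congrFun h1 u

theorem thm_ImB : St_ImB := by
  intro ι _ L χ θ t η hP hT h0 hη hηt
  have hper : ∀ l ∈ L, ∀ u, η (u + l) = η u + Real.pi * H t l :=
    fun l hl u => ImB_per hP hT h0 hη hηt hl u
  have hfper : ∀ l ∈ L, ∀ u, fderiv ℂ η (u + l) = fderiv ℂ η u := by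
    intro l hl u
    have h1 : fderiv ℂ (fun u => η (u + l)) u = fderiv ℂ η (u + l) := fderiv_comp_add_right l
    rw [← h1]
    have h2 : (fun u => η (u + l)) = fun u => η u + Real.pi * H t l :=
      funext fun u => hper l hl u
    rw [h2, fderiv_add_const]
  have hfd := SepB_fderiv hη
  set c := fderiv ℂ η 0 with hc
  have hfc : ∀ u, fderiv ℂ η u = c := fun u =>
    hfd.apply_eq_apply_of_bounded (SepB_bdd hP.lat hfd.continuous hfper) u 0
  have hηc : ∀ u, η u = η 0 + c u := by
    have h1 : Differentiable ℂ fun u => η u - c u := hη.sub c.differentiable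
    have h2 : ∀ u, fderiv ℂ (fun u => η u - c u) u = 0 := by
      intro u
      rw [fderiv_fun_sub (hη u) c.differentiableAt, hfc u, c.fderiv, sub_self]
    intro u
    have h3 := is_const_of_fderiv_eq_zero h1 h2 u 0
    simp only [map_zero, sub_zero] at h3
    rw [← h3]
    ring
  have hcl : ∀ u, c u = Real.pi * H t u := by
    intro u
    have h1 := SepB_lin hP.lat (F := ℂ)
      { toFun := fun u => c u - Real.pi * H t u
        map_add' := fun x y => by
          rw [map_add, H_add_right]; ring
        map_smul' := fun r x => by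
          have h2 : r • x = (r : ℂ) • x := by funext a; simp
          rw [H_rsmul_right, h2, map_smul, smul_eq_mul, RingHom.id_apply, Complex.real_smul]
          ring }
      (fun l hl => by
        have h2 := hper l hl 0
        rw [zero_add, hηc l] at h2
        exact sub_eq_zero.2 (add_left_cancel h2)) u
    exact sub_eq_zero.1 h1
  have h1 := hcl (Complex.I • t)
  rw [map_smul, hcl t, smul_eq_mul, H_smul_right, Complex.conj_I] at h1
  have h2 : H t t = 0 := by
    have h3 : (2 * Complex.I * Real.pi : ℂ) * H t t = 0 := by linear_combination h1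
    have h4 : (2 * Complex.I * Real.pi : ℂ) ≠ 0 := by
      have := Real.pi_ne_zero
      simp [this, Complex.I_ne_zero]
    exact (mul_eq_zero.1 h3).resolve_left h4
  exact H_self_eq_zero (by rw [h2, Complex.zero_re])

end GAM
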