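import Pool.Agent.GAM.StA
import Pool.Agent.GAM.Hol
import Pool.Agent.Squeeze.Smooth

/-!
# GAM [Quar]: iteration and Taylor coefficients
-/

set_option autoImplicit false

open Filter Topology Asymptotics

namespace GAM

open scoped ComplexConjugate

/-- A bound near zero. -/
lemma Quar_bound {E W : Type} [NormedAddCommGroup E] [NormedAddCommGroup W] {D : E → W} {N : ℕ}
    (hO : D =O[𝓝 0] (fun v => ‖v‖ ^ N)) :
    ∃ C r : ℝ, 0 ≤ C ∧ 0 < r ∧ ∀ v, ‖v‖ ≤ r → ‖D v‖ ≤ C * ‖v‖ ^ N := by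
  obtain ⟨C, hC, hb⟩ := hO.exists_nonneg
  rw [isBigOWith_iff] at hb
  obtain ⟨r, hr, hball⟩ := Metric.eventually_nhds_iff.1 hb
  refine ⟨C, r / 2, hC, by positivity, fun v hv => ?_⟩
  have := hball (y := v) (by rw [dist_zero_right]; linarith)
  rwa [Real.norm_of_nonneg (by positivity)] at this

section iter

set_option linter.unusedSectionVars false

variable {E W : Type} [NormedAddCommGroup E] [NormedSpace ℂ E] [FiniteDimensional ℂ E]
  [NormedAddCommGroup W] [NormedSpace ℂ W]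

/-- Cauchy bound for the derivative. -/
lemma Quar_fderiv_le {f : E → W} (hf : Differentiable ℂ f) {x : E} {C : ℝ} (hC0 : 0 ≤ C)
    (hC : ∀ y, ‖y - x‖ ≤ 1 → ‖f y‖ ≤ C) : ‖fderiv ℂ f x‖ ≤ C := by
  refine ContinuousLinearMap.opNorm_le_bound _ hC0 fun w => ?_
  rcases eq_or_ne w 0 with rfl | hw
  · simp
  have hw' : 0 < ‖w‖ := norm_pos_iff.2 hw
  have hu : ‖(((1 / ‖w‖ : ℝ) : ℂ) • w)‖ = 1 := by
    rw [norm_smul, Complex.norm_real, Real.norm_of_nonneg (by positivity)]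
    field_simp
  have h1 := Pool.Agent.Squeeze.norm_fderiv_apply_le (U := Set.univ) (f := f)
    hf.differentiableOn isOpen_univ (x := x) (v := ((1 / ‖w‖ : ℝ) : ℂ) • w)
    (fun _ _ => Set.mem_univ _) (C := C) (fun t ht => hC _ (by
      rw [add_sub_cancel_left, norm_smul, hu, mul_one]
      exact ht))
  rw [map_smul, norm_smul, Complex.norm_real, Real.norm_of_nonneg (by positivity), div_mul_eq_mul_div,
    one_mul, div_le_iff₀ hw'] at h1
  exact h1

lemma Quar_half (v : E) : (2 : ℂ) • ((2 : ℂ)⁻¹ • v) = v := by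
  rw [smul_smul, mul_inv_cancel₀ two_ne_zero, one_smul]

lemma Quar_half_norm (v : E) : ‖(2 : ℂ)⁻¹ • v‖ = ‖v‖ / 2 := by
  rw [norm_smul, norm_inv, Complex.norm_ofNat]
  ring

lemma Quar_near {M : E → W →L[ℂ] W} (hM : Continuous M) {N : ℕ} (hN : 2 * ‖M 0‖ < 2 ^ N) :
    ∃ r : ℝ, 0 < r ∧ ∀ v, ‖v‖ ≤ r → ‖M v‖ ≤ 2 ^ N / 2 := by
  have h1 : Tendsto (fun v => 2 * ‖M v‖) (𝓝 0) (𝓝 (2 * ‖M 0‖)) :=
    ((continuous_const.mul hM.norm).tendsto 0)
  have h2 := h1.eventually (eventually_lt_nhds hN)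
  obtain ⟨r, hr, hball⟩ := Metric.eventually_nhds_iff.1 h2
  refine ⟨r / 2, by positivity, fun v hv => ?_⟩
  have := hball (y := v) (by rw [dist_zero_right]; linarith)
  linarith

lemma Quar_pow_large {r : ℝ} (hr : 0 < r) (x : ℝ) : ∃ j : ℕ, x ≤ 2 ^ j * r := by
  obtain ⟨j, hj⟩ := pow_unbounded_of_one_lt (x / r) (one_lt_two)
  exact ⟨j, by rw [div_lt_iff₀ hr] at hj; exact hj.le⟩

/-- uniqueness -/
lemma Quar_uniq {M : E → W →L[ℂ] W} (hM : Continuous M) {N : ℕ} (hN : 2 * ‖M 0‖ < 2 ^ N)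
    {h : E → W} (hh : ∀ v, h ((2 : ℂ) • v) = M v (h v))
    (hO : h =O[𝓝 0] (fun v => ‖v‖ ^ N)) (v : E) : h v = 0 := by
  obtain ⟨r₁, hr₁, hM₁⟩ := Quar_near hM hN
  obtain ⟨C, r₂, hC, hr₂, hb⟩ := Quar_bound hO
  have hh' : ∀ v, h v = M ((2 : ℂ)⁻¹ • v) (h ((2 : ℂ)⁻¹ • v)) := by
    intro v
    rw [← hh, Quar_half]
  set r := min r₁ r₂ with hr
  have hr0 : 0 < r := lt_min hr₁ hr₂
  have key : ∀ k : ℕ, ∀ v, ‖v‖ ≤ r → ‖h v‖ ≤ C * (1 / 2) ^ k * ‖v‖ ^ N := by
    intro k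
    induction k with
    | zero =>
      intro v hv
      simpa using hb v (hv.trans (min_le_right _ _))
    | succ k ih =>
      intro v hv
      have e1 : ‖(2 : ℂ)⁻¹ • v‖ ≤ r := by
        rw [Quar_half_norm]
        have := norm_nonneg v
        linarith
      rw [hh' v]
      calc ‖M ((2 : ℂ)⁻¹ • v) (h ((2 : ℂ)⁻¹ • v))‖ ≤ ‖M ((2 : ℂ)⁻¹ • v)‖ * ‖h ((2 : ℂ)⁻¹ • v)‖ :=
            ContinuousLinearMap.le_opNorm _ _
        _ ≤ (2 ^ N / 2) * (C * (1 / 2) ^ k * ‖(2 : ℂ)⁻¹ • v‖ ^ N) :=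
            mul_le_mul (hM₁ _ (e1.trans (min_le_left _ _))) (ih _ e1) (norm_nonneg _) (by positivity)
        _ = C * (1 / 2) ^ (k + 1) * ‖v‖ ^ N := by
            rw [Quar_half_norm, div_pow ‖v‖ 2 N, pow_succ (1 / 2 : ℝ) k]
            generalize (1 / 2 : ℝ) ^ k = q
            field_simp
  have h0 : ∀ v, ‖v‖ ≤ 2 ^ 0 * r → h v = 0 := by
    intro v hv
    rw [pow_zero, one_mul] at hv
    have ht : Tendsto (fun k : ℕ => C * (1 / 2 : ℝ) ^ k * ‖v‖ ^ N) atTop (𝓝 (C * 0 * ‖v‖ ^ N)) :=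
      ((tendsto_pow_atTop_nhds_zero_of_lt_one (by norm_num) (by norm_num)).const_mul C).mul_const _
    have : ‖h v‖ ≤ C * 0 * ‖v‖ ^ N := ge_of_tendsto' ht fun k => key k v hv
    simp only [mul_zero, zero_mul, norm_le_zero_iff] at this
    exact this
  have hj : ∀ j : ℕ, ∀ v, ‖v‖ ≤ 2 ^ j * r → h v = 0 := by
    intro j
    induction j with
    | zero => exact h0
    | succ j ih =>
      intro v hv
      rw [hh' v, ih _ (by rw [Quar_half_norm, pow_succ'] at *; linarith), map_zero]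
  obtain ⟨j, hj'⟩ := Quar_pow_large hr0 ‖v‖
  exact hj j v hj'

/-- the corrections -/
noncomputable def Quar_d (M : E → W →L[ℂ] W) (D : E → W) : ℕ → E → W
  | 0 => fun v => -D ((2 : ℂ)⁻¹ • v)
  | k + 1 => fun v => M ((2 : ℂ)⁻¹ • v) (Quar_d M D k ((2 : ℂ)⁻¹ • v))

omit [FiniteDimensional ℂ E] in
lemma Quar_d_diff {M : E → W →L[ℂ] W} (hM : Differentiable ℂ M) {D : E → W}
    (hD : Differentiable ℂ D) (k : ℕ) : Differentiable ℂ (Quar_d M D k) := by
  induction k with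
  | zero =>
    have : Differentiable ℂ (fun v : E => -D ((2 : ℂ)⁻¹ • v)) := by fun_prop
    exact this
  | succ k ih =>
    have : Differentiable ℂ (fun v : E => M ((2 : ℂ)⁻¹ • v) (Quar_d M D k ((2 : ℂ)⁻¹ • v))) := by
      fun_prop
    exact this

/-- existence -/
lemma Quar_exist [CompleteSpace W] {M : E → W →L[ℂ] W} (hM : Differentiable ℂ M) {N : ℕ}
    (hN : 2 * ‖M 0‖ < 2 ^ N) {g P : E → W} (hg : Differentiable ℂ g) (hP : Differentiable ℂ P)
    (hO : (fun v => P ((2 : ℂ) • v) - g v - M v (P v)) =O[𝓝 0] (fun v => ‖v‖ ^ N)) :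
    ∃ b : E → W, Differentiable ℂ b ∧ (∀ v, b ((2 : ℂ) • v) = g v + M v (b v)) ∧
      (fun v => b v - P v) =O[𝓝 0] (fun v => ‖v‖ ^ N) := by
  have : ProperSpace E := FiniteDimensional.proper ℂ E
  obtain ⟨r₁, hr₁, hM₁⟩ := Quar_near hM.continuous hN
  obtain ⟨C₁, r₂, hC₁, hr₂, hb⟩ := Quar_bound hO
  set D : E → W := fun v => P ((2 : ℂ) • v) - g v - M v (P v) with hD
  have hDd : Differentiable ℂ D := by
    rw [hD]
    fun_prop
  set r := min r₁ r₂ with hr
  have hr0 : 0 < r := lt_min hr₁ hr₂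
  set d := Quar_d M D with hd
  have hdd : ∀ k, Differentiable ℂ (d k) := Quar_d_diff hM hDd
  have hhalf : ∀ v : E, ‖v‖ ≤ r → ‖(2 : ℂ)⁻¹ • v‖ ≤ r := by
    intro v hv
    rw [Quar_half_norm]
    have := norm_nonneg v
    linarith
  have E2 : ∀ k : ℕ, ∀ v, ‖v‖ ≤ r → ‖d k v‖ ≤ C₁ * (1 / 2) ^ k * ‖v‖ ^ N := by
    intro k
    induction k with
    | zero =>
      intro v hv
      have e1 : ‖d 0 v‖ = ‖D ((2 : ℂ)⁻¹ • v)‖ := norm_neg _
      rw [e1, pow_zero, mul_one]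
      refine (hb _ ((hhalf v hv).trans (min_le_right _ _))).trans ?_
      gcongr
      rw [Quar_half_norm]
      have := norm_nonneg v
      linarith
    | succ k ih =>
      intro v hv
      have e1 := hhalf v hv
      calc ‖M ((2 : ℂ)⁻¹ • v) (d k ((2 : ℂ)⁻¹ • v))‖ ≤ ‖M ((2 : ℂ)⁻¹ • v)‖ * ‖d k ((2 : ℂ)⁻¹ • v)‖ :=
            ContinuousLinearMap.le_opNorm _ _
        _ ≤ (2 ^ N / 2) * (C₁ * (1 / 2) ^ k * ‖(2 : ℂ)⁻¹ • v‖ ^ N) :=
            mul_le_mul (hM₁ _ (e1.trans (min_le_left _ _))) (ih _ e1) (norm_nonneg _) (by positivity)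
        _ = C₁ * (1 / 2) ^ (k + 1) * ‖v‖ ^ N := by
            rw [Quar_half_norm, div_pow ‖v‖ 2 N, pow_succ (1 / 2 : ℝ) k]
            generalize (1 / 2 : ℝ) ^ k = q
            field_simp
  have E3 : ∀ j : ℕ, ∃ C : ℝ, 0 ≤ C ∧ ∀ k : ℕ, ∀ v, ‖v‖ ≤ 2 ^ j * r → ‖d k v‖ ≤ C * (1 / 2) ^ k := by
    intro j
    induction j with
    | zero =>
      refine ⟨C₁ * r ^ N, by positivity, fun k v hv => ?_⟩
      rw [pow_zero, one_mul] at hv
      refine (E2 k v hv).trans ?_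
      calc C₁ * (1 / 2) ^ k * ‖v‖ ^ N ≤ C₁ * (1 / 2) ^ k * r ^ N := by gcongr
        _ = C₁ * r ^ N * (1 / 2) ^ k := by ring
    | succ j ih =>
      obtain ⟨C, hC, hCb⟩ := ih
      obtain ⟨A, hA⟩ := (isCompact_closedBall (0 : E) (2 ^ (j + 1) * r)).exists_bound_of_continuousOn
        hM.continuous.continuousOn
      obtain ⟨A', hA'⟩ := (isCompact_closedBall (0 : E) (2 ^ (j + 1) * r)).exists_bound_of_continuousOn
        (hdd 0).continuous.continuousOn
      have hA0 : 0 ≤ A := (norm_nonneg _).trans (hA 0 (by simp; positivity))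
      refine ⟨max A' (2 * A * C), le_max_of_le_right (by positivity), fun k v hv => ?_⟩
      cases k with
      | zero =>
        rw [pow_zero, mul_one]
        exact (hA' v (by simpa using hv)).trans (le_max_left _ _)
      | succ k =>
        have e0 : ‖(2 : ℂ)⁻¹ • v‖ ≤ 2 ^ j * r := by
          rw [Quar_half_norm]
          rw [pow_succ'] at hv
          linarith
        have e1 : ‖(2 : ℂ)⁻¹ • v‖ ≤ 2 ^ (j + 1) * r := by
          refine e0.trans ?_
          rw [pow_succ']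
          have : 0 < 2 ^ j * r := by positivity
          linarith
        calc ‖M ((2 : ℂ)⁻¹ • v) (d k ((2 : ℂ)⁻¹ • v))‖ ≤ ‖M ((2 : ℂ)⁻¹ • v)‖ * ‖d k ((2 : ℂ)⁻¹ • v)‖ :=
              ContinuousLinearMap.le_opNorm _ _
          _ ≤ A * (C * (1 / 2) ^ k) :=
              mul_le_mul (hA _ (by simpa using e1)) (hCb k _ e0) (norm_nonneg _) hA0
          _ = (2 * A * C) * (1 / 2) ^ (k + 1) := by ring
          _ ≤ max A' (2 * A * C) * (1 / 2) ^ (k + 1) := by
              gcongr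
              exact le_max_right _ _
  have hgeo : ∀ C : ℝ, Summable (fun k : ℕ => C * (1 / 2 : ℝ) ^ k) := fun C =>
    (summable_geometric_of_lt_one (by norm_num) (by norm_num)).mul_left C
  have hsum : ∀ v, Summable (fun k => d k v) := by
    intro v
    obtain ⟨j, hj⟩ := Quar_pow_large hr0 ‖v‖
    obtain ⟨C, -, hCb⟩ := E3 j
    exact Summable.of_norm_bounded (hgeo C) fun k => hCb k v hj
  refine ⟨fun v => P v + ∑' k, d k v, ?_, ?_, ?_⟩
  · refine hP.add ?_
    intro x₀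
    obtain ⟨j, hj⟩ := Quar_pow_large hr0 (‖x₀‖ + 2)
    obtain ⟨C, hC, hCb⟩ := E3 j
    have hx₀ : x₀ ∈ Metric.ball (0 : E) (2 ^ j * r - 1) := by
      rw [mem_ball_zero_iff]
      linarith
    have := hasFDerivAt_tsum_of_isPreconnected (𝕜 := ℂ) (u := fun k : ℕ => C * (1 / 2 : ℝ) ^ k)
      (s := Metric.ball (0 : E) (2 ^ j * r - 1)) (f := d) (f' := fun k x => fderiv ℂ (d k) x)
      (hgeo C) Metric.isOpen_ball (convex_ball _ _).isPreconnected
      (fun k x _ => ((hdd k) x).hasFDerivAt)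
      (fun k x hx => by
        refine Quar_fderiv_le (hdd k) (by positivity) fun y hy => hCb k y ?_
        rw [mem_ball_zero_iff] at hx
        calc ‖y‖ = ‖(y - x) + x‖ := by rw [sub_add_cancel]
          _ ≤ ‖y - x‖ + ‖x‖ := norm_add_le _ _
          _ ≤ 2 ^ j * r := by linarith)
      hx₀ (hsum x₀) hx₀
    exact this.differentiableAt
  · intro v
    change P ((2 : ℂ) • v) + ∑' k, d k ((2 : ℂ) • v) = g v + M v (P v + ∑' k, d k v)
    rw [(hsum ((2 : ℂ) • v)).tsum_eq_zero_add]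
    have e1 : d 0 ((2 : ℂ) • v) = -(P ((2 : ℂ) • v) - g v - M v (P v)) := by
      have : (2 : ℂ)⁻¹ • ((2 : ℂ) • v) = v := by
        rw [smul_smul, inv_mul_cancel₀ two_ne_zero, one_smul]
      show -D ((2 : ℂ)⁻¹ • ((2 : ℂ) • v)) = _
      rw [this]
    have e2 : ∀ k, d (k + 1) ((2 : ℂ) • v) = M v (d k v) := by
      intro k
      have : (2 : ℂ)⁻¹ • ((2 : ℂ) • v) = v := by
        rw [smul_smul, inv_mul_cancel₀ two_ne_zero, one_smul]
      show M ((2 : ℂ)⁻¹ • ((2 : ℂ) • v)) (d k ((2 : ℂ)⁻¹ • ((2 : ℂ) • v))) = _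
      rw [this]
    rw [e1]
    simp only [e2]
    rw [← (M v).map_tsum (hsum v), map_add]
    abel
  · refine IsBigO.of_bound (C₁ * 2) ?_
    filter_upwards [Metric.closedBall_mem_nhds (0 : E) hr0] with v hv
    rw [mem_closedBall_zero_iff] at hv
    have hs : HasSum (fun k : ℕ => C₁ * (1 / 2 : ℝ) ^ k * ‖v‖ ^ N) (C₁ * 2 * ‖v‖ ^ N) := by
      have h1 := (hasSum_geometric_of_lt_one (by norm_num : (0:ℝ) ≤ 1 / 2) (by norm_num))
      have h2 : (1 - 1 / 2 : ℝ)⁻¹ = 2 := by norm_num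
      rw [h2] at h1
      exact (h1.mul_left C₁).mul_right _
    have := tsum_of_norm_bounded hs fun k => E2 k v hv
    rw [add_sub_cancel_left, Real.norm_of_nonneg (by positivity)]
    exact this

end iter

section tay

variable {ι : Type} [Fintype ι] [DecidableEq ι]

lemma Quar_an {h : (ι → ℂ) → ℂ} (hh : Differentiable ℂ h) (z : ι → ℂ) : AnalyticAt ℂ h z :=
  thm_Hol ι Set.univ h isOpen_univ hh.differentiableOn z (Set.mem_univ z)

lemma Quar_pd_diff {h : (ι → ℂ) → ℂ} (hh : Differentiable ℂ h) (a : ι) :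
    Differentiable ℂ (pd a h) := by
  intro z
  have h1 : AnalyticAt ℂ (fderiv ℂ h) z := (Quar_an hh z).fderiv
  exact h1.differentiableAt.clm_apply (differentiableAt_const _)

lemma Quar_pdl_diff {h : (ι → ℂ) → ℂ} (hh : Differentiable ℂ h) (l : List ι) :
    Differentiable ℂ (pdl l h) := by
  induction l with
  | nil => exact hh
  | cons a l ih => exact Quar_pd_diff ih a

omit [Fintype ι] in
lemma Quar_pdl_append [Fintype ι] (h : (ι → ℂ) → ℂ) (l : List ι) (a : ι) :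
    pdl (l ++ [a]) h = pdl l (pd a h) := by
  unfold pdl
  rw [List.foldr_append]
  rfl

lemma Quar_pdl_sub {f g : (ι → ℂ) → ℂ} (hf : Differentiable ℂ f) (hg : Differentiable ℂ g)
    (l : List ι) : pdl l (fun v => f v - g v) = fun v => pdl l f v - pdl l g v := by
  induction l with
  | nil => rfl
  | cons a l ih =>
    change pd a (pdl l fun v => f v - g v) = fun v => pd a (pdl l f) v - pd a (pdl l g) v
    rw [ih]
    funext v
    unfold pd
    rw [fderiv_fun_sub ((Quar_pdl_diff hf l) v) ((Quar_pdl_diff hg l) v)]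
    rfl

lemma Quar_fderiv_sum (h : (ι → ℂ) → ℂ) (v w : ι → ℂ) :
    fderiv ℂ h v w = ∑ a, w a * pd a h v := by
  conv_lhs => rw [pi_eq_sum_univ' w]
  rw [map_sum]
  refine Finset.sum_congr rfl fun a _ => ?_
  rw [map_smul, smul_eq_mul]
  rfl

lemma Quar_norm_fderiv (h : (ι → ℂ) → ℂ) (v : ι → ℂ) : ‖fderiv ℂ h v‖ ≤ ∑ a, ‖pd a h v‖ := by
  refine ContinuousLinearMap.opNorm_le_bound _ (Finset.sum_nonneg fun _ _ => norm_nonneg _)
    fun w => ?_
  rw [Quar_fderiv_sum, Finset.sum_mul]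
  refine (norm_sum_le _ _).trans (Finset.sum_le_sum fun a _ => ?_)
  rw [norm_mul, mul_comm]
  exact mul_le_mul_of_nonneg_left (norm_le_pi_norm w a) (norm_nonneg _)

/-- a function with vanishing Taylor coefficients is small -/
lemma Quar_tay (N : ℕ) : ∀ {h : (ι → ℂ) → ℂ}, Differentiable ℂ h →
    (∀ l : List ι, l.length < N → pdl l h 0 = 0) → h =O[𝓝 0] (fun v => ‖v‖ ^ N) := by
  induction N with
  | zero =>
    intro h hh _
    simp only [pow_zero]
    exact (hh.continuous.tendsto 0).isBigO_one ℝ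
  | succ N ih =>
    intro h hh hl
    have h0 : h 0 = 0 := hl [] (by simp)
    have h1 : ∀ a, pd a h =O[𝓝 0] (fun v => ‖v‖ ^ N) := fun a =>
      ih (Quar_pd_diff hh a) fun l hl' => by
        rw [← Quar_pdl_append]
        exact hl _ (by simpa using hl')
    have h2 : (fun v => ∑ a, ‖pd a h v‖) =O[𝓝 0] (fun v => ‖v‖ ^ N) :=
      IsBigO.fun_sum fun a _ => (h1 a).norm_left
    obtain ⟨C, r, hC, hr, hb⟩ := Quar_bound h2
    refine IsBigO.of_bound C ?_
    filter_upwards [Metric.closedBall_mem_nhds (0 : ι → ℂ) hr] with v hv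
    rw [mem_closedBall_zero_iff] at hv
    have h3 : ‖h v - h 0‖ ≤ C * ‖v‖ ^ N * ‖v - 0‖ := by
      refine (convex_closedBall (0 : ι → ℂ) ‖v‖).norm_image_sub_le_of_norm_fderiv_le (𝕜 := ℂ)
        (fun x _ => hh x) (fun x hx => ?_) (by simp) (by simp)
      rw [mem_closedBall_zero_iff] at hx
      have h4 := hb x (hx.trans hv)
      have h5 : (0 : ℝ) ≤ ∑ a, ‖pd a h x‖ := Finset.sum_nonneg fun _ _ => norm_nonneg _
      rw [Real.norm_of_nonneg h5] at h4
      refine (Quar_norm_fderiv h x).trans (h4.trans ?_)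
      gcongr
    rw [h0, sub_zero, sub_zero] at h3
    rw [Real.norm_of_nonneg (by positivity), pow_succ]
    linarith

lemma Quar_pd_small {h : (ι → ℂ) → ℂ} (hh : Differentiable ℂ h) (a : ι) {N : ℕ}
    (hO : h =O[𝓝 0] (fun v => ‖v‖ ^ (N + 1))) : pd a h =O[𝓝 0] (fun v => ‖v‖ ^ N) := by
  obtain ⟨C, r, hC, hr, hb⟩ := Quar_bound hO
  have key : ∀ x : ι → ℂ, ∀ s : ℝ, 0 < s → ‖x‖ ≤ s → 2 * s ≤ r →
      ‖pd a h x‖ ≤ C * 2 ^ (N + 1) * s ^ N := by
    intro x s hs hx hsr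
    have h1 := Pool.Agent.Squeeze.norm_fderiv_apply_le (U := Set.univ) (f := h)
      hh.differentiableOn isOpen_univ (x := x) (v := ((s : ℂ)) • (Pi.single a 1 : ι → ℂ))
      (fun _ _ => Set.mem_univ _) (C := C * (2 * s) ^ (N + 1)) (fun t ht => by
        have e1 : ‖x + t • ((s : ℂ)) • (Pi.single a 1 : ι → ℂ)‖ ≤ 2 * s := by
          refine (norm_add_le _ _).trans ?_
          rw [norm_smul, norm_smul, Complex.norm_real, Real.norm_of_nonneg hs.le]
          have e2 : ‖(Pi.single a 1 : ι → ℂ)‖ = 1 := by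
            rw [Pi.norm_single, norm_one]
          rw [e2, mul_one]
          nlinarith
        refine (hb _ (e1.trans hsr)).trans ?_
        gcongr)
    rw [map_smul, norm_smul, Complex.norm_real, Real.norm_of_nonneg hs.le] at h1
    have h2 : s * ‖pd a h x‖ ≤ s * (C * 2 ^ (N + 1) * s ^ N) := by
      calc s * ‖pd a h x‖ ≤ C * (2 * s) ^ (N + 1) := h1
        _ = s * (C * 2 ^ (N + 1) * s ^ N) := by rw [mul_pow]; ring
    exact le_of_mul_le_mul_left h2 hs
  refine IsBigO.of_bound (C * 2 ^ (N + 1)) ?_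
  filter_upwards [Metric.ball_mem_nhds (0 : ι → ℂ) (half_pos hr)] with x hx
  rw [mem_ball_zero_iff] at hx
  rw [Real.norm_of_nonneg (by positivity)]
  have ht : Tendsto (fun s : ℝ => C * 2 ^ (N + 1) * s ^ N) (𝓝[>] ‖x‖)
      (𝓝 (C * 2 ^ (N + 1) * ‖x‖ ^ N)) := by
    have : Continuous (fun s : ℝ => C * 2 ^ (N + 1) * s ^ N) := by fun_prop
    exact this.continuousWithinAt
  refine ge_of_tendsto ht ?_
  have h3 : ∀ᶠ s in 𝓝[>] ‖x‖, s < r / 2 := by
    refine eventually_nhdsWithin_of_eventually_nhds ?_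
    exact eventually_lt_nhds hx
  filter_upwards [h3, self_mem_nhdsWithin] with s hs hs'
  have hs'' : ‖x‖ < s := hs'
  exact key x s ((norm_nonneg x).trans_lt hs'') hs''.le (by linarith)

/-- a small function has vanishing Taylor coefficients -/
lemma Quar_van (N : ℕ) : ∀ {h : (ι → ℂ) → ℂ}, Differentiable ℂ h →
    h =O[𝓝 0] (fun v => ‖v‖ ^ N) → ∀ l : List ι, l.length < N → pdl l h 0 = 0 := by
  induction N with
  | zero =>
    intro h _ _ l hl
    exact absurd hl (by simp)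
  | succ N ih =>
    intro h hh hO l hl
    rcases List.eq_nil_or_concat l with rfl | ⟨l', a, rfl⟩
    · obtain ⟨C, r, hC, hr, hb⟩ := Quar_bound hO
      have := hb 0 (by simpa using hr.le)
      simp only [norm_zero, ne_eq, Nat.succ_ne_zero, not_false_eq_true, zero_pow, mul_zero,
        norm_le_zero_iff] at this
      exact this
    · rw [List.concat_eq_append] at hl ⊢
      rw [Quar_pdl_append]
      exact ih (Quar_pd_diff hh a) (Quar_pd_small hh a hO) l' (by simpa using hl)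

omit [DecidableEq ι] in
lemma Quar_pow_mono {N N' : ℕ} (h : N ≤ N') :
    (fun v : ι → ℂ => ‖v‖ ^ N') =O[𝓝 0] (fun v : ι → ℂ => ‖v‖ ^ N) := by
  refine IsBigO.of_bound 1 ?_
  filter_upwards [Metric.closedBall_mem_nhds (0 : ι → ℂ) one_pos] with v hv
  rw [mem_closedBall_zero_iff] at hv
  rw [Real.norm_of_nonneg (by positivity), Real.norm_of_nonneg (by positivity), one_mul]
  exact pow_le_pow_of_le_one (norm_nonneg _) hv h

end tay

end GAM
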