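import Pool.Agent.GAM.StG
import Pool.Agent.GAM.Bas

/-!
# GAM [Sep]: the functions `F_x` separate the points of `V / N L`
-/

set_option autoImplicit false

namespace GAM

open scoped ComplexConjugate

theorem thm_Sep (hA : St_SepA) (hB : St_SepB) : St_Sep := by
  intro ι _ L χ θ N r c κ z w hP hT h0 hN hL hF
  obtain ⟨x₀, hx₀, hne₀⟩ := hN.pt w
  have hF₀ : F θ x₀ w ≠ 0 := (F_ne_iff θ x₀ w).2 hne₀
  set γ : ℂ := F θ x₀ z / F θ x₀ w with hγ
  have hFγ : ∀ x, (N : ℤ) • x ∈ L → F θ x z = γ * F θ x w := by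
    intro x hx
    have h1 := hF x x₀ hx hx₀
    rw [hγ]
    field_simp
    exact h1
  have hγ0 : γ ≠ 0 := by
    intro h
    obtain ⟨x₁, hx₁, hne₁⟩ := hN.pt z
    have h1 := hFγ x₁ hx₁
    rw [h, zero_mul] at h1
    exact (F_ne_iff θ x₁ z).2 hne₁ h1
  obtain ⟨q, hq, hq0, hqz⟩ := hA ι L χ θ N r c κ z w γ hP hT h0 hN hL hγ0 hFγ
  have ht := hB ι L χ θ z w q hP hT h0 hq hq0 hqz
  refine hN.sep w (z - w) ht fun x x' hx hx' hne hne' => ?_
  have key : ∀ y, (N : ℤ) • y ∈ L → θ (y + w) ≠ 0 →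
      χ (z - w) * Complex.exp (2 * Real.pi * Complex.I * E y (z - w)) *
        Complex.exp (Real.pi * H w (z - w) + Real.pi / 2 * H (z - w) (z - w)) = γ := by
    intro y hy hney
    have h1 := F_quasi hT ht y w
    have h2 : w + (z - w) = z := by abel
    rw [h2, hFγ y hy] at h1
    exact (mul_right_cancel₀ ((F_ne_iff θ y w).2 hney) h1).symm
  have h1 := key x hx hne
  rw [← key x' hx' hne'] at h1
  exact mul_left_cancel₀ (hP.chi_ne ht) (mul_right_cancel₀ (Complex.exp_ne_zero _) h1)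

end GAM
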