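import Pool.Agent.GAM.Hol
import Pool.Agent.Helper8.SVDir

/-!
# GAM: vanishing conditions and Schwarz' lemma for holomorphic functions of several variables
-/

set_option autoImplicit false

open Metric Filter Topology

namespace GAM

open Pool.Agent.Helper8 (dds Van dds_perm dds_nil dds_cons analyticAt_dds dds_congr dd_congr)

section words

variable {ι : Type} [Fintype ι]

/-- The word attached to a multi-index. -/
noncomputable def word {k : ℕ} (μ : ι → Fin k) : List ι :=
  (∑ a, Multiset.replicate (μ a : ℕ) a).toList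

lemma count_word [DecidableEq ι] {k : ℕ} (μ : ι → Fin k) (b : ι) :
    (word μ).count b = (μ b : ℕ) := by
  unfold word
  rw [← Multiset.coe_count, Multiset.coe_toList, Multiset.count_sum']
  simp [Multiset.count_replicate]

lemma exists_word {k : ℕ} (w : List ι) (hw : w.length < k) :
    ∃ μ : ι → Fin k, w.Perm (word μ) := by
  classical
  refine ⟨fun a => ⟨w.count a, lt_of_le_of_lt List.count_le_length hw⟩, ?_⟩
  rw [List.perm_iff_count]
  intro a
  rw [count_word]

/-- The unit vectors. -/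
noncomputable def ev [DecidableEq ι] (a : ι) : ι → ℂ := Pi.single a 1

lemma eq_sum_ev [DecidableEq ι] (v : ι → ℂ) : v = ∑ a, v a • ev a := by
  funext j
  simp [ev, Finset.sum_apply, Pi.single_apply]

end words

section iter

variable {E : Type} [NormedAddCommGroup E] [NormedSpace ℂ E]

lemma iteratedFDeriv_eq_dds {f : E → ℂ} (n : ℕ) : ∀ {p : E}, AnalyticAt ℂ f p →
    ∀ v : Fin n → E, iteratedFDeriv ℂ n f p v = dds (List.ofFn v) f p := by
  induction n with
  | zero =>
    intro p _ v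
    simp
  | succ n ih =>
    intro p hf v
    rw [iteratedFDeriv_succ_apply_left, List.ofFn_succ, dds_cons]
    have h1 : dds (List.ofFn fun i : Fin n => v i.succ) f =ᶠ[𝓝 p]
        fun y => iteratedFDeriv ℂ n f y (Fin.tail v) := by
      filter_upwards [hf.eventually_analyticAt] with y hy
      exact (ih hy _).symm
    rw [(dd_congr h1 (v 0)).self_of_nhds]
    have h2 : AnalyticOnNhd ℂ (iteratedFDeriv ℂ n f) {y | AnalyticAt ℂ f y} :=
      AnalyticOnNhd.iteratedFDeriv (fun y hy => hy) n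
    have h3 := (h2 p hf).differentiableAt.hasFDerivAt
    have h4 : HasFDerivAt (fun y => iteratedFDeriv ℂ n f y (Fin.tail v))
        ((ContinuousMultilinearMap.apply ℂ (fun _ : Fin n => E) ℂ (Fin.tail v)).comp
          (fderiv ℂ (iteratedFDeriv ℂ n f) p)) p :=
      (ContinuousMultilinearMap.apply ℂ (fun _ : Fin n => E) ℂ
        (Fin.tail v)).hasFDerivAt.comp p h3
    unfold Pool.Agent.Helper8.dd
    rw [h4.fderiv]
    rfl

end iter

section van

variable {ι : Type} [Fintype ι] [DecidableEq ι]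

/-- The finitely many conditions of vanishing to order `k` imply vanishing along all lines. -/
lemma line_zero {Ω : Set (ι → ℂ)} (hΩ : IsOpen Ω) {f : (ι → ℂ) → ℂ}
    (hf : DifferentiableOn ℂ f Ω) {p : ι → ℂ} (hp : p ∈ Ω) {k : ℕ}
    (h : ∀ μ : ι → Fin k, dds ((word μ).map ev) f p = 0) (v : ι → ℂ) (i : ℕ) (hi : i < k) :
    iteratedDeriv i (fun t : ℂ => f (p + t • v)) 0 = 0 := by
  have hfa : AnalyticAt ℂ f p := analyticOnNhd_of_differentiableOn hΩ hf p hp
  have h1 := iteratedDeriv_line hΩ hf p v i 0 (by simpa using hp)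
  rw [h1, zero_smul, add_zero]
  have h2 : (fun _ : Fin i => v) = fun j : Fin i => ∑ a, v a • ev a := by
    funext j
    exact eq_sum_ev v
  rw [h2]
  have h3 := (iteratedFDeriv ℂ i f p).toMultilinearMap.map_sum
    (fun (_ : Fin i) (a : ι) => v a • ev a)
  have h4 : (iteratedFDeriv ℂ i f p) (fun _ : Fin i => ∑ a, v a • ev a) =
      ∑ r : Fin i → ι, (iteratedFDeriv ℂ i f p) fun j => v (r j) • ev (r j) := h3
  rw [h4]
  refine Finset.sum_eq_zero fun r _ => ?_
  have h5 : (iteratedFDeriv ℂ i f p) (fun j => v (r j) • ev (r j)) =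
      (∏ j, v (r j)) • (iteratedFDeriv ℂ i f p) fun j => ev (r j) :=
    (iteratedFDeriv ℂ i f p).map_smul_univ (fun j => v (r j)) fun j => ev (r j)
  rw [h5, iteratedFDeriv_eq_dds i hfa]
  have h6 : (List.ofFn fun j : Fin i => (ev (r j) : ι → ℂ)) = (List.ofFn r).map ev := by
    rw [List.map_ofFn]
    rfl
  obtain ⟨μ, hμ⟩ := exists_word (k := k) (List.ofFn r) (by simpa using hi)
  rw [h6, dds_perm (hμ.map ev) hfa, h μ, smul_zero]

omit [Fintype ι] [DecidableEq ι] in
lemma factor_on {φ : ℂ → ℂ} {U : Set ℂ} (hU : IsOpen U) (h0 : (0 : ℂ) ∈ U)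
    (hφ : DifferentiableOn ℂ φ U) {k : ℕ} (hz : ∀ i < k, iteratedDeriv i φ 0 = 0) :
    ∃ ψ : ℂ → ℂ, DifferentiableOn ℂ ψ U ∧ ∀ t ∈ U, φ t = t ^ k * ψ t := by
  classical
  have hA : AnalyticAt ℂ φ 0 := hφ.analyticAt (hU.mem_nhds h0)
  have hord : (k : ℕ∞) ≤ analyticOrderAt φ 0 :=
    (natCast_le_analyticOrderAt_iff_iteratedDeriv_eq_zero hA).mpr hz
  obtain ⟨g, hg, hgφ⟩ := (natCast_le_analyticOrderAt hA).mp hord
  set ψ : ℂ → ℂ := fun t => if t = 0 then g 0 else φ t / t ^ k with hψ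
  have hψg : ψ =ᶠ[𝓝 0] g := by
    filter_upwards [hgφ] with t ht
    simp only [hψ]
    split_ifs with h
    · rw [h]
    · rw [ht, sub_zero, smul_eq_mul, mul_div_cancel_left₀ _ (pow_ne_zero k h)]
  refine ⟨ψ, ?_, ?_⟩
  · intro t ht
    rcases eq_or_ne t 0 with rfl | hne
    · exact (hg.differentiableAt.congr_of_eventuallyEq hψg).differentiableWithinAt
    · have h1 : ψ =ᶠ[𝓝 t] fun s => φ s / s ^ k := by
        filter_upwards [isOpen_ne.mem_nhds hne] with s hs
        simp only [hψ]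
        rw [if_neg hs]
      have h2 : DifferentiableAt ℂ (fun s => φ s / s ^ k) t :=
        ((hφ t ht).differentiableAt (hU.mem_nhds ht)).div (by fun_prop) (pow_ne_zero k hne)
      exact (h2.congr_of_eventuallyEq h1).differentiableWithinAt
  · intro t ht
    rcases eq_or_ne t 0 with rfl | hne
    · have h1 : φ 0 = (0 - 0 : ℂ) ^ k • g 0 := hgφ.self_of_nhds
      simp only [hψ, if_true]
      rw [h1]
      simp
    · simp only [hψ]
      rw [if_neg hne, mul_div_cancel₀ _ (pow_ne_zero k hne)]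

omit [Fintype ι] [DecidableEq ι] in
/-- Schwarz' lemma along a line. -/
lemma schwarz_line {E : Type} [NormedAddCommGroup E] [NormedSpace ℂ E] {Ω : Set E}
    (hΩ : IsOpen Ω) {G : E → ℂ} (hG : DifferentiableOn ℂ G Ω) {p h : E} {ρ B : ℝ} (hρ : 1 ≤ ρ)
    (hsub : ∀ t : ℂ, ‖t‖ ≤ ρ → p + t • h ∈ Ω) (hB : ∀ t : ℂ, ‖t‖ ≤ ρ → ‖G (p + t • h)‖ ≤ B)
    {k : ℕ} (hk : ∀ i < k, iteratedDeriv i (fun t : ℂ => G (p + t • h)) 0 = 0) :
    ‖G (p + h)‖ * ρ ^ k ≤ B := by
  have hρ0 : 0 < ρ := by linarith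
  set U : Set ℂ := (fun t : ℂ => p + t • h) ⁻¹' Ω with hU
  have hUo : IsOpen U := hΩ.preimage (by fun_prop)
  have hsub' : closedBall (0 : ℂ) ρ ⊆ U := fun t ht => hsub t (by simpa using ht)
  have hφ : DifferentiableOn ℂ (fun t : ℂ => G (p + t • h)) U := fun t ht =>
    (Pool.Agent.Squeeze.differentiableAt_line hG hΩ ht).differentiableWithinAt
  obtain ⟨ψ, hψ, hφψ⟩ := factor_on hUo (hsub' (mem_closedBall_self hρ0.le)) hφ hk
  have h1 : ‖ψ 1‖ ≤ B / ρ ^ k := by
    apply Complex.norm_le_of_forall_mem_frontier_norm_le (U := Metric.ball (0 : ℂ) ρ)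
      Metric.isBounded_ball
    · refine DifferentiableOn.diffContOnCl ?_
      rw [closure_ball _ hρ0.ne']
      exact hψ.mono hsub'
    · intro z hz
      rw [frontier_ball _ hρ0.ne'] at hz
      have hz' : ‖z‖ = ρ := by simpa using hz
      rw [le_div_iff₀ (by positivity)]
      have h2 := hB z hz'.le
      have h3 := hφψ z (hsub' (by simp [hz']))
      rw [h3, norm_mul, norm_pow, hz'] at h2
      linarith
    · rw [closure_ball _ hρ0.ne']
      simpa using hρ
  have h2 : G (p + h) = ψ 1 := by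
    have := hφψ 1 (hsub' (by simpa using hρ))
    simpa using this
  rw [h2]
  rwa [le_div_iff₀ (by positivity)] at h1

/-- The principle of Siegel: functions which transform with a factor of bounded size and satisfy
sufficiently many vanishing conditions are zero. -/
theorem van_principle (Ω K : Set (ι → ℂ)) (N : (ι → ℂ) → ℝ) (hΩ : IsOpen Ω)
    (hN : ContinuousOn N Ω) (hK : IsCompact K) (hKΩ : K ⊆ Ω) :
    ∃ (t : Finset (ι → ℂ)) (c : ℕ), (t : Set (ι → ℂ)) ⊆ K ∧
      ∀ (m k : ℕ) (G : (ι → ℂ) → ℂ), DifferentiableOn ℂ G Ω →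
        (∀ z ∈ Ω, ∃ z' ∈ K, ‖G z‖ ≤ Real.exp (m * (N z - N z')) * ‖G z'‖) → c * m < k →
        (∀ p ∈ t, ∀ μ : ι → Fin k, dds ((word μ).map ev) G p = 0) → ∀ z ∈ Ω, G z = 0 := by
  classical
  have hex : ∀ p ∈ K, ∃ R : ℝ, 0 < R ∧ closedBall p (Real.exp 1 * R) ⊆ Ω := by
    intro p hp
    obtain ⟨R, hR, hR2⟩ := nhds_basis_closedBall.mem_iff.1 (hΩ.mem_nhds (hKΩ hp))
    refine ⟨R / Real.exp 1, by positivity, ?_⟩
    rwa [mul_div_cancel₀ _ (Real.exp_pos 1).ne']
  choose! R hR0 hR using hex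
  obtain ⟨t, htK, htc⟩ := hK.elim_nhds_subcover' (fun p _ => ball p (R p))
    (fun p hp => ball_mem_nhds p (hR0 p hp)) |> fun ⟨t, ht⟩ =>
      (⟨t.image (fun p : K => (p : ι → ℂ)), by
        intro p hp
        rw [Finset.coe_image] at hp
        obtain ⟨q, _, rfl⟩ := hp
        exact q.2, by
        intro z hz
        obtain ⟨p, hp, hzp⟩ := Set.mem_iUnion₂.1 (ht hz)
        exact Set.mem_iUnion₂.2 ⟨p, Finset.mem_image_of_mem _ hp, hzp⟩⟩ :
        ∃ t : Finset (ι → ℂ), (t : Set (ι → ℂ)) ⊆ K ∧ K ⊆ ⋃ p ∈ t, ball p (R p))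
  set K' : Set (ι → ℂ) := K ∪ ⋃ p ∈ t, closedBall p (Real.exp 1 * R p) with hK'
  have hK'c : IsCompact K' := hK.union (t.isCompact_biUnion fun p _ => isCompact_closedBall _ _)
  have hK'Ω : K' ⊆ Ω := by
    apply Set.union_subset hKΩ
    apply Set.iUnion₂_subset
    intro p hp
    exact hR p (htK hp)
  obtain ⟨B, hB⟩ := hK'c.exists_bound_of_continuousOn (hN.mono hK'Ω)
  refine ⟨t, ⌈2 * B⌉₊, htK, fun m k G hG hGN hk hvan => ?_⟩
  rcases K.eq_empty_or_nonempty with hKe | hKne
  · intro z hz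
    obtain ⟨z', hz', _⟩ := hGN z hz
    rw [hKe] at hz'
    exact absurd hz' (Set.notMem_empty _)
  have hcont : ContinuousOn (fun z => ‖G z‖ * Real.exp (-(m * N z))) K := by
    apply ContinuousOn.mul (hG.continuousOn.mono hKΩ).norm
    exact (Real.continuous_exp.comp_continuousOn
      ((continuousOn_const.mul (hN.mono hKΩ)).neg))
  obtain ⟨zs, hzs, hmax⟩ := hK.exists_isMaxOn hKne hcont
  set M : ℝ := ‖G zs‖ * Real.exp (-(m * N zs)) with hM
  have hM0 : 0 ≤ M := by positivity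
  have hall : ∀ z ∈ Ω, ‖G z‖ ≤ M * Real.exp (m * N z) := by
    intro z hz
    obtain ⟨z', hz', h1⟩ := hGN z hz
    have h2 : ‖G z'‖ * Real.exp (-(m * N z')) ≤ M := hmax hz'
    calc ‖G z‖ ≤ Real.exp (m * (N z - N z')) * ‖G z'‖ := h1
      _ = (‖G z'‖ * Real.exp (-(m * N z'))) * Real.exp (m * N z) := by
        rw [mul_sub, Real.exp_sub, Real.exp_neg]
        field_simp
      _ ≤ M * Real.exp (m * N z) := by gcongr
  obtain ⟨p, hp, hzp⟩ := Set.mem_iUnion₂.1 (htc hzs)
  have hpΩ : p ∈ Ω := hKΩ (htK hp)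
  have hdist : ‖zs - p‖ < R p := by
    rw [mem_ball, dist_eq_norm] at hzp
    exact hzp
  have hin : ∀ s : ℂ, ‖s‖ ≤ Real.exp 1 →
      p + s • (zs - p) ∈ closedBall p (Real.exp 1 * R p) := by
    intro s hs
    rw [mem_closedBall, dist_eq_norm, add_sub_cancel_left, norm_smul]
    have := hdist.le
    gcongr
  have hsch := schwarz_line hΩ hG (p := p) (h := zs - p) (ρ := Real.exp 1)
    (B := M * Real.exp (m * B)) (Real.one_le_exp zero_le_one)
    (fun s hs => hR p (htK hp) (hin s hs)) (fun s hs => by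
      have h1 := hall _ (hR p (htK hp) (hin s hs))
      have h2 : N (p + s • (zs - p)) ≤ B := by
        have h3 := hB (p + s • (zs - p)) (Or.inr (Set.mem_iUnion₂.2 ⟨p, hp, hin s hs⟩))
        exact (le_abs_self _).trans h3
      calc _ ≤ _ := h1
        _ ≤ M * Real.exp (m * B) := by gcongr)
    (fun i hi => line_zero hΩ hG hpΩ (hvan p hp) (zs - p) i hi)
  rw [add_sub_cancel, ← Real.exp_nat_mul, mul_one] at hsch
  have hNs : N zs ≤ B := (le_abs_self _).trans (hB zs (Or.inl hzs))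
  have hNs' : -B ≤ N zs := by
    have := hB zs (Or.inl hzs)
    rw [Real.norm_eq_abs] at this
    exact (abs_le.1 this).1
  have hGzs : ‖G zs‖ = M * Real.exp (m * N zs) := by
    rw [hM, mul_assoc, ← Real.exp_add]
    simp
  have hkey : M * Real.exp (k - 2 * B * m) ≤ M := by
    rw [hGzs] at hsch
    have h1 : M * Real.exp (m * N zs) * Real.exp k =
        M * Real.exp (m * N zs + k) := by
      rw [Real.exp_add]
      ring
    rw [h1] at hsch
    have hmB : (m : ℝ) * (-B) ≤ m * N zs := by gcongr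
    have h2 : M * Real.exp (k - 2 * B * m) =
        (M * Real.exp (m * (-B) + k)) * Real.exp (-(m * B)) := by
      rw [mul_assoc M, ← Real.exp_add]
      congr 2
      ring
    have h3 : (M * Real.exp (m * B)) * Real.exp (-(m * B)) = M := by
      rw [mul_assoc M, ← Real.exp_add]
      simp
    calc M * Real.exp (k - 2 * B * m)
        = (M * Real.exp (m * (-B) + k)) * Real.exp (-(m * B)) := h2
      _ ≤ (M * Real.exp (m * N zs + k)) * Real.exp (-(m * B)) := by gcongr
      _ ≤ (M * Real.exp (m * B)) * Real.exp (-(m * B)) := by gcongr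
      _ = M := h3
  have hlt : (0 : ℝ) < k - 2 * B * m := by
    have h1 : 2 * B ≤ (⌈2 * B⌉₊ : ℝ) := Nat.le_ceil _
    have h2 : ((⌈2 * B⌉₊ * m : ℕ) : ℝ) < k := by exact_mod_cast hk
    push_cast at h2
    have h3 : 2 * B * m ≤ (⌈2 * B⌉₊ : ℝ) * m := by gcongr
    linarith
  have hMz : M = 0 := by
    by_contra hne
    have hpos : 0 < M := lt_of_le_of_ne hM0 (Ne.symm hne)
    have h1 := Real.add_one_lt_exp hlt.ne'
    nlinarith
  intro z hz
  have h1 := hall z hz
  rw [hMz, zero_mul] at h1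
  exact norm_le_zero_iff.1 h1

end van

end GAM
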