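import Pool.Agent.GAM.StA

/-!
# GAM: frozen statements, Fock vectors and the exchange theorem
-/

set_option autoImplicit false

namespace GAM

open scoped ComplexConjugate

/-! ## Fock vectors -/

/-- [GroF] growth of the functions `F_x` and closure properties -/
def St_GroF : Prop := ∀ (ι : Type) [Fintype ι] [DecidableEq ι],
  (∀ (L : Submodule ℤ (ι → ℂ)) (χ θ : (ι → ℂ) → ℂ), PLat L χ → IsTh L χ θ →
    ∀ x, Gro (F θ x)) ∧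
  (∀ G : (ι → ℂ) → ℂ, Gro G → ∀ j, Gro (pd j G)) ∧
  (∀ G : (ι → ℂ) → ℂ, Gro G → ∀ j, Gro (fun v => v j * G v)) ∧
  (∀ G : (ι → ℂ) → ℂ, Gro G → ∀ c : ℂ, Gro (fun v => c * G v)) ∧
  (∀ G G' : (ι → ℂ) → ℂ, Gro G → Gro G' → Gro (fun v => G v + G' v))

/-- [Ell] the Fock functional depends holomorphically on `z` -/
def St_Ell : Prop := ∀ (S : Type) [Fintype S] [DecidableEq S] (v w : S)
  (G : (S × Fin 2 → ℂ) → ℂ), v ≠ w → Gro G →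
  DifferentiableOn ℂ (fun z => ell v w z G) D2 ∧ ell v w 0 G = G 0 ∧
  (∀ z ∈ D2, pd 0 (fun z => ell v w z G) z =
    1 / Real.pi * ell v w z (pd (v, 0) (pd (v, 1) G))) ∧
  (∀ z ∈ D2, pd 1 (fun z => ell v w z G) z =
    1 / Real.pi * ell v w z (pd (w, 0) (pd (w, 1) G)))

/-- [PsiT] the Fock vector at `g 0` is a theta function for the lattice `g⁻¹ L` -/
def St_PsiT : Prop := ∀ (S : Type) [Fintype S] [DecidableEq S] (v w : S) (g : GG v w)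
  (L L' : Submodule ℤ (S × Fin 2 → ℂ)) (χ χ' θ : (S × Fin 2 → ℂ) → ℂ), v ≠ w → PLat L χ →
  IsTh L χ θ → Maps g L' L χ' χ →
  IsTh L' χ' fun u => psi v w θ (mob g 0) (act g u) * Complex.exp (Real.pi / 2 * H u u)

/-- [PsiN] the Fock vectors are not zero -/
def St_PsiN : Prop := ∀ (S : Type) [Fintype S] [DecidableEq S] (v w : S)
  (L : Submodule ℤ (S × Fin 2 → ℂ)) (χ θ : (S × Fin 2 → ℂ) → ℂ), v ≠ w → PLat L χ →
  IsTh L χ θ → (∃ v, θ v ≠ 0) → ∀ z ∈ D2, ∃ x, psi v w θ z x ≠ 0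

/-- [Equi] equivariance -/
def St_Equi : Prop := ∀ (S : Type) [Fintype S] [DecidableEq S] (u v w : S) (g : GG v w)
  (L₀ L₁ : Submodule ℤ (S × Fin 2 → ℂ)) (χ₀ θ₀ χ₁ θ₁ : (S × Fin 2 → ℂ) → ℂ), u ≠ v → u ≠ w →
  v ≠ w → PLat L₀ χ₀ → PLat L₁ χ₁ → IsTh L₀ χ₀ θ₀ → IsTh L₁ χ₁ θ₁ → (∃ v, θ₀ v ≠ 0) →
  (∃ v, θ₁ v ≠ 0) → Maps g L₁ L₀ χ₁ χ₀ → ∀ z ∈ D2, mob g z ∈ D2 ∧ ∃ j : ℂ, j ≠ 0 ∧
    (∀ x, psi v w θ₀ (mob g z) (act g x) = j * psi v w θ₁ z x) ∧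
    ∀ x x', wedge v w u θ₀ (mob g z) (act g x) (act g x') = j ^ 2 * wedge v w u θ₁ z x x'

/-- [PsiL] quasi-periodicity -/
def St_PsiL : Prop := ∀ (S : Type) [Fintype S] [DecidableEq S] (v w : S)
  (L : Submodule ℤ (S × Fin 2 → ℂ)) (χ θ : (S × Fin 2 → ℂ) → ℂ), v ≠ w → PLat L χ →
  IsTh L χ θ → ∀ z, ∀ l ∈ L, ∀ x,
    psi v w θ z (x + l) = χ l * Complex.exp (Real.pi * Complex.I * E x l) * psi v w θ z x ∧
    ∀ u i, dpsi v w u i θ z (x + l) =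
      χ l * Complex.exp (Real.pi * Complex.I * E x l) * dpsi v w u i θ z x

/-- [Sup] the supremum of `|psi_z|` depends continuously on `z` -/
def St_Sup : Prop := ∀ (S : Type) [Fintype S] [DecidableEq S] (v w : S)
  (L : Submodule ℤ (S × Fin 2 → ℂ)) (χ θ : (S × Fin 2 → ℂ) → ℂ), v ≠ w → PLat L χ →
  IsTh L χ θ → (∃ v, θ v ≠ 0) → ∃ N : (Fin 2 → ℂ) → ℝ, ContinuousOn N D2 ∧
    ∀ z ∈ D2, IsLUB (Set.range fun x => ‖psi v w θ z x‖) (Real.exp (N z))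

/-- `b` has the Taylor coefficients `δ(a_n)`; functions on the bidisc. -/
structure IsDelD (δ : Derivation ℚ ℂ ℂ) (a b : (Fin 2 → ℂ) → ℂ) : Prop where
  hol : DifferentiableOn ℂ a D2
  hol' : DifferentiableOn ℂ b D2
  del : ∀ l : List (Fin 2), pdl l b 0 = δ (pdl l a 0)

/-- Rules for `IsDelD`. -/
structure DelDRules (δ : Derivation ℚ ℂ ℂ) : Prop where
  const : ∀ c : ℂ, IsDelD δ (fun _ => c) (fun _ => δ c)
  add : ∀ a a' b b' : (Fin 2 → ℂ) → ℂ, IsDelD δ a a' → IsDelD δ b b' →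
    IsDelD δ (fun v => a v + b v) (fun v => a' v + b' v)
  mul : ∀ a a' b b' : (Fin 2 → ℂ) → ℂ, IsDelD δ a a' → IsDelD δ b b' →
    IsDelD δ (fun v => a v * b v) (fun v => a' v * b v + a v * b' v)
  poly : ∀ (κ : Type) [Fintype κ] [DecidableEq κ] (P : MvPolynomial κ ℂ)
    (f f' : κ → (Fin 2 → ℂ) → ℂ), (∀ i, IsDelD δ (f i) (f' i)) →
    IsDelD δ (fun z => MvPolynomial.eval (fun i => f i z) P)
      (fun z => ∑ m ∈ P.support, δ (P.coeff m) * MvPolynomial.eval (fun i => f i z)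
        (MvPolynomial.monomial m 1) +
        ∑ i, MvPolynomial.eval (fun i => f i z) (MvPolynomial.pderiv i P) * f' i z)
  uniq : ∀ a b b' : (Fin 2 → ℂ) → ℂ, IsDelD δ a b → IsDelD δ a b' → ∀ z ∈ D2, b z = b' z

/-- [DelDR] -/
def St_DelDR : Prop := ∀ δ : Derivation ℚ ℂ ℂ, DelDRules δ

/-- The Euler operator on the bidisc. -/
noncomputable def eulD (B : Fin 2 → ℂ) (f : (Fin 2 → ℂ) → ℂ) (z : Fin 2 → ℂ) : ℂ :=
  ∑ i, B i * z i * pd i f z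

/-- [DelPsi] the action of `δ` on the Fock vectors -/
def St_DelPsi : Prop := ∀ (S : Type) [Fintype S] [DecidableEq S] (u v w : S)
  (δ : Derivation ℚ ℂ ℂ) (L : Submodule ℤ (S × Fin 2 → ℂ)) (χ θ : (S × Fin 2 → ℂ) → ℂ)
  (A : S × Fin 2 → ℂ) (k : ℂ), u ≠ v → u ≠ w → v ≠ w → PLat L χ → IsTh L χ θ →
  HasExp δ L θ A k → ∃ B : Fin 2 → ℂ, ∀ x, OddTor L x →
    IsDelD δ (fun z => psi v w θ z x)
      (fun z => k * psi v w θ z x + eulD B (fun z => psi v w θ z x) z) ∧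
    ∀ i : Fin 2, IsDelD δ (fun z => dpsi v w u i θ z x)
      (fun z => (k + A (u, i)) * dpsi v w u i θ z x + eulD B (fun z => dpsi v w u i θ z x) z)

/-- [Pts] choice of the points of odd order -/
def St_Pts : Prop := ∀ (S : Type) [Fintype S] [DecidableEq S] (u v w : S)
  (L : Submodule ℤ (S × Fin 2 → ℂ)) (χ θ : (S × Fin 2 → ℂ) → ℂ), u ≠ v → u ≠ w → v ≠ w →
  PLat L χ → IsTh L χ θ → (∃ v, θ v ≠ 0) →
  ∃ (x x' : S × Fin 2 → ℂ) (y : Fin 3 → S × Fin 2 → ℂ), OddTor L x ∧ OddTor L x' ∧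
    (∀ i, OddTor L (y i)) ∧ wedge v w u θ 0 x x' ≠ 0 ∧ psi v w θ 0 (y 0) ≠ 0 ∧
    (Matrix.of fun i j : Fin 3 => if j = 0 then F θ (y i) 0 else
      if j = 1 then pd (v, 0) (pd (v, 1) (F θ (y i))) 0 else
        pd (w, 0) (pd (w, 1) (F θ (y i))) 0).det ≠ 0

/-- The four functions on the bidisc. -/
noncomputable def F4 {S : Type} [Fintype S] [DecidableEq S] (v w u : S)
    (θ : (S × Fin 2 → ℂ) → ℂ) (x x' : S × Fin 2 → ℂ) (y : Fin 3 → S × Fin 2 → ℂ)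
    (i : Fin 4) (z : Fin 2 → ℂ) : ℂ :=
  if i = 0 then psi v w θ z (y 0) * psi v w θ z (y 0)
  else if i = 1 then psi v w θ z (y 0) * psi v w θ z (y 1)
  else if i = 2 then psi v w θ z (y 0) * psi v w θ z (y 2)
  else wedge v w u θ z x x'

/-- [Rel] the algebraic relation between the four functions -/
def St_Rel : Prop := ∀ (S : Type) [Fintype S] [DecidableEq S] (u v w : S)
  (L : Submodule ℤ (S × Fin 2 → ℂ)) (χ θ : (S × Fin 2 → ℂ) → ℂ)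
  (x x' : S × Fin 2 → ℂ) (y : Fin 3 → S × Fin 2 → ℂ), u ≠ v → u ≠ w → v ≠ w →
  PLat L χ → IsTh L χ θ → (∃ v, θ v ≠ 0) → Coc v w L → OddTor L x → OddTor L x' →
  (∀ i, OddTor L (y i)) → psi v w θ 0 (y 0) ≠ 0 →
  (Matrix.of fun i j : Fin 3 => if j = 0 then F θ (y i) 0 else
      if j = 1 then pd (v, 0) (pd (v, 1) (F θ (y i))) 0 else
        pd (w, 0) (pd (w, 1) (F θ (y i))) 0).det ≠ 0 →
  ∃ (m : ℕ) (P : MvPolynomial (Fin 4) ℂ), P.IsHomogeneous m ∧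
    (∀ z ∈ D2, MvPolynomial.eval (fun i => F4 v w u θ x x' y i z) P = 0) ∧
    ∃ z ∈ D2, MvPolynomial.eval (fun i => F4 v w u θ x x' y i z)
      (MvPolynomial.pderiv 3 P) ≠ 0

/-- [Core] the exchange theorem, analytic form -/
def St_Core : Prop := ∀ (S : Type) [Fintype S] [DecidableEq S] (u v w : S) (g : GG v w)
  (δ : Derivation ℚ ℂ ℂ)
  (L₀ L₁ : Submodule ℤ (S × Fin 2 → ℂ)) (χ₀ θ₀ χ₁ θ₁ : (S × Fin 2 → ℂ) → ℂ)
  (A₀ A₁ : S × Fin 2 → ℂ) (k₀ k₁ : ℂ), u ≠ v → u ≠ w →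
  v ≠ w → PLat L₀ χ₀ → PLat L₁ χ₁ → IsTh L₀ χ₀ θ₀ → IsTh L₁ χ₁ θ₁ → (∃ v, θ₀ v ≠ 0) →
  (∃ v, θ₁ v ≠ 0) → Maps g L₁ L₀ χ₁ χ₀ → Coc v w L₀ → HasExp δ L₀ θ₀ A₀ k₀ →
  HasExp δ L₁ θ₁ A₁ k₁ → A₀ (u, 0) + A₀ (u, 1) = A₁ (u, 0) + A₁ (u, 1)

/-! ## Arithmetic -/

/-- [Sgn] elements of a CM field with given signs -/
def St_Sgn : Prop := ∀ (K : Type) [Field K] [NumberField K] (c : K →+* K) (S : Type)
  [Fintype S] [DecidableEq S] (φ : S → K →+* ℂ), CMF K c → CMT K c φ →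
  (∀ ε : S → Bool, ∃ κ : K, c κ = κ ∧ ∀ s, (φ s κ).im = 0 ∧
    if ε s then 0 < (φ s κ).re else (φ s κ).re < 0) ∧
  (∀ ε : S → Bool, ∃ ζ : K, c ζ = -ζ ∧ ∀ s, (φ s ζ).re = 0 ∧
    if ε s then 0 < (φ s ζ).im else (φ s ζ).im < 0) ∧
  ∀ (κ : K) (v w : S), v ≠ w → c κ = κ → (∀ s, (φ s κ).re < 0 ↔ s = v ∨ s = w) →
    ∃ a b : K, (φ v (a * c a + κ * (b * c b))).re < 0 ∧
      ∀ s, s ≠ v → 0 < (φ s (a * c a + κ * (b * c b))).re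

/-- [LatK] unimodular lattices in `K × K` -/
def St_LatK : Prop := ∀ (K : Type) [Field K] [NumberField K] (c : K →+* K) (ζ₁ ζ₂ : K),
  CMF K c → c ζ₁ = -ζ₁ → c ζ₂ = -ζ₂ → ζ₁ ≠ 0 → ζ₂ ≠ 0 →
  ∃ (n : ℕ) (e : Module.Basis (Fin n) ℚ (K × K)) (χ : K × K → ℂ),
    (∀ i j, ∃ m : ℤ, Algebra.trace ℚ K (ζ₁ * ((e i).1 * c (e j).1) +
      ζ₂ * ((e i).2 * c (e j).2)) = m) ∧
    (∀ x : K × K, (∀ j, ∃ m : ℤ, Algebra.trace ℚ K (ζ₁ * (x.1 * c (e j).1) +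
      ζ₂ * (x.2 * c (e j).2)) = m) → x ∈ Submodule.span ℤ (Set.range e)) ∧
    (∀ x ∈ Submodule.span ℤ (Set.range e), χ x = 1 ∨ χ x = -1) ∧
    ∀ x ∈ Submodule.span ℤ (Set.range e), ∀ y ∈ Submodule.span ℤ (Set.range e),
      χ (x + y) = χ x * χ y * Complex.exp (Real.pi * Complex.I *
        (Algebra.trace ℚ K (ζ₁ * (x.1 * c y.1) + ζ₂ * (x.2 * c y.2)) : ℚ))

/-- Coordinates on `K × K`: `r φ_s(x_1)` and `r' φ'_s(x_2)`. -/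
noncomputable def coor {S : Type} {K : Type} [Field K] (r : S × Fin 2 → ℝ)
    (φ φ' : S → K →+* ℂ) (x : K × K) : S × Fin 2 → ℂ := fun p =>
  r p * (if p.2 = 0 then φ p.1 x.1 else φ' p.1 x.2)

/-- [Tor] the torus with complex multiplication by `K × K` of type `(φ, φ')` attached to a
lattice in `K × K` -/
def St_TorK : Prop := ∀ (K : Type) [Field K] [NumberField K] (c : K →+* K) (S : Type)
  [Fintype S] [DecidableEq S] (φ φ' : S → K →+* ℂ) (ζ₁ ζ₂ : K) (n : ℕ)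
  (e : Module.Basis (Fin n) ℚ (K × K)) (χ : K × K → ℂ), CMF K c → CMT K c φ → CMT K c φ' →
  c ζ₁ = -ζ₁ → c ζ₂ = -ζ₂ → (∀ s, (φ s ζ₁).im < 0) → (∀ s, (φ' s ζ₂).im < 0) →
  (∀ i j, ∃ m : ℤ, Algebra.trace ℚ K (ζ₁ * ((e i).1 * c (e j).1) +
      ζ₂ * ((e i).2 * c (e j).2)) = m) →
  (∀ x : K × K, (∀ j, ∃ m : ℤ, Algebra.trace ℚ K (ζ₁ * (x.1 * c (e j).1) +
      ζ₂ * (x.2 * c (e j).2)) = m) → x ∈ Submodule.span ℤ (Set.range e)) →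
  (∀ x ∈ Submodule.span ℤ (Set.range e), χ x = 1 ∨ χ x = -1) →
  (∀ x ∈ Submodule.span ℤ (Set.range e), ∀ y ∈ Submodule.span ℤ (Set.range e),
      χ (x + y) = χ x * χ y * Complex.exp (Real.pi * Complex.I *
        (Algebra.trace ℚ K (ζ₁ * (x.1 * c y.1) + ζ₂ * (x.2 * c y.2)) : ℚ))) →
  ∀ r : S × Fin 2 → ℝ, (∀ p, 0 < r p) → (∀ s, r (s, 0) ^ 2 = -2 * (φ s ζ₁).im) →
  (∀ s, r (s, 1) ^ 2 = -2 * (φ' s ζ₂).im) →
  ∃ (L : Submodule ℤ (S × Fin 2 → ℂ)) (χ' : (S × Fin 2 → ℂ) → ℂ) (s : S × Fin 2 → ℂ),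
    PLat L χ' ∧ (∀ v, v ∈ L ↔ ∃ x ∈ Submodule.span ℤ (Set.range e), coor r φ φ' x = v) ∧
    (∀ x ∈ Submodule.span ℤ (Set.range e), χ' (coor r φ φ' x) = χ x) ∧ IsCM L s

/-- [ExpU] exponents are unique -/
def St_ExpU : Prop := ∀ (K : Type) [Field K] [NumberField K] (c : K →+* K) (S : Type)
  [Fintype S] [DecidableEq S] (φ : S → K →+* ℂ) (δ : Derivation ℚ ℂ ℂ) (A A' : S → ℂ),
  CMF K c → CMT K c φ → IsExp δ K φ A → IsExp δ K φ A' → A = A'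

/-- [ExpC] exponents and automorphisms -/
def St_ExpC : Prop := ∀ (K : Type) [Field K] [NumberField K] (S : Type)
  [Fintype S] [DecidableEq S] (φ : S → K →+* ℂ) (δ : Derivation ℚ ℂ ℂ) (A : S → ℂ)
  (g : K ≃+* K), IsExp δ K φ A → IsExp δ K (fun s => (φ s).comp (g : K →+* K)) A

/-- [ExpR] exponents and reindexing -/
def St_ExpR : Prop := ∀ (K : Type) [Field K] [NumberField K] (S S' : Type)
  [Fintype S] [DecidableEq S] [Fintype S'] [DecidableEq S'] (φ : S → K →+* ℂ)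
  (δ : Derivation ℚ ℂ ℂ) (A : S → ℂ) (f : S' ≃ S), IsExp δ K φ A →
  IsExp δ K (fun s => φ (f s)) (fun s => A (f s))

/-- [ExpT] exponents from theta functions -/
def St_ExpT : Prop := ∀ (K : Type) [Field K] [NumberField K] (c : K →+* K) (S ι : Type)
  [Fintype S] [DecidableEq S] [Fintype ι] [DecidableEq ι] (φ : S → K →+* ℂ)
  (δ : Derivation ℚ ℂ ℂ) (L : Submodule ℤ (ι → ℂ)) (χ θ : (ι → ℂ) → ℂ) (A : ι → ℂ) (k : ℂ)
  (j : S → ι) (r : S → ℝ) (M : ℕ), CMF K c → CMT K c φ → PLat L χ → IsTh L χ θ →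
  (∃ v, θ v ≠ 0) → HasExp δ L θ A k → Function.Injective j → (∀ s, 0 < r s) →
  (∀ s, IsAlgebraic ℚ (r s : ℂ)) → M ≠ 0 →
  (∀ x : NumberField.RingOfIntegers K, (∑ s, Pi.single (j s) ((r s : ℂ) *
    φ s ((M : K) * (x : K))) : ι → ℂ) ∈ L) →
  IsExp δ K φ (fun s => A (j s))

/-- [ExpE] existence of exponents -/
def St_ExpE : Prop := ∀ (K : Type) [Field K] [NumberField K] (c : K →+* K) (S : Type)
  [Fintype S] [DecidableEq S] (φ : S → K →+* ℂ) (δ : Derivation ℚ ℂ ℂ),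
  CMF K c → CMT K c φ → ∃ A, IsExp δ K φ A

/-- [CocK] cocompactness of the group of a lattice in `K × K` -/
def St_CocK : Prop := ∀ (K : Type) [Field K] [NumberField K] (c : K →+* K) (S : Type)
  [Fintype S] [DecidableEq S] (φ φ' : S → K →+* ℂ) (κ : K) (u v w : S) (n : ℕ)
  (e : Module.Basis (Fin n) ℚ (K × K)) (r : S × Fin 2 → ℝ)
  (L : Submodule ℤ (S × Fin 2 → ℂ)), CMF K c → CMT K c φ → u ≠ v → u ≠ w → v ≠ w →
  φ' = flip c (flip c φ v) w → c κ = κ → (∀ s, (φ s κ).im = 0) → κ ≠ 0 →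
  (∀ s, (φ s κ).re < 0 ↔ s = v ∨ s = w) → (∀ p, 0 < r p) →
  (∀ s, r (s, 1) ^ 2 = |(φ s κ).re| * r (s, 0) ^ 2) →
  (∀ v, v ∈ L ↔ ∃ x ∈ Submodule.span ℤ (Set.range e), coor r φ φ' x = v) → Coc v w L

/-- [MapK] the element of the group which connects the two CM points -/
def St_MapK : Prop := ∀ (K : Type) [Field K] [NumberField K] (c : K →+* K) (S : Type)
  [Fintype S] [DecidableEq S] (φ : S → K →+* ℂ) (κ ζ₁ : K) (u v w : S) (a b : K)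
  (r : S × Fin 2 → ℝ), CMF K c → CMT K c φ → u ≠ v → u ≠ w → v ≠ w →
  c κ = κ → (∀ s, (φ s κ).im = 0) → κ ≠ 0 →
  (∀ s, (φ s κ).re < 0 ↔ s = v ∨ s = w) → (∀ p, 0 < r p) →
  (∀ s, r (s, 0) ^ 2 = -2 * (φ s ζ₁).im) → c ζ₁ = -ζ₁ → (∀ s, (φ s ζ₁).im < 0) →
  (∀ s, r (s, 1) ^ 2 = |(φ s κ).re| * r (s, 0) ^ 2) →
  (φ v (a * c a + κ * (b * c b))).re < 0 →
  (∀ s, s ≠ v → 0 < (φ s (a * c a + κ * (b * c b))).re) →
  ∃ (r' : S × Fin 2 → ℝ) (g : GG v w) (j : S × Fin 2 ≃ S × Fin 2), (∀ p, 0 < r' p) ∧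
    (∀ s, s ≠ v → j (s, 0) = (s, 0) ∧ j (s, 1) = (s, 1)) ∧
    (j (v, 0) = (v, 1) ∧ j (v, 1) = (v, 0)) ∧
    (∀ s, r' (s, 0) ^ 2 = -2 * (flip c φ v s (ζ₁ * (a * c a + κ * (b * c b)))).im) ∧
    (∀ s, r' (s, 1) ^ 2 = -2 * (flip c φ w s (κ * ζ₁ * (a * c a + κ * (b * c b)))).im) ∧
    ∀ y : K × K, coor r φ (flip c (flip c φ v) w)
        (a * y.1 - κ * c b * y.2, b * y.1 + c a * y.2) =
      act g (fun p => coor r' (flip c φ v) (flip c φ w) y (j p))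

/-- [X] the exchange theorem -/
def St_X : Prop := ∀ (K : Type) [Field K] [NumberField K] (c : K →+* K) (S : Type)
  [Fintype S] [DecidableEq S] (φ : S → K →+* ℂ) (u v w : S) (δ : Derivation ℚ ℂ ℂ)
  (A A' A₁ A₂ : S → ℂ), CMF K c → CMT K c φ → u ≠ v → u ≠ w → v ≠ w → IsExp δ K φ A →
  IsExp δ K (flip c (flip c φ v) w) A' → IsExp δ K (flip c φ v) A₁ →
  IsExp δ K (flip c φ w) A₂ → A u + A' u = A₁ u + A₂ u

end GAM
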